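import Pool.Agent.CRW.Targets3

set_option autoImplicit false

/-!
# CRW: targets, part 4: the general form of the theorem

FINAL THEOREM (FIN): `R(x) > 0` measurable on the plane, `N ≥ 1`, `A ≥ 0`, `D` measurable; for every `x ∈ D` with `R(x)|x| > N` there is
an arc `I ∋ x` of the circle `|y| = |x|` of length `2π|x|/N` such that for all `y ∈ I ∩ D`: `|R(y) - R(x)| ≤ A/|x|` or
`|R(y) - R(x)| ≥ R(x)/N`. Then `∫_D |S_{R(x)} f|² ≤ C ((log(3+log N))^12 + (log(2+A))²) ∫ |f|²`. (It contains ARL, separated radii (which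
may depend on `|x|`), `R(x) ≤ N/|x|` arbitrary.)
Every target `T_X` is to be proved as `theorem p_X : T_X` (targets named in brackets are hypotheses) in a NEW file
`Pool/Agent/CRW/P_X.lean` importing this one, namespace `Pool.Agent.CRW`, helper lemmas in the sub-namespace `X_`.
-/

namespace Pool.Agent.CRW

open MeasureTheory FourierTransform Set Filter Topology
open scoped ENNReal NNReal ComplexConjugate
open Pool.Agent.MBS (E ex S Sstar)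
open Pool.Agent.CRN (ci SH S1 Nice T_CARLS T_POLN T_DSN T_OFFN T_SHL)
open Pool.Agent.CRL (ev rot amode T_MODA T_MODB T_POLC)
open Pool.Agent.CRR (T_HANK T_OSC)

/-- `∫_{|ξ| ≤ R} g(ξ) e^{2πi x·ξ} dξ`; `S f R x = BI (𝓕 f) R x` by `rfl` -/
noncomputable def BI (g : E 2 → ℂ) (R : ℝ) (x : E 2) : ℂ :=
  ∫ ξ in Metric.closedBall (0 : E 2) R, g ξ * ex x ξ

/-- `log (3 + log (3 + t))` -/
noncomputable def L3 (t : ℝ) : ℝ := Real.log (3 + Real.log (3 + t))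

/-- the arcs maximal function on the circle of radius `r`, `N` arcs (the integrand of ARM, for `g` on the Fourier side) -/
noncomputable def AS (N : ℕ) (g : E 2 → ℂ) (r : ℝ) : ℝ≥0∞ :=
  ∑ j ∈ Finset.range N, ⨆ (R : ℝ) (_ : 0 < R),
    ∫⁻ θ in Ioc (-Real.pi + 2 * Real.pi * j / N) (-Real.pi + 2 * Real.pi * (j + 1) / N),
      ‖BI g R (r • ev θ)‖ₑ ^ 2

/-- oscillation over windows of length `A/|x|` -/
noncomputable def OW (A : ℝ) (f : E 2 → ℂ) (x : E 2) : ℝ≥0∞ :=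
  ⨆ (R : ℝ) (R' : ℝ) (_ : 0 < R ∧ 0 < R' ∧ |R - R'| ≤ A / ‖x‖), ‖S f R x - S f R' x‖ₑ

/-- radii `R ≤ N/|x|` -/
noncomputable def GW (N : ℕ) (f : E 2 → ℂ) (x : E 2) : ℝ≥0∞ :=
  ⨆ (R : ℝ) (_ : 0 < R ∧ R * ‖x‖ ≤ N), ‖S f R x‖ₑ

/-- the radii `e^{k/(2N)}` -/
noncomputable def rk (N : ℕ) (k : ℤ) : ℝ := Real.exp (k / (2 * N))

/-- the part of `f^` in the annulus `rk N k < |ξ| ≤ rk N (k+1)` -/
noncomputable def gk (N : ℕ) (f : E 2 → ℂ) (k : ℤ) : E 2 → ℂ :=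
  {ξ : E 2 | rk N k < ‖ξ‖ ∧ ‖ξ‖ ≤ rk N (k + 1)}.indicator (𝓕 f)

/-- local theorem in the growth form (landed: `GRO.p_GSS` with `a = 12`) -/
def T_GS1 : Prop := ∃ C : ℝ≥0, ∀ g : E 2 → ℂ, Measurable g →
  ∫⁻ x in Metric.closedBall (0 : E 2) 1,
    (⨆ (R : ℝ) (_ : 0 < R), ‖BI g R x‖ₑ / ENNReal.ofReal (L3 R ^ 6)) ^ 2 ≤ C * ∫⁻ ξ, ‖g ξ‖ₑ ^ 2

/-! ### I. Growth for all radii, globally -/

/-- **GRW** (90 min; uses OFFN, SHL; template: `CRR/P_OSC.lean` with `OS A f x` replaced by the supremum here, and its `near` replaced by the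
following). `L3 ≥ 1`, so far parts are bounded by `Sstar`. One shell `2^j ≤ |x| < 2^(j+1)`: dilation by `c = 2^(j+1)`, `x = c y`, `1/2 ≤ |y| < 1`,
`S f R (c y) = S (f(c·)) (cR) y`, `R|x| = (cR)|y| ≥ cR/2` and `L3 (t/2) ≥ L3 t / 2`; GS1 for `g = 𝓕 (f(c·))`, Plancherel. -/
def T_GRW : Prop := T_GS1 → ∃ C : ℝ≥0, ∀ f : E 2 → ℂ, Nice f →
  ∫⁻ x, (⨆ (R : ℝ) (_ : 0 < R), ‖S f R x‖ₑ / ENNReal.ofReal (L3 (R * ‖x‖) ^ 6)) ^ 2 ≤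
    C * ∫⁻ x, ‖f x‖ₑ ^ 2

/-- **GLL** (20 min; uses GRW): `R ‖x‖ ≤ N` gives `L3 (R ‖x‖) ≤ L3 N ≤ 2 LL N` (`3 + log (3+N) ≤ (3 + log N)²`). -/
def T_GLL : Prop := T_GS1 → ∃ C : ℝ≥0, ∀ (N : ℕ) (f : E 2 → ℂ), 1 ≤ N → Nice f →
  ∫⁻ x, GW N f x ^ 2 ≤ C * ENNReal.ofReal (LL N ^ 12) * ∫⁻ x, ‖f x‖ₑ ^ 2

/-! ### J. Arcs, for all `g ∈ L²` on the Fourier side -/

/-- **ARG** (75 min; uses ARM). `f_n` Schwartz (hence Nice), `𝓕 f_n → g` in `L²` (see `CRF/P_RMG.lean`, `GRO/P_GLC.lean`). For each `R`: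
`|BI (𝓕 f_n - g) R x| ≤ (πR²)^{1/2} ‖𝓕 f_n - g‖₂`, so `∫_{arc} |BI g R|² ≤ liminf_n`, `AS N g r ≤ liminf_n AS N (𝓕 f_n) r`; Fatou, ARM, Plancherel.
Measurability of `AS`: for each `R` the integral over the arc is a continuous function of `r` (`BI g R` is bounded and continuous), so the supremum
is lower semicontinuous. -/
def T_ARG : Prop := T_DSP → T_HANK → T_CARLS → ∃ C : ℝ≥0, ∀ (N : ℕ) (g : E 2 → ℂ), 1 ≤ N →
  Measurable g → ∫⁻ ξ, ‖g ξ‖ₑ ^ 2 ≠ ⊤ → Measurable (AS N g) ∧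
    ∫⁻ r in Ioi (0 : ℝ), AS N g r * ENNReal.ofReal r ≤
      C * ENNReal.ofReal (LL N ^ 12) * ∫⁻ ξ, ‖g ξ‖ₑ ^ 2

/-! ### K. One circle -/

/-- **OCR** (45 min): representatives. `φ ∈ P ∩ (el, er]` is of type `l` if its interval has `a ≤ el`; otherwise `b ≥ a + 2π/N > er` (type `r`). Let
`k = ⌊2N log (F φ)⌋`, so `rk N k ≤ F φ < rk N (k+1)`. Two points `φ, φ'` of the same type and the same `k`: one of them (the larger one for `l`,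
the smaller one for `r`), say `φ`, has the other one in its interval, and `|F φ' - F φ| < rk N k (e^{1/(2N)} - 1) ≤ F φ / N` (`e^t - 1 ≤ 2t` for `t ≤ 1/2`), so
`|F φ' - F φ| ≤ a0`. `ρ k s` = the value of `F` at a point of type `s` with index `k` (if there is none, `rk N k`). -/
def T_OCR : Prop := ∀ (N : ℕ) (a0 el er : ℝ) (F : ℝ → ℝ) (P : Set ℝ), 1 ≤ N → 0 ≤ a0 →
  er - el ≤ 2 * Real.pi / N → (∀ φ, 0 < F φ) →
  (∀ φ ∈ P, ∃ a b : ℝ, a ≤ φ ∧ φ < b ∧ 2 * Real.pi / N ≤ b - a ∧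
    ∀ ψ ∈ P, a ≤ ψ → ψ < b → |F ψ - F φ| ≤ a0 ∨ F φ / N ≤ |F ψ - F φ|) →
  ∃ ρ : ℤ → Bool → ℝ, (∀ k s, rk N k ≤ ρ k s ∧ ρ k s < rk N (k + 1)) ∧
    ∀ φ ∈ P, el < φ → φ ≤ er → ∃ (k : ℤ) (s : Bool), |F φ - ρ k s| ≤ a0

/-- **OSM** (45 min): measurability: both functions are lower semicontinuous on `x ≠ 0` (`S f R x` is jointly continuous, see `CRR/P_RAD.lean`, and
`S f R x → 0` for `R → 0`; admissible `R`, `R'` for `x` are close to admissible ones for `x'` near `x`); the value at `0` does not matter. -/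
def T_OSM : Prop := ∀ f : E 2 → ℂ, Nice f → (∀ A : ℝ, 0 ≤ A → Measurable (OW A f)) ∧
  ∀ N : ℕ, Measurable (GW N f)

/-- **FIA** (90 min; uses OCR): one circle. The arcs `I_j = (-π+2πj/N, -π+2π(j+1)/N]`; `ρ` from OCR with `a0 = A/r`. For `θ ∈ P ∩ I_j`, `x = r ev θ`:
`|S f (F θ) x| ≤ |S f (ρ k s) x| + OW A f x`, and `S f (ρ k s) x = S f (rk N k) x + BI (gk N f k) (ρ k s) x` (`𝓕 f` is continuous, integrable on
balls), so `‖S f (F θ) x‖² ≤ 3 (sup_k ‖S f (rk N k) x‖)² + 3 Σ_k Σ_s ‖BI (gk N f k) (ρ k s) x‖² + 3 (OW A f x)²`. Integrate over `I_j` (for fixed `ρ`), bound by the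
supremum over `R`, sum over `j`. (Only `OW` may be non-measurable: `lintegral_add_left`.) -/
def T_FIA : Prop := ∀ (N : ℕ) (A r : ℝ) (f : E 2 → ℂ) (F : ℝ → ℝ) (P : Set ℝ), 1 ≤ N → 0 ≤ A →
  0 < r → Nice f → (∀ φ, 0 < F φ) →
  (∀ φ ∈ P, ∃ a b : ℝ, a ≤ φ ∧ φ < b ∧ 2 * Real.pi / N ≤ b - a ∧
    ∀ ψ ∈ P, a ≤ ψ → ψ < b → |F ψ - F φ| ≤ A / r ∨ F φ / N ≤ |F ψ - F φ|) →
  ∫⁻ θ in Ioc (-Real.pi) Real.pi, P.indicator (fun θ => ‖S f (F θ) (r • ev θ)‖ₑ ^ 2) θ ≤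
    3 * (∫⁻ θ in Ioc (-Real.pi) Real.pi, (⨆ k : ℤ, ‖S f (rk N k) (r • ev θ)‖ₑ) ^ 2) +
    6 * (∑' k : ℤ, AS N (gk N f k) r) +
    3 * ∫⁻ θ in Ioc (-Real.pi) Real.pi, OW A f (r • ev θ) ^ 2

/-! ### L. The final theorems -/

/-- **FIN** (90 min; uses FIA, ARG, GLL, OSM, OSC, POLC). Polar coordinates for `1_D ‖S f (R x) x‖²` (measurable, see `P_ARL.lean`). For fixed `r` let
`F φ = R (r ev φ)`, `P = {φ | r ev φ ∈ D, F φ r > N}`: `1_D ‖S‖² ≤ GW² + 1_P ‖S‖²`, FIA. Back by POLC (OSM): `∫ GW²` by GLL, `∫ OW²` by OSC,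
`∫ (sup_k ‖S f (rk N k)‖)²` by T_DSP with `A = {rk N k}`, `δ = 1/(4N)` (`1 - e^{-1/(2N)} ≥ 1/(4N)`, `log (3 + log (4N)) ≤ 2 LL N`), and
`∫ Σ_k AS N (gk N f k) r dr ≤ C LL^12 Σ_k ∫ ‖gk‖² ≤ C LL^12 ∫ ‖f‖²` (ARG; the annuli are disjoint; Plancherel). -/
def T_FIN : Prop := T_DSP → T_HANK → T_CARLS → T_GS1 → ∃ C : ℝ≥0, ∀ (N : ℕ) (A : ℝ)
  (f : E 2 → ℂ) (R : E 2 → ℝ) (D : Set (E 2)), 1 ≤ N → 0 ≤ A → Nice f → Measurable R →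
  (∀ x, 0 < R x) → MeasurableSet D →
  (∀ r φ : ℝ, 0 < r → r • ev φ ∈ D → R (r • ev φ) * r ≤ N ∨
    ∃ a b : ℝ, a ≤ φ ∧ φ < b ∧ 2 * Real.pi / N ≤ b - a ∧
      ∀ ψ : ℝ, a ≤ ψ → ψ < b → r • ev ψ ∈ D → |R (r • ev ψ) - R (r • ev φ)| ≤ A / r ∨
        R (r • ev φ) / N ≤ |R (r • ev ψ) - R (r • ev φ)|) →
    ∫⁻ x in D, ‖S f (R x) x‖ₑ ^ 2 ≤
      C * ENNReal.ofReal (LL N ^ 12 + Real.log (2 + A) ^ 2) * ∫⁻ x, ‖f x‖ₑ ^ 2

/-- **MWC** (60 min; uses MWN): all windows. `q = w / K` (floor), `w ∈ [Kq, Kq+K)`: for `x ≠ 0` `f x = pv K (Kq) f x + pv K (K(q+1)) f x`, since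
`amode m f (r ev θ) = c_k(r) e^{imθ}` if `m = w + k`, `0 ≤ k < K`, and `0` otherwise. So `Sstar f ≤` the sum of the two maximal functions (`pv` is Nice), MWN. -/
def T_MWC : Prop := T_DSP → T_HANK → T_CARLS → ∃ C : ℝ≥0, ∀ (K : ℕ) (w : ℤ) (f : E 2 → ℂ)
  (c : ℕ → ℝ → ℂ), 1 ≤ K → Nice f →
  (∀ r θ : ℝ, 0 < r → f (r • ev θ) = ∑ k ∈ Finset.range K, c k r * ci (((w : ℝ) + k) * θ)) →
    ∫⁻ x, Sstar f x ^ 2 ≤ C * ENNReal.ofReal (LL K ^ 12) * ∫⁻ x, ‖f x‖ₑ ^ 2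

end Pool.Agent.CRW
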