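import Pool.Agent.CRW.Targets3

set_option autoImplicit false

/-!
# CRW: one thin annulus near the origin (target ANB)
-/

namespace Pool.Agent.CRW

open MeasureTheory FourierTransform Set Filter Topology
open scoped ENNReal NNReal ComplexConjugate
open Pool.Agent.MBS (E ex S Sstar)
open Pool.Agent.CRN (ci sg SH S1 Nice T_DSN)
open Pool.Agent.CRR (T_AHT)

namespace ANB_

theorem fourier_cont {g : E 2 → ℂ} (hg : Integrable g) : Continuous (𝓕 g) :=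
  VectorFourier.fourierIntegral_continuous Real.continuous_fourierChar
    (by simp only [innerₗ_apply_apply]; fun_prop) hg

theorem sqrt_sq (X : ℝ≥0∞) : (X ^ (1 / (2 : ℝ))) ^ 2 = X := by
  rw [← ENNReal.rpow_natCast, ← ENNReal.rpow_mul]
  norm_num

theorem le_sqrt {X K : ℝ≥0∞} (h : X ^ 2 ≤ K) : X ≤ K ^ (1 / (2 : ℝ)) := by
  have h1 := ENNReal.rpow_le_rpow h (show (0 : ℝ) ≤ 1 / 2 by norm_num)
  rw [← ENNReal.rpow_natCast, ← ENNReal.rpow_mul] at h1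
  norm_num at h1
  simpa using h1

theorem cs {F : ℝ → ℝ≥0∞} (hF : Measurable F) (a b : ℝ) :
    (∫⁻ r in Ioc a b, F r) ^ 2 ≤ ENNReal.ofReal (b - a) * ∫⁻ r in Ioc a b, F r ^ 2 := by
  have h := ENNReal.lintegral_mul_le_Lp_mul_Lq (volume.restrict (Ioc a b))
    Real.HolderConjugate.two_two (f := F) (g := fun _ => 1) hF.aemeasurable
    measurable_const.aemeasurable
  have h2 := pow_le_pow_left' h 2
  rw [mul_pow, sqrt_sq, sqrt_sq] at h2
  have h3 : ∫⁻ _ : ℝ in Ioc a b, (1 : ℝ≥0∞) ^ (2 : ℝ) = ENNReal.ofReal (b - a) := by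
    simp only [ENNReal.one_rpow, lintegral_const, one_mul, Measure.restrict_apply_univ,
      Real.volume_Ioc]
  simp only [Pi.mul_apply, mul_one] at h2
  rw [h3] at h2
  refine h2.trans (le_of_eq ?_)
  rw [mul_comm]
  congr 1
  refine lintegral_congr fun r => ?_
  simp

/-- the annulus -/
def AA (R0 R1 : ℝ) : Set (E 2) := {ξ : E 2 | R0 ≤ ‖ξ‖ ∧ ‖ξ‖ ≤ R1}

theorem AA_meas (R0 R1 : ℝ) : MeasurableSet (AA R0 R1) :=
  (measurableSet_le measurable_const measurable_norm).inter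
    (measurableSet_le measurable_norm measurable_const)

theorem SH_restrict (F : E 2 → ℂ) {R0 R1 r : ℝ} (h0 : 0 < R0) (h1 : R0 ≤ r) (h2 : r ≤ R1)
    (x : E 2) : SH F r x = SH ((AA R0 R1).indicator F) r x := by
  unfold SH
  congr 1
  refine integral_congr_ae (Filter.Eventually.of_forall fun ω => ?_)
  have hn : ‖r • (ω : E 2)‖ = r := by
    rw [norm_smul, Real.norm_of_nonneg (h0.le.trans h1), norm_eq_of_mem_sphere, mul_one]
  have hm : r • (ω : E 2) ∈ AA R0 R1 := by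
    refine ⟨?_, ?_⟩
    · rw [hn]
      exact h1
    · rw [hn]
      exact h2
  simp only [Set.indicator_of_mem hm]

/-- the pointwise bound -/
theorem pointwise {f : E 2 → ℂ} (hc : Continuous (fun p : ℝ × E 2 => S1 f p.1 p.2))
    (hd : ∀ (x : E 2) (a b : ℝ), 0 ≤ a → a ≤ b → S f b x = S f a x + ∫ r in a..b, S1 f r x)
    {R0 R1 : ℝ} (h0 : 0 < R0) (x : E 2) :
    (⨆ (R : ℝ) (_ : R0 ≤ R ∧ R ≤ R1), ‖S f R x - S f R0 x‖ₑ) ^ 2 ≤
      ENNReal.ofReal (R1 - R0) * ∫⁻ r in Ioc R0 R1, ‖S1 f r x‖ₑ ^ 2 := by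
  set K : ℝ≥0∞ := ENNReal.ofReal (R1 - R0) * ∫⁻ r in Ioc R0 R1, ‖S1 f r x‖ₑ ^ 2 with hK
  have hcx : Continuous fun r : ℝ => S1 f r x := hc.comp (Continuous.prodMk_left x)
  have key : ∀ R : ℝ, (R0 ≤ R ∧ R ≤ R1) → ‖S f R x - S f R0 x‖ₑ ≤ K ^ (1 / (2 : ℝ)) := by
    intro R hR
    refine le_sqrt ?_
    have h1 : ‖S f R x - S f R0 x‖ₑ ≤ ∫⁻ r in Ioc R0 R1, ‖S1 f r x‖ₑ := by
      rw [hd x R0 R h0.le hR.1, add_sub_cancel_left, intervalIntegral.integral_of_le hR.1]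
      refine (enorm_integral_le_lintegral_enorm _).trans (lintegral_mono_set ?_)
      exact Ioc_subset_Ioc_right hR.2
    exact (pow_le_pow_left' h1 2).trans (cs hcx.measurable.enorm _ _)
  calc (⨆ (R : ℝ) (_ : R0 ≤ R ∧ R ≤ R1), ‖S f R x - S f R0 x‖ₑ) ^ 2
      ≤ (K ^ (1 / (2 : ℝ))) ^ 2 := pow_le_pow_left' (iSup₂_le key) 2
    _ = K := sqrt_sq K

end ANB_

open ANB_ in
theorem p_ANB (h1 : T_DSN) (h2 : T_AHT) : T_ANB := by
  obtain ⟨C, hC⟩ := h2 2 le_rfl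
  refine ⟨2 * C, fun f R0 δ hf hR hδ hδ1 => ?_⟩
  obtain ⟨hc, hd⟩ := h1 2 f le_rfl hf
  set R1 : ℝ := R0 * Real.exp δ with hR1
  set T : ℝ := 1 / (δ * R0) with hT
  have hT0 : 0 < T := by positivity
  have hdiff : R1 - R0 ≤ 2 * δ * R0 := by
    have h3 : |Real.exp δ - 1| ≤ 2 * |δ| :=
      Real.abs_exp_sub_one_le (by rw [abs_of_pos hδ]; exact hδ1)
    have h4 : Real.exp δ - 1 ≤ 2 * δ := by
      rw [abs_of_pos hδ] at h3
      exact (le_abs_self _).trans h3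
    have h5 : R1 - R0 = R0 * (Real.exp δ - 1) := by
      rw [hR1]
      ring
    rw [h5]
    calc R0 * (Real.exp δ - 1) ≤ R0 * (2 * δ) := mul_le_mul_of_nonneg_left h4 hR.le
      _ = 2 * δ * R0 := by ring
  have hFm : Measurable ((AA R0 R1).indicator (𝓕 f)) :=
    (fourier_cont hf.int).measurable.indicator (AA_meas R0 R1)
  have hm2 : Measurable fun p : E 2 × ℝ => ‖S1 f p.2 p.1‖ₑ ^ 2 :=
    (hc.comp (continuous_snd.prodMk continuous_fst)).measurable.enorm.pow_const 2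
  have hsw : ∫⁻ x in Metric.closedBall (0 : E 2) T, ∫⁻ r in Ioc R0 R1, ‖S1 f r x‖ₑ ^ 2 ≤
      C * ENNReal.ofReal T * ∫⁻ ξ in AA R0 R1, ‖𝓕 f ξ‖ₑ ^ 2 := by
    rw [lintegral_lintegral_swap hm2.aemeasurable]
    have e1 : ∫⁻ ξ, ‖(AA R0 R1).indicator (𝓕 f) ξ‖ₑ ^ 2 =
        ∫⁻ ξ in AA R0 R1, ‖𝓕 f ξ‖ₑ ^ 2 := by
      rw [← lintegral_indicator (AA_meas R0 R1)]
      refine lintegral_congr fun ξ => ?_
      by_cases hξ : ξ ∈ AA R0 R1
      · simp [hξ]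
      · simp [hξ]
    rw [← e1]
    refine le_trans ?_ (hC T _ hT0 hFm)
    have e2 : ∫⁻ r in Ioc R0 R1, ∫⁻ x in Metric.closedBall (0 : E 2) T, ‖S1 f r x‖ₑ ^ 2 =
        ∫⁻ r in Ioc R0 R1, ∫⁻ x in Metric.closedBall (0 : E 2) T,
          ‖SH ((AA R0 R1).indicator (𝓕 f)) r x‖ₑ ^ 2 := by
      refine setLIntegral_congr_fun measurableSet_Ioc ?_
      intro r hr
      simp only
      refine lintegral_congr fun x => ?_
      rw [← SH_restrict (𝓕 f) hR hr.1.le hr.2 x]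
      rfl
    rw [e2]
    refine lintegral_mono_set ?_
    intro r hr
    exact hR.trans hr.1
  calc ∫⁻ x in Metric.closedBall (0 : E 2) T,
        (⨆ (R : ℝ) (_ : R0 ≤ R ∧ R ≤ R1), ‖S f R x - S f R0 x‖ₑ) ^ 2
      ≤ ∫⁻ x in Metric.closedBall (0 : E 2) T,
          ENNReal.ofReal (R1 - R0) * ∫⁻ r in Ioc R0 R1, ‖S1 f r x‖ₑ ^ 2 :=
        lintegral_mono fun x => pointwise hc hd hR x
    _ = ENNReal.ofReal (R1 - R0) *
          ∫⁻ x in Metric.closedBall (0 : E 2) T, ∫⁻ r in Ioc R0 R1, ‖S1 f r x‖ₑ ^ 2 :=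
        lintegral_const_mul' _ _ ENNReal.ofReal_ne_top
    _ ≤ ENNReal.ofReal (2 * δ * R0) *
          (C * ENNReal.ofReal T * ∫⁻ ξ in AA R0 R1, ‖𝓕 f ξ‖ₑ ^ 2) :=
        mul_le_mul' (ENNReal.ofReal_le_ofReal hdiff) hsw
    _ = (ENNReal.ofReal (2 * δ * R0) * ENNReal.ofReal T) * C *
          ∫⁻ ξ in AA R0 R1, ‖𝓕 f ξ‖ₑ ^ 2 := by ring
    _ = ((2 * C : ℝ≥0) : ℝ≥0∞) * ∫⁻ ξ in AA R0 R1, ‖𝓕 f ξ‖ₑ ^ 2 := by
        rw [← ENNReal.ofReal_mul (by positivity)]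
        have e3 : 2 * δ * R0 * T = 2 := by
          rw [hT]
          field_simp
        rw [e3]
        push_cast
        congr 2
        simp
    _ = _ := rfl

end Pool.Agent.CRW
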