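import Pool.Agent.CRW.Targets3
import Pool.Agent.CRL.H47

set_option autoImplicit false

/-!
# CRW-ANC: one thin annulus away from the origin, for a window of angular frequencies
-/

namespace Pool.Agent.CRW

open MeasureTheory FourierTransform Set Filter Topology
open scoped ENNReal NNReal ComplexConjugate
open Pool.Agent.MBS (E ex S Sstar)
open Pool.Agent.CAR (e1)
open Pool.Agent.CRN (ci sg SH S1 Nice T_CARLS T_POLN T_DSN)
open Pool.Agent.CRL (ev rot amode T_MODA T_MODB T_POLC)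
open Pool.Agent.CRR (PP Sol xc E2 NSol kap EB co T_SEQ T_HANK T_GM T_UNI T_SYM T_AHT T_OSC)

namespace ANC_

theorem lint_log (φ : ℝ → ℝ≥0∞) :
    ∫⁻ r in Ioi (0 : ℝ), ENNReal.ofReal r⁻¹ * φ (Real.log r) = ∫⁻ u, φ u := by
  have h := lintegral_image_eq_lintegral_abs_deriv_mul (s := univ) MeasurableSet.univ
    (fun x _ => (Real.hasDerivAt_exp x).hasDerivWithinAt) Real.exp_injective.injOn
    (fun r => ENNReal.ofReal r⁻¹ * φ (Real.log r))
  rw [Set.image_univ, Real.range_exp] at h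
  rw [h, Measure.restrict_univ]
  refine lintegral_congr fun u => ?_
  rw [Real.log_exp, abs_of_pos (Real.exp_pos u), ← mul_assoc, ← ENNReal.ofReal_mul
    (Real.exp_pos u).le, mul_inv_cancel₀ (Real.exp_pos u).ne', ENNReal.ofReal_one, one_mul]

theorem ci_period (k : ℕ) (φ : ℝ) : ci (k * (φ + 2 * Real.pi)) = ci (k * φ) := by
  unfold ci
  rw [Complex.exp_eq_exp_iff_exists_int]
  refine ⟨k, ?_⟩
  push_cast
  ring

theorem norm_ci (t : ℝ) : ‖ci t‖ = 1 := Complex.norm_exp_ofReal_mul_I t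

theorem ci_add (a b : ℝ) : ci (a + b) = ci a * ci b := by
  unfold ci
  rw [← Complex.exp_add]
  congr 1
  push_cast
  ring

theorem conj_ci (t : ℝ) : conj (ci t) = ci (-t) := by
  unfold ci
  rw [← Complex.exp_conj]
  congr 1
  rw [map_mul, Complex.conj_ofReal, Complex.conj_I]
  push_cast
  ring

theorem norm_ev (θ : ℝ) : ‖ev θ‖ = 1 := by
  have h : ‖ev θ‖ ^ 2 = 1 := by
    rw [EuclideanSpace.norm_sq_eq, Fin.sum_univ_two]
    simp only [Real.norm_eq_abs, sq_abs]
    unfold ev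
    simp
  have h0 := norm_nonneg (ev θ)
  nlinarith

/-- change of the period interval -/
theorem per_eq {F : ℝ → ℝ≥0∞} (hF : ∀ θ, F (θ + 2 * Real.pi) = F θ) (s t : ℝ) :
    ∫⁻ θ in Ioc s (s + 2 * Real.pi), F θ = ∫⁻ θ in Ioc t (t + 2 * Real.pi), F θ := by
  have hp : (0 : ℝ) < 2 * Real.pi := by positivity
  exact (isAddFundamentalDomain_Ioc hp s).setLIntegral_eq
    (isAddFundamentalDomain_Ioc hp t) F (by
      rintro ⟨g, hg⟩ x
      obtain ⟨n, rfl⟩ := AddSubgroup.mem_zmultiples_iff.1 hg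
      have hper : Function.Periodic F (2 * Real.pi) := hF
      rw [AddSubgroup.vadd_def, vadd_eq_add, add_comm]
      exact hper.zsmul n x)

theorem WM_per (K : ℕ) (κ g : ℕ → ℝ → ℂ) (u φ : ℝ) :
    WM K κ g u (φ + 2 * Real.pi) = WM K κ g u φ := by
  unfold WM
  simp only [ci_period]

/-- from the plane to the logarithmic variables -/
theorem core (h4 : T_POLC) (D : E 2 → ℝ≥0∞) (hD : Measurable D) (R0 q v0 : ℝ) (hR0 : 0 < R0)
    (hv0 : Real.log R0 ≤ v0) (W : ℝ → ℝ → ℝ≥0∞) (hper : ∀ u φ, W u (φ + 2 * Real.pi) = W u φ)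
    (hbd : ∀ r θ, 0 < r → D (r • ev θ) ≤
      ENNReal.ofReal (2 * Real.pi * r)⁻¹ * W (Real.log r) θ) :
    ∫⁻ x in {x : E 2 | Real.exp q ≤ ‖x‖ * R0}, D x ^ 2 ≤
      ∫⁻ u in Ici (q - v0), ∫⁻ φ in Ioc (0 : ℝ) (2 * Real.pi), W u φ ^ 2 := by
  have hA : MeasurableSet {x : E 2 | Real.exp q ≤ ‖x‖ * R0} :=
    measurableSet_le measurable_const (measurable_norm.mul_const R0)
  have hpi := Real.pi_pos
  rw [← lintegral_indicator hA, h4.1 _ ((hD.pow_const 2).indicator hA)]
  set Φ : ℝ → ℝ≥0∞ := (Ici (q - v0)).indicator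
    (fun u => ∫⁻ φ in Ioc (-Real.pi) Real.pi, W u φ ^ 2) with hΦ
  have h1 : ∫⁻ r in Ioi (0 : ℝ), ∫⁻ θ in Ioc (-Real.pi) Real.pi, ENNReal.ofReal r *
      ({x : E 2 | Real.exp q ≤ ‖x‖ * R0}).indicator (fun x => D x ^ 2) (r • ev θ) ≤
      ∫⁻ r in Ioi (0 : ℝ), ENNReal.ofReal r⁻¹ * Φ (Real.log r) := by
    refine setLIntegral_mono' measurableSet_Ioi fun r hr => ?_
    have hr0 : 0 < r := hr
    have hn : ∀ θ, ‖r • ev θ‖ = r := fun θ => by
      rw [norm_smul, norm_ev, mul_one, Real.norm_of_nonneg hr0.le]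
    by_cases hx : Real.exp q ≤ r * R0
    · have hmem : Real.log r ∈ Ici (q - v0) := by
        have h5 : q ≤ Real.log (r * R0) := by
          rw [Real.le_log_iff_exp_le (by positivity)]
          exact hx
        rw [Real.log_mul hr0.ne' hR0.ne'] at h5
        rw [mem_Ici]
        linarith
      rw [hΦ, indicator_of_mem hmem, ← lintegral_const_mul' _ _ ENNReal.ofReal_ne_top]
      refine lintegral_mono fun θ => ?_
      have hm : r • ev θ ∈ {x : E 2 | Real.exp q ≤ ‖x‖ * R0} := by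
        show Real.exp q ≤ ‖r • ev θ‖ * R0
        rw [hn]
        exact hx
      rw [indicator_of_mem hm]
      have h6 := hbd r θ hr0
      calc ENNReal.ofReal r * D (r • ev θ) ^ 2 ≤ ENNReal.ofReal r *
            (ENNReal.ofReal (2 * Real.pi * r)⁻¹ * W (Real.log r) θ) ^ 2 := by gcongr
        _ = ENNReal.ofReal (r * ((2 * Real.pi * r)⁻¹) ^ 2) * W (Real.log r) θ ^ 2 := by
          rw [mul_pow, ← mul_assoc, ENNReal.ofReal_mul hr0.le,
            ENNReal.ofReal_pow (by positivity)]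
        _ ≤ ENNReal.ofReal r⁻¹ * W (Real.log r) θ ^ 2 := by
          gcongr
          have e : r * ((2 * Real.pi * r)⁻¹) ^ 2 = r⁻¹ * ((2 * Real.pi)⁻¹) ^ 2 := by
            field_simp
          rw [e]
          have h7 : (2 * Real.pi)⁻¹ ≤ 1 := by
            rw [inv_le_one₀ (by positivity)]
            linarith [Real.pi_gt_three]
          have h8 : ((2 * Real.pi)⁻¹) ^ 2 ≤ 1 := pow_le_one₀ (by positivity) h7
          have h9 : 0 < r⁻¹ := by positivity
          nlinarith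
    · have h0 : ∀ θ, ({x : E 2 | Real.exp q ≤ ‖x‖ * R0}).indicator (fun x => D x ^ 2)
          (r • ev θ) = 0 := by
        intro θ
        refine indicator_of_notMem ?_ _
        intro hm
        have hm' : Real.exp q ≤ ‖r • ev θ‖ * R0 := hm
        rw [hn] at hm'
        exact hx hm'
      simp only [h0, mul_zero, lintegral_zero]
      exact zero_le
  refine h1.trans ?_
  rw [lint_log, hΦ, lintegral_indicator measurableSet_Ici]
  refine le_of_eq (lintegral_congr fun u => ?_)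
  have h2 := per_eq (F := fun φ => W u φ ^ 2) (fun θ => by simp only [hper]) (-Real.pi) 0
  rw [zero_add, show -Real.pi + 2 * Real.pi = Real.pi by ring] at h2
  exact h2

theorem nice' {f : E 2 → ℂ} (hf : Nice f) : Pool.Agent.CRL.Nice f := ⟨hf.meas, hf.int, hf.sq⟩

theorem nice'' {f : E 2 → ℂ} (hf : Pool.Agent.CRL.Nice f) : Nice f := ⟨hf.meas, hf.int, hf.sq⟩

theorem S_pv (h5 : T_MODA) (K : ℕ) (w : ℤ) {f : E 2 → ℂ} (hf : Nice f) (R : ℝ) (x : E 2) :
    S (pv K w f) R x = ∑ k ∈ Finset.range K, S (amode (w + k) f) R x :=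
  Pool.Agent.CRL.H47_.S_sum (Finset.range K) (fun k => amode (w + (k : ℤ)) f)
    (fun k _ => (h5 (w + (k : ℤ)) f (nice' hf)).1) R x

theorem pv_nice (h5 : T_MODA) (K : ℕ) (w : ℤ) {f : E 2 → ℂ} (hf : Nice f) :
    Pool.Agent.CRL.Nice (pv K w f) :=
  Pool.Agent.CRL.H47_.nice_sum (Finset.range K) (fun k => amode (w + (k : ℤ)) f)
    (fun k _ => (h5 (w + (k : ℤ)) f (nice' hf)).1)

theorem J_cont {ν : ℝ} {J J' : ℝ → ℝ} (h : NSol ν J J') : Continuous J :=
  continuous_iff_continuousAt.2 fun x => (h.sol.d1 x).continuousAt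

/-- the difference of two disc sums on a ray -/
theorem diff (h1 : T_SCM) (h2 : T_LGV) (h5 : T_MODA) {J J' : ℤ → ℝ → ℝ}
    (hJ : ∀ m : ℤ, NSol |(m : ℝ)| (J m) (J' m)) (K : ℕ) (w : ℤ) {R0 : ℝ} {f : E 2 → ℂ}
    {G : ℤ → ℝ → ℂ} (hR0 : 0 < R0) (hf : Nice f) (hG : ∀ m, Measurable (G m))
    (hcm : ∀ (m : ℤ) (ρ r : ℝ), 0 < ρ → 0 < r →
      cm (SH (𝓕 f) ρ) m r = G m ρ * J m (Real.log (2 * Real.pi * r * ρ)))
    {R r : ℝ} (θ : ℝ) (hR : R0 ≤ R) (hr : 0 < r) :
    S (pv K w f) R (r • ev θ) - S (pv K w f) R0 (r • ev θ) =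
      (((2 * Real.pi * r)⁻¹ : ℝ) : ℂ) * ∑ k ∈ Finset.range K, ci (((w + k : ℤ) : ℝ) * θ) *
        ∫ v in Ioc (Real.log (2 * Real.pi * R0)) (Real.log (2 * Real.pi * R)),
          kap (J (w + k)) (Real.log r + v) * G (w + k) (Real.exp v / (2 * Real.pi)) := by
  rw [S_pv h5 K w hf, S_pv h5 K w hf, ← Finset.sum_sub_distrib, Finset.mul_sum]
  refine Finset.sum_congr rfl fun k _ => ?_
  have hR' : 0 ≤ R := hR0.le.trans hR
  obtain ⟨-, a2, a3⟩ := h1 f hf (w + k) R hR'
  obtain ⟨-, b2, -⟩ := h1 f hf (w + k) R0 hR0.le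
  rw [a2, b2, ← mul_sub, a3 R0 r hR0.le hR]
  have e : ∫ ρ in Ioc R0 R, cm (SH (𝓕 f) ρ) (w + k) r =
      ∫ ρ in Ioc R0 R, G (w + k) ρ * J (w + k) (Real.log (2 * Real.pi * r * ρ)) :=
    setIntegral_congr_fun measurableSet_Ioc fun ρ hρ => hcm _ ρ r (hR0.trans hρ.1) hr
  rw [e, ((h2.1) (G (w + k)) (J (w + k)) r R0 R (hG _) (J_cont (hJ _)) hr hR0 hR).1]
  ring

/-- the truncated coefficient functions -/
noncomputable def gg (G : ℤ → ℝ → ℂ) (v0 δ : ℝ) (m : ℤ) : ℝ → ℂ :=
  (Ioc v0 (v0 + δ)).indicator (fun v => G m (Real.exp v / (2 * Real.pi)))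

theorem gg_meas {G : ℤ → ℝ → ℂ} (hG : ∀ m, Measurable (G m)) (v0 δ : ℝ) (m : ℤ) :
    Measurable (gg G v0 δ m) :=
  ((hG m).comp (Real.measurable_exp.div_const _)).indicator measurableSet_Ioc

theorem gg_supp (G : ℤ → ℝ → ℂ) (v0 δ : ℝ) (m : ℤ) (v : ℝ) (hv : v ∉ Ioc v0 (v0 + δ)) :
    gg G v0 δ m v = 0 := indicator_of_notMem hv _

theorem enorm_inv {x : ℝ} (hx : 0 < x) : ‖((x⁻¹ : ℝ) : ℂ)‖ₑ = ENNReal.ofReal x⁻¹ := by
  rw [← ofReal_norm, Complex.norm_real, Real.norm_of_nonneg (by positivity)]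

theorem log_range {R0 δ R : ℝ} (hR0 : 0 < R0) (hR : R0 ≤ R) (hR' : R ≤ R0 * Real.exp δ) :
    Real.log (2 * Real.pi * R) ≤ Real.log (2 * Real.pi * R0) + δ := by
  have hpi := Real.pi_pos
  have h0 : 0 < R := lt_of_lt_of_le hR0 hR
  rw [Real.log_le_iff_le_exp (by positivity), Real.exp_add, Real.exp_log (by positivity)]
  have := mul_le_mul_of_nonneg_left hR' (by positivity : 0 ≤ 2 * Real.pi)
  linarith

/-- the integral with the truncated coefficients -/
theorem int_gg (J : ℝ → ℝ) (G : ℤ → ℝ → ℂ) (m : ℤ) (u : ℝ) {v0 V δ : ℝ} (hV : V ≤ v0 + δ) :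
    ∫ v in Ioc v0 V, kap J (u + v) * G m (Real.exp v / (2 * Real.pi)) =
      ∫ v in Ioc v0 V, kap J (u + v) * gg G v0 δ m v := by
  refine setIntegral_congr_fun measurableSet_Ioc fun v hv => ?_
  have hm : v ∈ Ioc v0 (v0 + δ) := ⟨hv.1, hv.2.trans hV⟩
  have : gg G v0 δ m v = G m (Real.exp v / (2 * Real.pi)) := indicator_of_mem hm _
  simp only [this]

end ANC_

open ANC_ in
theorem p_ANC (h1 : T_SCM) (h2 : T_LGV) (h3 : T_WCW) (h4 : T_POLC) (h5 : T_MODA) : T_ANC := by
  intro hH hC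
  obtain ⟨C, B, hB, hW⟩ := h3 hH hC
  refine ⟨C, B, hB, ?_⟩
  intro J J' hJ K w δ R0 f G hK hw hR0 hδ hδB hf hG hcm
  have hpi := Real.pi_pos
  set q := 100 * (B * (1 + Real.log K) ^ 2) with hq
  set v0 := Real.log (2 * Real.pi * R0) with hv0
  have hv0' : Real.log R0 ≤ v0 := by
    rw [hv0, Real.log_mul (by positivity) hR0.ne']
    have : 0 ≤ Real.log (2 * Real.pi) := Real.log_nonneg (by linarith [Real.pi_gt_three])
    linarith
  set D : E 2 → ℝ≥0∞ := fun x => ⨆ (R : ℝ) (_ : R0 ≤ R ∧ R ≤ R0 * Real.exp δ),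
    ‖S (pv K w f) R x - S (pv K w f) R0 x‖ₑ with hD
  have hDm : Measurable D := by
    refine LowerSemicontinuous.measurable ?_
    refine lowerSemicontinuous_iSup fun R => lowerSemicontinuous_iSup fun _ => ?_
    exact (((Pool.Agent.CRL.H47_.S_cont (pv_nice h5 K w hf) R).sub
      (Pool.Agent.CRL.H47_.S_cont (pv_nice h5 K w hf) R0)).enorm).lowerSemicontinuous
  have hend : Real.log (2 * Real.pi * (R0 * Real.exp δ)) = v0 + δ := by
    rw [show 2 * Real.pi * (R0 * Real.exp δ) = 2 * Real.pi * R0 * Real.exp δ by ring,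
      Real.log_mul (by positivity) (Real.exp_pos δ).ne', Real.log_exp]
  have hsq : ∀ m : ℤ, ∫⁻ v, ‖gg G v0 δ m v‖ₑ ^ 2 =
      ∫⁻ ρ in Ioc R0 (R0 * Real.exp δ), ‖G m ρ‖ₑ ^ 2 * ENNReal.ofReal ρ⁻¹ := by
    intro m
    have h6 : R0 ≤ R0 * Real.exp δ := by
      have := Real.one_le_exp hδ.le
      nlinarith
    have h7 := (h2.1 (G m) (J m) 1 R0 (R0 * Real.exp δ) (hG m) (J_cont (hJ m)) one_pos hR0 h6).2
    rw [hend, ← hv0] at h7
    rw [← h7, ← lintegral_indicator measurableSet_Ioc]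
    refine lintegral_congr fun v => ?_
    unfold gg
    by_cases hv : v ∈ Ioc v0 (v0 + δ)
    · rw [indicator_of_mem hv, indicator_of_mem hv]
    · rw [indicator_of_notMem hv, indicator_of_notMem hv]
      simp
  rcases hw with hw | hw
  · -- nonnegative frequencies
    have hwr : (0 : ℝ) ≤ (w : ℝ) := by exact_mod_cast hw
    have hN : ∀ k < K, NSol ((w : ℝ) + k) (J (w + k)) (J' (w + k)) := by
      intro k _
      have := hJ (w + k)
      have e : |((w + k : ℤ) : ℝ)| = (w : ℝ) + k := by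
        push_cast
        exact abs_of_nonneg (by positivity)
      rwa [e] at this
    have hfin := hW K δ v0 w (fun k => J (w + k)) (fun k => J' (w + k))
      (fun k => gg G v0 δ (w + k)) hK hδ hδB hwr hN (fun k => gg_meas hG v0 δ _)
      (fun k v hv => gg_supp G v0 δ _ v hv)
    refine (core h4 D hDm R0 q v0 hR0 hv0'
      (WM K (fun k => kap (J (w + k))) (fun k => gg G v0 δ (w + k)))
      (fun u φ => WM_per _ _ _ u φ) ?_).trans (hfin.trans (le_of_eq ?_))
    · intro r θ hr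
      refine iSup₂_le fun R hR => ?_
      rw [diff h1 h2 h5 hJ K w hR0 hf hG hcm θ hR.1 hr, enorm_mul, enorm_inv (by positivity)]
      gcongr
      have hV := log_range hR0 hR.1 hR.2
      have e : ∑ k ∈ Finset.range K, ci (((w + k : ℤ) : ℝ) * θ) *
          ∫ v in Ioc (Real.log (2 * Real.pi * R0)) (Real.log (2 * Real.pi * R)),
            kap (J (w + k)) (Real.log r + v) * G (w + k) (Real.exp v / (2 * Real.pi)) =
          ci (w * θ) * ∑ k ∈ Finset.range K, ci (k * θ) *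
            ∫ v in Ioc v0 (Real.log (2 * Real.pi * R)),
              kap (J (w + k)) (Real.log r + v) * gg G v0 δ (w + k) v := by
        rw [Finset.mul_sum]
        refine Finset.sum_congr rfl fun k _ => ?_
        rw [← int_gg (J (w + k)) G (w + k) (Real.log r) hV, ← mul_assoc, ← ci_add]
        congr 2
        push_cast
        ring
      rw [e, enorm_mul]
      have e1 : ‖ci (w * θ)‖ₑ = 1 := by
        rw [← ofReal_norm, norm_ci, ENNReal.ofReal_one]
      rw [e1, one_mul]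
      exact le_iSup₂_of_le v0 (Real.log (2 * Real.pi * R)) le_rfl
    · congr 1
      exact Finset.sum_congr rfl fun k _ => hsq _
  · -- nonpositive frequencies, reversed order
    set sgm : ℕ → ℤ := fun k => w + ((K - 1 - k : ℕ) : ℤ) with hsg
    have hm0 : (0 : ℝ) ≤ ((1 - w - K : ℤ) : ℝ) := by
      have : (0 : ℤ) ≤ 1 - w - K := by omega
      exact_mod_cast this
    have hN : ∀ k < K, NSol (((1 - w - K : ℤ) : ℝ) + k) (J (sgm k)) (J' (sgm k)) := by
      intro k hk
      have := hJ (sgm k)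
      have e2 : sgm k = -((1 - w - K : ℤ) + k) := by
        simp only [hsg]
        omega
      have e : |((sgm k : ℤ) : ℝ)| = ((1 - w - K : ℤ) : ℝ) + k := by
        rw [e2]
        push_cast at hm0 ⊢
        rw [abs_neg, abs_of_nonneg (by positivity)]
      rwa [e] at this
    have hfin := hW K δ v0 ((1 - w - K : ℤ) : ℝ) (fun k => J (sgm k)) (fun k => J' (sgm k))
      (fun k v => conj (gg G v0 δ (sgm k) v)) hK hδ hδB hm0 hN
      (fun k => Complex.continuous_conj.measurable.comp (gg_meas hG v0 δ _))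
      (fun k v hv => by rw [gg_supp G v0 δ _ v hv, map_zero])
    refine (core h4 D hDm R0 q v0 hR0 hv0'
      (WM K (fun k => kap (J (sgm k))) (fun k v => conj (gg G v0 δ (sgm k) v)))
      (fun u φ => WM_per _ _ _ u φ) ?_).trans (hfin.trans (le_of_eq ?_))
    · intro r θ hr
      refine iSup₂_le fun R hR => ?_
      rw [diff h1 h2 h5 hJ K w hR0 hf hG hcm θ hR.1 hr, enorm_mul, enorm_inv (by positivity)]
      gcongr
      have hV := log_range hR0 hR.1 hR.2
      set I : ℤ → ℂ := fun m => ∫ v in Ioc v0 (Real.log (2 * Real.pi * R)),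
        kap (J m) (Real.log r + v) * gg G v0 δ m v with hI
      have hIc : ∀ m, conj (I m) = ∫ v in Ioc v0 (Real.log (2 * Real.pi * R)),
          kap (J m) (Real.log r + v) * conj (gg G v0 δ m v) := by
        intro m
        rw [hI]
        simp only []
        rw [← integral_conj]
        refine integral_congr_ae (Eventually.of_forall fun v => ?_)
        simp only [map_mul]
        congr 1
        unfold kap
        exact Complex.conj_ofReal _
      have e : ∑ k ∈ Finset.range K, ci (((w + k : ℤ) : ℝ) * θ) *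
          ∫ v in Ioc (Real.log (2 * Real.pi * R0)) (Real.log (2 * Real.pi * R)),
            kap (J (w + k)) (Real.log r + v) * G (w + k) (Real.exp v / (2 * Real.pi)) =
          ci (((w + K - 1 : ℤ) : ℝ) * θ) * conj (∑ k ∈ Finset.range K, ci (k * θ) *
            conj (I (sgm k))) := by
        have e3 : ∑ k ∈ Finset.range K, ci (((w + k : ℤ) : ℝ) * θ) *
            ∫ v in Ioc (Real.log (2 * Real.pi * R0)) (Real.log (2 * Real.pi * R)),
              kap (J (w + k)) (Real.log r + v) * G (w + k) (Real.exp v / (2 * Real.pi)) =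
            ∑ k ∈ Finset.range K, ci (((w + k : ℤ) : ℝ) * θ) * I (w + k) :=
          Finset.sum_congr rfl fun k _ => by
            rw [int_gg (J (w + k)) G (w + k) (Real.log r) hV]
        rw [e3, ← Finset.sum_range_reflect, map_sum, Finset.mul_sum]
        refine Finset.sum_congr rfl fun k hk => ?_
        rw [Finset.mem_range] at hk
        rw [map_mul, Complex.conj_conj, conj_ci, ← mul_assoc, ← ci_add]
        congr 2
        have e4 : (((w + ((K - 1 - k : ℕ) : ℤ)) : ℤ) : ℝ) = ((w + K - 1 : ℤ) : ℝ) - k := by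
          have : (w + ((K - 1 - k : ℕ) : ℤ)) = (w + K - 1) - k := by omega
          rw [this]
          push_cast
          ring
        rw [e4]
        ring
      rw [e, enorm_mul]
      have e1 : ‖ci (((w + K - 1 : ℤ) : ℝ) * θ)‖ₑ = 1 := by
        rw [← ofReal_norm, norm_ci, ENNReal.ofReal_one]
      rw [e1, one_mul]
      have e5 : ∀ z : ℂ, ‖conj z‖ₑ = ‖z‖ₑ := fun z => by
        rw [← ofReal_norm, RCLike.norm_conj, ofReal_norm]
      rw [e5]
      simp only [hIc]
      exact le_iSup₂_of_le v0 (Real.log (2 * Real.pi * R)) le_rfl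
    · congr 1
      have e6 : ∀ k, ∫⁻ v, ‖conj (gg G v0 δ (sgm k) v)‖ₑ ^ 2 =
          ∫⁻ ρ in Ioc R0 (R0 * Real.exp δ), ‖G (sgm k) ρ‖ₑ ^ 2 * ENNReal.ofReal ρ⁻¹ := by
        intro k
        rw [← hsq]
        refine lintegral_congr fun v => ?_
        rw [← ofReal_norm, RCLike.norm_conj, ofReal_norm]
      simp only [e6]
      rw [← Finset.sum_range_reflect (fun k : ℕ => ∫⁻ ρ in Ioc R0 (R0 * Real.exp δ),
        ‖G (w + (k : ℤ)) ρ‖ₑ ^ 2 * ENNReal.ofReal ρ⁻¹)]

end Pool.Agent.CRW
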