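import Pool.Agent.CRW.Targets4
import Pool.Agent.GRO.P_GLC

set_option autoImplicit false

/-!
# CRW, target ARG: arcs, for all square integrable functions on the Fourier side
-/

namespace Pool.Agent.CRW

open MeasureTheory FourierTransform Set Filter Topology SchwartzMap
open scoped ENNReal NNReal ComplexConjugate
open Pool.Agent.MBS (E ex S Sstar)
open Pool.Agent.CRN (IN ci SH S1 Nice T_CARLS T_POLN T_DSN T_OFFN T_SHL)
open Pool.Agent.CRN.RMN_ (IN_cont planch0)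
open Pool.Agent.CRF.RMG_ (ex_norm ex_c ball_int)
open Pool.Agent.GRO.GLC_ (sq_norm seq bd norm_tri Sg_lim)
open Pool.Agent.CRL (ev rot amode T_MODA T_MODB T_POLC)
open Pool.Agent.CRR (T_HANK T_OSC)

namespace ARG_

theorem BI_cont {g : E 2 → ℂ} (hg : MemLp g 2) (R : ℝ) : Continuous (BI g R) := by
  have h1 : BI g R = IN ((Metric.closedBall (0 : E 2) R).indicator g) := by
    funext x
    rw [BI, IN, ← integral_indicator Metric.isClosed_closedBall.measurableSet]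
    refine integral_congr_ae (Filter.Eventually.of_forall fun ξ => ?_)
    by_cases hξ : ξ ∈ Metric.closedBall (0 : E 2) R
    · simp only [indicator_of_mem hξ]
    · simp only [indicator_of_notMem hξ, zero_mul]
  rw [h1]
  exact IN_cont ((ball_int hg R).integrable_indicator Metric.isClosed_closedBall.measurableSet)

theorem BI_bd {g : E 2 → ℂ} (R : ℝ) (x : E 2) :
    ‖BI g R x‖ ≤ ∫ ξ in Metric.closedBall (0 : E 2) R, ‖g ξ‖ := by
  unfold BI
  refine (norm_integral_le_integral_norm _).trans (le_of_eq ?_)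
  refine integral_congr_ae (ae_of_all _ fun ξ => ?_)
  simp only
  rw [norm_mul, ex_norm, mul_one]

theorem ev_cont : Continuous ev := by
  unfold ev
  fun_prop

theorem arc_cont {F : E 2 → ℂ} (hF : Continuous F) {M : ℝ} (hM : ∀ x, ‖F x‖ ≤ M) (a b : ℝ) :
    Continuous fun r : ℝ => ∫⁻ θ in Ioc a b, ‖F (r • ev θ)‖ₑ ^ 2 := by
  have hc : Continuous fun p : ℝ × ℝ => ‖F (p.1 • ev p.2)‖ ^ 2 :=
    ((hF.comp (continuous_fst.smul (ev_cont.comp continuous_snd))).norm).pow 2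
  have hb : ∀ x, ‖‖F x‖ ^ 2‖ ≤ M ^ 2 := by
    intro x
    rw [Real.norm_of_nonneg (by positivity)]
    exact pow_le_pow_left₀ (norm_nonneg _) (hM x) 2
  have hi : ∀ r : ℝ, Integrable (fun θ : ℝ => ‖F (r • ev θ)‖ ^ 2)
      (volume.restrict (Ioc a b)) := by
    intro r
    refine Integrable.of_bound (C := M ^ 2) ?_ (ae_of_all _ fun θ => hb _)
    exact (hc.comp (Continuous.prodMk_right r)).aestronglyMeasurable
  have h1 : Continuous fun r : ℝ => ∫ θ in Ioc a b, ‖F (r • ev θ)‖ ^ 2 := by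
    refine continuous_of_dominated (bound := fun _ => M ^ 2) (fun r => (hi r).1)
      (fun r => ae_of_all _ fun θ => hb _) (integrable_const _) (ae_of_all _ fun θ => ?_)
    exact hc.comp (continuous_id.prodMk continuous_const)
  have e : (fun r : ℝ => ∫⁻ θ in Ioc a b, ‖F (r • ev θ)‖ₑ ^ 2) =
      fun r : ℝ => ENNReal.ofReal (∫ θ in Ioc a b, ‖F (r • ev θ)‖ ^ 2) := by
    funext r
    rw [ofReal_integral_eq_lintegral_ofReal (hi r) (ae_of_all _ fun θ => by positivity)]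
    refine lintegral_congr fun θ => ?_
    rw [ENNReal.ofReal_pow (norm_nonneg _), ofReal_norm]
  rw [e]
  exact ENNReal.continuous_ofReal.comp h1

theorem AS_meas {g : E 2 → ℂ} (hg : MemLp g 2) (N : ℕ) : Measurable (AS N g) := by
  unfold AS
  refine Finset.measurable_sum _ fun j _ => ?_
  exact (lowerSemicontinuous_iSup fun R => lowerSemicontinuous_iSup fun _ =>
    (arc_cont (BI_cont hg R) (BI_bd R) _ _).lowerSemicontinuous).measurable

theorem sum_liminf (N : ℕ) (a : ℕ → ℕ → ℝ≥0∞) :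
    ∑ j ∈ Finset.range N, liminf (fun n => a n j) atTop ≤
      liminf (fun n => ∑ j ∈ Finset.range N, a n j) atTop := by
  have h1 : ∀ f : ℕ → ℝ≥0∞, ∫⁻ j, f j ∂(∑ j ∈ Finset.range N, Measure.dirac j) =
      ∑ j ∈ Finset.range N, f j := by
    intro f
    rw [lintegral_finsetSum_measure]
    refine Finset.sum_congr rfl fun j _ => ?_
    rw [lintegral_dirac]
  have h2 := lintegral_liminf_le (μ := ∑ j ∈ Finset.range N, Measure.dirac j)
    (f := a) (u := atTop) (fun n => measurable_from_top)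
  simp only [h1] at h2
  exact h2

theorem arc_fatou {g : E 2 → ℂ} (hg : MemLp g 2) {h : ℕ → E 2 → ℂ} (hh : ∀ n, MemLp (h n) 2)
    (hφ : ∀ n : ℕ, eLpNorm (g - h n) 2 ≤ ENNReal.ofReal (1 / ((n : ℝ) + 1)))
    (a b R r : ℝ) : ∫⁻ θ in Ioc a b, ‖BI g R (r • ev θ)‖ₑ ^ 2 ≤
      liminf (fun n => ∫⁻ θ in Ioc a b, ‖BI (h n) R (r • ev θ)‖ₑ ^ 2) atTop := by
  have h1 : ∀ θ : ℝ, ‖BI g R (r • ev θ)‖ₑ ^ 2 =
      liminf (fun n => ‖BI (h n) R (r • ev θ)‖ₑ ^ 2) atTop := by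
    intro θ
    have h2 := Sg_lim hg hh hφ R (r • ev θ)
    have h3 := ((ENNReal.continuous_pow 2).tendsto _).comp h2
    exact h3.liminf_eq.symm
  calc ∫⁻ θ in Ioc a b, ‖BI g R (r • ev θ)‖ₑ ^ 2
      = ∫⁻ θ in Ioc a b, liminf (fun n => ‖BI (h n) R (r • ev θ)‖ₑ ^ 2) atTop :=
        lintegral_congr fun θ => h1 θ
    _ ≤ _ := lintegral_liminf_le fun n => by
        have h4 : Continuous fun θ : ℝ => BI (h n) R (r • ev θ) :=
          (BI_cont (hh n) R).comp (ev_cont.const_smul r)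
        exact h4.measurable.enorm.pow_const 2

theorem AS_fatou {g : E 2 → ℂ} (hg : MemLp g 2) {h : ℕ → E 2 → ℂ} (hh : ∀ n, MemLp (h n) 2)
    (hφ : ∀ n : ℕ, eLpNorm (g - h n) 2 ≤ ENNReal.ofReal (1 / ((n : ℝ) + 1)))
    (N : ℕ) (r : ℝ) : AS N g r ≤ liminf (fun n => AS N (h n) r) atTop := by
  unfold AS
  refine le_trans (Finset.sum_le_sum fun j _ => ?_) (sum_liminf N fun n j =>
    ⨆ (R : ℝ) (_ : 0 < R),
      ∫⁻ θ in Ioc (-Real.pi + 2 * Real.pi * j / N) (-Real.pi + 2 * Real.pi * (j + 1) / N),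
        ‖BI (h n) R (r • ev θ)‖ₑ ^ 2)
  refine iSup₂_le fun R hR => (arc_fatou hg hh hφ _ _ R r).trans ?_
  refine liminf_le_liminf (Filter.Eventually.of_forall fun n => ?_)
  exact le_iSup₂ (f := fun (R : ℝ) (_ : 0 < R) =>
      ∫⁻ θ in Ioc (-Real.pi + 2 * Real.pi * j / N) (-Real.pi + 2 * Real.pi * (j + 1) / N),
        ‖BI (h n) R (r • ev θ)‖ₑ ^ 2) R hR

theorem int_fatou {g : E 2 → ℂ} (hg : MemLp g 2) {h : ℕ → E 2 → ℂ} (hh : ∀ n, MemLp (h n) 2)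
    (hφ : ∀ n : ℕ, eLpNorm (g - h n) 2 ≤ ENNReal.ofReal (1 / ((n : ℝ) + 1))) (N : ℕ) :
    ∫⁻ r in Ioi (0 : ℝ), AS N g r * ENNReal.ofReal r ≤
      liminf (fun n => ∫⁻ r in Ioi (0 : ℝ), AS N (h n) r * ENNReal.ofReal r) atTop := by
  have h1 : ∀ r : ℝ, AS N g r * ENNReal.ofReal r ≤
      liminf (fun n => AS N (h n) r * ENNReal.ofReal r) atTop := by
    intro r
    have h2 : Monotone fun y : ℝ≥0∞ => y * ENNReal.ofReal r := fun a b hab =>
      mul_le_mul_left hab _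
    have h3 := Monotone.map_liminf_of_continuousAt (F := atTop) h2
      (fun n : ℕ => AS N (h n) r)
      ((ENNReal.continuous_mul_const ENNReal.ofReal_ne_top).continuousAt)
    exact (h2 (AS_fatou hg hh hφ N r)).trans (le_of_eq h3)
  exact (lintegral_mono fun r => h1 r).trans (lintegral_liminf_le fun n =>
    (AS_meas (hh n) N).mul ENNReal.measurable_ofReal)

theorem inv (φ : 𝓢(E 2, ℂ)) : ∃ f : E 2 → ℂ, Nice f ∧ 𝓕 f = (φ : E 2 → ℂ) ∧
    ∫⁻ x, ‖f x‖ₑ ^ 2 = eLpNorm (φ : E 2 → ℂ) 2 ^ 2 := by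
  let f : 𝓢(E 2, ℂ) := 𝓕⁻ φ
  have hF : 𝓕 (f : E 2 → ℂ) = (φ : E 2 → ℂ) := by
    have h1 : (𝓕 f : 𝓢(E 2, ℂ)) = φ := FourierTransform.fourier_fourierInv_eq φ
    rw [← SchwartzMap.fourier_coe, h1]
  have hint : Integrable (f : E 2 → ℂ) := f.integrable
  have hL2 : MemLp (f : E 2 → ℂ) 2 := f.memLp 2
  refine ⟨f, ⟨f.continuous.measurable, hint, hL2⟩, hF, ?_⟩
  rw [sq_norm, ← planch0 hint hL2, hF]

theorem seqN {g : E 2 → ℂ} (hg : MemLp g 2) : ∃ h : ℕ → E 2 → ℂ, (∀ n, MemLp (h n) 2) ∧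
    (∀ n : ℕ, eLpNorm (g - h n) 2 ≤ ENNReal.ofReal (1 / ((n : ℝ) + 1))) ∧
    ∀ n, ∃ f : E 2 → ℂ, Nice f ∧ 𝓕 f = h n ∧ ∫⁻ x, ‖f x‖ₑ ^ 2 = eLpNorm (h n) 2 ^ 2 := by
  obtain ⟨φ, hφ⟩ := seq hg
  exact ⟨fun n => (φ n : E 2 → ℂ), fun n => (φ n).memLp 2, hφ, fun n => inv (φ n)⟩

end ARG_

open ARG_ in
theorem p_ARG (h1 : T_ARM) : T_ARG := by
  intro hDSP hHANK hCARLS
  obtain ⟨C, hC⟩ := h1 hDSP hHANK hCARLS
  refine ⟨C, fun N g hN hg hfin => ?_⟩
  have hg2 : MemLp g 2 := by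
    refine ⟨hg.aestronglyMeasurable, ?_⟩
    rw [eLpNorm_lt_top_iff_lintegral_rpow_enorm_lt_top (by norm_num) (by norm_num)]
    simp only [ENNReal.toReal_ofNat, ENNReal.rpow_ofNat]
    exact lt_top_iff_ne_top.2 hfin
  refine ⟨AS_meas hg2 N, ?_⟩
  obtain ⟨h, hh, hφ, hf⟩ := seqN hg2
  have h2 : ∀ n, ∫⁻ r in Ioi (0 : ℝ), AS N (h n) r * ENNReal.ofReal r ≤
      ((C * Real.toNNReal (LL N ^ 12) : ℝ≥0) : ℝ≥0∞) * eLpNorm (h n) 2 ^ 2 := by
    intro n
    obtain ⟨f, hf1, hf2, hf3⟩ := hf n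
    have h3 := hC N f hN hf1
    rw [hf3] at h3
    rw [ENNReal.coe_mul]
    refine le_trans (le_of_eq ?_) h3
    refine lintegral_congr fun r => ?_
    unfold AS BI S
    rw [hf2]
  have h4 := bd (int_fatou hg2 hh hφ N) h2 fun n =>
    (norm_tri hg2 (hh n)).trans (add_le_add le_rfl (hφ n))
  rw [sq_norm, ENNReal.coe_mul] at h4
  exact h4

end Pool.Agent.CRW
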