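import Pool.Agent.CRW.Targets3
import Pool.Agent.CRN.P_SERN
import Pool.Agent.CRL.P_ANG
import Pool.Agent.CRL.P_MM

set_option autoImplicit false

/-!
# CRW: the maximal theorem on arcs (target ARM)
-/

namespace Pool.Agent.CRW

open MeasureTheory FourierTransform Set Filter Topology
open scoped ENNReal NNReal ComplexConjugate
open Pool.Agent.MBS (E ex S Sstar)
open Pool.Agent.CRN (ci sg SH S1 Nice T_CARLS T_POLN T_DSN)
open Pool.Agent.CRL (ev rot amode T_MODA T_MODB T_POLC)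
open Pool.Agent.CRR (T_HANK)

namespace ARM_

open Pool.Agent.CRN.SERN_ (S_sum S_cont Sstar_meas S_le_Sstar)
open Pool.Agent.CRL.MM_ (cont_ev ev_per)
open Pool.Agent.CRL.ANG_ (rot_ev)

lemma crl_nice {f : E 2 → ℂ} (hf : Nice f) : Pool.Agent.CRL.Nice f := ⟨hf.meas, hf.int, hf.sq⟩

lemma pv_int (h6 : T_MODA) {f : E 2 → ℂ} (hf : Nice f) (K : ℕ) (w : ℤ) :
    Integrable (pv K w f) := by
  unfold pv
  exact integrable_finsetSum _ fun k _ => (h6 (w + k) f (crl_nice hf)).1.int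

/-- the window on a circle -/
lemma S_pv (h4 : T_SCM) (h6 : T_MODA) {f : E 2 → ℂ} (hf : Nice f) (N : ℕ) (w : ℤ) {R : ℝ}
    (hR : 0 ≤ R) (r θ : ℝ) : S (pv N (N * w) f) R (r • ev θ) =
      ∑ k ∈ Finset.range N, cm (S f R) (N * w + k) r * ci (((N : ℝ) * w + k) * θ) := by
  have h : pv N (N * w) f = fun y => ∑ k ∈ Finset.range N, amode (N * w + k) f y := rfl
  rw [h, S_sum (u := fun k => amode (N * w + k) f) (fun k => (h6 _ f (crl_nice hf)).1.int)]
  refine Finset.sum_congr rfl fun k _ => ?_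
  rw [(h4 f hf (N * w + k) R hR).2.1 r θ, mul_comm]
  push_cast
  rfl

/-- decoupling on a circle -/
lemma circle (h2 : T_FEJ) (h3 : T_DCP) (h4 : T_SCM) (h6 : T_MODA) {f : E 2 → ℂ} (hf : Nice f)
    {N : ℕ} (hN : 1 ≤ N) (r ψ : ℝ) {R : ℝ} (hR : 0 < R) :
    ∫⁻ θ in Ioc (-Real.pi) Real.pi, ENNReal.ofReal (fej N (θ - ψ)) * ‖S f R (r • ev θ)‖ₑ ^ 2 ≤
      3 * ∑' w : ℤ, ∫⁻ θ in Ioc (-Real.pi) Real.pi, ENNReal.ofReal (fej N (θ - ψ)) *
        Sstar (pv N (N * w) f) (r • ev θ) ^ 2 := by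
  have hc : Continuous fun θ : ℝ => S f R (r • ev θ) :=
    (S_cont hf.int R).comp (cont_ev.const_smul r)
  refine (h3 N ψ (fun θ => S f R (r • ev θ)) (fun m => cm (S f R) m r) hN hc
    (fun θ => by simp only [ev_per]) (fun m => ?_)).trans ?_
  · unfold cm amode
    simp only [rot_ev]
    rfl
  · gcongr with w θ
    rw [← S_pv h4 h6 hf N w hR.le r θ]
    exact S_le_Sstar _ hR _

/-- the centre of the arc -/
noncomputable def cen (N j : ℕ) : ℝ := -Real.pi + Real.pi / N + 2 * Real.pi * j / N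

/-- one arc -/
lemma arc (h2 : T_FEJ) {N : ℕ} (hN : 1 ≤ N) {j : ℕ} (hj : j < N) (F : ℝ → ℝ≥0∞) :
    ∫⁻ θ in Ioc (-Real.pi + 2 * Real.pi * j / N) (-Real.pi + 2 * Real.pi * (j + 1) / N), F θ ≤
      ENNReal.ofReal (Real.pi ^ 2 / (4 * N)) *
        ∫⁻ θ in Ioc (-Real.pi) Real.pi, ENNReal.ofReal (fej N (θ - cen N j)) * F θ := by
  have hN0 : (0 : ℝ) < N := by exact_mod_cast hN
  have hpi := Real.pi_pos
  have hjN : (j : ℝ) + 1 ≤ N := by exact_mod_cast hj
  have hsub : Ioc (-Real.pi + 2 * Real.pi * j / N) (-Real.pi + 2 * Real.pi * (j + 1) / N) ⊆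
      Ioc (-Real.pi) Real.pi := by
    refine Ioc_subset_Ioc ?_ ?_
    · have : 0 ≤ 2 * Real.pi * j / N := by positivity
      linarith
    · have : 2 * Real.pi * (j + 1) / N ≤ 2 * Real.pi := by
        rw [div_le_iff₀ hN0]
        exact mul_le_mul_of_nonneg_left hjN (by positivity)
      linarith
  rw [← lintegral_const_mul' _ _ ENNReal.ofReal_ne_top]
  refine le_trans ?_ (lintegral_mono_set hsub)
  refine setLIntegral_mono' measurableSet_Ioc fun θ hθ => ?_
  have h1 : |θ - cen N j| ≤ Real.pi / N := by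
    unfold cen
    rw [abs_le]
    have e1 : 2 * Real.pi * (j + 1) / N = 2 * Real.pi * j / N + 2 * (Real.pi / N) := by
      field_simp
    rw [e1] at hθ
    constructor
    · have := hθ.1
      linarith
    · have := hθ.2
      linarith
  have h2' := (h2 N hN).2.2.1 _ h1
  rw [← mul_assoc, ← ENNReal.ofReal_mul (by positivity)]
  have h3 : (1 : ℝ≥0∞) ≤ ENNReal.ofReal (Real.pi ^ 2 / (4 * N) * fej N (θ - cen N j)) := by
    rw [ENNReal.one_le_ofReal]
    calc (1 : ℝ) = Real.pi ^ 2 / (4 * N) * (4 / Real.pi ^ 2 * N) := by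
          field_simp
      _ ≤ _ := by gcongr
  calc F θ = 1 * F θ := (one_mul _).symm
    _ ≤ _ := by gcongr

/-- the sum of the Fejer kernels of all arcs -/
lemma fej_sum (h2 : T_FEJ) {N : ℕ} (hN : 1 ≤ N) (θ : ℝ) :
    ∑ j ∈ Finset.range N, ENNReal.ofReal (fej N (θ - cen N j)) = ENNReal.ofReal N := by
  have h := (h2 N hN).2.2.2.1 (θ + Real.pi - Real.pi / N)
  rw [← ENNReal.ofReal_sum_of_nonneg fun j _ => ((h2 N hN).2.1 _).1, ← h]
  congr 1
  refine Finset.sum_congr rfl fun j _ => ?_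
  congr 1
  unfold cen
  ring

end ARM_

open ARM_ in
open Pool.Agent.CRN.SERN_ Pool.Agent.CRL.MM_ in
/-- **ARM** -/
theorem p_ARM (h1 : T_MWN) (h2 : T_FEJ) (h3 : T_DCP) (h4 : T_SCM) (h5 : T_POLC) (h6 : T_MODA) :
    T_ARM := by
  intro hD hH hC
  obtain ⟨C0, hC0⟩ := h1 hD hH hC
  refine ⟨(3 * Real.pi ^ 2 / 4).toNNReal * C0, fun N f hN hf => ?_⟩
  have hN0 : (0 : ℝ) < N := by exact_mod_cast hN
  have hpi := Real.pi_pos
  let M : ℤ → E 2 → ℝ≥0∞ := fun w x => Sstar (pv N (N * w) f) x ^ 2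
  have hM : ∀ w, Measurable (M w) := fun w => (Sstar_meas (pv_int h6 hf N _)).pow_const 2
  have hev : Continuous fun p : ℝ × ℝ => p.1 • ev p.2 :=
    continuous_fst.smul (cont_ev.comp continuous_snd)
  have hMr : ∀ (w : ℤ) (r : ℝ), Measurable fun θ : ℝ => M w (r • ev θ) := fun w r =>
    (hM w).comp (hev.comp (Continuous.prodMk_right r)).measurable
  let H : ℤ → ℝ → ℝ≥0∞ := fun w r => ∫⁻ θ in Ioc (-Real.pi) Real.pi,
    ENNReal.ofReal r * M w (r • ev θ)
  have hHm : ∀ w, Measurable (H w) := by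
    intro w
    have h : Measurable fun p : ℝ × ℝ => ENNReal.ofReal p.1 * M w (p.1 • ev p.2) :=
      (ENNReal.measurable_ofReal.comp measurable_fst).mul ((hM w).comp hev.measurable)
    exact h.lintegral_prod_right'
  set a : ℝ≥0∞ := ENNReal.ofReal (Real.pi ^ 2 / (4 * N)) with ha
  have haN : a * 3 * ENNReal.ofReal N = ENNReal.ofReal (3 * Real.pi ^ 2 / 4) := by
    rw [ha, mul_right_comm, ← ENNReal.ofReal_mul (by positivity),
      show (3 : ℝ≥0∞) = ENNReal.ofReal 3 by norm_num, ← ENNReal.ofReal_mul (by positivity)]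
    congr 1
    field_simp
  -- one circle
  have hcirc : ∀ r : ℝ, (∑ j ∈ Finset.range N, ⨆ (R : ℝ) (_ : 0 < R),
      ∫⁻ θ in Ioc (-Real.pi + 2 * Real.pi * j / N) (-Real.pi + 2 * Real.pi * (j + 1) / N),
        ‖S f R (r • ev θ)‖ₑ ^ 2) ≤
      ENNReal.ofReal (3 * Real.pi ^ 2 / 4) *
        ∑' w : ℤ, ∫⁻ θ in Ioc (-Real.pi) Real.pi, M w (r • ev θ) := by
    intro r
    calc (∑ j ∈ Finset.range N, ⨆ (R : ℝ) (_ : 0 < R),
        ∫⁻ θ in Ioc (-Real.pi + 2 * Real.pi * j / N) (-Real.pi + 2 * Real.pi * (j + 1) / N),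
          ‖S f R (r • ev θ)‖ₑ ^ 2)
        ≤ ∑ j ∈ Finset.range N, a * (3 * ∑' w : ℤ, ∫⁻ θ in Ioc (-Real.pi) Real.pi,
            ENNReal.ofReal (fej N (θ - cen N j)) * M w (r • ev θ)) := by
          refine Finset.sum_le_sum fun j hj => iSup₂_le fun R hR => ?_
          refine (arc h2 hN (Finset.mem_range.1 hj) _).trans ?_
          gcongr
          exact circle h2 h3 h4 h6 hf hN r (cen N j) hR
      _ = a * 3 * ∑' w : ℤ, ∑ j ∈ Finset.range N, ∫⁻ θ in Ioc (-Real.pi) Real.pi,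
            ENNReal.ofReal (fej N (θ - cen N j)) * M w (r • ev θ) := by
          rw [Summable.tsum_finsetSum fun _ _ => ENNReal.summable, Finset.mul_sum]
          simp only [mul_assoc]
      _ = a * 3 * ∑' w : ℤ, ENNReal.ofReal N *
            ∫⁻ θ in Ioc (-Real.pi) Real.pi, M w (r • ev θ) := by
          congr 1
          refine tsum_congr fun w => ?_
          have hmj : ∀ j ∈ Finset.range N, Measurable fun θ : ℝ =>
              ENNReal.ofReal (fej N (θ - cen N j)) * M w (r • ev θ) := by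
            intro j _
            refine Measurable.mul ?_ (hMr w r)
            have hc : Continuous fun θ : ℝ => fej N (θ - cen N j) :=
              (h2 N hN).1.comp (continuous_id.sub continuous_const)
            exact ENNReal.measurable_ofReal.comp hc.measurable
          rw [← lintegral_finsetSum _ hmj, ← lintegral_const_mul' _ _ ENNReal.ofReal_ne_top]
          refine lintegral_congr fun θ => ?_
          rw [← Finset.sum_mul, fej_sum h2 hN]
      _ = _ := by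
          rw [ENNReal.tsum_mul_left, ← mul_assoc, haN]
  calc ∫⁻ r in Ioi (0 : ℝ), (∑ j ∈ Finset.range N, ⨆ (R : ℝ) (_ : 0 < R),
      ∫⁻ θ in Ioc (-Real.pi + 2 * Real.pi * j / N) (-Real.pi + 2 * Real.pi * (j + 1) / N),
        ‖S f R (r • ev θ)‖ₑ ^ 2) * ENNReal.ofReal r
      ≤ ∫⁻ r in Ioi (0 : ℝ), ENNReal.ofReal (3 * Real.pi ^ 2 / 4) * ∑' w : ℤ, H w r := by
        refine lintegral_mono fun r => ?_
        refine (mul_le_mul_left (hcirc r) _).trans (le_of_eq ?_)
        rw [mul_assoc, ← ENNReal.tsum_mul_right]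
        congr 1
        refine tsum_congr fun w => ?_
        show _ = ∫⁻ θ in Ioc (-Real.pi) Real.pi, ENNReal.ofReal r * M w (r • ev θ)
        rw [lintegral_const_mul' _ _ ENNReal.ofReal_ne_top, mul_comm]
    _ = ENNReal.ofReal (3 * Real.pi ^ 2 / 4) * ∑' w : ℤ, ∫⁻ x, M w x := by
        rw [lintegral_const_mul' _ _ ENNReal.ofReal_ne_top,
          lintegral_tsum fun w => (hHm w).aemeasurable]
        congr 1
        refine tsum_congr fun w => ?_
        rw [h5.1 (M w) (hM w)]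
    _ ≤ ENNReal.ofReal (3 * Real.pi ^ 2 / 4) *
          (C0 * ENNReal.ofReal (LL N ^ 12) * ∫⁻ x, ‖f x‖ₑ ^ 2) := by
        gcongr
        exact hC0 N f hN hf
    _ = _ := by
        rw [ENNReal.coe_mul]
        show _ = ENNReal.ofReal (3 * Real.pi ^ 2 / 4) * C0 * _ * _
        ring

end Pool.Agent.CRW
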