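import Pool.Agent.CRW.Targets

set_option autoImplicit false

/-!
# CRW: the angle of a ray (target BET)
-/

namespace Pool.Agent.CRW

open MeasureTheory Set Filter Topology
open Pool.Agent.CRR (PP)

namespace BET_

/-- the inverse sine is Hoelder of order one half -/
theorem arcsin_sub {a b : ℝ} (hb : 0 ≤ b) (hab : b ≤ a) (ha : a ≤ 1) :
    Real.arcsin a - Real.arcsin b ≤ 4 * Real.sqrt (a - b) := by
  set p := Real.arcsin a with hp
  set q := Real.arcsin b with hq
  have hsa : Real.sin p = a := Real.sin_arcsin (by linarith) ha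
  have hsb : Real.sin q = b := Real.sin_arcsin (by linarith) (by linarith)
  have hq0 : 0 ≤ q := Real.arcsin_nonneg.2 hb
  have hqp : q ≤ p := Real.arcsin_le_arcsin hab
  have hp2 : p ≤ Real.pi / 2 := Real.arcsin_le_pi_div_two a
  have hcp : 0 ≤ Real.cos p := Real.cos_nonneg_of_neg_pi_div_two_le_of_le (by linarith) hp2
  have hcq : 0 ≤ Real.cos q :=
    Real.cos_nonneg_of_neg_pi_div_two_le_of_le (by linarith [Real.pi_pos]) (by linarith)
  have hcc : Real.cos p ≤ Real.cos q :=
    Real.cos_le_cos_of_nonneg_of_le_pi hq0 (by linarith [Real.pi_pos]) hqp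
  have h1 : 1 - (a - b) ≤ Real.cos (p - q) := by
    rw [Real.cos_sub, hsa, hsb]
    have h2 : Real.cos p * Real.cos p ≤ Real.cos p * Real.cos q :=
      mul_le_mul_of_nonneg_left hcc hcp
    have h3 : Real.cos p * Real.cos p = 1 - a ^ 2 := by
      have := Real.sin_sq_add_cos_sq p
      rw [hsa] at this
      nlinarith
    nlinarith
  set f := p - q with hf
  have hf0 : 0 ≤ f := by linarith
  have hfp : f ≤ Real.pi / 2 := by linarith
  have h4 : Real.cos f = 1 - 2 * Real.sin (f / 2) ^ 2 := by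
    have h4 := Real.cos_two_mul (f / 2)
    have h5 := Real.sin_sq_add_cos_sq (f / 2)
    rw [mul_div_cancel₀ f (two_ne_zero)] at h4
    linarith
  have h6 : 2 / Real.pi * (f / 2) ≤ Real.sin (f / 2) :=
    Real.mul_le_sin (by linarith) (by linarith [Real.pi_pos])
  have h7 : 0 ≤ 2 / Real.pi * (f / 2) := by positivity
  have h8 : (2 / Real.pi * (f / 2)) ^ 2 ≤ Real.sin (f / 2) ^ 2 := pow_le_pow_left₀ h7 h6 2
  have h9 : (2 / Real.pi * (f / 2)) ^ 2 = f ^ 2 / Real.pi ^ 2 := by
    field_simp
  have h10 : 2 * (f ^ 2 / Real.pi ^ 2) ≤ a - b := by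
    rw [← h9]
    linarith
  have hpi : Real.pi ^ 2 ≤ 16 := by
    have := Real.pi_lt_four
    have := Real.pi_pos
    nlinarith
  have h11 : f ^ 2 ≤ 16 * (a - b) := by
    have h12 : 2 * f ^ 2 ≤ (a - b) * Real.pi ^ 2 := by
      have h13 : 0 < Real.pi ^ 2 := by positivity
      have h14 : 2 * (f ^ 2 / Real.pi ^ 2) = 2 * f ^ 2 / Real.pi ^ 2 := by ring
      rw [h14, div_le_iff₀ h13] at h10
      exact h10
    have h15 : (a - b) * Real.pi ^ 2 ≤ (a - b) * 16 :=
      mul_le_mul_of_nonneg_left hpi (by linarith)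
    nlinarith [sq_nonneg f]
  calc f ≤ Real.sqrt (16 * (a - b)) := Real.le_sqrt_of_sq_le h11
    _ = 4 * Real.sqrt (a - b) := by
      rw [Real.sqrt_mul (by norm_num), show (16 : ℝ) = 4 ^ 2 by norm_num,
        Real.sqrt_sq (by norm_num)]

end BET_

open BET_ in
theorem p_BET : T_BET := by
  intro m x hm
  refine ⟨fun h => ?_, fun y hx hxy => ?_⟩
  · have hex : 0 < Real.exp x := Real.exp_pos x
    have h1 : HasDerivAt (fun x : ℝ => m * Real.exp (-x)) (m * (Real.exp (-x) * -1)) x :=
      ((hasDerivAt_neg x).exp).const_mul m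
    have h2 : m * Real.exp (-x) < 1 := by
      rw [Real.exp_neg, ← div_eq_mul_inv, div_lt_one hex]
      exact h
    have h3 : 0 ≤ m * Real.exp (-x) := by positivity
    have h4 := (Real.hasDerivAt_arcsin (x := m * Real.exp (-x)) (by linarith) h2.ne).comp x h1
    have e2 : Real.exp (2 * x) = Real.exp x ^ 2 := by
      rw [← Real.exp_nat_mul]
      norm_num
    have e3 : Real.exp x * Real.exp (-x) = 1 := by
      rw [← Real.exp_add]
      simp
    have h5 : PP m x = Real.exp x ^ 2 * (1 - (m * Real.exp (-x)) ^ 2) := by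
      have e4 : Real.exp x ^ 2 * (1 - (m * Real.exp (-x)) ^ 2) =
          Real.exp x ^ 2 - m ^ 2 * (Real.exp x * Real.exp (-x)) ^ 2 := by ring
      rw [PP, e2, e4, e3]
      ring
    have h6 : Real.sqrt (PP m x) = Real.exp x * Real.sqrt (1 - (m * Real.exp (-x)) ^ 2) := by
      rw [h5, Real.sqrt_mul (by positivity), Real.sqrt_sq hex.le]
    have h7 : 0 < 1 - (m * Real.exp (-x)) ^ 2 := by nlinarith
    have h8 : Real.sqrt (1 - (m * Real.exp (-x)) ^ 2) ≠ 0 := (Real.sqrt_pos.2 h7).ne'
    refine h4.congr_deriv ?_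
    rw [h6]
    set s := Real.sqrt (1 - (m * Real.exp (-x)) ^ 2) with hs
    rw [Real.exp_neg]
    have hx0 : Real.exp x ≠ 0 := hex.ne'
    field_simp
  · have hex : 0 < Real.exp x := Real.exp_pos x
    have h1 : m * Real.exp (-x) ≤ 1 := by
      rw [Real.exp_neg, ← div_eq_mul_inv, div_le_one hex]
      exact hx
    have h2 : 0 ≤ m * Real.exp (-y) := by positivity
    have h3 : m * Real.exp (-y) ≤ m * Real.exp (-x) :=
      mul_le_mul_of_nonneg_left (Real.exp_le_exp.2 (by linarith)) hm
    refine ⟨sub_nonneg.2 (Real.arcsin_le_arcsin h3), ?_⟩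
    refine (arcsin_sub h2 h3 h1).trans ?_
    have h4 : m * Real.exp (-x) - m * Real.exp (-y) ≤ y - x := by
      have h5 : Real.exp (-y) = Real.exp (-x) * Real.exp (-(y - x)) := by
        rw [← Real.exp_add]
        congr 1
        ring
      have h6 : 1 - (y - x) ≤ Real.exp (-(y - x)) := by
        have := Real.add_one_le_exp (-(y - x))
        linarith
      have h7 : m * Real.exp (-x) * (1 - Real.exp (-(y - x))) ≤ 1 * (y - x) := by
        refine mul_le_mul h1 (by linarith) ?_ (by norm_num)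
        have : Real.exp (-(y - x)) ≤ 1 := Real.exp_le_one_iff.2 (by linarith)
        linarith
      rw [h5]
      nlinarith
    have h8 := Real.sqrt_le_sqrt h4
    linarith

end Pool.Agent.CRW
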