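import Pool.Agent.CRW.Targets

set_option autoImplicit false

/-!
# CMP: WKB comparison of the orders `m` and `m + k`
-/

namespace Pool.Agent.CRW

open MeasureTheory FourierTransform Set Filter Topology
open scoped ENNReal NNReal ComplexConjugate
open Pool.Agent.CAR (e1)
open Pool.Agent.CRN (ci)
open Pool.Agent.CRR (PP Sol xc NSol kap T_SEQ T_WKB)

namespace CMP_

/-- a function whose derivative has a bounded majorant with a bounded primitive has a limit -/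
theorem lim (U U' : ℝ → ℂ) (G G' : ℝ → ℝ) (x₁ ε : ℝ)
    (hU : ∀ x, x₁ ≤ x → HasDerivAt U (U' x) x) (hU' : ContinuousOn U' (Ici x₁))
    (hG : ∀ x, x₁ ≤ x → HasDerivAt G (G' x) x) (hle : ∀ x, x₁ ≤ x → ‖U' x‖ ≤ G' x)
    (h0 : ∀ x, x₁ ≤ x → -ε ≤ G x ∧ G x ≤ 0) :
    (∀ a b, x₁ ≤ a → a ≤ b → ∫ x in Ioc a b, ‖U' x‖ ≤ ε) ∧
      ∃ c : ℂ, ∀ x, x₁ ≤ x → ‖U x - c‖ ≤ ε := by
  have hint : ∀ a b, x₁ ≤ a → a ≤ b → ∫ x in a..b, ‖U' x‖ ≤ G b - G a := by
    intro a b ha hab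
    refine intervalIntegral.integral_le_sub_of_hasDeriv_right_of_le (g' := G') hab ?_ ?_ ?_ ?_
    · exact fun x hx => (hG x (ha.trans hx.1)).continuousAt.continuousWithinAt
    · exact fun x hx => (hG x (ha.trans hx.1.le)).hasDerivWithinAt
    · exact ((hU'.mono (fun x hx => ha.trans hx.1)).norm).integrableOn_Icc
    · exact fun x hx => hle x (ha.trans hx.1.le)
  have hdiff : ∀ a b, x₁ ≤ a → a ≤ b → ‖U b - U a‖ ≤ G b - G a := by
    intro a b ha hab
    have h1 : ∫ x in a..b, U' x = U b - U a := by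
      apply intervalIntegral.integral_eq_sub_of_hasDerivAt
      · intro x hx
        rw [uIcc_of_le hab] at hx
        exact hU x (ha.trans hx.1)
      · exact (hU'.mono (by
          rw [uIcc_of_le hab]; exact fun x hx => ha.trans hx.1)).intervalIntegrable
    rw [← h1]
    exact (intervalIntegral.norm_integral_le_integral_norm hab).trans (hint a b ha hab)
  constructor
  · intro a b ha hab
    rw [← intervalIntegral.integral_of_le hab]
    have h1 := hint a b ha hab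
    have h2 := (h0 b (ha.trans hab)).2
    have h3 := (h0 a ha).1
    linarith
  · have hmono : ∀ a b, x₁ ≤ a → a ≤ b → G a ≤ G b := by
      intro a b ha hab
      have := hdiff a b ha hab
      have h4 := norm_nonneg (U b - U a)
      linarith
    have hbdd : BddAbove (G '' Ici x₁) := ⟨0, by rintro _ ⟨x, hx, rfl⟩; exact (h0 x hx).2⟩
    have hne : (G '' Ici x₁).Nonempty := ⟨G x₁, x₁, mem_Ici.2 le_rfl, rfl⟩
    have hcau : CauchySeq U := by
      rw [Metric.cauchySeq_iff]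
      intro e he
      obtain ⟨_, ⟨N, hN, rfl⟩, hN2⟩ := exists_lt_of_lt_csSup hne
        (show sSup (G '' Ici x₁) - e < sSup (G '' Ici x₁) by linarith)
      refine ⟨N, fun a ha b hb => ?_⟩
      have hN' : x₁ ≤ N := hN
      have hab : ∀ a b, N ≤ a → a ≤ b → dist (U a) (U b) < e := by
        intro a b ha hab
        rw [dist_comm, dist_eq_norm]
        have h1 := hdiff a b (hN'.trans ha) hab
        have h2 := hmono N a hN' ha
        have h3 : G b ≤ sSup (G '' Ici x₁) := le_csSup hbdd ⟨b, (hN'.trans ha).trans hab, rfl⟩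
        linarith
      rcases le_total a b with h | h
      · exact hab a b ha h
      · rw [dist_comm]; exact hab b a hb h
    obtain ⟨c, hc⟩ := cauchySeq_tendsto_of_complete hcau
    refine ⟨c, fun x hx => ?_⟩
    have h5 : Tendsto (fun y => ‖U x - U y‖) atTop (𝓝 ‖U x - c‖) :=
      (tendsto_const_nhds.sub hc).norm
    refine le_of_tendsto h5 ?_
    filter_upwards [eventually_ge_atTop x] with y hy
    rw [norm_sub_rev]
    have h1 := hdiff x y hx hy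
    have h2 := (h0 y (hx.trans hy)).2
    have h3 := (h0 x hx).1
    linarith

theorem ci_eq (t : ℝ) : ci t = Complex.exp (t * Complex.I) := rfl

theorem norm_ci (t : ℝ) : ‖ci t‖ = 1 := Complex.norm_exp_ofReal_mul_I _

theorem d_PP (ν x : ℝ) : HasDerivAt (PP ν) (2 * Real.exp (2 * x)) x := by
  have h1 : HasDerivAt (fun x : ℝ => 2 * x) (2 * 1) x := (hasDerivAt_id x).const_mul 2
  have h2 : HasDerivAt (PP ν) _ x := h1.exp.sub_const (ν ^ 2)
  exact h2.congr_deriv (by ring)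

theorem cont_PP (ν : ℝ) : Continuous (PP ν) := by unfold PP; fun_prop

/-- parameters on the oscillatory side -/
structure Par (m Z : ℝ) (k : ℕ) (x : ℝ) : Prop where
  h1 : xc m < x
  h2 : xc (m + k) < x
  ex : 1 + m ≤ Real.exp x
  lt : m < Real.exp x
  p0 : 0 < PP m x
  p1 : PP m x ≤ 2 * PP (m + k) x
  s1 : Z ≤ Real.sqrt (PP m x)
  s2 : Z * (1 + m) ≤ Real.sqrt (PP m x) ^ 2
  s3 : Z * (1 + m) ^ 2 ≤ Real.sqrt (PP m x) ^ 3

theorem par (m Z : ℝ) (k : ℕ) (hm : 0 ≤ m) (hZ : 4000 * (1 + (k : ℝ)) ^ 3 ≤ Z) (x : ℝ)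
    (hx : x1 m Z ≤ x) : Par m Z k x := by
  have hk : (0 : ℝ) ≤ k := Nat.cast_nonneg k
  have hk3 : (1 : ℝ) + k ≤ (1 + k) ^ 3 := by
    nlinarith [mul_nonneg hk hk, mul_nonneg hk (mul_nonneg hk hk)]
  have hZ1 : 4000 * (1 + (k : ℝ)) ≤ Z := by linarith
  have hZ0 : 4000 ≤ Z := by nlinarith
  set r : ℝ := (1 + m) ^ (1 / 3 : ℝ) with hr
  have hr1 : 1 ≤ r := Real.one_le_rpow (by linarith) (by norm_num)
  have hr3 : r ^ 3 = 1 + m := by
    rw [hr, ← Real.rpow_natCast, ← Real.rpow_mul (by linarith)]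
    norm_num
  have hZr : 0 < Z * r := by nlinarith
  have hpos : 0 < m + Z * r := by linarith
  have ht : m + Z * r ≤ Real.exp x := by
    have h := Real.exp_le_exp.2 hx
    rwa [x1, ← hr, Real.exp_log hpos] at h
  have hZr2 : 4000 * r ≤ Z * r := by nlinarith
  have h1 : xc m < x := by
    refine lt_of_lt_of_le ?_ hx
    unfold xc x1
    rw [← hr]
    refine Real.log_lt_log (by nlinarith) (by nlinarith)
  have hrk : (1 + (m + k)) ^ (1 / 3 : ℝ) ≤ r * (1 + k) := by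
    calc (1 + (m + k)) ^ (1 / 3 : ℝ) ≤ ((1 + m) * (1 + k)) ^ (1 / 3 : ℝ) :=
          Real.rpow_le_rpow (by positivity) (by nlinarith [mul_nonneg hm hk]) (by norm_num)
      _ = r * (1 + k) ^ (1 / 3 : ℝ) := by rw [Real.mul_rpow (by linarith) (by linarith)]
      _ ≤ r * (1 + k) := by
          refine mul_le_mul_of_nonneg_left ?_ (by linarith)
          calc (1 + (k : ℝ)) ^ (1 / 3 : ℝ) ≤ (1 + (k : ℝ)) ^ (1 : ℝ) :=
                Real.rpow_le_rpow_of_exponent_le (by linarith) (by norm_num)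
            _ = 1 + k := Real.rpow_one _
  have hrkp : 0 < (1 + (m + k)) ^ (1 / 3 : ℝ) := Real.rpow_pos_of_pos (by positivity) _
  have h2 : xc (m + k) < x := by
    refine lt_of_lt_of_le ?_ hx
    unfold xc x1
    rw [← hr]
    refine Real.log_lt_log (by positivity) ?_
    have : 4000 * (1 + (k : ℝ)) * r ≤ Z * r := mul_le_mul_of_nonneg_right hZ1 (by linarith)
    nlinarith [mul_nonneg hk (by linarith : (0 : ℝ) ≤ r)]
  have hex : 1 + m ≤ Real.exp x := by nlinarith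
  have hlt : m < Real.exp x := by linarith
  have hPP : PP m x = (Real.exp x - m) * (Real.exp x + m) := by
    unfold PP
    rw [show 2 * x = x + x by ring, Real.exp_add]
    ring
  have hP1 : (Z * r) ^ 2 ≤ PP m x := by
    rw [hPP]
    nlinarith [mul_nonneg hm hZr.le]
  have hP2 : Z * r ^ 4 ≤ PP m x := by
    rw [hPP]
    have h3 : Z * r ≤ Real.exp x - m := by linarith
    have h4 : r ^ 3 ≤ Real.exp x + m := by rw [hr3]; linarith
    calc Z * r ^ 4 = (Z * r) * r ^ 3 := by ring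
      _ ≤ _ := mul_le_mul h3 h4 (by positivity) (by linarith)
  have hp0 : 0 < PP m x := lt_of_lt_of_le (by positivity) hP1
  have hs : Real.sqrt (PP m x) ^ 2 = PP m x := Real.sq_sqrt hp0.le
  have hsp : 0 < Real.sqrt (PP m x) := Real.sqrt_pos.2 hp0
  have hs2 : Z * (1 + m) ≤ Real.sqrt (PP m x) ^ 2 := by
    rw [hs, ← hr3]
    refine le_trans ?_ hP2
    have : r ^ 3 ≤ r ^ 4 := pow_le_pow_right₀ hr1 (by norm_num)
    nlinarith
  have hs1 : Z ≤ Real.sqrt (PP m x) := by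
    refine Real.le_sqrt_of_sq_le (le_trans ?_ hP1)
    have : Z ≤ Z * r := by nlinarith
    exact pow_le_pow_left₀ (by linarith) this 2
  have hs3 : Z * (1 + m) ^ 2 ≤ Real.sqrt (PP m x) ^ 3 := by
    rw [← hr3]
    have h5 : (Z * (r ^ 3) ^ 2) ^ 2 ≤ (Real.sqrt (PP m x) ^ 3) ^ 2 := by
      calc (Z * (r ^ 3) ^ 2) ^ 2 = Z ^ 2 * r ^ 12 := by ring
        _ ≤ Z ^ 3 * r ^ 12 := by
            refine mul_le_mul_of_nonneg_right ?_ (by positivity)
            exact pow_le_pow_right₀ (by linarith) (by norm_num)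
        _ = (Z * r ^ 4) ^ 3 := by ring
        _ ≤ (PP m x) ^ 3 := pow_le_pow_left₀ (by positivity) hP2 3
        _ = (Real.sqrt (PP m x) ^ 3) ^ 2 := by rw [← hs]; ring_nf; rw [Real.sqrt_sq hsp.le]
    exact (pow_le_pow_iff_left₀ (by positivity) (by positivity) (by norm_num)).1 h5
  have hp1 : PP m x ≤ 2 * PP (m + k) x := by
    have h6 : PP (m + k) x = PP m x - (2 * m * k + k ^ 2) := by unfold PP; ring
    have h7 : 4000 * (1 + (k : ℝ)) ^ 3 * (1 + m) ≤ PP m x := by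
      rw [← hs]
      exact (mul_le_mul_of_nonneg_right hZ (by linarith)).trans hs2
    have h8 : 2 * m * k + (k : ℝ) ^ 2 ≤ 2 * ((1 + (k : ℝ)) ^ 3 * (1 + m)) := by
      nlinarith [mul_nonneg hm hk, mul_nonneg hk hk, mul_nonneg hm (mul_nonneg hk hk),
        mul_nonneg hk (mul_nonneg hk hk), mul_nonneg hm (mul_nonneg hk (mul_nonneg hk hk))]
    have h9 : 0 ≤ (1 + (k : ℝ)) ^ 3 * (1 + m) := by positivity
    linarith
  exact ⟨h1, h2, hex, hlt, hp0, hp1, hs1, hs2, hs3⟩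

/-- `1 / √P` -/
noncomputable def ii (m x : ℝ) : ℝ := (Real.sqrt (PP m x))⁻¹

theorem d_sqrt {m x : ℝ} (h : 0 < PP m x) :
    HasDerivAt (fun y => Real.sqrt (PP m y)) (Real.exp (2 * x) * ii m x) x := by
  refine ((d_PP m x).sqrt h.ne').congr_deriv ?_
  unfold ii
  have := (Real.sqrt_pos.2 h).ne'
  field_simp

theorem d_ii {m x : ℝ} (h : 0 < PP m x) :
    HasDerivAt (ii m) (-(Real.exp (2 * x) * ii m x ^ 3)) x := by
  have h1 : HasDerivAt (ii m) _ x := (d_sqrt h).inv (Real.sqrt_pos.2 h).ne'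
  refine h1.congr_deriv ?_
  unfold ii
  have := (Real.sqrt_pos.2 h).ne'
  field_simp

theorem d_th (ν x : ℝ) : HasDerivAt (th ν) (Real.sqrt (PP ν x) / (2 * Real.pi)) x := by
  have hc : Continuous (fun s => Real.sqrt (PP ν s) / (2 * Real.pi)) :=
    (Real.continuous_sqrt.comp (cont_PP ν)).div_const _
  exact intervalIntegral.integral_hasDerivAt_right (hc.intervalIntegrable _ _)
    (hc.stronglyMeasurableAtFilter _ _) hc.continuousAt

theorem d_be {m x : ℝ} (hm : 0 ≤ m) (h : m < Real.exp x) :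
    HasDerivAt (be m) (-(m * ii m x)) x := by
  have hex := Real.exp_pos x
  have h0 : HasDerivAt (fun y : ℝ => m * Real.exp (-y)) (-(m * Real.exp (-x))) x :=
    (((hasDerivAt_id x).neg.exp).const_mul m).congr_deriv (by simp)
  have ha : m * Real.exp (-x) < 1 := by
    rw [Real.exp_neg, ← div_eq_mul_inv, div_lt_one hex]; exact h
  have ha0 : 0 ≤ m * Real.exp (-x) := mul_nonneg hm (Real.exp_pos _).le
  have h1 : HasDerivAt (be m) _ x :=
    (Real.hasDerivAt_arcsin (by linarith : m * Real.exp (-x) ≠ -1) ha.ne).comp x h0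
  refine h1.congr_deriv ?_
  have h2 : PP m x = Real.exp x ^ 2 * (1 - (m * Real.exp (-x)) ^ 2) := by
    unfold PP
    rw [show 2 * x = x + x by ring, Real.exp_add, Real.exp_neg]
    field_simp
  have h3 : 0 < 1 - (m * Real.exp (-x)) ^ 2 := by nlinarith
  have h4 : Real.sqrt (PP m x) = Real.exp x * Real.sqrt (1 - (m * Real.exp (-x)) ^ 2) := by
    rw [h2, Real.sqrt_mul (by positivity), Real.sqrt_sq hex.le]
  have h5 := (Real.sqrt_pos.2 h3).ne'
  unfold ii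
  rw [h4]
  generalize Real.sqrt (1 - (m * Real.exp (-x)) ^ 2) = y at h5
  rw [Real.exp_neg]
  field_simp

noncomputable def Lf (m : ℝ) (k : ℕ) (x : ℝ) : ℝ :=
  (Real.log (PP m x) - Real.log (PP (m + k) x)) / 4

noncomputable def L1 (m : ℝ) (k : ℕ) (x : ℝ) : ℝ :=
  (2 * Real.exp (2 * x) / PP m x - 2 * Real.exp (2 * x) / PP (m + k) x) / 4

noncomputable def ps (m : ℝ) (k : ℕ) (Θ : ℝ → ℝ) (x : ℝ) : ℝ :=
  2 * Real.pi * Θ x - 2 * Real.pi * th m x - k * be m x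

noncomputable def ps1 (m : ℝ) (k : ℕ) (x : ℝ) : ℝ :=
  Real.sqrt (PP (m + k) x) - Real.sqrt (PP m x) + k * (m * ii m x)

noncomputable def Gf (C₀ m : ℝ) (k : ℕ) (x : ℝ) : ℝ :=
  -(2 * C₀ * ((2 * m * k + k ^ 2) / 2 * ii m x ^ 2 + (k ^ 2 + 8) * ii m x +
    8 / 3 * m ^ 2 * ii m x ^ 3))

noncomputable def G1 (C₀ m : ℝ) (k : ℕ) (x : ℝ) : ℝ :=
  2 * C₀ * (Real.exp (2 * x) * ((2 * m * k + k ^ 2) * ii m x ^ 4 + (k ^ 2 + 8) * ii m x ^ 3 +
    8 * m ^ 2 * ii m x ^ 5))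

theorem d_G (C₀ : ℝ) {m x : ℝ} (k : ℕ) (h : 0 < PP m x) :
    HasDerivAt (Gf C₀ m k) (G1 C₀ m k x) x := by
  have hi := d_ii h
  have h1 : HasDerivAt (Gf C₀ m k) _ x :=
    ((((((hi.fun_pow 2).const_mul ((2 * m * k + k ^ 2) / 2)).fun_add
      (hi.const_mul (k ^ 2 + 8 : ℝ))).fun_add
      ((hi.fun_pow 3).const_mul (8 / 3 * m ^ 2))).const_mul (2 * C₀)).fun_neg)
  refine h1.congr_deriv ?_
  unfold G1
  push_cast
  ring

theorem G_bd {C₀ m Z : ℝ} {k : ℕ} {x : ℝ} (hC : 0 ≤ C₀) (hm : 0 ≤ m)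
    (hZ : 4000 * (1 + (k : ℝ)) ^ 3 ≤ Z) (P : Par m Z k x) :
    -(26 * C₀ * ((1 + (k : ℝ)) ^ 3 / Z)) ≤ Gf C₀ m k x ∧ Gf C₀ m k x ≤ 0 := by
  have hk : (0 : ℝ) ≤ k := Nat.cast_nonneg k
  have hk3 : (1 : ℝ) ≤ (1 + k) ^ 3 := one_le_pow₀ (by linarith)
  have hZ0 : 0 < Z := by linarith
  have hs : 0 < Real.sqrt (PP m x) := Real.sqrt_pos.2 P.p0
  have hi : 0 < ii m x := inv_pos.2 hs
  have h1 : ii m x ≤ Z⁻¹ := inv_anti₀ hZ0 P.s1
  have h2 : (1 + m) * ii m x ^ 2 ≤ Z⁻¹ := by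
    unfold ii
    rw [inv_pow, ← div_eq_mul_inv, div_le_iff₀ (by positivity), ← div_eq_inv_mul,
      le_div_iff₀ hZ0]
    linarith [P.s2]
  have h3 : (1 + m) ^ 2 * ii m x ^ 3 ≤ Z⁻¹ := by
    unfold ii
    rw [inv_pow, ← div_eq_mul_inv, div_le_iff₀ (by positivity), ← div_eq_inv_mul,
      le_div_iff₀ hZ0]
    linarith [P.s3]
  have hZi : 0 < Z⁻¹ := inv_pos.2 hZ0
  unfold Gf
  constructor
  · have e1 : (2 * m * k + (k : ℝ) ^ 2) / 2 * ii m x ^ 2 ≤ (1 + (k : ℝ)) ^ 3 * Z⁻¹ := by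
      have : (2 * m * k + (k : ℝ) ^ 2) / 2 ≤ (1 + (k : ℝ)) ^ 3 * (1 + m) := by
        nlinarith [mul_nonneg hm hk, mul_nonneg hk hk, mul_nonneg hm (mul_nonneg hk hk),
          mul_nonneg hk (mul_nonneg hk hk), mul_nonneg hm (mul_nonneg hk (mul_nonneg hk hk))]
      calc (2 * m * k + (k : ℝ) ^ 2) / 2 * ii m x ^ 2
          ≤ (1 + (k : ℝ)) ^ 3 * (1 + m) * ii m x ^ 2 :=
            mul_le_mul_of_nonneg_right this (by positivity)
        _ = (1 + (k : ℝ)) ^ 3 * ((1 + m) * ii m x ^ 2) := by ring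
        _ ≤ _ := mul_le_mul_of_nonneg_left h2 (by positivity)
    have e2 : ((k : ℝ) ^ 2 + 8) * ii m x ≤ 9 * (1 + (k : ℝ)) ^ 3 * Z⁻¹ := by
      have : (k : ℝ) ^ 2 + 8 ≤ 9 * (1 + (k : ℝ)) ^ 3 := by
        nlinarith [mul_nonneg hk hk, mul_nonneg hk (mul_nonneg hk hk)]
      exact mul_le_mul this h1 hi.le (by positivity)
    have e3 : 8 / 3 * m ^ 2 * ii m x ^ 3 ≤ 3 * (1 + (k : ℝ)) ^ 3 * Z⁻¹ := by
      have : m ^ 2 ≤ (1 + m) ^ 2 := by nlinarith
      calc 8 / 3 * m ^ 2 * ii m x ^ 3 ≤ 8 / 3 * (1 + m) ^ 2 * ii m x ^ 3 := by gcongr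
        _ = 8 / 3 * ((1 + m) ^ 2 * ii m x ^ 3) := by ring
        _ ≤ 8 / 3 * Z⁻¹ := by gcongr
        _ ≤ 3 * (1 + (k : ℝ)) ^ 3 * Z⁻¹ := by nlinarith
    have e4 : (2 * m * k + (k : ℝ) ^ 2) / 2 * ii m x ^ 2 + ((k : ℝ) ^ 2 + 8) * ii m x +
        8 / 3 * m ^ 2 * ii m x ^ 3 ≤ 13 * ((1 + (k : ℝ)) ^ 3 * Z⁻¹) := by linarith
    have e5 := mul_le_mul_of_nonneg_left e4 (by positivity : 0 ≤ 2 * C₀)
    rw [div_eq_mul_inv]
    linarith
  · have : 0 ≤ 2 * C₀ * ((2 * m * k + (k : ℝ) ^ 2) / 2 * ii m x ^ 2 + ((k : ℝ) ^ 2 + 8) * ii m x +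
        8 / 3 * m ^ 2 * ii m x ^ 3) := by positivity
    linarith

theorem ps1_bd {m Z : ℝ} {k : ℕ} {x : ℝ} (hm : 0 ≤ m) (P : Par m Z k x) :
    |ps1 m k x| ≤ (k : ℝ) ^ 2 * (Real.exp (2 * x) * ii m x ^ 3) := by
  have hk : (0 : ℝ) ≤ k := Nat.cast_nonneg k
  have hmk : 0 ≤ m * k := mul_nonneg hm hk
  have hs : 0 < Real.sqrt (PP m x) := Real.sqrt_pos.2 P.p0
  have hPk : 0 < PP (m + k) x := by linarith [P.p0, P.p1]
  have hp : 0 < Real.sqrt (PP (m + k) x) := Real.sqrt_pos.2 hPk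
  have hs2 : Real.sqrt (PP m x) ^ 2 = PP m x := Real.sq_sqrt P.p0.le
  have hp2 : Real.sqrt (PP (m + k) x) ^ 2 = PP (m + k) x := Real.sq_sqrt hPk.le
  have hq : PP (m + k) x = PP m x - (2 * m * k + k ^ 2) := by unfold PP; ring
  have he : Real.exp (2 * x) = Real.sqrt (PP m x) ^ 2 + m ^ 2 := by rw [hs2]; unfold PP; ring
  have hle := P.p1
  unfold ps1 ii
  rw [he]
  rw [← hp2, ← hs2] at hq hle
  generalize Real.sqrt (PP m x) = s at *
  generalize Real.sqrt (PP (m + k) x) = p at *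
  have hs3 : 0 < s ^ 3 := by positivity
  have key : p - s + k * (m * s⁻¹) = -((s ^ 2 - k * m - p * s) / s) := by
    field_simp; ring
  have hkm : 4 * (k * m) ≤ s ^ 2 := by nlinarith
  have h1 : 0 ≤ s ^ 2 - k * m - p * s := by
    have h2 : (p * s) ^ 2 ≤ (s ^ 2 - k * m) ^ 2 := by
      have : (s ^ 2 - k * m) ^ 2 - (p * s) ^ 2 = k ^ 2 * m ^ 2 + k ^ 2 * s ^ 2 := by
        rw [mul_pow, hq]; ring
      nlinarith [mul_nonneg (sq_nonneg (k : ℝ)) (sq_nonneg m),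
        mul_nonneg (sq_nonneg (k : ℝ)) (sq_nonneg s)]
    have h3 := abs_le_of_sq_le_sq h2 (by nlinarith)
    linarith [(le_abs_self (p * s)).trans h3]
  have h4 : s ^ 2 ≤ s ^ 2 - k * m + p * s := by
    have h5 : (k * m) ^ 2 ≤ (p * s) ^ 2 := by
      have h6 : (k * m) ^ 2 ≤ (s ^ 2 / 4) ^ 2 := pow_le_pow_left₀ (by positivity) (by linarith) 2
      have h7 : s ^ 2 * s ^ 2 ≤ 2 * p ^ 2 * s ^ 2 := mul_le_mul_of_nonneg_right hle (by positivity)
      nlinarith [sq_nonneg (s ^ 2)]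
    have h6 := abs_le_of_sq_le_sq h5 (by positivity)
    linarith [(le_abs_self (k * m)).trans h6]
  have h7 : s ^ 2 * (s ^ 2 - k * m - p * s) ≤ k ^ 2 * (s ^ 2 + m ^ 2) := by
    calc s ^ 2 * (s ^ 2 - k * m - p * s) ≤ (s ^ 2 - k * m + p * s) * (s ^ 2 - k * m - p * s) :=
          mul_le_mul_of_nonneg_right h4 h1
      _ = (s ^ 2 - k * m) ^ 2 - (p * s) ^ 2 := by ring
      _ = k ^ 2 * (s ^ 2 + m ^ 2) := by rw [mul_pow, hq]; ring
  rw [key, abs_neg, abs_of_nonneg (div_nonneg h1 hs.le), inv_pow, ← div_eq_mul_inv,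
    ← mul_div_assoc, div_le_div_iff₀ hs hs3]
  nlinarith

theorem L1_bd {m Z : ℝ} {k : ℕ} {x : ℝ} (hm : 0 ≤ m) (P : Par m Z k x) :
    |L1 m k x| ≤ Real.exp (2 * x) * ((2 * m * k + k ^ 2) * ii m x ^ 4) := by
  have hk : (0 : ℝ) ≤ k := Nat.cast_nonneg k
  have hp0 := P.p0
  have hPk : 0 < PP (m + k) x := by linarith [P.p0, P.p1]
  have hq : PP (m + k) x = PP m x - (2 * m * k + k ^ 2) := by unfold PP; ring
  have hi : ii m x ^ 4 = (PP m x ^ 2)⁻¹ := by
    unfold ii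
    rw [inv_pow, show Real.sqrt (PP m x) ^ 4 = (Real.sqrt (PP m x) ^ 2) ^ 2 by ring,
      Real.sq_sqrt P.p0.le]
  have key : L1 m k x =
      -(Real.exp (2 * x) * (2 * m * k + k ^ 2) / (2 * PP (m + k) x * PP m x)) := by
    unfold L1
    have h : (2 * m * k + (k : ℝ) ^ 2) = PP m x - PP (m + k) x := by rw [hq]; ring
    rw [h]
    field_simp
    ring
  have hn : 0 ≤ Real.exp (2 * x) * (2 * m * k + (k : ℝ) ^ 2) := by positivity
  rw [key, abs_neg, abs_of_nonneg (by positivity), hi, ← mul_assoc, ← div_eq_mul_inv]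
  refine div_le_div_of_nonneg_left hn (by positivity) ?_
  rw [sq]
  exact mul_le_mul_of_nonneg_right P.p1 hp0.le

theorem Lf_bd {m Z : ℝ} {k : ℕ} {x : ℝ} (P : Par m Z k x) : Real.exp (Lf m k x) ≤ 2 := by
  have hPk : 0 < PP (m + k) x := by linarith [P.p0, P.p1]
  have h1 : Real.log (PP m x) ≤ Real.log 2 + Real.log (PP (m + k) x) := by
    rw [← Real.log_mul (by norm_num) hPk.ne']
    exact Real.log_le_log P.p0 P.p1
  have h2 : 0 ≤ Real.log 2 := Real.log_nonneg (by norm_num)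
  calc Real.exp (Lf m k x) ≤ Real.exp (Real.log 2) := by
        refine Real.exp_le_exp.2 ?_
        unfold Lf
        linarith
    _ = 2 := Real.exp_log (by norm_num)

theorem D_bd {m Z : ℝ} {k : ℕ} {x : ℝ} (P : Par m Z k x) :
    Real.exp (4 * x) * PP (m + k) x ^ (-(5 / 2) : ℝ) ≤
      Real.exp (2 * x) * (8 * ii m x ^ 3 + 8 * m ^ 2 * ii m x ^ 5) := by
  have hPk : 0 < PP (m + k) x := by linarith [P.p0, P.p1]
  have hs : 0 < Real.sqrt (PP m x) := Real.sqrt_pos.2 P.p0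
  have hp : 0 < Real.sqrt (PP (m + k) x) := Real.sqrt_pos.2 hPk
  have hs2 : Real.sqrt (PP m x) ^ 2 = PP m x := Real.sq_sqrt P.p0.le
  have hp2 : Real.sqrt (PP (m + k) x) ^ 2 = PP (m + k) x := Real.sq_sqrt hPk.le
  have he : Real.exp (2 * x) = Real.sqrt (PP m x) ^ 2 + m ^ 2 := by rw [hs2]; unfold PP; ring
  have h1 : PP (m + k) x ^ (-(5 / 2) : ℝ) = (Real.sqrt (PP (m + k) x) ^ 5)⁻¹ := by
    rw [Real.rpow_neg hPk.le, Real.sqrt_eq_rpow, ← Real.rpow_natCast, ← Real.rpow_mul hPk.le]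
    norm_num
  have h2 : 2 / 3 * Real.sqrt (PP m x) ≤ Real.sqrt (PP (m + k) x) := by
    refine Real.le_sqrt_of_sq_le ?_
    rw [mul_pow, hs2]
    linarith [P.p1, P.p0]
  have h3 : Real.sqrt (PP m x) ^ 5 / 8 ≤ Real.sqrt (PP (m + k) x) ^ 5 := by
    have := pow_le_pow_left₀ (by positivity) h2 5
    have h4 : 0 < Real.sqrt (PP m x) ^ 5 := by positivity
    nlinarith
  have h5 : (Real.sqrt (PP (m + k) x) ^ 5)⁻¹ ≤ 8 * ii m x ^ 5 := by
    have := inv_anti₀ (by positivity) h3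
    refine this.trans (le_of_eq ?_)
    unfold ii
    rw [inv_div, inv_pow, div_eq_mul_inv]
  rw [h1, show 4 * x = 2 * x + 2 * x by ring, Real.exp_add, mul_assoc]
  refine mul_le_mul_of_nonneg_left ?_ (Real.exp_pos _).le
  calc Real.exp (2 * x) * (Real.sqrt (PP (m + k) x) ^ 5)⁻¹ ≤ Real.exp (2 * x) * (8 * ii m x ^ 5) :=
        mul_le_mul_of_nonneg_left h5 (Real.exp_pos _).le
    _ = 8 * ii m x ^ 3 + 8 * m ^ 2 * ii m x ^ 5 := by
        rw [he]
        unfold ii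
        field_simp

/-- the comparison for one of the two oscillating terms -/
theorem core (C₀ : ℝ) (hC₀ : 0 < C₀) (m Z : ℝ) (k : ℕ) (hm : 0 ≤ m)
    (hZ : 4000 * (1 + (k : ℝ)) ^ 3 ≤ Z) (σ : ℝ) (hσ : |σ| = 1) (Θ : ℝ → ℝ) (B D : ℝ → ℂ)
    (hD : ContinuousOn D (Ici (xc (m + k))))
    (hΘ : ∀ x, xc (m + k) ≤ x → HasDerivAt Θ (Real.sqrt (PP (m + k) x) / (2 * Real.pi)) x)
    (hB : ∀ x, xc (m + k) ≤ x → HasDerivAt B (D x) x)
    (hBn : ∀ x, xc (m + k) ≤ x → ‖B x‖ ≤ C₀)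
    (hDn : ∀ x, xc (m + k) ≤ x →
      ‖D x‖ ≤ C₀ * Real.exp (4 * x) * PP (m + k) x ^ (-(5 / 2) : ℝ)) :
    ∃ (c : ℂ) (t t' : ℝ → ℂ), ‖c‖ ≤ 4 * C₀ ∧ ContinuousOn t' (Ici (x1 m Z)) ∧
      (∀ x, x1 m Z ≤ x → HasDerivAt t (t' x) x ∧ ‖t x‖ ≤ 26 * C₀ * ((1 + (k : ℝ)) ^ 3 / Z) ∧
        ((Real.exp x * PP (m + k) x ^ (-(1 / 4) : ℝ) : ℝ) : ℂ) * (e1 (σ * Θ x) * B x) =
          kpm m σ x * (ci (σ * (k * be m x)) * (c + t x))) ∧
      ∀ a b, x1 m Z ≤ a → a ≤ b → ∫ x in Ioc a b, ‖t' x‖ ≤ 26 * C₀ * ((1 + (k : ℝ)) ^ 3 / Z) := by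
  have hk : (0 : ℝ) ≤ k := Nat.cast_nonneg k
  have hP : ∀ x, x1 m Z ≤ x → Par m Z k x := fun x hx => par m Z k hm hZ x hx
  have hPk : ∀ x, x1 m Z ≤ x → 0 < PP (m + k) x := fun x hx => by
    linarith [(hP x hx).p0, (hP x hx).p1]
  set w : ℝ → ℂ := fun x => (Lf m k x : ℂ) + ((σ * ps m k Θ x : ℝ) : ℂ) * Complex.I with hw
  set w' : ℝ → ℂ := fun x => (L1 m k x : ℂ) + ((σ * ps1 m k x : ℝ) : ℂ) * Complex.I with hw'
  set U : ℝ → ℂ := fun x => Complex.exp (w x) * B x with hU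
  set U' : ℝ → ℂ := fun x => Complex.exp (w x) * w' x * B x + Complex.exp (w x) * D x with hU'
  have hre : ∀ x, ‖Complex.exp (w x)‖ = Real.exp (Lf m k x) := by
    intro x
    rw [Complex.norm_exp]
    congr 1
    simp [hw]
  have dw : ∀ x, x1 m Z ≤ x → HasDerivAt w (w' x) x := by
    intro x hx
    have hp := hP x hx
    have h1 : HasDerivAt (Lf m k) (L1 m k x) x :=
      ((((d_PP m x).log hp.p0.ne').fun_sub ((d_PP (m + k) x).log (hPk x hx).ne'))).div_const 4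
    have h2 : HasDerivAt (ps m k Θ) (ps1 m k x) x := by
      have h3 : HasDerivAt (ps m k Θ) _ x :=
        (((hΘ x hp.h2.le).const_mul (2 * Real.pi)).fun_sub
          ((d_th m x).const_mul (2 * Real.pi))).fun_sub ((d_be hm hp.lt).const_mul (k : ℝ))
      refine h3.congr_deriv ?_
      unfold ps1
      have := Real.pi_ne_zero
      field_simp
      ring
    exact (h1.ofReal_comp).fun_add (((h2.const_mul σ).ofReal_comp).mul_const Complex.I)
  have dU : ∀ x, x1 m Z ≤ x → HasDerivAt U (U' x) x := by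
    intro x hx
    exact ((dw x hx).cexp).fun_mul (hB x (hP x hx).h2.le)
  have cU' : ContinuousOn U' (Ici (x1 m Z)) := by
    have c1 : ContinuousOn (fun x => Complex.exp (w x)) (Ici (x1 m Z)) :=
      fun x hx => (dw x hx).cexp.continuousAt.continuousWithinAt
    have c2 : ContinuousOn B (Ici (x1 m Z)) :=
      fun x hx => (hB x (hP x hx).h2.le).continuousAt.continuousWithinAt
    have c3 : ContinuousOn D (Ici (x1 m Z)) := hD.mono (fun x hx => (hP x hx).h2.le)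
    have c4 : ContinuousOn (L1 m k) (Ici (x1 m Z)) := by
      unfold L1
      have e1 : Continuous (fun x : ℝ => 2 * Real.exp (2 * x)) := by fun_prop
      exact ((e1.continuousOn.div (cont_PP m).continuousOn (fun x hx => (hP x hx).p0.ne')).sub
        (e1.continuousOn.div (cont_PP (m + k)).continuousOn
          (fun x hx => (hPk x hx).ne'))).div_const 4
    have c5 : ContinuousOn (ps1 m k) (Ici (x1 m Z)) := by
      unfold ps1
      have e1 := Real.continuous_sqrt.comp (cont_PP m)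
      have e2 := Real.continuous_sqrt.comp (cont_PP (m + k))
      have e3 : ContinuousOn (ii m) (Ici (x1 m Z)) :=
        fun x hx => (d_ii (hP x hx).p0).continuousAt.continuousWithinAt
      exact (e2.continuousOn.sub e1.continuousOn).add
        (continuousOn_const.mul (continuousOn_const.mul e3))
    have c6 : ContinuousOn w' (Ici (x1 m Z)) :=
      (Complex.continuous_ofReal.comp_continuousOn c4).add
        ((Complex.continuous_ofReal.comp_continuousOn (continuousOn_const.mul c5)).mul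
          continuousOn_const)
    exact ((c1.mul c6).mul c2).add (c1.mul c3)
  have hle : ∀ x, x1 m Z ≤ x → ‖U' x‖ ≤ G1 C₀ m k x := by
    intro x hx
    have hp := hP x hx
    have b1 : ‖w' x‖ ≤ Real.exp (2 * x) * ((2 * m * k + k ^ 2) * ii m x ^ 4) +
        (k : ℝ) ^ 2 * (Real.exp (2 * x) * ii m x ^ 3) := by
      refine (norm_add_le _ _).trans (add_le_add ?_ ?_)
      · rw [Complex.norm_real, Real.norm_eq_abs]
        exact L1_bd hm hp
      · rw [norm_mul, Complex.norm_I, mul_one, Complex.norm_real, Real.norm_eq_abs, abs_mul, hσ,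
          one_mul]
        exact ps1_bd hm hp
    have b2 : ‖D x‖ ≤ C₀ * (Real.exp (2 * x) * (8 * ii m x ^ 3 + 8 * m ^ 2 * ii m x ^ 5)) := by
      refine (hDn x hp.h2.le).trans ?_
      rw [mul_assoc]
      exact mul_le_mul_of_nonneg_left (D_bd hp) hC₀.le
    have b3 := Lf_bd hp
    have b4 := hBn x hp.h2.le
    have b5 : 0 < Real.exp (Lf m k x) := Real.exp_pos _
    calc ‖U' x‖ ≤ ‖Complex.exp (w x) * w' x * B x‖ + ‖Complex.exp (w x) * D x‖ := norm_add_le _ _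
      _ = Real.exp (Lf m k x) * (‖w' x‖ * ‖B x‖ + ‖D x‖) := by
          rw [norm_mul, norm_mul, norm_mul, hre]; ring
      _ ≤ 2 * ((Real.exp (2 * x) * ((2 * m * k + k ^ 2) * ii m x ^ 4) +
            (k : ℝ) ^ 2 * (Real.exp (2 * x) * ii m x ^ 3)) * C₀ +
            C₀ * (Real.exp (2 * x) * (8 * ii m x ^ 3 + 8 * m ^ 2 * ii m x ^ 5))) := by
          refine mul_le_mul b3 (add_le_add (mul_le_mul b1 b4 (norm_nonneg _)
            ((norm_nonneg _).trans b1)) b2) (by positivity) (by norm_num)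
      _ = G1 C₀ m k x := by unfold G1; ring
  obtain ⟨hint, c, hc⟩ := lim U U' (Gf C₀ m k) (G1 C₀ m k) (x1 m Z)
    (26 * C₀ * ((1 + (k : ℝ)) ^ 3 / Z)) dU cU' (fun x hx => d_G C₀ k (hP x hx).p0) hle
    (fun x hx => G_bd hC₀.le hm hZ (hP x hx))
  refine ⟨c, fun x => U x - c, U', ?_, cU', ?_, hint⟩
  · have h1 := hc (x1 m Z) le_rfl
    have h2 : ‖U (x1 m Z)‖ ≤ 2 * C₀ := by
      rw [hU]
      simp only
      rw [norm_mul, hre]
      exact mul_le_mul (Lf_bd (hP _ le_rfl)) (hBn _ (hP _ le_rfl).h2.le) (norm_nonneg _)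
        (by norm_num)
    have h3 : (1 + (k : ℝ)) ^ 3 / Z ≤ 1 / 4000 := by
      have hk3 : (1 : ℝ) ≤ (1 + k) ^ 3 := one_le_pow₀ (by linarith)
      rw [div_le_div_iff₀ (by linarith) (by norm_num)]
      linarith
    have h4 : ‖c‖ ≤ ‖U (x1 m Z)‖ + ‖U (x1 m Z) - c‖ := by
      have := norm_sub_le (U (x1 m Z)) (U (x1 m Z) - c)
      rwa [sub_sub_cancel] at this
    have h5 : 26 * C₀ * ((1 + (k : ℝ)) ^ 3 / Z) ≤ 26 * C₀ * (1 / 4000) :=
      mul_le_mul_of_nonneg_left h3 (by positivity)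
    linarith
  · intro x hx
    have hp := hP x hx
    refine ⟨(dU x hx).sub_const c, hc x hx, ?_⟩
    have hmax : max x (xc m) = x := max_eq_left hp.h1.le
    unfold kpm
    rw [hmax]
    have e0 : (c + (U x - c)) = Complex.exp (w x) * B x := by rw [hU]; ring
    simp only
    rw [e0]
    have e2 : PP (m + k) x ^ (-(1 / 4) : ℝ) = PP m x ^ (-(1 / 4) : ℝ) * Real.exp (Lf m k x) := by
      rw [Real.rpow_def_of_pos (hPk x hx), Real.rpow_def_of_pos hp.p0, ← Real.exp_add]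
      congr 1
      unfold Lf
      ring
    have e3 : e1 (σ * Θ x) * Complex.exp (Lf m k x) =
        e1 (σ * th m x) * (ci (σ * (k * be m x)) * Complex.exp (w x)) := by
      rw [ci_eq, hw]
      unfold e1 ps
      simp only
      rw [← Complex.exp_add, ← Complex.exp_add, ← Complex.exp_add]
      congr 1
      push_cast
      ring
    rw [e2]
    push_cast
    calc (Complex.exp x * (((PP m x) ^ (-(1 / 4) : ℝ) : ℝ) * Complex.exp (Lf m k x)) : ℂ) *
          (e1 (σ * Θ x) * B x)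
        = Complex.exp x * ((PP m x) ^ (-(1 / 4) : ℝ) : ℝ) *
          (e1 (σ * Θ x) * Complex.exp (Lf m k x)) * B x := by ring
      _ = _ := by rw [e3]; ring

end CMP_

/-- comparison of the orders `m` and `m + k` -/
theorem p_CMP (_h1 : T_SEQ) (h2 : T_WKB) : T_CMP := by
  obtain ⟨C₀, hC₀, H⟩ := h2
  refine ⟨4000 + 30 * C₀, by linarith, ?_⟩
  intro m Z k J J' hm hZ hJ
  have hk : (0 : ℝ) ≤ k := Nat.cast_nonneg k
  have hk3 : (1 : ℝ) ≤ (1 + k) ^ 3 := one_le_pow₀ (by linarith)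
  have hZ' : 4000 * (1 + (k : ℝ)) ^ 3 ≤ Z := by nlinarith
  have hZ0 : 0 < Z := by linarith
  obtain ⟨Θ, B1, B2, D1, D2, hD1, hD2, hW⟩ := H (m + k) J J' (by linarith) hJ
  obtain ⟨c1, t1, t1', hc1, hct1, ht1, hi1⟩ := CMP_.core C₀ hC₀ m Z k hm hZ' 1 (by simp)
    Θ B1 D1 hD1
    (fun x hx => (hW x hx).1) (fun x hx => (hW x hx).2.1) (fun x hx => (hW x hx).2.2.2.1)
    (fun x hx => (hW x hx).2.2.2.2.2.1)
  obtain ⟨c2, t2, t2', hc2, hct2, ht2, hi2⟩ := CMP_.core C₀ hC₀ m Z k hm hZ' (-1) (by simp)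
    Θ B2 D2 hD2
    (fun x hx => (hW x hx).1) (fun x hx => (hW x hx).2.2.1) (fun x hx => (hW x hx).2.2.2.2.1)
    (fun x hx => (hW x hx).2.2.2.2.2.2.1)
  have hq : 0 ≤ (1 + (k : ℝ)) ^ 3 / Z := by positivity
  have hw : 26 * C₀ * ((1 + (k : ℝ)) ^ 3 / Z) ≤ (4000 + 30 * C₀) * ((1 + (k : ℝ)) ^ 3 / Z) :=
    mul_le_mul_of_nonneg_right (by linarith) hq
  refine ⟨c1, c2, t1, t2, t1', t2', by linarith, by linarith, hct1, hct2, ?_, ?_⟩
  · intro x hx
    obtain ⟨a1, a2, a3⟩ := ht1 x hx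
    obtain ⟨b1, b2, b3⟩ := ht2 x hx
    refine ⟨a1, b1, a2.trans hw, b2.trans hw, ?_⟩
    have hp := CMP_.par m Z k hm hZ' x hx
    have hJx := (hW x hp.h2.le).2.2.2.2.2.2.2
    have a4 : ((Real.exp x * PP (m + k) x ^ (-(1 / 4) : ℝ) : ℝ) : ℂ) * (e1 (Θ x) * B1 x) =
        kpm m 1 x * (ci (k * be m x) * (c1 + t1 x)) := by simpa only [one_mul] using a3
    have b4 : ((Real.exp x * PP (m + k) x ^ (-(1 / 4) : ℝ) : ℝ) : ℂ) * (e1 (-Θ x) * B2 x) =
        kpm m (-1) x * (ci (-(k * be m x)) * (c2 + t2 x)) := by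
      simpa only [neg_mul, one_mul] using b3
    rw [← a4, ← b4]
    unfold kap
    push_cast
    rw [hJx]
    ring
  · intro a b ha hab
    exact ⟨(hi1 a b ha hab).trans hw, (hi2 a b ha hab).trans hw⟩

end Pool.Agent.CRW
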