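import Pool.Agent.CRW.Targets
import Pool.Agent.CRR.P_HANK

set_option autoImplicit false

/-!
# CRW, target CRS: crude sum over a window
-/

namespace Pool.Agent.CRW

open MeasureTheory FourierTransform Set Filter Topology
open scoped ENNReal NNReal ComplexConjugate
open Pool.Agent.CRN (ci)
open Pool.Agent.CRR.HANK_ (schur)

namespace CRS_

theorem sq_sum (K : ℕ) (F : ℕ → ℝ≥0∞) :
    (∑ k ∈ Finset.range K, F k) ^ 2 ≤ K * ∑ k ∈ Finset.range K, F k ^ 2 := by
  by_cases h : ∃ k ∈ Finset.range K, F k = ⊤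
  · obtain ⟨k, hk, hF⟩ := h
    have h1 : ∑ k ∈ Finset.range K, F k ^ 2 = ⊤ :=
      ENNReal.sum_eq_top.2 ⟨k, hk, by rw [hF]; simp⟩
    have hK : (K : ℝ≥0∞) ≠ 0 := by
      have : 0 < K := lt_of_le_of_lt (Nat.zero_le _) (Finset.mem_range.1 hk)
      exact_mod_cast this.ne'
    rw [h1, ENNReal.mul_top hK]
    exact le_top
  · push Not at h
    have e : ∀ k ∈ Finset.range K, F k = ((F k).toNNReal : ℝ≥0∞) := fun k hk =>
      (ENNReal.coe_toNNReal (h k hk)).symm
    have e2 : ∑ k ∈ Finset.range K, F k ^ 2 =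
        ∑ k ∈ Finset.range K, ((F k).toNNReal : ℝ≥0∞) ^ 2 :=
      Finset.sum_congr rfl fun k hk => by rw [← e k hk]
    rw [Finset.sum_congr rfl e, e2]
    have h3 := sq_sum_le_card_mul_sum_sq (s := Finset.range K) (f := fun k => (F k).toNNReal)
    rw [Finset.card_range] at h3
    exact_mod_cast h3

theorem enorm_ci (t : ℝ) : ‖ci t‖ₑ = 1 := by
  have h : ‖ci t‖ = 1 := Complex.norm_exp_ofReal_mul_I t
  rw [← ofReal_norm, h, ENNReal.ofReal_one]

/-- the crude bound -/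
noncomputable def F (κ g : ℝ → ℂ) (u : ℝ) : ℝ≥0∞ := ∫⁻ v, ‖κ (u + v)‖ₑ * ‖g v‖ₑ

theorem F_meas {κ g : ℝ → ℂ} (hκ : Measurable κ) (hg : Measurable g) : Measurable (F κ g) := by
  refine Measurable.lintegral_prod_right' (f := fun p : ℝ × ℝ => ‖κ (p.1 + p.2)‖ₑ * ‖g p.2‖ₑ) ?_
  exact (hκ.comp (measurable_fst.add measurable_snd)).enorm.mul (hg.comp measurable_snd).enorm

theorem WM_le (K : ℕ) (κ g : ℕ → ℝ → ℂ) (u φ : ℝ) :
    WM K κ g u φ ≤ ∑ k ∈ Finset.range K, F (κ k) (g k) u := by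
  unfold WM
  refine iSup₂_le fun V1 V2 => (enorm_sum_le _ _).trans (Finset.sum_le_sum fun k _ => ?_)
  rw [enorm_mul, enorm_ci, one_mul]
  refine (enorm_integral_le_lintegral_enorm _).trans ?_
  refine (setLIntegral_le_lintegral _ _).trans (le_of_eq ?_)
  unfold F
  refine lintegral_congr fun v => ?_
  rw [enorm_mul]

end CRS_

open CRS_ in
/-- CRS. -/
theorem p_CRS : T_CRS := by
  intro K η κ g hκ hg hη
  have hF : ∀ k < K, ∫⁻ u, F (κ k) (g k) u ^ 2 ≤ η ^ 2 * ∫⁻ v, ‖g k v‖ₑ ^ 2 := by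
    intro k hk
    refine (schur (hκ k).enorm (hg k).enorm).trans ?_
    gcongr
    exact hη k hk
  have hm : ∀ k, Measurable fun u => F (κ k) (g k) u ^ 2 := fun k =>
    (F_meas (hκ k) (hg k)).pow_const 2
  calc ∫⁻ u, ∫⁻ φ in Ioc (0 : ℝ) (2 * Real.pi), WM K κ g u φ ^ 2
      ≤ ∫⁻ u, ∫⁻ _φ in Ioc (0 : ℝ) (2 * Real.pi),
          K * ∑ k ∈ Finset.range K, F (κ k) (g k) u ^ 2 := by
        refine lintegral_mono fun u => lintegral_mono fun φ => ?_
        exact (pow_le_pow_left' (WM_le K κ g u φ) 2).trans (sq_sum K _)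
    _ = ∫⁻ u, (K * ∑ k ∈ Finset.range K, F (κ k) (g k) u ^ 2) *
          ENNReal.ofReal (2 * Real.pi) := by
        refine lintegral_congr fun u => ?_
        rw [setLIntegral_const, Real.volume_Ioc, sub_zero]
    _ = K * (∑ k ∈ Finset.range K, ∫⁻ u, F (κ k) (g k) u ^ 2) *
          ENNReal.ofReal (2 * Real.pi) := by
        rw [lintegral_mul_const' _ _ ENNReal.ofReal_ne_top,
          lintegral_const_mul' _ _ (ENNReal.natCast_ne_top K),
          lintegral_finsetSum _ fun k _ => hm k]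
    _ ≤ K * (∑ k ∈ Finset.range K, η ^ 2 * ∫⁻ v, ‖g k v‖ₑ ^ 2) *
          ENNReal.ofReal (2 * Real.pi) := by
        gcongr with k hk
        exact hF k (Finset.mem_range.1 hk)
    _ = _ := by
        rw [← Finset.mul_sum]
        ring

end Pool.Agent.CRW
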