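import Pool.Agent.CRW.Targets3
import Pool.Agent.CRL.P_MODB

set_option autoImplicit false

/-!
# DCP: decoupling of windows of angular frequencies against Fejér's kernel
-/

namespace Pool.Agent.CRW

open MeasureTheory FourierTransform Set Filter Topology
open scoped ENNReal NNReal ComplexConjugate
open Pool.Agent.CRN (ci)

namespace DCP_

theorem pp : -Real.pi ≤ Real.pi := by linarith [Real.pi_pos]

theorem ci_add (s t : ℝ) : ci (s + t) = ci s * ci t := by
  unfold ci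
  rw [← Complex.exp_add]
  congr 1
  push_cast
  ring

theorem ci_conj (t : ℝ) : conj (ci t) = ci (-t) := by
  unfold ci
  rw [← Complex.exp_conj]
  congr 1
  simp

theorem ci_norm (t : ℝ) : ‖ci t‖ = 1 := by
  unfold ci
  exact Complex.norm_exp_ofReal_mul_I t

theorem ci_cont : Continuous ci := by
  unfold ci
  fun_prop

/-- one window -/
noncomputable def uw (N : ℕ) (a : ℤ → ℂ) (w : ℤ) (θ : ℝ) : ℂ :=
  ∑ k ∈ Finset.range N, a (N * w + k) * ci (((N : ℝ) * w + k) * θ)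

theorem uw_cont (N : ℕ) (a : ℤ → ℂ) (w : ℤ) : Continuous (uw N a w) := by
  unfold uw
  refine continuous_finsetSum _ fun k _ => ?_
  exact continuous_const.mul (ci_cont.comp (continuous_const.mul continuous_id))

theorem lint_eq (F : ℝ → ℝ) (hF : Continuous F) (hF0 : ∀ θ, 0 ≤ F θ) (g : ℝ → ℂ)
    (hg : Continuous g) :
    ∫⁻ θ in Ioc (-Real.pi) Real.pi, ENNReal.ofReal (F θ) * ‖g θ‖ₑ ^ 2 =
      ENNReal.ofReal (∫ θ in (-Real.pi)..Real.pi, F θ * ‖g θ‖ ^ 2) := by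
  have hc : Continuous (fun θ => F θ * ‖g θ‖ ^ 2) := hF.mul (hg.norm.pow 2)
  have hi : Integrable (fun θ => F θ * ‖g θ‖ ^ 2) (volume.restrict (Ioc (-Real.pi) Real.pi)) :=
    (hc.integrableOn_Icc).mono_set Ioc_subset_Icc_self
  rw [intervalIntegral.integral_of_le pp,
    ofReal_integral_eq_lintegral_ofReal hi (ae_of_all _ fun θ => by
      have := hF0 θ
      positivity)]
  refine lintegral_congr fun θ => ?_
  rw [ENNReal.ofReal_mul (hF0 θ), ENNReal.ofReal_pow (norm_nonneg _), ofReal_norm]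

theorem cross (N : ℕ) (F : ℝ → ℝ) (hF : Continuous F)
    (hv : ∀ m : ℤ, (N : ℤ) ≤ |m| → ∫ θ in (-Real.pi)..Real.pi, (F θ : ℂ) * ci (m * θ) = 0)
    (a : ℤ → ℂ) (w w' : ℤ) (h : 2 ≤ |w - w'|) :
    ∫ θ in (-Real.pi)..Real.pi, (F θ : ℂ) * (uw N a w θ * conj (uw N a w' θ)) = 0 := by
  have h1 : ∀ θ : ℝ, (F θ : ℂ) * (uw N a w θ * conj (uw N a w' θ)) =
      ∑ k ∈ Finset.range N, ∑ l ∈ Finset.range N,
        (a (N * w + k) * conj (a (N * w' + l))) *
          ((F θ : ℂ) * ci ((((N * w + k) - (N * w' + l) : ℤ) : ℝ) * θ)) := by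
    intro θ
    unfold uw
    rw [map_sum, Finset.sum_mul_sum, Finset.mul_sum]
    refine Finset.sum_congr rfl fun k _ => ?_
    rw [Finset.mul_sum]
    refine Finset.sum_congr rfl fun l _ => ?_
    rw [map_mul, ci_conj]
    have e : (((N * w + k) - (N * w' + l) : ℤ) : ℝ) * θ =
        ((N : ℝ) * w + k) * θ + -(((N : ℝ) * w' + l) * θ) := by
      push_cast
      ring
    rw [e, ci_add]
    ring
  have hcF : Continuous (fun θ => (F θ : ℂ)) := Complex.continuous_ofReal.comp hF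
  have hci : ∀ m : ℤ, Continuous (fun θ : ℝ => ci ((m : ℝ) * θ)) := fun m =>
    ci_cont.comp (continuous_const.mul continuous_id)
  simp only [h1]
  rw [intervalIntegral.integral_finsetSum]
  · refine Finset.sum_eq_zero fun k hk => ?_
    rw [intervalIntegral.integral_finsetSum]
    · refine Finset.sum_eq_zero fun l hl => ?_
      rw [intervalIntegral.integral_const_mul, hv, mul_zero]
      rw [Finset.mem_range] at hk hl
      have hk' : (k : ℤ) < N := by exact_mod_cast hk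
      have hl' : (l : ℤ) < N := by exact_mod_cast hl
      have hk0 : (0 : ℤ) ≤ k := Int.natCast_nonneg k
      have hl0 : (0 : ℤ) ≤ l := Int.natCast_nonneg l
      rcases le_abs.mp h with h2 | h2
      · refine le_abs.mpr (Or.inl ?_)
        nlinarith
      · refine le_abs.mpr (Or.inr ?_)
        nlinarith
    · intro l _
      exact (continuous_const.mul (hcF.mul (hci _))).intervalIntegrable _ _
  · intro k _
    refine Continuous.intervalIntegrable ?_ _ _
    exact continuous_finsetSum _ fun l _ => continuous_const.mul (hcF.mul (hci _))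

theorem diag_le (F : ℝ → ℝ) (hF : Continuous F) (hF0 : ∀ θ, 0 ≤ F θ) (g h : ℝ → ℂ)
    (hg : Continuous g) (hh : Continuous h) :
    (∫ θ in (-Real.pi)..Real.pi, (F θ : ℂ) * (g θ * conj (h θ))).re ≤
      ((∫ θ in (-Real.pi)..Real.pi, F θ * ‖g θ‖ ^ 2) +
        ∫ θ in (-Real.pi)..Real.pi, F θ * ‖h θ‖ ^ 2) / 2 := by
  have c1 : Continuous (fun θ => F θ * ‖g θ‖ ^ 2) := hF.mul (hg.norm.pow 2)
  have c2 : Continuous (fun θ => F θ * ‖h θ‖ ^ 2) := hF.mul (hh.norm.pow 2)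
  have c3 : Continuous (fun θ => (F θ : ℂ) * (g θ * conj (h θ))) :=
    (Complex.continuous_ofReal.comp hF).mul (hg.mul (Complex.continuous_conj.comp hh))
  rw [← intervalIntegral.integral_add (c1.intervalIntegrable _ _) (c2.intervalIntegrable _ _),
    ← intervalIntegral.integral_div]
  calc (∫ θ in (-Real.pi)..Real.pi, (F θ : ℂ) * (g θ * conj (h θ))).re
      ≤ ‖∫ θ in (-Real.pi)..Real.pi, (F θ : ℂ) * (g θ * conj (h θ))‖ := Complex.re_le_norm _
    _ ≤ ∫ θ in (-Real.pi)..Real.pi, ‖(F θ : ℂ) * (g θ * conj (h θ))‖ :=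
        intervalIntegral.norm_integral_le_integral_norm pp
    _ ≤ _ := by
        refine intervalIntegral.integral_mono_on pp (c3.norm.intervalIntegrable _ _)
          (((c1.add c2).div_const 2).intervalIntegrable _ _) fun θ _ => ?_
        rw [norm_mul, norm_mul, Complex.norm_real, Real.norm_eq_abs, abs_of_nonneg (hF0 θ),
          RCLike.norm_conj]
        have h1 := mul_nonneg (hF0 θ) (sq_nonneg (‖g θ‖ - ‖h θ‖))
        nlinarith

theorem fin (N : ℕ) (F : ℝ → ℝ) (hF : Continuous F) (hF0 : ∀ θ, 0 ≤ F θ)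
    (hv : ∀ m : ℤ, (N : ℤ) ≤ |m| → ∫ θ in (-Real.pi)..Real.pi, (F θ : ℂ) * ci (m * θ) = 0)
    (a : ℤ → ℂ) (W : Finset ℤ) :
    ∫ θ in (-Real.pi)..Real.pi, F θ * ‖∑ w ∈ W, uw N a w θ‖ ^ 2 ≤
      3 * ∑ w ∈ W, ∫ θ in (-Real.pi)..Real.pi, F θ * ‖uw N a w θ‖ ^ 2 := by
  set Φ : ℤ → ℝ := fun w => ∫ θ in (-Real.pi)..Real.pi, F θ * ‖uw N a w θ‖ ^ 2 with hΦ
  have hΦ0 : ∀ w, 0 ≤ Φ w := by
    intro w
    refine intervalIntegral.integral_nonneg pp fun θ _ => ?_
    have := hF0 θ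
    positivity
  have hcF : Continuous (fun θ => (F θ : ℂ)) := Complex.continuous_ofReal.comp hF
  have hc : ∀ w w', Continuous (fun θ => (F θ : ℂ) * (uw N a w θ * conj (uw N a w' θ))) :=
    fun w w' => hcF.mul ((uw_cont N a w).mul (Complex.continuous_conj.comp (uw_cont N a w')))
  have h1 : ((∫ θ in (-Real.pi)..Real.pi, F θ * ‖∑ w ∈ W, uw N a w θ‖ ^ 2 : ℝ) : ℂ) =
      ∑ w ∈ W, ∑ w' ∈ W, ∫ θ in (-Real.pi)..Real.pi,
        (F θ : ℂ) * (uw N a w θ * conj (uw N a w' θ)) := by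
    rw [← intervalIntegral.integral_ofReal]
    have h2 : ∀ θ : ℝ, ((F θ * ‖∑ w ∈ W, uw N a w θ‖ ^ 2 : ℝ) : ℂ) =
        ∑ w ∈ W, ∑ w' ∈ W, (F θ : ℂ) * (uw N a w θ * conj (uw N a w' θ)) := by
      intro θ
      rw [Complex.ofReal_mul, ← Complex.normSq_eq_norm_sq, ← Complex.mul_conj, map_sum,
        Finset.sum_mul_sum, Finset.mul_sum]
      refine Finset.sum_congr rfl fun w _ => ?_
      rw [Finset.mul_sum]
    simp only [h2]
    rw [intervalIntegral.integral_finsetSum]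
    · refine Finset.sum_congr rfl fun w _ => ?_
      rw [intervalIntegral.integral_finsetSum]
      intro w' _
      exact (hc w w').intervalIntegrable _ _
    · intro w _
      refine Continuous.intervalIntegrable ?_ _ _
      exact continuous_finsetSum _ fun w' _ => hc w w'
  have h3 : ∫ θ in (-Real.pi)..Real.pi, F θ * ‖∑ w ∈ W, uw N a w θ‖ ^ 2 =
      ∑ w ∈ W, ∑ w' ∈ W, (∫ θ in (-Real.pi)..Real.pi,
        (F θ : ℂ) * (uw N a w θ * conj (uw N a w' θ))).re := by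
    have := congrArg Complex.re h1
    rw [Complex.ofReal_re, Complex.re_sum] at this
    rw [this]
    refine Finset.sum_congr rfl fun w _ => ?_
    rw [Complex.re_sum]
  have h4 : ∀ w w' : ℤ, (∫ θ in (-Real.pi)..Real.pi,
      (F θ : ℂ) * (uw N a w θ * conj (uw N a w' θ))).re ≤
      (if |w - w'| ≤ 1 then Φ w / 2 else 0) + (if |w - w'| ≤ 1 then Φ w' / 2 else 0) := by
    intro w w'
    split_ifs with h5
    · have := diag_le F hF hF0 _ _ (uw_cont N a w) (uw_cont N a w')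
      rw [← add_div]
      exact this
    · rw [cross N F hF hv a w w' (by omega)]
      simp
  have h5 : ∀ w : ℤ, ∑ w' ∈ W, (if |w - w'| ≤ 1 then Φ w / 2 else 0) ≤ 3 * (Φ w / 2) := by
    intro w
    rw [← Finset.sum_filter, Finset.sum_const, nsmul_eq_mul]
    refine mul_le_mul_of_nonneg_right ?_ (by linarith [hΦ0 w])
    have h6 : W.filter (fun w' => |w - w'| ≤ 1) ⊆ {w - 1, w, w + 1} := by
      intro v hv
      rw [Finset.mem_filter] at hv
      have h7 := abs_le.mp hv.2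
      simp only [Finset.mem_insert, Finset.mem_singleton]
      omega
    have h7 := (Finset.card_le_card h6).trans (Finset.card_le_three)
    exact_mod_cast h7
  have h6 : ∑ w ∈ W, ∑ w' ∈ W, (if |w - w'| ≤ 1 then Φ w' / 2 else 0) =
      ∑ w ∈ W, ∑ w' ∈ W, (if |w - w'| ≤ 1 then Φ w / 2 else 0) := by
    rw [Finset.sum_comm]
    refine Finset.sum_congr rfl fun w _ => Finset.sum_congr rfl fun w' _ => ?_
    rw [abs_sub_comm]
  rw [h3]
  calc ∑ w ∈ W, ∑ w' ∈ W, (∫ θ in (-Real.pi)..Real.pi,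
        (F θ : ℂ) * (uw N a w θ * conj (uw N a w' θ))).re
      ≤ ∑ w ∈ W, ∑ w' ∈ W, ((if |w - w'| ≤ 1 then Φ w / 2 else 0) +
          (if |w - w'| ≤ 1 then Φ w' / 2 else 0)) :=
        Finset.sum_le_sum fun w _ => Finset.sum_le_sum fun w' _ => h4 w w'
    _ = 2 * ∑ w ∈ W, ∑ w' ∈ W, (if |w - w'| ≤ 1 then Φ w / 2 else 0) := by
        simp only [Finset.sum_add_distrib]
        rw [h6]
        ring
    _ ≤ 2 * ∑ w ∈ W, 3 * (Φ w / 2) := by
        refine mul_le_mul_of_nonneg_left ?_ (by norm_num)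
        exact Finset.sum_le_sum fun w _ => h5 w
    _ = 3 * ∑ w ∈ W, Φ w := by
        rw [Finset.mul_sum, Finset.mul_sum]
        refine Finset.sum_congr rfl fun w _ => ?_
        ring

/-- the frequencies of the windows in `W` -/
noncomputable def fw (N : ℕ) (W : Finset ℤ) : Finset ℤ :=
  (W ×ˢ Finset.range N).image (fun p => (N : ℤ) * p.1 + p.2)

theorem inj (N : ℕ) (W : Finset ℤ) : ∀ p ∈ W ×ˢ Finset.range N, ∀ q ∈ W ×ˢ Finset.range N,
    (N : ℤ) * p.1 + p.2 = (N : ℤ) * q.1 + q.2 → p = q := by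
  rintro ⟨w, k⟩ hp ⟨w', k'⟩ hq h
  rw [Finset.mem_product, Finset.mem_range] at hp hq
  simp only at hp hq h
  have hk : (k : ℤ) < N := by exact_mod_cast hp.2
  have hk' : (k' : ℤ) < N := by exact_mod_cast hq.2
  have h0 : (0 : ℤ) ≤ k := Int.natCast_nonneg k
  have h0' : (0 : ℤ) ≤ k' := Int.natCast_nonneg k'
  have e : w = w' := by
    rcases lt_trichotomy w w' with h1 | h1 | h1
    · exfalso
      nlinarith
    · exact h1
    · exfalso
      nlinarith
  subst e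
  have e2 : (k : ℤ) = k' := by linarith
  rw [Prod.mk.injEq]
  exact ⟨rfl, by exact_mod_cast e2⟩

theorem sum_uw (N : ℕ) (a : ℤ → ℂ) (W : Finset ℤ) (θ : ℝ) :
    ∑ w ∈ W, uw N a w θ = ∑ m ∈ fw N W, a m * ci (m * θ) := by
  unfold fw
  rw [Finset.sum_image (fun p hp q hq h => inj N W p hp q hq h), Finset.sum_product]
  refine Finset.sum_congr rfl fun w _ => ?_
  unfold uw
  refine Finset.sum_congr rfl fun k _ => ?_
  push_cast
  rfl

theorem fw_tendsto (N : ℕ) (hN : 1 ≤ N) : Tendsto (fw N) atTop atTop := by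
  rw [Filter.tendsto_atTop_atTop]
  intro K
  refine ⟨K.image (fun m => m / (N : ℤ)), fun W hW => ?_⟩
  intro m hm
  unfold fw
  rw [Finset.mem_image]
  have hN0 : (0 : ℤ) < N := by exact_mod_cast hN
  refine ⟨(m / (N : ℤ), (m % (N : ℤ)).toNat), ?_, ?_⟩
  · rw [Finset.mem_product]
    refine ⟨hW (Finset.mem_image.mpr ⟨m, hm, rfl⟩), ?_⟩
    rw [Finset.mem_range]
    have h1 := Int.emod_lt_of_pos m hN0
    have h2 := Int.emod_nonneg m hN0.ne'
    simp only
    omega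
  · have h2 := Int.emod_nonneg m hN0.ne'
    simp only
    rw [Int.toNat_of_nonneg h2]
    exact Int.mul_ediv_add_emod m N

theorem young (e x y : ℝ) (he : 0 < e) :
    (x + y) ^ 2 ≤ (1 + e) * x ^ 2 + (1 + e⁻¹) * y ^ 2 := by
  have h1 : 0 ≤ e⁻¹ * (e * x - y) ^ 2 := mul_nonneg (inv_nonneg.mpr he.le) (sq_nonneg _)
  have h2 : e⁻¹ * (e * x - y) ^ 2 = e * x ^ 2 - 2 * x * y + e⁻¹ * y ^ 2 := by
    field_simp
    ring
  nlinarith

theorem defect (N : ℕ) (hN : 1 ≤ N) (u : ℝ → ℂ) (a : ℤ → ℂ) (hu : Continuous u)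
    (ha : ∀ m : ℤ, a m = ((2 * Real.pi)⁻¹ : ℝ) *
      ∫ θ in (-Real.pi)..Real.pi, u θ * ci (-(m * θ))) :
    Tendsto (fun W : Finset ℤ => ∫⁻ θ in Ioc (-Real.pi) Real.pi,
      ‖u θ - ∑ w ∈ W, uw N a w θ‖ₑ ^ 2) atTop (𝓝 0) := by
  have hcf : ∀ m : ℤ, Pool.Agent.CRL.MODB_.cf u m = a m := fun m => (ha m).symm
  obtain ⟨M, hM⟩ := (isCompact_Icc (a := -Real.pi) (b := Real.pi)).exists_bound_of_continuousOn
    hu.continuousOn
  have hL : MemLp u 2 (volume.restrict (Ioc (-Real.pi) Real.pi)) := by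
    refine MemLp.of_bound hu.aestronglyMeasurable M ?_
    exact (ae_restrict_iff' measurableSet_Ioc).mpr
      (ae_of_all _ fun θ hθ => hM θ (Ioc_subset_Icc_self hθ))
  have hP := Pool.Agent.CRL.MODB_.parseval u hL
  have hfin : ∫⁻ θ in Ioc (-Real.pi) Real.pi, ‖u θ‖ₑ ^ 2 ≠ ⊤ := by
    have h := lint_eq (fun _ => 1) continuous_const (fun _ => zero_le_one) u hu
    simp only [ENNReal.ofReal_one, one_mul] at h
    rw [h]
    exact ENNReal.ofReal_ne_top
  set P := ∫⁻ θ in Ioc (-Real.pi) Real.pi, ‖u θ‖ₑ ^ 2 with hPdef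
  have h3 := Pool.Agent.CRL.MODB_.p3 u hL
  simp only [hcf] at hP h3
  have hsum : HasSum (fun k : ℤ => ENNReal.ofReal (2 * Real.pi) * ‖a k‖ₑ ^ 2) P := by
    rw [← hP]
    exact ENNReal.summable.hasSum
  have h4 : Tendsto (fun W => ∑ k ∈ fw N W, ENNReal.ofReal (2 * Real.pi) * ‖a k‖ₑ ^ 2) atTop
      (𝓝 P) := hsum.comp (fw_tendsto N hN)
  have h5 : ∀ W : Finset ℤ, ∫⁻ θ in Ioc (-Real.pi) Real.pi, ‖u θ - ∑ w ∈ W, uw N a w θ‖ₑ ^ 2 =
      P - ∑ k ∈ fw N W, ENNReal.ofReal (2 * Real.pi) * ‖a k‖ₑ ^ 2 := by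
    intro W
    have h6 := h3 (fw N W)
    have h7 : ∑ k ∈ fw N W, ENNReal.ofReal (2 * Real.pi) * ‖a k‖ₑ ^ 2 ≠ ⊤ := by
      refine ne_top_of_le_ne_top hfin ?_
      rw [hPdef, ← h6]
      exact le_add_self
    refine ENNReal.eq_sub_of_add_eq h7 ?_
    rw [hPdef, ← h6]
    congr 1
    refine lintegral_congr fun θ => ?_
    rw [sum_uw]
    rfl
  simp only [h5]
  have h6 : P - P = 0 := tsub_self P
  rw [← h6]
  exact ENNReal.Tendsto.sub tendsto_const_nhds h4 (Or.inl hfin)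

theorem main (N : ℕ) (hN : 1 ≤ N) (F : ℝ → ℝ) (hF : Continuous F) (hF0 : ∀ θ, 0 ≤ F θ)
    (hv : ∀ m : ℤ, (N : ℤ) ≤ |m| → ∫ θ in (-Real.pi)..Real.pi, (F θ : ℂ) * ci (m * θ) = 0)
    (u : ℝ → ℂ) (a : ℤ → ℂ) (hu : Continuous u)
    (ha : ∀ m : ℤ, a m = ((2 * Real.pi)⁻¹ : ℝ) *
      ∫ θ in (-Real.pi)..Real.pi, u θ * ci (-(m * θ))) :
    ∫⁻ θ in Ioc (-Real.pi) Real.pi, ENNReal.ofReal (F θ) * ‖u θ‖ₑ ^ 2 ≤
      3 * ∑' w : ℤ, ∫⁻ θ in Ioc (-Real.pi) Real.pi, ENNReal.ofReal (F θ) *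
        ‖uw N a w θ‖ₑ ^ 2 := by
  set T : ℝ≥0∞ := 3 * ∑' w : ℤ, ∫⁻ θ in Ioc (-Real.pi) Real.pi, ENNReal.ofReal (F θ) *
    ‖uw N a w θ‖ₑ ^ 2 with hT
  set A : ℝ≥0∞ := ∫⁻ θ in Ioc (-Real.pi) Real.pi, ENNReal.ofReal (F θ) * ‖u θ‖ₑ ^ 2 with hA
  obtain ⟨M, hM⟩ := (isCompact_Icc (a := -Real.pi) (b := Real.pi)).exists_bound_of_continuousOn
    hF.continuousOn
  have hW : ∀ W : Finset ℤ, ∫⁻ θ in Ioc (-Real.pi) Real.pi, ENNReal.ofReal (F θ) *
      ‖∑ w ∈ W, uw N a w θ‖ₑ ^ 2 ≤ T := by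
    intro W
    rw [lint_eq F hF hF0 _ (continuous_finsetSum _ fun w _ => uw_cont N a w)]
    refine (ENNReal.ofReal_le_ofReal (fin N F hF hF0 hv a W)).trans ?_
    rw [ENNReal.ofReal_mul (by norm_num), ENNReal.ofReal_sum_of_nonneg]
    · rw [hT]
      refine mul_le_mul' (by norm_num) ?_
      simp only [← lint_eq F hF hF0 _ (uw_cont N a _)]
      exact ENNReal.sum_le_tsum W
    · intro w _
      refine intervalIntegral.integral_nonneg pp fun θ _ => ?_
      have := hF0 θ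
      positivity
  have hM0 : 0 ≤ M := (norm_nonneg _).trans (hM 0 ⟨by linarith [Real.pi_pos], Real.pi_pos.le⟩)
  have key : ∀ e : ℝ, 0 < e → A ≤ ENNReal.ofReal (1 + e) * T := by
    intro e he
    have h1 : ∀ W : Finset ℤ, A ≤ ENNReal.ofReal (1 + e) * T +
        ENNReal.ofReal ((1 + e⁻¹) * M) * ∫⁻ θ in Ioc (-Real.pi) Real.pi,
          ‖u θ - ∑ w ∈ W, uw N a w θ‖ₑ ^ 2 := by
      intro W
      set U : ℝ → ℂ := fun θ => ∑ w ∈ W, uw N a w θ with hU
      have hUc : Continuous U := continuous_finsetSum _ fun w _ => uw_cont N a w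
      have m1 : Measurable (fun θ => ENNReal.ofReal (F θ) * ‖U θ‖ₑ ^ 2) :=
        hF.measurable.ennreal_ofReal.mul (hUc.measurable.enorm.pow_const 2)
      have m2 : Measurable (fun θ => ‖u θ - U θ‖ₑ ^ 2) :=
        (hu.sub hUc).measurable.enorm.pow_const 2
      calc A ≤ ∫⁻ θ in Ioc (-Real.pi) Real.pi,
            (ENNReal.ofReal (1 + e) * (ENNReal.ofReal (F θ) * ‖U θ‖ₑ ^ 2) +
              ENNReal.ofReal ((1 + e⁻¹) * M) * ‖u θ - U θ‖ₑ ^ 2) := by
            rw [hA]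
            refine setLIntegral_mono' measurableSet_Ioc fun θ hθ => ?_
            have hFM : F θ ≤ M := (le_abs_self _).trans (hM θ (Ioc_subset_Icc_self hθ))
            have hy : ‖u θ‖ ^ 2 ≤ (1 + e) * ‖U θ‖ ^ 2 + (1 + e⁻¹) * ‖u θ - U θ‖ ^ 2 := by
              refine le_trans ?_ (young e _ _ he)
              refine pow_le_pow_left₀ (norm_nonneg _) ?_ 2
              have h2 : u θ = U θ + (u θ - U θ) := by ring
              calc ‖u θ‖ = ‖U θ + (u θ - U θ)‖ := by rw [← h2]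
                _ ≤ _ := norm_add_le _ _
            have hr : F θ * ‖u θ‖ ^ 2 ≤ (1 + e) * (F θ * ‖U θ‖ ^ 2) +
                ((1 + e⁻¹) * M) * ‖u θ - U θ‖ ^ 2 := by
              have h3 := mul_le_mul_of_nonneg_left hy (hF0 θ)
              have h4 : F θ * ((1 + e⁻¹) * ‖u θ - U θ‖ ^ 2) ≤
                  M * ((1 + e⁻¹) * ‖u θ - U θ‖ ^ 2) :=
                mul_le_mul_of_nonneg_right hFM (by positivity)
              nlinarith
            have e1 : ∀ z : ℂ, ‖z‖ₑ ^ 2 = ENNReal.ofReal (‖z‖ ^ 2) := by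
              intro z
              rw [ENNReal.ofReal_pow (norm_nonneg _), ofReal_norm]
            have hF1 := hF0 θ
            rw [e1, e1, e1, ← ENNReal.ofReal_mul hF1, ← ENNReal.ofReal_mul hF1,
              ← ENNReal.ofReal_mul (by positivity), ← ENNReal.ofReal_mul (by positivity),
              ← ENNReal.ofReal_add (by positivity) (by positivity)]
            exact ENNReal.ofReal_le_ofReal hr
        _ = ENNReal.ofReal (1 + e) * (∫⁻ θ in Ioc (-Real.pi) Real.pi,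
              ENNReal.ofReal (F θ) * ‖U θ‖ₑ ^ 2) + ENNReal.ofReal ((1 + e⁻¹) * M) *
              ∫⁻ θ in Ioc (-Real.pi) Real.pi, ‖u θ - U θ‖ₑ ^ 2 := by
            rw [lintegral_add_left (m1.const_mul _), lintegral_const_mul _ m1,
              lintegral_const_mul _ m2]
        _ ≤ _ := by
            refine add_le_add ?_ le_rfl
            exact mul_le_mul' le_rfl (hW W)
    have h2 : Tendsto (fun W : Finset ℤ => ENNReal.ofReal (1 + e) * T +
        ENNReal.ofReal ((1 + e⁻¹) * M) * ∫⁻ θ in Ioc (-Real.pi) Real.pi,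
          ‖u θ - ∑ w ∈ W, uw N a w θ‖ₑ ^ 2) atTop
        (𝓝 (ENNReal.ofReal (1 + e) * T + ENNReal.ofReal ((1 + e⁻¹) * M) * 0)) := by
      refine Tendsto.add tendsto_const_nhds ?_
      exact ENNReal.Tendsto.const_mul (defect N hN u a hu ha) (Or.inr ENNReal.ofReal_ne_top)
    rw [mul_zero, add_zero] at h2
    exact ge_of_tendsto' h2 h1
  have h3 : Tendsto (fun e : ℝ => ENNReal.ofReal (1 + e) * T) (𝓝[>] 0)
      (𝓝 (ENNReal.ofReal (1 + 0) * T)) := by
    refine ENNReal.Tendsto.mul_const ?_ (Or.inl ?_)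
    · refine ENNReal.tendsto_ofReal ?_
      exact (tendsto_const_nhds.add tendsto_id).mono_left nhdsWithin_le_nhds
    · simp
  rw [add_zero, ENNReal.ofReal_one, one_mul] at h3
  refine ge_of_tendsto h3 ?_
  filter_upwards [self_mem_nhdsWithin] with e he
  exact key e he

end DCP_

open DCP_ in
theorem p_DCP (h1 : T_FEJ) : T_DCP := by
  intro N ψ u a hN hu _ ha
  obtain ⟨hc, h0, -, -, hv⟩ := h1 N hN
  exact main N hN (fun θ => fej N (θ - ψ)) (hc.comp (continuous_id.sub continuous_const))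
    (fun θ => (h0 (θ - ψ)).1) (fun m hm => hv m ψ hm) u a hu ha

end Pool.Agent.CRW
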