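import Pool.Agent.CRW.Targets2

set_option autoImplicit false

/-!
# CRW, target DEE: integral over the deep forbidden region
-/

namespace Pool.Agent.CRW

open MeasureTheory FourierTransform Set Filter Topology
open scoped ENNReal NNReal ComplexConjugate
open Pool.Agent.CRR (PP Sol xc E2 NSol kap aa de la si ww band fh StripD FS FA HH)

namespace DEE_

theorem exp_bd {ν τ : ℝ} (hν : 1 ≤ ν) (hτ : 1 ≤ ν ^ (2 / 3 : ℝ) * τ) :
    ν ^ (2 / 3 : ℝ) * τ ≤ ν * min (τ ^ (3 / 2 : ℝ)) τ := by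
  have hν0 : 0 < ν := by linarith
  have hb0 : 0 < ν ^ (2 / 3 : ℝ) := Real.rpow_pos_of_pos hν0 _
  have hτ0 : 0 < τ := by
    by_contra h
    push Not at h
    nlinarith [mul_nonneg hb0.le (neg_nonneg.2 h)]
  rcases min_cases (τ ^ (3 / 2 : ℝ)) τ with ⟨h, _⟩ | ⟨h, _⟩
  · rw [h]
    have h32 : (ν ^ (2 / 3 : ℝ)) ^ (3 / 2 : ℝ) = ν := by
      rw [← Real.rpow_mul hν0.le]; norm_num
    calc ν ^ (2 / 3 : ℝ) * τ = (ν ^ (2 / 3 : ℝ) * τ) ^ (1 : ℝ) := (Real.rpow_one _).symm
      _ ≤ (ν ^ (2 / 3 : ℝ) * τ) ^ (3 / 2 : ℝ) :=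
          Real.rpow_le_rpow_of_exponent_le hτ (by norm_num)
      _ = ν * τ ^ (3 / 2 : ℝ) := by rw [Real.mul_rpow hb0.le hτ0.le, h32]
  · rw [h]
    apply mul_le_mul_of_nonneg_right _ hτ0.le
    calc ν ^ (2 / 3 : ℝ) ≤ ν ^ (1 : ℝ) := Real.rpow_le_rpow_of_exponent_le hν (by norm_num)
      _ = ν := Real.rpow_one _

end DEE_

open DEE_ in
theorem p_DEE (h1 : T_JTL) : T_DEE := by
  obtain ⟨C, hC, H⟩ := h1
  refine ⟨4 * C, by positivity, ?_⟩
  intro ν A J J' hν hA hA2 hJ
  have hν0 : 0 < ν := by linarith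
  obtain ⟨b, hb⟩ : ∃ b : ℝ, b = ν ^ (2 / 3 : ℝ) := ⟨_, rfl⟩
  have hb1 : 1 ≤ b := by rw [hb]; exact Real.one_le_rpow hν (by norm_num)
  have hb0 : 0 < b := by linarith
  have hb13 : ν ^ (1 / 3 : ℝ) * b = ν := by
    rw [hb, ← Real.rpow_add hν0]; norm_num
  have hbm : ν * ν ^ (-(1 / 3) : ℝ) = b := by
    nth_rewrite 1 [← Real.rpow_one ν]
    rw [hb, ← Real.rpow_add hν0]; norm_num
  have h13 : 0 < ν ^ (1 / 3 : ℝ) := Real.rpow_pos_of_pos hν0 _
  have hAb : A / b ≤ 1 / 2 := by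
    rw [div_le_iff₀ hb0]
    have h3 : A * ν ^ (1 / 3 : ℝ) ≤ (ν ^ (1 / 3 : ℝ) * b) / 2 := by rw [hb13]; exact hA2
    nlinarith
  have hx0 : x0 ν A ≤ Real.log ν - A / b := by
    have h4 : ν - A * ν ^ (1 / 3 : ℝ) = ν * (1 - A / b) := by
      have h5 : ν ^ (1 / 3 : ℝ) = ν / b := by rw [eq_div_iff hb0.ne']; exact hb13
      rw [h5]; ring
    rw [x0, h4, Real.log_mul hν0.ne' (by linarith)]
    have := Real.log_le_sub_one_of_pos (x := 1 - A / b) (by linarith)
    linarith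
  have key : ∀ x ∈ Iic (x0 ν A), ‖kap J x‖ₑ ≤
      ENNReal.ofReal (C * b * Real.exp (-(b / 4 * Real.log ν)) * Real.exp (b / 4 * x)) := by
    intro x hx
    have hx' : x ≤ Real.log ν - A / b := le_trans hx hx0
    have hτ : A / b ≤ Real.log ν - x := by linarith
    have hτ0 : 0 ≤ Real.log ν - x := le_trans (by positivity) hτ
    have hτ1 : 1 ≤ b * (Real.log ν - x) := by
      rw [div_le_iff₀ hb0] at hτ; nlinarith
    have h5 := H ν (Real.log ν - x) J J' hν hτ0 hJ
    rw [sub_sub_cancel] at h5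
    have h6 := exp_bd hν (τ := Real.log ν - x) (by rw [← hb]; exact hτ1)
    rw [← hb] at h6
    have h7 : Real.exp x ≤ ν := by
      rw [← Real.exp_log hν0]
      apply Real.exp_le_exp.2
      linarith
    rw [← ofReal_norm]
    apply ENNReal.ofReal_le_ofReal
    rw [kap, Complex.norm_real, Real.norm_eq_abs, abs_mul, abs_of_pos (Real.exp_pos x)]
    calc Real.exp x * |J x| ≤ ν * (C * ν ^ (-(1 / 3) : ℝ) *
          Real.exp (-(ν * min ((Real.log ν - x) ^ (3 / 2 : ℝ)) (Real.log ν - x) / 4))) := by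
          gcongr
      _ ≤ ν * (C * ν ^ (-(1 / 3) : ℝ) * Real.exp (-(b * (Real.log ν - x) / 4))) := by
          gcongr
      _ = C * (ν * ν ^ (-(1 / 3) : ℝ)) * Real.exp (-(b * (Real.log ν - x) / 4)) := by ring
      _ = C * b * Real.exp (-(b / 4 * Real.log ν)) * Real.exp (b / 4 * x) := by
          rw [hbm, mul_assoc (C * b), ← Real.exp_add]; ring_nf
  calc ∫⁻ x in Iic (x0 ν A), ‖kap J x‖ₑ
      ≤ ∫⁻ x in Iic (x0 ν A),
        ENNReal.ofReal (C * b * Real.exp (-(b / 4 * Real.log ν)) * Real.exp (b / 4 * x)) :=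
        setLIntegral_mono' measurableSet_Iic key
    _ = ENNReal.ofReal (∫ x in Iic (x0 ν A),
        C * b * Real.exp (-(b / 4 * Real.log ν)) * Real.exp (b / 4 * x)) := by
        rw [ofReal_integral_eq_lintegral_ofReal]
        · exact (integrableOn_exp_mul_Iic (by positivity) _).const_mul _
        · exact Filter.Eventually.of_forall fun x => by positivity
    _ ≤ ENNReal.ofReal (4 * C * Real.exp (-(A / 4))) := by
        apply ENNReal.ofReal_le_ofReal
        rw [integral_const_mul, integral_exp_mul_Iic (by positivity)]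
        have e1 : C * b * Real.exp (-(b / 4 * Real.log ν)) *
            (Real.exp (b / 4 * x0 ν A) / (b / 4)) =
            4 * C * Real.exp (b / 4 * (x0 ν A - Real.log ν)) := by
          rw [show b / 4 * (x0 ν A - Real.log ν) = -(b / 4 * Real.log ν) + b / 4 * x0 ν A by ring,
            Real.exp_add]
          field_simp
        rw [e1]
        have e2 : b / 4 * (x0 ν A - Real.log ν) ≤ -(A / 4) := by
          have : b / 4 * (x0 ν A - Real.log ν) ≤ b / 4 * (-(A / b)) := by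
            apply mul_le_mul_of_nonneg_left _ (by positivity)
            linarith
          calc _ ≤ _ := this
            _ = -(A / 4) := by field_simp
        gcongr

end Pool.Agent.CRW
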