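import Pool.Agent.CRW.Targets2

set_option autoImplicit false

/-!
# DLE: propagation to the left in the turning zone
-/

namespace Pool.Agent.CRW

open MeasureTheory Set Filter Topology
open Pool.Agent.CRR (PP Sol xc E2 NSol T_SEQ T_ENR)

namespace DLE_

theorem exp43 {a y : ℝ} (ha : 0 < a) (hy : a ^ 3 ≤ Real.exp y) :
    a ^ 4 ≤ Real.exp (4 * y / 3) := by
  have h1 : Real.exp y = Real.exp (y / 3) ^ 3 := by
    rw [← Real.exp_nat_mul]
    congr 1
    push_cast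
    ring
  have h2 : Real.exp (4 * y / 3) = Real.exp (y / 3) ^ 4 := by
    rw [← Real.exp_nat_mul]
    congr 1
    push_cast
    ring
  rw [h1] at hy
  have h3 : a ≤ Real.exp (y / 3) :=
    (pow_le_pow_iff_left₀ ha.le (Real.exp_pos _).le (by norm_num)).1 hy
  rw [h2]
  exact pow_le_pow_left₀ ha.le h3 4

theorem rp1 {a : ℝ} (ha : 0 < a) : (a ^ 3) ^ (-(1 / 3) : ℝ) = a⁻¹ := by
  rw [← Real.rpow_natCast a 3, ← Real.rpow_mul ha.le]
  norm_num
  exact Real.rpow_neg_one a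

theorem rp2 {a : ℝ} (ha : 0 < a) : (a ^ 3) ^ (-(2 / 3) : ℝ) = (a ^ 2)⁻¹ := by
  rw [← Real.rpow_natCast a 3, ← Real.rpow_mul ha.le, ← Real.rpow_natCast a 2,
    ← Real.rpow_neg ha.le]
  norm_num

theorem sqrt_low {a P : ℝ} (hP : 100 * a ^ 4 ≤ P) : 10 * a ^ 2 ≤ Real.sqrt P := by
  refine Real.le_sqrt_of_sq_le ?_
  nlinarith

/-- bound for the solution of order `ν + k` -/
theorem jbound (h1 : T_SEQ) (h2 : T_ENR) {a C : ℝ} {k : ℕ} {J J' : ℝ → ℝ} (ha : 1 ≤ a)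
    (hC : 0 < C) (hJ : NSol (a ^ 3 + k) J J')
    (h3 : ∀ x, x ≤ xc (a ^ 3 + k) → |J x| ≤ C * (a ^ 3 + k) ^ (-(1 / 3) : ℝ)) (y : ℝ) :
    |J y| * a ≤ C + 1 := by
  have ha0 : 0 < a := by linarith
  have hν : 0 < a ^ 3 := by positivity
  have hk : (0 : ℝ) ≤ k := Nat.cast_nonneg k
  rcases le_or_gt y (xc (a ^ 3 + k)) with hy | hy
  · have h4 := h3 y hy
    have h5 : (a ^ 3 + k) ^ (-(1 / 3) : ℝ) ≤ a⁻¹ := by
      rw [← rp1 ha0]
      exact Real.rpow_le_rpow_of_nonpos hν (by linarith) (by norm_num)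
    have h6 : |J y| ≤ C * a⁻¹ := h4.trans (mul_le_mul_of_nonneg_left h5 hC.le)
    calc |J y| * a ≤ C * a⁻¹ * a := mul_le_mul_of_nonneg_right h6 ha0.le
      _ = C := by field_simp
      _ ≤ C + 1 := by linarith
  · have h4 := h2 (a ^ 3 + k) J J' y (xc (a ^ 3 + k)) (by linarith) hJ.sol hy.le le_rfl
    rw [hJ.nrm] at h4
    have h5 := ((h1 (a ^ 3 + k) (by linarith)).1 y hy.le).1
    have h6 : a ^ 3 ≤ Real.exp y := by
      have h7 : 0 < a ^ 3 + k + 3000 * (1 + (a ^ 3 + k)) ^ (1 / 3 : ℝ) := by positivity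
      have h8 : a ^ 3 + k + 3000 * (1 + (a ^ 3 + k)) ^ (1 / 3 : ℝ) ≤ Real.exp y :=
        (Real.log_le_iff_le_exp h7).1 hy.le
      have h9 : 0 ≤ 3000 * (1 + (a ^ 3 + k)) ^ (1 / 3 : ℝ) := by positivity
      linarith
    have h7 := exp43 ha0 h6
    have h8 : 10 * a ^ 2 ≤ Real.sqrt (PP (a ^ 3 + k) y) := sqrt_low (by linarith)
    unfold E2 at h4
    have h9 : 0 ≤ J' y ^ 2 / Real.sqrt (PP (a ^ 3 + k) y) := by positivity
    have h10 : Real.sqrt (PP (a ^ 3 + k) y) * J y ^ 2 ≤ 2 := by linarith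
    have h11 : 10 * a ^ 2 * J y ^ 2 ≤ 2 :=
      (mul_le_mul_of_nonneg_right h8 (sq_nonneg _)).trans h10
    have h12 : (|J y| * a) ^ 2 ≤ 1 ^ 2 := by
      rw [mul_pow, sq_abs]
      nlinarith
    have h13 : |J y| * a ≤ 1 :=
      (pow_le_pow_iff_left₀ (by positivity) zero_le_one (by norm_num)).1 h12
    linarith

/-- geometry of the zone -/
theorem zone {a A b y : ℝ} (ha : 4000 ≤ a) (hA : 1 ≤ A) (hAa : A * a ≤ a ^ 3 / 2)
    (hb0 : 0 ≤ b) (hb : b ≤ 63 / 50 * a) (hy1 : Real.log (a ^ 3 - A * a) ≤ y)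
    (hy2 : y ≤ Real.log (a ^ 3 + 4000 * b)) :
    |PP (a ^ 3) y| ≤ 3 * (A + 5040) * a ^ 4 ∧
      a ^ 2 * (Real.log (a ^ 3 + 4000 * b) - y) ≤ 2 * (A + 5040) := by
  have ha0 : 0 < a := by linarith
  have h3 : 0 < a ^ 3 := by positivity
  have e1 : a ^ 3 - A * a ≤ Real.exp y := (Real.log_le_iff_le_exp (by linarith)).1 hy1
  have e2 : Real.exp y ≤ a ^ 3 + 4000 * b := (Real.le_log_iff_exp_le (by positivity)).1 hy2
  have h4 : 5040 * a ≤ a ^ 3 := by nlinarith [mul_nonneg ha0.le (sq_nonneg (a - 4000))]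
  constructor
  · have h5 : PP (a ^ 3) y = (Real.exp y - a ^ 3) * (Real.exp y + a ^ 3) := by
      unfold PP
      have h6 : Real.exp (2 * y) = Real.exp y ^ 2 := by
        rw [← Real.exp_nat_mul]
        norm_num
      rw [h6]
      ring
    have h6 : |Real.exp y - a ^ 3| ≤ (A + 5040) * a := by
      rw [abs_le]
      constructor <;> nlinarith
    have h7 : |Real.exp y + a ^ 3| ≤ 3 * a ^ 3 := by
      rw [abs_of_pos (by positivity)]
      linarith
    rw [h5, abs_mul]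
    calc |Real.exp y - a ^ 3| * |Real.exp y + a ^ 3| ≤ (A + 5040) * a * (3 * a ^ 3) :=
          mul_le_mul h6 h7 (abs_nonneg _) (by positivity)
      _ = 3 * (A + 5040) * a ^ 4 := by ring
  · obtain ⟨t, ht⟩ : ∃ t, t = Real.log (a ^ 3 + 4000 * b) - y := ⟨_, rfl⟩
    have ht0 : 0 ≤ t := by rw [ht]; linarith
    rw [← ht]
    have h5 : Real.exp t * Real.exp y = a ^ 3 + 4000 * b := by
      rw [← Real.exp_add, ht, sub_add_cancel, Real.exp_log (by positivity)]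
    have h6 := Real.add_one_le_exp t
    have h7 : (t + 1) * Real.exp y ≤ a ^ 3 + 4000 * b := by
      rw [← h5]
      exact mul_le_mul_of_nonneg_right h6 (Real.exp_pos y).le
    have h8 : t * (a ^ 3 / 2) ≤ t * Real.exp y := mul_le_mul_of_nonneg_left (by linarith) ht0
    have h9 : t * (a ^ 3 / 2) ≤ (A + 5040) * a := by nlinarith
    have h10 : a * (a ^ 2 * t) ≤ a * (2 * (A + 5040)) := by nlinarith
    exact le_of_mul_le_mul_left h10 ha0

end DLE_

open DLE_ in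
theorem p_DLE (h1 : T_SEQ) (h2 : T_ENR) (h3 : T_JUP) : T_DLE := by
  obtain ⟨C, hC, h3⟩ := h3
  refine ⟨29 + 3 * C, by positivity, ?_⟩
  intro ν A c k J0 J0' J J' hν hA hAν hk hJ0 hJ x hx
  obtain ⟨a, ha⟩ : ∃ a : ℝ, a = ν ^ (1 / 3 : ℝ) := ⟨_, rfl⟩
  have hν0 : (0 : ℝ) < ν := by linarith [show (0 : ℝ) < 4000 ^ 3 by norm_num]
  have ha0 : 0 < a := by rw [ha]; positivity
  have ha3 : a ^ 3 = ν := by
    rw [ha, ← Real.rpow_natCast, ← Real.rpow_mul hν0.le]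
    norm_num
  have ha4 : 4000 ≤ a := by
    refine (pow_le_pow_iff_left₀ (by norm_num) ha0.le (n := 3) (by norm_num)).1 ?_
    rw [ha3]
    exact hν
  obtain ⟨b, hb⟩ : ∃ b : ℝ, b = (1 + ν) ^ (1 / 3 : ℝ) := ⟨_, rfl⟩
  have hb0 : 0 ≤ b := by rw [hb]; positivity
  have hb3 : b ^ 3 = 1 + ν := by
    rw [hb, ← Real.rpow_natCast, ← Real.rpow_mul (by linarith)]
    norm_num
  have hba : b ≤ 63 / 50 * a := by
    refine (pow_le_pow_iff_left₀ hb0 (by positivity) (n := 3) (by norm_num)).1 ?_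
    rw [hb3, mul_pow, ha3]
    linarith
  have hka : (k : ℝ) ≤ a := by
    refine (pow_le_pow_iff_left₀ (Nat.cast_nonneg k) ha0.le (n := 3) (by norm_num)).1 ?_
    rw [ha3]
    exact hk
  have hk0 : (0 : ℝ) ≤ k := Nat.cast_nonneg k
  have hx0 : x0 ν A = Real.log (a ^ 3 - A * a) := by
    unfold x0
    rw [ha3, ha]
  have hx1 : x1 ν 4000 = Real.log (a ^ 3 + 4000 * b) := by
    unfold x1
    rw [ha3, hb]
  rw [← ha] at hAν
  subst ha3
  rw [rp1 ha0, rp2 ha0]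
  rw [hx0, hx1] at hx
  rw [hx1]
  obtain ⟨s, hs⟩ : ∃ s, s = Real.log (a ^ 3 + 4000 * b) := ⟨_, rfl⟩
  rw [← hs] at hx ⊢
  obtain ⟨e, he⟩ : ∃ e, e = E2 (a ^ 3) (fun x => J x - c * J0 x)
    (fun x => J' x - c * J0' x) s := ⟨_, rfl⟩
  rw [← he]
  have hzone : ∀ y, Real.log (a ^ 3 - A * a) ≤ y → y ≤ s →
      |PP (a ^ 3) y| ≤ 3 * (A + 5040) * a ^ 4 ∧ a ^ 2 * (s - y) ≤ 2 * (A + 5040) := by
    intro y hy1 hy2
    rw [hs] at hy2 ⊢
    exact zone ha4 hA hAν hb0 hba hy1 hy2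
  have hjb : ∀ y, |J y| * a ≤ C + 1 :=
    jbound h1 h2 (by linarith) hC hJ (h3 (a ^ 3 + k) J J' (by linarith) hJ).1
  have hq : 0 ≤ (a ^ 3 + k) ^ 2 - (a ^ 3) ^ 2 := by nlinarith
  have hq2 : (a ^ 3 + k) ^ 2 - (a ^ 3) ^ 2 ≤ 3 * k * a ^ 3 := by
    have h4 : (k : ℝ) ≤ a ^ 3 := by nlinarith
    nlinarith
  -- initial values
  have hes : Real.exp s = a ^ 3 + 4000 * b := by rw [hs, Real.exp_log (by positivity)]
  have hP1 : 10 * a ^ 2 ≤ Real.sqrt (PP (a ^ 3) s) := by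
    refine sqrt_low ?_
    have h4 : xc (a ^ 3) ≤ s := by
      unfold xc
      rw [hs, ← hb]
      exact Real.log_le_log (by positivity) (by linarith)
    have h5 := ((h1 (a ^ 3) hν0.le).1 s h4).1
    have h6 := exp43 ha0 (y := s) (by rw [hes]; linarith)
    linarith
  have hP2 : Real.sqrt (PP (a ^ 3) s) ≤ 123 * a ^ 2 := by
    refine Real.sqrt_le_iff.2 ⟨by positivity, ?_⟩
    have h4 : PP (a ^ 3) s = (4000 * b) * (2 * a ^ 3 + 4000 * b) := by
      unfold PP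
      have h6 : Real.exp (2 * s) = Real.exp s ^ 2 := by
        rw [← Real.exp_nat_mul]
        norm_num
      rw [h6, hes]
      ring
    have h5 : 5040 * a ≤ a ^ 3 := by nlinarith [mul_nonneg ha0.le (sq_nonneg (a - 4000))]
    rw [h4]
    calc (4000 * b) * (2 * a ^ 3 + 4000 * b) ≤ (5040 * a) * (3 * a ^ 3) :=
          mul_le_mul (by linarith) (by linarith) (by positivity) (by positivity)
      _ ≤ (123 * a ^ 2) ^ 2 := by nlinarith [pow_pos ha0 4]
  have hsp : 0 < Real.sqrt (PP (a ^ 3) s) := lt_of_lt_of_le (by positivity) hP1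
  have hE : (J' s - c * J0' s) ^ 2 / Real.sqrt (PP (a ^ 3) s) +
      Real.sqrt (PP (a ^ 3) s) * (J s - c * J0 s) ^ 2 = e := he.symm
  have he0 : 0 ≤ e := by
    rw [← hE]
    positivity
  have hE1 : (J' s - c * J0' s) ^ 2 ≤ 123 * a ^ 2 * e := by
    have h4 : (J' s - c * J0' s) ^ 2 / Real.sqrt (PP (a ^ 3) s) ≤ e := by
      have h5 : 0 ≤ Real.sqrt (PP (a ^ 3) s) * (J s - c * J0 s) ^ 2 := by positivity
      linarith
    rw [div_le_iff₀ hsp] at h4
    have h5 := mul_le_mul_of_nonneg_left hP2 he0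
    linarith
  have hE2 : a ^ 4 * (J s - c * J0 s) ^ 2 ≤ 123 * a ^ 2 * e := by
    have h4 : Real.sqrt (PP (a ^ 3) s) * (J s - c * J0 s) ^ 2 ≤ e := by
      have h5 : 0 ≤ (J' s - c * J0' s) ^ 2 / Real.sqrt (PP (a ^ 3) s) := by positivity
      linarith
    have h5 : 10 * a ^ 2 * (J s - c * J0 s) ^ 2 ≤ e :=
      (mul_le_mul_of_nonneg_right hP1 (sq_nonneg _)).trans h4
    have h6 := mul_le_mul_of_nonneg_left h5 (sq_nonneg a)
    nlinarith [mul_nonneg (sq_nonneg a) he0]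
  obtain ⟨r, hr⟩ : ∃ r, r = Real.sqrt e := ⟨_, rfl⟩
  have hr0 : 0 ≤ r := by rw [hr]; exact Real.sqrt_nonneg e
  have hr2 : r ^ 2 = e := by rw [hr]; exact Real.sq_sqrt he0
  rw [← hr]
  obtain ⟨L, hL⟩ : ∃ L, L = (1 + 3 * (A + 5040)) * a ^ 2 := ⟨_, rfl⟩
  have hLa : a ^ 2 ≤ L := by
    rw [hL]
    nlinarith [sq_nonneg a]
  have hL0 : 0 < L := lt_of_lt_of_le (by positivity) hLa
  obtain ⟨f, hf⟩ : ∃ f : ℝ → ℝ × ℝ, f = fun t =>
    (a ^ 2 * (J (s - t) - c * J0 (s - t)), J' (s - t) - c * J0' (s - t)) := ⟨_, rfl⟩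
  obtain ⟨f', hf'⟩ : ∃ f' : ℝ → ℝ × ℝ, f' = fun t =>
    (a ^ 2 * (-(J' (s - t)) - c * (-(J0' (s - t)))),
      -(-(PP (a ^ 3 + k) (s - t)) * J (s - t)) - c * (-(-(PP (a ^ 3) (s - t)) * J0 (s - t)))) :=
    ⟨_, rfl⟩
  have hder : ∀ t, HasDerivAt f (f' t) t := by
    intro t
    rw [hf, hf']
    have d1 := (hJ.sol.d1 (s - t)).comp_const_sub s t
    have d2 := (hJ.sol.d2 (s - t)).comp_const_sub s t
    have d3 := (hJ0.sol.d1 (s - t)).comp_const_sub s t
    have d4 := (hJ0.sol.d2 (s - t)).comp_const_sub s t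
    exact ((d1.sub (d3.const_mul c)).const_mul (a ^ 2)).prodMk (d2.sub (d4.const_mul c))
  have hf0 : ‖f 0‖ ≤ 12 * a * r := by
    rw [hf, Prod.norm_def]
    simp only [sub_zero, Real.norm_eq_abs]
    refine max_le ?_ ?_
    · refine abs_le_of_sq_le_sq ?_ (by positivity)
      calc (a ^ 2 * (J s - c * J0 s)) ^ 2 = a ^ 4 * (J s - c * J0 s) ^ 2 := by ring
        _ ≤ 123 * a ^ 2 * e := hE2
        _ ≤ (12 * a * r) ^ 2 := by
          rw [mul_pow, mul_pow, hr2]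
          nlinarith [mul_nonneg (sq_nonneg a) he0]
    · refine abs_le_of_sq_le_sq ?_ (by positivity)
      calc (J' s - c * J0' s) ^ 2 ≤ 123 * a ^ 2 * e := hE1
        _ ≤ (12 * a * r) ^ 2 := by
          rw [mul_pow, mul_pow, hr2]
          nlinarith [mul_nonneg (sq_nonneg a) he0]
  obtain ⟨b', hb'⟩ : ∃ b', b' = s - Real.log (a ^ 3 - A * a) := ⟨_, rfl⟩
  have hbound : ∀ t ∈ Ico 0 b', ‖f' t‖ ≤ L * ‖f t‖ + 3 * (C + 1) * k * a ^ 2 := by
    intro t ht
    have hy1 : Real.log (a ^ 3 - A * a) ≤ s - t := by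
      have := ht.2
      rw [hb'] at this
      linarith
    have hy2 : s - t ≤ s := by linarith [ht.1]
    obtain ⟨y, hy⟩ : ∃ y, y = s - t := ⟨_, rfl⟩
    rw [← hy] at hy1 hy2
    have hz := (hzone y hy1 hy2).1
    have hj := hjb y
    have n1 : |a ^ 2 * (J y - c * J0 y)| ≤ ‖f t‖ := by
      rw [hf, hy]
      exact le_max_left _ _
    have n2 : |J' y - c * J0' y| ≤ ‖f t‖ := by
      rw [hf, hy]
      exact le_max_right _ _
    have n0 : 0 ≤ ‖f t‖ := norm_nonneg _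
    have n3 : a ^ 2 * |J y - c * J0 y| ≤ ‖f t‖ := by
      rw [abs_mul, abs_of_nonneg (sq_nonneg a)] at n1
      exact n1
    have hη : 0 ≤ 3 * (C + 1) * k * a ^ 2 := by positivity
    rw [hf', Prod.norm_def]
    simp only [Real.norm_eq_abs, ← hy]
    refine max_le ?_ ?_
    · have h4 : a ^ 2 * (-(J' y) - c * (-(J0' y))) = -(a ^ 2 * (J' y - c * J0' y)) := by ring
      rw [h4, abs_neg, abs_mul, abs_of_nonneg (sq_nonneg a)]
      calc a ^ 2 * |J' y - c * J0' y| ≤ L * ‖f t‖ :=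
            mul_le_mul hLa n2 (abs_nonneg _) hL0.le
        _ ≤ _ := by linarith
    · have h4 : -(-(PP (a ^ 3 + k) y) * J y) - c * (-(-(PP (a ^ 3) y) * J0 y)) =
          PP (a ^ 3) y * (J y - c * J0 y) - ((a ^ 3 + k) ^ 2 - (a ^ 3) ^ 2) * J y := by
        unfold PP
        ring
      rw [h4]
      refine (abs_sub _ _).trans ?_
      rw [abs_mul, abs_mul, abs_of_nonneg hq]
      have h5 : |PP (a ^ 3) y| * |J y - c * J0 y| ≤ L * ‖f t‖ := by
        calc |PP (a ^ 3) y| * |J y - c * J0 y| ≤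
              3 * (A + 5040) * a ^ 4 * |J y - c * J0 y| :=
              mul_le_mul_of_nonneg_right hz (abs_nonneg _)
          _ = 3 * (A + 5040) * a ^ 2 * (a ^ 2 * |J y - c * J0 y|) := by ring
          _ ≤ 3 * (A + 5040) * a ^ 2 * ‖f t‖ :=
              mul_le_mul_of_nonneg_left n3 (by positivity)
          _ ≤ L * ‖f t‖ := by
              refine mul_le_mul_of_nonneg_right ?_ n0
              rw [hL]
              nlinarith [sq_nonneg a]
      have h6 : ((a ^ 3 + k) ^ 2 - (a ^ 3) ^ 2) * |J y| ≤ 3 * (C + 1) * k * a ^ 2 := by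
        calc ((a ^ 3 + k) ^ 2 - (a ^ 3) ^ 2) * |J y| ≤ 3 * k * a ^ 3 * |J y| :=
              mul_le_mul_of_nonneg_right hq2 (abs_nonneg _)
          _ = 3 * k * a ^ 2 * (|J y| * a) := by ring
          _ ≤ 3 * k * a ^ 2 * (C + 1) := mul_le_mul_of_nonneg_left hj (by positivity)
          _ = _ := by ring
      linarith
  have hxs : x ≤ s := hx.2
  have hT : s - x ∈ Icc 0 b' := by
    rw [hb']
    exact ⟨by linarith, by linarith [hx.1]⟩
  have hgr := norm_le_gronwallBound_of_norm_deriv_right_le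
    (fun t _ => (hder t).continuousAt.continuousWithinAt)
    (fun t _ => (hder t).hasDerivWithinAt) hf0 hbound (s - x) hT
  rw [gronwallBound_of_K_ne_0 hL0.ne', sub_zero] at hgr
  have hLT : L * (s - x) ≤ 11 * (4000 + A) ^ 2 := by
    have h4 := (hzone x hx.1 hx.2).2
    calc L * (s - x) = (1 + 3 * (A + 5040)) * (a ^ 2 * (s - x)) := by rw [hL]; ring
      _ ≤ (1 + 3 * (A + 5040)) * (2 * (A + 5040)) := mul_le_mul_of_nonneg_left h4 (by positivity)
      _ ≤ 11 * (4000 + A) ^ 2 := by nlinarith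
  have hexp := Real.exp_le_exp.2 hLT
  have hfx : a ^ 2 * |J x - c * J0 x| ≤ ‖f (s - x)‖ := by
    rw [hf, Prod.norm_def]
    simp only [sub_sub_cancel]
    refine le_trans (le_of_eq ?_) (le_max_left _ _)
    rw [Real.norm_eq_abs, abs_mul, abs_of_nonneg (sq_nonneg a)]
  have hηL : 3 * (C + 1) * k * a ^ 2 / L ≤ 3 * (C + 1) * k := by
    rw [div_le_iff₀ hL0]
    exact mul_le_mul_of_nonneg_left hLa (by positivity)
  have hηL0 : 0 ≤ 3 * (C + 1) * k * a ^ 2 / L := by positivity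
  have hfin : a ^ 2 * |J x - c * J0 x| ≤
      Real.exp (11 * (4000 + A) ^ 2) * (12 * a * r + 3 * (C + 1) * k) := by
    refine hfx.trans (hgr.trans ?_)
    have h4 : 0 < Real.exp (L * (s - x)) := Real.exp_pos _
    calc 12 * a * r * Real.exp (L * (s - x)) +
          3 * (C + 1) * k * a ^ 2 / L * (Real.exp (L * (s - x)) - 1) ≤
          12 * a * r * Real.exp (L * (s - x)) +
          3 * (C + 1) * k * a ^ 2 / L * Real.exp (L * (s - x)) := by nlinarith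
      _ = Real.exp (L * (s - x)) * (12 * a * r + 3 * (C + 1) * k * a ^ 2 / L) := by ring
      _ ≤ Real.exp (11 * (4000 + A) ^ 2) * (12 * a * r + 3 * (C + 1) * k) :=
          mul_le_mul hexp (by linarith) (by positivity) (Real.exp_pos _).le
  have hcon : 15 + 3 * C ≤ Real.exp ((18 + 3 * C) * (4000 + A) ^ 2) := by
    have h4 := Real.add_one_le_exp ((18 + 3 * C) * (4000 + A) ^ 2)
    have h5 : 18 + 3 * C ≤ (18 + 3 * C) * (4000 + A) ^ 2 := by
      have h6 : (1 : ℝ) ≤ (4000 + A) ^ 2 := by nlinarith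
      nlinarith
    linarith
  have hlast : |J x - c * J0 x| = (a ^ 2)⁻¹ * (a ^ 2 * |J x - c * J0 x|) := by
    field_simp
  rw [hlast]
  calc (a ^ 2)⁻¹ * (a ^ 2 * |J x - c * J0 x|) ≤
        (a ^ 2)⁻¹ * (Real.exp (11 * (4000 + A) ^ 2) * (12 * a * r + 3 * (C + 1) * k)) :=
        mul_le_mul_of_nonneg_left hfin (by positivity)
    _ ≤ (a ^ 2)⁻¹ * (Real.exp (11 * (4000 + A) ^ 2) * ((15 + 3 * C) * (a * r + k))) := by
        refine mul_le_mul_of_nonneg_left (mul_le_mul_of_nonneg_left ?_ (Real.exp_pos _).le)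
          (by positivity)
        have h4 : 0 ≤ a * r := by positivity
        nlinarith
    _ ≤ (a ^ 2)⁻¹ * (Real.exp (11 * (4000 + A) ^ 2) *
          (Real.exp ((18 + 3 * C) * (4000 + A) ^ 2) * (a * r + k))) := by
        refine mul_le_mul_of_nonneg_left (mul_le_mul_of_nonneg_left
          (mul_le_mul_of_nonneg_right hcon (by positivity)) (Real.exp_pos _).le) (by positivity)
    _ = Real.exp ((29 + 3 * C) * (4000 + A) ^ 2) * (a⁻¹ * r + k * (a ^ 2)⁻¹) := by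
        rw [← mul_assoc (Real.exp (11 * (4000 + A) ^ 2)), ← Real.exp_add]
        have h4 : 11 * (4000 + A) ^ 2 + (18 + 3 * C) * (4000 + A) ^ 2 =
            (29 + 3 * C) * (4000 + A) ^ 2 := by ring
        rw [h4]
        field_simp

end Pool.Agent.CRW
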