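import Pool.Agent.CRW.Targets2

set_option autoImplicit false

/-!
# CRW: propagation to the right (target DRI)
-/

namespace Pool.Agent.CRW

open MeasureTheory FourierTransform Set Filter Topology
open scoped ENNReal NNReal ComplexConjugate
open Pool.Agent.CRR (PP Sol xc E2 NSol kap aa de la si ww band fh StripD FS FA HH T_SEQ T_INF T_QID
  T_FOR T_ENR T_NRM T_HANK)

namespace DRI_

/-- cube roots -/
lemma cube {x : ℝ} (hx : 0 ≤ x) : 0 ≤ x ^ (1 / 3 : ℝ) ∧ (x ^ (1 / 3 : ℝ)) ^ 3 = x := by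
  refine ⟨Real.rpow_nonneg hx _, ?_⟩
  rw [← Real.rpow_natCast, ← Real.rpow_mul hx]
  norm_num

lemma le_of_cube {a b : ℝ} (hb : 0 ≤ b) (h : a ^ 3 ≤ b ^ 3) : a ≤ b := by
  by_contra hc
  push Not at hc
  have := pow_lt_pow_left₀ hc hb (n := 3) (by norm_num)
  linarith

/-- the exponentials of the end points -/
lemma exp_x1 {ν Z : ℝ} (hν : 1 ≤ ν) (hZ : 0 ≤ Z) :
    Real.exp (x1 ν Z) = ν + Z * (1 + ν) ^ (1 / 3 : ℝ) := by
  unfold x1
  rw [Real.exp_log]
  have := (cube (show (0 : ℝ) ≤ 1 + ν by linarith)).1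
  nlinarith

/-- all the facts about the zone -/
lemma zone {ν Z : ℝ} {k : ℕ} (hν : 1 ≤ ν) (hZ : 4000 ≤ Z) (hZν : Z ^ 3 ≤ ν)
    (hk : (k : ℝ) ^ 3 ≤ ν) {s : ℝ} (hs : s = ν ^ (1 / 3 : ℝ)) {x : ℝ}
    (hx : x ∈ Icc (x1 ν 4000) (x1 ν Z)) :
    1 ≤ s ∧ s ^ 3 = ν ∧ (k : ℝ) ≤ s ∧ Z ≤ s ∧ 8000 * s ^ 4 ≤ PP ν x ∧ PP ν x ≤ 9 * Z * s ^ 4 ∧
      x - x1 ν 4000 ≤ 2 * Z / s ^ 2 ∧ xc (ν + k) ≤ x ∧ 3600 * s ^ 4 ≤ PP (ν + k) x := by
  obtain ⟨hs0, hs3⟩ := cube (show (0 : ℝ) ≤ ν by linarith)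
  rw [← hs] at hs0 hs3
  obtain ⟨hT0, hT3⟩ := cube (show (0 : ℝ) ≤ 1 + ν by linarith)
  set T : ℝ := (1 + ν) ^ (1 / 3 : ℝ) with hT
  have hs1 : 1 ≤ s := le_of_cube hs0 (by rw [hs3]; simpa using hν)
  have hks : (k : ℝ) ≤ s := le_of_cube hs0 (by rw [hs3]; exact hk)
  have hZs : Z ≤ s := le_of_cube hs0 (by rw [hs3]; exact hZν)
  have hsT : s ≤ T := le_of_cube hT0 (by rw [hs3, hT3]; linarith)
  have hTs : T ≤ 13 / 10 * s := by
    refine le_of_cube (by positivity) ?_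
    rw [hT3, mul_pow, hs3]
    linarith
  have e1 : Real.exp (x1 ν 4000) = ν + 4000 * T := exp_x1 hν (by norm_num)
  have e2 : Real.exp (x1 ν Z) = ν + Z * T := exp_x1 hν (by linarith)
  have l1 : ν + 4000 * T ≤ Real.exp x := by
    rw [← e1]
    exact Real.exp_le_exp.2 hx.1
  have l2 : Real.exp x ≤ ν + Z * T := by
    rw [← e2]
    exact Real.exp_le_exp.2 hx.2
  have hk0 : (0 : ℝ) ≤ k := Nat.cast_nonneg k
  have hP : ∀ μ, PP μ x = Real.exp x ^ 2 - μ ^ 2 := by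
    intro μ
    unfold PP
    rw [two_mul, Real.exp_add]
    ring
  have hs4 : s ^ 4 = s * ν := by rw [← hs3]; ring
  have hlo : 8000 * s ^ 4 ≤ PP ν x := by
    rw [hP, hs4]
    have h1 : (ν + 4000 * T) ^ 2 ≤ Real.exp x ^ 2 := pow_le_pow_left₀ (by positivity) l1 2
    have h2 : s * ν ≤ T * ν := by gcongr
    nlinarith [sq_nonneg T]
  refine ⟨hs1, hs3, hks, hZs, hlo, ?_, ?_, ?_, ?_⟩
  · rw [hP, hs4]
    have h1 : Real.exp x ^ 2 ≤ (ν + Z * T) ^ 2 :=
      pow_le_pow_left₀ (Real.exp_pos x).le l2 2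
    have h2 : Z * T ≤ Z * (13 / 10 * s) := by gcongr
    have h3 : Z * T ≤ 13 / 10 * ν := by
      calc Z * T ≤ s * (13 / 10 * s) := mul_le_mul hZs hTs hT0 hs0
        _ = 13 / 10 * s ^ 2 := by ring
        _ ≤ 13 / 10 * s ^ 3 := by
            have := pow_le_pow_right₀ hs1 (show 2 ≤ 3 by norm_num)
            linarith
        _ = 13 / 10 * ν := by rw [hs3]
    have h4 : 0 ≤ Z * T := by positivity
    calc Real.exp x ^ 2 - ν ^ 2 ≤ (ν + Z * T) ^ 2 - ν ^ 2 := by linarith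
      _ = Z * T * (2 * ν + Z * T) := by ring
      _ ≤ Z * (13 / 10 * s) * (2 * ν + 13 / 10 * ν) := by gcongr
      _ ≤ 9 * Z * (s * ν) := by
          have : 0 ≤ Z * (s * ν) := by positivity
          nlinarith
  · have h1 := Real.add_one_le_exp (x - x1 ν 4000)
    have h2 : Real.exp (x - x1 ν 4000) ≤ 1 + Z * T / ν := by
      rw [Real.exp_sub, div_le_iff₀ (Real.exp_pos _), e1]
      have h3 : (1 + Z * T / ν) * ν = ν + Z * T := by field_simp
      have h4 : (1 + Z * T / ν) * ν ≤ (1 + Z * T / ν) * (ν + 4000 * T) := by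
        gcongr
        linarith
      linarith
    have h5 : Z * T / ν ≤ 2 * Z / s ^ 2 := by
      rw [div_le_div_iff₀ (by linarith) (by positivity), ← hs3]
      have h6 : Z * T * s ^ 2 ≤ Z * (13 / 10 * s) * s ^ 2 := by gcongr
      have h7 : 0 ≤ Z * s ^ 3 := by positivity
      nlinarith
    linarith
  · unfold xc
    have h3 : (ν + k) + 3000 * (1 + (ν + k)) ^ (1 / 3 : ℝ) ≤ Real.exp x := by
      refine le_trans ?_ l1
      obtain ⟨hT'0, hT'3⟩ := cube (show (0 : ℝ) ≤ 1 + (ν + k) by positivity)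
      have h4 : (1 + (ν + (k : ℝ))) ^ (1 / 3 : ℝ) ≤ 13 / 10 * T := by
        refine le_of_cube (by positivity) ?_
        rw [hT'3, mul_pow, hT3]
        have : s ≤ ν := by
          rw [← hs3]
          exact le_self_pow₀ hs1 (by norm_num)
        linarith
      linarith
    have h5 : 0 < (ν + k) + 3000 * (1 + (ν + k)) ^ (1 / 3 : ℝ) := by
      have := (cube (show (0 : ℝ) ≤ 1 + (ν + k) by positivity)).1
      positivity
    rw [Real.log_le_iff_le_exp h5]
    exact h3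
  · have h1 : PP (ν + k) x = PP ν x - (2 * ν * k + k ^ 2) := by
      rw [hP, hP]
      ring
    rw [h1]
    have h2 : 2 * ν * (k : ℝ) ≤ 2 * ν * s := by gcongr
    have h3 : (k : ℝ) ^ 2 ≤ s ^ 2 := pow_le_pow_left₀ hk0 hks 2
    have h4 : s ^ 2 ≤ s ^ 4 := pow_le_pow_right₀ hs1 (by norm_num)
    nlinarith

/-- propagation for a fixed regularisation -/
lemma prop {ν Z c : ℝ} {k : ℕ} {J0 J0' J J' : ℝ → ℝ} (h2 : T_ENR) (hν : 1 ≤ ν) (hZ : 4000 ≤ Z)
    (hZν : Z ^ 3 ≤ ν) (hk : (k : ℝ) ^ 3 ≤ ν) (hJ0 : NSol ν J0 J0') (hJ : NSol (ν + k) J J')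
    {x : ℝ} (hx : x ∈ Icc (x1 ν 4000) (x1 ν Z)) {ε : ℝ} (hε : 0 < ε) :
    Real.sqrt ((J x - c * J0 x) ^ 2 + (J' x - c * J0' x) ^ 2 / PP ν x + ε) ≤
      Real.sqrt ((J (x1 ν 4000) - c * J0 (x1 ν 4000)) ^ 2 +
        (J' (x1 ν 4000) - c * J0' (x1 ν 4000)) ^ 2 / PP ν (x1 ν 4000) + ε) +
        k / 100 * (x - x1 ν 4000) := by
  set s : ℝ := ν ^ (1 / 3 : ℝ) with hs
  set a : ℝ := x1 ν 4000 with ha
  set b : ℝ := x1 ν Z with hb
  let D : ℝ → ℝ := fun x => J x - c * J0 x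
  let D1 : ℝ → ℝ := fun x => J' x - c * J0' x
  let G : ℝ → ℝ := fun x => D x ^ 2 + D1 x ^ 2 / PP ν x
  have hD : ∀ x, HasDerivAt D (D1 x) x := fun x =>
    (hJ.sol.d1 x).sub ((hJ0.sol.d1 x).const_mul c)
  have hD1 : ∀ x, HasDerivAt D1 (-(PP (ν + k) x) * J x - c * (-(PP ν x) * J0 x)) x := fun x =>
    (hJ.sol.d2 x).sub ((hJ0.sol.d2 x).const_mul c)
  have hPd : ∀ x, HasDerivAt (PP ν) (2 * Real.exp (2 * x)) x := by
    intro x
    have h1 : HasDerivAt (fun x : ℝ => 2 * x) 2 x := by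
      simpa using (hasDerivAt_id x).const_mul (2 : ℝ)
    have h2 := (h1.exp).sub_const (ν ^ 2)
    refine h2.congr_deriv ?_
    ring
  have hP0 : ∀ x ∈ Icc a b, 0 < PP ν x := by
    intro x hx
    obtain ⟨h1, -, -, -, h5, -⟩ := zone hν hZ hZν hk hs hx
    have : 0 < s ^ 4 := by positivity
    linarith
  have hG : ∀ x ∈ Icc a b, HasDerivAt G
      (2 * D x * D1 x + ((2 * D1 x * (-(PP (ν + k) x) * J x - c * (-(PP ν x) * J0 x))) * PP ν x -
        D1 x ^ 2 * (2 * Real.exp (2 * x))) / PP ν x ^ 2) x := by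
    intro x hx
    have h1 := ((hD x).pow 2).add (((hD1 x).pow 2).div (hPd x) (hP0 x hx).ne')
    refine h1.congr_deriv ?_
    simp only [Nat.cast_ofNat, Nat.add_one_sub_one, pow_one, Pi.pow_apply]
  have hG0 : ∀ x ∈ Icc a b, 0 ≤ G x := fun x hx => by
    have := hP0 x hx
    positivity
  let F : ℝ → ℝ := fun x => Real.sqrt (G x + ε) - k / 100 * x
  have hF : ∀ x ∈ Icc a b, ∃ F', HasDerivAt F F' x ∧ F' ≤ 0 := by
    intro x hx
    obtain ⟨z1, z2, z3, z4, z5, z6, z7, z8, z9⟩ := zone hν hZ hZν hk hs hx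
    have hGx := hG0 x hx
    have hPx := hP0 x hx
    have h1 := ((hG x hx).add_const ε).sqrt (by positivity : G x + ε ≠ 0)
    have h3 : HasDerivAt (fun x : ℝ => (k : ℝ) / 100 * x) (k / 100) x := by
      simpa using (hasDerivAt_id x).const_mul ((k : ℝ) / 100)
    refine ⟨_, h1.sub h3, ?_⟩
    have hsq : 0 < Real.sqrt (G x + ε) := Real.sqrt_pos.2 (by positivity)
    rw [sub_nonpos, div_le_iff₀ (by positivity)]
    -- the derivative of `G`
    have hs0 : 0 < s := by linarith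
    have hk0 : (0 : ℝ) ≤ k := Nat.cast_nonneg k
    set q : ℝ := 2 * ν * k + k ^ 2 with hq
    have hq0 : 0 ≤ q := by positivity
    have e1 : PP (ν + k) x = PP ν x - q := by
      unfold PP
      rw [hq]
      ring
    have e2 : 2 * D x * D1 x + ((2 * D1 x * (-(PP (ν + k) x) * J x - c * (-(PP ν x) * J0 x))) *
        PP ν x - D1 x ^ 2 * (2 * Real.exp (2 * x))) / PP ν x ^ 2 =
        2 * q * J x * D1 x / PP ν x - D1 x ^ 2 * (2 * Real.exp (2 * x)) / PP ν x ^ 2 := by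
      rw [e1]
      have : D x = J x - c * J0 x := rfl
      rw [this]
      field_simp
      ring
    rw [e2]
    have e3 : 0 ≤ D1 x ^ 2 * (2 * Real.exp (2 * x)) / PP ν x ^ 2 := by positivity
    -- `|J| ≤ 1/(5 s)`
    have hJx : |J x| ≤ 1 / (5 * s) := by
      have h4 := h2 (ν + k) J J' x (xc (ν + k)) (by positivity) hJ.sol z8 le_rfl
      rw [hJ.nrm] at h4
      unfold E2 at h4
      have h5 : 60 * s ^ 2 ≤ Real.sqrt (PP (ν + k) x) := by
        refine Real.le_sqrt_of_sq_le ?_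
        refine le_trans (le_of_eq ?_) z9
        ring
      have h6 : 0 ≤ J' x ^ 2 / Real.sqrt (PP (ν + k) x) := by positivity
      have h7 : 60 * s ^ 2 * J x ^ 2 ≤ 2 := by
        have : 60 * s ^ 2 * J x ^ 2 ≤ Real.sqrt (PP (ν + k) x) * J x ^ 2 := by gcongr
        linarith
      refine abs_le_of_sq_le_sq ?_ (by positivity)
      rw [div_pow, one_pow, le_div_iff₀ (by positivity)]
      nlinarith
    -- `√P`
    have hrP : 80 * s ^ 2 ≤ Real.sqrt (PP ν x) := by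
      refine Real.le_sqrt_of_sq_le ?_
      have : (80 * s ^ 2) ^ 2 = 6400 * s ^ 4 := by ring
      rw [this]
      have : 0 ≤ s ^ 4 := by positivity
      linarith
    have hrP0 : 0 < Real.sqrt (PP ν x) := Real.sqrt_pos.2 hPx
    have hPs : PP ν x = Real.sqrt (PP ν x) * Real.sqrt (PP ν x) := (Real.mul_self_sqrt hPx.le).symm
    have hD1x : |D1 x| / Real.sqrt (PP ν x) ≤ Real.sqrt (G x + ε) := by
      refine Real.le_sqrt_of_sq_le ?_
      rw [div_pow, sq_abs, Real.sq_sqrt hPx.le]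
      have : G x = D x ^ 2 + D1 x ^ 2 / PP ν x := rfl
      rw [this]
      nlinarith [sq_nonneg (D x)]
    have hq3 : q ≤ 3 * k * s ^ 3 := by
      rw [hq, ← z2]
      have h5 : (k : ℝ) ^ 2 ≤ k * s ^ 3 := by
        rw [sq]
        refine mul_le_mul_of_nonneg_left ?_ hk0
        exact z3.trans (le_self_pow₀ z1 (by norm_num))
      linarith
    have hc : q * |J x| / Real.sqrt (PP ν x) ≤ k / 100 := by
      calc q * |J x| / Real.sqrt (PP ν x) ≤ (3 * k * s ^ 3) * (1 / (5 * s)) / (80 * s ^ 2) := by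
            gcongr
        _ = 3 / 400 * k := by
            field_simp
            ring
        _ ≤ k / 100 := by linarith
    have h8 : 2 * q * J x * D1 x / PP ν x ≤
        2 * (q * |J x| / Real.sqrt (PP ν x)) * (|D1 x| / Real.sqrt (PP ν x)) := by
      have h9 : 2 * (q * |J x| / Real.sqrt (PP ν x)) * (|D1 x| / Real.sqrt (PP ν x)) =
          2 * q * (|J x| * |D1 x|) / PP ν x := by
        have h10 : 2 * (q * |J x| / Real.sqrt (PP ν x)) * (|D1 x| / Real.sqrt (PP ν x)) =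
            2 * q * (|J x| * |D1 x|) / (Real.sqrt (PP ν x) * Real.sqrt (PP ν x)) := by
          field_simp
        rw [h10, ← hPs]
      rw [h9, ← abs_mul, mul_assoc (2 * q)]
      gcongr
      exact le_abs_self _
    calc 2 * q * J x * D1 x / PP ν x - D1 x ^ 2 * (2 * Real.exp (2 * x)) / PP ν x ^ 2
        ≤ 2 * (q * |J x| / Real.sqrt (PP ν x)) * (|D1 x| / Real.sqrt (PP ν x)) := by linarith
      _ ≤ 2 * (k / 100) * Real.sqrt (G x + ε) := by gcongr
      _ = k / 100 * (2 * Real.sqrt (G x + ε)) := by ring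
  have hanti : AntitoneOn F (Icc a b) := by
    refine antitoneOn_of_deriv_nonpos (convex_Icc a b) ?_ ?_ ?_
    · intro y hy
      obtain ⟨F', h1, -⟩ := hF y hy
      exact h1.continuousAt.continuousWithinAt
    · intro y hy
      obtain ⟨F', h1, -⟩ := hF y (interior_subset hy)
      exact h1.differentiableAt.differentiableWithinAt
    · intro y hy
      obtain ⟨F', h1, h2⟩ := hF y (interior_subset hy)
      rw [h1.deriv]
      exact h2
  have h := hanti (left_mem_Icc.2 (hx.1.trans hx.2)) hx hx.1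
  have h' : Real.sqrt (G x + ε) - k / 100 * x ≤ Real.sqrt (G a + ε) - k / 100 * a := h
  show Real.sqrt (G x + ε) ≤ Real.sqrt (G a + ε) + k / 100 * (x - a)
  linarith

end DRI_

open DRI_ in
/-- **DRI** -/
theorem p_DRI (_h1 : T_SEQ) (h2 : T_ENR) : T_DRI := by
  refine ⟨1, one_pos, fun ν Z c k J0 J0' J J' hν hZ hZν hk hJ0 hJ x hx => ?_⟩
  have ha : x1 ν 4000 ∈ Icc (x1 ν 4000) (x1 ν Z) := left_mem_Icc.2 (hx.1.trans hx.2)
  obtain ⟨z1, z2, z3, z4, z5, z6, z7, z8, z9⟩ := zone hν hZ hZν hk rfl hx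
  obtain ⟨-, -, -, -, y5, -, -, -, -⟩ := zone hν hZ hZν hk rfl ha
  set s : ℝ := ν ^ (1 / 3 : ℝ) with hs
  set a : ℝ := x1 ν 4000 with hadef
  have hs0 : 0 < s := by linarith
  have hk0 : (0 : ℝ) ≤ k := Nat.cast_nonneg k
  have hs4 : 0 < s ^ 4 := by positivity
  have hPx : 0 < PP ν x := by linarith
  have hPa : 0 < PP ν a := by linarith
  let G : ℝ → ℝ := fun x => (J x - c * J0 x) ^ 2 + (J' x - c * J0' x) ^ 2 / PP ν x
  have hGx : 0 ≤ G x := by positivity
  have hGa : 0 ≤ G a := by positivity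
  have hE : ∀ y, 0 < PP ν y →
      E2 ν (fun x => J x - c * J0 x) (fun x => J' x - c * J0' x) y = Real.sqrt (PP ν y) * G y := by
    intro y hy
    unfold E2
    have h1 : 0 < Real.sqrt (PP ν y) := Real.sqrt_pos.2 hy
    have h2 : G y = (J y - c * J0 y) ^ 2 + (J' y - c * J0' y) ^ 2 / PP ν y := rfl
    rw [h2, mul_add, add_comm]
    congr 1
    have h3 : PP ν y = Real.sqrt (PP ν y) * Real.sqrt (PP ν y) := (Real.mul_self_sqrt hy.le).symm
    rw [← mul_div_assoc, div_eq_div_iff h1.ne' hy.ne']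
    nth_rewrite 1 [h3]
    ring
  -- the estimate for `√G`
  have hG : Real.sqrt (G x) ≤ Real.sqrt (G a) + k / 100 * (x - a) := by
    refine le_of_forall_pos_le_add fun δ hδ => ?_
    have h3 := prop (c := c) h2 hν hZ hZν hk hJ0 hJ hx (show 0 < δ ^ 2 by positivity)
    have h4 : Real.sqrt (G x) ≤ Real.sqrt (G x + δ ^ 2) := Real.sqrt_le_sqrt (by
      have := sq_nonneg δ
      linarith)
    have h5 : Real.sqrt (G a + δ ^ 2) ≤ Real.sqrt (G a) + δ := by
      rw [Real.sqrt_le_left (by positivity), add_sq, Real.sq_sqrt hGa]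
      have : 0 ≤ 2 * Real.sqrt (G a) * δ := by positivity
      linarith
    have h6 : Real.sqrt (G x + δ ^ 2) ≤ Real.sqrt (G a + δ ^ 2) + k / 100 * (x - a) := h3
    linarith
  set R : ℝ := Z ^ (1 / 4 : ℝ) with hR
  have hZ0 : 0 ≤ Z := by linarith
  have hR0 : 0 ≤ R := Real.rpow_nonneg hZ0 _
  have hR4 : R ^ 4 = Z := by
    rw [hR, ← Real.rpow_natCast, ← Real.rpow_mul hZ0]
    norm_num
  rw [hE x hPx, hE a hPa, Real.sqrt_mul (Real.sqrt_nonneg _), Real.sqrt_mul (Real.sqrt_nonneg _)]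
  have hA : Real.sqrt (Real.sqrt (PP ν x)) ≤ 2 * R * s := by
    rw [Real.sqrt_le_left (by positivity)]
    rw [Real.sqrt_le_left (by positivity)]
    refine z6.trans ?_
    rw [← hR4]
    have : ((2 * R * s) ^ 2) ^ 2 = 16 * (R ^ 4 * s ^ 4) := by ring
    rw [this]
    have : 0 ≤ R ^ 4 * s ^ 4 := by positivity
    linarith
  have hB : 8 * s ≤ Real.sqrt (Real.sqrt (PP ν a)) := by
    refine Real.le_sqrt_of_sq_le (Real.le_sqrt_of_sq_le ?_)
    have : ((8 * s) ^ 2) ^ 2 = 4096 * s ^ 4 := by ring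
    rw [this]
    linarith
  have hν3 : ν ^ (-(1 / 3) : ℝ) = 1 / s := by
    rw [Real.rpow_neg (by linarith), ← hs, one_div]
  rw [hν3]
  have hGa' : Real.sqrt (G a) ≤ Real.sqrt (Real.sqrt (PP ν a)) * Real.sqrt (G a) / (8 * s) := by
    rw [le_div_iff₀ (by positivity), mul_comm]
    gcongr
  calc Real.sqrt (Real.sqrt (PP ν x)) * Real.sqrt (G x)
      ≤ 2 * R * s * (Real.sqrt (Real.sqrt (PP ν a)) * Real.sqrt (G a) / (8 * s) +
        k / 100 * (2 * Z / s ^ 2)) := by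
        gcongr
        refine hG.trans ?_
        gcongr
    _ = R * (Real.sqrt (Real.sqrt (PP ν a)) * Real.sqrt (G a) / 4 + k * Z * (1 / s) / 25) := by
        field_simp
        ring
    _ ≤ 1 * R * (Real.sqrt (Real.sqrt (PP ν a)) * Real.sqrt (G a) + k * Z * (1 / s)) := by
        rw [one_mul]
        have h1 : 0 ≤ Real.sqrt (Real.sqrt (PP ν a)) * Real.sqrt (G a) := by positivity
        have h2 : 0 ≤ k * Z * (1 / s) := by positivity
        gcongr
        · linarith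
        · linarith

end Pool.Agent.CRW
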