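import Pool.Agent.CRW.Targets2

set_option autoImplicit false

namespace Pool.Agent.CRW

open MeasureTheory FourierTransform Set Filter Topology
open scoped ENNReal NNReal ComplexConjugate
open Pool.Agent.MBS (E ex S Sstar)
open Pool.Agent.CAR (e1)
open Pool.Agent.CRN (ci SH S1 Nice T_CARLS)
open Pool.Agent.CRR (PP Sol xc E2 NSol kap aa de la si ww band fh StripD FS FA HH T_SEQ T_INF T_QID T_FOR T_ENR T_NRM T_HANK)

namespace DXS_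

/-- `k ≤ ν^(1/3)` -/
theorem k_le {ν : ℝ} {k : ℕ} (hν : 1 ≤ ν) (hk : (k : ℝ) ^ 3 ≤ ν) :
    (k : ℝ) ≤ ν ^ (1 / 3 : ℝ) := by
  have h0 : (0 : ℝ) ≤ k := Nat.cast_nonneg k
  have h1 : ((k : ℝ) ^ 3) ^ (1 / 3 : ℝ) ≤ ν ^ (1 / 3 : ℝ) :=
    Real.rpow_le_rpow (by positivity) hk (by norm_num)
  rwa [← Real.rpow_natCast, ← Real.rpow_mul h0, show ((3 : ℕ) : ℝ) * (1 / 3) = 1 by norm_num,
    Real.rpow_one] at h1

theorem k_le_self {ν : ℝ} {k : ℕ} (hν : 1 ≤ ν) (hk : (k : ℝ) ^ 3 ≤ ν) : (k : ℝ) ≤ ν := by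
  rcases Nat.eq_zero_or_pos k with h | h
  · subst h; simp; linarith
  · have h1 : (1 : ℝ) ≤ k := by exact_mod_cast h
    have : (k : ℝ) ≤ (k : ℝ) ^ 3 := by nlinarith [mul_nonneg (sub_nonneg.2 h1) (sub_nonneg.2 h1)]
    linarith

theorem xc_le {ν : ℝ} {k : ℕ} (hν : 1 ≤ ν) (hk : (k : ℝ) ^ 3 ≤ ν) :
    xc (ν + k) ≤ x1 ν 4000 := by
  have h0 : (0 : ℝ) ≤ k := Nat.cast_nonneg k
  have hk1 := k_le hν hk
  have hk2 := k_le_self hν hk
  unfold xc x1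
  have hpos : 0 < ν + k + 3000 * (1 + (ν + k)) ^ (1 / 3 : ℝ) := by positivity
  apply Real.log_le_log hpos
  have h1 : (1 + (ν + k)) ^ (1 / 3 : ℝ) ≤ 1.3 * (1 + ν) ^ (1 / 3 : ℝ) := by
    have h2 : (1 + (ν + k)) ≤ (1.3 : ℝ) ^ 3 * (1 + ν) := by nlinarith
    calc (1 + (ν + k)) ^ (1 / 3 : ℝ) ≤ ((1.3 : ℝ) ^ 3 * (1 + ν)) ^ (1 / 3 : ℝ) :=
          Real.rpow_le_rpow (by positivity) h2 (by norm_num)
      _ = ((1.3 : ℝ) ^ 3) ^ (1 / 3 : ℝ) * (1 + ν) ^ (1 / 3 : ℝ) :=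
          Real.mul_rpow (by norm_num) (by linarith)
      _ = 1.3 * (1 + ν) ^ (1 / 3 : ℝ) := by
          congr 1
          rw [← Real.rpow_natCast, ← Real.rpow_mul (by norm_num)]
          norm_num
  have h3 : ν ^ (1 / 3 : ℝ) ≤ (1 + ν) ^ (1 / 3 : ℝ) :=
    Real.rpow_le_rpow (by linarith) (by linarith) (by norm_num)
  nlinarith

theorem xc_le' {ν : ℝ} (hν : 1 ≤ ν) : xc ν ≤ x1 ν 4000 := by
  unfold xc x1
  apply Real.log_le_log (by positivity)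
  have : 0 ≤ (1 + ν) ^ (1 / 3 : ℝ) := by positivity
  linarith

theorem ex_ge {ν : ℝ} (hν : 1 ≤ ν) :
    ν ^ (4 / 3 : ℝ) ≤ Real.exp (4 * x1 ν 4000 / 3) := by
  have h1 : Real.log ν ≤ x1 ν 4000 := by
    unfold x1
    apply Real.log_le_log (by linarith)
    have : 0 ≤ (1 + ν) ^ (1 / 3 : ℝ) := by positivity
    linarith
  rw [Real.rpow_def_of_pos (by linarith)]
  apply Real.exp_le_exp.2
  linarith

theorem q_le {ν : ℝ} {k : ℕ} (hν : 1 ≤ ν) (hk : (k : ℝ) ^ 3 ≤ ν) :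
    2 * ν * k + (k : ℝ) ^ 2 ≤ 3 * ν ^ (4 / 3 : ℝ) := by
  have h0 : (0 : ℝ) ≤ k := Nat.cast_nonneg k
  have hk1 := k_le hν hk
  have hk2 := k_le_self hν hk
  have h1 : ν ^ (4 / 3 : ℝ) = ν * ν ^ (1 / 3 : ℝ) := by
    rw [show (4 / 3 : ℝ) = 1 + 1 / 3 by norm_num, Real.rpow_add (by linarith), Real.rpow_one]
  rw [h1]
  have h2 : ν * k ≤ ν * ν ^ (1 / 3 : ℝ) := mul_le_mul_of_nonneg_left hk1 (by linarith)
  have h3 : (k : ℝ) ^ 2 ≤ ν * k := by nlinarith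
  nlinarith

/-- linear algebra -/
theorem lin (s u v x y : ℝ) (hs : 0 < s) (hα : 0 < v ^ 2 / s + s * u ^ 2) :
    (y - ((s * u * x + v * y / s) / (v ^ 2 / s + s * u ^ 2)) * v) ^ 2 / s +
      s * (x - ((s * u * x + v * y / s) / (v ^ 2 / s + s * u ^ 2)) * u) ^ 2 =
      (u * y - v * x) ^ 2 / (v ^ 2 / s + s * u ^ 2) := by
  have e1 : v ^ 2 / s + s * u ^ 2 = (v ^ 2 + s ^ 2 * u ^ 2) / s := by field_simp
  have h2 : 0 < v ^ 2 + s ^ 2 * u ^ 2 := by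
    rw [e1] at hα
    by_contra hc
    exact absurd hα (not_lt.2 (div_nonpos_of_nonpos_of_nonneg (not_lt.1 hc) hs.le))
  have e2 : (s * u * x + v * y / s) / (v ^ 2 / s + s * u ^ 2) =
      (s ^ 2 * u * x + v * y) / (v ^ 2 + s ^ 2 * u ^ 2) := by
    rw [e1]
    field_simp
  rw [e2, e1]
  field_simp
  ring

/-- Cauchy-Schwarz -/
theorem cs (s u v x y : ℝ) (hs : 0 < s) :
    (s * u * x + v * y / s) ^ 2 ≤ (v ^ 2 / s + s * u ^ 2) * (y ^ 2 / s + s * x ^ 2) := by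
  have : (v ^ 2 / s + s * u ^ 2) * (y ^ 2 / s + s * x ^ 2) - (s * u * x + v * y / s) ^ 2 =
      (u * y - v * x) ^ 2 := by
    field_simp
    ring
  nlinarith [sq_nonneg (u * y - v * x)]

end DXS_

open DXS_ in
theorem p_DXS (h1 : T_SEQ) (h2 : T_ENR) (h3 : T_WRO) : T_DXS := by
  obtain ⟨C, hC, hW⟩ := h3
  refine ⟨2 * C, by positivity, ?_⟩
  intro ν k J0 J0' J J' hν hk hJ0 hJ
  have hw := hW ν k J0 J0' J J' hν hk hJ0 hJ
  have h0 : (0 : ℝ) ≤ k := Nat.cast_nonneg k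
  set xs := x1 ν 4000 with hxs
  have hνk : (0 : ℝ) ≤ ν + k := by linarith
  -- energies
  have ea : 1 / 2 ≤ E2 ν J0 J0' xs := by
    have := h2 ν J0 J0' (xc ν) xs (by linarith) hJ0.sol le_rfl (xc_le' hν)
    rw [hJ0.nrm] at this
    linarith
  have eb : E2 (ν + k) J J' xs ≤ 2 := by
    have := h2 (ν + k) J J' xs (xc (ν + k)) hνk hJ.sol (xc_le hν hk) le_rfl
    rw [hJ.nrm] at this
    linarith
  -- the two potentials
  have hPk : 100 * Real.exp (4 * xs / 3) ≤ PP (ν + k) xs := ((h1 (ν + k) hνk).1 xs (xc_le hν hk)).1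
  have hq := q_le hν hk
  have hex := ex_ge hν
  rw [← hxs] at hex
  have hexpos : 0 < Real.exp (4 * xs / 3) := Real.exp_pos _
  have hPk0 : 0 < PP (ν + k) xs := by linarith
  have hrel : PP ν xs = PP (ν + k) xs + (2 * ν * k + (k : ℝ) ^ 2) := by
    unfold PP; ring
  have hP1 : PP (ν + k) xs ≤ PP ν xs := by
    have : 0 ≤ 2 * ν * k + (k : ℝ) ^ 2 := by positivity
    linarith
  have hP2 : PP ν xs ≤ 2 * PP (ν + k) xs := by linarith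
  have hP0 : 0 < PP ν xs := by linarith
  set s := Real.sqrt (PP ν xs) with hsdef
  set sk := Real.sqrt (PP (ν + k) xs) with hskdef
  have hs : 0 < s := Real.sqrt_pos.2 hP0
  have hsk : 0 < sk := Real.sqrt_pos.2 hPk0
  have hle : sk ≤ s := Real.sqrt_le_sqrt hP1
  have hle2 : s ≤ 3 / 2 * sk := by
    have h5 : s ≤ Real.sqrt (2 * PP (ν + k) xs) := Real.sqrt_le_sqrt hP2
    rw [Real.sqrt_mul (by norm_num)] at h5
    have h6 : Real.sqrt 2 ≤ 3 / 2 := by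
      rw [Real.sqrt_le_left (by norm_num)]
      norm_num
    exact h5.trans (mul_le_mul_of_nonneg_right h6 hsk.le)
  -- |b|^2 ≤ 3
  have hb : J' xs ^ 2 / s + s * J xs ^ 2 ≤ 3 := by
    have h5 : J' xs ^ 2 / s ≤ J' xs ^ 2 / sk :=
      div_le_div_of_nonneg_left (sq_nonneg _) hsk hle
    have h6 : s * J xs ^ 2 ≤ 3 / 2 * sk * J xs ^ 2 :=
      mul_le_mul_of_nonneg_right hle2 (sq_nonneg _)
    have h7 : E2 (ν + k) J J' xs = J' xs ^ 2 / sk + sk * J xs ^ 2 := rfl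
    have h8 : 0 ≤ J' xs ^ 2 / sk := by positivity
    nlinarith
  have ha : J0' xs ^ 2 / s + s * J0 xs ^ 2 = E2 ν J0 J0' xs := rfl
  have hα : 0 < J0' xs ^ 2 / s + s * J0 xs ^ 2 := by rw [ha]; linarith
  refine ⟨(s * J0 xs * J xs + J0' xs * J' xs / s) / (J0' xs ^ 2 / s + s * J0 xs ^ 2), ?_, ?_⟩
  · rw [abs_div, abs_of_pos hα, div_le_iff₀ hα]
    have h5 := cs s (J0 xs) (J0' xs) (J xs) (J' xs) hs
    apply abs_le_of_sq_le_sq
    · rw [ha] at h5 ⊢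
      nlinarith
    · rw [ha]
      linarith
  · have h5 : E2 ν (fun x => J x - (s * J0 xs * J xs + J0' xs * J' xs / s) /
        (J0' xs ^ 2 / s + s * J0 xs ^ 2) * J0 x)
        (fun x => J' x - (s * J0 xs * J xs + J0' xs * J' xs / s) /
        (J0' xs ^ 2 / s + s * J0 xs ^ 2) * J0' x) xs =
        (J0 xs * J' xs - J0' xs * J xs) ^ 2 / (J0' xs ^ 2 / s + s * J0 xs ^ 2) :=
      lin s (J0 xs) (J0' xs) (J xs) (J' xs) hs hα
    rw [h5]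
    have hkν : 0 ≤ C * k * ν ^ (-(1 / 3) : ℝ) := by positivity
    have h6 : (J0 xs * J' xs - J0' xs * J xs) ^ 2 ≤ (C * k * ν ^ (-(1 / 3) : ℝ)) ^ 2 :=
      sq_le_sq' (abs_le.1 hw).1 (abs_le.1 hw).2
    apply Real.sqrt_le_iff.2
    refine ⟨by positivity, ?_⟩
    rw [div_le_iff₀ hα, ha]
    nlinarith [sq_nonneg (C * k * ν ^ (-(1 / 3) : ℝ))]

end Pool.Agent.CRW
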