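import Pool.Agent.CRW.Targets3
import Pool.Agent.CRL.P_MODB

set_option autoImplicit false

namespace Pool.Agent.CRW

open MeasureTheory FourierTransform Set Filter Topology
open scoped ENNReal NNReal ComplexConjugate
open Pool.Agent.MBS (E ex S Sstar)
open Pool.Agent.CAR (e1)
open Pool.Agent.CRN (ci sg SH S1 Nice T_CARLS T_POLN T_DSN rt Lam L2)
open Pool.Agent.CRL (ev rot amode T_MODA T_MODB T_POLC)
open Pool.Agent.CRR (PP Sol xc E2 NSol kap EB co T_SEQ T_HANK T_GM T_UNI T_SYM T_AHT T_OSC)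

namespace EB2_

/-- `x 0 + i x 1` -/
noncomputable def zp (x : E 2) : ℂ := (x 0 : ℂ) + x 1 * Complex.I

/-- `x 0 - i x 1` -/
noncomputable def zm (x : E 2) : ℂ := (x 0 : ℂ) - x 1 * Complex.I

theorem yy_eq (m : ℤ) (x : E 2) : yy m x = ((Real.sqrt (2 * Real.pi))⁻¹ : ℝ) *
    (if 0 ≤ m then zp x ^ m.toNat else zm x ^ (-m).toNat) := rfl

theorem cd_co (i : Fin 2) : ContDiff ℝ 2 (fun x : E 2 => ((x i : ℝ) : ℂ)) := by
  have h1 : ContDiff ℝ 2 (fun x : E 2 => x i) := by fun_prop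
  exact Complex.ofRealCLM.contDiff.comp h1

theorem cd_zp : ContDiff ℝ 2 zp := (cd_co 0).add ((cd_co 1).mul contDiff_const)

theorem cd_zm : ContDiff ℝ 2 zm := (cd_co 0).sub ((cd_co 1).mul contDiff_const)

theorem cd_yy (m : ℤ) : ContDiff ℝ 2 (yy m) := by
  have h : yy m = fun x => ((Real.sqrt (2 * Real.pi))⁻¹ : ℝ) *
    (if 0 ≤ m then zp x ^ m.toNat else zm x ^ (-m).toNat) := rfl
  rw [h]
  by_cases hm : 0 ≤ m
  · simp only [if_pos hm]
    exact contDiff_const.mul (cd_zp.pow _)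
  · simp only [if_neg hm]
    exact contDiff_const.mul (cd_zm.pow _)

theorem rt0 (φ : ℝ) (x : E 2) : rt 0 1 φ x 0 = Real.cos φ * x 0 - Real.sin φ * x 1 := by
  simp [rt]

theorem rt1 (φ : ℝ) (x : E 2) : rt 0 1 φ x 1 = Real.sin φ * x 0 + Real.cos φ * x 1 := by
  simp [rt]

theorem ci_eq (t : ℝ) : ci t = (Real.cos t : ℂ) + Real.sin t * Complex.I := by
  unfold ci
  rw [Complex.exp_mul_I, Complex.ofReal_cos, Complex.ofReal_sin]

theorem ci_pow (t : ℝ) (k : ℕ) : ci t ^ k = ci (k * t) := by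
  unfold ci
  rw [← Complex.exp_nat_mul]
  congr 1
  push_cast
  ring

theorem zp_rt (φ : ℝ) (x : E 2) : zp (rt 0 1 φ x) = ci φ * zp x := by
  unfold zp
  rw [rt0, rt1, ci_eq]
  push_cast
  linear_combination (Complex.sin φ) * (x 1 : ℂ) * (-Complex.I_sq)

theorem zm_rt (φ : ℝ) (x : E 2) : zm (rt 0 1 φ x) = ci (-φ) * zm x := by
  unfold zm
  rw [rt0, rt1, ci_eq, Real.cos_neg, Real.sin_neg]
  push_cast
  linear_combination (Complex.sin φ) * (x 1 : ℂ) * (-Complex.I_sq)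

theorem yy_rt (m : ℤ) (φ : ℝ) (x : E 2) : yy m (rt 0 1 φ x) = ci (m * φ) * yy m x := by
  rw [yy_eq, yy_eq]
  by_cases hm : 0 ≤ m
  · have h1 : ((m.toNat : ℕ) : ℝ) = (m : ℝ) := by
      have := Int.toNat_of_nonneg hm
      exact_mod_cast this
    rw [if_pos hm, if_pos hm, zp_rt, mul_pow, ci_pow, h1]
    ring
  · have h1 : (((-m).toNat : ℕ) : ℝ) = -(m : ℝ) := by
      have := Int.toNat_of_nonneg (show 0 ≤ -m by omega)
      exact_mod_cast this
    rw [if_neg hm, if_neg hm, zm_rt, mul_pow, ci_pow, h1]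
    rw [show -(m : ℝ) * -φ = m * φ by ring]
    ring

theorem zp_ev (φ : ℝ) : zp (ev φ) = ci φ := by
  unfold zp
  rw [ci_eq]
  simp [ev]

theorem zm_ev (φ : ℝ) : zm (ev φ) = ci (-φ) := by
  unfold zm
  rw [ci_eq]
  simp [ev]
  ring

theorem yy_ev (m : ℤ) (φ : ℝ) : yy m (ev φ) = ((Real.sqrt (2 * Real.pi))⁻¹ : ℝ) * ci (m * φ) := by
  rw [yy_eq]
  by_cases hm : 0 ≤ m
  · have h1 : ((m.toNat : ℕ) : ℝ) = (m : ℝ) := by
      have := Int.toNat_of_nonneg hm
      exact_mod_cast this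
    rw [if_pos hm, zp_ev, ci_pow, h1]
  · have h1 : (((-m).toNat : ℕ) : ℝ) = -(m : ℝ) := by
      have := Int.toNat_of_nonneg (show 0 ≤ -m by omega)
      exact_mod_cast this
    rw [if_neg hm, zm_ev, ci_pow, h1, show -(m : ℝ) * -φ = m * φ by ring]

theorem hd_ci (m : ℤ) (c : ℂ) (φ : ℝ) :
    HasDerivAt (fun φ : ℝ => ci (m * φ) * c) (ci (m * φ) * (m * Complex.I * c)) φ := by
  have h1 : HasDerivAt (fun φ : ℝ => ((m * φ : ℝ) : ℂ) * Complex.I) (((m : ℝ) : ℂ) * Complex.I)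
      φ := by
    have h2 : HasDerivAt (fun φ : ℝ => (m : ℝ) * φ) (m : ℝ) φ := by
      simpa using (hasDerivAt_id φ).const_mul (m : ℝ)
    exact h2.ofReal_comp.mul_const Complex.I
  have h3 := (h1.cexp).mul_const c
  unfold ci
  refine h3.congr_deriv ?_
  push_cast
  ring

theorem L2_yy (m : ℤ) (x : E 2) : L2 0 1 (yy m) x = -((m : ℂ) ^ 2) * yy m x := by
  unfold L2
  have h0 : (fun φ : ℝ => yy m (rt 0 1 φ x)) = fun φ => ci (m * φ) * yy m x := by
    funext φ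
    exact yy_rt m φ x
  have h1 : deriv (fun φ : ℝ => yy m (rt 0 1 φ x)) =
      fun φ => ci (m * φ) * (m * Complex.I * yy m x) := by
    rw [h0]
    funext φ
    exact (hd_ci m _ φ).deriv
  rw [h1, (hd_ci m _ 0).deriv]
  have h2 : ci ((m : ℝ) * 0) = 1 := by simp [ci]
  rw [h2]
  linear_combination ((m : ℂ) ^ 2 * yy m x) * Complex.I_sq

theorem Lam_yy (m : ℤ) (x : E 2) : Lam (yy m) x = -((m : ℂ) ^ 2) * yy m x := by
  unfold Lam
  rw [Fin.sum_univ_two, Fin.sum_univ_two, Fin.sum_univ_two]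
  simp only [Fin.isValue, lt_self_iff_false, if_false, zero_add, Fin.not_lt_zero, add_zero]
  rw [if_pos (by decide), L2_yy]

theorem conj_ci (t : ℝ) : conj (ci t) = ci (-t) := by
  unfold ci
  rw [← Complex.exp_conj]
  congr 1
  simp

theorem orth (h1 : T_SGC) (m m' : ℤ) :
    ∫ θ, yy m (θ : E 2) * conj (yy m' (θ : E 2)) ∂(sg 2) = if m = m' then 1 else 0 := by
  have hc : Continuous (fun x : E 2 => yy m x * conj (yy m' x)) :=
    (cd_yy m).continuous.mul (Complex.continuous_conj.comp (cd_yy m').continuous)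
  rw [h1 (fun x : E 2 => yy m x * conj (yy m' x)) hc]
  have h2 : ∀ φ : ℝ, yy m (ev φ) * conj (yy m' (ev φ)) =
      ((2 * Real.pi)⁻¹ : ℝ) * Pool.Agent.CRL.ci ((m - m' : ℤ) * φ) := by
    intro φ
    rw [yy_ev, yy_ev, map_mul, Complex.conj_ofReal, conj_ci]
    have h3 : ((Real.sqrt (2 * Real.pi))⁻¹ : ℝ) * ((Real.sqrt (2 * Real.pi))⁻¹ : ℝ) =
        (2 * Real.pi)⁻¹ := by
      rw [← mul_inv, Real.mul_self_sqrt (by positivity)]
    have h4 : Pool.Agent.CRL.ci ((m - m' : ℤ) * φ) = ci (m * φ) * ci (-(m' * φ)) := by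
      unfold ci Pool.Agent.CRL.ci
      rw [← Complex.exp_add]
      congr 1
      push_cast
      ring
    rw [h4, ← h3]
    push_cast
    ring
  simp only [h2]
  rw [intervalIntegral.integral_const_mul, Pool.Agent.CRL.MODB_.integral_ci]
  by_cases h : m = m'
  · rw [if_pos h, if_pos (by omega)]
    have hp : (2 * Real.pi) ≠ 0 := by positivity
    rw [← Complex.ofReal_mul, inv_mul_cancel₀ hp, Complex.ofReal_one]
  · rw [if_neg h, if_neg (by omega), mul_zero]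

end EB2_

open EB2_ in
theorem p_EB2 (h1 : T_SGC) (h2 : T_SYM) : T_EB2 := by
  intro M
  refine ⟨fun m => (cd_yy _).continuous, ?_, fun m => sq_nonneg _, ?_⟩
  · intro m m'
    rw [orth h1]
    by_cases h : m = m'
    · rw [if_pos h, if_pos (by rw [h])]
    · rw [if_neg h, if_neg]
      intro h3
      apply h
      apply Fin.ext
      omega
  · intro m F hF
    rw [(h2 2 F _ le_rfl hF (cd_yy _)).1, ← integral_const_mul]
    congr 1
    funext θ
    rw [Lam_yy, map_mul, map_neg, map_pow]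
    simp only [map_intCast]
    push_cast
    ring

end Pool.Agent.CRW
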