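import Pool.Agent.CRW.Targets2

set_option autoImplicit false

namespace Pool.Agent.CRW

open MeasureTheory FourierTransform Set Filter Topology
open scoped ENNReal NNReal ComplexConjugate
open Pool.Agent.CRR (PP Sol xc E2 NSol kap aa de la si ww band fh StripD FS FA HH T_SEQ T_INF T_QID
  T_FOR T_ENR T_NRM T_HANK)

/-! # CRW, EXN: existence of the Bessel functions -/

namespace EXN_

/-- The coefficients of the power series. -/
noncomputable def a (ν : ℝ) : ℕ → ℝ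
  | 0 => 1
  | n + 1 => -(a ν n) / (4 * ((n : ℝ) + 1) * ((n : ℝ) + 1 + ν))

lemma a_bound {ν : ℝ} (hν : 0 ≤ ν) (n : ℕ) : |a ν n| ≤ (1 / 4) ^ n / (n.factorial : ℝ) := by
  induction n with
  | zero => simp [a]
  | succ n ih =>
    have h1 : (0 : ℝ) < (n : ℝ) + 1 := by positivity
    have h2 : (1 : ℝ) ≤ (n : ℝ) + 1 + ν := by
      have : (0 : ℝ) ≤ n := Nat.cast_nonneg n
      linarith
    have h3 : (0 : ℝ) < 4 * ((n : ℝ) + 1) * ((n : ℝ) + 1 + ν) := by positivity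
    have e1 : |a ν (n + 1)| = |a ν n| / (4 * ((n : ℝ) + 1) * ((n : ℝ) + 1 + ν)) := by
      rw [a, abs_div, abs_neg, abs_of_pos h3]
    rw [e1]
    have h4 : |a ν n| / (4 * ((n : ℝ) + 1) * ((n : ℝ) + 1 + ν)) ≤ |a ν n| / (4 * ((n : ℝ) + 1)) := by
      apply div_le_div_of_nonneg_left (abs_nonneg _) (by positivity)
      have : 4 * ((n : ℝ) + 1) * 1 ≤ 4 * ((n : ℝ) + 1) * ((n : ℝ) + 1 + ν) :=
        mul_le_mul_of_nonneg_left h2 (by positivity)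
      linarith
    refine h4.trans ?_
    have h5 : |a ν n| / (4 * ((n : ℝ) + 1)) ≤
        ((1 / 4) ^ n / (n.factorial : ℝ)) / (4 * ((n : ℝ) + 1)) :=
      div_le_div_of_nonneg_right ih (by positivity)
    refine h5.trans (le_of_eq ?_)
    have h6 : (n.factorial : ℝ) ≠ 0 := by positivity
    rw [Nat.factorial_succ]
    push_cast
    field_simp
    ring

/-- The terms. -/
noncomputable def g (ν : ℝ) (n : ℕ) (x : ℝ) : ℝ := a ν n * Real.exp ((2 * n + ν) * x)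
noncomputable def g1 (ν : ℝ) (n : ℕ) (x : ℝ) : ℝ := (2 * n + ν) * g ν n x
noncomputable def g2 (ν : ℝ) (n : ℕ) (x : ℝ) : ℝ := (2 * n + ν) * g1 ν n x

lemma g_deriv (ν : ℝ) (n : ℕ) (x : ℝ) : HasDerivAt (g ν n) (g1 ν n x) x := by
  have h1 : HasDerivAt (fun y : ℝ => (2 * (n : ℝ) + ν) * y) (2 * n + ν) x := by
    simpa using (hasDerivAt_id x).const_mul (2 * (n : ℝ) + ν)
  have h2 := (h1.exp).const_mul (a ν n)
  have e : a ν n * (Real.exp ((2 * n + ν) * x) * (2 * n + ν)) = g1 ν n x := by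
    unfold g1 g; ring
  rw [← e]
  exact h2

lemma g1_deriv (ν : ℝ) (n : ℕ) (x : ℝ) : HasDerivAt (g1 ν n) (g2 ν n x) x :=
  (g_deriv ν n x).const_mul _

/-- The majorant. -/
noncomputable def u (ν M : ℝ) (n : ℕ) : ℝ :=
  2 * Real.exp (ν * (M + 1)) * (Real.exp (2 * (M + 1)) ^ n / (n.factorial : ℝ))

lemma u_summable (ν M : ℝ) : Summable (u ν M) :=
  (Real.summable_pow_div_factorial _).mul_left _

lemma g_bound {ν : ℝ} (hν : 0 ≤ ν) {M x : ℝ} (hx : x ≤ M) (n : ℕ) :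
    (1 + (2 * n + ν) + (2 * n + ν) ^ 2) * |g ν n x| ≤ u ν M n := by
  set s : ℝ := 2 * n + ν with hs
  have hs0 : 0 ≤ s := by
    have : (0 : ℝ) ≤ n := Nat.cast_nonneg n
    rw [hs]; positivity
  have h1 : 1 + s + s ^ 2 / 2 ≤ Real.exp s := Real.quadratic_le_exp_of_nonneg hs0
  have h2 : 1 + s + s ^ 2 ≤ 2 * Real.exp s := by nlinarith
  have h3 : |g ν n x| = |a ν n| * Real.exp (s * x) := by
    rw [g, abs_mul, abs_of_pos (Real.exp_pos _)]
  have h4 : Real.exp (s * x) ≤ Real.exp (s * M) :=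
    Real.exp_le_exp.mpr (mul_le_mul_of_nonneg_left hx hs0)
  have h5 : |a ν n| ≤ 1 / (n.factorial : ℝ) := by
    refine (a_bound hν n).trans ?_
    apply div_le_div_of_nonneg_right _ (by positivity)
    exact pow_le_one₀ (by norm_num) (by norm_num)
  have h6 : |g ν n x| ≤ 1 / (n.factorial : ℝ) * Real.exp (s * M) := by
    rw [h3]
    exact mul_le_mul h5 h4 (Real.exp_pos _).le (by positivity)
  calc (1 + s + s ^ 2) * |g ν n x|
      ≤ (2 * Real.exp s) * (1 / (n.factorial : ℝ) * Real.exp (s * M)) :=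
        mul_le_mul h2 h6 (abs_nonneg _) (by positivity)
    _ = u ν M n := by
        unfold u
        have e1 : Real.exp s * Real.exp (s * M) =
            Real.exp (ν * (M + 1)) * Real.exp (2 * (M + 1)) ^ n := by
          rw [← Real.exp_nat_mul, ← Real.exp_add, ← Real.exp_add]
          congr 1
          rw [hs]; ring
        calc (2 * Real.exp s) * (1 / (n.factorial : ℝ) * Real.exp (s * M))
            = 2 * (Real.exp s * Real.exp (s * M)) * (1 / (n.factorial : ℝ)) := by ring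
          _ = _ := by rw [e1]; ring

lemma g0_le {ν : ℝ} (hν : 0 ≤ ν) {M x : ℝ} (hx : x ≤ M) (n : ℕ) : ‖g ν n x‖ ≤ u ν M n := by
  refine le_trans ?_ (g_bound hν hx n)
  rw [Real.norm_eq_abs]
  have hs0 : (0 : ℝ) ≤ 2 * n + ν := by
    have : (0 : ℝ) ≤ n := Nat.cast_nonneg n
    positivity
  nlinarith [abs_nonneg (g ν n x), mul_nonneg hs0 (abs_nonneg (g ν n x)),
    mul_nonneg (sq_nonneg (2 * (n : ℝ) + ν)) (abs_nonneg (g ν n x))]

lemma g1_le {ν : ℝ} (hν : 0 ≤ ν) {M x : ℝ} (hx : x ≤ M) (n : ℕ) : ‖g1 ν n x‖ ≤ u ν M n := by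
  refine le_trans ?_ (g_bound hν hx n)
  have hs0 : (0 : ℝ) ≤ 2 * n + ν := by
    have : (0 : ℝ) ≤ n := Nat.cast_nonneg n
    positivity
  rw [Real.norm_eq_abs, g1, abs_mul, abs_of_nonneg hs0]
  nlinarith [abs_nonneg (g ν n x), mul_nonneg hs0 (abs_nonneg (g ν n x)),
    mul_nonneg (sq_nonneg (2 * (n : ℝ) + ν)) (abs_nonneg (g ν n x))]

lemma g2_le {ν : ℝ} (hν : 0 ≤ ν) {M x : ℝ} (hx : x ≤ M) (n : ℕ) : ‖g2 ν n x‖ ≤ u ν M n := by
  refine le_trans ?_ (g_bound hν hx n)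
  have hs0 : (0 : ℝ) ≤ 2 * n + ν := by
    have : (0 : ℝ) ≤ n := Nat.cast_nonneg n
    positivity
  rw [Real.norm_eq_abs, g2, g1, abs_mul, abs_mul, abs_of_nonneg hs0]
  nlinarith [abs_nonneg (g ν n x), mul_nonneg hs0 (abs_nonneg (g ν n x)),
    mul_nonneg (sq_nonneg (2 * (n : ℝ) + ν)) (abs_nonneg (g ν n x))]

lemma g_sum {ν : ℝ} (hν : 0 ≤ ν) (x : ℝ) : Summable (fun n => g ν n x) :=
  Summable.of_norm_bounded (u_summable ν x) (fun n => g0_le hν le_rfl n)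

lemma g1_sum {ν : ℝ} (hν : 0 ≤ ν) (x : ℝ) : Summable (fun n => g1 ν n x) :=
  Summable.of_norm_bounded (u_summable ν x) (fun n => g1_le hν le_rfl n)

lemma g2_sum {ν : ℝ} (hν : 0 ≤ ν) (x : ℝ) : Summable (fun n => g2 ν n x) :=
  Summable.of_norm_bounded (u_summable ν x) (fun n => g2_le hν le_rfl n)

noncomputable def JJ (ν x : ℝ) : ℝ := ∑' n, g ν n x
noncomputable def JJ1 (ν x : ℝ) : ℝ := ∑' n, g1 ν n x
noncomputable def JJ2 (ν x : ℝ) : ℝ := ∑' n, g2 ν n x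

lemma JJ_deriv {ν : ℝ} (hν : 0 ≤ ν) (x : ℝ) : HasDerivAt (JJ ν) (JJ1 ν x) x :=
  hasDerivAt_tsum_of_isPreconnected (t := Iio (x + 1)) (y₀ := x) (u_summable ν (x + 1)) isOpen_Iio
    isPreconnected_Iio (fun n y _ => g_deriv ν n y)
    (fun n y hy => g1_le hν (le_of_lt hy) n) (by simp) (g_sum hν x) (by simp)

lemma JJ1_deriv {ν : ℝ} (hν : 0 ≤ ν) (x : ℝ) : HasDerivAt (JJ1 ν) (JJ2 ν x) x :=
  hasDerivAt_tsum_of_isPreconnected (t := Iio (x + 1)) (y₀ := x) (u_summable ν (x + 1)) isOpen_Iio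
    isPreconnected_Iio (fun n y _ => g1_deriv ν n y)
    (fun n y hy => g2_le hν (le_of_lt hy) n) (by simp) (g1_sum hν x) (by simp)

lemma g2_succ {ν : ℝ} (hν : 0 ≤ ν) (n : ℕ) (x : ℝ) :
    g2 ν (n + 1) x = ν ^ 2 * g ν (n + 1) x - Real.exp (2 * x) * g ν n x := by
  have hn : (0 : ℝ) ≤ n := Nat.cast_nonneg n
  have h1 : ((n : ℝ) + 1) ≠ 0 := by positivity
  have h2 : ((n : ℝ) + 1 + ν) ≠ 0 := by positivity
  have h3 : a ν n = -(4 * ((n : ℝ) + 1) * ((n : ℝ) + 1 + ν)) * a ν (n + 1) := by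
    rw [a]
    field_simp
  have h4 : Real.exp (2 * x) * Real.exp ((2 * n + ν) * x) =
      Real.exp ((2 * ((n + 1 : ℕ) : ℝ) + ν) * x) := by
    rw [← Real.exp_add]
    congr 1
    push_cast
    ring
  unfold g2 g1 g
  calc (2 * ((n + 1 : ℕ) : ℝ) + ν) * ((2 * ((n + 1 : ℕ) : ℝ) + ν) *
        (a ν (n + 1) * Real.exp ((2 * ((n + 1 : ℕ) : ℝ) + ν) * x)))
      = ν ^ 2 * (a ν (n + 1) * Real.exp ((2 * ((n + 1 : ℕ) : ℝ) + ν) * x)) -
        (-(4 * ((n : ℝ) + 1) * ((n : ℝ) + 1 + ν)) * a ν (n + 1)) *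
          Real.exp ((2 * ((n + 1 : ℕ) : ℝ) + ν) * x) := by push_cast; ring
    _ = _ := by rw [← h3, ← h4]; ring

lemma JJ2_eq {ν : ℝ} (hν : 0 ≤ ν) (x : ℝ) :
    JJ2 ν x = -(Real.exp (2 * x) - ν ^ 2) * JJ ν x := by
  have h0 : g2 ν 0 x = ν ^ 2 * g ν 0 x := by
    unfold g2 g1; push_cast; ring
  have s1 : Summable (fun n => g ν (n + 1) x) := (summable_nat_add_iff 1).mpr (g_sum hν x)
  have h1 : JJ2 ν x = g2 ν 0 x + ∑' n, g2 ν (n + 1) x := (g2_sum hν x).tsum_eq_zero_add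
  have h2 : JJ ν x = g ν 0 x + ∑' n, g ν (n + 1) x := (g_sum hν x).tsum_eq_zero_add
  have h3 : ∑' n, g2 ν (n + 1) x = ν ^ 2 * ∑' n, g ν (n + 1) x - Real.exp (2 * x) * JJ ν x := by
    have e : (fun n => g2 ν (n + 1) x) =
        fun n => ν ^ 2 * g ν (n + 1) x - Real.exp (2 * x) * g ν n x := by
      funext n; exact g2_succ hν n x
    rw [e, (s1.mul_left _).tsum_sub ((g_sum hν x).mul_left _), tsum_mul_left, tsum_mul_left]
    rfl
  rw [h1, h3, h0]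
  have h4 : ν ^ 2 * JJ ν x = ν ^ 2 * (g ν 0 x + ∑' n, g ν (n + 1) x) := by rw [← h2]
  linear_combination (-1 : ℝ) * h4

lemma JJ_bd {ν : ℝ} (hν : 0 ≤ ν) (x : ℝ) (hx : x ≤ 0) : |JJ ν x| ≤ ∑' n, u ν 0 n := by
  rw [← Real.norm_eq_abs]
  exact tsum_of_norm_bounded (u_summable ν 0).hasSum (fun n => g0_le hν hx n)

lemma JJ_zero {ν : ℝ} (hν : 0 ≤ ν) : JJ ν 0 ≠ 0 := by
  have h2 : JJ ν 0 = g ν 0 0 + ∑' n, g ν (n + 1) 0 := (g_sum hν 0).tsum_eq_zero_add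
  have h0 : g ν 0 0 = 1 := by simp [g, a]
  have hs : HasSum (fun n : ℕ => (1 / 4 : ℝ) * (1 / 4) ^ n) (1 / 4 * (1 - 1 / 4)⁻¹) :=
    (hasSum_geometric_of_lt_one (by norm_num) (by norm_num)).mul_left _
  have h3 : ‖∑' n, g ν (n + 1) 0‖ ≤ 1 / 4 * (1 - 1 / 4)⁻¹ := by
    refine tsum_of_norm_bounded hs (fun n => ?_)
    have e : g ν (n + 1) 0 = a ν (n + 1) := by simp [g]
    rw [e, Real.norm_eq_abs]
    refine (a_bound hν (n + 1)).trans ?_
    have h5 : (1 : ℝ) ≤ ((n + 1).factorial : ℝ) := by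
      exact_mod_cast Nat.succ_le_of_lt (Nat.factorial_pos _)
    calc (1 / 4 : ℝ) ^ (n + 1) / ((n + 1).factorial : ℝ) ≤ (1 / 4 : ℝ) ^ (n + 1) :=
          div_le_self (by positivity) h5
      _ = 1 / 4 * (1 / 4) ^ n := by ring
  rw [Real.norm_eq_abs] at h3
  have h4 := (abs_le.mp h3).1
  intro h
  rw [h2, h0] at h
  have : (1 / 4 : ℝ) * (1 - 1 / 4)⁻¹ = 1 / 3 := by norm_num
  rw [this] at h4
  linarith

lemma sol {ν : ℝ} (hν : 0 ≤ ν) : Sol ν (JJ ν) (JJ1 ν) where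
  d1 := fun x => JJ_deriv hν x
  d2 := fun x => by
    have h := JJ1_deriv hν x
    rw [JJ2_eq hν x] at h
    exact h
  bd := ⟨∑' n, u ν 0 n, fun x hx => JJ_bd hν x hx⟩

end EXN_

theorem p_EXN (h1 : T_SEQ) (h2 : T_NRM) : T_EXN := by
  intro ν hν
  obtain ⟨c, _, hc⟩ := h2 h1 ν (EXN_.JJ ν) (EXN_.JJ1 ν) hν (EXN_.sol hν) ⟨0, EXN_.JJ_zero hν⟩
  exact ⟨_, _, hc⟩

end Pool.Agent.CRW
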