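import Pool.Agent.CRW.Targets3
import Pool.Agent.CRR.P_GM

set_option autoImplicit false

/-!
# CRW: FCG: separation of variables for all angular frequencies
-/

namespace Pool.Agent.CRW

open MeasureTheory FourierTransform Set Filter Topology
open scoped ENNReal NNReal ComplexConjugate
open Pool.Agent.MBS (E ex S Sstar)
open Pool.Agent.CAR (e1)
open Pool.Agent.CRN (ci sg SH S1 Nice T_CARLS T_POLN T_DSN)
open Pool.Agent.CRL (ev rot amode T_MODA T_MODB T_POLC)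
open Pool.Agent.CRR (PP Sol xc E2 NSol kap EB co nu T_SEQ T_HANK T_GM T_UNI T_SYM T_AHT T_OSC)

namespace FCG_

lemma ev0 (φ : ℝ) : ev φ 0 = Real.cos φ := by simp [ev]

lemma ev1 (φ : ℝ) : ev φ 1 = Real.sin φ := by simp [ev]

lemma ext2 {x y : E 2} (h0 : x 0 = y 0) (h1 : x 1 = y 1) : x = y := by
  ext i
  fin_cases i
  · exact h0
  · exact h1

lemma rot_ev (θ r : ℝ) : rot θ (r • ev 0) = r • ev θ := by
  apply ext2
  · simp [rot, ev]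
    ring
  · simp [rot, ev]
    ring

lemma yy_cont (m : ℤ) : Continuous (yy m) := by
  unfold yy
  refine continuous_const.mul ?_
  split_ifs
  · fun_prop
  · fun_prop

lemma e_cos_add (φ : ℝ) : (Real.cos φ : ℂ) + Real.sin φ * Complex.I = ci φ := by
  unfold ci
  rw [Complex.exp_mul_I]
  push_cast
  rfl

lemma e_cos_sub (φ : ℝ) : (Real.cos φ : ℂ) - Real.sin φ * Complex.I = ci (-φ) := by
  rw [← e_cos_add, Real.cos_neg, Real.sin_neg]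
  push_cast
  ring

lemma ci_pow (φ : ℝ) (k : ℕ) : ci φ ^ k = ci (k * φ) := by
  unfold ci
  rw [← Complex.exp_nat_mul]
  congr 1
  push_cast
  ring

lemma conj_ci (φ : ℝ) : conj (ci φ) = ci (-φ) := by
  unfold ci
  rw [← Complex.exp_conj]
  congr 1
  simp

lemma yy_ev (m : ℤ) (φ : ℝ) :
    conj (yy m (ev φ)) = ((Real.sqrt (2 * Real.pi))⁻¹ : ℝ) * ci (-(m * φ)) := by
  unfold yy
  rw [ev0, ev1, map_mul, Complex.conj_ofReal]
  congr 1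
  split_ifs with h
  · rw [e_cos_add, ci_pow, conj_ci]
    have : ((m.toNat : ℕ) : ℝ) = (m : ℝ) := by
      exact_mod_cast Int.toNat_of_nonneg h
    rw [this]
  · rw [e_cos_sub, ci_pow, conj_ci]
    have : (((-m).toNat : ℕ) : ℝ) = -(m : ℝ) := by
      have := Int.toNat_of_nonneg (by omega : 0 ≤ -m)
      exact_mod_cast this
    rw [this]
    congr 1
    ring

/-- the coefficients with respect to the harmonics -/
lemma co_eq (h1 : T_SGC) {h : E 2 → ℂ} (hh : Continuous h) (m : ℤ) (ρ r : ℝ) :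
    cm (SH h ρ) m r = ((Real.sqrt (2 * Real.pi))⁻¹ : ℝ) * co (yy m) h ρ r := by
  have hS : Continuous (fun x : E 2 => SH h ρ (r • x)) :=
    (Pool.Agent.CRR.GM_.SH_cont hh).comp (by fun_prop : Continuous fun x : E 2 => (ρ, r • x))
  have h2 := h1 (fun x => SH h ρ (r • x) * conj (yy m x))
    (hS.mul (Complex.continuous_conj.comp (yy_cont m)))
  have h3 : co (yy m) h ρ r = ∫ φ in (-Real.pi)..Real.pi, SH h ρ (r • ev φ) *
      conj (yy m (ev φ)) := h2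
  rw [h3]
  simp only [yy_ev]
  unfold cm amode
  simp only [rot_ev]
  have h4 : ∀ φ : ℝ, SH h ρ (r • ev φ) * (((Real.sqrt (2 * Real.pi))⁻¹ : ℝ) * ci (-(m * φ))) =
      ((Real.sqrt (2 * Real.pi))⁻¹ : ℝ) * (SH h ρ (r • ev φ) * ci (-(m * φ))) := by
    intro φ
    ring
  simp only [h4]
  rw [intervalIntegral.integral_const_mul, ← mul_assoc, ← Complex.ofReal_mul]
  have h5 : (Real.sqrt (2 * Real.pi))⁻¹ * (Real.sqrt (2 * Real.pi))⁻¹ = (2 * Real.pi)⁻¹ := by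
    rw [← mul_inv, Real.mul_self_sqrt (by positivity)]
  rw [h5]
  rfl

lemma nu_eq (m : ℤ) : nu 2 ((m : ℝ) ^ 2) = |(m : ℝ)| := by
  unfold nu
  rw [show (m : ℝ) ^ 2 + ((((2 : ℕ) : ℝ) - 2) / 2) ^ 2 = (m : ℝ) ^ 2 by push_cast; ring,
    Real.sqrt_sq_eq_abs]

lemma exists_ne {ν : ℝ} {J J' : ℝ → ℝ} (h : NSol ν J J') : ∃ x, J x ≠ 0 := by
  by_contra hc
  push Not at hc
  have hJ : J = fun _ => 0 := funext hc
  have hJ' : ∀ x, J' x = 0 := fun x => by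
    have h1 := h.sol.d1 x
    rw [hJ] at h1
    exact h1.unique (hasDerivAt_const x 0)
  have h2 := h.nrm
  unfold E2 at h2
  rw [hJ', hc] at h2
  simp at h2

/-- two normalised solutions agree up to the sign -/
lemma sign (h4 : T_UNI) {ν : ℝ} (hν : 0 ≤ ν) {Z Z' J J' : ℝ → ℝ} (hZ : NSol ν Z Z')
    (hJ : NSol ν J J') : ∃ c : ℝ, c ^ 2 = 1 ∧ ∀ x, Z x = c * J x := by
  obtain ⟨c, hc⟩ := h4 ν Z Z' J J' hν hZ.sol hJ.sol (exists_ne hJ)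
  refine ⟨c, ?_, fun x => (hc x).1⟩
  have h1 := hZ.nrm
  have h2 := hJ.nrm
  unfold E2 at h1 h2
  rw [(hc _).1, (hc _).2] at h1
  calc c ^ 2 = c ^ 2 * (J' (xc ν) ^ 2 / Real.sqrt (PP ν (xc ν)) +
      Real.sqrt (PP ν (xc ν)) * J (xc ν) ^ 2) := by rw [h2, mul_one]
    _ = (c * J' (xc ν)) ^ 2 / Real.sqrt (PP ν (xc ν)) +
        Real.sqrt (PP ν (xc ν)) * (c * J (xc ν)) ^ 2 := by ring
    _ = 1 := h1

/-- the frequencies `|m| ≤ M` -/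
lemma perM (h1 : T_SGC) (h2 : T_EB2) (h4 : T_UNI) {C : ℝ≥0}
    (hC : ∀ (M : ℕ) (Y : Fin M → E 2 → ℂ) (lam : Fin M → ℝ)
      (h : E 2 → ℂ), EB 2 Y lam → Continuous h →
      ∃ (J J' : Fin M → ℝ → ℝ) (G : Fin M → ℝ → ℂ), (∀ m, Measurable (G m)) ∧
      (∀ m, (∀ ρ, G m ρ = 0) ∨ NSol (nu 2 (lam m)) (J m) (J' m)) ∧
      (∀ m ρ r, 0 < ρ → 0 < r →
        ((r ^ ((((2 : ℕ) : ℝ) - 2) / 2) : ℝ) : ℂ) * co (Y m) h ρ r =
          G m ρ * J m (Real.log (2 * Real.pi * r * ρ))) ∧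
      ∑ m, ∫⁻ ρ in Ioi (0 : ℝ), ‖G m ρ‖ₑ ^ 2 * ENNReal.ofReal ρ⁻¹ ≤ C * ∫⁻ ξ, ‖h ξ‖ₑ ^ 2)
    {J J' : ℤ → ℝ → ℝ} (hJ : ∀ m : ℤ, NSol |(m : ℝ)| (J m) (J' m)) {h : E 2 → ℂ}
    (hh : Continuous h) (M : ℕ) : ∃ G : Fin (2 * M + 1) → ℝ → ℂ, (∀ i, Measurable (G i)) ∧
      (∀ (i : Fin (2 * M + 1)) (ρ r : ℝ), 0 < ρ → 0 < r →
        cm (SH h ρ) ((i : ℤ) - M) r =
          G i ρ * J ((i : ℤ) - M) (Real.log (2 * Real.pi * r * ρ))) ∧
      ∑ i, ∫⁻ ρ in Ioi (0 : ℝ), ‖G i ρ‖ₑ ^ 2 * ENNReal.ofReal ρ⁻¹ ≤ C * ∫⁻ ξ, ‖h ξ‖ₑ ^ 2 := by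
  obtain ⟨Jt, Jt', Gt, hm, halt, heq, hsum⟩ := hC (2 * M + 1) _ _ h (h2 M) hh
  have hc : ∀ i : Fin (2 * M + 1), ∃ c : ℝ, c ^ 2 ≤ 1 ∧ ∀ ρ x,
      Gt i ρ * (Jt i x : ℂ) = Gt i ρ * ((c : ℂ) * (J ((i : ℤ) - M) x : ℂ)) := by
    intro i
    rcases halt i with h0 | h0
    · exact ⟨0, by norm_num, fun ρ x => by rw [h0 ρ]; ring⟩
    · rw [nu_eq] at h0
      obtain ⟨c, hc1, hc2⟩ := sign h4 (abs_nonneg _) h0 (hJ ((i : ℤ) - M))
      refine ⟨c, hc1.le, fun ρ x => ?_⟩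
      rw [hc2 x]
      push_cast
      ring
  choose c hc1 hc2 using hc
  have hs : 1 ≤ Real.sqrt (2 * Real.pi) := by
    rw [Real.one_le_sqrt]
    have := Real.pi_gt_three
    linarith
  have hs0 : 0 < Real.sqrt (2 * Real.pi) := by linarith
  refine ⟨fun i ρ => ((Real.sqrt (2 * Real.pi))⁻¹ * c i : ℝ) * Gt i ρ, fun i =>
    (hm i).const_mul _, ?_, ?_⟩
  · intro i ρ r hρ hr
    have e1 := heq i ρ r hρ hr
    rw [show (((2 : ℕ) : ℝ) - 2) / 2 = 0 by norm_num, Real.rpow_zero, Complex.ofReal_one,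
      one_mul, hc2] at e1
    rw [co_eq h1 hh, e1]
    push_cast
    ring
  · refine le_trans (Finset.sum_le_sum fun i _ => ?_) hsum
    refine lintegral_mono fun ρ => ?_
    gcongr
    rw [enorm_mul]
    refine mul_le_of_le_one_left (zero_le) ?_
    rw [← ofReal_norm, ENNReal.ofReal_le_one, Complex.norm_real, Real.norm_eq_abs, abs_mul,
      abs_of_pos (inv_pos.mpr hs0)]
    have e2 : |c i| ≤ 1 := by
      rw [← sq_le_one_iff_abs_le_one]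
      exact hc1 i
    have e3 : (Real.sqrt (2 * Real.pi))⁻¹ ≤ 1 := inv_le_one_of_one_le₀ hs
    exact mul_le_one₀ e3 (abs_nonneg _) e2

/-- the factor is determined -/
lemma uniq {J : ℝ → ℝ} (hJ : ∃ x, J x ≠ 0) {g g' : ℂ} {ρ : ℝ} (hρ : 0 < ρ)
    (h : ∀ r : ℝ, 0 < r → g * J (Real.log (2 * Real.pi * r * ρ)) =
      g' * J (Real.log (2 * Real.pi * r * ρ))) : g = g' := by
  obtain ⟨x, hx⟩ := hJ
  have hp := Real.pi_pos
  have h1 := h (Real.exp x / (2 * Real.pi * ρ)) (by positivity)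
  have h2 : Real.log (2 * Real.pi * (Real.exp x / (2 * Real.pi * ρ)) * ρ) = x := by
    rw [show 2 * Real.pi * (Real.exp x / (2 * Real.pi * ρ)) * ρ = Real.exp x by field_simp,
      Real.log_exp]
  rw [h2] at h1
  exact mul_right_cancel₀ (by exact_mod_cast hx) h1

end FCG_

open FCG_

theorem p_FCG (h1 : T_SGC) (h2 : T_EB2) (h3 : T_GM) (h4 : T_UNI) : T_FCG := by
  obtain ⟨C, hC⟩ := h3 2 le_rfl
  refine ⟨C, fun J J' hJ h hh => ?_⟩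
  have hM := fun M => perM h1 h2 h4 hC hJ hh M
  choose G hG1 hG2 hG3 using hM
  -- the index of the frequency `m` for `M = |m|`
  have hidx : ∀ (m : ℤ) (M : ℕ), m.natAbs ≤ M → (m + M).toNat < 2 * M + 1 := by
    intro m M hm
    omega
  have hval : ∀ (m : ℤ) (M : ℕ) (hm : m.natAbs ≤ M),
      (((⟨(m + M).toNat, hidx m M hm⟩ : Fin (2 * M + 1)) : ℕ) : ℤ) - M = m := by
    intro m M hm
    simp only
    omega
  set F : ℤ → ℝ → ℂ := fun m => G m.natAbs ⟨(m + m.natAbs).toNat, hidx m m.natAbs le_rfl⟩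
    with hF
  have hF2 : ∀ (m : ℤ) (ρ r : ℝ), 0 < ρ → 0 < r →
      cm (SH h ρ) m r = F m ρ * J m (Real.log (2 * Real.pi * r * ρ)) := by
    intro m ρ r hρ hr
    have e1 := hG2 m.natAbs ⟨(m + m.natAbs).toNat, hidx m m.natAbs le_rfl⟩ ρ r hρ hr
    rw [hval m m.natAbs le_rfl] at e1
    exact e1
  have hagree : ∀ (M : ℕ) (i : Fin (2 * M + 1)) (ρ : ℝ), 0 < ρ →
      F ((i : ℤ) - M) ρ = G M i ρ := by
    intro M i ρ hρ
    refine uniq (exists_ne (hJ ((i : ℤ) - M))) hρ fun r hr => ?_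
    rw [← hF2 _ ρ r hρ hr, ← hG2 M i ρ r hρ hr]
  refine ⟨F, fun m => hG1 _ _, hF2, ?_⟩
  rw [ENNReal.tsum_eq_iSup_sum]
  refine iSup_le fun s => ?_
  set M : ℕ := s.sup Int.natAbs with hMdef
  have hinj : Function.Injective (fun i : Fin (2 * M + 1) => (i : ℤ) - M) := by
    intro i j hij
    simp only at hij
    exact Fin.ext (by omega)
  have hsub : s ⊆ Finset.univ.map ⟨fun i : Fin (2 * M + 1) => (i : ℤ) - M, hinj⟩ := by
    intro m hm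
    rw [Finset.mem_map]
    have hle : m.natAbs ≤ M := Finset.le_sup (f := Int.natAbs) hm
    exact ⟨⟨(m + M).toNat, hidx m M hle⟩, Finset.mem_univ _, hval m M hle⟩
  calc ∑ m ∈ s, ∫⁻ ρ in Ioi (0 : ℝ), ‖F m ρ‖ₑ ^ 2 * ENNReal.ofReal ρ⁻¹
      ≤ ∑ m ∈ Finset.univ.map ⟨fun i : Fin (2 * M + 1) => (i : ℤ) - M, hinj⟩,
        ∫⁻ ρ in Ioi (0 : ℝ), ‖F m ρ‖ₑ ^ 2 * ENNReal.ofReal ρ⁻¹ :=
        Finset.sum_le_sum_of_subset hsub
    _ = ∑ i : Fin (2 * M + 1), ∫⁻ ρ in Ioi (0 : ℝ),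
        ‖F ((i : ℤ) - M) ρ‖ₑ ^ 2 * ENNReal.ofReal ρ⁻¹ := by
        rw [Finset.sum_map]
        rfl
    _ = ∑ i : Fin (2 * M + 1), ∫⁻ ρ in Ioi (0 : ℝ), ‖G M i ρ‖ₑ ^ 2 * ENNReal.ofReal ρ⁻¹ := by
        refine Finset.sum_congr rfl fun i _ => ?_
        refine setLIntegral_congr_fun measurableSet_Ioi fun ρ hρ => ?_
        rw [hagree M i ρ hρ]
    _ ≤ _ := hG3 M

end Pool.Agent.CRW
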