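import Pool.Agent.CRW.Targets3

set_option autoImplicit false

namespace Pool.Agent.CRW

open MeasureTheory FourierTransform Set Filter Topology
open scoped ENNReal NNReal ComplexConjugate
open Pool.Agent.CRN (ci)

namespace FEJ_

theorem ci_add (s t : ℝ) : ci (s + t) = ci s * ci t := by
  unfold ci
  rw [← Complex.exp_add]
  congr 1
  push_cast
  ring

theorem ci_norm (t : ℝ) : ‖ci t‖ = 1 := by
  unfold ci
  exact Complex.norm_exp_ofReal_mul_I t

theorem ci_cont : Continuous ci := by
  unfold ci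
  fun_prop

theorem ci_two_pi (m : ℤ) : ci (m * (2 * Real.pi)) = 1 := by
  unfold ci
  rw [Complex.exp_eq_one_iff]
  exact ⟨m, by push_cast; ring⟩

theorem ci_conj (t : ℝ) : conj (ci t) = ci (-t) := by
  unfold ci
  rw [← Complex.exp_conj]
  congr 1
  simp

theorem ci_nmul (t : ℝ) (k : ℕ) : ci (k * t) = ci t ^ k := by
  unfold ci
  rw [← Complex.exp_nat_mul]
  congr 1
  push_cast
  ring

theorem fej_eq (N : ℕ) (θ : ℝ) : (fej N θ : ℂ) =
    (N : ℂ)⁻¹ * ∑ k ∈ Finset.range N, ∑ l ∈ Finset.range N, ci ((((k : ℤ) - l : ℤ) : ℝ) * θ) := by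
  have h : ((‖∑ k ∈ Finset.range N, ci (k * θ)‖ ^ 2 : ℝ) : ℂ) =
      ∑ k ∈ Finset.range N, ∑ l ∈ Finset.range N, ci ((((k : ℤ) - l : ℤ) : ℝ) * θ) := by
    rw [← Complex.normSq_eq_norm_sq, ← Complex.mul_conj, map_sum, Finset.sum_mul_sum]
    refine Finset.sum_congr rfl fun k _ => Finset.sum_congr rfl fun l _ => ?_
    rw [ci_conj, ← ci_add]
    congr 1
    push_cast
    ring
  unfold fej
  rw [Complex.ofReal_div, h, div_eq_inv_mul]
  rfl

theorem int0 (n : ℤ) (hn : n ≠ 0) : ∫ θ in (-Real.pi)..Real.pi, ci (n * θ) = 0 := by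
  have hc : ((n : ℂ) * Complex.I) ≠ 0 := mul_ne_zero (by exact_mod_cast hn) Complex.I_ne_zero
  have h : ∀ θ : ℝ, ci (n * θ) = Complex.exp (((n : ℂ) * Complex.I) * θ) := by
    intro θ
    unfold ci
    congr 1
    push_cast
    ring
  simp only [h]
  rw [integral_exp_mul_complex hc]
  have e : Complex.exp ((n : ℂ) * Complex.I * (Real.pi : ℝ)) =
      Complex.exp ((n : ℂ) * Complex.I * ((-Real.pi : ℝ) : ℂ)) := by
    rw [Complex.exp_eq_exp_iff_exists_int]
    exact ⟨n, by push_cast; ring⟩
  rw [e, sub_self, zero_div]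

theorem root (N : ℕ) (hN : 1 ≤ N) (a : ℤ) (ha : |a| < N) (ha0 : a ≠ 0) (θ : ℝ) :
    ∑ j ∈ Finset.range N, ci (a * (θ - 2 * Real.pi * j / N)) = 0 := by
  have hN0 : (N : ℝ) ≠ 0 := by
    have : 0 < (N : ℝ) := by exact_mod_cast hN
    exact this.ne'
  set t : ℝ := -(2 * Real.pi * a / N) with ht
  have h1 : ∀ j : ℕ, ci (a * (θ - 2 * Real.pi * j / N)) = ci (a * θ) * ci t ^ j := by
    intro j
    rw [← ci_nmul, ← ci_add]
    congr 1
    rw [ht]
    ring
  have h2 : ci t ^ N = 1 := by
    rw [← ci_nmul]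
    have e : (N : ℝ) * t = ((-a : ℤ) : ℝ) * (2 * Real.pi) := by
      rw [ht]
      push_cast
      field_simp
    rw [e, ci_two_pi]
  have h3 : ci t ≠ 1 := by
    intro h
    unfold ci at h
    rw [Complex.exp_eq_one_iff] at h
    obtain ⟨n, hn⟩ := h
    have h4 : (t : ℂ) = ((n * (2 * Real.pi) : ℝ) : ℂ) := by
      have h5 : (t : ℂ) * Complex.I = ((n * (2 * Real.pi) : ℝ) : ℂ) * Complex.I := by
        rw [hn]
        push_cast
        ring
      exact mul_right_cancel₀ Complex.I_ne_zero h5
    have h6 : t = n * (2 * Real.pi) := by exact_mod_cast h4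
    have h7 : (-(a : ℝ)) = n * N := by
      rw [ht] at h6
      have hp : (2 * Real.pi) ≠ 0 := by positivity
      have e1 : -(2 * Real.pi * a / N) = (2 * Real.pi) * (-(a : ℝ) / N) := by ring
      rw [e1, mul_comm (n : ℝ)] at h6
      have h8 := mul_left_cancel₀ hp h6
      rw [div_eq_iff hN0] at h8
      exact h8
    have h8 : -a = n * (N : ℤ) := by exact_mod_cast h7
    have h9 : (N : ℤ) ∣ a := by
      rw [← dvd_neg, h8]
      exact dvd_mul_left _ _
    exact ha0 (Int.eq_zero_of_abs_lt_dvd h9 ha)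
  simp only [h1]
  rw [← Finset.mul_sum]
  have h4 : (∑ j ∈ Finset.range N, ci t ^ j) * (ci t - 1) = 0 := by
    rw [geom_sum_mul, h2, sub_self]
  rcases mul_eq_zero.mp h4 with h | h
  · rw [h, mul_zero]
  · exact absurd (sub_eq_zero.mp h) h3

theorem sub1 (t : ℝ) : ‖ci t - 1‖ = |2 * Real.sin (t / 2)| := by
  have h := Complex.norm_exp_I_mul_ofReal_sub_one t
  rw [Real.norm_eq_abs] at h
  unfold ci
  rw [mul_comm]
  exact h

theorem lower (N : ℕ) (hN : 1 ≤ N) (θ : ℝ) (hθ : |θ| ≤ Real.pi / N) :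
    2 / Real.pi * N ≤ ‖∑ k ∈ Finset.range N, ci (k * θ)‖ := by
  have hN0 : 0 < (N : ℝ) := by exact_mod_cast hN
  have hpi := Real.pi_pos
  by_cases h0 : θ = 0
  · subst h0
    have h1 : ∀ k : ℕ, ci (k * 0) = 1 := by
      intro k
      unfold ci
      simp
    simp only [h1]
    rw [Finset.sum_const, Finset.card_range, nsmul_eq_mul, mul_one, Complex.norm_natCast]
    have : 2 / Real.pi ≤ 1 := by
      rw [div_le_one hpi]
      linarith [Real.two_le_pi]
    exact mul_le_of_le_one_left hN0.le this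
  · have hS : (∑ k ∈ Finset.range N, ci (k * θ)) * (ci θ - 1) = ci (N * θ) - 1 := by
      simp only [ci_nmul]
      exact geom_sum_mul _ _
    have hth : 0 < |θ| := abs_pos.mpr h0
    have h1 : ‖ci θ - 1‖ ≤ |θ| := by
      rw [sub1, abs_mul, abs_two]
      have := Real.abs_sin_le_abs (x := θ / 2)
      rw [abs_div, abs_two] at this
      linarith
    have h2 : 2 / Real.pi * (N * |θ|) ≤ ‖ci (N * θ) - 1‖ := by
      rw [sub1, abs_mul, abs_two]
      have e1 : |(N : ℝ) * θ / 2| = N * |θ| / 2 := by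
        rw [abs_div, abs_two, abs_mul, abs_of_pos hN0]
      have e2 : N * |θ| ≤ Real.pi := by
        calc (N : ℝ) * |θ| ≤ N * (Real.pi / N) := mul_le_mul_of_nonneg_left hθ hN0.le
          _ = Real.pi := by field_simp
      have e3 : |(N : ℝ) * θ / 2| ≤ Real.pi := by
        rw [e1]
        linarith [mul_nonneg hN0.le hth.le]
      rw [Real.abs_sin_eq_sin_abs_of_abs_le_pi e3, e1]
      have e4 := Real.mul_le_sin (x := N * |θ| / 2) (by positivity) (by linarith)
      have e5 : 2 / Real.pi * (N * |θ|) = 2 * (2 / Real.pi * (N * |θ| / 2)) := by ring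
      rw [e5]
      linarith
    have h3 : ‖∑ k ∈ Finset.range N, ci (k * θ)‖ * ‖ci θ - 1‖ = ‖ci (N * θ) - 1‖ := by
      rw [← norm_mul, hS]
    have h4 : 2 / Real.pi * N * |θ| ≤ ‖∑ k ∈ Finset.range N, ci (k * θ)‖ * |θ| := by
      calc 2 / Real.pi * N * |θ| = 2 / Real.pi * (N * |θ|) := by ring
        _ ≤ ‖ci (N * θ) - 1‖ := h2
        _ = _ := h3.symm
        _ ≤ _ := mul_le_mul_of_nonneg_left h1 (norm_nonneg _)
    exact le_of_mul_le_mul_right h4 hth

end FEJ_

open FEJ_ in
theorem p_FEJ : T_FEJ := by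
  intro N hN
  have hN0 : 0 < (N : ℝ) := by exact_mod_cast hN
  have hNc : (N : ℂ) ≠ 0 := by exact_mod_cast hN0.ne'
  refine ⟨?_, ?_, ?_, ?_, ?_⟩
  · unfold fej
    refine Continuous.div_const ?_ _
    refine Continuous.pow ?_ 2
    refine Continuous.norm ?_
    refine continuous_finset_sum _ fun k _ => ?_
    exact ci_cont.comp (continuous_const.mul continuous_id)
  · intro θ
    refine ⟨by unfold fej; positivity, ?_⟩
    unfold fej
    have h : ∀ k : ℕ, ci (k * (θ + 2 * Real.pi)) = ci (k * θ) := by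
      intro k
      have e := ci_two_pi (k : ℤ)
      rw [Int.cast_natCast] at e
      rw [mul_add, ci_add, e, mul_one]
    simp only [h]
  · intro θ hθ
    have h := lower N hN θ hθ
    unfold fej
    rw [le_div_iff₀ hN0]
    have h1 := pow_le_pow_left₀ (by positivity) h 2
    have e : (2 / Real.pi * N) ^ 2 = 4 / Real.pi ^ 2 * N * N := by ring
    rw [e] at h1
    exact h1
  · intro θ
    have h : ((∑ j ∈ Finset.range N, fej N (θ - 2 * Real.pi * j / N) : ℝ) : ℂ) = ((N : ℝ) : ℂ) := by
      rw [Complex.ofReal_sum]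
      simp only [fej_eq]
      rw [← Finset.mul_sum, Finset.sum_comm]
      have h1 : ∀ k ∈ Finset.range N, ∑ j ∈ Finset.range N, ∑ l ∈ Finset.range N,
          ci ((((k : ℤ) - l : ℤ) : ℝ) * (θ - 2 * Real.pi * j / N)) = (N : ℂ) := by
        intro k hk
        rw [Finset.sum_comm]
        have h2 : ∀ l ∈ Finset.range N, ∑ j ∈ Finset.range N,
            ci ((((k : ℤ) - l : ℤ) : ℝ) * (θ - 2 * Real.pi * j / N)) =
            if k = l then (N : ℂ) else 0 := by
          intro l hl
          split_ifs with hkl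
          · subst hkl
            have h3 : ∀ j : ℕ, ci ((((k : ℤ) - k : ℤ) : ℝ) * (θ - 2 * Real.pi * j / N)) = 1 := by
              intro j
              rw [sub_self, Int.cast_zero, zero_mul]
              unfold ci
              simp
            simp only [h3]
            rw [Finset.sum_const, Finset.card_range, nsmul_eq_mul, mul_one]
          · refine root N hN ((k : ℤ) - l) ?_ ?_ θ
            · rw [Finset.mem_range] at hk hl
              rw [abs_lt]
              omega
            · omega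
        rw [Finset.sum_congr rfl h2, Finset.sum_ite_eq, if_pos hk]
      rw [Finset.sum_congr rfl h1, Finset.sum_const, Finset.card_range, nsmul_eq_mul]
      push_cast
      field_simp
    exact_mod_cast h
  · intro m ψ hm
    have h1 : ∀ θ : ℝ, (fej N (θ - ψ) : ℂ) * ci (m * θ) = (N : ℂ)⁻¹ *
        ∑ k ∈ Finset.range N, ∑ l ∈ Finset.range N,
          ci (-((((k : ℤ) - l : ℤ) : ℝ) * ψ)) * ci ((((k : ℤ) - l + m : ℤ) : ℝ) * θ) := by
      intro θ
      rw [fej_eq, mul_assoc, Finset.sum_mul]
      congr 1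
      refine Finset.sum_congr rfl fun k _ => ?_
      rw [Finset.sum_mul]
      refine Finset.sum_congr rfl fun l _ => ?_
      rw [← ci_add, ← ci_add]
      congr 1
      push_cast
      ring
    simp only [h1]
    rw [intervalIntegral.integral_const_mul]
    have hc : ∀ (k l : ℕ), Continuous (fun θ : ℝ =>
        ci (-((((k : ℤ) - l : ℤ) : ℝ) * ψ)) * ci ((((k : ℤ) - l + m : ℤ) : ℝ) * θ)) := by
      intro k l
      exact continuous_const.mul (ci_cont.comp (continuous_const.mul continuous_id))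
    rw [intervalIntegral.integral_finset_sum]
    · rw [Finset.sum_eq_zero, mul_zero]
      intro k hk
      rw [intervalIntegral.integral_finset_sum]
      · refine Finset.sum_eq_zero fun l hl => ?_
        rw [intervalIntegral.integral_const_mul, int0, mul_zero]
        rw [Finset.mem_range] at hk hl
        intro h0
        have : |m| < N := by
          rw [abs_lt]
          omega
        omega
      · intro l _
        exact (hc k l).intervalIntegrable _ _
    · intro k _
      exact (continuous_finset_sum _ fun l _ => hc k l).intervalIntegrable _ _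

end Pool.Agent.CRW
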