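import Pool.Agent.CRW.Targets4
import Pool.Agent.CRN.P_SERN
import Pool.Agent.CRL.P_MM

set_option autoImplicit false

/-!
# CRW: one circle (target FIA)
-/

namespace Pool.Agent.CRW

open MeasureTheory FourierTransform Set Filter Topology
open scoped ENNReal NNReal ComplexConjugate
open Pool.Agent.MBS (E ex S Sstar)
open Pool.Agent.CRN (ci SH S1 Nice T_CARLS T_POLN T_DSN T_OFFN T_SHL)
open Pool.Agent.CRL (ev rot amode T_MODA T_MODB T_POLC)

namespace FIA_

open Pool.Agent.CRN.SERN_ (S_cont ex_c ex_cont2 ex_norm)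
open Pool.Agent.CRL.MM_ (cont_ev ev_norm)

lemma two_mul_le (a b : ℝ≥0∞) : 2 * a * b ≤ a ^ 2 + b ^ 2 := by
  rcases le_total a b with h | h
  · obtain ⟨d, rfl⟩ := exists_add_of_le h
    calc 2 * a * (a + d) ≤ 2 * a * (a + d) + d ^ 2 := le_self_add
      _ = a ^ 2 + (a + d) ^ 2 := by ring
  · obtain ⟨d, rfl⟩ := exists_add_of_le h
    calc 2 * (b + d) * b ≤ 2 * (b + d) * b + d ^ 2 := le_self_add
      _ = (b + d) ^ 2 + b ^ 2 := by ring

lemma three (a b c : ℝ≥0∞) : (a + b + c) ^ 2 ≤ 3 * a ^ 2 + 3 * b ^ 2 + 3 * c ^ 2 := by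
  have h1 := two_mul_le a b
  have h2 := two_mul_le b c
  have h3 := two_mul_le a c
  calc (a + b + c) ^ 2 = a ^ 2 + b ^ 2 + c ^ 2 + 2 * a * b + 2 * b * c + 2 * a * c := by ring
    _ ≤ a ^ 2 + b ^ 2 + c ^ 2 + (a ^ 2 + b ^ 2) + (b ^ 2 + c ^ 2) + (a ^ 2 + c ^ 2) :=
        add_le_add (add_le_add (add_le_add le_rfl h1) h2) h3
    _ = _ := by ring

lemma rk_pos (N : ℕ) (k : ℤ) : 0 < rk N k := Real.exp_pos _

lemma F_int {f : E 2 → ℂ} (hf : Nice f) (R : ℝ) :
    IntegrableOn (𝓕 f) (Metric.closedBall (0 : E 2) R) :=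
  (Pool.Agent.CRN.SERN_.fc hf.int).continuousOn.integrableOn_compact (isCompact_closedBall _ _)

lemma F_int' {f : E 2 → ℂ} (hf : Nice f) (x : E 2) (R : ℝ) :
    IntegrableOn (fun ξ => 𝓕 f ξ * ex x ξ) (Metric.closedBall (0 : E 2) R) :=
  ((Pool.Agent.CRN.SERN_.fc hf.int).mul (ex_c x)).continuousOn.integrableOn_compact
    (isCompact_closedBall _ _)

lemma meas_ann (a b : ℝ) : MeasurableSet {ξ : E 2 | a < ‖ξ‖ ∧ ‖ξ‖ ≤ b} :=
  (measurableSet_lt measurable_const measurable_norm).inter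
    (measurableSet_le measurable_norm measurable_const)

lemma BI_cont {g : E 2 → ℂ} {R : ℝ} (hg : IntegrableOn g (Metric.closedBall (0 : E 2) R)) :
    Continuous (BI g R) := by
  refine continuous_of_dominated (F := fun x ξ => g ξ * ex x ξ) (bound := fun ξ => ‖g ξ‖)
    (fun x => ?_) (fun x => ae_of_all _ fun ξ => ?_) ?_ (ae_of_all _ fun ξ => ?_)
  · exact hg.1.mul (ex_c x).aestronglyMeasurable
  · rw [norm_mul, ex_norm, mul_one]
  · exact hg.norm
  · exact continuous_const.mul (ex_cont2.comp (continuous_id.prodMk continuous_const))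

lemma gk_int {f : E 2 → ℂ} (hf : Nice f) (N : ℕ) (k : ℤ) (R : ℝ) :
    IntegrableOn (gk N f k) (Metric.closedBall (0 : E 2) R) := by
  unfold gk
  exact (F_int hf R).indicator (meas_ann _ _)

/-- the splitting of a ball into a smaller ball and an annulus -/
lemma split {f : E 2 → ℂ} (hf : Nice f) (N : ℕ) (k : ℤ) {ρ : ℝ} (h1 : rk N k ≤ ρ)
    (h2 : ρ < rk N (k + 1)) (x : E 2) :
    S f ρ x = S f (rk N k) x + BI (gk N f k) ρ x := by
  have hsub : Metric.closedBall (0 : E 2) (rk N k) ⊆ Metric.closedBall (0 : E 2) ρ :=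
    Metric.closedBall_subset_closedBall h1
  have e1 := setIntegral_sdiff (μ := (volume : Measure (E 2)))
    (Metric.isClosed_closedBall (x := (0 : E 2)) (ε := rk N k)).measurableSet
    (F_int' hf x ρ) hsub
  have e2 : BI (gk N f k) ρ x = ∫ ξ in Metric.closedBall (0 : E 2) ρ \
      Metric.closedBall (0 : E 2) (rk N k), 𝓕 f ξ * ex x ξ := by
    have e3 : (fun ξ => gk N f k ξ * ex x ξ) =
        {ξ : E 2 | rk N k < ‖ξ‖ ∧ ‖ξ‖ ≤ rk N (k + 1)}.indicator (fun ξ => 𝓕 f ξ * ex x ξ) := by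
      funext ξ
      unfold gk
      by_cases h : ξ ∈ {ξ : E 2 | rk N k < ‖ξ‖ ∧ ‖ξ‖ ≤ rk N (k + 1)}
      · rw [indicator_of_mem h, indicator_of_mem h]
      · rw [indicator_of_notMem h, indicator_of_notMem h, zero_mul]
    unfold BI
    rw [e3, setIntegral_indicator (meas_ann _ _)]
    congr 2
    ext ξ
    simp only [mem_inter_iff, Set.mem_sdiff, Metric.mem_closedBall, dist_zero_right, mem_ofPred_eq,
      not_le]
    constructor
    · rintro ⟨h3, h4, -⟩
      exact ⟨h3, h4⟩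
    · rintro ⟨h3, h4⟩
      exact ⟨h3, h4, h3.trans h2.le⟩
  rw [e2, e1]
  unfold S
  ring

/-- splitting of an interval -/
lemma arcs (a : ℕ → ℝ) (ha : Monotone a) (G : ℝ → ℝ≥0∞) (n : ℕ) :
    ∫⁻ θ in Ioc (a 0) (a n), G θ = ∑ j ∈ Finset.range n, ∫⁻ θ in Ioc (a j) (a (j + 1)), G θ := by
  induction n with
  | zero => simp
  | succ n ih =>
    rw [Finset.sum_range_succ, ← ih,
      ← Ioc_union_Ioc_eq_Ioc (ha (Nat.zero_le n)) (ha (Nat.le_succ n)),
      lintegral_union measurableSet_Ioc]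
    exact Ioc_disjoint_Ioc_of_le le_rfl

end FIA_

open FIA_ in
open Pool.Agent.CRN.SERN_ (S_cont) in
open Pool.Agent.CRL.MM_ (cont_ev ev_norm) in
/-- **FIA** -/
theorem p_FIA (h1 : T_OCR) : T_FIA := by
  intro N A r f F P hN hA hr hf hF hP
  have hN0 : (0 : ℝ) < N := by exact_mod_cast hN
  have hpi := Real.pi_pos
  set a : ℕ → ℝ := fun j => -Real.pi + 2 * Real.pi * j / N with ha
  have ham : Monotone a := by
    intro i j hij
    simp only [ha]
    gcongr
  have ha0 : a 0 = -Real.pi := by simp [ha]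
  have haN : a N = Real.pi := by
    simp only [ha]
    field_simp
    ring
  have has : ∀ j : ℕ, a (j + 1) = -Real.pi + 2 * Real.pi * (j + 1) / N := by
    intro j
    simp only [ha]
    push_cast
    rfl
  have hsplit : ∀ G : ℝ → ℝ≥0∞, ∫⁻ θ in Ioc (-Real.pi) Real.pi, G θ =
      ∑ j ∈ Finset.range N, ∫⁻ θ in Ioc (a j) (a (j + 1)), G θ := by
    intro G
    rw [← arcs a ham G N, ha0, haN]
  have hxr : ∀ θ : ℝ, ‖r • ev θ‖ = r := by
    intro θ
    rw [norm_smul, ev_norm, mul_one, Real.norm_of_nonneg hr.le]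
  have hcev : Continuous fun θ : ℝ => r • ev θ := cont_ev.const_smul r
  set s : ℝ → ℝ≥0∞ := fun θ => ⨆ k : ℤ, ‖S f (rk N k) (r • ev θ)‖ₑ with hs
  have hsm : Measurable s := by
    refine Measurable.iSup fun k => ?_
    exact ((S_cont hf.int (rk N k)).comp hcev).measurable.enorm
  have hBm : ∀ (k : ℤ) (ρ : ℝ), Measurable fun θ : ℝ => ‖BI (gk N f k) ρ (r • ev θ)‖ₑ ^ 2 :=
    fun k ρ => ((BI_cont (gk_int hf N k ρ)).comp hcev).measurable.enorm.pow_const 2
  -- one arc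
  have harc : ∀ j ∈ Finset.range N, ∫⁻ θ in Ioc (a j) (a (j + 1)),
      P.indicator (fun θ => ‖S f (F θ) (r • ev θ)‖ₑ ^ 2) θ ≤
      3 * (∫⁻ θ in Ioc (a j) (a (j + 1)), s θ ^ 2) +
      6 * (∑' k : ℤ, ⨆ (R : ℝ) (_ : 0 < R), ∫⁻ θ in Ioc (a j) (a (j + 1)),
        ‖BI (gk N f k) R (r • ev θ)‖ₑ ^ 2) +
      3 * ∫⁻ θ in Ioc (a j) (a (j + 1)), OW A f (r • ev θ) ^ 2 := by
    intro j _
    obtain ⟨ρ, hρ1, hρ2⟩ := h1 N (A / r) (a j) (a (j + 1)) F P hN (by positivity) (by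
      rw [has]
      simp only [ha]
      apply le_of_eq
      ring) hF hP
    set b : ℤ → ℝ → ℝ≥0∞ := fun k θ => ‖BI (gk N f k) (ρ k true) (r • ev θ)‖ₑ ^ 2 +
      ‖BI (gk N f k) (ρ k false) (r • ev θ)‖ₑ ^ 2 with hb
    have hbm : ∀ k, Measurable (b k) := fun k => (hBm k _).add (hBm k _)
    have hpt : ∀ θ ∈ Ioc (a j) (a (j + 1)),
        P.indicator (fun θ => ‖S f (F θ) (r • ev θ)‖ₑ ^ 2) θ ≤
          3 * s θ ^ 2 + 3 * (∑' k, b k θ) + 3 * OW A f (r • ev θ) ^ 2 := by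
      intro θ hθ
      by_cases hPθ : θ ∈ P
      · rw [indicator_of_mem hPθ]
        obtain ⟨k, t, hkt⟩ := hρ2 θ hPθ hθ.1 hθ.2
        obtain ⟨hk1, hk2⟩ := hρ1 k t
        have hρpos : 0 < ρ k t := (rk_pos N k).trans_le hk1
        have e1 : ‖S f (F θ) (r • ev θ) - S f (ρ k t) (r • ev θ)‖ₑ ≤ OW A f (r • ev θ) := by
          unfold OW
          have hadm : 0 < F θ ∧ 0 < ρ k t ∧ |F θ - ρ k t| ≤ A / ‖r • ev θ‖ :=
            ⟨hF θ, hρpos, by rw [hxr]; exact hkt⟩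
          exact le_iSup_of_le (F θ) (le_iSup_of_le (ρ k t) (le_iSup_of_le hadm le_rfl))
        have e2 : ‖S f (rk N k) (r • ev θ)‖ₑ ≤ s θ :=
          le_iSup (fun k : ℤ => ‖S f (rk N k) (r • ev θ)‖ₑ) k
        have e3 : ‖BI (gk N f k) (ρ k t) (r • ev θ)‖ₑ ^ 2 ≤ ∑' k, b k θ := by
          refine le_trans ?_ (ENNReal.le_tsum k)
          cases t with
          | true => exact le_self_add
          | false => exact le_add_self
        have e4 : S f (F θ) (r • ev θ) = S f (rk N k) (r • ev θ) +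
            BI (gk N f k) (ρ k t) (r • ev θ) +
            (S f (F θ) (r • ev θ) - S f (ρ k t) (r • ev θ)) := by
          rw [split hf N k hk1 hk2]
          ring
        calc ‖S f (F θ) (r • ev θ)‖ₑ ^ 2
            ≤ (‖S f (rk N k) (r • ev θ)‖ₑ + ‖BI (gk N f k) (ρ k t) (r • ev θ)‖ₑ +
              ‖S f (F θ) (r • ev θ) - S f (ρ k t) (r • ev θ)‖ₑ) ^ 2 := by
              refine pow_le_pow_left' ?_ 2
              calc ‖S f (F θ) (r • ev θ)‖ₑ = ‖S f (rk N k) (r • ev θ) +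
                    BI (gk N f k) (ρ k t) (r • ev θ) +
                    (S f (F θ) (r • ev θ) - S f (ρ k t) (r • ev θ))‖ₑ := by rw [← e4]
                _ ≤ _ := (enorm_add_le _ _).trans (add_le_add (enorm_add_le _ _) le_rfl)
          _ ≤ 3 * ‖S f (rk N k) (r • ev θ)‖ₑ ^ 2 +
              3 * ‖BI (gk N f k) (ρ k t) (r • ev θ)‖ₑ ^ 2 +
              3 * ‖S f (F θ) (r • ev θ) - S f (ρ k t) (r • ev θ)‖ₑ ^ 2 := three _ _ _
          _ ≤ _ := by gcongr
      · rw [indicator_of_notMem hPθ]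
        exact zero_le
    have hbi : ∫⁻ θ in Ioc (a j) (a (j + 1)), 3 * ∑' k, b k θ ≤
        6 * (∑' k : ℤ, ⨆ (R : ℝ) (_ : 0 < R), ∫⁻ θ in Ioc (a j) (a (j + 1)),
          ‖BI (gk N f k) R (r • ev θ)‖ₑ ^ 2) := by
      rw [lintegral_const_mul' _ _ (by norm_num), lintegral_tsum fun k => (hbm k).aemeasurable]
      calc 3 * ∑' k : ℤ, ∫⁻ θ in Ioc (a j) (a (j + 1)), b k θ
          ≤ 3 * ∑' k : ℤ, 2 * ⨆ (R : ℝ) (_ : 0 < R), ∫⁻ θ in Ioc (a j) (a (j + 1)),
            ‖BI (gk N f k) R (r • ev θ)‖ₑ ^ 2 := by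
            gcongr with k
            rw [hb, lintegral_add_left (hBm k _), two_mul]
            refine add_le_add ?_ ?_
            · exact le_iSup₂_of_le (f := fun (R : ℝ) (_ : 0 < R) =>
                ∫⁻ θ in Ioc (a j) (a (j + 1)), ‖BI (gk N f k) R (r • ev θ)‖ₑ ^ 2)
                (ρ k true) ((rk_pos N k).trans_le (hρ1 k true).1) le_rfl
            · exact le_iSup₂_of_le (f := fun (R : ℝ) (_ : 0 < R) =>
                ∫⁻ θ in Ioc (a j) (a (j + 1)), ‖BI (gk N f k) R (r • ev θ)‖ₑ ^ 2)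
                (ρ k false) ((rk_pos N k).trans_le (hρ1 k false).1) le_rfl
        _ = _ := by
            rw [ENNReal.tsum_mul_left, ← mul_assoc]
            norm_num
    calc ∫⁻ θ in Ioc (a j) (a (j + 1)), P.indicator (fun θ => ‖S f (F θ) (r • ev θ)‖ₑ ^ 2) θ
        ≤ ∫⁻ θ in Ioc (a j) (a (j + 1)),
          (3 * s θ ^ 2 + 3 * (∑' k, b k θ) + 3 * OW A f (r • ev θ) ^ 2) :=
          setLIntegral_mono' measurableSet_Ioc hpt
      _ = (∫⁻ θ in Ioc (a j) (a (j + 1)), 3 * s θ ^ 2) +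
          (∫⁻ θ in Ioc (a j) (a (j + 1)), 3 * (∑' k, b k θ)) +
          ∫⁻ θ in Ioc (a j) (a (j + 1)), 3 * OW A f (r • ev θ) ^ 2 := by
          have m1 : Measurable fun θ => 3 * s θ ^ 2 := (hsm.pow_const 2).const_mul _
          have m2 : Measurable fun θ => 3 * (∑' k, b k θ) :=
            (Measurable.tsum hbm).const_mul _
          have m3 : Measurable fun θ => 3 * s θ ^ 2 + 3 * (∑' k, b k θ) := m1.add m2
          rw [lintegral_add_left m3, lintegral_add_left m1]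
      _ ≤ _ := by
          refine add_le_add (add_le_add (le_of_eq ?_) hbi) (le_of_eq ?_)
          · rw [lintegral_const_mul' _ _ (by norm_num)]
          · rw [lintegral_const_mul' _ _ (by norm_num)]
  calc ∫⁻ θ in Ioc (-Real.pi) Real.pi, P.indicator (fun θ => ‖S f (F θ) (r • ev θ)‖ₑ ^ 2) θ
      = ∑ j ∈ Finset.range N, ∫⁻ θ in Ioc (a j) (a (j + 1)),
        P.indicator (fun θ => ‖S f (F θ) (r • ev θ)‖ₑ ^ 2) θ := hsplit _
    _ ≤ ∑ j ∈ Finset.range N, (3 * (∫⁻ θ in Ioc (a j) (a (j + 1)), s θ ^ 2) +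
        6 * (∑' k : ℤ, ⨆ (R : ℝ) (_ : 0 < R), ∫⁻ θ in Ioc (a j) (a (j + 1)),
          ‖BI (gk N f k) R (r • ev θ)‖ₑ ^ 2) +
        3 * ∫⁻ θ in Ioc (a j) (a (j + 1)), OW A f (r • ev θ) ^ 2) := Finset.sum_le_sum harc
    _ = _ := by
        rw [Finset.sum_add_distrib, Finset.sum_add_distrib, ← Finset.mul_sum, ← Finset.mul_sum,
          ← Finset.mul_sum, ← hsplit, ← hsplit,
          ← Summable.tsum_finsetSum fun _ _ => ENNReal.summable]
        congr 3
        refine tsum_congr fun k => ?_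
        unfold AS
        refine Finset.sum_congr rfl fun j _ => ?_
        rw [has]

end Pool.Agent.CRW
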