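import Pool.Agent.CRW.Targets3
import Pool.Agent.CRR.P_RCH

set_option autoImplicit false

/-!
# CRW-ARL: radii which are nearly constant on arcs, the final theorem
-/

namespace Pool.Agent.CRW

open MeasureTheory FourierTransform Set Filter Topology
open scoped ENNReal NNReal ComplexConjugate
open Pool.Agent.MBS (E ex S Sstar)
open Pool.Agent.CRN (Nice T_CARLS)
open Pool.Agent.CRL (ev T_POLC)
open Pool.Agent.CRR (T_HANK T_OSC)

namespace ARL_

/-- the angle -/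
noncomputable def ang (x : E 2) : ℝ := Complex.arg ((x 0 : ℂ) + (x 1 : ℂ) * Complex.I)

lemma ang_meas : Measurable ang := by
  unfold ang
  refine Complex.measurable_arg.comp ?_
  exact (by fun_prop : Continuous fun x : E 2 => (x 0 : ℂ) + (x 1 : ℂ) * Complex.I).measurable

lemma ang_ev {r θ : ℝ} (hr : 0 < r) (hθ : θ ∈ Ioc (-Real.pi) Real.pi) : ang (r • ev θ) = θ := by
  have h : (((r • ev θ : E 2) 0 : ℝ) : ℂ) + (((r • ev θ : E 2) 1 : ℝ) : ℂ) * Complex.I =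
      (r : ℂ) * (Complex.cos θ + Complex.sin θ * Complex.I) := by
    simp [ev]
    ring
  unfold ang
  rw [h, Complex.arg_mul_cos_add_sin_mul_I hr hθ]

lemma norm_ev {r : ℝ} (hr : 0 ≤ r) (θ : ℝ) : ‖r • ev θ‖ = r := by
  rw [norm_smul, Real.norm_of_nonneg hr]
  have h : ‖ev θ‖ = 1 := by
    rw [EuclideanSpace.norm_eq, Fin.sum_univ_two]
    simp [ev]
  rw [h, mul_one]

lemma eq_ev (x : E 2) : x = ‖x‖ • ev (ang x) := by
  obtain ⟨z, hz⟩ : ∃ z : ℂ, z = (x 0 : ℂ) + (x 1 : ℂ) * Complex.I := ⟨_, rfl⟩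
  have hn : ‖z‖ = ‖x‖ := by
    rw [hz, Complex.norm_add_mul_I, EuclideanSpace.norm_eq, Fin.sum_univ_two]
    simp
  have ha : ang x = z.arg := by
    rw [hz]
    rfl
  have h0 := Complex.norm_mul_cos_arg z
  have h1 := Complex.norm_mul_sin_arg z
  rw [← hn, ha]
  ext i
  fin_cases i
  · simp only [ev, PiLp.smul_apply, smul_eq_mul]
    simp
    rw [hz]
    simp
  · simp only [ev, PiLp.smul_apply, smul_eq_mul]
    simp
    rw [hz]
    simp

/-- the ends of the arcs -/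
noncomputable def ee (M : ℕ) (j : ℕ) : ℝ := -Real.pi + 2 * Real.pi * j / M

lemma ee_le {M : ℕ} (hM : 1 ≤ M) (j : ℕ) (hj : j + 1 ≤ M) : -Real.pi ≤ ee M j ∧
    ee M (j + 1) ≤ Real.pi := by
  have hM0 : (0 : ℝ) < M := by exact_mod_cast hM
  have hpi := Real.pi_pos
  unfold ee
  constructor
  · have : 0 ≤ 2 * Real.pi * j / M := by positivity
    linarith
  · have h1 : 2 * Real.pi * ((j + 1 : ℕ) : ℝ) / M ≤ 2 * Real.pi := by
      rw [div_le_iff₀ hM0]
      have : ((j + 1 : ℕ) : ℝ) ≤ M := by exact_mod_cast hj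
      nlinarith
    linarith

/-- every angle is on an arc -/
lemma exists_arc {M : ℕ} (hM : 1 ≤ M) {φ : ℝ} (h : φ ∈ Ioc (-Real.pi) Real.pi) :
    ∃ j < M, φ ∈ Ioc (ee M j) (ee M (j + 1)) := by
  have hM0 : (0 : ℝ) < M := by exact_mod_cast hM
  have hpi := Real.pi_pos
  have hy : 0 < (φ + Real.pi) * M / (2 * Real.pi) := by
    have : 0 < φ + Real.pi := by linarith [h.1]
    positivity
  obtain ⟨y, hy'⟩ : ∃ y : ℝ, y = (φ + Real.pi) * M / (2 * Real.pi) := ⟨_, rfl⟩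
  rw [← hy'] at hy
  have hyM : y ≤ M := by
    rw [hy', div_le_iff₀ (by positivity)]
    have : φ + Real.pi ≤ 2 * Real.pi := by linarith [h.2]
    nlinarith
  have hφ : φ = -Real.pi + 2 * Real.pi * y / M := by
    rw [hy']
    field_simp
    ring
  have hc1 : 0 < ⌈y⌉₊ := Nat.ceil_pos.2 hy
  have hc2 : ⌈y⌉₊ ≤ M := Nat.ceil_le.2 hyM
  refine ⟨⌈y⌉₊ - 1, by omega, ?_, ?_⟩
  · rw [hφ]
    unfold ee
    have h1 : ((⌈y⌉₊ - 1 : ℕ) : ℝ) < y := Nat.lt_ceil.1 (by omega)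
    have h2 : 2 * Real.pi * ((⌈y⌉₊ - 1 : ℕ) : ℝ) / M < 2 * Real.pi * y / M := by gcongr
    linarith
  · rw [hφ]
    unfold ee
    have h1 : y ≤ ((⌈y⌉₊ - 1 + 1 : ℕ) : ℝ) := by
      rw [Nat.sub_add_cancel hc1]
      exact Nat.le_ceil y
    have h2 : 2 * Real.pi * y / M ≤ 2 * Real.pi * ((⌈y⌉₊ - 1 + 1 : ℕ) : ℝ) / M := by gcongr
    linarith

/-- one of the two ends of the arc is good -/
lemma ends {N : ℕ} (hN : 1 ≤ N) {A : ℝ} {R : E 2 → ℝ}
    (hR : ∀ r φ : ℝ, 0 < r → ∃ a b : ℝ, a ≤ φ ∧ φ < b ∧ 2 * Real.pi / N ≤ b - a ∧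
      ∀ ψ : ℝ, a ≤ ψ → ψ < b → |R (r • ev ψ) - R (r • ev φ)| ≤ A / r) {r φ : ℝ} (hr : 0 < r)
    {j : ℕ} (hφ : φ ∈ Ioc (ee (2 * N) j) (ee (2 * N) (j + 1))) :
    |R (r • ev φ) - R (r • ev (ee (2 * N) j))| ≤ A / r ∨
      |R (r • ev φ) - R (r • ev (ee (2 * N) (j + 1)))| ≤ A / r := by
  obtain ⟨a, b, hab, hφb, hlen, H⟩ := hR r φ hr
  have hN0 : (0 : ℝ) < N := by exact_mod_cast hN
  have hpi := Real.pi_pos
  have hdiff : ee (2 * N) (j + 1) = ee (2 * N) j + Real.pi / N := by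
    unfold ee
    push_cast
    field_simp
    ring
  by_cases h : a ≤ ee (2 * N) j
  · left
    rw [abs_sub_comm]
    exact H _ h (lt_trans hφ.1 hφb)
  · right
    rw [abs_sub_comm]
    refine H _ (hab.trans hφ.2) ?_
    rw [hdiff]
    have h1 : 2 * Real.pi / N = Real.pi / N + Real.pi / N := by ring
    have h2 : 0 < Real.pi / N := by positivity
    have h3 := not_le.1 h
    linarith

/-- the two values on the arc of `x` -/
noncomputable def KF (f : E 2 → ℂ) (R : E 2 → ℝ) (M : ℕ) (x : E 2) : ℝ≥0∞ :=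
  ∑ j ∈ Finset.range M, {x : E 2 | ang x ∈ Ioc (ee M j) (ee M (j + 1))}.indicator
    (fun x => ‖S f (R (‖x‖ • ev (ee M j))) x‖ₑ ^ 2 +
      ‖S f (R (‖x‖ • ev (ee M (j + 1)))) x‖ₑ ^ 2) x

lemma S_meas' {f : E 2 → ℂ} (hf : Nice f) {R : E 2 → ℝ} (hR : Measurable R) (θ : ℝ) :
    Measurable (fun x : E 2 => ‖S f (R (‖x‖ • ev θ)) x‖ₑ ^ 2) := by
  have h1 : Measurable (fun x : E 2 => R (‖x‖ • ev θ)) :=
    hR.comp (by fun_prop)
  exact ((Pool.Agent.CRR.RCH_.S_meas hf.int h1).enorm.pow_const 2)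

lemma KF_meas {f : E 2 → ℂ} (hf : Nice f) {R : E 2 → ℝ} (hR : Measurable R) (M : ℕ) :
    Measurable (KF f R M) := by
  unfold KF
  refine Finset.measurable_sum _ fun j _ => ?_
  refine Measurable.indicator ?_ (ang_meas measurableSet_Ioc)
  exact (S_meas' hf hR _).add (S_meas' hf hR _)

/-- the supremum on an arc -/
noncomputable def sj (f : E 2 → ℂ) (M : ℕ) (r : ℝ) (j : ℕ) : ℝ≥0∞ :=
  ⨆ (R : ℝ) (_ : 0 < R), ∫⁻ θ in Ioc (ee M j) (ee M (j + 1)), ‖S f R (r • ev θ)‖ₑ ^ 2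

lemma inner_le {f : E 2 → ℂ} (hf : Nice f) {R : E 2 → ℝ}
    (hR0 : ∀ x, 0 < R x) {M : ℕ} {r : ℝ} (hr : 0 < r) :
    ∫⁻ θ in Ioc (-Real.pi) Real.pi, ENNReal.ofReal r * KF f R M (r • ev θ) ≤
      2 * ((∑ j ∈ Finset.range M, sj f M r j) * ENNReal.ofReal r) := by
  have hSm : ∀ c : ℝ, Measurable (fun θ : ℝ => ‖S f c (r • ev θ)‖ₑ ^ 2) := by
    intro c
    have h1 : Measurable (fun x : E 2 => S f c x) :=
      Pool.Agent.CRR.RCH_.S_meas hf.int (measurable_const (a := c))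
    have h2 : Measurable (fun θ : ℝ => r • ev θ) := by
      have h3 : (fun θ : ℝ => r • ev θ) = fun θ => !₂[r * Real.cos θ, r * Real.sin θ] := by
        funext θ
        ext i
        fin_cases i <;> simp [ev]
      rw [h3]
      exact (by fun_prop : Continuous fun θ : ℝ =>
        (!₂[r * Real.cos θ, r * Real.sin θ] : E 2)).measurable
    exact (h1.comp h2).enorm.pow_const 2
  rw [lintegral_const_mul' _ _ ENNReal.ofReal_ne_top]
  have h1 : ∫⁻ θ in Ioc (-Real.pi) Real.pi, KF f R M (r • ev θ) ≤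
      ∑ j ∈ Finset.range M, (sj f M r j + sj f M r j) := by
    have h2 : ∫⁻ θ in Ioc (-Real.pi) Real.pi, KF f R M (r • ev θ) =
        ∫⁻ θ in Ioc (-Real.pi) Real.pi, ∑ j ∈ Finset.range M,
          (Ioc (ee M j) (ee M (j + 1))).indicator
            (fun θ => ‖S f (R (r • ev (ee M j))) (r • ev θ)‖ₑ ^ 2 +
              ‖S f (R (r • ev (ee M (j + 1)))) (r • ev θ)‖ₑ ^ 2) θ := by
      refine setLIntegral_congr_fun measurableSet_Ioc fun θ hθ => ?_
      unfold KF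
      refine Finset.sum_congr rfl fun j _ => ?_
      by_cases h : θ ∈ Ioc (ee M j) (ee M (j + 1))
      · have h' : r • ev θ ∈ {x : E 2 | ang x ∈ Ioc (ee M j) (ee M (j + 1))} := by
          show ang (r • ev θ) ∈ Ioc (ee M j) (ee M (j + 1))
          rwa [ang_ev hr hθ]
        rw [indicator_of_mem h, indicator_of_mem h', norm_ev hr.le]
      · have h' : r • ev θ ∉ {x : E 2 | ang x ∈ Ioc (ee M j) (ee M (j + 1))} := by
          show ¬ ang (r • ev θ) ∈ Ioc (ee M j) (ee M (j + 1))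
          rwa [ang_ev hr hθ]
        rw [indicator_of_notMem h, indicator_of_notMem h']
    have hmj : ∀ j ∈ Finset.range M, Measurable ((Ioc (ee M j) (ee M (j + 1))).indicator
        (fun θ => ‖S f (R (r • ev (ee M j))) (r • ev θ)‖ₑ ^ 2 +
          ‖S f (R (r • ev (ee M (j + 1)))) (r • ev θ)‖ₑ ^ 2)) :=
      fun j _ => ((hSm _).add (hSm _)).indicator measurableSet_Ioc
    rw [h2, lintegral_finsetSum _ hmj]
    refine Finset.sum_le_sum fun j _ => ?_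
    refine (lintegral_mono' Measure.restrict_le_self le_rfl).trans ?_
    rw [lintegral_indicator measurableSet_Ioc, lintegral_add_left (hSm _)]
    exact add_le_add (le_iSup₂_of_le _ (hR0 _) le_rfl) (le_iSup₂_of_le _ (hR0 _) le_rfl)
  calc ENNReal.ofReal r * ∫⁻ θ in Ioc (-Real.pi) Real.pi, KF f R M (r • ev θ)
      ≤ ENNReal.ofReal r * ∑ j ∈ Finset.range M, (sj f M r j + sj f M r j) := by gcongr
    _ = 2 * ((∑ j ∈ Finset.range M, sj f M r j) * ENNReal.ofReal r) := by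
        rw [Finset.sum_add_distrib]
        ring

lemma LL_two {N : ℕ} (hN : 1 ≤ N) : LL (2 * N) ^ 12 ≤ 4096 * LL N ^ 12 := by
  have hN0 : (1 : ℝ) ≤ N := by exact_mod_cast hN
  have hl : 0 ≤ Real.log N := Real.log_nonneg hN0
  have h1 : Real.log ((2 * N : ℕ) : ℝ) = Real.log 2 + Real.log N := by
    push_cast
    rw [Real.log_mul (by norm_num) (by linarith)]
  have h2 : Real.log 2 ≤ 1 := by
    have := Real.log_two_lt_d9
    linarith
  have h20 : 0 ≤ Real.log 2 := Real.log_nonneg (by norm_num)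
  have h3 : LL (2 * N) ≤ 2 * LL N := by
    unfold LL
    rw [h1]
    have h4 : 2 * Real.log (3 + Real.log N) = Real.log ((3 + Real.log N) ^ 2) := by
      rw [Real.log_pow]
      norm_num
    rw [h4]
    exact Real.log_le_log (by linarith) (by nlinarith)
  have h5 : 0 ≤ LL (2 * N) := by
    unfold LL
    rw [h1]
    exact Real.log_nonneg (by linarith)
  calc LL (2 * N) ^ 12 ≤ (2 * LL N) ^ 12 := pow_le_pow_left₀ h5 h3 12
    _ = 4096 * LL N ^ 12 := by ring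

end ARL_

open ARL_ in
theorem p_ARL (h1 : T_ARM) (h2 : Pool.Agent.CRR.T_OSC) (h3 : T_POLC) : T_ARL := by
  intro hD hH hC
  obtain ⟨C1, h1⟩ := h1 hD hH hC
  obtain ⟨C2, h2⟩ := h2 2 le_rfl
  refine ⟨16384 * C1 + 2 * C2, fun N A f R hN hA hf hR hR0 hosc => ?_⟩
  have hM : 1 ≤ 2 * N := by omega
  have a1 := h1 (2 * N) f hM hf
  have a2 := h2 A f hA hf
  have hpt : ∀ᵐ x : E 2, ‖S f (R x) x‖ₑ ^ 2 ≤ 2 * KF f R (2 * N) x +
      2 * (⨆ (R : ℝ) (R' : ℝ) (_ : 0 < R ∧ 0 < R' ∧ |R - R'| ≤ A / ‖x‖),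
        ‖S f R x - S f R' x‖ₑ) ^ 2 := by
    have h0 : ∀ᵐ x : E 2, x ≠ 0 := by
      rw [ae_iff]
      simp
    filter_upwards [h0] with x hx
    have hr : 0 < ‖x‖ := norm_pos_iff.2 hx
    have hang : ang x ∈ Ioc (-Real.pi) Real.pi := Complex.arg_mem_Ioc _
    obtain ⟨j, hj, hjx⟩ := exists_arc hM hang
    have hx' := eq_ev x
    have b0 : ∀ c : ℝ, 0 < c → |R x - c| ≤ A / ‖x‖ → ‖S f (R x) x‖ₑ ^ 2 ≤
        2 * ‖S f c x‖ₑ ^ 2 +
        2 * (⨆ (R : ℝ) (R' : ℝ) (_ : 0 < R ∧ 0 < R' ∧ |R - R'| ≤ A / ‖x‖),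
          ‖S f R x - S f R' x‖ₑ) ^ 2 := by
      intro c hc hcd
      have b1 : ‖S f (R x) x - S f c x‖ₑ ≤
          ⨆ (R : ℝ) (R' : ℝ) (_ : 0 < R ∧ 0 < R' ∧ |R - R'| ≤ A / ‖x‖),
            ‖S f R x - S f R' x‖ₑ :=
        le_iSup_of_le (R x) (le_iSup_of_le c (le_iSup_of_le ⟨hR0 x, hc, hcd⟩ le_rfl))
      have b2 : ‖S f (R x) x‖ₑ ≤ ‖S f c x‖ₑ + ‖S f (R x) x - S f c x‖ₑ := by
        have := enorm_add_le (S f c x) (S f (R x) x - S f c x)
        rwa [add_sub_cancel] at this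
      refine (pow_le_pow_left' (b2.trans (add_le_add le_rfl b1)) 2).trans ?_
      exact Pool.Agent.CRR.RCH_.sq_add _ _
    have hK : ‖S f (R (‖x‖ • ev (ee (2 * N) j))) x‖ₑ ^ 2 +
        ‖S f (R (‖x‖ • ev (ee (2 * N) (j + 1)))) x‖ₑ ^ 2 ≤ KF f R (2 * N) x := by
      unfold KF
      refine le_trans (le_of_eq ?_) (Finset.single_le_sum (fun i _ => bot_le)
        (Finset.mem_range.2 hj))
      rw [indicator_of_mem (by exact hjx)]
    rcases ends hN hosc hr hjx with h | h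
    · rw [← hx'] at h
      refine (b0 _ (hR0 _) h).trans ?_
      gcongr
      exact le_self_add.trans hK
    · rw [← hx'] at h
      refine (b0 _ (hR0 _) h).trans ?_
      gcongr
      exact le_add_self.trans hK
  have hm : Measurable (fun x : E 2 => 2 * KF f R (2 * N) x) :=
    (KF_meas hf hR _).const_mul 2
  have h4 : ∫⁻ x, ‖S f (R x) x‖ₑ ^ 2 ≤
      2 * (∫⁻ x, KF f R (2 * N) x) +
      2 * (∫⁻ x, (⨆ (R : ℝ) (R' : ℝ) (_ : 0 < R ∧ 0 < R' ∧ |R - R'| ≤ A / ‖x‖),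
        ‖S f R x - S f R' x‖ₑ) ^ 2) := by
    refine (lintegral_mono_ae hpt).trans ?_
    rw [lintegral_add_left hm, lintegral_const_mul' _ _ (by norm_num),
      lintegral_const_mul' _ _ (by norm_num)]
  have h5 : ∫⁻ x, KF f R (2 * N) x ≤
      2 * (C1 * ENNReal.ofReal (LL (2 * N) ^ 12) * ∫⁻ x, ‖f x‖ₑ ^ 2) := by
    rw [h3.1 _ (KF_meas hf hR _)]
    refine (setLIntegral_mono' measurableSet_Ioi fun r hr => inner_le hf hR0 hr).trans ?_
    rw [lintegral_const_mul' _ _ (by norm_num)]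
    gcongr
    refine le_trans (le_of_eq ?_) a1
    refine setLIntegral_congr_fun measurableSet_Ioi fun r hr => ?_
    simp only [sj, ee]
    push_cast
    rfl
  refine h4.trans ?_
  set L := ENNReal.ofReal (LL N ^ 12 + Real.log (2 + A) ^ 2) with hL
  set F := ∫⁻ x, ‖f x‖ₑ ^ 2 with hF
  have hLL : 0 ≤ LL N ^ 12 := by positivity
  have h6 : ENNReal.ofReal (LL (2 * N) ^ 12) ≤ 4096 * L := by
    have e : (4096 : ℝ≥0∞) = ENNReal.ofReal 4096 := by norm_num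
    rw [hL, e, ← ENNReal.ofReal_mul (by norm_num)]
    refine ENNReal.ofReal_le_ofReal ((LL_two hN).trans ?_)
    nlinarith [sq_nonneg (Real.log (2 + A))]
  have h7 : ENNReal.ofReal (Real.log (2 + A) ^ 2) ≤ L := by
    refine ENNReal.ofReal_le_ofReal ?_
    linarith
  calc 2 * (∫⁻ x, KF f R (2 * N) x) +
      2 * (∫⁻ x, (⨆ (R : ℝ) (R' : ℝ) (_ : 0 < R ∧ 0 < R' ∧ |R - R'| ≤ A / ‖x‖),
        ‖S f R x - S f R' x‖ₑ) ^ 2)
      ≤ 2 * (2 * (C1 * (4096 * L) * F)) + 2 * (C2 * L * F) := by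
        gcongr
        · exact h5.trans (by gcongr)
        · exact a2.trans (by gcongr)
    _ = ((16384 * C1 + 2 * C2 : ℝ≥0) : ℝ≥0∞) * L * F := by
        push_cast
        ring

end Pool.Agent.CRW
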