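import Pool.Agent.CRW.Targets3
import Pool.Agent.CRN.P_RMN

set_option autoImplicit false

/-! CRW-MWN: the maximal theorem for all windows of angular frequencies. -/

namespace Pool.Agent.CRW

open MeasureTheory FourierTransform Set Filter Topology
open scoped ENNReal NNReal ComplexConjugate
open Pool.Agent.MBS (E ex S Sstar)
open Pool.Agent.CRN (IN SH Nice T_CARLS)
open Pool.Agent.CRN.RMN_ (IN_cont An An_meas An_int S_sub planch0 fourier_cont)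
open Pool.Agent.CRL (ev rot amode T_MODA T_MODB)
open Pool.Agent.CRR (NSol T_HANK)

namespace MWN_

theorem to_L {f : E 2 → ℂ} (h : Nice f) : Pool.Agent.CRL.Nice f := ⟨h.meas, h.int, h.sq⟩

theorem nice_pv (h5 : T_MODA) {f : E 2 → ℂ} (hf : Nice f) (K : ℕ) (w : ℤ) :
    Nice (pv K w f) where
  meas := by
    unfold pv
    exact Finset.measurable_sum _ fun k _ => (h5 _ f (to_L hf)).1.meas
  int := by
    unfold pv
    exact integrable_finsetSum _ fun k _ => (h5 _ f (to_L hf)).1.int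
  sq := by
    unfold pv
    exact memLp_finsetSum _ fun k _ => (h5 _ f (to_L hf)).1.sq

/-- Parseval for one window -/
theorem int_pv (h6 : T_MODB) {f : E 2 → ℂ} (hf : Nice f) (K : ℕ) (w : ℤ) :
    ∫⁻ x, ‖pv K w f x‖ₑ ^ 2 = ∑ k ∈ Finset.range K, ∫⁻ x, ‖amode (w + k) f x‖ₑ ^ 2 := by
  have hinj : Set.InjOn (fun k : ℕ => (w + k : ℤ)) (Finset.range K) := by
    intro a _ b _ h
    simpa using h
  have h := (h6 f (to_L hf)).2.1 ((Finset.range K).image fun k : ℕ => (w + k : ℤ))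
  rw [Finset.sum_image hinj] at h
  rw [← h]
  refine lintegral_congr fun x => ?_
  rw [pv, Finset.sum_image hinj]

theorem tsum_windows (a : ℤ → ℝ≥0∞) {K : ℕ} (hK : 1 ≤ K) :
    ∑' w : ℤ, ∑ k ∈ Finset.range K, a (K * w + k) ≤ ∑' m, a m := by
  have hinj : Function.Injective (fun p : ℤ × Fin K => ((K : ℤ) * p.1 + (p.2 : ℕ) : ℤ)) := by
    rintro ⟨w, k⟩ ⟨w', k'⟩ h
    simp only at h
    have hK' : (0 : ℤ) < K := by exact_mod_cast hK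
    have h1 : ((k : ℕ) : ℤ) < K := by exact_mod_cast k.2
    have h2 : ((k' : ℕ) : ℤ) < K := by exact_mod_cast k'.2
    have h3 : (0 : ℤ) ≤ ((k : ℕ) : ℤ) := by positivity
    have h4 : (0 : ℤ) ≤ ((k' : ℕ) : ℤ) := by positivity
    have hw : w = w' := by
      rcases lt_trichotomy w w' with hlt | heq | hgt
      · exfalso
        have h5 : (K : ℤ) * (w + 1) ≤ K * w' := mul_le_mul_of_nonneg_left hlt hK'.le
        linarith
      · exact heq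
      · exfalso
        have h5 : (K : ℤ) * (w' + 1) ≤ K * w := mul_le_mul_of_nonneg_left hgt hK'.le
        linarith
    subst hw
    have hk : ((k : ℕ) : ℤ) = ((k' : ℕ) : ℤ) := by linarith
    have hk' : (k : ℕ) = (k' : ℕ) := by exact_mod_cast hk
    rw [Fin.ext hk']
  calc ∑' w : ℤ, ∑ k ∈ Finset.range K, a (K * w + k)
      = ∑' w : ℤ, ∑' k : Fin K, a (K * w + (k : ℕ)) := by
        refine tsum_congr fun w => ?_
        rw [tsum_fintype, Finset.sum_range]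
    _ = ∑' p : ℤ × Fin K, a ((K : ℤ) * p.1 + (p.2 : ℕ)) :=
        (ENNReal.tsum_prod (f := fun (w : ℤ) (k : Fin K) => a (K * w + (k : ℕ)))).symm
    _ ≤ ∑' m, a m := ENNReal.tsum_comp_le_tsum_of_injective hinj a

/-! ### pointwise decomposition -/

theorem two (a b : ℝ≥0∞) : (a + b) ^ 2 ≤ 2 * a ^ 2 + 2 * b ^ 2 := by
  have h := ENNReal.rpow_add_le_mul_rpow_add_rpow a b (p := 2) (by norm_num)
  norm_num at h
  rw [mul_add] at h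
  exact h

theorem sup_sq_le {ι : Type*} {p : ι → Prop} (f : ∀ i, p i → ℝ≥0∞) (L : ℝ≥0∞)
    (h : ∀ i (j : p i), f i j ^ 2 ≤ L) : (⨆ i, ⨆ j, f i j) ^ 2 ≤ L := by
  have hle : ∀ i (j : p i), f i j ≤ L ^ (1 / 2 : ℝ) := by
    intro i j
    have h1 := ENNReal.rpow_le_rpow (h i j) (by norm_num : (0 : ℝ) ≤ 1 / 2)
    rw [← ENNReal.rpow_natCast, ← ENNReal.rpow_mul] at h1
    norm_num at h1
    exact h1
  calc (⨆ i, ⨆ j, f i j) ^ 2 ≤ (L ^ (1 / 2 : ℝ)) ^ 2 := by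
        gcongr
        exact iSup₂_le hle
    _ = L := by
        rw [← ENNReal.rpow_natCast, ← ENNReal.rpow_mul]
        norm_num

/-- the oscillation between two radii -/
noncomputable def Dj (F : E 2 → ℂ) (R0 δ : ℝ) (x : E 2) : ℝ≥0∞ :=
  ⨆ (R : ℝ) (_ : R0 ≤ R ∧ R ≤ R0 * Real.exp δ), ‖S F R x - S F R0 x‖ₑ

theorem Dj_meas {F : E 2 → ℂ} (hF : Nice F) (R0 δ : ℝ) : Measurable (Dj F R0 δ) := by
  refine LowerSemicontinuous.measurable ?_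
  refine lowerSemicontinuous_iSup fun R => lowerSemicontinuous_iSup fun hR => ?_
  refine Continuous.lowerSemicontinuous ?_
  have h : (fun x => ‖S F R x - S F R0 x‖ₑ) =
      fun x => ‖IN ((An 2 R0 R).indicator (𝓕 F)) x‖ₑ := by
    funext x
    rw [S_sub (fourier_cont hF.int) hR.1]
  rw [h]
  exact (IN_cont (An_int (fourier_cont hF.int) _ _)).enorm

theorem point {F : E 2 → ℂ} {δ : ℝ} (hδ : 0 < δ) (x : E 2) :
    (⨆ (R : ℝ) (_ : 0 < R), ‖S F R x‖ₑ) ^ 2 ≤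
      2 * (⨆ R ∈ range (fun j : ℤ => Real.exp (δ * j)), ‖S F R x‖ₑ) ^ 2 +
      2 * ∑' j : ℤ, Dj F (Real.exp (δ * j)) δ x ^ 2 := by
  refine sup_sq_le _ _ fun R hR => ?_
  set j : ℤ := ⌊Real.log R / δ⌋ with hj
  have h1 : (j : ℝ) ≤ Real.log R / δ := Int.floor_le _
  have h2 : Real.log R / δ < j + 1 := Int.lt_floor_add_one _
  rw [le_div_iff₀ hδ] at h1
  rw [div_lt_iff₀ hδ] at h2
  have h3 : Real.exp (δ * j) ≤ R := by
    rw [← Real.le_log_iff_exp_le hR]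
    linarith
  have h4 : R ≤ Real.exp (δ * j) * Real.exp δ := by
    rw [← Real.exp_add, ← Real.log_le_iff_le_exp hR]
    linarith
  have h5 : ‖S F R x‖ₑ ≤ (⨆ R ∈ range (fun j : ℤ => Real.exp (δ * j)), ‖S F R x‖ₑ) +
      Dj F (Real.exp (δ * j)) δ x := by
    calc ‖S F R x‖ₑ = ‖S F (Real.exp (δ * j)) x + (S F R x - S F (Real.exp (δ * j)) x)‖ₑ := by
          rw [add_sub_cancel]
      _ ≤ ‖S F (Real.exp (δ * j)) x‖ₑ + ‖S F R x - S F (Real.exp (δ * j)) x‖ₑ := enorm_add_le _ _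
      _ ≤ _ := by
          refine add_le_add ?_ ?_
          · exact le_iSup₂ (f := fun (R : ℝ) (_ : R ∈ range (fun j : ℤ => Real.exp (δ * j))) =>
              ‖S F R x‖ₑ) (Real.exp (δ * j)) ⟨j, rfl⟩
          · exact le_iSup₂ (f := fun (R : ℝ) (_ : Real.exp (δ * j) ≤ R ∧
              R ≤ Real.exp (δ * j) * Real.exp δ) => ‖S F R x - S F (Real.exp (δ * j)) x‖ₑ)
              R ⟨h3, h4⟩
  calc ‖S F R x‖ₑ ^ 2 ≤ ((⨆ R ∈ range (fun j : ℤ => Real.exp (δ * j)), ‖S F R x‖ₑ) +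
      Dj F (Real.exp (δ * j)) δ x) ^ 2 := by gcongr
    _ ≤ 2 * (⨆ R ∈ range (fun j : ℤ => Real.exp (δ * j)), ‖S F R x‖ₑ) ^ 2 +
        2 * Dj F (Real.exp (δ * j)) δ x ^ 2 := two _ _
    _ ≤ _ := by
        gcongr
        exact ENNReal.le_tsum (f := fun j : ℤ => Dj F (Real.exp (δ * j)) δ x ^ 2) j

/-! ### sums over the annuli -/

theorem disj_Ioc {δ : ℝ} (hδ : 0 < δ) : Pairwise (Function.onFun Disjoint
    fun j : ℤ => Ioc (Real.exp (δ * j)) (Real.exp (δ * j) * Real.exp δ)) := by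
  have hm : Monotone fun j : ℤ => Real.exp (δ * j) := by
    intro a b hab
    have : (a : ℝ) ≤ b := by exact_mod_cast hab
    exact Real.exp_le_exp.2 (by nlinarith)
  have h := hm.pairwise_disjoint_on_Ioc_succ
  intro a b hab
  have h2 := h hab
  simp only [Function.onFun] at h2 ⊢
  have e : ∀ a : ℤ, Real.exp (δ * (Order.succ a : ℤ)) = Real.exp (δ * a) * Real.exp δ := by
    intro a
    rw [← Real.exp_add, Int.succ_eq_succ, Int.succ]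
    push_cast
    ring_nf
  rw [e, e] at h2
  exact h2

theorem sum_ann {δ : ℝ} (hδ : 0 < δ) (h : E 2 → ℝ≥0∞) :
    ∑' j : ℤ, ∫⁻ ξ in {ξ : E 2 | Real.exp (δ * j) ≤ ‖ξ‖ ∧ ‖ξ‖ ≤ Real.exp (δ * j) * Real.exp δ},
      h ξ ≤ ∫⁻ ξ, h ξ := by
  have hdis : Pairwise (Function.onFun Disjoint fun j : ℤ => (fun ξ : E 2 => ‖ξ‖) ⁻¹'
      Ioc (Real.exp (δ * j)) (Real.exp (δ * j) * Real.exp δ)) := fun a b hab =>
    (disj_Ioc hδ hab).preimage _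
  have hms : ∀ j : ℤ, MeasurableSet ((fun ξ : E 2 => ‖ξ‖) ⁻¹'
      Ioc (Real.exp (δ * j)) (Real.exp (δ * j) * Real.exp δ)) := fun j =>
    measurable_norm measurableSet_Ioc
  have h1 : ∀ j : ℤ, ∫⁻ ξ in {ξ : E 2 | Real.exp (δ * j) ≤ ‖ξ‖ ∧
      ‖ξ‖ ≤ Real.exp (δ * j) * Real.exp δ}, h ξ ≤ ∫⁻ ξ in (fun ξ : E 2 => ‖ξ‖) ⁻¹'
        Ioc (Real.exp (δ * j)) (Real.exp (δ * j) * Real.exp δ), h ξ := by
    intro j
    have hsub : {ξ : E 2 | Real.exp (δ * j) ≤ ‖ξ‖ ∧ ‖ξ‖ ≤ Real.exp (δ * j) * Real.exp δ} ⊆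
        ((fun ξ : E 2 => ‖ξ‖) ⁻¹' Ioc (Real.exp (δ * j)) (Real.exp (δ * j) * Real.exp δ)) ∪
          Metric.sphere (0 : E 2) (Real.exp (δ * j)) := by
      rintro ξ ⟨h1, h2⟩
      rcases h1.lt_or_eq with h3 | h3
      · exact Or.inl ⟨h3, h2⟩
      · exact Or.inr (by rw [mem_sphere_zero_iff_norm]; exact h3.symm)
    calc ∫⁻ ξ in {ξ : E 2 | Real.exp (δ * j) ≤ ‖ξ‖ ∧ ‖ξ‖ ≤ Real.exp (δ * j) * Real.exp δ}, h ξ
        ≤ ∫⁻ ξ in ((fun ξ : E 2 => ‖ξ‖) ⁻¹' Ioc (Real.exp (δ * j))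
          (Real.exp (δ * j) * Real.exp δ)) ∪ Metric.sphere (0 : E 2) (Real.exp (δ * j)), h ξ :=
          lintegral_mono_set hsub
      _ ≤ (∫⁻ ξ in (fun ξ : E 2 => ‖ξ‖) ⁻¹' Ioc (Real.exp (δ * j))
          (Real.exp (δ * j) * Real.exp δ), h ξ) +
          ∫⁻ ξ in Metric.sphere (0 : E 2) (Real.exp (δ * j)), h ξ := lintegral_union_le _ _ _
      _ = _ := by
          rw [setLIntegral_measure_zero _ _ (Measure.addHaar_sphere _ _ _), add_zero]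
  calc _ ≤ ∑' j : ℤ, ∫⁻ ξ in (fun ξ : E 2 => ‖ξ‖) ⁻¹'
        Ioc (Real.exp (δ * j)) (Real.exp (δ * j) * Real.exp δ), h ξ := ENNReal.tsum_le_tsum h1
    _ = ∫⁻ ξ in ⋃ j : ℤ, (fun ξ : E 2 => ‖ξ‖) ⁻¹'
        Ioc (Real.exp (δ * j)) (Real.exp (δ * j) * Real.exp δ), h ξ :=
        (lintegral_iUnion hms hdis _).symm
    _ ≤ ∫⁻ ξ, h ξ := setLIntegral_le_lintegral _ _

theorem sum_Ioc {δ : ℝ} (hδ : 0 < δ) (h : ℝ → ℝ≥0∞) :
    ∑' j : ℤ, ∫⁻ ρ in Ioc (Real.exp (δ * j)) (Real.exp (δ * j) * Real.exp δ), h ρ ≤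
      ∫⁻ ρ in Ioi (0 : ℝ), h ρ := by
  rw [← lintegral_iUnion (fun _ => measurableSet_Ioc) (disj_Ioc hδ)]
  refine lintegral_mono_set ?_
  intro ρ hρ
  obtain ⟨j, hj⟩ := mem_iUnion.1 hρ
  exact (Real.exp_pos _).trans hj.1

/-! ### the constants -/

theorem gap {δ : ℝ} (hδ : 0 < δ) (hδ1 : δ ≤ 1) : ∀ R ∈ range (fun j : ℤ => Real.exp (δ * j)),
    ∀ R' ∈ range (fun j : ℤ => Real.exp (δ * j)), R < R' → R + δ / 2 * R' ≤ R' := by
  rintro _ ⟨i, rfl⟩ _ ⟨j, rfl⟩ hlt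
  simp only at hlt ⊢
  have h1 : δ * (i : ℝ) < δ * j := Real.exp_lt_exp.1 hlt
  have h2 : (i : ℝ) < j := lt_of_mul_lt_mul_left h1 hδ.le
  have h3 : i < j := by exact_mod_cast h2
  have h4 : (i : ℝ) + 1 ≤ j := by exact_mod_cast h3
  have h5 : Real.exp (δ * i) ≤ Real.exp (-δ) * Real.exp (δ * j) := by
    rw [← Real.exp_add]
    exact Real.exp_le_exp.2 (by nlinarith)
  have h6 : Real.exp (-δ) ≤ 1 - δ / 2 := by
    have h7 : 1 + δ ≤ Real.exp δ := by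
      have := Real.add_one_le_exp δ
      linarith
    have h8 : Real.exp (-δ) * Real.exp δ = 1 := by rw [← Real.exp_add]; simp
    have h10 : 0 < Real.exp (-δ) := Real.exp_pos _
    have h11 : Real.exp (-δ) * (1 + δ) ≤ 1 :=
      (mul_le_mul_of_nonneg_left h7 h10.le).trans_eq h8
    have h12 : 1 ≤ (1 - δ / 2) * (1 + δ) := by nlinarith
    have h13 : Real.exp (-δ) * (1 + δ) ≤ (1 - δ / 2) * (1 + δ) := h11.trans h12
    exact le_of_mul_le_mul_right h13 (by linarith)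
  have h9 : 0 < Real.exp (δ * j) := Real.exp_pos _
  nlinarith [mul_le_mul_of_nonneg_right h6 h9.le]

theorem LL_one {K : ℕ} (hK : 1 ≤ K) : (1 : ℝ) ≤ LL K := by
  have hL : 0 ≤ Real.log K := Real.log_nonneg (by exact_mod_cast hK)
  unfold LL
  rw [Real.le_log_iff_exp_le (by positivity)]
  have := Real.exp_one_lt_d9
  linarith

theorem loglog {B : ℝ} (hB : 1 ≤ B) {K : ℕ} (hK : 1 ≤ K) :
    0 ≤ Real.log (3 + Real.log (Real.exp (-(100 * (B * (1 + Real.log K) ^ 2))) / 2)⁻¹) ∧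
    Real.log (3 + Real.log (Real.exp (-(100 * (B * (1 + Real.log K) ^ 2))) / 2)⁻¹) ≤
      (Real.log (104 * B) + 2) * LL K := by
  have hL : 0 ≤ Real.log K := Real.log_nonneg (by exact_mod_cast hK)
  have h7 := LL_one hK
  set L := Real.log K with hLdef
  have h1 : Real.log (Real.exp (-(100 * (B * (1 + L) ^ 2))) / 2)⁻¹ =
      Real.log 2 + 100 * (B * (1 + L) ^ 2) := by
    rw [Real.log_inv, Real.log_div (Real.exp_pos _).ne' (by norm_num), Real.log_exp]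
    ring
  have h2 : Real.log 2 ≤ 1 := by
    have := Real.log_two_lt_d9
    linarith
  have h20 : 0 < Real.log 2 := Real.log_pos (by norm_num : (1 : ℝ) < 2)
  have h3 : 3 + (Real.log 2 + 100 * (B * (1 + L) ^ 2)) ≤ 104 * B * (3 + L) ^ 2 := by
    have h4 : (1 : ℝ) ≤ B * (3 + L) ^ 2 := by
      nlinarith [mul_nonneg (sub_nonneg.2 hB) (sq_nonneg (3 + L))]
    have h5 : B * (1 + L) ^ 2 ≤ B * (3 + L) ^ 2 := by gcongr; norm_num
    nlinarith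
  have h50 : 0 ≤ B * (1 + L) ^ 2 := by positivity
  have h6 : 1 ≤ 3 + (Real.log 2 + 100 * (B * (1 + L) ^ 2)) := by linarith
  rw [h1]
  refine ⟨Real.log_nonneg h6, ?_⟩
  have h8 : 0 ≤ Real.log (104 * B) := Real.log_nonneg (by linarith)
  calc Real.log (3 + (Real.log 2 + 100 * (B * (1 + L) ^ 2)))
      ≤ Real.log (104 * B * (3 + L) ^ 2) := Real.log_le_log (by linarith) h3
    _ = Real.log (104 * B) + 2 * LL K := by
        rw [Real.log_mul (by positivity) (by positivity), Real.log_pow, LL, ← hLdef]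
        push_cast
        ring
    _ ≤ (Real.log (104 * B) + 2) * LL K := by nlinarith

/-! ### one window -/

/-- the weight of one mode -/
noncomputable def wt (G : ℤ → ℝ → ℂ) (m : ℤ) (ρ : ℝ) : ℝ≥0∞ := ‖G m ρ‖ₑ ^ 2 * ENNReal.ofReal ρ⁻¹

/-- near and far part of the oscillation -/
theorem osc {F : E 2 → ℂ} {R0 δ X : ℝ} {CA : ℝ≥0} {Y : ℝ≥0∞} (hR0 : 0 < R0) (hδ : 0 < δ)
    (hX : X = δ⁻¹)
    (hA : ∫⁻ x in Metric.closedBall (0 : E 2) (1 / (δ * R0)), Dj F R0 δ x ^ 2 ≤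
      CA * ∫⁻ ξ in {ξ : E 2 | R0 ≤ ‖ξ‖ ∧ ‖ξ‖ ≤ R0 * Real.exp δ}, ‖𝓕 F ξ‖ₑ ^ 2)
    (hC : ∫⁻ x in {x : E 2 | X ≤ ‖x‖ * R0}, Dj F R0 δ x ^ 2 ≤ Y) :
    ∫⁻ x, Dj F R0 δ x ^ 2 ≤
      CA * (∫⁻ ξ in {ξ : E 2 | R0 ≤ ‖ξ‖ ∧ ‖ξ‖ ≤ R0 * Real.exp δ}, ‖𝓕 F ξ‖ₑ ^ 2) + Y := by
  rw [← lintegral_add_compl (fun x => Dj F R0 δ x ^ 2)
    (Metric.isClosed_closedBall (x := (0 : E 2)) (ε := 1 / (δ * R0))).measurableSet]
  refine add_le_add hA ((lintegral_mono_set ?_).trans hC)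
  intro x hx
  rw [mem_compl_iff, mem_closedBall_zero_iff, not_le, div_lt_iff₀ (by positivity)] at hx
  rw [mem_ofPred_eq, hX, inv_le_iff_one_le_mul₀ hδ]
  nlinarith

theorem window {F : E 2 → ℂ} (hF : Nice F) {δ : ℝ} (hδ : 0 < δ) {CA C : ℝ≥0}
    {Q : ℝ≥0∞} {G : ℤ → ℝ → ℂ} {K : ℕ} {w : ℤ}
    (hD : ∫⁻ x, (⨆ R ∈ range (fun j : ℤ => Real.exp (δ * j)), ‖S F R x‖ₑ) ^ 2 ≤
      Q * ∫⁻ x, ‖F x‖ₑ ^ 2)
    (hj : ∀ j : ℤ, ∫⁻ x, Dj F (Real.exp (δ * j)) δ x ^ 2 ≤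
      CA * (∫⁻ ξ in {ξ : E 2 | Real.exp (δ * j) ≤ ‖ξ‖ ∧ ‖ξ‖ ≤ Real.exp (δ * j) * Real.exp δ},
        ‖𝓕 F ξ‖ₑ ^ 2) + C * ∑ k ∈ Finset.range K,
        ∫⁻ ρ in Ioc (Real.exp (δ * j)) (Real.exp (δ * j) * Real.exp δ), wt G (w + k) ρ) :
    ∫⁻ x, (⨆ (R : ℝ) (_ : 0 < R), ‖S F R x‖ₑ) ^ 2 ≤
      (2 * Q + 2 * CA) * (∫⁻ x, ‖F x‖ₑ ^ 2) +
        2 * C * ∑ k ∈ Finset.range K, ∫⁻ ρ in Ioi (0 : ℝ), wt G (w + k) ρ := by
  have hDm : ∀ j : ℤ, Measurable fun x => Dj F (Real.exp (δ * j)) δ x ^ 2 := fun j =>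
    (Dj_meas hF _ _).pow_const 2
  have h1 : ∑' j : ℤ, ∫⁻ x, Dj F (Real.exp (δ * j)) δ x ^ 2 ≤
      CA * (∫⁻ x, ‖F x‖ₑ ^ 2) +
        C * ∑ k ∈ Finset.range K, ∫⁻ ρ in Ioi (0 : ℝ), wt G (w + k) ρ := by
    calc _ ≤ ∑' j : ℤ, (CA * (∫⁻ ξ in {ξ : E 2 | Real.exp (δ * j) ≤ ‖ξ‖ ∧
          ‖ξ‖ ≤ Real.exp (δ * j) * Real.exp δ}, ‖𝓕 F ξ‖ₑ ^ 2) + C * ∑ k ∈ Finset.range K,
          ∫⁻ ρ in Ioc (Real.exp (δ * j)) (Real.exp (δ * j) * Real.exp δ), wt G (w + k) ρ) :=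
          ENNReal.tsum_le_tsum hj
      _ = CA * (∑' j : ℤ, ∫⁻ ξ in {ξ : E 2 | Real.exp (δ * j) ≤ ‖ξ‖ ∧
          ‖ξ‖ ≤ Real.exp (δ * j) * Real.exp δ}, ‖𝓕 F ξ‖ₑ ^ 2) + C * ∑ k ∈ Finset.range K,
          ∑' j : ℤ, ∫⁻ ρ in Ioc (Real.exp (δ * j)) (Real.exp (δ * j) * Real.exp δ),
            wt G (w + k) ρ := by
          rw [ENNReal.tsum_add, ENNReal.tsum_mul_left, ENNReal.tsum_mul_left,
            Summable.tsum_finsetSum fun _ _ => ENNReal.summable]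
      _ ≤ _ := by
          gcongr with k hk
          · rw [← planch0 hF.int hF.sq]
            exact sum_ann hδ _
          · exact sum_Ioc hδ _
  calc ∫⁻ x, (⨆ (R : ℝ) (_ : 0 < R), ‖S F R x‖ₑ) ^ 2
      ≤ ∫⁻ x, (2 * (⨆ R ∈ range (fun j : ℤ => Real.exp (δ * j)), ‖S F R x‖ₑ) ^ 2 +
        2 * ∑' j : ℤ, Dj F (Real.exp (δ * j)) δ x ^ 2) := lintegral_mono fun x => point hδ x
    _ = 2 * (∫⁻ x, (⨆ R ∈ range (fun j : ℤ => Real.exp (δ * j)), ‖S F R x‖ₑ) ^ 2) +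
        2 * ∑' j : ℤ, ∫⁻ x, Dj F (Real.exp (δ * j)) δ x ^ 2 := by
        rw [lintegral_add_right _ ((Measurable.ennreal_tsum hDm).const_mul 2),
          lintegral_const_mul' _ _ (by norm_num), lintegral_const_mul' _ _ (by norm_num),
          lintegral_tsum fun j => (hDm j).aemeasurable]
    _ ≤ 2 * (Q * ∫⁻ x, ‖F x‖ₑ ^ 2) + 2 * (CA * (∫⁻ x, ‖F x‖ₑ ^ 2) +
        C * ∑ k ∈ Finset.range K, ∫⁻ ρ in Ioi (0 : ℝ), wt G (w + k) ρ) := by gcongr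
    _ = _ := by ring

end MWN_

open MWN_ in
theorem p_MWN (h1 : T_ANB) (h2 : T_ANC) (h3 : T_FCG) (h4 : T_EXN) (h5 : T_MODA) (h6 : T_MODB) :
    T_MWN := by
  intro hDSP hHANK hCARLS
  obtain ⟨CA, hA⟩ := h1
  obtain ⟨C, B, hB, hC⟩ := h2 hHANK hCARLS
  obtain ⟨CF, hF⟩ := h3
  obtain ⟨CD, hD⟩ := hDSP
  have hex : ∀ m : ℤ, ∃ J J' : ℝ → ℝ, NSol |(m : ℝ)| J J' := fun m => h4 _ (abs_nonneg _)
  choose J J' hJ using hex
  refine ⟨2 * (CD * Real.toNNReal ((Real.log (104 * B) + 2) ^ 12)) + 2 * CA + 2 * C * CF, ?_⟩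
  intro K f hK hf
  obtain ⟨G, hGm, hG, hGs⟩ := hF J J' hJ (𝓕 f) (fourier_cont hf.int)
  have hL : 0 ≤ Real.log K := Real.log_nonneg (by exact_mod_cast hK)
  have hLL := LL_one hK
  have hll := loglog hB hK
  set Λ : ℝ := B * (1 + Real.log K) ^ 2 with hΛ
  have hΛ0 : 0 ≤ Λ := by positivity
  set δ : ℝ := Real.exp (-(100 * Λ)) with hδdef
  have hδ : 0 < δ := Real.exp_pos _
  have hδ1 : δ ≤ 1 := Real.exp_le_one_iff.2 (by linarith)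
  have hδ2 : δ * Real.exp Λ ≤ 1 := by
    rw [hδdef, ← Real.exp_add]
    exact Real.exp_le_one_iff.2 (by linarith)
  have hinv : Real.exp (100 * Λ) = δ⁻¹ := by rw [hδdef, Real.exp_neg, inv_inv]
  set Q : ℝ≥0∞ := CD * ENNReal.ofReal (Real.log (3 + Real.log (δ / 2)⁻¹) ^ 12) with hQ
  have hw : ∀ w : ℤ, ∫⁻ x, (⨆ (R : ℝ) (_ : 0 < R), ‖S (pv K (K * w) f) R x‖ₑ) ^ 2 ≤
      (2 * Q + 2 * CA) * (∑ k ∈ Finset.range K, ∫⁻ x, ‖amode (K * w + k) f x‖ₑ ^ 2) +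
        2 * C * ∑ k ∈ Finset.range K, ∫⁻ ρ in Ioi (0 : ℝ), wt G (K * w + k) ρ := by
    intro w
    have hN : Nice (pv K (K * w) f) := nice_pv h5 hf K _
    rw [← int_pv h6 hf]
    refine window hN hδ ?_ fun j => ?_
    · refine hD (δ / 2) _ _ (by positivity) (by linarith) ?_ (gap hδ hδ1) hN.meas hN.int hN.sq
      rintro _ ⟨j, rfl⟩
      exact Real.exp_pos _
    · refine osc (Real.exp_pos _) hδ hinv (hA _ _ _ hN (Real.exp_pos _) hδ hδ1) ?_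
      refine hC J J' hJ K (K * w) δ _ f G hK ?_ (Real.exp_pos _) hδ hδ2 hf hGm hG
      rcases le_or_gt 0 w with h | h
      · exact Or.inl (by positivity)
      · right
        have hK' : (0 : ℤ) < K := by exact_mod_cast hK
        have h7 : (K : ℤ) * (w + 1) ≤ 0 := mul_nonpos_of_nonneg_of_nonpos hK'.le (by omega)
        linarith
  have hpl : ∫⁻ ξ, ‖𝓕 f ξ‖ₑ ^ 2 = ∫⁻ x, ‖f x‖ₑ ^ 2 := planch0 hf.int hf.sq
  have hc0 : 0 ≤ Real.log (104 * B) + 2 := by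
    have := Real.log_nonneg (by linarith : (1 : ℝ) ≤ 104 * B)
    linarith
  have hQle : Q ≤ CD * ENNReal.ofReal ((Real.log (104 * B) + 2) ^ 12) *
      ENNReal.ofReal (LL K ^ 12) := by
    rw [hQ, mul_assoc, ← ENNReal.ofReal_mul (by positivity), ← mul_pow]
    gcongr
    · exact hll.1
    · exact hll.2
  have hLL1 : (1 : ℝ≥0∞) ≤ ENNReal.ofReal (LL K ^ 12) := by
    rw [← ENNReal.ofReal_one]
    exact ENNReal.ofReal_le_ofReal (one_le_pow₀ hLL)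
  calc ∑' w : ℤ, ∫⁻ x, (⨆ (R : ℝ) (_ : 0 < R), ‖S (pv K (K * w) f) R x‖ₑ) ^ 2
      ≤ ∑' w : ℤ, ((2 * Q + 2 * CA) *
        (∑ k ∈ Finset.range K, ∫⁻ x, ‖amode (K * w + k) f x‖ₑ ^ 2) +
        2 * C * ∑ k ∈ Finset.range K, ∫⁻ ρ in Ioi (0 : ℝ), wt G (K * w + k) ρ) :=
        ENNReal.tsum_le_tsum hw
    _ = (2 * Q + 2 * CA) *
        (∑' w : ℤ, ∑ k ∈ Finset.range K, ∫⁻ x, ‖amode (K * w + k) f x‖ₑ ^ 2) +
        2 * C * ∑' w : ℤ, ∑ k ∈ Finset.range K, ∫⁻ ρ in Ioi (0 : ℝ), wt G (K * w + k) ρ := by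
        rw [ENNReal.tsum_add, ENNReal.tsum_mul_left, ENNReal.tsum_mul_left]
    _ ≤ (2 * Q + 2 * CA) * (∑' m : ℤ, ∫⁻ x, ‖amode m f x‖ₑ ^ 2) +
        2 * C * ∑' m : ℤ, ∫⁻ ρ in Ioi (0 : ℝ), wt G m ρ :=
        add_le_add
          (mul_le_mul' le_rfl (tsum_windows (fun m => ∫⁻ x, ‖amode m f x‖ₑ ^ 2) hK))
          (mul_le_mul' le_rfl (tsum_windows (fun m => ∫⁻ ρ in Ioi (0 : ℝ), wt G m ρ) hK))
    _ ≤ (2 * Q + 2 * CA) * (∫⁻ x, ‖f x‖ₑ ^ 2) + 2 * C * (CF * ∫⁻ x, ‖f x‖ₑ ^ 2) := by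
        rw [(h6 f (to_L hf)).1, ← hpl]
        gcongr
        exact hGs
    _ = (2 * Q + 2 * CA * 1 + 2 * C * CF * 1) * (∫⁻ x, ‖f x‖ₑ ^ 2) := by ring
    _ ≤ (2 * (CD * ENNReal.ofReal ((Real.log (104 * B) + 2) ^ 12) *
        ENNReal.ofReal (LL K ^ 12)) + 2 * CA * ENNReal.ofReal (LL K ^ 12) +
        2 * C * CF * ENNReal.ofReal (LL K ^ 12)) * (∫⁻ x, ‖f x‖ₑ ^ 2) := by gcongr
    _ = _ := by
        have e : ENNReal.ofReal ((Real.log (104 * B) + 2) ^ 12) =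
          ((Real.toNNReal ((Real.log (104 * B) + 2) ^ 12) : ℝ≥0) : ℝ≥0∞) := rfl
        rw [e]
        push_cast
        ring

end Pool.Agent.CRW
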