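import Pool.Agent.CRW.Targets4
import Pool.Agent.CRW.P_MWN
import Pool.Agent.CRW.P_ARL

set_option autoImplicit false

/-! CRW-FIN: the final theorem, general form. -/

namespace Pool.Agent.CRW

open MeasureTheory FourierTransform Set Filter Topology
open scoped ENNReal NNReal ComplexConjugate
open Pool.Agent.MBS (E ex S Sstar)
open Pool.Agent.CRN (Nice T_CARLS)
open Pool.Agent.CRN.RMN_ (planch0 fourier_cont)
open Pool.Agent.CRL (ev T_POLC)
open Pool.Agent.CRR (T_HANK T_OSC)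

namespace FIN_

theorem cont_pt : Continuous (fun p : ℝ × ℝ => p.1 • ev p.2) := by
  have h3 : (fun p : ℝ × ℝ => p.1 • ev p.2) =
      fun p => (!₂[p.1 * Real.cos p.2, p.1 * Real.sin p.2] : E 2) := by
    funext p
    ext i
    fin_cases i <;> simp [ev]
  rw [h3]
  fun_prop

/-- integral over the circle of radius `r` -/
noncomputable def PI (F : E 2 → ℝ≥0∞) (r : ℝ) : ℝ≥0∞ :=
  ∫⁻ θ in Ioc (-Real.pi) Real.pi, F (r • ev θ)

theorem PI_meas {F : E 2 → ℝ≥0∞} (hF : Measurable F) : Measurable (PI F) := by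
  unfold PI
  exact (hF.comp cont_pt.measurable).lintegral_prod_right'

theorem polar (h6 : T_POLC) {F : E 2 → ℝ≥0∞} (hF : Measurable F) :
    ∫⁻ x, F x = ∫⁻ r in Ioi (0 : ℝ), ENNReal.ofReal r * PI F r := by
  rw [h6.1 F hF]
  refine lintegral_congr fun r => ?_
  rw [PI, lintegral_const_mul' _ _ ENNReal.ofReal_ne_top]

theorem mr {a : ℝ → ℝ≥0∞} (ha : Measurable a) : Measurable fun r => ENNReal.ofReal r * a r :=
  measurable_id.ennreal_ofReal.mul ha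

theorem split4 {a b c d : ℝ → ℝ≥0∞} (ha : Measurable a) (hb : Measurable b) (hc : Measurable c) :
    ∫⁻ r in Ioi (0 : ℝ), ENNReal.ofReal r * (a r + (3 * b r + 6 * c r + 3 * d r)) =
      (∫⁻ r in Ioi (0 : ℝ), ENNReal.ofReal r * a r) +
      (3 * (∫⁻ r in Ioi (0 : ℝ), ENNReal.ofReal r * b r) +
        6 * (∫⁻ r in Ioi (0 : ℝ), ENNReal.ofReal r * c r) +
        3 * (∫⁻ r in Ioi (0 : ℝ), ENNReal.ofReal r * d r)) := by
  have e : ∀ r, ENNReal.ofReal r * (a r + (3 * b r + 6 * c r + 3 * d r)) =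
      ENNReal.ofReal r * a r + (3 * (ENNReal.ofReal r * b r) + 6 * (ENNReal.ofReal r * c r) +
        3 * (ENNReal.ofReal r * d r)) := fun r => by ring
  have hm : Measurable fun r => 3 * (ENNReal.ofReal r * b r) + 6 * (ENNReal.ofReal r * c r) :=
    ((mr hb).const_mul 3).add ((mr hc).const_mul 6)
  rw [lintegral_congr e, lintegral_add_left (mr ha), lintegral_add_left hm,
    lintegral_add_left ((mr hb).const_mul 3), lintegral_const_mul' _ _ (by norm_num),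
    lintegral_const_mul' _ _ (by norm_num), lintegral_const_mul' _ _ (by norm_num)]

/-! ### the lacunary radii -/

theorem rk_eq (N : ℕ) (k : ℤ) : rk N k = Real.exp (1 / (2 * N) * k) := by
  unfold rk
  congr 1
  ring

theorem rk_range (N : ℕ) : range (rk N) = range (fun j : ℤ => Real.exp (1 / (2 * N) * j)) := by
  congr 1
  funext k
  exact rk_eq N k

theorem rk_gap {N : ℕ} (hN : 1 ≤ N) : ∀ R ∈ range (rk N), ∀ R' ∈ range (rk N), R < R' →
    R + 1 / (4 * N) * R' ≤ R' := by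
  have hN0 : (1 : ℝ) ≤ N := by exact_mod_cast hN
  rw [rk_range]
  have h := MWN_.gap (δ := 1 / (2 * N)) (by positivity)
    (by rw [div_le_one (by positivity)]; linarith)
  intro R hR R' hR' hlt
  have h2 := h R hR R' hR' hlt
  have e : (1 : ℝ) / (4 * N) = 1 / (2 * N) / 2 := by
    field_simp
    norm_num
  rw [e]
  exact h2

theorem LL_four {N : ℕ} (hN : 1 ≤ N) :
    Real.log (3 + Real.log ((1 : ℝ) / (4 * N))⁻¹) ^ 12 ≤ 4096 * LL N ^ 12 := by
  have hN0 : (1 : ℝ) ≤ N := by exact_mod_cast hN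
  have hl : 0 ≤ Real.log N := Real.log_nonneg hN0
  have h1 : Real.log ((1 : ℝ) / (4 * N))⁻¹ = Real.log 4 + Real.log N := by
    rw [one_div, inv_inv, Real.log_mul (by norm_num) (by linarith)]
  have h2 : Real.log 4 ≤ 2 := by
    have h4 : Real.log 4 = 2 * Real.log 2 := by
      rw [show (4 : ℝ) = 2 ^ 2 by norm_num, Real.log_pow]
      norm_num
    have := Real.log_two_lt_d9
    linarith
  have h20 : 0 ≤ Real.log 4 := Real.log_nonneg (by norm_num)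
  have h3 : Real.log (3 + Real.log ((1 : ℝ) / (4 * N))⁻¹) ≤ 2 * LL N := by
    unfold LL
    rw [h1]
    have h4 : 2 * Real.log (3 + Real.log N) = Real.log ((3 + Real.log N) ^ 2) := by
      rw [Real.log_pow]
      norm_num
    rw [h4]
    exact Real.log_le_log (by linarith) (by nlinarith)
  have h5 : 0 ≤ Real.log (3 + Real.log ((1 : ℝ) / (4 * N))⁻¹) := by
    rw [h1]
    exact Real.log_nonneg (by linarith)
  calc Real.log (3 + Real.log ((1 : ℝ) / (4 * N))⁻¹) ^ 12 ≤ (2 * LL N) ^ 12 :=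
        pow_le_pow_left₀ h5 h3 12
    _ = 4096 * LL N ^ 12 := by ring

theorem sup_eq (N : ℕ) (f : E 2 → ℂ) (x : E 2) :
    (⨆ R ∈ range (rk N), ‖S f R x‖ₑ) = ⨆ k : ℤ, ‖S f (rk N k) x‖ₑ := iSup_range

theorem S_meas {f : E 2 → ℂ} (hf : Nice f) (c : ℝ) : Measurable fun x => S f c x :=
  Pool.Agent.CRR.RCH_.S_meas hf.int (measurable_const (a := c))

theorem sup_meas {f : E 2 → ℂ} (hf : Nice f) (N : ℕ) :
    Measurable fun x => (⨆ k : ℤ, ‖S f (rk N k) x‖ₑ) ^ 2 :=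
  (Measurable.iSup fun k => (S_meas hf (rk N k)).enorm).pow_const 2

/-! ### the annuli -/

/-- the annulus -/
def an (N : ℕ) (k : ℤ) : Set (E 2) := {ξ : E 2 | rk N k < ‖ξ‖ ∧ ‖ξ‖ ≤ rk N (k + 1)}

theorem an_meas (N : ℕ) (k : ℤ) : MeasurableSet (an N k) :=
  (measurableSet_lt measurable_const measurable_norm).inter
    (measurableSet_le measurable_norm measurable_const)

theorem an_disj (N : ℕ) : Pairwise (Function.onFun Disjoint (an N)) := by
  have hm : Monotone (rk N) := by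
    intro a b hab
    have : (a : ℝ) ≤ b := by exact_mod_cast hab
    unfold rk
    gcongr
  have h := hm.pairwise_disjoint_on_Ioc_succ
  intro a b hab
  have h2 := h hab
  simp only [Function.onFun] at h2 ⊢
  rw [Set.disjoint_left] at h2 ⊢
  rintro ξ ⟨h3, h4⟩ ⟨h5, h6⟩
  exact h2 (a := ‖ξ‖) ⟨h3, h4⟩ ⟨h5, h6⟩

theorem gk_meas {f : E 2 → ℂ} (hf : Nice f) (N : ℕ) (k : ℤ) : Measurable (gk N f k) :=
  (fourier_cont hf.int).measurable.indicator (an_meas N k)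

theorem gk_int {f : E 2 → ℂ} (N : ℕ) (k : ℤ) :
    ∫⁻ ξ, ‖gk N f k ξ‖ₑ ^ 2 = ∫⁻ ξ in an N k, ‖𝓕 f ξ‖ₑ ^ 2 := by
  rw [← lintegral_indicator (an_meas N k)]
  refine lintegral_congr fun ξ => ?_
  by_cases h : ξ ∈ an N k
  · rw [indicator_of_mem h, gk, indicator_of_mem (by exact h)]
  · rw [indicator_of_notMem h, gk, indicator_of_notMem (by exact h)]
    simp

theorem gk_sum {f : E 2 → ℂ} (hf : Nice f) (N : ℕ) :
    ∑' k : ℤ, ∫⁻ ξ, ‖gk N f k ξ‖ₑ ^ 2 ≤ ∫⁻ x, ‖f x‖ₑ ^ 2 := by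
  simp only [gk_int]
  rw [← lintegral_iUnion (an_meas N) (an_disj N), ← planch0 hf.int hf.sq]
  exact setLIntegral_le_lintegral _ _

theorem sq_top {f : E 2 → ℂ} (hf : Nice f) : ∫⁻ x, ‖f x‖ₑ ^ 2 ≠ ⊤ := by
  have h := hf.sq.2
  rw [eLpNorm_lt_top_iff_lintegral_rpow_enorm_lt_top (by norm_num) (by norm_num)] at h
  simp only [ENNReal.toReal_ofNat, ENNReal.rpow_ofNat] at h
  exact h.ne

theorem gk_top {f : E 2 → ℂ} (hf : Nice f) (N : ℕ) (k : ℤ) :
    ∫⁻ ξ, ‖gk N f k ξ‖ₑ ^ 2 ≠ ⊤ :=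
  ne_top_of_le_ne_top (sq_top hf)
    ((ENNReal.le_tsum (f := fun k : ℤ => ∫⁻ ξ, ‖gk N f k ξ‖ₑ ^ 2) k).trans (gk_sum hf N))

/-! ### one circle -/

theorem circle (h1 : T_FIA) {N : ℕ} {A : ℝ} {f : E 2 → ℂ} {R : E 2 → ℝ} {D : Set (E 2)}
    (hN : 1 ≤ N) (hA : 0 ≤ A) (hf : Nice f) (hR0 : ∀ x, 0 < R x)
    (hG : Measurable (GW N f))
    (hosc : ∀ r φ : ℝ, 0 < r → r • ev φ ∈ D → R (r • ev φ) * r ≤ N ∨
      ∃ a b : ℝ, a ≤ φ ∧ φ < b ∧ 2 * Real.pi / N ≤ b - a ∧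
        ∀ ψ : ℝ, a ≤ ψ → ψ < b → r • ev ψ ∈ D → |R (r • ev ψ) - R (r • ev φ)| ≤ A / r ∨
          R (r • ev φ) / N ≤ |R (r • ev ψ) - R (r • ev φ)|) {r : ℝ} (hr : 0 < r) :
    PI (D.indicator fun x => ‖S f (R x) x‖ₑ ^ 2) r ≤ PI (fun x => GW N f x ^ 2) r +
      (3 * PI (fun x => (⨆ k : ℤ, ‖S f (rk N k) x‖ₑ) ^ 2) r +
        6 * (∑' k : ℤ, AS N (gk N f k) r) + 3 * PI (fun x => OW A f x ^ 2) r) := by
  set F : ℝ → ℝ := fun φ => R (r • ev φ) with hF
  set P : Set ℝ := {φ | r • ev φ ∈ D ∧ (N : ℝ) < R (r • ev φ) * r} with hP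
  have hfia := h1 N A r f F P hN hA hr hf (fun φ => hR0 _) (by
    rintro φ ⟨hφD, hφN⟩
    rcases hosc r φ hr hφD with h | ⟨a, b, h2, h3, h4, h5⟩
    · exact absurd h (not_le.2 hφN)
    · exact ⟨a, b, h2, h3, h4, fun ψ hψ h6 h7 => h5 ψ h6 h7 hψ.1⟩)
  have hpt : ∀ θ : ℝ, D.indicator (fun x => ‖S f (R x) x‖ₑ ^ 2) (r • ev θ) ≤
      GW N f (r • ev θ) ^ 2 +
        P.indicator (fun θ => ‖S f (F θ) (r • ev θ)‖ₑ ^ 2) θ := by
    intro θ
    by_cases hD : r • ev θ ∈ D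
    · rw [indicator_of_mem hD]
      by_cases hle : R (r • ev θ) * r ≤ N
      · refine le_trans ?_ le_self_add
        gcongr
        refine le_iSup₂_of_le (R (r • ev θ)) ⟨hR0 _, ?_⟩ le_rfl
        rw [ARL_.norm_ev hr.le]
        exact hle
      · have hθ : θ ∈ P := ⟨hD, not_le.1 hle⟩
        rw [indicator_of_mem hθ]
        exact le_add_self
    · rw [indicator_of_notMem hD]
      exact bot_le
  have hGm : Measurable fun θ : ℝ => GW N f (r • ev θ) ^ 2 :=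
    (hG.comp (cont_pt.measurable.comp (measurable_const.prodMk measurable_id))).pow_const 2
  calc PI (D.indicator fun x => ‖S f (R x) x‖ₑ ^ 2) r
      ≤ ∫⁻ θ in Ioc (-Real.pi) Real.pi, (GW N f (r • ev θ) ^ 2 +
        P.indicator (fun θ => ‖S f (F θ) (r • ev θ)‖ₑ ^ 2) θ) :=
        lintegral_mono fun θ => hpt θ
    _ = PI (fun x => GW N f x ^ 2) r + ∫⁻ θ in Ioc (-Real.pi) Real.pi,
        P.indicator (fun θ => ‖S f (F θ) (r • ev θ)‖ₑ ^ 2) θ := by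
        rw [lintegral_add_left hGm]
        rfl
    _ ≤ _ := by
        gcongr
        exact hfia

end FIN_

open FIN_ in
theorem p_FIN (h1 : T_FIA) (h2 : T_ARG) (h3 : T_GLL) (h4 : T_OSM) (h5 : T_OSC) (h6 : T_POLC) :
    T_FIN := by
  intro hDSP hHANK hCARLS hGS
  obtain ⟨CA, hARG⟩ := h2 hDSP hHANK hCARLS
  obtain ⟨CG, hGLL⟩ := h3 hGS
  obtain ⟨CO, hOSC⟩ := h5 2 le_rfl
  obtain ⟨CD, hD⟩ := hDSP
  refine ⟨CG + 3 * (CD * 4096) + 6 * CA + 3 * CO, ?_⟩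
  intro N A f R D hN hA hf hR hR0 hDm hosc
  have hN0 : (1 : ℝ) ≤ N := by exact_mod_cast hN
  obtain ⟨hOWm, hGWm⟩ := h4 f hf
  set I : ℝ≥0∞ := ∫⁻ x, ‖f x‖ₑ ^ 2 with hI
  set L : ℝ≥0∞ := ENNReal.ofReal (LL N ^ 12) with hL
  have hSm : Measurable fun x => D.indicator (fun x => ‖S f (R x) x‖ₑ ^ 2) x :=
    ((Pool.Agent.CRR.RCH_.S_meas hf.int hR).enorm.pow_const 2).indicator hDm
  have hG2 : Measurable fun x => GW N f x ^ 2 := (hGWm N).pow_const 2
  have hO2 : Measurable fun x => OW A f x ^ 2 := (hOWm A hA).pow_const 2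
  have hASm : Measurable fun r => ∑' k : ℤ, AS N (gk N f k) r :=
    Measurable.tsum fun k => (hARG N _ hN (gk_meas hf N k) (gk_top hf N k)).1
  have b1 : ∫⁻ r in Ioi (0 : ℝ), ENNReal.ofReal r * PI (fun x => GW N f x ^ 2) r ≤
      CG * L * I := by
    rw [← polar h6 hG2]
    exact hGLL N f hN hf
  have b2 : ∫⁻ r in Ioi (0 : ℝ), ENNReal.ofReal r *
      PI (fun x => (⨆ k : ℤ, ‖S f (rk N k) x‖ₑ) ^ 2) r ≤ CD * (4096 * L) * I := by
    rw [← polar h6 (sup_meas hf N)]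
    have h := hD (1 / (4 * N)) (range (rk N)) f (by positivity)
      (by rw [div_le_div_iff₀ (by positivity) (by norm_num)]; linarith)
      (by rintro _ ⟨k, rfl⟩; exact Real.exp_pos _) (rk_gap hN) hf.meas hf.int hf.sq
    simp only [sup_eq] at h
    refine h.trans ?_
    gcongr
    have e : (4096 : ℝ≥0∞) = ENNReal.ofReal 4096 := by norm_num
    rw [hL, e, ← ENNReal.ofReal_mul (by norm_num)]
    exact ENNReal.ofReal_le_ofReal (LL_four hN)
  have b3 : ∫⁻ r in Ioi (0 : ℝ), ENNReal.ofReal r * (∑' k : ℤ, AS N (gk N f k) r) ≤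
      CA * L * I := by
    calc ∫⁻ r in Ioi (0 : ℝ), ENNReal.ofReal r * (∑' k : ℤ, AS N (gk N f k) r)
        = ∫⁻ r in Ioi (0 : ℝ), ∑' k : ℤ, AS N (gk N f k) r * ENNReal.ofReal r := by
          refine lintegral_congr fun r => ?_
          rw [ENNReal.tsum_mul_right, mul_comm]
      _ = ∑' k : ℤ, ∫⁻ r in Ioi (0 : ℝ), AS N (gk N f k) r * ENNReal.ofReal r :=
          lintegral_tsum fun k =>
            ((hARG N _ hN (gk_meas hf N k) (gk_top hf N k)).1.mul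
              measurable_id.ennreal_ofReal).aemeasurable
      _ ≤ ∑' k : ℤ, CA * L * ∫⁻ ξ, ‖gk N f k ξ‖ₑ ^ 2 :=
          ENNReal.tsum_le_tsum fun k => (hARG N _ hN (gk_meas hf N k) (gk_top hf N k)).2
      _ = CA * L * ∑' k : ℤ, ∫⁻ ξ, ‖gk N f k ξ‖ₑ ^ 2 := ENNReal.tsum_mul_left
      _ ≤ CA * L * I := by
          gcongr
          exact gk_sum hf N
  have b4 : ∫⁻ r in Ioi (0 : ℝ), ENNReal.ofReal r * PI (fun x => OW A f x ^ 2) r ≤
      CO * ENNReal.ofReal (Real.log (2 + A) ^ 2) * I := by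
    rw [← polar h6 hO2]
    exact hOSC A f hA hf
  have hLL0 : 0 ≤ LL N ^ 12 := by positivity
  have c1 : L ≤ ENNReal.ofReal (LL N ^ 12 + Real.log (2 + A) ^ 2) :=
    ENNReal.ofReal_le_ofReal (by nlinarith [sq_nonneg (Real.log (2 + A))])
  have c2 : ENNReal.ofReal (Real.log (2 + A) ^ 2) ≤
      ENNReal.ofReal (LL N ^ 12 + Real.log (2 + A) ^ 2) :=
    ENNReal.ofReal_le_ofReal (by linarith)
  calc ∫⁻ x in D, ‖S f (R x) x‖ₑ ^ 2
      = ∫⁻ r in Ioi (0 : ℝ), ENNReal.ofReal r *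
        PI (D.indicator fun x => ‖S f (R x) x‖ₑ ^ 2) r := by
        rw [← lintegral_indicator hDm, polar h6 hSm]
    _ ≤ ∫⁻ r in Ioi (0 : ℝ), ENNReal.ofReal r * (PI (fun x => GW N f x ^ 2) r +
      (3 * PI (fun x => (⨆ k : ℤ, ‖S f (rk N k) x‖ₑ) ^ 2) r +
        6 * (∑' k : ℤ, AS N (gk N f k) r) + 3 * PI (fun x => OW A f x ^ 2) r)) := by
        refine setLIntegral_mono' measurableSet_Ioi fun r hr => ?_
        exact mul_le_mul' le_rfl (circle h1 hN hA hf hR0 (hGWm N) hosc hr)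
    _ = _ := split4 (PI_meas hG2) (PI_meas (sup_meas hf N)) hASm
    _ ≤ CG * L * I + (3 * (CD * (4096 * L) * I) + 6 * (CA * L * I) +
        3 * (CO * ENNReal.ofReal (Real.log (2 + A) ^ 2) * I)) := by gcongr
    _ ≤ CG * ENNReal.ofReal (LL N ^ 12 + Real.log (2 + A) ^ 2) * I +
        (3 * (CD * (4096 * ENNReal.ofReal (LL N ^ 12 + Real.log (2 + A) ^ 2)) * I) +
        6 * (CA * ENNReal.ofReal (LL N ^ 12 + Real.log (2 + A) ^ 2) * I) +
        3 * (CO * ENNReal.ofReal (LL N ^ 12 + Real.log (2 + A) ^ 2) * I)) := by gcongr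
    _ = _ := by
        push_cast
        ring

end Pool.Agent.CRW
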