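import Pool.Agent.CRW.Targets4

set_option autoImplicit false

namespace Pool.Agent.CRW

open MeasureTheory FourierTransform Set Filter Topology
open scoped ENNReal NNReal ComplexConjugate
open Pool.Agent.MBS (E ex S Sstar)
open Pool.Agent.CRN (ci SH S1 Nice T_CARLS T_POLN T_DSN T_OFFN T_SHL)
open Pool.Agent.CRL (ev rot amode T_MODA T_MODB T_POLC)
open Pool.Agent.CRR (T_HANK T_OSC)

namespace GLL_

lemma L3_mono {s t : ℝ} (hs : 0 ≤ s) (hst : s ≤ t) : L3 s ≤ L3 t := by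
  unfold L3
  have h1 : 0 ≤ Real.log (3 + s) := Real.log_nonneg (by linarith)
  have h2 : Real.log (3 + s) ≤ Real.log (3 + t) := Real.log_le_log (by linarith) (by linarith)
  exact Real.log_le_log (by linarith) (by linarith)

lemma L3_pos {s : ℝ} (hs : 0 ≤ s) : 0 < L3 s := by
  unfold L3
  have h1 : 0 ≤ Real.log (3 + s) := Real.log_nonneg (by linarith)
  exact Real.log_pos (by linarith)

lemma L3_le (N : ℕ) (hN : 1 ≤ N) : L3 N ≤ 2 * LL N := by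
  unfold L3 LL
  have hN1 : (1 : ℝ) ≤ N := by exact_mod_cast hN
  have h0 : 0 ≤ Real.log N := Real.log_nonneg hN1
  have h1 : Real.log (3 + N) ≤ Real.log (4 * N) := Real.log_le_log (by linarith) (by linarith)
  have h2 : Real.log (4 * (N : ℝ)) = Real.log 4 + Real.log N :=
    Real.log_mul (by norm_num) (by linarith)
  have h3 : Real.log 4 ≤ 3 := by
    have := Real.log_le_sub_one_of_pos (show (0 : ℝ) < 4 by norm_num)
    linarith
  have h4 : 0 ≤ Real.log (3 + N) := Real.log_nonneg (by linarith)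
  have h5 : (2 : ℝ) * Real.log (3 + Real.log N) = Real.log ((3 + Real.log N) ^ 2) := by
    rw [Real.log_pow]; norm_num
  rw [h5]
  apply Real.log_le_log (by linarith)
  nlinarith

lemma LL_nonneg (N : ℕ) (hN : 1 ≤ N) : 0 ≤ LL N := by
  unfold LL
  have hN1 : (1 : ℝ) ≤ N := by exact_mod_cast hN
  exact Real.log_nonneg (by linarith [Real.log_nonneg hN1])

lemma GW_le (N : ℕ) (f : E 2 → ℂ) (x : E 2) :
    GW N f x ≤ ENNReal.ofReal (L3 N ^ 6) *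
      ⨆ (R : ℝ) (_ : 0 < R), ‖S f R x‖ₑ / ENNReal.ofReal (L3 (R * ‖x‖) ^ 6) := by
  unfold GW
  refine iSup_le fun R => iSup_le fun hR => ?_
  have hnn : 0 ≤ R * ‖x‖ := mul_nonneg hR.1.le (norm_nonneg x)
  have hp : 0 < L3 (R * ‖x‖) := L3_pos hnn
  have hc0 : ENNReal.ofReal (L3 (R * ‖x‖) ^ 6) ≠ 0 := by
    simpa using pow_pos hp 6
  have hct : ENNReal.ofReal (L3 (R * ‖x‖) ^ 6) ≠ ⊤ := ENNReal.ofReal_ne_top
  have hle : ENNReal.ofReal (L3 (R * ‖x‖) ^ 6) ≤ ENNReal.ofReal (L3 N ^ 6) :=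
    ENNReal.ofReal_le_ofReal (pow_le_pow_left₀ hp.le (L3_mono hnn hR.2) 6)
  calc ‖S f R x‖ₑ = ENNReal.ofReal (L3 (R * ‖x‖) ^ 6) *
        (‖S f R x‖ₑ / ENNReal.ofReal (L3 (R * ‖x‖) ^ 6)) := (ENNReal.mul_div_cancel hc0 hct).symm
    _ ≤ ENNReal.ofReal (L3 N ^ 6) *
        (‖S f R x‖ₑ / ENNReal.ofReal (L3 (R * ‖x‖) ^ 6)) := by gcongr
    _ ≤ _ := by
      gcongr
      exact le_iSup₂_of_le R hR.1 le_rfl

end GLL_

open GLL_ in
theorem p_GLL (h1 : T_GRW) : T_GLL := by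
  intro hGS
  obtain ⟨C, hC⟩ := h1 hGS
  refine ⟨2 ^ 12 * C, fun N f hN hf => ?_⟩
  have hL0 : 0 ≤ LL N := LL_nonneg N hN
  have hL3 : 0 ≤ L3 N := (L3_pos (Nat.cast_nonneg N)).le
  have hpt : ∀ x, GW N f x ^ 2 ≤ ENNReal.ofReal (2 ^ 12 * LL N ^ 12) *
      (⨆ (R : ℝ) (_ : 0 < R), ‖S f R x‖ₑ / ENNReal.ofReal (L3 (R * ‖x‖) ^ 6)) ^ 2 := by
    intro x
    calc GW N f x ^ 2 ≤ (ENNReal.ofReal (L3 N ^ 6) *
          ⨆ (R : ℝ) (_ : 0 < R), ‖S f R x‖ₑ / ENNReal.ofReal (L3 (R * ‖x‖) ^ 6)) ^ 2 := by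
          gcongr
          exact GW_le N f x
      _ = ENNReal.ofReal (L3 N ^ 12) *
          (⨆ (R : ℝ) (_ : 0 < R), ‖S f R x‖ₑ / ENNReal.ofReal (L3 (R * ‖x‖) ^ 6)) ^ 2 := by
          rw [mul_pow, ← ENNReal.ofReal_pow (by positivity), ← pow_mul]
      _ ≤ _ := by
          gcongr
          calc L3 N ^ 12 ≤ (2 * LL N) ^ 12 := pow_le_pow_left₀ hL3 (L3_le N hN) 12
            _ = 2 ^ 12 * LL N ^ 12 := by ring
  calc ∫⁻ x, GW N f x ^ 2
      ≤ ∫⁻ x, ENNReal.ofReal (2 ^ 12 * LL N ^ 12) *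
      (⨆ (R : ℝ) (_ : 0 < R), ‖S f R x‖ₑ / ENNReal.ofReal (L3 (R * ‖x‖) ^ 6)) ^ 2 :=
        lintegral_mono hpt
    _ = ENNReal.ofReal (2 ^ 12 * LL N ^ 12) * ∫⁻ x,
      (⨆ (R : ℝ) (_ : 0 < R), ‖S f R x‖ₑ / ENNReal.ofReal (L3 (R * ‖x‖) ^ 6)) ^ 2 :=
        lintegral_const_mul' _ _ ENNReal.ofReal_ne_top
    _ ≤ ENNReal.ofReal (2 ^ 12 * LL N ^ 12) * (C * ∫⁻ x, ‖f x‖ₑ ^ 2) := by
        gcongr
        exact hC f hf
    _ = _ := by
        rw [ENNReal.ofReal_mul (by positivity)]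
        have : ENNReal.ofReal ((2 : ℝ) ^ 12) = 2 ^ 12 := by
          rw [ENNReal.ofReal_pow (by norm_num)]
          norm_num
        rw [this]
        push_cast
        ring

end Pool.Agent.CRW
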