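import Pool.Agent.CRW.Targets4
import Pool.Agent.CRR.P_OSC

set_option autoImplicit false

/-!
# CRW: GRW, growth for all radii, globally
-/

namespace Pool.Agent.CRW

open MeasureTheory FourierTransform Set Filter Topology
open scoped ENNReal NNReal
open Pool.Agent.MBS (E ex S Sstar)
open Pool.Agent.CRN (SH S1 Nice sh T_OFFN T_SHL)
open Pool.Agent.CRN.GLN_ Pool.Agent.CRN.NDJN_
open Pool.Agent.CRR.OSC_ (nb nb_meas nb_far S_add Sstar_zero)

namespace GRW_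

/-- the supremum in GRW -/
noncomputable def OG (f : E 2 → ℂ) (x : E 2) : ℝ≥0∞ :=
  ⨆ (R : ℝ) (_ : 0 < R), ‖S f R x‖ₑ / ENNReal.ofReal (L3 (R * ‖x‖) ^ 6)

/-- the supremum in GS1 -/
noncomputable def WG (f : E 2 → ℂ) (x : E 2) : ℝ≥0∞ :=
  ⨆ (R : ℝ) (_ : 0 < R), ‖S f R x‖ₑ / ENNReal.ofReal (L3 R ^ 6)

theorem one_le_log3 : 1 ≤ Real.log 3 := by
  rw [Real.le_log_iff_exp_le (by norm_num)]
  exact (Real.exp_one_lt_d9.le).trans (by norm_num)

theorem log3_le {t : ℝ} (ht : 0 ≤ t) : 1 ≤ Real.log (3 + t) :=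
  one_le_log3.trans (Real.log_le_log (by norm_num) (by linarith))

theorem one_le_L3 {t : ℝ} (ht : 0 ≤ t) : 1 ≤ L3 t := by
  unfold L3
  exact log3_le (by linarith [log3_le ht])

theorem L3_mono {s t : ℝ} (hs : 0 ≤ s) (hst : s ≤ t) : L3 s ≤ L3 t := by
  unfold L3
  have h1 := log3_le hs
  have h2 : Real.log (3 + s) ≤ Real.log (3 + t) := Real.log_le_log (by linarith) (by linarith)
  exact Real.log_le_log (by linarith) (by linarith)

theorem L3_half {t : ℝ} (ht : 0 ≤ t) : L3 t ≤ 2 * L3 (t / 2) := by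
  unfold L3
  have h0 : 0 ≤ t / 2 := by positivity
  set a : ℝ := Real.log (3 + t / 2) with ha
  have h1 : 1 ≤ a := log3_le h0
  have h2 : Real.log (3 + t) ≤ 1 + a := by
    have h3 : Real.log (3 + t) ≤ Real.log (2 * (3 + t / 2)) :=
      Real.log_le_log (by linarith) (by linarith)
    rw [Real.log_mul (by norm_num) (by positivity)] at h3
    linarith [Real.log_two_lt_d9]
  have h3 : 2 * Real.log (3 + a) = Real.log ((3 + a) ^ 2) := by
    rw [Real.log_pow]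
    norm_num
  rw [h3]
  have h4 := log3_le ht
  refine Real.log_le_log (by linarith) ?_
  nlinarith

theorem div_aux (X a b : ℝ≥0∞) (h : a ≤ 64 * b) : X / b ≤ 64 * (X / a) := by
  rw [div_eq_mul_inv, div_eq_mul_inv]
  have h1 : (64 * b)⁻¹ ≤ a⁻¹ := ENNReal.inv_le_inv.mpr h
  rw [ENNReal.mul_inv (Or.inl (by norm_num)) (Or.inl (by norm_num))] at h1
  have h2 : (64 : ℝ≥0∞) * 64⁻¹ = 1 := ENNReal.mul_inv_cancel (by norm_num) (by norm_num)
  calc X * b⁻¹ = (64 * 64⁻¹) * (X * b⁻¹) := by rw [h2, one_mul]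
    _ = 64 * (X * (64⁻¹ * b⁻¹)) := by ring
    _ ≤ 64 * (X * a⁻¹) := by gcongr

theorem OG_scale {c : ℝ} (hc : 0 < c) (f : E 2 → ℂ) {y : E 2} (hy : 1 / 2 ≤ ‖y‖) :
    OG f (c • y) ≤ 64 * WG (ds c f) y := by
  refine iSup₂_le fun R hR => ?_
  have e1 : S f R (c • y) = S (ds c f) (R * c) y := by
    rw [S_scale hc, mul_div_cancel_right₀ _ hc.ne']
  have hRc : 0 < R * c := mul_pos hR hc
  have h1 : L3 (R * c) ≤ 2 * L3 (R * ‖c • y‖) := by
    refine (L3_half hRc.le).trans (mul_le_mul_of_nonneg_left ?_ (by norm_num))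
    refine L3_mono (by positivity) ?_
    rw [norm_smul, Real.norm_of_nonneg hc.le]
    nlinarith
  have h2 : L3 (R * c) ^ 6 ≤ 64 * L3 (R * ‖c • y‖) ^ 6 := by
    have h3 := pow_le_pow_left₀ (by linarith [one_le_L3 hRc.le]) h1 6
    calc L3 (R * c) ^ 6 ≤ (2 * L3 (R * ‖c • y‖)) ^ 6 := h3
      _ = 64 * L3 (R * ‖c • y‖) ^ 6 := by ring
  have h3 : ENNReal.ofReal (L3 (R * c) ^ 6) ≤ 64 * ENNReal.ofReal (L3 (R * ‖c • y‖) ^ 6) := by
    have h4 : (64 : ℝ≥0∞) = ENNReal.ofReal 64 := by norm_num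
    rw [h4, ← ENNReal.ofReal_mul (by norm_num)]
    exact ENNReal.ofReal_le_ofReal h2
  rw [e1]
  refine (div_aux _ _ _ h3).trans (mul_le_mul' le_rfl ?_)
  exact le_iSup₂_of_le (R * c) hRc le_rfl

/-- the estimate on one shell -/
theorem near {C : ℝ≥0} (hW : ∀ g : E 2 → ℂ, Measurable g →
    ∫⁻ x in Metric.closedBall (0 : E 2) 1,
      (⨆ (R : ℝ) (_ : 0 < R), ‖BI g R x‖ₑ / ENNReal.ofReal (L3 R ^ 6)) ^ 2 ≤
        C * ∫⁻ ξ, ‖g ξ‖ₑ ^ 2) (j : ℤ) {f : E 2 → ℂ} (hf : Nice f) :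
    ∫⁻ x in sh 2 j, OG f x ^ 2 ≤ 4096 * C * ∫⁻ x, ‖f x‖ₑ ^ 2 := by
  set c : ℝ := (2 : ℝ) ^ (j + 1) with hc
  have hc0 : 0 < c := by positivity
  have hAm : MeasurableSet (sh 2 j) := meas_sh j
  set B : Set (E 2) := (fun x : E 2 => c • x) ⁻¹' sh 2 j with hB
  have hBm : MeasurableSet B := measurable_const_smul c hAm
  have hB1 : ∀ x ∈ B, 1 / 2 ≤ ‖x‖ ∧ ‖x‖ ≤ 1 := by
    intro x hx
    obtain ⟨h3, h4⟩ : c • x ∈ sh 2 j := hx
    have e : (2 : ℝ) ^ j = c / 2 := by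
      rw [hc, zpow_add₀ two_ne_zero, zpow_one]
      ring
    rw [norm_smul, Real.norm_of_nonneg hc0.le, e] at h3
    rw [norm_smul, Real.norm_of_nonneg hc0.le, ← hc] at h4
    constructor
    · by_contra h5
      nlinarith [not_le.1 h5]
    · by_contra h5
      nlinarith [not_le.1 h5]
  have hB2 : B ⊆ Metric.closedBall (0 : E 2) 1 := fun x hx => by
    rw [mem_closedBall_zero_iff]
    exact (hB1 x hx).2
  have hN := nice hc0 hf
  have h2 : ∫⁻ x in B, OG f (c • x) ^ 2 ≤ 4096 * C * ∫⁻ x, ‖ds c f x‖ₑ ^ 2 := by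
    have g1 := hW (𝓕 (ds c f)) (F_cont hN).measurable
    rw [Pool.Agent.MBS.J8.plancherel_sq hN.int hN.sq] at g1
    have g2 : ∫⁻ x in Metric.closedBall (0 : E 2) 1, WG (ds c f) x ^ 2 ≤
        C * ∫⁻ x, ‖ds c f x‖ₑ ^ 2 := g1
    calc ∫⁻ x in B, OG f (c • x) ^ 2 ≤ ∫⁻ x in B, 4096 * WG (ds c f) x ^ 2 := by
          refine setLIntegral_mono_ae' hBm (ae_of_all _ fun x hx => ?_)
          refine (pow_le_pow_left₀ (zero_le) (OG_scale hc0 f (hB1 x hx).1) 2).trans ?_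
          rw [mul_pow]
          refine mul_le_mul' ?_ le_rfl
          norm_num
      _ ≤ ∫⁻ x in Metric.closedBall (0 : E 2) 1, 4096 * WG (ds c f) x ^ 2 :=
          lintegral_mono_set hB2
      _ = 4096 * ∫⁻ x in Metric.closedBall (0 : E 2) 1, WG (ds c f) x ^ 2 :=
          lintegral_const_mul' _ _ (by norm_num)
      _ ≤ 4096 * (C * ∫⁻ x, ‖ds c f x‖ₑ ^ 2) := mul_le_mul' le_rfl g2
      _ = _ := by rw [mul_assoc]
  have h3 : ∫⁻ x in B, OG f (c • x) ^ 2 =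
      ENNReal.ofReal ((c ^ 2)⁻¹) * ∫⁻ x in sh 2 j, OG f x ^ 2 :=
    Pool.Agent.MBS.J8.setLint_smul hc0 (fun x => OG f x ^ 2) B (sh 2 j) hBm hAm
      (fun x => Iff.rfl)
  have h4 : ∫⁻ x, ‖ds c f x‖ₑ ^ 2 = ENNReal.ofReal ((c ^ 2)⁻¹) * ∫⁻ x, ‖f x‖ₑ ^ 2 :=
    Pool.Agent.MBS.J8.lint_smul hc0 (fun x => ‖f x‖ₑ ^ 2)
  rw [h3, h4] at h2
  set κ : ℝ≥0∞ := ENNReal.ofReal ((c ^ 2)⁻¹) with hκ
  have hκ0 : κ ≠ 0 := by
    rw [hκ, Ne, ENNReal.ofReal_eq_zero, not_le]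
    positivity
  have hκt : κ ≠ ⊤ := ENNReal.ofReal_ne_top
  have h7 : 4096 * (C : ℝ≥0∞) * (κ * ∫⁻ x, ‖f x‖ₑ ^ 2) =
      κ * (4096 * C * ∫⁻ x, ‖f x‖ₑ ^ 2) := by ring
  rw [h7] at h2
  exact (ENNReal.mul_le_mul_iff_right hκ0 hκt).1 h2

theorem OG_le_Sstar (f : E 2 → ℂ) (x : E 2) : OG f x ≤ Sstar f x := by
  refine iSup₂_le fun R hR => ?_
  have h1 : 1 ≤ L3 (R * ‖x‖) ^ 6 := one_le_pow₀ (one_le_L3 (by positivity))
  have h2 : 1 ≤ ENNReal.ofReal (L3 (R * ‖x‖) ^ 6) := by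
    rw [← ENNReal.ofReal_one]
    exact ENNReal.ofReal_le_ofReal h1
  refine (ENNReal.div_le_of_le_mul ?_).trans (le_iSup₂_of_le R hR le_rfl)
  exact le_mul_of_one_le_right' h2

theorem OG_add {f g : E 2 → ℂ} (hf : Integrable f) (hg : Integrable g) (x : E 2) :
    OG (fun y => f y + g y) x ≤ OG f x + Sstar g x := by
  refine le_trans ?_ (add_le_add le_rfl (OG_le_Sstar g x))
  refine iSup₂_le fun R hR => ?_
  rw [S_add hf hg]
  refine (ENNReal.div_le_div_right (enorm_add_le _ _) _).trans ?_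
  rw [ENNReal.add_div]
  exact add_le_add (le_iSup₂_of_le R hR le_rfl) (le_iSup₂_of_le R hR le_rfl)

theorem OG_split (h3 : T_SHL) {f : E 2 → ℂ} (hf : Nice f) (j : ℤ) (x : E 2) :
    OG f x ≤ OG ((nb 2 j).indicator f) x +
      ∑' i : ℤ, if 2 ≤ |i - j| then Sstar ((sh 2 i).indicator f) x else 0 := by
  have hm := nb_meas (n := 2) j
  set g : E 2 → ℂ := (nb 2 j)ᶜ.indicator f with hg
  have hgN : Nice g := nice_ind hf hm.compl
  have e1 : f = fun y => (nb 2 j).indicator f y + g y := by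
    funext y
    rw [hg]
    exact (indicator_self_add_compl_apply (nb 2 j) f y).symm
  have e2 : OG f x ≤ OG ((nb 2 j).indicator f) x + Sstar g x := by
    conv_lhs => rw [e1]
    exact OG_add (hf.int.indicator hm) hgN.int x
  refine e2.trans (add_le_add le_rfl ?_)
  obtain ⟨-, h4, -, -⟩ := h3 2 g le_rfl hgN
  have h5 := h4 j x
  have e3 : (sh 2 (j - 1) ∪ sh 2 j ∪ sh 2 (j + 1)).indicator g = fun _ => (0 : ℂ) := by
    funext y
    by_cases hy : y ∈ sh 2 (j - 1) ∪ sh 2 j ∪ sh 2 (j + 1)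
    · rw [indicator_of_mem hy, hg, indicator_of_notMem]
      exact fun h => h hy
    · rw [indicator_of_notMem hy]
  rw [e3, Sstar_zero, zero_add] at h5
  refine h5.trans (ENNReal.tsum_le_tsum fun i => ?_)
  split_ifs with hij
  · have e4 : (sh 2 i).indicator g = (sh 2 i).indicator f := by
      funext y
      by_cases hy : y ∈ sh 2 i
      · rw [indicator_of_mem hy, indicator_of_mem hy, hg, indicator_of_mem]
        exact nb_far hij hy
      · rw [indicator_of_notMem hy, indicator_of_notMem hy]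
    rw [e4]
  · exact le_rfl

end GRW_

open GRW_ in
/-- GRW -/
theorem p_GRW (h1 : T_OFFN) (h3 : T_SHL) : T_GRW := by
  intro hG
  obtain ⟨C1, hN⟩ := hG
  obtain ⟨C2, hO⟩ := h1 2 le_rfl
  set W : ℝ≥0∞ := ∑' m, CRN.GLN_.ww m with hW
  have hWt : W ≠ ⊤ := ww_sum
  set Q : ℝ≥0∞ := 2 * (4096 * C1 * 3) + 2 * W * (C2 * W) with hQ
  have hQt : Q ≠ ⊤ := by
    rw [hQ]
    exact ENNReal.add_ne_top.2 ⟨ENNReal.mul_ne_top (by norm_num)
      (ENNReal.mul_ne_top (ENNReal.mul_ne_top (by norm_num) ENNReal.coe_ne_top) (by norm_num)),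
      ENNReal.mul_ne_top (ENNReal.mul_ne_top (by norm_num) hWt)
        (ENNReal.mul_ne_top ENNReal.coe_ne_top hWt)⟩
  refine ⟨Q.toNNReal, ?_⟩
  intro f hf
  rw [ENNReal.coe_toNNReal hQt]
  obtain ⟨-, -, hs3, hs1⟩ := h3 2 f le_rfl hf
  set L : ℝ≥0∞ := ∫⁻ x, ‖f x‖ₑ ^ 2 with hL
  set nr : ℤ → E 2 → ℂ := fun j => (nb 2 j).indicator f with hnr
  have hnrN : ∀ j, Nice (nr j) := fun j => nice_ind hf (nb_meas j)
  set fi : ℤ → E 2 → ℂ := fun i => (sh 2 i).indicator f with hfi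
  have hfiN : ∀ i, Nice (fi i) := fun i => nice_ind hf (meas_sh i)
  set a : ℤ → ℝ≥0∞ := fun i => ∫⁻ x, ‖fi i x‖ₑ ^ 2 with ha
  have has : ∑' i, a i ≤ L := hs1
  set nn : ℤ → ℝ≥0∞ := fun j => ∫⁻ x, ‖nr j x‖ₑ ^ 2 with hnn
  have hns : ∑' j, nn j ≤ 3 * L := hs3
  set t : ℤ → ℤ → E 2 → ℝ≥0∞ := fun j i x => if 2 ≤ |i - j| then Sstar (fi i) x else 0 with ht
  have htm : ∀ j i, Measurable (t j i) := by
    intro j i
    simp only [ht]
    by_cases hij : 2 ≤ |i - j|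
    · simp only [if_pos hij]
      exact Sstar_meas (hfiN i)
    · simp only [if_neg hij]
      exact measurable_const
  -- far terms
  have hfar : ∀ i j : ℤ, (CRN.GLN_.ww (i - j))⁻¹ * ∫⁻ x in sh 2 j, t j i x ^ 2 ≤
      C2 * (CRN.GLN_.ww (i - j) * a i) := by
    intro i j
    by_cases hij : 2 ≤ |i - j|
    · have g2 : ∫⁻ x in sh 2 j, t j i x ^ 2 ≤ C2 * CRN.GLN_.ww (i - j) ^ 2 * a i := by
        simp only [ht, if_pos hij]
        refine (hO i j (fi i) hij (hfiN i) ?_).trans (le_of_eq ?_)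
        · intro y hy
          by_contra hn
          exact hy (indicator_of_notMem hn f)
        · rw [ww_sq]
          simp only [Int.cast_sub, ha]
      calc (CRN.GLN_.ww (i - j))⁻¹ * ∫⁻ x in sh 2 j, t j i x ^ 2
          ≤ (CRN.GLN_.ww (i - j))⁻¹ * (C2 * CRN.GLN_.ww (i - j) ^ 2 * a i) := by gcongr
        _ = ((CRN.GLN_.ww (i - j))⁻¹ * CRN.GLN_.ww (i - j)) *
              (C2 * (CRN.GLN_.ww (i - j) * a i)) := by ring
        _ = _ := by
            rw [ENNReal.inv_mul_cancel (ww_ne_zero _) (ww_ne_top _), one_mul]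
    · simp only [ht, if_neg hij]
      simp
  -- one shell
  have hone : ∀ j : ℤ, ∫⁻ x in sh 2 j, OG f x ^ 2 ≤
      2 * (4096 * C1 * nn j) + 2 * W * ∑' i, C2 * (CRN.GLN_.ww (i - j) * a i) := by
    intro j
    have g1 : ∫⁻ x in sh 2 j, OG f x ^ 2 ≤ ∫⁻ x in sh 2 j, (2 * OG (nr j) x ^ 2 +
        2 * W * ∑' i : ℤ, (CRN.GLN_.ww (i - j))⁻¹ * t j i x ^ 2) := by
      refine setLIntegral_mono_ae' (meas_sh j) (ae_of_all _ fun x _ => ?_)
      have g2 : OG f x ≤ OG (nr j) x + ∑' i, t j i x := OG_split h3 hf j x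
      have g3 := cs_w (fun i => t j i x) (fun i => CRN.GLN_.ww (i - j)) (fun i => ww_ne_zero _)
        (fun i => ww_ne_top _)
      have g4 : ∑' i, CRN.GLN_.ww (i - j) = W := (Equiv.subRight j).tsum_eq CRN.GLN_.ww
      rw [g4] at g3
      calc OG f x ^ 2 ≤ (OG (nr j) x + ∑' i, t j i x) ^ 2 := by gcongr
        _ ≤ 2 * (OG (nr j) x ^ 2 + (∑' i, t j i x) ^ 2) := sq_add_le _ _
        _ ≤ 2 * (OG (nr j) x ^ 2 + (W * ∑' i, (CRN.GLN_.ww (i - j))⁻¹ * t j i x ^ 2)) := by gcongr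
        _ = _ := by ring
    refine g1.trans ?_
    have hm : ∀ i : ℤ, Measurable (fun x => (CRN.GLN_.ww (i - j))⁻¹ * t j i x ^ 2) := fun i =>
      ((htm j i).pow_const 2).const_mul _
    rw [lintegral_add_right _ ((Measurable.tsum hm).const_mul _),
      lintegral_const_mul' _ _ (by norm_num),
      lintegral_const_mul _ (Measurable.tsum hm), lintegral_tsum fun i =>
      (hm i).aemeasurable]
    refine add_le_add ?_ ?_
    · refine mul_le_mul' le_rfl ?_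
      exact near hN j (hnrN j)
    · refine mul_le_mul_right (ENNReal.tsum_le_tsum fun i => ?_) _
      rw [lintegral_const_mul _ ((htm j i).pow_const 2)]
      exact hfar i j
  -- all shells
  have hall : ∫⁻ x, OG f x ^ 2 ≤ ∑' j, ∫⁻ x in sh 2 j, OG f x ^ 2 := by
    have hsub : (univ : Set (E 2)) ⊆ {(0 : E 2)} ∪ ⋃ j, sh 2 j := by
      intro x _
      by_cases h0 : x = 0
      · left; exact h0
      · right
        obtain ⟨j, hj⟩ := sh_cover h0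
        exact mem_iUnion.2 ⟨j, hj⟩
    have hz : (volume : Measure (E 2)) {(0 : E 2)} = 0 := measure_singleton _
    calc ∫⁻ x, OG f x ^ 2 = ∫⁻ x in univ, OG f x ^ 2 := by rw [setLIntegral_univ]
      _ ≤ ∫⁻ x in {(0 : E 2)} ∪ ⋃ j, sh 2 j, OG f x ^ 2 := lintegral_mono_set hsub
      _ ≤ (∫⁻ x in {(0 : E 2)}, OG f x ^ 2) + ∫⁻ x in ⋃ j, sh 2 j, OG f x ^ 2 :=
          lintegral_union_le _ _ _
      _ = ∫⁻ x in ⋃ j, sh 2 j, OG f x ^ 2 := by
          rw [setLIntegral_measure_zero _ _ hz, zero_add]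
      _ ≤ _ := lintegral_iUnion_le _ _
  have hfars : ∑' j, ∑' i, C2 * (CRN.GLN_.ww (i - j) * a i) ≤ C2 * W * L := by
    rw [ENNReal.tsum_comm]
    have e1 : ∀ i, ∑' j, (C2 : ℝ≥0∞) * (CRN.GLN_.ww (i - j) * a i) = C2 * W * a i := by
      intro i
      rw [ENNReal.tsum_mul_left, ENNReal.tsum_mul_right, ww_shift, ← mul_assoc]
    simp only [e1, ENNReal.tsum_mul_left]
    gcongr
  change ∫⁻ x, OG f x ^ 2 ≤ _
  calc ∫⁻ x, OG f x ^ 2 ≤ ∑' j, ∫⁻ x in sh 2 j, OG f x ^ 2 := hall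
    _ ≤ ∑' j, (2 * (4096 * C1 * nn j) + 2 * W * ∑' i, C2 * (CRN.GLN_.ww (i - j) * a i)) :=
        ENNReal.tsum_le_tsum hone
    _ = 2 * (4096 * C1 * ∑' j, nn j) +
          2 * W * ∑' j, ∑' i, C2 * (CRN.GLN_.ww (i - j) * a i) := by
        rw [ENNReal.tsum_add, ENNReal.tsum_mul_left, ENNReal.tsum_mul_left,
          ENNReal.tsum_mul_left]
    _ ≤ 2 * (4096 * C1 * (3 * L)) + 2 * W * (C2 * W * L) := by gcongr
    _ = Q * L := by rw [hQ]; ring

end Pool.Agent.CRW
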