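import Pool.Agent.CRW.Targets
import Pool.Agent.CRR.P_HANK

set_option autoImplicit false

/-!
# CRW: density and Fatou (target HGB)
-/

namespace Pool.Agent.CRW

open MeasureTheory FourierTransform Set Filter Topology
open scoped ENNReal NNReal ComplexConjugate
open Pool.Agent.MBS (E ex S Sstar)
open Pool.Agent.CAR (e1)
open Pool.Agent.CRN (ci SH S1 Nice T_CARLS)
open Pool.Agent.CRR (PP Sol xc E2 NSol kap aa de la si ww band fh StripD FS FA HH T_SEQ T_VCR T_DEC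
  T_HANK)

namespace HGB_

theorem ind_eq (κ g : ℝ → ℂ) (c u V1 V2 : ℝ) :
    ∫ v in Ioc V1 V2, (Ici c).indicator κ (u + v) * g v = CRR.HANK_.T κ c g u V1 V2 := by
  rw [CRR.HANK_.T_eq]
  refine setIntegral_congr_fun measurableSet_Ioc fun v _ => ?_
  by_cases h : c ≤ u + v
  · rw [indicator_of_mem (show u + v ∈ Ici c from h),
      indicator_of_mem (show v ∈ {v | c ≤ u + v} from h)]
  · rw [indicator_of_notMem (show u + v ∉ Ici c from h),
      indicator_of_notMem (show v ∉ {v | c ≤ u + v} from h), zero_mul]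

end HGB_

open HGB_ CRR.HANK_ in
/-- HGB. -/
theorem p_HGB (h1 : T_HIG) : T_HGB := by
  intro hCar A hA
  obtain ⟨C, hC⟩ := h1 hCar A hA
  refine ⟨2 * C + 1, fun ν κ hν hK g hg => ?_⟩
  by_cases hfin : ∫⁻ v, ‖g v‖ₑ ^ 2 = ⊤
  · rw [hfin, ENNReal.mul_top]
    · exact le_top
    · push_cast
      positivity
  have hgL : MemLp g 2 volume := by
    refine ⟨hg.aestronglyMeasurable, ?_⟩
    rw [lint_eq] at hfin
    exact lt_top_iff_ne_top.2 fun h0 => hfin (by rw [h0]; simp)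
  obtain ⟨G, hG, hlim⟩ := approx hgL
  have hT : ∫⁻ u, TT κ (xc ν) g u ^ 2 ≤ 2 * C * ∫⁻ v, ‖g v‖ₑ ^ 2 := by
    refine limit hK.cont hgL C (fun n => (hG n).1) hlim fun n => ?_
    obtain ⟨H, hH, hH1, hH2⟩ := (hG n).2
    have := hC ν κ H hν hK hH
    rw [hH1, hH2] at this
    exact this
  calc ∫⁻ u, (⨆ (V1 : ℝ) (V2 : ℝ),
        ‖∫ v in Ioc V1 V2, (Ici (xc ν)).indicator κ (u + v) * g v‖ₑ) ^ 2
      = ∫⁻ u, TT κ (xc ν) g u ^ 2 := by
        simp_rw [ind_eq]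
        rfl
    _ ≤ 2 * C * ∫⁻ v, ‖g v‖ₑ ^ 2 := hT
    _ = ((2 * C : ℝ≥0) : ℝ≥0∞) * ∫⁻ v, ‖g v‖ₑ ^ 2 := by push_cast; rfl
    _ ≤ _ := by
        refine mul_le_mul_left (ENNReal.coe_le_coe.2 ?_) _
        exact le_self_add

end Pool.Agent.CRW
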