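import Pool.Agent.CRW.Targets
import Pool.Agent.CRR.P_HI

set_option autoImplicit false

/-!
# CRW: HIG: the oscillatory region for a general kernel
-/

namespace Pool.Agent.CRW

open MeasureTheory FourierTransform Set Filter Topology
open scoped ENNReal NNReal ComplexConjugate
open Pool.Agent.CAR (e1)
open Pool.Agent.CRN (T_CARLS)
open Pool.Agent.CRR (xc aa de fh FS FA HH T_SEQ)

theorem p_HIG (h1 : T_SEQ) (h2 : T_PTG) (h3 : T_TLG) : T_HIG := by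
  intro hC A hA
  obtain ⟨C2, hC2⟩ := h2 hC A hA
  obtain ⟨C3, hC3⟩ := h3 hC A hA
  refine ⟨8 * C2 + 8 * C3, fun ν κ H hν hK hH => ?_⟩
  obtain ⟨-, hinf, hk⟩ := h1 ν hν
  have had : ∀ k, aa ν (k + 1) = aa ν k + de ν k := fun k => (hk k).2.2.2.1
  have hd : ∀ k, 0 < de ν k := fun k => (hk k).2.1
  have hκ := hK.cont
  have hh := Pool.Agent.CRR.HI_.fh_cont hH.int
  have e2 := hC2 ν κ H hν hK hH
  have e3 := hC3 ν κ H hν hK hH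
  set S : ℕ → ℝ → ℝ≥0∞ := fun k u =>
    ⨆ (V1 : ℝ) (V2 : ℝ), ‖FS κ (aa ν k) (de ν k) (fh H) u V1 V2‖ₑ with hS
  set T : ℝ → ℝ≥0∞ := fun u =>
    ⨆ n : ℕ, ‖∑ k ∈ Finset.range n, FA κ (aa ν k) (de ν k) (fh H) u‖ₑ with hT
  have hTm : Measurable T := by
    refine Measurable.iSup fun n => Measurable.enorm ?_
    exact Finset.measurable_sum _ fun k _ => Pool.Agent.CRR.HI_.fa_meas hκ hh _ _
  have hFS : ∀ k u V1 V2, ‖FS κ (aa ν k) (de ν k) (fh H) u V1 V2‖ₑ ≤ S k u :=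
    fun k u V1 V2 => le_iSup₂ (f := fun V1 V2 =>
      ‖FS κ (aa ν k) (de ν k) (fh H) u V1 V2‖ₑ) V1 V2
  have hSS : ∀ k u, S k u ^ 2 ≤ ∑' k, S k u ^ 2 := fun k u => ENNReal.le_tsum k
  have hpt : ∀ u, (⨆ (V1 : ℝ) (V2 : ℝ),
      ‖∫ v in Ioc V1 V2 ∩ {v | xc ν ≤ u + v}, κ (u + v) * fh H v‖ₑ) ^ 2 ≤
      8 * ∑' k, S k u ^ 2 + 8 * T u ^ 2 := by
    intro u
    refine Pool.Agent.CRR.HI_.sup_sq _ _ fun V1 => Pool.Agent.CRR.HI_.sup_sq _ _ fun V2 => ?_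
    obtain ⟨m1, m2, n1, n2, hb⟩ := Pool.Agent.CRR.HI_.pw hκ hh had hd hinf u V1 V2
    have hb' : ‖∫ v in Ioc V1 V2 ∩ {v | xc ν ≤ u + v}, κ (u + v) * fh H v‖ₑ ≤
        S m1 u + S m2 u + (T u + T u) := by
      refine hb.trans ?_
      gcongr
      · exact hFS _ _ _ _
      · exact hFS _ _ _ _
      · exact le_iSup (fun n : ℕ => ‖∑ k ∈ Finset.range n,
          FA κ (aa ν k) (de ν k) (fh H) u‖ₑ) n1
      · exact le_iSup (fun n : ℕ => ‖∑ k ∈ Finset.range n,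
          FA κ (aa ν k) (de ν k) (fh H) u‖ₑ) n2
    calc _ ≤ (S m1 u + S m2 u + (T u + T u)) ^ 2 := by gcongr
      _ ≤ 4 * (S m1 u ^ 2 + S m2 u ^ 2 + (T u ^ 2 + T u ^ 2)) := Pool.Agent.CRR.HI_.sq4 _ _ _ _
      _ ≤ 4 * (∑' k, S k u ^ 2 + ∑' k, S k u ^ 2 + (T u ^ 2 + T u ^ 2)) := by
          gcongr
          · exact hSS _ _
          · exact hSS _ _
      _ = _ := by ring
  calc _ ≤ ∫⁻ u, (8 * ∑' k, S k u ^ 2 + 8 * T u ^ 2) := lintegral_mono hpt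
    _ = (∫⁻ u, 8 * ∑' k, S k u ^ 2) + ∫⁻ u, 8 * T u ^ 2 :=
        lintegral_add_right _ ((hTm.pow_const 2).const_mul 8)
    _ = 8 * (∫⁻ u, ∑' k, S k u ^ 2) + 8 * ∫⁻ u, T u ^ 2 := by
        rw [lintegral_const_mul' _ _ (by norm_num), lintegral_const_mul' _ _ (by norm_num)]
    _ ≤ 8 * (C2 * ∫⁻ s, ‖H s‖ₑ ^ 2) + 8 * (C3 * ∫⁻ s, ‖H s‖ₑ ^ 2) := by gcongr
    _ = _ := by push_cast; ring

end Pool.Agent.CRW
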