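import Pool.Agent.CRW.Targets
import Pool.Agent.CRR.P_HANK

set_option autoImplicit false

/-!
# CRW, target HKB: two-sided truncations for the kernel `kap J`
-/

namespace Pool.Agent.CRW

open MeasureTheory FourierTransform Set Filter Topology
open scoped ENNReal NNReal ComplexConjugate
open Pool.Agent.CRN (T_CARLS)
open Pool.Agent.CRR (PP Sol xc E2 NSol kap T_HANK)
open Pool.Agent.CRR.HANK_ (lint_eq kap_cont)

namespace HKB_

/-- `kap J` is `O(e^x)` on every left half line -/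
theorem kap_bd {ν : ℝ} {J J' : ℝ → ℝ} (h : Sol ν J J') (c : ℝ) :
    ∃ M : ℝ, 0 ≤ M ∧ ∀ x ≤ c, ‖kap J x‖ ≤ M * Real.exp x := by
  obtain ⟨B, hB⟩ := h.bd
  have hJ : Continuous J := continuous_iff_continuousAt.2 fun x => (h.d1 x).continuousAt
  obtain ⟨M, hM⟩ := isCompact_Icc.exists_bound_of_continuousOn (s := Icc 0 c) (f := J)
    hJ.continuousOn
  refine ⟨max (max M B) 0, le_max_right _ _, fun x hx => ?_⟩
  have h1 : ‖kap J x‖ = |J x| * Real.exp x := by
    unfold kap
    rw [Complex.norm_real, Real.norm_eq_abs, abs_mul, abs_of_pos (Real.exp_pos x), mul_comm]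
  rw [h1]
  refine mul_le_mul_of_nonneg_right ?_ (Real.exp_pos x).le
  rcases le_or_gt x 0 with h0 | h0
  · exact (hB x h0).trans ((le_max_right _ _).trans (le_max_left _ _))
  · have := hM x ⟨h0.le, hx⟩
    rw [Real.norm_eq_abs] at this
    exact this.trans ((le_max_left _ _).trans (le_max_left _ _))

theorem int_Iic {ν : ℝ} {J J' : ℝ → ℝ} (h : Sol ν J J') {g : ℝ → ℂ} (hg : MemLp g 2 volume)
    (u V : ℝ) : IntegrableOn (fun v => kap J (u + v) * g v) (Iic V) := by
  obtain ⟨M, hM0, hM⟩ := kap_bd h (u + V)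
  have hk : Continuous fun v => kap J (u + v) :=
    (kap_cont h).comp (continuous_const.add continuous_id)
  have h1 : MemLp (fun v => kap J (u + v)) 2 (volume.restrict (Iic V)) := by
    rw [memLp_two_iff_integrable_sq_norm hk.aestronglyMeasurable]
    have h2 : IntegrableOn (fun v => M ^ 2 * Real.exp (2 * u) * Real.exp (2 * v)) (Iic V) :=
      (integrableOn_exp_mul_Iic (by norm_num : (0 : ℝ) < 2) V).const_mul _
    refine h2.mono' (hk.norm.pow 2).aestronglyMeasurable ?_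
    rw [ae_restrict_iff' measurableSet_Iic]
    refine Eventually.of_forall fun v hv => ?_
    have h3 := hM (u + v) (by have := mem_Iic.1 hv; linarith)
    rw [Real.norm_eq_abs, abs_of_nonneg (by positivity)]
    calc ‖kap J (u + v)‖ ^ 2 ≤ (M * Real.exp (u + v)) ^ 2 := by gcongr
      _ = M ^ 2 * Real.exp (2 * u) * Real.exp (2 * v) := by
        rw [mul_pow, ← Real.exp_nat_mul, mul_assoc, ← Real.exp_add]
        congr 2
        push_cast
        ring
  exact h1.integrable_mul (hg.restrict (Iic V))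

end HKB_

open HKB_ in
theorem p_HKB : T_HKB := by
  intro hHA hC
  obtain ⟨C, hC'⟩ := hHA hC
  refine ⟨4 * C + 1, fun ν J J' hν hN g hg => ?_⟩
  by_cases hfin : ∫⁻ v, ‖g v‖ₑ ^ 2 = ⊤
  · rw [hfin, ENNReal.mul_top]
    · exact le_top
    · push_cast
      positivity
  have hgL : MemLp g 2 volume := by
    refine ⟨hg.aestronglyMeasurable, ?_⟩
    rw [lint_eq] at hfin
    exact lt_top_iff_ne_top.2 fun h0 => hfin (by rw [h0]; simp)
  have key := hC' ν J J' g hν hN hg
  have h1 : ∀ u, (⨆ (V1 : ℝ) (V2 : ℝ), ‖∫ v in Ioc V1 V2, kap J (u + v) * g v‖ₑ) ≤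
      2 * ⨆ V : ℝ, ‖∫ v in Iic V, kap J (u + v) * g v‖ₑ := by
    intro u
    refine iSup_le fun V1 => iSup_le fun V2 => ?_
    rcases le_or_gt V1 V2 with h | h
    · have hU : Iic V2 = Iic V1 ∪ Ioc V1 V2 := (Iic_union_Ioc_eq_Iic h).symm
      have hd : Disjoint (Iic V1) (Ioc V1 V2) := by
        rw [Set.disjoint_left]
        intro x hx hx2
        exact absurd (mem_Iic.1 hx) (not_le.2 hx2.1)
      have i2 := int_Iic hN.sol hgL u V2
      have e1 : ∫ v in Iic V2, kap J (u + v) * g v =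
          (∫ v in Iic V1, kap J (u + v) * g v) + ∫ v in Ioc V1 V2, kap J (u + v) * g v := by
        rw [hU]
        refine setIntegral_union hd measurableSet_Ioc (int_Iic hN.sol hgL u V1) ?_
        exact i2.mono_set fun x hx => hx.2
      have e2 : ∫ v in Ioc V1 V2, kap J (u + v) * g v =
          (∫ v in Iic V2, kap J (u + v) * g v) - ∫ v in Iic V1, kap J (u + v) * g v := by
        rw [e1]
        ring
      rw [e2]
      refine enorm_sub_le.trans ?_
      rw [two_mul]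
      exact add_le_add (le_iSup (fun V : ℝ => ‖∫ v in Iic V, kap J (u + v) * g v‖ₑ) V2)
        (le_iSup (fun V : ℝ => ‖∫ v in Iic V, kap J (u + v) * g v‖ₑ) V1)
    · rw [Ioc_eq_empty (not_lt.2 h.le)]
      simp
  calc ∫⁻ u, (⨆ (V1 : ℝ) (V2 : ℝ), ‖∫ v in Ioc V1 V2, kap J (u + v) * g v‖ₑ) ^ 2
      ≤ ∫⁻ u, 4 * (⨆ V : ℝ, ‖∫ v in Iic V, kap J (u + v) * g v‖ₑ) ^ 2 := by
        refine lintegral_mono fun u => ?_
        calc (⨆ (V1 : ℝ) (V2 : ℝ), ‖∫ v in Ioc V1 V2, kap J (u + v) * g v‖ₑ) ^ 2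
            ≤ (2 * ⨆ V : ℝ, ‖∫ v in Iic V, kap J (u + v) * g v‖ₑ) ^ 2 := by
              gcongr
              exact h1 u
          _ = _ := by
              rw [mul_pow]
              norm_num
    _ = 4 * ∫⁻ u, (⨆ V : ℝ, ‖∫ v in Iic V, kap J (u + v) * g v‖ₑ) ^ 2 :=
        lintegral_const_mul' _ _ (by norm_num)
    _ ≤ 4 * (C * ∫⁻ v, ‖g v‖ₑ ^ 2) := by gcongr
    _ = ((4 * C : ℝ≥0) : ℝ≥0∞) * ∫⁻ v, ‖g v‖ₑ ^ 2 := by
        push_cast
        ring
    _ ≤ _ := by
        refine mul_le_mul_left (ENNReal.coe_le_coe.2 ?_) _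
        exact le_self_add

end Pool.Agent.CRW
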