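import Pool.Agent.CRW.Targets2

set_option autoImplicit false

/-! CRW-JTL: decay in the forbidden region. -/

namespace Pool.Agent.CRW

open MeasureTheory Set Filter Topology
open Pool.Agent.CRR (PP Sol xc NSol T_FOR)

namespace JTL_

theorem PP_cont (ν : ℝ) : Continuous (PP ν) := by
  unfold PP; fun_prop

theorem PP_log {ν : ℝ} (h : 0 < ν) : PP ν (Real.log ν) = 0 := by
  unfold PP
  rw [two_mul, Real.exp_add, Real.exp_log h]
  ring

theorem log_le_xc {ν : ℝ} (h : 1 ≤ ν) : Real.log ν ≤ xc ν := by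
  unfold xc
  apply Real.log_le_log (by linarith)
  have : 0 ≤ (1 + ν) ^ (1 / 3 : ℝ) := by positivity
  linarith

/-- the elementary inequality -/
theorem elem {τ : ℝ} (hτ : 0 ≤ τ) :
    min (τ ^ (3 / 2 : ℝ)) τ / 4 ≤ τ / 2 * Real.sqrt (1 - Real.exp (-τ)) := by
  rcases le_or_gt τ 1 with h | h
  · have h1 : min (τ ^ (3 / 2 : ℝ)) τ ≤ τ ^ (3 / 2 : ℝ) := min_le_left _ _
    have h2 : τ ^ (3 / 2 : ℝ) = τ * Real.sqrt τ := by
      rw [show (3 / 2 : ℝ) = 1 + 1 / 2 by norm_num, Real.rpow_add_of_nonneg hτ (by norm_num) (by norm_num),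
        Real.rpow_one, Real.sqrt_eq_rpow]
    have h3 : Real.sqrt τ / 2 ≤ Real.sqrt (1 - Real.exp (-τ)) := by
      apply Real.le_sqrt_of_sq_le
      rw [div_pow, Real.sq_sqrt hτ]
      have h4 : Real.exp (-τ) ≤ (1 + τ)⁻¹ := by
        rw [Real.exp_neg]
        apply inv_anti₀ (by linarith)
        have := Real.add_one_le_exp τ
        linarith
      have h5 : (1 + τ)⁻¹ ≤ 1 - τ / 2 ^ 2 := by
        rw [inv_le_iff_one_le_mul₀ (by linarith)]
        nlinarith
      linarith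
    have h6 : τ / 2 * (Real.sqrt τ / 2) ≤ τ / 2 * Real.sqrt (1 - Real.exp (-τ)) :=
      mul_le_mul_of_nonneg_left h3 (by linarith)
    have h7 := h1.trans_eq h2
    linarith
  · have h1 : min (τ ^ (3 / 2 : ℝ)) τ ≤ τ := min_le_right _ _
    have h3 : (1 / 2 : ℝ) ≤ Real.sqrt (1 - Real.exp (-τ)) := by
      apply Real.le_sqrt_of_sq_le
      have h4 : Real.exp (-τ) ≤ (1 + τ)⁻¹ := by
        rw [Real.exp_neg]
        apply inv_anti₀ (by linarith)
        have := Real.add_one_le_exp τ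
        linarith
      have h5 : (1 + τ)⁻¹ ≤ 1 / 2 := by
        rw [inv_eq_one_div]
        apply one_div_le_one_div_of_le (by norm_num)
        linarith
      linarith
    have h6 : τ / 2 * (1 / 2) ≤ τ / 2 * Real.sqrt (1 - Real.exp (-τ)) :=
      mul_le_mul_of_nonneg_left h3 (by linarith)
    linarith

theorem key {ν τ : ℝ} (hν : 1 ≤ ν) (hτ : 0 ≤ τ) :
    ν * min (τ ^ (3 / 2 : ℝ)) τ / 4 ≤
      ∫ s in (Real.log ν - τ)..(Real.log ν), Real.sqrt (-(PP ν s)) := by
  have hν0 : 0 < ν := by linarith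
  obtain ⟨b, hb⟩ : ∃ b : ℝ, b = Real.log ν := ⟨_, rfl⟩
  rw [← hb]
  have hexpb : Real.exp b = ν := by rw [hb]; exact Real.exp_log hν0
  have hc : Continuous (fun s => Real.sqrt (-(PP ν s))) :=
    Real.continuous_sqrt.comp (PP_cont ν).neg
  have h1 : (∫ s in (b - τ)..b, Real.sqrt (-(PP ν s))) =
      (∫ s in (b - τ)..(b - τ / 2), Real.sqrt (-(PP ν s))) +
        ∫ s in (b - τ / 2)..b, Real.sqrt (-(PP ν s)) :=
    (intervalIntegral.integral_add_adjacent_intervals (hc.intervalIntegrable _ _)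
      (hc.intervalIntegrable _ _)).symm
  have h2 : 0 ≤ ∫ s in (b - τ / 2)..b, Real.sqrt (-(PP ν s)) :=
    intervalIntegral.integral_nonneg (by linarith) (fun s _ => Real.sqrt_nonneg _)
  have h3 : (τ / 2) * (ν * Real.sqrt (1 - Real.exp (-τ))) ≤
      ∫ s in (b - τ)..(b - τ / 2), Real.sqrt (-(PP ν s)) := by
    have a1 : (∫ _ in (b - τ)..(b - τ / 2), (ν * Real.sqrt (1 - Real.exp (-τ)) : ℝ)) ≤
        ∫ s in (b - τ)..(b - τ / 2), Real.sqrt (-(PP ν s)) := by
      apply intervalIntegral.integral_mono_on (by linarith)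
        (continuous_const.intervalIntegrable _ _) (hc.intervalIntegrable _ _)
      intro s hs
      apply Real.le_sqrt_of_sq_le
      have b0 : 0 ≤ 1 - Real.exp (-τ) := by
        have : Real.exp (-τ) ≤ 1 := Real.exp_le_one_iff.mpr (by linarith)
        linarith
      rw [mul_pow, Real.sq_sqrt b0]
      have b1 : Real.exp (2 * s) ≤ ν ^ 2 * Real.exp (-τ) := by
        have : Real.exp (2 * s) ≤ Real.exp (2 * (b - τ / 2)) :=
          Real.exp_le_exp.mpr (by linarith [hs.2])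
        refine this.trans_eq ?_
        rw [← hexpb, ← Real.exp_nat_mul, ← Real.exp_add]
        congr 1
        push_cast
        ring
      unfold PP
      linarith
    rw [intervalIntegral.integral_const, smul_eq_mul] at a1
    have a2 : b - τ / 2 - (b - τ) = τ / 2 := by ring
    rwa [a2] at a1
  have h4 := mul_le_mul_of_nonneg_left (elem hτ) hν0.le
  have h5 : ν * (min (τ ^ (3 / 2 : ℝ)) τ / 4) = ν * min (τ ^ (3 / 2 : ℝ)) τ / 4 := by ring
  have h6 : ν * (τ / 2 * Real.sqrt (1 - Real.exp (-τ))) =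
      (τ / 2) * (ν * Real.sqrt (1 - Real.exp (-τ))) := by ring
  rw [h5, h6] at h4
  linarith

end JTL_

open JTL_ in
theorem p_JTL (h1 : T_FOR) (h2 : T_JUP) : T_JTL := by
  obtain ⟨C, hC, hJ⟩ := h2
  refine ⟨C, hC, ?_⟩
  intro ν τ J J' hν hτ hN
  have hν0 : 0 < ν := by linarith
  have hb := (hJ ν J J' hν hN).1 (Real.log ν) (log_le_xc hν)
  have hF := h1 ν J J' (Real.log ν - τ) (Real.log ν) (by linarith) hN.sol (by linarith)
    (PP_log hν0).le
  refine hF.trans ?_
  refine mul_le_mul hb ?_ (Real.exp_pos _).le ((abs_nonneg _).trans hb)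
  apply Real.exp_le_exp.mpr
  have := key hν hτ
  linarith

end Pool.Agent.CRW
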