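import Pool.Agent.CRW.Targets2
import Pool.Agent.CRR.P_LOW

/-!
# CRW, target JUP: bounds for `J` up to the turning zone
-/

set_option autoImplicit false

namespace Pool.Agent.CRW

open MeasureTheory FourierTransform Set Filter Topology
open scoped ENNReal NNReal ComplexConjugate
open Pool.Agent.CRR (PP Sol xc E2 NSol T_SEQ T_QID T_FOR)

namespace JUP_

theorem inv_le {ν c : ℝ} (hν : 1 ≤ ν) (hc : 1 ≤ c) (hc3 : c ^ 3 = 1 + ν) :
    1 / c ≤ ν ^ (-(1 / 3) : ℝ) ∧ 1 / c ^ 4 ≤ ν ^ (-(4 / 3) : ℝ) := by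
  have hν0 : 0 < ν := by linarith
  have hc0 : 0 < c := by linarith
  obtain ⟨t, ht⟩ : ∃ t : ℝ, t = ν ^ (1 / 3 : ℝ) := ⟨_, rfl⟩
  have ht0 : 0 < t := by rw [ht]; exact Real.rpow_pos_of_pos hν0 _
  have ht3 : t ^ 3 = ν := by
    rw [ht, ← Real.rpow_natCast, ← Real.rpow_mul hν0.le]
    norm_num
  have htc : t ≤ c := by
    refine le_of_not_gt fun h => ?_
    have := pow_lt_pow_left₀ h hc0.le (by norm_num : (3 : ℕ) ≠ 0)
    linarith
  have e1 : ν ^ (-(1 / 3) : ℝ) = 1 / t := by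
    rw [Real.rpow_neg hν0.le, ← ht, one_div]
  have e2 : ν ^ (-(4 / 3) : ℝ) = 1 / t ^ 4 := by
    rw [Real.rpow_neg hν0.le, one_div, ht, ← Real.rpow_natCast, ← Real.rpow_mul hν0.le]
    norm_num
  rw [e1, e2]
  exact ⟨one_div_le_one_div_of_le ht0 htc,
    one_div_le_one_div_of_le (by positivity) (pow_le_pow_left₀ ht0.le htc 4)⟩

end JUP_

open JUP_ Pool.Agent.CRR.LOW_ in
/-- JUP. -/
theorem p_JUP (_h1 : T_SEQ) (h2 : T_QID) (h3 : T_FOR) : T_JUP := by
  refine ⟨10 ^ 15, by norm_num, ?_⟩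
  intro ν J J' hν h
  obtain ⟨c, hc, hc3, he, hP1, hP2⟩ := par ν (by linarith)
  obtain ⟨hb, hlen, hmid⟩ := mid h2 hν h hc hc3 he hP1 hP2
  have hfar := far h3 hν h.sol hc hc3
  obtain ⟨hi1, hi4⟩ := inv_le hν hc hc3
  have hν0 : 0 < ν := by linarith
  have hc0 : 0 < c := by linarith
  obtain ⟨b, hbd⟩ : ∃ b : ℝ, b = Real.log ν := ⟨_, rfl⟩
  have hPb : PP ν b = 0 := by
    rw [hbd]
    exact PP_log hν0
  rw [← hbd] at hb hlen hmid hfar
  have hJb : |J b| ≤ 342001 / c := hmid b le_rfl hb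
  have hall : ∀ x, x ≤ xc ν → |J x| ≤ 342001 / c := by
    intro x hx
    rcases le_or_gt b x with h5 | h5
    · exact hmid x h5 hx
    · exact (forb h3 (by linarith) h.sol h5.le hPb.le).trans hJb
  refine ⟨fun x hx => (hall x hx).trans ?_, ?_⟩
  · have e : 342001 / c = 342001 * (1 / c) := by ring
    rw [e]
    exact mul_le_mul (by norm_num) hi1 (by positivity) (by norm_num)
  have hI : ∫⁻ x in Iic b, ENNReal.ofReal (J x ^ 2) ≤ ENNReal.ofReal (5 * 342001 ^ 2 / c ^ 4) := by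
    have hm : 0 < 2 * c ^ 2 / 3 := by positivity
    obtain ⟨K, hK⟩ : ∃ K : ℝ, K = (342001 / c) ^ 2 * Real.exp (2 * (1 - c ^ 2 * b) / 3) := ⟨_, rfl⟩
    have hK0 : 0 ≤ K := by
      rw [hK]
      positivity
    calc ∫⁻ x in Iic b, ENNReal.ofReal (J x ^ 2)
        ≤ ∫⁻ x in Iic b, ENNReal.ofReal (K * Real.exp (2 * c ^ 2 / 3 * x)) := by
          refine setLIntegral_mono' measurableSet_Iic fun x hx => ENNReal.ofReal_le_ofReal ?_
          have a1 := hfar x hx
          have a2 : |J x| ≤ 342001 / c * Real.exp ((1 - c ^ 2 * (b - x)) / 3) :=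
            a1.trans (mul_le_mul_of_nonneg_right hJb (Real.exp_pos _).le)
          rw [← sq_abs]
          refine (pow_le_pow_left₀ (abs_nonneg _) a2 2).trans (le_of_eq ?_)
          rw [hK, mul_pow, mul_assoc, ← Real.exp_nat_mul, ← Real.exp_add]
          congr 2
          push_cast
          ring
      _ = ENNReal.ofReal (K * (Real.exp (2 * c ^ 2 / 3 * b) / (2 * c ^ 2 / 3))) := lint hK0 hm
      _ ≤ ENNReal.ofReal (5 * 342001 ^ 2 / c ^ 4) := by
          apply ENNReal.ofReal_le_ofReal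
          have a2 : Real.exp (2 / 3) = Real.exp (2 * (1 - c ^ 2 * b) / 3) *
              Real.exp (2 * c ^ 2 / 3 * b) := by
            rw [← Real.exp_add]
            congr 1
            ring
          have a1 : K * (Real.exp (2 * c ^ 2 / 3 * b) / (2 * c ^ 2 / 3)) =
              3 / 2 * Real.exp (2 / 3) * (342001 ^ 2 / c ^ 4) := by
            rw [hK, a2]
            field_simp
          rw [a1]
          have a4 : Real.exp (2 / 3) ≤ 3 := by
            have d1 : Real.exp (2 / 3) ≤ Real.exp 1 := Real.exp_le_exp.mpr (by norm_num)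
            have d2 := Real.exp_one_lt_d9
            linarith
          have a5 : (5 : ℝ) * 342001 ^ 2 / c ^ 4 = 5 * (342001 ^ 2 / c ^ 4) := by ring
          rw [a5]
          refine mul_le_mul_of_nonneg_right ?_ (by positivity)
          linarith
  have hII : ∫⁻ x in Icc b (xc ν), ENNReal.ofReal (J x ^ 2) ≤
      ENNReal.ofReal (6000 * 342001 ^ 2 / c ^ 4) := by
    calc ∫⁻ x in Icc b (xc ν), ENNReal.ofReal (J x ^ 2)
        ≤ ∫⁻ _x in Icc b (xc ν), ENNReal.ofReal ((342001 / c) ^ 2) := by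
          refine setLIntegral_mono' measurableSet_Icc fun x hx => ENNReal.ofReal_le_ofReal ?_
          rw [← sq_abs]
          exact pow_le_pow_left₀ (abs_nonneg _) (hmid x hx.1 hx.2) 2
      _ = ENNReal.ofReal ((342001 / c) ^ 2 * (xc ν - b)) := by
          rw [setLIntegral_const, Real.volume_Icc, ← ENNReal.ofReal_mul (by positivity)]
      _ ≤ ENNReal.ofReal (6000 * 342001 ^ 2 / c ^ 4) := by
          apply ENNReal.ofReal_le_ofReal
          refine (mul_le_mul_of_nonneg_left hlen (by positivity)).trans (le_of_eq ?_)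
          field_simp
  calc ∫⁻ x in Iic (xc ν), ENNReal.ofReal (J x ^ 2)
      ≤ ∫⁻ x in Iic b ∪ Icc b (xc ν), ENNReal.ofReal (J x ^ 2) := by
        apply lintegral_mono_set
        intro x hx
        rcases le_or_gt x b with h5 | h5
        · exact Or.inl h5
        · exact Or.inr ⟨h5.le, hx⟩
    _ ≤ (∫⁻ x in Iic b, ENNReal.ofReal (J x ^ 2)) +
          ∫⁻ x in Icc b (xc ν), ENNReal.ofReal (J x ^ 2) := lintegral_union_le _ _ _
    _ ≤ ENNReal.ofReal (5 * 342001 ^ 2 / c ^ 4) + ENNReal.ofReal (6000 * 342001 ^ 2 / c ^ 4) :=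
        add_le_add hI hII
    _ = ENNReal.ofReal (6005 * 342001 ^ 2 * (1 / c ^ 4)) := by
        rw [← ENNReal.ofReal_add (by positivity) (by positivity)]
        congr 1
        ring
    _ ≤ ENNReal.ofReal (10 ^ 15 * ν ^ (-(4 / 3) : ℝ)) := by
        apply ENNReal.ofReal_le_ofReal
        exact mul_le_mul (by norm_num) hi4 (by positivity) (by norm_num)

end Pool.Agent.CRW
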