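import Pool.Agent.CRW.Targets
import Pool.Agent.CRR.P_PHS

set_option autoImplicit false

/-!
# CRW: the pure WKB kernels (KPM)
-/

namespace Pool.Agent.CRW

open MeasureTheory Set Filter Topology
open scoped ENNReal NNReal ComplexConjugate
open Pool.Agent.CAR (e1)
open Pool.Agent.CRR (PP xc aa de la si StripD Ph T_SEQ)

namespace KPM_

open Pool.Agent.CRR.PHS_

/-- a kernel with two WKB terms satisfies the strip condition -/
theorem strip (h1 : T_SEQ) {C : ℝ} (hC : 0 < C) {ν : ℝ} (hν : 0 ≤ ν) (k : ℕ) {κ : ℝ → ℂ}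
    {Θ : ℝ → ℝ} {B1 B2 D1 D2 : ℝ → ℂ} (cD1 : ContinuousOn D1 (Ici (xc ν)))
    (cD2 : ContinuousOn D2 (Ici (xc ν)))
    (hB : ∀ x, xc ν ≤ x →
      HasDerivAt Θ (Real.sqrt (PP ν x) / (2 * Real.pi)) x ∧ HasDerivAt B1 (D1 x) x ∧
      HasDerivAt B2 (D2 x) x ∧ ‖B1 x‖ ≤ C ∧ ‖B2 x‖ ≤ C ∧
      ‖D1 x‖ ≤ C * Real.exp (4 * x) * PP ν x ^ (-(5 / 2) : ℝ) ∧
      ‖D2 x‖ ≤ C * Real.exp (4 * x) * PP ν x ^ (-(5 / 2) : ℝ) ∧
      κ x = ((am ν x : ℝ) : ℂ) * (e1 (Θ x) * B1 x + e1 (-Θ x) * B2 x)) :
    StripD (6 * C + 13) (aa ν k) (de ν k) (la ν k) κ := by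
  have hpi := Real.pi_pos
  have hpi3 := Real.pi_gt_three
  have hpi4 := Real.pi_lt_d2
  obtain ⟨hP1, -, hS⟩ := h1 ν hν
  obtain ⟨hxa, hd0, hd1, hak, hl0, hsi, -, -, hM, -, hstrip⟩ := hS k
  set a : ℝ := aa ν k with ha
  set d : ℝ := de ν k with hd
  set lam : ℝ := la ν k with hlam
  rw [hak] at hstrip
  have hx : ∀ x ∈ Icc a (a + d), xc ν ≤ x := fun x hx => hxa.trans hx.1
  have hP : ∀ x ∈ Icc a (a + d), 0 < PP ν x := fun x hxx => by
    have := (hP1 x (hx x hxx)).1
    have := Real.exp_pos (4 * x / 3)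
    linarith
  have haI : a ∈ Icc a (a + d) := ⟨le_refl _, by linarith⟩
  set P0 : ℝ := PP ν a with hP0
  have hP0p : 0 < P0 := hP a haI
  set s : ℝ := Real.sqrt P0 with hs
  have hs0 : 0 < s := Real.sqrt_pos.mpr hP0p
  have hs2 : P0 = s ^ 2 := (Real.sq_sqrt hP0p.le).symm
  set t : ℝ := Real.exp (2 * a) with ht
  have ht0 : 0 < t := Real.exp_pos _
  have hPd : P0 = 2 * d * t := by
    rw [hP0, hd, ht]
    unfold PP de
    rw [← ha, Real.exp_neg]
    field_simp
  have hlt : lam = t / s := rfl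
  have hsd : 500 ≤ s * d := by
    have e : lam * d ^ 2 = s * d / 2 := by
      rw [hlt]
      have : t = s ^ 2 / (2 * d) := by
        rw [← hs2, hPd]
        field_simp
      rw [this]
      field_simp
    rw [e] at hM
    linarith
  have hsl : s = 2 * (lam * d) := by
    have : si ν k = lam * d := rfl
    rw [this] at hsi
    linarith
  have hPx : ∀ x ∈ Icc a (a + d), P0 ≤ PP ν x ∧ PP ν x ≤ 4 * P0 ∧ t ≤ Real.exp (2 * x) ∧
      Real.exp (2 * x) ≤ 4 * t ∧ s ≤ Real.sqrt (PP ν x) ∧ Real.sqrt (PP ν x) ≤ 2 * s := by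
    intro x hxx
    obtain ⟨g1, g2, g3⟩ := hstrip x hxx
    refine ⟨g1, g2, Real.exp_le_exp.mpr (by linarith [hxx.1]), ?_, Real.sqrt_le_sqrt g1, ?_⟩
    · have e1 : Real.exp (2 * x) = Real.exp x ^ 2 := by
        rw [← Real.exp_nat_mul]
        norm_num
      have e2 : t = Real.exp a ^ 2 := by
        rw [ht, ← Real.exp_nat_mul]
        norm_num
      rw [e1, e2]
      have := pow_le_pow_left₀ (Real.exp_pos x).le g3 2
      linarith
    · rw [Real.sqrt_le_left (by positivity)]
      rw [mul_pow, ← hs2]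
      linarith
  -- the phase
  obtain ⟨Θ', Θ1, Θ2, q0, q1, q2, q3, q4⟩ := ext_phase (a := a) (d := d) (m := lam / (4 * Real.pi))
    (M := 2 * lam / Real.pi) (L := 6 * lam / (Real.pi * d)) hd0 (Θ := Θ)
    (F := fun y => Real.sqrt (PP ν y) / (2 * Real.pi))
    (g := fun y => Real.exp (2 * y) / (2 * Real.pi * Real.sqrt (PP ν y)))
    (fun x hxx => (hB x (hx x hxx)).1) (fun x hxx => sq_hd (hP x hxx))
    (by
      intro x hxx
      obtain ⟨-, -, g3, g4, g5, g6⟩ := hPx x hxx
      have hsx : 0 < Real.sqrt (PP ν x) := lt_of_lt_of_le hs0 g5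
      constructor
      · rw [hlt, div_div, div_le_div_iff₀ (by positivity) (by positivity)]
        have := mul_le_mul g3 g6 hsx.le (Real.exp_pos _).le
        nlinarith
      · rw [hlt, ← mul_div_assoc, div_div, div_le_div_iff₀ (by positivity) (by positivity)]
        have := mul_le_mul g4 g5 hs0.le (by positivity)
        nlinarith)
    (by positivity)
    (by
      intro x hxx y hyy
      have key := Convex.norm_image_sub_le_of_norm_hasDerivWithin_le (s := Icc a (a + d))
        (f := fun y => Real.exp (2 * y) / (2 * Real.pi * Real.sqrt (PP ν y)))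
        (C := 6 * lam / (Real.pi * d)) (x := y) (y := x)
        (fun z hz => (g_hd (hP z hz)).hasDerivWithinAt)
        (fun z hz => by
          obtain ⟨g1, g2, g3, g4, g5, g6⟩ := hPx z hz
          have hPz := hP z hz
          have hsz : 0 < Real.sqrt (PP ν z) := lt_of_lt_of_le hs0 g5
          have r1 : 2 * Real.exp (2 * z) / Real.sqrt (PP ν z) ≤ 4 * lam / d := by
            have : 2 * Real.exp (2 * z) / Real.sqrt (PP ν z) ≤ 8 * lam := by
              rw [hlt, div_le_iff₀ hsz]
              have h5 : 8 * (t / s) * s = 8 * t := by field_simp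
              have h6 : 8 * (t / s) * s ≤ 8 * (t / s) * Real.sqrt (PP ν z) :=
                mul_le_mul_of_nonneg_left g5 (by positivity)
              linarith
            refine this.trans ?_
            rw [le_div_iff₀ hd0]
            nlinarith
          have r2 : Real.exp (2 * z) ^ 2 / (PP ν z * Real.sqrt (PP ν z)) ≤ 8 * lam / d := by
            rw [div_le_iff₀ (by positivity)]
            have h5 : Real.exp (2 * z) ^ 2 ≤ (4 * t) ^ 2 :=
              pow_le_pow_left₀ (Real.exp_pos _).le g4 2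
            have h6 : P0 * s ≤ PP ν z * Real.sqrt (PP ν z) :=
              mul_le_mul g1 g5 hs0.le hPz.le
            have h7 : 8 * lam / d * (P0 * s) ≤ 8 * lam / d * (PP ν z * Real.sqrt (PP ν z)) :=
              mul_le_mul_of_nonneg_left h6 (by positivity)
            have h8 : 8 * lam / d * (P0 * s) = (4 * t) ^ 2 := by
              rw [hPd, hlt]
              field_simp
              ring
            linarith
          have r3 : 0 ≤ 2 * Real.exp (2 * z) / Real.sqrt (PP ν z) := by positivity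
          have r4 : 0 ≤ Real.exp (2 * z) ^ 2 / (PP ν z * Real.sqrt (PP ν z)) := by positivity
          rw [Real.norm_eq_abs, abs_div, abs_of_pos (show 0 < 2 * Real.pi by positivity),
            div_le_div_iff₀ (by positivity) (by positivity)]
          have r5 : |2 * Real.exp (2 * z) / Real.sqrt (PP ν z) -
              Real.exp (2 * z) ^ 2 / (PP ν z * Real.sqrt (PP ν z))| ≤ 12 * lam / d := by
            rw [abs_le]
            have : 4 * lam / d + 8 * lam / d = 12 * lam / d := by ring
            constructor <;> linarith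
          calc _ ≤ 12 * lam / d * (Real.pi * d) :=
                mul_le_mul_of_nonneg_right r5 (by positivity)
            _ = 6 * lam * (2 * Real.pi) := by
                field_simp
                ring)
        (convex_Icc _ _) hyy hxx
      exact key)
  have hA : (13 : ℝ) ≤ 6 * C + 13 := by linarith
  have hA0 : (0 : ℝ) < 6 * C + 13 := by linarith
  have hF1 : Θ1 a = lam * d / Real.pi := by
    rw [(q4 a haI).2, ← hP0, ← hs, hsl]
    field_simp
  have hm0 : 0 < lam / (4 * Real.pi) := by positivity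
  have hc1 : Continuous Θ2 := by
    have : LipschitzWith ⟨6 * lam / (Real.pi * d), by positivity⟩ Θ2 :=
      LipschitzWith.of_dist_le_mul fun x y => by
        rw [Real.dist_eq, Real.dist_eq]
        exact q3 x y
    exact this.continuous
  have hdiff : ∀ x y, x ≤ y → lam / (4 * Real.pi) * (y - x) ≤ Θ1 y - Θ1 x ∧
      Θ1 y - Θ1 x ≤ 2 * lam / Real.pi * (y - x) := by
    intro x y hxy
    have e : ∫ u in x..y, Θ2 u = Θ1 y - Θ1 x :=
      intervalIntegral.integral_eq_sub_of_hasDerivAt (fun u _ => q1 u)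
        (hc1.intervalIntegrable _ _)
    rw [← e]
    constructor
    · have := intervalIntegral.integral_mono_on (μ := volume) hxy
        (f := fun _ => lam / (4 * Real.pi))
        (g := Θ2) intervalIntegrable_const (hc1.intervalIntegrable _ _) (fun u _ => (q2 u).1)
      rw [intervalIntegral.integral_const, smul_eq_mul] at this
      linarith
    · have := intervalIntegral.integral_mono_on (μ := volume) hxy (g := fun _ => 2 * lam / Real.pi)
        (f := Θ2) (hc1.intervalIntegrable _ _) intervalIntegrable_const (fun u _ => (q2 u).2)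
      rw [intervalIntegral.integral_const, smul_eq_mul] at this
      linarith
  have hD : ∀ x ∈ Icc a (a + d), Real.exp (4 * x) * PP ν x ^ (-(5 / 2) : ℝ) ≤ 1 / d := by
    intro x hxx
    obtain ⟨g1, g2, g3, g4, g5, g6⟩ := hPx x hxx
    have e1 : Real.exp (4 * x) ≤ 16 * t ^ 2 := by
      have : Real.exp (4 * x) = Real.exp (2 * x) ^ 2 := by
        rw [← Real.exp_nat_mul]
        congr 1
        push_cast
        ring
      rw [this]
      have := pow_le_pow_left₀ (Real.exp_pos _).le g4 2
      linarith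
    have e2 : PP ν x ^ (-(5 / 2) : ℝ) ≤ P0 ^ (-(5 / 2) : ℝ) :=
      Real.rpow_le_rpow_of_nonpos hP0p g1 (by norm_num)
    have e3 : P0 ^ (-(5 / 2) : ℝ) = 1 / s ^ 5 := by
      rw [hs2, ← Real.rpow_natCast s 2, ← Real.rpow_mul hs0.le, ← Real.rpow_natCast s 5,
        one_div, ← Real.rpow_neg hs0.le]
      congr 1
      norm_num
    rw [e3] at e2
    have e4 : 16 * t ^ 2 * (1 / s ^ 5) ≤ 1 / d := by
      have : t = s ^ 2 / (2 * d) := by
        rw [← hs2, hPd]
        field_simp
      rw [this]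
      have e5 : 16 * (s ^ 2 / (2 * d)) ^ 2 * (1 / s ^ 5) = 4 / (s * d) * (1 / d) := by
        field_simp
        ring
      rw [e5]
      have e6 : 4 / (s * d) ≤ 1 := by
        rw [div_le_one (by positivity)]
        linarith
      have : 0 < 1 / d := by positivity
      nlinarith
    refine le_trans ?_ e4
    exact mul_le_mul e1 e2 (Real.rpow_nonneg (hP x hxx).le _) (by positivity)
  have hlam12 : Real.sqrt lam = am ν a := by
    have h0 : 0 ≤ am ν a := by
      unfold am
      positivity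
    have r1 : P0 ^ (-(1 / 4) : ℝ) * P0 ^ (-(1 / 4) : ℝ) = s⁻¹ := by
      rw [hs, Real.sqrt_eq_rpow, ← Real.rpow_add hP0p, ← Real.rpow_neg hP0p.le]
      congr 1
      norm_num
    have r2 : Real.exp a * Real.exp a = t := by
      rw [ht, ← Real.exp_add]
      congr 1
      ring
    have r3 : am ν a * am ν a = lam := by
      calc am ν a * am ν a =
          (Real.exp a * Real.exp a) * (P0 ^ (-(1 / 4) : ℝ) * P0 ^ (-(1 / 4) : ℝ)) := by
            unfold am
            ring
        _ = lam := by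
            rw [r1, r2, hlt]
            rfl
    rw [← r3, Real.sqrt_mul_self h0]
  have hsl0 : 0 < Real.sqrt lam := Real.sqrt_pos.mpr hl0
  have ham : ∀ x ∈ Icc a (a + d), 0 ≤ am ν x ∧ am ν x ≤ 2 * Real.sqrt lam := by
    intro x hxx
    have g3 := (hstrip x hxx).2.2
    have g1 := (hstrip x hxx).1
    have hPp := hP x hxx
    refine ⟨by unfold am; positivity, ?_⟩
    rw [hlam12]
    unfold am
    rw [← mul_assoc]
    exact mul_le_mul g3 (Real.rpow_le_rpow_of_nonpos hP0p g1 (by norm_num))
      (Real.rpow_nonneg hPp.le _) (by positivity)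
  have hbr : ∀ x ∈ Icc a (a + d), |1 - Real.exp (2 * x) / (2 * PP ν x)| ≤ 2 / d := by
    intro x hxx
    obtain ⟨g1, g2, g3, g4, g5, g6⟩ := hPx x hxx
    have hPp := hP x hxx
    have r1 : Real.exp (2 * x) / (2 * PP ν x) ≤ 1 / d := by
      rw [div_le_div_iff₀ (by positivity) hd0]
      nlinarith
    have r2 : 0 ≤ Real.exp (2 * x) / (2 * PP ν x) := by positivity
    have r3 : 1 ≤ 1 / d := by
      rw [le_div_iff₀ hd0]
      linarith
    have r4 : 2 / d = 2 * (1 / d) := by ring
    rw [r4, abs_le]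
    constructor <;> linarith
  -- the amplitudes
  have hamp : ∀ (B D : ℝ → ℂ), ContinuousOn D (Ici (xc ν)) →
      (∀ x, xc ν ≤ x → HasDerivAt B (D x) x ∧ ‖B x‖ ≤ C ∧
        ‖D x‖ ≤ C * Real.exp (4 * x) * PP ν x ^ (-(5 / 2) : ℝ)) →
      (∀ x ∈ Icc a (a + d),
        HasDerivAt (fun y => (((Real.sqrt lam)⁻¹ * am ν y : ℝ) : ℂ) * B y)
          ((((Real.sqrt lam)⁻¹ * (am ν x * (1 - Real.exp (2 * x) / (2 * PP ν x))) : ℝ) : ℂ) *
            B x + (((Real.sqrt lam)⁻¹ * am ν x : ℝ) : ℂ) * D x) x ∧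
        ‖(((Real.sqrt lam)⁻¹ * am ν x : ℝ) : ℂ) * B x‖ ≤ 6 * C + 13 ∧
        ‖(((Real.sqrt lam)⁻¹ * (am ν x * (1 - Real.exp (2 * x) / (2 * PP ν x))) : ℝ) : ℂ) *
            B x + (((Real.sqrt lam)⁻¹ * am ν x : ℝ) : ℂ) * D x‖ ≤ (6 * C + 13) / d) ∧
      ContinuousOn (fun x => (((Real.sqrt lam)⁻¹ *
        (am ν x * (1 - Real.exp (2 * x) / (2 * PP ν x))) : ℝ) : ℂ) *
            B x + (((Real.sqrt lam)⁻¹ * am ν x : ℝ) : ℂ) * D x) (Icc a (a + d)) := by
    intro B D cD hBD
    constructor
    · intro x hxx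
      have hPp := hP x hxx
      obtain ⟨w1, w2, w3⟩ := hBD x (hx x hxx)
      obtain ⟨m0, m1⟩ := ham x hxx
      have n1 : ‖(((Real.sqrt lam)⁻¹ * am ν x : ℝ) : ℂ)‖ ≤ 2 := by
        rw [Complex.norm_real, Real.norm_eq_abs, abs_of_nonneg (by positivity),
          inv_mul_le_iff₀ hsl0]
        linarith
      have n2 : ‖(((Real.sqrt lam)⁻¹ * (am ν x * (1 - Real.exp (2 * x) / (2 * PP ν x))) : ℝ) :
          ℂ)‖ ≤ 2 * (2 / d) := by
        have e : (Real.sqrt lam)⁻¹ * (am ν x * (1 - Real.exp (2 * x) / (2 * PP ν x))) =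
            ((Real.sqrt lam)⁻¹ * am ν x) * (1 - Real.exp (2 * x) / (2 * PP ν x)) := by ring
        rw [e, Complex.ofReal_mul, norm_mul]
        refine mul_le_mul n1 ?_ (norm_nonneg _) (by norm_num)
        rw [Complex.norm_real]
        exact hbr x hxx
      refine ⟨?_, ?_, ?_⟩
      · have k1 := ((am_hd hPp).const_mul (Real.sqrt lam)⁻¹).ofReal_comp
        exact k1.mul w1
      · rw [norm_mul]
        have := mul_le_mul n1 w2 (norm_nonneg _) (by norm_num)
        linarith
      · have w4 : ‖D x‖ ≤ C * (1 / d) := by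
          refine w3.trans ?_
          rw [mul_assoc]
          exact mul_le_mul_of_nonneg_left (hD x hxx) hC.le
        refine (norm_add_le _ _).trans ?_
        rw [norm_mul, norm_mul]
        have v1 := mul_le_mul n2 w2 (norm_nonneg _) (by positivity)
        have v2 := mul_le_mul n1 w4 (norm_nonneg _) (by norm_num)
        have v3 : 2 * (2 / d) * C + 2 * (C * (1 / d)) = 6 * C / d := by ring
        have v4 : 6 * C / d ≤ (6 * C + 13) / d := by gcongr; linarith
        linarith
    · have kP : ContinuousOn (PP ν) (Icc a (a + d)) := (PP_cont ν).continuousOn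
      have ka := am_cont (ν := ν) (s := Icc a (a + d)) hP
      have kB : ContinuousOn B (Icc a (a + d)) := fun x hxx =>
        (hBD x (hx x hxx)).1.continuousAt.continuousWithinAt
      have kD : ContinuousOn D (Icc a (a + d)) := cD.mono fun x hxx => hx x hxx
      have ke : ContinuousOn (fun x : ℝ => 1 - Real.exp (2 * x) / (2 * PP ν x))
          (Icc a (a + d)) := by
        refine continuousOn_const.sub (ContinuousOn.div ?_ (continuousOn_const.mul kP) ?_)
        · exact (Real.continuous_exp.comp (continuous_const.mul continuous_id)).continuousOn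
        · intro x hxx
          have := hP x hxx
          positivity
      exact ((Complex.continuous_ofReal.comp_continuousOn
        (continuousOn_const.mul (ka.mul ke))).mul kB).add
        ((Complex.continuous_ofReal.comp_continuousOn (continuousOn_const.mul ka)).mul kD)
  have hb := hamp B1 D1 cD1 (fun x hxx =>
    ⟨(hB x hxx).2.1, (hB x hxx).2.2.2.1, (hB x hxx).2.2.2.2.2.1⟩)
  have hc := hamp B2 D2 cD2 (fun x hxx =>
    ⟨(hB x hxx).2.2.1, (hB x hxx).2.2.2.2.1, (hB x hxx).2.2.2.2.2.2.1⟩)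
  refine ⟨Θ', Θ1, Θ2, _, _, _, _, ⟨q0, q1, ?_, ?_, ?_⟩, ?_,
    fun x hxx => ⟨(hb.1 x hxx).1, (hc.1 x hxx).1, (hb.1 x hxx).2.1, (hc.1 x hxx).2.1,
      (hb.1 x hxx).2.2, (hc.1 x hxx).2.2, ?_⟩, hb.2, hc.2⟩
  · intro x
    refine le_trans ?_ (q2 x).1
    exact div_le_div_of_nonneg_left hl0.le (by positivity) (by linarith)
  · intro x
    refine (q2 x).2.trans ?_
    rw [div_le_iff₀ hpi]
    have k1 : 13 * lam ≤ (6 * C + 13) * lam := mul_le_mul_of_nonneg_right hA hl0.le
    have k2 : 13 * lam * 3 ≤ (6 * C + 13) * lam * Real.pi :=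
      mul_le_mul k1 hpi3.le (by norm_num) (by positivity)
    linarith
  · intro x y
    refine (q3 x y).trans (mul_le_mul_of_nonneg_right ?_ (abs_nonneg _))
    rw [div_le_div_iff₀ (by positivity) hd0]
    have k1 : 13 * lam ≤ (6 * C + 13) * lam := mul_le_mul_of_nonneg_right hA hl0.le
    have k2 : 13 * lam * (3 * d) ≤ (6 * C + 13) * lam * (Real.pi * d) :=
      mul_le_mul k1 (mul_le_mul_of_nonneg_right hpi3.le hd0.le) (by positivity) (by positivity)
    have : 0 < lam * d := by positivity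
    linarith
  · intro x hxx
    have hld : 0 < lam * d := by positivity
    have u1 : lam * d / Real.pi * (Real.pi) = lam * d := by field_simp
    have u2 : 2 * lam / Real.pi * (d / 16) = lam * d / Real.pi / 8 := by ring
    have u3 : 2 * lam / Real.pi * (d + d / 16) = lam * d / Real.pi * (17 / 8) := by ring
    have u4 : lam * d / Real.pi ≤ lam * d / 3 :=
      div_le_div_of_nonneg_left hld.le (by norm_num) hpi3.le
    have u5 : lam * d / 4 ≤ lam * d / Real.pi :=
      div_le_div_of_nonneg_left hld.le hpi (by linarith)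
    have u6 : lam * d / (6 * C + 13) ≤ lam * d / 13 :=
      div_le_div_of_nonneg_left hld.le (by norm_num) hA
    have u7 : 0 ≤ 2 * lam / Real.pi := by positivity
    rcases le_total x a with h | h
    · obtain ⟨v1, v2⟩ := hdiff x a h
      have v3 : 2 * lam / Real.pi * (a - x) ≤ 2 * lam / Real.pi * (d / 16) :=
        mul_le_mul_of_nonneg_left (by linarith [hxx.1]) u7
      have v4 : 0 ≤ lam / (4 * Real.pi) * (a - x) := mul_nonneg hm0.le (by linarith)
      rw [hF1] at v1 v2
      constructor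
      · linarith
      · nlinarith
    · obtain ⟨v1, v2⟩ := hdiff a x h
      have v3 : 2 * lam / Real.pi * (x - a) ≤ 2 * lam / Real.pi * (d + d / 16) :=
        mul_le_mul_of_nonneg_left (by linarith [hxx.2]) u7
      have v4 : 0 ≤ lam / (4 * Real.pi) * (x - a) := mul_nonneg hm0.le (by linarith)
      rw [hF1] at v1 v2
      constructor
      · linarith
      · nlinarith
  · rw [(q4 x hxx).1]
    have hJx := (hB x (hx x hxx)).2.2.2.2.2.2.2
    rw [hJx]
    have e : ((Real.sqrt lam : ℝ) : ℂ) ≠ 0 := by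
      exact_mod_cast hsl0.ne'
    push_cast
    field_simp

theorem e1_cont : Continuous e1 := by
  unfold Pool.Agent.CAR.e1
  fun_prop

theorem th_hd (ν x : ℝ) : HasDerivAt (th ν) (Real.sqrt (PP ν x) / (2 * Real.pi)) x := by
  have hc : Continuous fun y => Real.sqrt (PP ν y) / (2 * Real.pi) :=
    (Real.continuous_sqrt.comp (PP_cont ν)).div_const _
  exact (hc.integral_hasStrictDerivAt (xc ν) x).hasDerivAt

theorem kpm_eq {ν x : ℝ} (s : ℝ) (hx : xc ν ≤ x) :
    kpm ν s x = ((am ν x : ℝ) : ℂ) * e1 (s * th ν x) := by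
  unfold kpm am
  rw [max_eq_left hx]

theorem kpm_cont (h1 : T_SEQ) {ν : ℝ} (hν : 0 ≤ ν) (s : ℝ) : Continuous (kpm ν s) := by
  obtain ⟨hP1, -, -⟩ := h1 ν hν
  have hm : Continuous fun x : ℝ => max x (xc ν) := continuous_id.max continuous_const
  have hp : ∀ x : ℝ, 0 < PP ν (max x (xc ν)) := by
    intro x
    have h2 := (hP1 _ (le_max_right x (xc ν))).1
    have := Real.exp_pos (4 * max x (xc ν) / 3)
    linarith
  have ht : Continuous (th ν) := continuous_iff_continuousAt.mpr fun x => (th_hd ν x).continuousAt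
  unfold kpm
  refine (Complex.continuous_ofReal.comp ?_).mul (e1_cont.comp ?_)
  · exact (Real.continuous_exp.comp hm).mul
      (((PP_cont ν).comp hm).rpow_const fun x => Or.inl (hp x).ne')
  · exact continuous_const.mul (ht.comp hm)

end KPM_

open KPM_ in
/-- KPM. -/
theorem p_KPM (h1 : T_SEQ) : T_KPM := by
  refine ⟨6 * 1 + 13, by norm_num, fun ν s hν hs => ⟨kpm_cont h1 hν s, fun k => ?_⟩⟩
  obtain ⟨hP1, -, -⟩ := h1 ν hν
  have hz : ∀ x, xc ν ≤ x → ‖(0 : ℂ)‖ ≤ 1 * Real.exp (4 * x) * PP ν x ^ (-(5 / 2) : ℝ) := by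
    intro x hx
    have h2 := (hP1 x hx).1
    have := Real.exp_pos (4 * x / 3)
    have h3 : 0 ≤ PP ν x := by linarith
    rw [norm_zero]
    positivity
  rcases hs with rfl | rfl
  · refine strip h1 one_pos hν k (Θ := th ν) (B1 := fun _ => 1) (B2 := fun _ => 0)
      (D1 := fun _ => 0) (D2 := fun _ => 0) continuousOn_const continuousOn_const ?_
    intro x hx
    refine ⟨th_hd ν x, hasDerivAt_const _ _, hasDerivAt_const _ _, by simp, by simp,
      hz x hx, hz x hx, ?_⟩
    rw [kpm_eq 1 hx]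
    simp
  · refine strip h1 one_pos hν k (Θ := th ν) (B1 := fun _ => 0) (B2 := fun _ => 1)
      (D1 := fun _ => 0) (D2 := fun _ => 0) continuousOn_const continuousOn_const ?_
    intro x hx
    refine ⟨th_hd ν x, hasDerivAt_const _ _, hasDerivAt_const _ _, by simp, by simp,
      hz x hx, hz x hx, ?_⟩
    rw [kpm_eq (-1) hx]
    simp

end Pool.Agent.CRW
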