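import Pool.Agent.CRW.Targets3

set_option autoImplicit false

/-!
# LGV: logarithmic variables
-/

namespace Pool.Agent.CRW

open MeasureTheory FourierTransform Set Filter Topology
open scoped ENNReal NNReal ComplexConjugate
open Pool.Agent.CRR (kap)

namespace LGV_

theorem d_f (v : ℝ) : HasDerivAt (fun v : ℝ => Real.exp v / (2 * Real.pi))
    (Real.exp v / (2 * Real.pi)) v := (Real.hasDerivAt_exp v).div_const _

theorem pos_f (v : ℝ) : 0 < Real.exp v / (2 * Real.pi) := by positivity

theorem inj_f : Function.Injective (fun v : ℝ => Real.exp v / (2 * Real.pi)) := by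
  intro u v h
  have hp : (2 * Real.pi) ≠ 0 := by positivity
  have : Real.exp u = Real.exp v := by
    have h' : Real.exp u / (2 * Real.pi) = Real.exp v / (2 * Real.pi) := h
    field_simp at h'
    exact h'
  exact Real.exp_injective this

theorem image_f {a b : ℝ} (ha : 0 < a) (hab : a ≤ b) :
    (fun v : ℝ => Real.exp v / (2 * Real.pi)) ''
      Ioc (Real.log (2 * Real.pi * a)) (Real.log (2 * Real.pi * b)) = Ioc a b := by
  have hp : 0 < 2 * Real.pi := by positivity
  have hb : 0 < b := lt_of_lt_of_le ha hab
  ext ρ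
  simp only [mem_image, mem_Ioc]
  constructor
  · rintro ⟨v, ⟨h1, h2⟩, rfl⟩
    have h3 := (Real.log_lt_iff_lt_exp (by positivity)).1 h1
    have h4 := (Real.le_log_iff_exp_le (by positivity)).1 h2
    constructor
    · rw [lt_div_iff₀ hp]; linarith
    · rw [div_le_iff₀ hp]; linarith
  · rintro ⟨h1, h2⟩
    have h0 : 0 < ρ := ha.trans h1
    refine ⟨Real.log (2 * Real.pi * ρ), ⟨?_, ?_⟩, ?_⟩
    · exact Real.log_lt_log (by positivity) (by nlinarith)
    · exact Real.log_le_log (by positivity) (by nlinarith)
    · rw [Real.exp_log (by positivity)]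
      field_simp

end LGV_

/-- logarithmic variables -/
theorem p_LGV : T_LGV := by
  refine ⟨?_, ?_⟩
  · intro G J r a b _ _ hr ha hab
    constructor
    · conv_lhs => rw [← LGV_.image_f ha hab]
      rw [integral_image_eq_integral_abs_deriv_smul measurableSet_Ioc
        (fun v _ => (LGV_.d_f v).hasDerivWithinAt) LGV_.inj_f.injOn, ← integral_const_mul]
      refine setIntegral_congr_fun measurableSet_Ioc (fun v _ => ?_)
      have h1 : Real.log (2 * Real.pi * r * (Real.exp v / (2 * Real.pi))) = Real.log r + v := by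
        rw [show 2 * Real.pi * r * (Real.exp v / (2 * Real.pi)) = r * Real.exp v by
          field_simp, Real.log_mul hr.ne' (Real.exp_pos v).ne', Real.log_exp]
      rw [h1, abs_of_pos (LGV_.pos_f v)]
      unfold kap
      rw [Real.exp_add, Real.exp_log hr, Complex.real_smul]
      push_cast
      have hr' : (r : ℂ) ≠ 0 := by exact_mod_cast hr.ne'
      have hp' : (Real.pi : ℂ) ≠ 0 := by exact_mod_cast Real.pi_ne_zero
      field_simp
    · conv_rhs => rw [← LGV_.image_f ha hab]
      rw [lintegral_image_eq_lintegral_abs_deriv_mul measurableSet_Ioc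
        (fun v _ => (LGV_.d_f v).hasDerivWithinAt) LGV_.inj_f.injOn]
      refine setLIntegral_congr_fun measurableSet_Ioc (fun v _ => ?_)
      rw [abs_of_pos (LGV_.pos_f v), mul_left_comm,
        ← ENNReal.ofReal_mul (LGV_.pos_f v).le, mul_inv_cancel₀ (LGV_.pos_f v).ne',
        ENNReal.ofReal_one, mul_one]
  · intro F _
    have h : Real.exp '' univ = Ioi (0 : ℝ) := by rw [image_univ, Real.range_exp]
    rw [← h, lintegral_image_eq_lintegral_abs_deriv_mul MeasurableSet.univ
      (fun v _ => (Real.hasDerivAt_exp v).hasDerivWithinAt) Real.exp_injective.injOn,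
      Measure.restrict_univ]
    refine lintegral_congr (fun v => ?_)
    rw [abs_of_pos (Real.exp_pos v), Real.log_exp, ← mul_assoc,
      ← ENNReal.ofReal_mul (Real.exp_pos v).le, mul_inv_cancel₀ (Real.exp_pos v).ne',
      ENNReal.ofReal_one, one_mul]

end Pool.Agent.CRW
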