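import Pool.Agent.CRW.Targets
import Pool.Agent.CRR.P_MUL

set_option autoImplicit false

/-!
# CRW, target MLG: multipliers of the strips, general kernel
-/

namespace Pool.Agent.CRW

open MeasureTheory FourierTransform Set Filter Topology
open scoped ENNReal NNReal ComplexConjugate
open Pool.Agent.CAR (e1)
open Pool.Agent.CRN (T_CARLS)
open Pool.Agent.CRR (PP Sol xc E2 NSol kap aa de la si ww band fh StripD FS FA HH T_SEQ)
open Pool.Agent.CRR.MUL_

theorem p_MLG (_h1 : T_SEQ) (h2 : T_SDG) : T_MLG := by
  intro hC A hA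
  obtain ⟨C₀, hSD⟩ := h2 hC A hA
  refine ⟨C₀ + 1, by positivity, ?_⟩
  intro ν κ k hν hN
  have hκ : Continuous κ := hN.cont
  have hmg : mg ν κ k = mu κ (aa ν k) (aa ν k + de ν k) := rfl
  have hcont : Continuous (mg ν κ k) := by
    rw [hmg]
    exact mu_cont hκ _ _
  have hFA : ∀ (H : ℝ → ℂ) (u : ℝ), HH H →
      FA κ (aa ν k) (de ν k) (fh H) u = ∫ s, H s * mg ν κ k s * e1 (-(u * s)) := by
    intro H u hH
    rw [hmg]
    exact strip_eq hκ _ _ hH.int u
  refine ⟨hcont, hFA, ?_⟩
  intro j s₀ hs₀
  set q : ℝ := (9 / 10) ^ (k - j + (j - k)) with hq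
  have hq0 : 0 < q := by positivity
  have hmain : ‖mg ν κ k s₀‖ ^ 2 ≤ C₀ * q := by
    by_contra hcon
    rw [not_le] at hcon
    obtain ⟨c, hc1, hc2⟩ := exists_between hcon
    have hc0 : 0 < c := lt_of_le_of_lt (by positivity) hc1
    have hU : IsOpen {s | c < ‖mg ν κ k s‖ ^ 2} :=
      isOpen_lt continuous_const (hcont.norm.pow 2)
    obtain ⟨x, y, hxy, hsub⟩ := exists_Icc hs₀ hU hc2
    set H : ℝ → ℂ := (Icc x y).indicator (fun _ => (1 : ℂ)) with hHdef
    have hHH : HH H := by
      refine ⟨measurable_const.indicator measurableSet_Icc, ?_, ?_⟩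
      · exact (integrable_indicator_iff measurableSet_Icc).2 (by simp)
      · have h3 : (fun s => ‖H s‖ ^ 2) = (Icc x y).indicator (fun _ => (1 : ℝ)) := by
          funext s
          by_cases hs : s ∈ Icc x y
          · rw [hHdef, indicator_of_mem hs, indicator_of_mem hs]
            simp
          · rw [hHdef, indicator_of_notMem hs, indicator_of_notMem hs]
            simp
        rw [h3]
        exact (integrable_indicator_iff measurableSet_Icc).2 (by simp)
    have hHn : ∫⁻ s, ‖H s‖ₑ ^ 2 = ENNReal.ofReal (y - x) := by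
      have h3 : (fun s => ‖H s‖ₑ ^ 2) = (Icc x y).indicator (fun _ => (1 : ℝ≥0∞)) := by
        funext s
        by_cases hs : s ∈ Icc x y
        · rw [hHdef, indicator_of_mem hs, indicator_of_mem hs]
          simp
        · rw [hHdef, indicator_of_notMem hs, indicator_of_notMem hs]
          simp
      rw [h3, lintegral_indicator measurableSet_Icc, lintegral_const, Measure.restrict_apply
        MeasurableSet.univ, univ_inter, Real.volume_Icc, one_mul]
    have h4 := hSD ν κ k j H hν hN hHH (by
      intro s hs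
      by_contra hs'
      apply hs
      rw [hHdef]
      refine indicator_of_notMem (fun h => hs' (hsub h).1) _)
    have hg : ∀ s, H s * mg ν κ k s = (Icc x y).indicator (mg ν κ k) s := by
      intro s
      by_cases hs : s ∈ Icc x y
      · rw [hHdef, indicator_of_mem hs, indicator_of_mem hs, one_mul]
      · rw [hHdef, indicator_of_notMem hs, indicator_of_notMem hs, zero_mul]
    have hgi : Integrable (fun s => H s * mg ν κ k s) := by
      simp only [hg]
      exact (integrable_indicator_iff measurableSet_Icc).2 (hcont.integrableOn_Icc)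
    have hg2 : MemLp (fun s => H s * mg ν κ k s) 2 := by
      rw [memLp_two_iff_integrable_sq_norm hgi.aestronglyMeasurable]
      have h5 : (fun s => ‖H s * mg ν κ k s‖ ^ 2) =
          (Icc x y).indicator (fun s => ‖mg ν κ k s‖ ^ 2) := by
        funext s
        rw [hg]
        by_cases hs : s ∈ Icc x y
        · rw [indicator_of_mem hs, indicator_of_mem hs]
        · rw [indicator_of_notMem hs, indicator_of_notMem hs]
          simp
      rw [h5]
      exact (integrable_indicator_iff measurableSet_Icc).2 ((hcont.norm.pow 2).integrableOn_Icc)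
    have h6 : ∫⁻ s, ‖H s * mg ν κ k s‖ₑ ^ 2 ≤
        C₀ * ENNReal.ofReal q * ENNReal.ofReal (y - x) := by
      rw [← planch hgi hg2, ← hHn]
      refine le_trans (lintegral_mono fun u => ?_) h4
      show ‖∫ s, H s * mg ν κ k s * e1 (-(u * s))‖ₑ ^ 2 ≤ _
      rw [← hFA H u hHH]
      exact pow_le_pow_left' (FA_le _ _ _ _) 2
    have h7 : ENNReal.ofReal c * ENNReal.ofReal (y - x) ≤ ∫⁻ s, ‖H s * mg ν κ k s‖ₑ ^ 2 := by
      have h8 : ∫⁻ s in Icc x y, ENNReal.ofReal c = ENNReal.ofReal c * ENNReal.ofReal (y - x) := by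
        rw [lintegral_const, Measure.restrict_apply MeasurableSet.univ, univ_inter,
          Real.volume_Icc]
      rw [← h8, ← lintegral_indicator measurableSet_Icc]
      refine lintegral_mono fun s => ?_
      show (Icc x y).indicator (fun _ => ENNReal.ofReal c) s ≤ ‖H s * mg ν κ k s‖ₑ ^ 2
      rw [hg]
      by_cases hs : s ∈ Icc x y
      · rw [indicator_of_mem hs, indicator_of_mem hs, ← ofReal_norm,
          ← ENNReal.ofReal_pow (norm_nonneg _)]
        exact ENNReal.ofReal_le_ofReal (le_of_lt (hsub hs).2)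
      · rw [indicator_of_notMem hs]
        exact zero_le
    have h9 := h7.trans h6
    have h10 : (C₀ : ℝ≥0∞) * ENNReal.ofReal q * ENNReal.ofReal (y - x) =
        ENNReal.ofReal (C₀ * q * (y - x)) := by
      rw [ENNReal.ofReal_mul (by positivity), ENNReal.ofReal_mul (NNReal.coe_nonneg C₀),
        ENNReal.ofReal_coe_nnreal]
    rw [h10, ← ENNReal.ofReal_mul hc0.le, ENNReal.ofReal_le_ofReal_iff
      (mul_nonneg (by positivity) (by linarith))] at h9
    have h11 : c ≤ C₀ * q := le_of_mul_le_mul_right h9 (by linarith)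
    linarith
  calc ‖mg ν κ k s₀‖ ^ 2 ≤ C₀ * q := hmain
    _ ≤ (C₀ + 1) * q := by nlinarith

end Pool.Agent.CRW
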