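import Pool.Agent.CRW.Targets4
import Pool.Agent.CRL.H47
import Pool.Agent.CRL.P_MODA
import Pool.Agent.CRL.P_VKX

set_option autoImplicit false

/-!
# CRW-MWC: all windows of angular frequencies
-/

namespace Pool.Agent.CRW

open MeasureTheory FourierTransform Set Filter Topology
open scoped ENNReal NNReal ComplexConjugate
open Pool.Agent.MBS (E ex S Sstar)
open Pool.Agent.CRN (ci SH S1 Nice T_CARLS T_POLN T_DSN T_OFFN T_SHL)
open Pool.Agent.CRL (ev rot amode T_MODA T_MODB T_POLC)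
open Pool.Agent.CRR (T_HANK T_OSC)

namespace MWC_

theorem two (a b : ℝ≥0∞) : (a + b) ^ 2 ≤ 2 * a ^ 2 + 2 * b ^ 2 := by
  have h := ENNReal.rpow_add_le_mul_rpow_add_rpow a b (p := 2) (by norm_num)
  norm_num at h
  rw [mul_add] at h
  exact h

/-- the angle -/
noncomputable def ang (x : E 2) : ℝ := Complex.arg ((x 0 : ℂ) + (x 1 : ℂ) * Complex.I)

theorem eq_ev (x : E 2) : x = ‖x‖ • ev (ang x) := by
  obtain ⟨z, hz⟩ : ∃ z : ℂ, z = (x 0 : ℂ) + (x 1 : ℂ) * Complex.I := ⟨_, rfl⟩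
  have hn : ‖z‖ = ‖x‖ := by
    rw [hz, Complex.norm_add_mul_I, EuclideanSpace.norm_eq, Fin.sum_univ_two]
    simp
  have ha : ang x = z.arg := by
    rw [hz]
    rfl
  have h0 := Complex.norm_mul_cos_arg z
  have h1 := Complex.norm_mul_sin_arg z
  rw [← hn, ha]
  ext i
  fin_cases i
  · simp only [ev, PiLp.smul_apply, smul_eq_mul]
    simp
    rw [hz]
    simp
  · simp only [ev, PiLp.smul_apply, smul_eq_mul]
    simp
    rw [hz]
    simp

theorem rot_ev (θ r : ℝ) : rot θ (r • ev 0) = r • ev θ := by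
  unfold rot ev
  ext i
  fin_cases i <;> simp <;> ring

theorem rot_ev' (t θ r : ℝ) : rot t (r • ev θ) = r • ev (t + θ) := by
  rw [← rot_ev, Pool.Agent.CRL.MODA_.rot_rot, rot_ev]

theorem ci_add (a b : ℝ) : ci (a + b) = ci a * ci b := by
  unfold ci
  rw [← Complex.exp_add]
  congr 1
  push_cast
  ring

theorem cont_ci : Continuous ci := by
  unfold ci
  fun_prop

theorem int_ci (m : ℤ) : ∫ ψ in (-Real.pi)..Real.pi, ci (m * ψ) =
    if m = 0 then ((2 * Real.pi : ℝ) : ℂ) else 0 := Pool.Agent.CRL.VKX_.int_ci m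

/-- the angular modes of a function with few angular frequencies -/
theorem amode_eq {K : ℕ} {w : ℤ} {f : E 2 → ℂ} {c : ℕ → ℝ → ℂ}
    (hc : ∀ r θ : ℝ, 0 < r → f (r • ev θ) =
      ∑ k ∈ Finset.range K, c k r * ci (((w : ℝ) + k) * θ)) (m : ℤ) {r : ℝ} (hr : 0 < r)
    (θ : ℝ) : amode m f (r • ev θ) =
      ∑ j ∈ Finset.range K, if m = w + j then c j r * ci (((w : ℝ) + j) * θ) else 0 := by
  have h1 : ∀ t : ℝ, f (rot t (r • ev θ)) * Pool.Agent.CRL.ci (-(m * t)) =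
      ∑ j ∈ Finset.range K, c j r * ci (((w : ℝ) + j) * θ) *
        ci (((w + j - m : ℤ) : ℝ) * t) := by
    intro t
    rw [rot_ev', hc r (t + θ) hr, Finset.sum_mul]
    refine Finset.sum_congr rfl fun j _ => ?_
    change c j r * ci (((w : ℝ) + j) * (t + θ)) * ci (-(m * t)) = _
    rw [mul_assoc, mul_assoc, ← ci_add, ← ci_add]
    congr 2
    push_cast
    ring
  unfold amode
  simp only [h1]
  rw [intervalIntegral.integral_finsetSum, Finset.mul_sum]
  · refine Finset.sum_congr rfl fun j _ => ?_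
    rw [intervalIntegral.integral_const_mul, int_ci]
    by_cases hj : m = w + j
    · rw [if_pos hj, if_pos (by omega)]
      have hpi : (Real.pi : ℂ) ≠ 0 := by exact_mod_cast Real.pi_ne_zero
      push_cast
      field_simp
    · rw [if_neg hj, if_neg (by omega), mul_zero, mul_zero]
  · intro j _
    exact (continuous_const.mul (cont_ci.comp (by fun_prop))).intervalIntegrable _ _

theorem inner_sum (K : ℕ) (v u : ℤ) (a : ℂ) :
    ∑ k ∈ Finset.range K, (if v + (k : ℤ) = u then a else 0) =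
      if v ≤ u ∧ u < v + K then a else 0 := by
  by_cases h : v ≤ u ∧ u < v + K
  · rw [if_pos h, Finset.sum_eq_single_of_mem ((u - v).toNat)]
    · rw [if_pos (by omega)]
    · rw [Finset.mem_range]
      omega
    · intro k _ hk
      rw [if_neg]
      intro h1
      exact hk (by omega)
  · rw [if_neg h]
    refine Finset.sum_eq_zero fun k hk => ?_
    rw [Finset.mem_range] at hk
    rw [if_neg]
    intro h1
    exact h (by omega)

theorem pv_eq {K : ℕ} {w : ℤ} {f : E 2 → ℂ} {c : ℕ → ℝ → ℂ}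
    (hc : ∀ r θ : ℝ, 0 < r → f (r • ev θ) =
      ∑ k ∈ Finset.range K, c k r * ci (((w : ℝ) + k) * θ)) (v : ℤ) {r : ℝ} (hr : 0 < r)
    (θ : ℝ) : pv K v f (r • ev θ) = ∑ j ∈ Finset.range K,
      if v ≤ w + j ∧ w + j < v + K then c j r * ci (((w : ℝ) + j) * θ) else 0 := by
  unfold pv
  simp only [amode_eq hc _ hr θ]
  rw [Finset.sum_comm]
  exact Finset.sum_congr rfl fun j _ => inner_sum K v (w + j) _

/-- the function is the sum of two standard windows -/
theorem split {K : ℕ} (hK : 1 ≤ K) {w : ℤ} {f : E 2 → ℂ} {c : ℕ → ℝ → ℂ}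
    (hc : ∀ r θ : ℝ, 0 < r → f (r • ev θ) =
      ∑ k ∈ Finset.range K, c k r * ci (((w : ℝ) + k) * θ)) (x : E 2) (hx : x ≠ 0) :
    f x = pv K (K * (w / K)) f x + pv K (K * (w / K + 1)) f x := by
  have hr : 0 < ‖x‖ := norm_pos_iff.2 hx
  have hK' : (0 : ℤ) < K := by exact_mod_cast hK
  have h1 : (K : ℤ) * (w / K) ≤ w := Int.mul_ediv_self_le hK'.ne'
  have h2 : w < (K : ℤ) * (w / K) + K := Int.lt_mul_ediv_self_add hK'
  have h3 : (K : ℤ) * (w / K + 1) = K * (w / K) + K := by ring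
  rw [eq_ev x, pv_eq hc _ hr, pv_eq hc _ hr, hc _ _ hr, ← Finset.sum_add_distrib, h3]
  refine Finset.sum_congr rfl fun j hj => ?_
  rw [Finset.mem_range] at hj
  by_cases h4 : w + j < (K : ℤ) * (w / K) + K
  · rw [if_pos ⟨by omega, h4⟩, if_neg (by omega), add_zero]
  · rw [if_neg (by omega), if_pos ⟨by omega, by omega⟩, zero_add]

theorem S_congr {f g : E 2 → ℂ} (h : f =ᵐ[volume] g) (R : ℝ) (x : E 2) :
    S f R x = S g R x := by
  have h1 : 𝓕 f = 𝓕 g := by
    funext ξ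
    rw [Real.fourier_eq, Real.fourier_eq]
    refine integral_congr_ae ?_
    filter_upwards [h] with y hy
    rw [hy]
  unfold S
  rw [h1]

theorem pv_nice (K : ℕ) (w : ℤ) {f : E 2 → ℂ} (hf : Nice f) :
    Pool.Agent.CRL.Nice (pv K w f) :=
  Pool.Agent.CRL.H47_.nice_sum (Finset.range K) (fun k => amode (w + (k : ℤ)) f)
    (fun k _ => (Pool.Agent.CRL.p_MODA (w + (k : ℤ)) f ⟨hf.meas, hf.int, hf.sq⟩).1)

end MWC_

open MWC_ in
theorem p_MWC (h1 : T_MWN) : T_MWC := by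
  intro hD hH hC
  obtain ⟨C, hM⟩ := h1 hD hH hC
  refine ⟨4 * C, fun K w f c hK hf hc => ?_⟩
  set v1 : ℤ := K * (w / K) with hv1
  set v2 : ℤ := K * (w / K + 1) with hv2
  have hn1 := pv_nice K v1 hf
  have hn2 := pv_nice K v2 hf
  have hae : f =ᵐ[volume] fun x => pv K v1 f x + pv K v2 f x := by
    have h0 : ∀ᵐ x : E 2, x ≠ 0 := by
      rw [ae_iff]
      simp
    filter_upwards [h0] with x hx
    exact split hK hc x hx
  have hpt : ∀ x, Sstar f x ≤ Sstar (pv K v1 f) x + Sstar (pv K v2 f) x := by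
    intro x
    refine iSup₂_le fun R hR => ?_
    rw [S_congr hae, Pool.Agent.CRL.H47_.S_add hn1 hn2]
    refine (enorm_add_le _ _).trans (add_le_add ?_ ?_)
    · exact Pool.Agent.CRL.H47_.enorm_le_Sstar hR x
    · exact Pool.Agent.CRL.H47_.enorm_le_Sstar hR x
  have hX := hM K f hK hf
  have ha : ∀ q : ℤ, ∫⁻ x, Sstar (pv K (K * q) f) x ^ 2 ≤
      C * ENNReal.ofReal (LL K ^ 12) * ∫⁻ x, ‖f x‖ₑ ^ 2 := fun q =>
    (ENNReal.le_tsum (f := fun q : ℤ => ∫⁻ x, Sstar (pv K (K * q) f) x ^ 2) q).trans hX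
  have hm1 : Measurable (Sstar (pv K v1 f)) := Pool.Agent.CRL.H47_.Sstar_meas hn1
  calc ∫⁻ x, Sstar f x ^ 2
      ≤ ∫⁻ x, (2 * Sstar (pv K v1 f) x ^ 2 + 2 * Sstar (pv K v2 f) x ^ 2) := by
        refine lintegral_mono fun x => ?_
        exact (pow_le_pow_left₀ zero_le (hpt x) 2).trans (two _ _)
    _ = 2 * (∫⁻ x, Sstar (pv K v1 f) x ^ 2) + 2 * ∫⁻ x, Sstar (pv K v2 f) x ^ 2 := by
        rw [lintegral_add_left ((hm1.pow_const 2).const_mul 2),
          lintegral_const_mul' _ _ (by norm_num), lintegral_const_mul' _ _ (by norm_num)]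
    _ ≤ 2 * (C * ENNReal.ofReal (LL K ^ 12) * ∫⁻ x, ‖f x‖ₑ ^ 2) +
        2 * (C * ENNReal.ofReal (LL K ^ 12) * ∫⁻ x, ‖f x‖ₑ ^ 2) := by
        gcongr
        · exact ha _
        · exact ha _
    _ = ((4 * C : ℝ≥0) : ℝ≥0∞) * ENNReal.ofReal (LL K ^ 12) * ∫⁻ x, ‖f x‖ₑ ^ 2 := by
        push_cast
        ring

end Pool.Agent.CRW
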