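import Pool.Agent.CRW.Targets4

/-!
# CRW, target OCR: representatives on one arc
-/

set_option autoImplicit false

namespace Pool.Agent.CRW

open Set

namespace OCR_

/-- the property of the interval `[a, b)` of the point `φ` -/
def Iv (N : ℕ) (a0 : ℝ) (F : ℝ → ℝ) (P : Set ℝ) (φ a b : ℝ) : Prop :=
  a ≤ φ ∧ φ < b ∧ ∀ ψ ∈ P, a ≤ ψ → ψ < b → |F ψ - F φ| ≤ a0 ∨ F φ / N ≤ |F ψ - F φ|

/-- the types of a point -/
def Ty (N : ℕ) (a0 el er : ℝ) (F : ℝ → ℝ) (P : Set ℝ) (φ : ℝ) (s : Bool) : Prop :=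
  ∃ a b : ℝ, Iv N a0 F P φ a b ∧ ((s = true ∧ a ≤ el) ∨ (s = false ∧ er < b))

theorem rk_pos (N : ℕ) (k : ℤ) : 0 < rk N k := by
  unfold rk
  exact Real.exp_pos _

theorem rk_succ_le {N : ℕ} (hN : 1 ≤ N) (k : ℤ) : rk N (k + 1) - rk N k ≤ rk N k / N := by
  have hNr : (1 : ℝ) ≤ N := by exact_mod_cast hN
  have hN0 : (0 : ℝ) < N := by linarith
  have h1 : rk N (k + 1) = rk N k * Real.exp (1 / (2 * N)) := by
    unfold rk
    rw [← Real.exp_add]
    congr 1
    push_cast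
    ring
  have ht : (1 : ℝ) / (2 * N) ≤ 1 / 2 := by
    rw [div_le_div_iff₀ (by positivity) (by norm_num)]
    linarith
  have ht0 : (0 : ℝ) < 1 / (2 * N) := by positivity
  have h2 : Real.exp (1 / (2 * N)) ≤ 1 + 2 * (1 / (2 * N)) := by
    have h := Real.exp_bound_div_one_sub_of_interval ht0.le (by linarith : (1 : ℝ) / (2 * N) < 1)
    refine h.trans ?_
    rw [div_le_iff₀ (by linarith)]
    nlinarith
  have h3 : 2 * ((1 : ℝ) / (2 * N)) = 1 / N := by
    field_simp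
  rw [h3] at h2
  have hp := rk_pos N k
  rw [h1]
  calc rk N k * Real.exp (1 / (2 * N)) - rk N k
      ≤ rk N k * (1 + 1 / N) - rk N k := by nlinarith
    _ = rk N k / N := by ring

theorem close {N : ℕ} (hN : 1 ≤ N) {k : ℤ} {x y : ℝ} (hx : rk N k ≤ x) (hx' : x < rk N (k + 1))
    (hy : rk N k ≤ y) (hy' : y < rk N (k + 1)) : |x - y| < y / N := by
  have h := rk_succ_le hN k
  have hNr : (1 : ℝ) ≤ N := by exact_mod_cast hN
  have hN0 : (0 : ℝ) < N := by linarith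
  have h1 : |x - y| < rk N (k + 1) - rk N k := by
    rw [abs_lt]
    constructor <;> linarith
  have h2 : rk N k / N ≤ y / N := div_le_div_of_nonneg_right hy hN0.le
  linarith

/-- two points of the same type with the same index -/
theorem key {N : ℕ} (hN : 1 ≤ N) {a0 el er : ℝ} (h0 : 0 ≤ a0) {F : ℝ → ℝ} {P : Set ℝ} {φ φ' : ℝ}
    {k : ℤ} {s : Bool} (hφ : φ ∈ P) (hφ' : φ' ∈ P) (hl : el < φ) (hr : φ ≤ er) (hl' : el < φ')
    (hr' : φ' ≤ er) (ht : Ty N a0 el er F P φ s) (ht' : Ty N a0 el er F P φ' s)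
    (h1 : rk N k ≤ F φ) (h2 : F φ < rk N (k + 1)) (h1' : rk N k ≤ F φ')
    (h2' : F φ' < rk N (k + 1)) : |F φ - F φ'| ≤ a0 := by
  rcases lt_trichotomy φ φ' with h | h | h
  · rcases s with _ | _
    · obtain ⟨a, b, ⟨ha, hb, hI⟩, hs | hs⟩ := ht
      · exact absurd hs.1 (by simp)
      · rcases hI φ' hφ' (ha.trans h.le) (lt_of_le_of_lt hr' hs.2) with h3 | h3
        · rwa [abs_sub_comm]
        · exact absurd (close hN h1' h2' h1 h2) (not_lt.2 h3)
    · obtain ⟨a, b, ⟨ha, hb, hI⟩, hs | hs⟩ := ht'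
      · rcases hI φ hφ (hs.2.trans hl.le) (h.trans hb) with h3 | h3
        · exact h3
        · exact absurd (close hN h1 h2 h1' h2') (not_lt.2 h3)
      · exact absurd hs.1 (by simp)
  · rw [h, sub_self, abs_zero]
    exact h0
  · rcases s with _ | _
    · obtain ⟨a, b, ⟨ha, hb, hI⟩, hs | hs⟩ := ht'
      · exact absurd hs.1 (by simp)
      · rcases hI φ hφ (ha.trans h.le) (lt_of_le_of_lt hr hs.2) with h3 | h3
        · exact h3
        · exact absurd (close hN h1 h2 h1' h2') (not_lt.2 h3)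
    · obtain ⟨a, b, ⟨ha, hb, hI⟩, hs | hs⟩ := ht
      · rcases hI φ' hφ' (hs.2.trans hl'.le) (h.trans hb) with h3 | h3
        · rwa [abs_sub_comm]
        · exact absurd (close hN h1' h2' h1 h2) (not_lt.2 h3)
      · exact absurd hs.1 (by simp)

/-- the index of a positive number -/
theorem index {N : ℕ} (hN : 1 ≤ N) {x : ℝ} (hx : 0 < x) :
    ∃ k : ℤ, rk N k ≤ x ∧ x < rk N (k + 1) := by
  have hNr : (1 : ℝ) ≤ N := by exact_mod_cast hN
  have hN0 : (0 : ℝ) < 2 * N := by linarith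
  refine ⟨⌊2 * N * Real.log x⌋, ?_, ?_⟩
  · unfold rk
    rw [← Real.le_log_iff_exp_le hx, div_le_iff₀ hN0]
    have := Int.floor_le (2 * N * Real.log x)
    linarith
  · unfold rk
    rw [← Real.log_lt_iff_lt_exp hx, lt_div_iff₀ hN0]
    have := Int.lt_floor_add_one (2 * N * Real.log x)
    push_cast
    linarith

end OCR_

open OCR_ in
theorem p_OCR : T_OCR := by
  classical
  intro N a0 el er F P hN h0 hlen hF hP
  -- the candidates
  let Q : ℤ → Bool → ℝ → Prop := fun k s φ => φ ∈ P ∧ el < φ ∧ φ ≤ er ∧ Ty N a0 el er F P φ s ∧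
    rk N k ≤ F φ ∧ F φ < rk N (k + 1)
  have hlt : ∀ k : ℤ, rk N k < rk N (k + 1) := by
    intro k
    have hNr : (1 : ℝ) ≤ N := by exact_mod_cast hN
    unfold rk
    refine Real.exp_lt_exp.2 (div_lt_div_of_pos_right ?_ (by linarith))
    push_cast
    linarith
  refine ⟨fun k s => if h : ∃ φ, Q k s φ then F h.choose else rk N k, ?_, ?_⟩
  · intro k s
    by_cases h : ∃ φ, Q k s φ
    · simp only [dif_pos h]
      exact h.choose_spec.2.2.2.2
    · simp only [dif_neg h]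
      exact ⟨le_rfl, hlt k⟩
  · intro φ hφ hl hr
    obtain ⟨k, hk1, hk2⟩ := index hN (hF φ)
    obtain ⟨a, b, ha, hb, hab, hI⟩ := hP φ hφ
    have hty : ∃ s, Ty N a0 el er F P φ s := by
      rcases le_or_gt a el with h | h
      · exact ⟨true, a, b, ⟨ha, hb, hI⟩, Or.inl ⟨rfl, h⟩⟩
      · exact ⟨false, a, b, ⟨ha, hb, hI⟩, Or.inr ⟨rfl, by linarith⟩⟩
    obtain ⟨s, hs⟩ := hty
    refine ⟨k, s, ?_⟩
    have hex : ∃ φ, Q k s φ := ⟨φ, hφ, hl, hr, hs, hk1, hk2⟩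
    simp only [dif_pos hex]
    obtain ⟨c1, c2, c3, c4, c5, c6⟩ := hex.choose_spec
    exact key hN h0 hφ c1 hl hr c2 c3 hs c4 hk1 hk2 c5 c6

end Pool.Agent.CRW
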