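import Pool.Agent.CRW.Targets4
import Pool.Agent.CRN.P_GLN

set_option autoImplicit false

/-!
# CRW, target OSM: measurability
-/

namespace Pool.Agent.CRW

open MeasureTheory FourierTransform Set Filter Topology
open scoped ENNReal NNReal ComplexConjugate
open Pool.Agent.MBS (E ex S)
open Pool.Agent.CRN (Nice)

namespace OSM_

theorem ex_cont_snd (ξ : E 2) : Continuous fun p : ℝ × E 2 => ex p.2 ξ :=
  Pool.Agent.MBS.ex_continuous.comp (continuous_snd.prodMk continuous_const)

theorem ex_cont_right (x : E 2) : Continuous fun ξ : E 2 => ex x ξ :=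
  Pool.Agent.MBS.ex_continuous.comp (Continuous.prodMk_right x)

/-- joint continuity of the disc sums -/
theorem S_joint {f : E 2 → ℂ} (hf : Nice f) : Continuous fun p : ℝ × E 2 => S f p.1 p.2 := by
  have hF : Continuous (𝓕 f) := Pool.Agent.CRN.GLN_.F_cont hf
  have e : ∀ p : ℝ × E 2, S f p.1 p.2 =
      ∫ ξ, (Metric.closedBall (0 : E 2) p.1).indicator (fun ξ => 𝓕 f ξ * ex p.2 ξ) ξ := by
    intro p
    rw [integral_indicator measurableSet_closedBall]
    rfl
  simp only [e]
  rw [continuous_iff_continuousAt]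
  intro p0
  refine continuousAt_of_dominated
    (bound := (Metric.closedBall (0 : E 2) (p0.1 + 1)).indicator fun ξ => ‖𝓕 f ξ‖) ?_ ?_ ?_ ?_
  · exact Eventually.of_forall fun p =>
      (hF.mul (ex_cont_right p.2)).aestronglyMeasurable.indicator measurableSet_closedBall
  · have h1 : ∀ᶠ p : ℝ × E 2 in 𝓝 p0, p.1 < p0.1 + 1 :=
      continuous_fst.continuousAt.eventually_lt continuousAt_const (by linarith)
    filter_upwards [h1] with p hp
    refine ae_of_all _ fun ξ => ?_
    by_cases hξ : ξ ∈ Metric.closedBall (0 : E 2) p.1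
    · have h2 : ξ ∈ Metric.closedBall (0 : E 2) (p0.1 + 1) :=
        Metric.closedBall_subset_closedBall hp.le hξ
      rw [indicator_of_mem hξ, indicator_of_mem h2, norm_mul, Pool.Agent.MBS.ex_norm, mul_one]
    · rw [indicator_of_notMem hξ, norm_zero]
      exact indicator_nonneg (fun _ _ => norm_nonneg _) _
  · rw [integrable_indicator_iff measurableSet_closedBall]
    exact hF.norm.continuousOn.integrableOn_compact (isCompact_closedBall _ _)
  · have h2 : ∀ᵐ ξ : E 2, ξ ∉ Metric.sphere (0 : E 2) p0.1 :=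
      measure_eq_zero_iff_ae_notMem.1 (Measure.addHaar_sphere volume (0 : E 2) p0.1)
    filter_upwards [h2] with ξ hξ
    rw [mem_sphere_zero_iff_norm] at hξ
    rcases lt_or_gt_of_ne hξ with h | h
    · have h3 : ∀ᶠ p : ℝ × E 2 in 𝓝 p0, ‖ξ‖ < p.1 :=
        continuousAt_const.eventually_lt continuous_fst.continuousAt h
      have h4 : ContinuousAt (fun p : ℝ × E 2 => 𝓕 f ξ * ex p.2 ξ) p0 :=
        (continuous_const.mul (ex_cont_snd ξ)).continuousAt
      refine h4.congr ?_
      filter_upwards [h3] with p hp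
      rw [indicator_of_mem]
      rw [mem_closedBall_zero_iff]
      exact hp.le
    · have h3 : ∀ᶠ p : ℝ × E 2 in 𝓝 p0, p.1 < ‖ξ‖ :=
        continuous_fst.continuousAt.eventually_lt continuousAt_const h
      refine (continuousAt_const (y := (0 : ℂ))).congr ?_
      filter_upwards [h3] with p hp
      rw [indicator_of_notMem]
      rw [mem_closedBall_zero_iff, not_le]
      exact hp

theorem S_nonpos (f : E 2 → ℂ) {R : ℝ} (hR : R ≤ 0) (x : E 2) : S f R x = 0 := by
  unfold S
  rcases hR.lt_or_eq with h | h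
  · rw [Metric.closedBall_eq_empty.2 h]
    simp
  · rw [h, Metric.closedBall_zero]
    exact setIntegral_measure_zero _ (by simp)

theorem S_max (f : E 2 → ℂ) (R : ℝ) (x : E 2) : S f R x = S f (max R 0) x := by
  rcases le_total R 0 with h | h
  · rw [max_eq_right h, S_nonpos f h, S_nonpos f le_rfl]
  · rw [max_eq_left h]

theorem S_contR {f : E 2 → ℂ} (hf : Nice f) (x : E 2) : Continuous fun R : ℝ => S f R x :=
  (S_joint hf).comp (Continuous.prodMk_left x)

/-- truncation to `[-1, 1]` -/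
noncomputable def cl (s : ℝ) : ℝ := max (-1) (min 1 s)

theorem cl_cont : Continuous cl := by
  unfold cl
  fun_prop

theorem cl_abs (s : ℝ) : |cl s| ≤ 1 := by
  unfold cl
  rw [abs_le]
  exact ⟨le_max_left _ _, max_le (by norm_num) (min_le_left _ _)⟩

theorem cl_of {s : ℝ} (h : |s| ≤ 1) : cl s = s := by
  obtain ⟨h1, h2⟩ := abs_le.1 h
  unfold cl
  rw [min_eq_right h2, max_eq_right h1]

theorem OW_nonneg {f : E 2 → ℂ} (hf : Nice f) {A : ℝ} {x : E 2} {R R' : ℝ}
    (hR : 0 ≤ R) (hR' : 0 ≤ R') (h : |R - R'| ≤ A / ‖x‖) :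
    ‖S f R x - S f R' x‖ₑ ≤ OW A f x := by
  have h1 : ∀ δ : ℝ, 0 < δ → ‖S f (R + δ) x - S f (R' + δ) x‖ₑ ≤ OW A f x := by
    intro δ hδ
    unfold OW
    refine le_iSup_of_le (R + δ) (le_iSup_of_le (R' + δ) (le_iSup_of_le ?_ le_rfl))
    refine ⟨by linarith, by linarith, ?_⟩
    rw [add_sub_add_right_eq_sub]
    exact h
  have h2 : Tendsto (fun δ : ℝ => ‖S f (R + δ) x - S f (R' + δ) x‖ₑ) (𝓝[>] 0)
      (𝓝 ‖S f (R + 0) x - S f (R' + 0) x‖ₑ) := by
    have h3 : Continuous fun δ : ℝ => ‖S f (R + δ) x - S f (R' + δ) x‖ₑ :=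
      (((S_contR hf x).comp (continuous_const.add continuous_id)).sub
        ((S_contR hf x).comp (continuous_const.add continuous_id))).enorm
    exact (h3.tendsto 0).mono_left nhdsWithin_le_nhds
  rw [add_zero, add_zero] at h2
  exact le_of_tendsto h2 (eventually_nhdsWithin_of_forall fun δ hδ => h1 δ hδ)

theorem OW_eq {f : E 2 → ℂ} (hf : Nice f) {A : ℝ} (hA : 0 ≤ A) (x : E 2) :
    OW A f x = ⨆ q : ℚ × ℚ, ‖S f (q.1 : ℝ) x - S f ((q.1 : ℝ) + cl q.2 * (A / ‖x‖)) x‖ₑ := by
  set c : ℝ := A / ‖x‖ with hc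
  have hc0 : 0 ≤ c := by positivity
  have hcont : Continuous fun p : ℝ × ℝ => ‖S f p.1 x - S f (p.1 + cl p.2 * c) x‖ₑ := by
    refine (((S_contR hf x).comp continuous_fst).sub ((S_contR hf x).comp ?_)).enorm
    exact continuous_fst.add ((cl_cont.comp continuous_snd).mul continuous_const)
  refine le_antisymm ?_ ?_
  · set M : ℝ≥0∞ := ⨆ q : ℚ × ℚ, ‖S f (q.1 : ℝ) x - S f ((q.1 : ℝ) + cl q.2 * c) x‖ₑ with hM
    have hall : ∀ a s : ℝ, ‖S f a x - S f (a + cl s * c) x‖ₑ ≤ M := by
      intro a s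
      refine Rat.denseRange_cast.induction_on₂
        (p := fun a s : ℝ => ‖S f a x - S f (a + cl s * c) x‖ₑ ≤ M)
        (isClosed_le hcont continuous_const) (fun q1 q2 => ?_) a s
      exact le_iSup (fun q : ℚ × ℚ => ‖S f (q.1 : ℝ) x - S f ((q.1 : ℝ) + cl q.2 * c) x‖ₑ)
        (q1, q2)
    unfold OW
    refine iSup_le fun R => iSup_le fun R' => iSup_le fun h => ?_
    obtain ⟨-, -, h3⟩ := h
    rw [← hc] at h3
    rcases hc0.lt_or_eq with hcp | hcz
    · have hs : |(R' - R) / c| ≤ 1 := by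
        rw [abs_div, abs_of_pos hcp, div_le_one hcp, abs_sub_comm]
        exact h3
      have h4 := hall R ((R' - R) / c)
      rw [cl_of hs, div_mul_cancel₀ _ hcp.ne', add_sub_cancel] at h4
      exact h4
    · rw [← hcz] at h3
      have h5 : R = R' := by
        have := abs_nonpos_iff.1 h3
        linarith
      rw [h5, sub_self, enorm_zero]
      exact zero_le
  · refine iSup_le fun q => ?_
    rw [S_max f (q.1 : ℝ), S_max f ((q.1 : ℝ) + cl q.2 * c)]
    refine OW_nonneg hf (le_max_right _ _) (le_max_right _ _) ?_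
    rw [← hc]
    have h1 := abs_max_sub_max_le_abs (q.1 : ℝ) ((q.1 : ℝ) + cl q.2 * c) 0
    refine h1.trans ?_
    rw [sub_add_cancel_left, abs_neg, abs_mul, abs_of_nonneg hc0]
    have h2 := mul_le_mul_of_nonneg_right (cl_abs q.2) hc0
    linarith

/-- the radius number `q` of GW -/
noncomputable def rq (N : ℕ) (q : ℝ) (x : E 2) : ℝ := if ‖x‖ = 0 then q else min q (N / ‖x‖)

theorem rq_meas (N : ℕ) (q : ℝ) : Measurable (rq N q) := by
  unfold rq
  refine Measurable.ite ?_ measurable_const ?_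
  · exact measurable_norm (measurableSet_singleton (0 : ℝ))
  · exact measurable_const.min (measurable_const.div measurable_norm)

theorem GW_eq {f : E 2 → ℂ} (hf : Nice f) (N : ℕ) (x : E 2) :
    GW N f x = ⨆ q : ℚ, ‖S f (rq N q x) x‖ₑ := by
  have hcont : Continuous fun q : ℝ => ‖S f (rq N q x) x‖ₑ := by
    refine ((S_contR hf x).comp ?_).enorm
    unfold rq
    by_cases h : ‖x‖ = 0
    · simp only [h, if_true]
      exact continuous_id
    · simp only [h, if_false]
      exact continuous_id.min continuous_const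
  refine le_antisymm ?_ ?_
  · set M : ℝ≥0∞ := ⨆ q : ℚ, ‖S f (rq N q x) x‖ₑ with hM
    have hall : ∀ q : ℝ, ‖S f (rq N q x) x‖ₑ ≤ M := by
      intro q
      refine Rat.denseRange_cast.induction_on (p := fun q : ℝ => ‖S f (rq N q x) x‖ₑ ≤ M) q
        (isClosed_le hcont continuous_const) fun q => ?_
      exact le_iSup (fun q : ℚ => ‖S f (rq N q x) x‖ₑ) q
    unfold GW
    refine iSup_le fun R => iSup_le fun h => ?_
    have h1 : rq N R x = R := by
      unfold rq
      split_ifs with h2
      · rfl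
      · have h3 : 0 < ‖x‖ := lt_of_le_of_ne (norm_nonneg _) (Ne.symm h2)
        rw [min_eq_left]
        rw [le_div_iff₀ h3]
        exact h.2
    have h4 := hall R
    rwa [h1] at h4
  · refine iSup_le fun q => ?_
    rcases le_or_gt (rq N q x) 0 with h | h
    · rw [S_nonpos f h, enorm_zero]
      exact zero_le
    · unfold GW
      refine le_iSup_of_le (rq N q x) (le_iSup_of_le ⟨h, ?_⟩ le_rfl)
      unfold rq
      split_ifs with h2
      · rw [h2, mul_zero]
        exact Nat.cast_nonneg N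
      · have h3 : 0 < ‖x‖ := lt_of_le_of_ne (norm_nonneg _) (Ne.symm h2)
        calc min (q : ℝ) (N / ‖x‖) * ‖x‖ ≤ N / ‖x‖ * ‖x‖ :=
              mul_le_mul_of_nonneg_right (min_le_right _ _) h3.le
          _ = N := div_mul_cancel₀ _ h3.ne'

end OSM_

open OSM_ in
/-- OSM. -/
theorem p_OSM : T_OSM := by
  intro f hf
  refine ⟨fun A hA => ?_, fun N => ?_⟩
  · have e : OW A f = fun x => ⨆ q : ℚ × ℚ,
        ‖S f (q.1 : ℝ) x - S f ((q.1 : ℝ) + cl q.2 * (A / ‖x‖)) x‖ₑ := by
      funext x
      exact OW_eq hf hA x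
    rw [e]
    refine Measurable.iSup fun q => Measurable.enorm (Measurable.sub ?_ ?_)
    · exact (S_joint hf).measurable.comp (measurable_const.prodMk measurable_id)
    · refine (S_joint hf).measurable.comp (Measurable.prodMk ?_ measurable_id)
      exact measurable_const.add (measurable_const.mul (measurable_const.div measurable_norm))
  · have e : GW N f = fun x => ⨆ q : ℚ, ‖S f (rq N q x) x‖ₑ := by
      funext x
      exact GW_eq hf N x
    rw [e]
    refine Measurable.iSup fun q => Measurable.enorm ?_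
    exact (S_joint hf).measurable.comp ((rq_meas N q).prodMk measurable_id)

end Pool.Agent.CRW
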