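import Pool.Agent.CRW.Targets
import Pool.Agent.CRR.P_PART

/-!
# CRW, target PTG: the bands for a general kernel (copy of `CRR/P_PART.lean`)
-/

set_option autoImplicit false

namespace Pool.Agent.CRW

open MeasureTheory FourierTransform Set Filter Topology
open scoped ENNReal NNReal ComplexConjugate
open Pool.Agent.CAR (e1)
open Pool.Agent.CRN (T_CARLS)
open Pool.Agent.CRR (aa de band fh FS HH T_SEQ)

open Pool.Agent.CRR.PART_ in
/-- **PTG**. -/
theorem p_PTG (h1 : T_SEQ) (h2 : T_SDG) : T_PTG := by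
  intro hT B hB
  obtain ⟨C, hC⟩ := h2 hT B hB
  set K1 : ℝ≥0∞ := 2 * ∑' n : ℕ, ENNReal.ofReal (((39 / 40) ^ 2) ^ n) with hK1
  set K2 : ℝ≥0∞ := 2 * ∑' n : ℕ, ENNReal.ofReal (((40 / 39) ^ 2 * (9 / 10)) ^ n) with hK2
  have hK1t : K1 ≠ ⊤ := ENNReal.mul_ne_top (by norm_num) (geo (by norm_num) (by norm_num))
  have hK2t : K2 ≠ ⊤ := ENNReal.mul_ne_top (by norm_num) (geo (by norm_num) (by norm_num))
  refine ⟨(K1 * K2 * C).toNNReal, ?_⟩
  rw [ENNReal.coe_toNNReal (ENNReal.mul_ne_top (ENNReal.mul_ne_top hK1t hK2t)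
    ENNReal.coe_ne_top)]
  intro ν κ H hν hK hH
  have hκ := hK.cont
  set A : ℕ → ℕ → ℝ → ℝ≥0∞ := fun k j u => ⨆ (V1 : ℝ) (V2 : ℝ),
    ‖FS κ (aa ν k) (de ν k) (fh (Hj ν H j)) u V1 V2‖ₑ with hA
  have hAm : ∀ k j, Measurable (A k j) := fun k j =>
    SS_meas hκ (fh_cont (Hj_HH hH j)) (fh_bd _) _ _
  have hAC : ∀ k j, ∫⁻ u, A k j u ^ 2 ≤
      C * ENNReal.ofReal ((9 / 10) ^ D k j) * ∫⁻ s, ‖Hj ν H j s‖ₑ ^ 2 := by
    intro k j
    apply hC ν κ k j (Hj ν H j) hν hK (Hj_HH hH j)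
    intro s hs
    by_contra hcon
    exact hs (indicator_of_notMem hcon _)
  have hSle : ∀ k u, (⨆ (V1 : ℝ) (V2 : ℝ), ‖FS κ (aa ν k) (de ν k) (fh H) u V1 V2‖ₑ) ≤
      ∑' j, A k j u := by
    intro k u
    refine iSup_le fun V1 => iSup_le fun V2 => ?_
    refine (FS_sum h1 hν hH hκ _ _ u V1 V2).trans (ENNReal.tsum_le_tsum fun j => ?_)
    exact le_iSup₂ (f := fun V1 V2 => ‖FS κ (aa ν k) (de ν k) (fh (Hj ν H j)) u V1 V2‖ₑ)
      V1 V2
  have hw : ∀ k j, ENNReal.ofReal ((39 / 40) ^ D k j) * ENNReal.ofReal ((40 / 39) ^ D k j) = 1 := by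
    intro k j
    rw [← ENNReal.ofReal_mul (by positivity), ← mul_pow]
    norm_num
  have hS2 : ∀ k u, (⨆ (V1 : ℝ) (V2 : ℝ),
      ‖FS κ (aa ν k) (de ν k) (fh H) u V1 V2‖ₑ) ^ 2 ≤
      K1 * ∑' j, ENNReal.ofReal (((40 / 39) ^ 2) ^ D k j) * A k j u ^ 2 := by
    intro k u
    calc (⨆ (V1 : ℝ) (V2 : ℝ), ‖FS κ (aa ν k) (de ν k) (fh H) u V1 V2‖ₑ) ^ 2
        ≤ (∑' j, A k j u) ^ 2 := by gcongr; exact hSle k u
      _ = (∑' j, ENNReal.ofReal ((39 / 40) ^ D k j) *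
            (ENNReal.ofReal ((40 / 39) ^ D k j) * A k j u)) ^ 2 := by
          congr 2
          funext j
          rw [← mul_assoc, hw, one_mul]
      _ ≤ _ := cs _ _
      _ ≤ _ := by
          gcongr ?_ * ?_
          · have := sumD (fun n => ENNReal.ofReal (((39 / 40) ^ 2) ^ n)) k
            refine le_trans (le_of_eq ?_) this
            congr 1
            funext j
            rw [← ENNReal.ofReal_pow (by positivity), ← pow_mul, ← pow_mul, mul_comm]
          · apply le_of_eq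
            congr 1
            funext j
            rw [mul_pow, ← ENNReal.ofReal_pow (by positivity), ← pow_mul, ← pow_mul,
              mul_comm (D k j) 2]
  calc ∫⁻ u, ∑' k : ℕ, (⨆ (V1 : ℝ) (V2 : ℝ),
        ‖FS κ (aa ν k) (de ν k) (fh H) u V1 V2‖ₑ) ^ 2
      ≤ ∫⁻ u, ∑' k : ℕ, K1 * ∑' j, ENNReal.ofReal (((40 / 39) ^ 2) ^ D k j) * A k j u ^ 2 :=
        lintegral_mono fun u => ENNReal.tsum_le_tsum fun k => hS2 k u
    _ = ∑' k : ℕ, K1 * ∑' j, ENNReal.ofReal (((40 / 39) ^ 2) ^ D k j) * ∫⁻ u, A k j u ^ 2 := by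
        rw [lintegral_tsum]
        · congr 1
          funext k
          rw [lintegral_const_mul _ (Measurable.tsum fun j =>
            ((hAm k j).pow_const 2).const_mul _), lintegral_tsum]
          · congr 2
            funext j
            rw [lintegral_const_mul _ ((hAm k j).pow_const 2)]
          · exact fun j => (((hAm k j).pow_const 2).const_mul _).aemeasurable
        · exact fun k => ((Measurable.tsum fun j =>
            ((hAm k j).pow_const 2).const_mul _).const_mul _).aemeasurable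
    _ ≤ ∑' k : ℕ, K1 * ∑' j, ENNReal.ofReal (((40 / 39) ^ 2) ^ D k j) *
          (C * ENNReal.ofReal ((9 / 10) ^ D k j) * ∫⁻ s, ‖Hj ν H j s‖ₑ ^ 2) := by
        gcongr with k j
        exact hAC k j
    _ = K1 * C * ∑' j, (∫⁻ s, ‖Hj ν H j s‖ₑ ^ 2) *
          ∑' k, ENNReal.ofReal (((40 / 39) ^ 2 * (9 / 10)) ^ D j k) := by
        simp_rw [← ENNReal.tsum_mul_left]
        rw [ENNReal.tsum_comm]
        congr 1
        funext j
        congr 1
        funext k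
        rw [D_comm j k, mul_pow, ENNReal.ofReal_mul (by positivity)]
        ring
    _ ≤ K1 * C * ∑' j, (∫⁻ s, ‖Hj ν H j s‖ₑ ^ 2) * K2 := by
        gcongr with j
        exact sumD (fun n => ENNReal.ofReal (((40 / 39) ^ 2 * (9 / 10)) ^ n)) j
    _ = K1 * K2 * C * ∫⁻ s, ‖H s‖ₑ ^ 2 := by
        rw [ENNReal.tsum_mul_right, n2_sum h1 hν]
        ring

end Pool.Agent.CRW
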