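import Pool.Agent.CRW.Targets
import Pool.Agent.CRN.P_BERN

set_option autoImplicit false

namespace Pool.Agent.CRW

open MeasureTheory FourierTransform Set Filter Topology
open scoped ENNReal NNReal ComplexConjugate
open Pool.Agent.CRN (ci)

namespace ROT_

open Pool.Agent.CRN.BERN_ (ci_add ci_cont norm_ci TP parsL)

lemma ci_period (k : ℕ) (φ : ℝ) : ci (k * (φ + 2 * Real.pi)) = ci (k * φ) := by
  unfold ci
  rw [Complex.exp_eq_exp_iff_exists_int]
  refine ⟨k, ?_⟩
  push_cast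
  ring

/-- change of the period interval -/
lemma per_eq {F : ℝ → ℝ≥0∞} (hF : ∀ θ, F (θ + 2 * Real.pi) = F θ) (s t : ℝ) :
    ∫⁻ θ in Ioc s (s + 2 * Real.pi), F θ = ∫⁻ θ in Ioc t (t + 2 * Real.pi), F θ := by
  have hp : (0 : ℝ) < 2 * Real.pi := by positivity
  exact (isAddFundamentalDomain_Ioc hp s).setLIntegral_eq
    (isAddFundamentalDomain_Ioc hp t) F (by
      rintro ⟨g, hg⟩ x
      obtain ⟨n, rfl⟩ := AddSubgroup.mem_zmultiples_iff.1 hg
      have hper : Function.Periodic F (2 * Real.pi) := hF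
      rw [AddSubgroup.vadd_def, vadd_eq_add, add_comm]
      exact hper.zsmul n x)

/-- shift by `ψ` -/
lemma per_shift {F : ℝ → ℝ≥0∞} (hF : ∀ θ, F (θ + 2 * Real.pi) = F θ) (ψ : ℝ) :
    ∫⁻ θ in Ioc (0 : ℝ) (2 * Real.pi), F (θ + ψ) = ∫⁻ θ in Ioc (0 : ℝ) (2 * Real.pi), F θ := by
  have hm := (measurePreserving_add_right (volume : Measure ℝ) ψ)
  have h2 := hm.setLIntegral_comp_emb (measurableEmbedding_addRight ψ) F
    (Ioc (0 : ℝ) (2 * Real.pi))
  rw [h2, image_add_const_Ioc]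
  have h3 := per_eq hF ψ 0
  simp only [zero_add] at h3 ⊢
  rw [← h3]
  congr 3
  ring

/-- Parseval for `Σ_{k<K} ci (kφ) a_k` -/
lemma par (K : ℕ) (a : ℕ → ℂ) :
    ∫⁻ φ in Ioc (0 : ℝ) (2 * Real.pi), ‖∑ k ∈ Finset.range K, ci (k * φ) * a k‖ₑ ^ 2 =
      ENNReal.ofReal (2 * Real.pi) * ∑ k ∈ Finset.range K, ‖a k‖ₑ ^ 2 := by
  have hper : ∀ θ : ℝ, ‖∑ k ∈ Finset.range K, ci (k * (θ + 2 * Real.pi)) * a k‖ₑ ^ 2 =
      ‖∑ k ∈ Finset.range K, ci (k * θ) * a k‖ₑ ^ 2 := by
    intro θ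
    simp only [ci_period]
  have h1 := per_eq (F := fun φ => ‖∑ k ∈ Finset.range K, ci (k * φ) * a k‖ₑ ^ 2) hper 0
    (-Real.pi)
  rw [zero_add] at h1
  rw [h1]
  have e0 : -Real.pi + 2 * Real.pi = Real.pi := by ring
  rw [e0]
  let c : ℤ → ℂ := fun k => if 0 ≤ k ∧ k < (K : ℤ) then a k.toNat else 0
  have hsub : (Finset.range K).map Nat.castEmbedding ⊆ Finset.Icc (-(K : ℤ)) K := by
    intro x hx
    rw [Finset.mem_map] at hx
    obtain ⟨j, hj, rfl⟩ := hx
    rw [Finset.mem_range] at hj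
    rw [Finset.mem_Icc]
    simp only [Nat.castEmbedding_apply]
    omega
  have hz : ∀ x ∈ Finset.Icc (-(K : ℤ)) K, x ∉ (Finset.range K).map Nat.castEmbedding →
      c x = 0 := by
    intro x _ hx
    show (if 0 ≤ x ∧ x < (K : ℤ) then a x.toNat else 0) = 0
    rw [if_neg]
    rintro ⟨h0, h1⟩
    apply hx
    rw [Finset.mem_map]
    refine ⟨x.toNat, ?_, ?_⟩
    · rw [Finset.mem_range]
      omega
    · simp only [Nat.castEmbedding_apply]
      omega
  have hc : ∀ j ∈ Finset.range K, c ((j : ℕ) : ℤ) = a j := by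
    intro j hj
    rw [Finset.mem_range] at hj
    show (if 0 ≤ (j : ℤ) ∧ (j : ℤ) < (K : ℤ) then a (j : ℤ).toNat else 0) = a j
    rw [if_pos (by omega), Int.toNat_natCast]
  have e1 : ∀ φ : ℝ, ∑ k ∈ Finset.range K, ci (k * φ) * a k = TP K c φ := by
    intro φ
    unfold TP
    rw [← Finset.sum_subset hsub (fun x hx hx' => by rw [hz x hx hx', zero_mul]),
      Finset.sum_map]
    apply Finset.sum_congr rfl
    intro j hj
    simp only [Nat.castEmbedding_apply]
    rw [hc j hj, mul_comm, Int.cast_natCast]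
  have e2 : ∑ k ∈ Finset.Icc (-(K : ℤ)) K, ‖c k‖ ^ 2 = ∑ k ∈ Finset.range K, ‖a k‖ ^ 2 := by
    rw [← Finset.sum_subset hsub (fun x hx hx' => by
      rw [hz x hx hx', norm_zero]; norm_num), Finset.sum_map]
    apply Finset.sum_congr rfl
    intro j hj
    simp only [Nat.castEmbedding_apply]
    rw [hc j hj]
  simp only [e1]
  rw [parsL, e2, ENNReal.ofReal_mul (by positivity),
    ENNReal.ofReal_sum_of_nonneg (fun _ _ => by positivity)]
  congr 1
  apply Finset.sum_congr rfl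
  intro k _
  rw [ENNReal.ofReal_pow (norm_nonneg _), ofReal_norm]

/-- the primitive form of the truncated integral -/
lemma trunc_cont {h : ℝ → ℂ} (hh : ∀ a b : ℝ, IntegrableOn h (Ioc a b)) :
    Continuous (fun p : ℝ × ℝ => ∫ v in Ioc p.1 p.2, h v) := by
  have hi : ∀ a b : ℝ, IntervalIntegrable h volume a b := fun a b => ⟨hh a b, hh b a⟩
  have hP : Continuous (fun V : ℝ => ∫ v in (0 : ℝ)..V, h v) :=
    intervalIntegral.continuous_primitive hi 0
  have e : (fun p : ℝ × ℝ => ∫ v in Ioc p.1 p.2, h v) = fun p : ℝ × ℝ =>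
      (∫ v in (0 : ℝ)..(max p.1 p.2), h v) - ∫ v in (0 : ℝ)..p.1, h v := by
    funext p
    rw [intervalIntegral.integral_interval_sub_left (hi _ _) (hi _ _)]
    rcases le_total p.1 p.2 with h1 | h1
    · rw [max_eq_right h1, intervalIntegral.integral_of_le h1]
    · rw [max_eq_left h1, intervalIntegral.integral_same, Ioc_eq_empty (not_lt.2 h1)]
      simp
  rw [e]
  exact (hP.comp (continuous_fst.max continuous_snd)).sub (hP.comp continuous_fst)

/-- supremum over the rationals -/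
lemma sup_rat {f : ℝ × ℝ → ℝ≥0∞} (hf : Continuous f) :
    (⨆ (x : ℝ) (y : ℝ), f (x, y)) = ⨆ (q : ℚ) (r : ℚ), f ((q : ℝ), (r : ℝ)) := by
  apply le_antisymm
  · apply iSup_le
    intro x
    apply iSup_le
    intro y
    set s := ⨆ (q : ℚ) (r : ℚ), f ((q : ℝ), (r : ℝ)) with hs
    have hc1 : ∀ q : ℚ, ∀ y : ℝ, f ((q : ℝ), y) ≤ s := by
      intro q y
      have hc : IsClosed {y : ℝ | f ((q : ℝ), y) ≤ s} :=
        isClosed_le (hf.comp (by fun_prop)) continuous_const
      exact Rat.denseRange_cast.induction_on (p := fun y : ℝ => f ((q : ℝ), y) ≤ s) y hc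
        (fun r => le_iSup_of_le q (le_iSup_of_le r le_rfl))
    have hc : IsClosed {x : ℝ | f (x, y) ≤ s} :=
      isClosed_le (hf.comp (by fun_prop)) continuous_const
    exact Rat.denseRange_cast.induction_on (p := fun x : ℝ => f (x, y) ≤ s) x hc
      (fun q => hc1 q y)
  · apply iSup_le
    intro q
    apply iSup_le
    intro r
    exact le_iSup_of_le (q : ℝ) (le_iSup_of_le (r : ℝ) le_rfl)

lemma int_loc {κ g : ℝ → ℂ} (hκ : LB κ) (hg : Measurable g) (hfin : ∫⁻ v, ‖g v‖ₑ ^ 2 ≠ ∞)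
    (u a b : ℝ) : IntegrableOn (fun v => κ (u + v) * g v) (Ioc a b) := by
  have hm : MemLp g 2 volume := by
    rw [memLp_two_iff_integrable_sq_norm hg.aestronglyMeasurable]
    refine ⟨(hg.norm.pow_const 2).aestronglyMeasurable, ?_⟩
    unfold HasFiniteIntegral
    refine lt_of_le_of_lt (le_of_eq (lintegral_congr fun v => ?_)) (lt_top_iff_ne_top.2 hfin)
    rw [enorm_pow, enorm_norm]
  have hi : IntegrableOn g (Ioc a b) :=
    (hm.restrict (Ioc a b)).integrable (by norm_num)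
  obtain ⟨M, hM⟩ := hκ.bd (u + a) (u + b)
  refine Integrable.bdd_mul (c := M) hi
    (hκ.meas.comp (measurable_const.add measurable_id)).aestronglyMeasurable ?_
  refine (ae_restrict_iff' measurableSet_Ioc).2 (Eventually.of_forall fun v hv => ?_)
  exact hM _ ⟨by linarith [hv.1], by linarith [hv.2]⟩

end ROT_

open ROT_

theorem p_ROT : T_ROT := by
  intro C B κ K b c g hC hB hκ hHB hb hc hg
  have hpi : ENNReal.ofReal (2 * Real.pi) ≠ 0 := by
    rw [Ne, ENNReal.ofReal_eq_zero, not_le]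
    positivity
  by_cases hfin : ∀ k < K, ∫⁻ v, ‖g k v‖ₑ ^ 2 ≠ ∞
  swap
  · push Not at hfin
    obtain ⟨k, hk, hk'⟩ := hfin
    have hs : ∑ k ∈ Finset.range K, ∫⁻ v, ‖g k v‖ₑ ^ 2 = ∞ := by
      rw [ENNReal.sum_eq_top]
      exact ⟨k, Finset.mem_range.2 hk, hk'⟩
    have hC0 : (C : ℝ≥0∞) ≠ 0 := by
      have : C ≠ 0 := (lt_of_lt_of_le one_pos hC).ne'
      exact_mod_cast this
    have hB0 : (B : ℝ≥0∞) ^ 2 ≠ 0 := by
      have : B ≠ 0 := (lt_of_lt_of_le one_pos hB).ne'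
      exact pow_ne_zero 2 (by exact_mod_cast this)
    rw [hs, ENNReal.mul_top (mul_ne_zero (mul_ne_zero hC0 hB0) hpi)]
    exact le_top
  -- abbreviations
  set G : ℝ → ℝ → ℂ := fun φ v => ∑ k ∈ Finset.range K, ci (k * φ) * (c k * g k v) with hG
  have hGm : Measurable (fun p : ℝ × ℝ => G p.1 p.2) := by
    apply Finset.measurable_fun_sum
    intro k _
    exact ((Pool.Agent.CRN.BERN_.ci_cont.measurable.comp
      (measurable_const.mul measurable_fst))).mul
      (measurable_const.mul ((hg k).comp measurable_snd))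
  have hid : ∀ u φ V1 V2 : ℝ, ∑ k ∈ Finset.range K, ci (k * φ) *
      (c k * ∫ v in Ioc V1 V2, κ (u + v) * g k v) = ∫ v in Ioc V1 V2, κ (u + v) * G φ v := by
    intro u φ V1 V2
    have e : ∀ v, κ (u + v) * G φ v = ∑ k ∈ Finset.range K,
        (ci (k * φ) * c k) * (κ (u + v) * g k v) := by
      intro v
      rw [hG, Finset.mul_sum]
      apply Finset.sum_congr rfl
      intro k _
      ring
    simp only [e]
    rw [integral_finsetSum]
    · apply Finset.sum_congr rfl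
      intro k _
      rw [integral_const_mul]
      ring
    · intro k hk
      exact (int_loc hκ (hg k) (hfin k (Finset.mem_range.1 hk)) u V1 V2).const_mul _
  -- the maximal function
  set F : ℝ → ℝ → ℝ≥0∞ := fun u φ => (⨆ (V1 : ℝ) (V2 : ℝ),
    ‖∑ k ∈ Finset.range K, ci (k * φ) * (c k * ∫ v in Ioc V1 V2, κ (u + v) * g k v)‖ₑ) ^ 2
    with hF
  have hshift : ∀ u, ∫⁻ φ in Ioc (0 : ℝ) (2 * Real.pi), (⨆ (V1 : ℝ) (V2 : ℝ),
      ‖∑ k ∈ Finset.range K, ci (k * (φ + b u)) *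
        (c k * ∫ v in Ioc V1 V2, κ (u + v) * g k v)‖ₑ) ^ 2 =
      ∫⁻ φ in Ioc (0 : ℝ) (2 * Real.pi), F u φ := by
    intro u
    have hper : ∀ θ, F u (θ + 2 * Real.pi) = F u θ := by
      intro θ
      simp only [hF, ci_period]
    exact per_shift hper (b u)
  simp only [hshift]
  have hFm : Measurable (fun p : ℝ × ℝ => F p.1 p.2) := by
    have hInt : ∀ k, ∀ V1 V2 : ℝ,
        Measurable (fun u : ℝ => ∫ v in Ioc V1 V2, κ (u + v) * g k v) := by
      intro k V1 V2
      have hm2 : Measurable (fun p : ℝ × ℝ => κ (p.1 + p.2) * g k p.2) :=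
        (hκ.meas.comp (measurable_fst.add measurable_snd)).mul ((hg k).comp measurable_snd)
      exact (hm2.stronglyMeasurable.integral_prod_right
        (ν := volume.restrict (Ioc V1 V2))).measurable
    have e : (fun p : ℝ × ℝ => F p.1 p.2) = fun p : ℝ × ℝ => (⨆ (q : ℚ) (r : ℚ),
        ‖∑ k ∈ Finset.range K, ci (k * p.2) *
          (c k * ∫ v in Ioc (q : ℝ) (r : ℝ), κ (p.1 + v) * g k v)‖ₑ) ^ 2 := by
      funext p
      have hcont : Continuous (fun x : ℝ × ℝ => ‖∑ k ∈ Finset.range K, ci (k * p.2) *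
          (c k * ∫ v in Ioc x.1 x.2, κ (p.1 + v) * g k v)‖ₑ) := by
        apply Continuous.enorm
        apply continuous_finsetSum
        intro k hk
        apply continuous_const.mul
        apply continuous_const.mul
        exact trunc_cont (fun a b => int_loc hκ (hg k) (hfin k (Finset.mem_range.1 hk)) p.1 a b)
      have := sup_rat hcont
      simp only [hF]
      rw [this]
    rw [e]
    apply Measurable.pow_const
    refine Measurable.iSup (fun q => Measurable.iSup (fun r => ?_))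
    apply Measurable.enorm
    apply Finset.measurable_fun_sum
    intro k _
    exact ((Pool.Agent.CRN.BERN_.ci_cont.measurable.comp
      (measurable_const.mul measurable_snd))).mul
      (measurable_const.mul ((hInt k q r).comp measurable_fst))
  rw [lintegral_lintegral_swap hFm.aemeasurable]
  have h1 : ∀ φ, ∫⁻ u, F u φ ≤ C * ∫⁻ v, ‖G φ v‖ₑ ^ 2 := by
    intro φ
    have hGφ : Measurable (G φ) := hGm.comp (measurable_const.prodMk measurable_id)
    have := hHB (G φ) hGφ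
    simp only [hF, hid]
    exact this
  calc ∫⁻ φ in Ioc (0 : ℝ) (2 * Real.pi), ∫⁻ u, F u φ
      ≤ ∫⁻ φ in Ioc (0 : ℝ) (2 * Real.pi), C * ∫⁻ v, ‖G φ v‖ₑ ^ 2 := lintegral_mono h1
    _ = C * ∫⁻ φ in Ioc (0 : ℝ) (2 * Real.pi), ∫⁻ v, ‖G φ v‖ₑ ^ 2 := by
        rw [lintegral_const_mul]
        exact (hGm.enorm.pow_const 2).lintegral_prod_right'
    _ = C * ∫⁻ v, ∫⁻ φ in Ioc (0 : ℝ) (2 * Real.pi), ‖G φ v‖ₑ ^ 2 := by
        rw [lintegral_lintegral_swap (hGm.enorm.pow_const 2).aemeasurable]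
    _ = C * ∫⁻ v, ENNReal.ofReal (2 * Real.pi) * ∑ k ∈ Finset.range K, ‖c k * g k v‖ₑ ^ 2 := by
        congr 1
        refine lintegral_congr fun v => ?_
        exact par K (fun k => c k * g k v)
    _ ≤ C * ∫⁻ v, ENNReal.ofReal (2 * Real.pi) * ∑ k ∈ Finset.range K,
          ((B : ℝ≥0∞) ^ 2 * ‖g k v‖ₑ ^ 2) := by
        gcongr with v k hk
        rw [enorm_mul, mul_pow]
        gcongr
        exact hc k (Finset.mem_range.1 hk)
    _ = C * B ^ 2 * ENNReal.ofReal (2 * Real.pi) *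
          ∑ k ∈ Finset.range K, ∫⁻ v, ‖g k v‖ₑ ^ 2 := by
        rw [lintegral_const_mul _ (Finset.measurable_fun_sum _ fun k _ =>
          ((hg k).enorm.pow_const 2).const_mul _),
          lintegral_finsetSum _ (fun k _ => ((hg k).enorm.pow_const 2).const_mul _)]
        have e : ∀ k ∈ Finset.range K, ∫⁻ v, (B : ℝ≥0∞) ^ 2 * ‖g k v‖ₑ ^ 2 =
            (B : ℝ≥0∞) ^ 2 * ∫⁻ v, ‖g k v‖ₑ ^ 2 := fun k _ =>
          lintegral_const_mul _ ((hg k).enorm.pow_const 2)
        rw [Finset.sum_congr rfl e, ← Finset.mul_sum]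
        ring

end Pool.Agent.CRW
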