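import Pool.Agent.CRW.Targets
import Pool.Agent.CRR.P_SD

set_option autoImplicit false

/-! CRW-SDG: decay of the strips, general kernel. -/

namespace Pool.Agent.CRW

open MeasureTheory Set Filter Topology
open scoped ENNReal NNReal
open Pool.Agent.CAR (e1)
open Pool.Agent.CRN (T_CARLS)
open Pool.Agent.CRR (PP Sol xc E2 NSol kap aa de la si ww band fh StripD FS FA HH T_SEQ T_VCR T_DEC
  NN)
open Pool.Agent.CRR.SD_ (fh_cont stripD_mono)

theorem p_SDG (h1 : T_SEQ) (h3 : T_VCR) (h4 : T_DEC) : T_SDG := by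
  intro hC A0 hA0
  obtain ⟨A, hA⟩ : ∃ A : ℝ, A = max A0 16 := ⟨_, rfl⟩
  have hA1 : A0 ≤ A := by rw [hA]; exact le_max_left _ _
  have hA16 : 16 ≤ A := by rw [hA]; exact le_max_right _ _
  have hAone : 1 ≤ A := by linarith
  obtain ⟨C1, hC1⟩ := h3 hC A hAone
  obtain ⟨C2, hC2⟩ := h4 hC A hAone
  refine ⟨C1 * C2, fun ν κ k j H hν hN hH hb => ?_⟩
  obtain ⟨-, -, hseq⟩ := h1 ν hν
  obtain ⟨-, hd, -, -, hl, -, -, -, h250, -, -⟩ := hseq k
  have hsl : 0 < Real.sqrt (la ν k) := Real.sqrt_pos.2 hl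
  have hss : Real.sqrt (la ν k) ^ 2 = la ν k := Real.sq_sqrt hl.le
  have hw0 : 0 < ww ν k := by unfold ww; positivity
  have hw2 : ww ν k ^ 2 * la ν k = 1 / 16 := by
    unfold ww
    rw [div_pow, inv_pow, hss]
    field_simp
    norm_num
  have hwd : ww ν k ≤ de ν k / 32 := by
    have h5 : 8 ≤ Real.sqrt (la ν k) * de ν k := by
      refine (pow_le_pow_iff_left₀ (by norm_num) (by positivity) two_ne_zero).1 ?_
      rw [mul_pow, hss]
      linarith
    unfold ww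
    have h6 : (Real.sqrt (la ν k))⁻¹ * 8 ≤ de ν k := by
      rw [inv_mul_le_iff₀ hsl]
      exact h5
    linarith
  have hinv : 1 / A ≤ 1 / 16 := one_div_le_one_div_of_le (by norm_num) hA16
  have hS : StripD A (aa ν k) (de ν k) (la ν k) κ :=
    stripD_mono (by linarith) hA1 hd hl.le (hN.st k)
  have key := hC1 (aa ν k) (de ν k) (la ν k) (ww ν k) κ (fh H) hd hl hS hw0 hwd
    (by rw [hw2]; exact hinv) (by rw [hw2]; norm_num) (fh_cont hH)
  refine key.trans ?_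
  have key2 := hC2 ν k j H hν hH hb
  calc (C1 : ℝ≥0∞) * ∑' i : ℤ, ∫⁻ X in {X : ℝ | la ν k * de ν k / A ≤ |X| ∧
        |X| ≤ A * (la ν k * de ν k)}, NN (ww ν k) (fh H) i X ^ 2
      ≤ C1 * (C2 * ENNReal.ofReal ((9 / 10) ^ (k - j + (j - k))) * ∫⁻ s, ‖H s‖ₑ ^ 2) := by
        refine mul_le_mul_right ?_ _
        exact key2
    _ = _ := by
        push_cast
        ring

end Pool.Agent.CRW
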