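import Pool.Agent.CRW.Targets3

/-!
# CRW: the surface measure of the circle
-/

set_option autoImplicit false

namespace Pool.Agent.CRW

open MeasureTheory FourierTransform Set Filter Topology
open scoped ENNReal NNReal ComplexConjugate
open Pool.Agent.MBS (E)
open Pool.Agent.CRN (sg T_POLN)
open Pool.Agent.CRL (ev T_POLC)

namespace SGC_

/-- the function on the annulus -/
noncomputable def H (F : E 2 → ℂ) (x : E 2) : ℂ :=
  {x : E 2 | 1 ≤ ‖x‖ ∧ ‖x‖ ≤ 2}.indicator (fun x => F (‖x‖⁻¹ • x)) x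

/-- the radial integral -/
noncomputable def cc : ℂ := ∫ r in Ioi (0 : ℝ), (r : ℂ) * (Icc (1 : ℝ) 2).indicator 1 r

theorem meas_set : MeasurableSet {x : E 2 | 1 ≤ ‖x‖ ∧ ‖x‖ ≤ 2} :=
  (measurableSet_le measurable_const measurable_norm).inter
    (measurableSet_le measurable_norm measurable_const)

theorem meas_H {F : E 2 → ℂ} (hF : Continuous F) : Measurable (H F) := by
  refine Measurable.indicator ?_ meas_set
  exact hF.measurable.comp ((measurable_norm.inv).smul measurable_id)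

theorem H_smul {F : E 2 → ℂ} {r : ℝ} (hr : 0 < r) {ω : E 2} (hω : ‖ω‖ = 1) :
    H F (r • ω) = (Icc (1 : ℝ) 2).indicator 1 r * F ω := by
  have hn : ‖r • ω‖ = r := by rw [norm_smul, hω, mul_one, Real.norm_of_nonneg hr.le]
  by_cases h : r ∈ Icc (1 : ℝ) 2
  · have h1 : r • ω ∈ {x : E 2 | 1 ≤ ‖x‖ ∧ ‖x‖ ≤ 2} := by
      change 1 ≤ ‖r • ω‖ ∧ ‖r • ω‖ ≤ 2
      rw [hn]
      exact ⟨h.1, h.2⟩
    rw [H, Set.indicator_of_mem h1, Set.indicator_of_mem h, hn, smul_smul,
      inv_mul_cancel₀ hr.ne', one_smul, Pi.one_apply, one_mul]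
  · have h1 : r • ω ∉ {x : E 2 | 1 ≤ ‖x‖ ∧ ‖x‖ ≤ 2} := by
      intro h2
      change 1 ≤ ‖r • ω‖ ∧ ‖r • ω‖ ≤ 2 at h2
      rw [hn] at h2
      exact h ⟨h2.1, h2.2⟩
    rw [H, Set.indicator_of_notMem h1, Set.indicator_of_notMem h, zero_mul]

theorem int_H {F : E 2 → ℂ} (hF : Continuous F) : Integrable (H F) := by
  obtain ⟨B, hB⟩ := (isCompact_closedBall (0 : E 2) 1).exists_bound_of_continuousOn
    hF.continuousOn
  have h1 : IntegrableOn (fun _ : E 2 => B) (Metric.closedBall (0 : E 2) 2) volume :=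
    integrableOn_const (by exact (isCompact_closedBall (0 : E 2) 2).measure_lt_top.ne)
  have h2 : Integrable ((Metric.closedBall (0 : E 2) 2).indicator fun _ => B) :=
    h1.integrable_indicator Metric.isClosed_closedBall.measurableSet
  refine h2.mono' (meas_H hF).aestronglyMeasurable (Filter.Eventually.of_forall fun x => ?_)
  by_cases hx : x ∈ {x : E 2 | 1 ≤ ‖x‖ ∧ ‖x‖ ≤ 2}
  · have hx2 : x ∈ Metric.closedBall (0 : E 2) 2 := by
      rw [mem_closedBall_zero_iff]; exact hx.2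
    rw [H, Set.indicator_of_mem hx, Set.indicator_of_mem hx2]
    refine hB _ ?_
    rw [mem_closedBall_zero_iff, norm_smul, norm_inv, norm_norm]
    have h0 : (0 : ℝ) < ‖x‖ := lt_of_lt_of_le one_pos hx.1
    rw [inv_mul_cancel₀ h0.ne']
  · rw [H, Set.indicator_of_notMem hx, norm_zero]
    refine Set.indicator_nonneg (fun _ _ => ?_) x
    exact (norm_nonneg _).trans (hB 0 (by simp))

theorem cc_ne : cc ≠ 0 := by
  have h1 : cc = ∫ r in Icc (1 : ℝ) 2, (r : ℂ) := by
    rw [cc]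
    have h2 : ∀ r : ℝ, (r : ℂ) * (Icc (1 : ℝ) 2).indicator 1 r =
        (Icc (1 : ℝ) 2).indicator (fun r : ℝ => (r : ℂ)) r := by
      intro r
      by_cases hr : r ∈ Icc (1 : ℝ) 2
      · rw [Set.indicator_of_mem hr, Set.indicator_of_mem hr, Pi.one_apply, mul_one]
      · rw [Set.indicator_of_notMem hr, Set.indicator_of_notMem hr, mul_zero]
    simp_rw [h2]
    rw [setIntegral_indicator measurableSet_Icc]
    congr 2
    ext r
    simp only [Set.mem_inter_iff, Set.mem_Ioi, Set.mem_Icc]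
    constructor
    · intro h; exact h.2
    · intro h; exact ⟨by linarith [h.1], h⟩
  rw [h1, integral_Icc_eq_integral_Ioc, ← intervalIntegral.integral_of_le (by norm_num),
    intervalIntegral.integral_ofReal, integral_id]
  norm_num

theorem norm_ev (φ : ℝ) : ‖ev φ‖ = 1 := by
  rw [EuclideanSpace.norm_eq]
  simp [ev, Fin.sum_univ_two]

theorem viaN (hn : T_POLN) {F : E 2 → ℂ} (hF : Continuous F) :
    ∫ x, H F x = cc * ∫ θ, F (θ : E 2) ∂(sg 2) := by
  rw [((hn 2 (by norm_num)).2.1 (H F) (int_H hF)), cc, ← integral_mul_const]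
  refine setIntegral_congr_fun measurableSet_Ioi fun r hr => ?_
  have h1 : ∀ ω : Metric.sphere (0 : E 2) 1,
      H F (r • (ω : E 2)) = (Icc (1 : ℝ) 2).indicator 1 r * F (ω : E 2) := by
    intro ω
    exact H_smul hr (by simp)
  simp only [h1]
  rw [integral_const_mul]
  simp only [Nat.add_one_sub_one, pow_one]
  ring

theorem viaC (hc : T_POLC) {F : E 2 → ℂ} (hF : Continuous F) :
    ∫ x, H F x = cc * ∫ φ in (-Real.pi)..Real.pi, F (ev φ) := by
  rw [hc.2 (H F) (int_H hF), cc, ← integral_mul_const]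
  refine setIntegral_congr_fun measurableSet_Ioi fun r hr => ?_
  have h1 : ∀ φ : ℝ, H F (r • ev φ) = (Icc (1 : ℝ) 2).indicator 1 r * F (ev φ) := by
    intro φ
    exact H_smul hr (norm_ev φ)
  simp only [h1]
  rw [intervalIntegral.integral_const_mul]
  ring

end SGC_

theorem p_SGC (hn : T_POLN) (hc : T_POLC) : T_SGC := by
  intro F hF
  exact mul_left_cancel₀ SGC_.cc_ne ((SGC_.viaN hn hF).symm.trans (SGC_.viaC hc hF))

end Pool.Agent.CRW
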