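import Pool.Agent.CRW.Targets
import Pool.Agent.CRR.P_TAIL

set_option autoImplicit false

/-!
# CRW: sums of whole strips for a general kernel (target TLG)
-/

namespace Pool.Agent.CRW

open MeasureTheory FourierTransform Set Filter Topology
open scoped ENNReal NNReal ComplexConjugate
open Pool.Agent.CAR (e1)
open Pool.Agent.CRN (T_CARLS)
open Pool.Agent.CRR (PP Sol xc E2 NSol kap aa de la si ww band fh StripD FS FA HH T_SEQ T_VCR
  T_DEC T_HANK)

open Pool.Agent.CRR.TAIL_ Pool.Agent.CRR in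
/-- TLG. -/
theorem p_TLG (h1 : T_SEQ) (_h2 : T_SDG) (h3 : T_MLG) : T_TLG := by
  intro hCar A hA1
  obtain ⟨C, hC0, hM⟩ := h3 hCar A hA1
  obtain ⟨CC, hCC⟩ := hCar
  obtain ⟨r, hr0, hr1, hr2⟩ : ∃ r : ℝ, 0 ≤ r ∧ r < 1 ∧ r ^ 2 = 9 / 10 := by
    refine ⟨Real.sqrt (9 / 10), Real.sqrt_nonneg _, ?_, Real.sq_sqrt (by norm_num)⟩
    rw [Real.sqrt_lt' one_pos]
    norm_num
  obtain ⟨c, hc0, hc2⟩ : ∃ c : ℝ, 0 ≤ c ∧ c ^ 2 = C :=
    ⟨Real.sqrt C, Real.sqrt_nonneg _, Real.sq_sqrt hC0.le⟩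
  have h1r : 0 < 1 - r := by linarith
  refine ⟨8 * CC * ((2 * c / (1 - r)) ^ 2).toNNReal + 2 * ((c / (1 - r)) ^ 2 * 20).toNNReal,
    fun ν κ H hν hJ hH => ?_⟩
  obtain ⟨-, -, hS⟩ := h1 ν hν
  have hsi0 : ∀ k, 0 < si ν k := fun k => mul_pos (hS k).2.2.2.2.1 (hS k).2.1
  have hsi1 : ∀ k, 7 / 5 * si ν k ≤ si ν (k + 1) := fun k => (hS k).2.2.2.2.2.2.1
  obtain ⟨j, hj1, hj2⟩ := bands hsi0 hsi1
  have hmc : ∀ k, Continuous (mg ν κ k) := fun k => (hM ν κ k hν hJ).1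
  have hFA := fun k => (hM ν κ k hν hJ).2.1
  have hbd : ∀ s k, ‖mg ν κ k s‖ ≤ c * r ^ (k - j s + (j s - k)) := by
    intro s k
    have h := (hM ν κ k hν hJ).2.2 (j s) s (hj1 s)
    refine abs_le_of_sq_le_sq' ?_ (by positivity) |>.2
    rw [mul_pow, hc2, ← pow_mul, mul_comm _ 2, pow_mul, hr2]
    exact h
  have hbd1 : ∀ s k, ‖mg ν κ k s‖ ≤ c := fun s k => (hbd s k).trans
    (mul_le_of_le_one_right hc0 (pow_le_one₀ hr0 hr1.le))
  have hsq := fun s => seq hc0 hr0 hr1 (hbd s)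
  -- the full multiplier
  let m : ℝ → ℂ := fun s => ∑' k, mg ν κ k s
  have hm : Measurable m := by
    refine measurable_of_tendsto_metrizable (f := fun n s => ∑ k ∈ Finset.range n, mg ν κ k s)
      (fun n => ?_) (tendsto_pi_nhds.2 fun s => (hsq s).1.hasSum.tendsto_sum_nat)
    exact Finset.measurable_fun_sum _ fun k _ => (hmc k).measurable
  have hmb : ∀ s, ‖m s‖ ≤ 2 * c / (1 - r) := fun s => (hsq s).2.1
  have hAm : ∀ n, MeasurableSet {s : ℝ | |s| < R ν n} := fun n =>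
    measurableSet_lt measurable_norm measurable_const
  -- the differences
  let E : ℕ → ℝ → ℂ := fun n s => ∑ k ∈ Finset.range n, mg ν κ k s -
    {s : ℝ | |s| < R ν n}.indicator m s
  have hE : ∀ n, Measurable (E n) := fun n =>
    (Finset.measurable_fun_sum _ fun k _ => (hmc k).measurable).sub (hm.indicator (hAm n))
  have hEb : ∀ n s, ‖E n s‖ ≤ c / (1 - r) * r ^ (n - j s + (j s - n)) := by
    intro n s
    have h := (hsq s).2.2 n
    have e : {s : ℝ | |s| < R ν n}.indicator m s = if j s < n then ∑' k, mg ν κ k s else 0 := by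
      by_cases hs : |s| < R ν n
      · rw [if_pos ((hj2 s n).2 hs), indicator_of_mem (show s ∈ {s : ℝ | |s| < R ν n} from hs)]
      · rw [if_neg (fun h0 => hs ((hj2 s n).1 h0)),
          indicator_of_notMem (show s ∉ {s : ℝ | |s| < R ν n} from hs)]
    show ‖∑ k ∈ Finset.range n, mg ν κ k s - {s : ℝ | |s| < R ν n}.indicator m s‖ ≤ _
    rw [e]
    exact h
  have hEb1 : ∀ n s, ‖E n s‖ ≤ c / (1 - r) := fun n s => (hEb n s).trans
    (mul_le_of_le_one_right (by positivity) (pow_le_one₀ hr0 hr1.le))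
  have hHm : HH fun s => H s * m s := mul_HH hH hm hmb
  have hHE : ∀ n, HH fun s => H s * E n s := fun n => mul_HH hH (hE n) (hEb1 n)
  -- decomposition
  let Y : ℕ → ℝ → ℂ := fun n u => 𝓕 (fun s => H s * E n s) u
  have hdec : ∀ n u, ∑ k ∈ Finset.range n, FA (κ) (aa ν k) (de ν k) (fh H) u =
      (∫ s in {s : ℝ | |s| < R ν n}, H s * m s * e1 (-(u * s))) + Y n u := by
    intro n u
    have hi : ∀ {G : ℝ → ℂ}, Integrable G → Integrable fun s => G s * e1 (-(u * s)) := fun hG =>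
      hG.mul_bdd (c := 1) (e1_cont.comp
        (continuous_const.mul continuous_id).neg).aestronglyMeasurable
        (ae_of_all _ fun s => (e1_norm _).le)
    have hik : ∀ k, Integrable fun s => H s * mg ν κ k s := fun k =>
      (mul_HH hH (hmc k).measurable fun s => hbd1 s k).int
    show _ = _ + 𝓕 (fun s => H s * E n s) u
    rw [fourier_eq, ← integral_indicator (hAm n), ← integral_add
      ((hi hHm.int).indicator (hAm n)) (hi (hHE n).int)]
    simp only [hFA _ H u hH]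
    rw [← integral_finsetSum _ fun k _ => hi (hik k)]
    refine integral_congr_ae (ae_of_all _ fun s => ?_)
    simp only [E]
    rw [← Finset.sum_mul, ← Finset.mul_sum]
    by_cases hs : s ∈ {s : ℝ | |s| < R ν n}
    · rw [indicator_of_mem hs, indicator_of_mem hs]
      ring
    · rw [indicator_of_notMem hs, indicator_of_notMem hs]
      ring
  let M : ℝ → ℝ≥0∞ := fun u => ⨆ m' : ℝ, ‖∫ ξ in Iio m', H ξ * m ξ * e1 (u * ξ)‖ₑ
  have hYm : ∀ n, Measurable fun u => ‖Y n u‖ₑ ^ 2 := fun n =>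
    ((fourier_cont (hHE n).int).measurable.enorm).pow_const 2
  have hpt : ∀ u, (⨆ n : ℕ, ‖∑ k ∈ Finset.range n,
      FA (κ) (aa ν k) (de ν k) (fh H) u‖ₑ) ^ 2 ≤
      8 * M (-u) ^ 2 + 2 * ∑' n, ‖Y n u‖ₑ ^ 2 := by
    intro u
    have h4 : ∀ n, ‖∑ k ∈ Finset.range n, FA (κ) (aa ν k) (de ν k) (fh H) u‖ₑ ^ 2 ≤
        8 * M (-u) ^ 2 + 2 * ∑' n, ‖Y n u‖ₑ ^ 2 := by
      intro n
      rw [hdec]
      calc ‖(∫ s in {s : ℝ | |s| < R ν n}, H s * m s * e1 (-(u * s))) + Y n u‖ₑ ^ 2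
          ≤ (2 * M (-u) + ‖Y n u‖ₑ) ^ 2 := by
            gcongr
            refine (enorm_add_le _ _).trans (add_le_add_left ?_ _)
            exact car1 hHm.int u (R ν n)
        _ ≤ 2 * (2 * M (-u)) ^ 2 + 2 * ‖Y n u‖ₑ ^ 2 := HANK_.two _ _
        _ = 8 * M (-u) ^ 2 + 2 * ‖Y n u‖ₑ ^ 2 := by ring
        _ ≤ _ := by
            gcongr
            exact ENNReal.le_tsum n
    calc (⨆ n : ℕ, ‖∑ k ∈ Finset.range n, FA (κ) (aa ν k) (de ν k) (fh H) u‖ₑ) ^ 2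
        ≤ ((8 * M (-u) ^ 2 + 2 * ∑' n, ‖Y n u‖ₑ ^ 2) ^ (1 / (2 : ℝ))) ^ 2 := by
          gcongr
          exact iSup_le fun n => HANK_.le_sqrt (h4 n)
      _ = _ := HANK_.sqrt_sq _
  -- the two estimates
  have hI : ∫⁻ u, M (-u) ^ 2 ≤ CC * (((2 * c / (1 - r)) ^ 2).toNNReal * ∫⁻ s, ‖H s‖ₑ ^ 2) := by
    rw [neg_lint fun u => M u ^ 2]
    refine (hCC (fun s => H s * m s) hHm.meas hHm.int hHm.sq).trans ?_
    gcongr
    rw [← lintegral_const_mul' _ _ ENNReal.coe_ne_top]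
    refine lintegral_mono fun s => ?_
    rw [enorm_mul, mul_pow, mul_comm]
    gcongr
    rw [← ofReal_norm, ← ENNReal.ofReal_pow (norm_nonneg _)]
    exact ENNReal.ofReal_le_ofReal (pow_le_pow_left₀ (norm_nonneg _) (hmb s) 2)
  have hII : ∫⁻ u, ∑' n, ‖Y n u‖ₑ ^ 2 ≤
      ((c / (1 - r)) ^ 2 * 20).toNNReal * ∫⁻ s, ‖H s‖ₑ ^ 2 := by
    rw [lintegral_tsum fun n => (hYm n).aemeasurable]
    have e : ∀ n, ∫⁻ u, ‖Y n u‖ₑ ^ 2 = ∫⁻ s, ‖H s‖ₑ ^ 2 * ‖E n s‖ₑ ^ 2 := by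
      intro n
      show ∫⁻ u, ‖𝓕 (fun s => H s * E n s) u‖ₑ ^ 2 = _
      rw [HANK_.plancherel (hHE n).int (memLp_of (hHE n).int (hHE n).sq)]
      refine lintegral_congr fun s => ?_
      rw [enorm_mul, mul_pow]
    simp only [e]
    have hme : ∀ n, Measurable fun s => ‖H s‖ₑ ^ 2 * ‖E n s‖ₑ ^ 2 := fun n =>
      (hH.meas.enorm.pow_const 2).mul ((hE n).enorm.pow_const 2)
    rw [← lintegral_tsum fun n => (hme n).aemeasurable,
      ← lintegral_const_mul' _ _ ENNReal.coe_ne_top]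
    refine lintegral_mono fun s => ?_
    rw [ENNReal.tsum_mul_left, mul_comm]
    gcongr
    have h5 : ∀ n, ‖E n s‖ₑ ^ 2 ≤ ENNReal.ofReal ((c / (1 - r)) ^ 2 *
        (9 / 10) ^ (n - j s + (j s - n))) := by
      intro n
      rw [← ofReal_norm, ← ENNReal.ofReal_pow (norm_nonneg _)]
      refine ENNReal.ofReal_le_ofReal ?_
      refine (pow_le_pow_left₀ (norm_nonneg _) (hEb n s) 2).trans (le_of_eq ?_)
      rw [mul_pow, ← pow_mul, mul_comm _ 2, pow_mul, hr2]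
    refine (ENNReal.tsum_le_tsum h5).trans ?_
    rw [ENNReal.tsum_eq_iSup_nat]
    refine iSup_le fun N => ?_
    rw [← ENNReal.ofReal_sum_of_nonneg fun n _ => by positivity, ← Finset.mul_sum]
    refine ENNReal.ofReal_le_ofReal ?_
    gcongr
    refine (g2 (by norm_num) (by norm_num) (j s) N).trans (by norm_num)
  calc ∫⁻ u, (⨆ n : ℕ, ‖∑ k ∈ Finset.range n, FA (κ) (aa ν k) (de ν k) (fh H) u‖ₑ) ^ 2
      ≤ ∫⁻ u, (8 * M (-u) ^ 2 + 2 * ∑' n, ‖Y n u‖ₑ ^ 2) := lintegral_mono hpt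
    _ = 8 * (∫⁻ u, M (-u) ^ 2) + 2 * (∫⁻ u, ∑' n, ‖Y n u‖ₑ ^ 2) := by
        rw [lintegral_add_right, lintegral_const_mul' _ _ (by norm_num),
          lintegral_const_mul' _ _ (by norm_num)]
        exact (Measurable.tsum hYm).const_mul 2
    _ ≤ 8 * (CC * (((2 * c / (1 - r)) ^ 2).toNNReal * ∫⁻ s, ‖H s‖ₑ ^ 2)) +
        2 * (((c / (1 - r)) ^ 2 * 20).toNNReal * ∫⁻ s, ‖H s‖ₑ ^ 2) := by
        gcongr
    _ = _ := by
        push_cast
        ring


end Pool.Agent.CRW
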