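import Pool.Agent.CRW.Targets
import Pool.Agent.CRL.P_ABL
import Pool.Agent.CRR.P_HANK

set_option autoImplicit false

/-!
# CRW: the window on the oscillatory side (target WC1)
-/

namespace Pool.Agent.CRW

open MeasureTheory FourierTransform Set Filter Topology
open scoped ENNReal NNReal ComplexConjugate
open Pool.Agent.MBS (E ex S Sstar)
open Pool.Agent.CAR (e1)
open Pool.Agent.CRN (ci SH S1 Nice T_CARLS)
open Pool.Agent.CRR (PP Sol xc E2 NSol kap aa de la si ww band fh StripD FS FA HH T_SEQ T_VCR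
  T_DEC T_HANK)

namespace WC1_

open Pool.Agent.CRR.HANK_ (T TT)

/-! ### elementary facts -/

theorem ci_add (s t : ℝ) : ci (s + t) = ci s * ci t := by
  simp [ci, add_mul, Complex.exp_add]

theorem norm_ci (t : ℝ) : ‖ci t‖ = 1 := by
  simp [ci, Complex.norm_exp_ofReal_mul_I]

theorem ci_cont : Continuous ci := by
  unfold ci
  fun_prop

theorem eta_le {K k : ℕ} {Z δ : ℝ} (hk : k < K) (hZ : (K : ℝ) ^ 20 ≤ Z) (hδ : 0 < δ)
    (hδZ : δ * Z ≤ 1) : (1 + (k : ℝ)) ^ 3 / Z + k * √δ ≤ 2 / K := by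
  have hK1 : (1 : ℝ) ≤ K := by exact_mod_cast (by omega : 1 ≤ K)
  have hkK : 1 + (k : ℝ) ≤ K := by exact_mod_cast (by omega : 1 + k ≤ K)
  have hk0 : (0 : ℝ) ≤ k := Nat.cast_nonneg k
  have hK4 : (K : ℝ) ^ 4 ≤ Z := (pow_le_pow_right₀ hK1 (by norm_num)).trans hZ
  have hK0 : (0 : ℝ) < K := by linarith
  have hK40 : (0 : ℝ) < (K : ℝ) ^ 4 := by positivity
  have hZ0 : 0 < Z := lt_of_lt_of_le hK40 hK4
  have h1 : (1 + (k : ℝ)) ^ 3 / Z ≤ 1 / K := by
    rw [div_le_div_iff₀ hZ0 hK0, one_mul]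
    calc (1 + (k : ℝ)) ^ 3 * K ≤ (K : ℝ) ^ 3 * K := by gcongr
      _ = (K : ℝ) ^ 4 := by ring
      _ ≤ Z := hK4
  have h2 : √δ ≤ 1 / (K : ℝ) ^ 2 := by
    refine Real.sqrt_le_iff.2 ⟨by positivity, ?_⟩
    have e : (1 / (K : ℝ) ^ 2) ^ 2 = 1 / (K : ℝ) ^ 4 := by
      rw [div_pow, one_pow, ← pow_mul]
    rw [e, le_div_iff₀ hK40]
    calc δ * (K : ℝ) ^ 4 ≤ δ * Z := by gcongr
      _ ≤ 1 := hδZ
  have h3 : (k : ℝ) * √δ ≤ 1 / K := by
    calc (k : ℝ) * √δ ≤ K * (1 / (K : ℝ) ^ 2) := by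
          refine mul_le_mul (by linarith) h2 (Real.sqrt_nonneg _) hK0.le
      _ = 1 / K := by
          field_simp
  calc (1 + (k : ℝ)) ^ 3 / Z + k * √δ ≤ 1 / K + 1 / K := add_le_add h1 h3
    _ = 2 / K := by ring

theorem x1_ge {m Z : ℝ} (hm : 0 ≤ m) (hZ : 3000 ≤ Z) : xc m ≤ x1 m Z := by
  unfold xc x1
  refine Real.log_le_log ?_ ?_
  · have : 0 < (1 + m) ^ (1 / 3 : ℝ) := Real.rpow_pos_of_pos (by linarith) _
    positivity
  · have : 0 ≤ (1 + m) ^ (1 / 3 : ℝ) := Real.rpow_nonneg (by linarith) _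
    gcongr

theorem cond_le {K k : ℕ} {Z C : ℝ} (hk : k < K) (hC : 0 < C) (hZ : (K : ℝ) ^ 20 ≤ Z)
    (hZC : C ^ 2 ≤ Z) : C * (1 + (k : ℝ)) ^ 3 ≤ Z := by
  have hK1 : (1 : ℝ) ≤ K := by exact_mod_cast (by omega : 1 ≤ K)
  have hkK : 1 + (k : ℝ) ≤ K := by exact_mod_cast (by omega : 1 + k ≤ K)
  have hk0 : (0 : ℝ) ≤ k := Nat.cast_nonneg k
  have hK6 : (K : ℝ) ^ 6 ≤ Z := (pow_le_pow_right₀ hK1 (by norm_num)).trans hZ
  have hZ0 : 0 ≤ Z := (by positivity : (0 : ℝ) ≤ C ^ 2).trans hZC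
  refine (pow_le_pow_iff_left₀ (by positivity) hZ0 (n := 2) (by norm_num)).1 ?_
  calc (C * (1 + (k : ℝ)) ^ 3) ^ 2 ≤ (C * (K : ℝ) ^ 3) ^ 2 := by gcongr
    _ = C ^ 2 * (K : ℝ) ^ 6 := by ring
    _ ≤ Z * Z := mul_le_mul hZC hK6 (by positivity) hZ0
    _ = Z ^ 2 := by ring

/-- Cauchy-Schwarz -/
theorem sq_sum (n : ℕ) (x : ℕ → ℝ≥0∞) :
    (∑ k ∈ Finset.range n, x k) ^ 2 ≤ n * ∑ k ∈ Finset.range n, x k ^ 2 := by
  by_cases h : ∃ k ∈ Finset.range n, x k = ⊤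
  · obtain ⟨k, hk, hx⟩ := h
    have h1 : ∑ k ∈ Finset.range n, x k ^ 2 = ⊤ := by
      rw [ENNReal.sum_eq_top]
      exact ⟨k, hk, by rw [hx]; rfl⟩
    have hn : (n : ℝ≥0∞) ≠ 0 := by
      have : 0 < n := lt_of_le_of_lt (Nat.zero_le k) (Finset.mem_range.1 hk)
      exact_mod_cast this.ne'
    rw [h1, ENNReal.mul_top hn]
    exact le_top
  · push Not at h
    have e : ∀ k ∈ Finset.range n, x k = ((x k).toNNReal : ℝ≥0∞) := fun k hk =>
      (ENNReal.coe_toNNReal (h k hk)).symm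
    have e2 : ∀ k ∈ Finset.range n, x k ^ 2 = ((x k).toNNReal : ℝ≥0∞) ^ 2 := fun k hk => by
      rw [← e k hk]
    rw [Finset.sum_congr rfl e, Finset.sum_congr rfl e2]
    have h2 := sq_sum_le_card_mul_sum_sq (s := Finset.range n) (f := fun k => (x k).toNNReal)
    rw [Finset.card_range] at h2
    exact_mod_cast h2

/-! ### the truncated integrals -/

theorem ind_eq (κ : ℝ → ℂ) (c : ℝ) (g : ℝ → ℂ) (u V1 V2 : ℝ) :
    ∫ v in Ioc V1 V2, (Ici c).indicator κ (u + v) * g v = T κ c g u V1 V2 := by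
  rw [Pool.Agent.CRR.HANK_.T_eq]
  congr 1
  funext v
  by_cases h : c ≤ u + v
  · rw [indicator_of_mem (show u + v ∈ Ici c from h),
      indicator_of_mem (show v ∈ {v | c ≤ u + v} from h)]
  · rw [indicator_of_notMem (show u + v ∉ Ici c from h),
      indicator_of_notMem (show v ∉ {v | c ≤ u + v} from h), zero_mul]

theorem T_plain {κ : ℝ → ℂ} {c : ℝ} {g : ℝ → ℂ} {u V1 V2 : ℝ} (h : c ≤ u + V1) :
    T κ c g u V1 V2 = ∫ v in Ioc V1 V2, κ (u + v) * g v := by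
  unfold Pool.Agent.CRR.HANK_.T
  congr 2
  refine inter_eq_left.2 fun v hv => ?_
  have := hv.1
  show c ≤ u + v
  linarith

theorem int_loc {κ : ℝ → ℂ} (hκ : Continuous κ) {g : ℝ → ℂ} (hg : MemLp g 2 volume)
    (u V1 V2 : ℝ) : IntegrableOn (fun v => κ (u + v) * g v) (Ioc V1 V2) := by
  have h := Pool.Agent.CRR.HANK_.T_int (c := u + V1) hκ hg u V1 V2
  refine h.mono_set fun v hv => ⟨hv, ?_⟩
  have := hv.1
  show u + V1 ≤ u + v
  linarith

theorem T_le {κ : ℝ → ℂ} {c : ℝ} {g : ℝ → ℂ} (u V1 V2 : ℝ) :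
    ‖T κ c g u V1 V2‖ₑ ≤ TT κ c g u :=
  le_iSup₂ (f := fun V1 V2 => ‖T κ c g u V1 V2‖ₑ) V1 V2

/-- the error terms -/
theorem err {κ : ℝ → ℂ} (hκ : Continuous κ) {g : ℝ → ℂ} (hg : MemLp g 2 volume)
    {W W' : ℝ → ℂ} {xa xb c η u V1 V2 : ℝ} (hcx : c ≤ xa) (hab : xa ≤ xb) (hη : 0 < η)
    (hW' : ContinuousOn W' (Icc xa xb)) (hW : ∀ x ∈ Icc xa xb, HasDerivAt W (W' x) x)
    (h1 : ‖W xa‖ ≤ η) (h3 : (∫ x in Ioc xa xb, ‖W' x‖) ≤ η) :
    ‖∫ v in Ioc (max (xa - u) V1) (min (xb - u) V2), κ (u + v) * g v * W (u + v)‖ₑ ≤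
      ENNReal.ofReal (3 * η) * TT κ c g u := by
  by_cases htop : TT κ c g u = ⊤
  · rw [htop, ENNReal.mul_top]
    · exact le_top
    · rw [Ne, ENNReal.ofReal_eq_zero, not_le]
      positivity
  set M : ℝ := (TT κ c g u).toReal with hMdef
  have hM0 : 0 ≤ M := ENNReal.toReal_nonneg
  have hMT : ∀ a b : ℝ, ‖T κ c g u a b‖ ≤ M := fun a b => by
    rw [← toReal_enorm]
    exact ENNReal.toReal_mono htop (T_le u a b)
  set D : ℝ → ℂ := (Ioc V1 V2).indicator (fun v => κ (u + v) * g v) with hD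
  have hDi : IntegrableOn D (Ioc (xa - u) (xb - u)) :=
    (int_loc hκ hg u (xa - u) (xb - u)).indicator measurableSet_Ioc
  have hin : ∀ r ∈ Icc (xa - u) (xb - u), u + r ∈ Icc xa xb := fun r hr =>
    ⟨by linarith [hr.1], by linarith [hr.2]⟩
  have hd : ∀ r ∈ Icc (xa - u) (xb - u), HasDerivAt (fun r => W (u + r)) (W' (u + r)) r :=
    fun r hr => (hW _ (hin r hr)).comp_const_add u r
  have hc : ContinuousOn (fun r => W' (u + r)) (Icc (xa - u) (xb - u)) :=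
    hW'.comp (continuous_const.add continuous_id).continuousOn hin
  have hS : ∀ s ∈ Icc (xa - u) (xb - u), ‖∫ r in Ioc (xa - u) s, D r‖ ≤ M := by
    intro s hs
    rw [hD, setIntegral_indicator measurableSet_Ioc, Ioc_inter_Ioc, ← T_plain (c := c)]
    · exact hMT _ _
    · have := le_max_left (xa - u) V1
      show c ≤ u + max (xa - u) V1
      linarith
  have hB : (∫ r in Ioc (xa - u) (xb - u), ‖W' (u + r)‖) ≤ η := by
    refine le_trans (le_of_eq ?_) h3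
    rw [← intervalIntegral.integral_of_le (by linarith), ← intervalIntegral.integral_of_le hab,
      intervalIntegral.integral_comp_add_left (fun x => ‖W' x‖) u]
    congr 1 <;> ring
  have hA := Pool.Agent.CRL.p_ABL D (fun r => W (u + r)) (fun r => W' (u + r)) (xa - u) (xb - u)
    M η (by linarith) hDi hd hc hS hB
  have e1 : ∫ r in Ioc (xa - u) (xb - u), D r * W (u + r) =
      ∫ v in Ioc (max (xa - u) V1) (min (xb - u) V2), κ (u + v) * g v * W (u + v) := by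
    have e2 : ∀ r, D r * W (u + r) =
        (Ioc V1 V2).indicator (fun v => κ (u + v) * g v * W (u + v)) r := by
      intro r
      by_cases h : r ∈ Ioc V1 V2
      · rw [hD, indicator_of_mem h, indicator_of_mem h]
      · rw [hD, indicator_of_notMem h, indicator_of_notMem h, zero_mul]
    simp_rw [e2]
    rw [setIntegral_indicator measurableSet_Ioc, Ioc_inter_Ioc]
  rw [e1] at hA
  have hxa : u + (xa - u) = xa := by ring
  simp only [hxa] at hA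
  have h5 : M * (‖W xa‖ + 2 * η) ≤ 3 * η * M := by nlinarith
  rw [← ofReal_norm]
  calc ENNReal.ofReal _ ≤ ENNReal.ofReal (3 * η * M) := ENNReal.ofReal_le_ofReal (hA.trans h5)
    _ = ENNReal.ofReal (3 * η) * TT κ c g u := by
        rw [ENNReal.ofReal_mul (by positivity), hMdef, ENNReal.ofReal_toReal htop]

/-- one kernel on `[xa, xb]` -/
theorem one {κp κm : ℝ → ℂ} (hκp : Continuous κp) (hκm : Continuous κm) {g : ℝ → ℂ}
    (hg : MemLp g 2 volume) {f W1 W2 W1' W2' : ℝ → ℂ} {c1 c2 z1 z2 : ℂ}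
    {xa xb c η u V1 V2 : ℝ} (hcx : c ≤ xa) (hab : xa ≤ xb) (hη : 0 < η)
    (hW1' : ContinuousOn W1' (Icc xa xb)) (hW2' : ContinuousOn W2' (Icc xa xb))
    (hW : ∀ x ∈ Icc xa xb, HasDerivAt W1 (W1' x) x ∧ HasDerivAt W2 (W2' x) x ∧
      f x = κp x * (z1 * (c1 + W1 x)) + κm x * (z2 * (c2 + W2 x)))
    (hz1 : ‖z1‖ = 1) (hz2 : ‖z2‖ = 1) (h1 : ‖W1 xa‖ ≤ η) (h2 : ‖W2 xa‖ ≤ η)
    (h3 : (∫ x in Ioc xa xb, ‖W1' x‖) ≤ η) (h4 : (∫ x in Ioc xa xb, ‖W2' x‖) ≤ η) :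
    ‖(∫ v in Ioc (max (xa - u) V1) (min (xb - u) V2), f (u + v) * g v) -
      (z1 * (c1 * T κp c g u (max (xa - u) V1) (min (xb - u) V2)) +
        z2 * (c2 * T κm c g u (max (xa - u) V1) (min (xb - u) V2)))‖ₑ ≤
      ENNReal.ofReal (3 * η) * (TT κp c g u + TT κm c g u) := by
  set I : Set ℝ := Ioc (max (xa - u) V1) (min (xb - u) V2) with hI
  have hcI : c ≤ u + max (xa - u) V1 := by
    have := le_max_left (xa - u) V1
    linarith
  rw [T_plain hcI, T_plain hcI, ← hI]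
  have hin : ∀ v ∈ I, u + v ∈ Icc xa xb := fun v hv => by
    have h5 := (le_max_left (xa - u) V1).trans_lt hv.1
    have h6 := hv.2.trans (min_le_left _ _)
    exact ⟨by linarith, by linarith⟩
  have ip : IntegrableOn (fun v => κp (u + v) * g v) I := int_loc hκp hg u _ _
  have im : IntegrableOn (fun v => κm (u + v) * g v) I := int_loc hκm hg u _ _
  have hsub : I ⊆ Icc (xa - u) (xb - u) := fun v hv =>
    ⟨by linarith [(hin v hv).1], by linarith [(hin v hv).2]⟩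
  have hcW : ∀ {W W' : ℝ → ℂ}, (∀ x ∈ Icc xa xb, HasDerivAt W (W' x) x) →
      ContinuousOn (fun v => W (u + v)) (Icc (xa - u) (xb - u)) := by
    intro W W' h v hv
    have h7 : u + v ∈ Icc xa xb := ⟨by linarith [hv.1], by linarith [hv.2]⟩
    exact ((h _ h7).comp_const_add u v).continuousAt.continuousWithinAt
  have hd1 : ∀ x ∈ Icc xa xb, HasDerivAt W1 (W1' x) x := fun x hx => (hW x hx).1
  have hd2 : ∀ x ∈ Icc xa xb, HasDerivAt W2 (W2' x) x := fun x hx => (hW x hx).2.1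
  have ipW : IntegrableOn (fun v => κp (u + v) * g v * W1 (u + v)) I :=
    ip.mul_continuousOn_of_subset (hcW hd1) measurableSet_Ioc isCompact_Icc hsub
  have imW : IntegrableOn (fun v => κm (u + v) * g v * W2 (u + v)) I :=
    im.mul_continuousOn_of_subset (hcW hd2) measurableSet_Ioc isCompact_Icc hsub
  have e : ∫ v in I, f (u + v) * g v =
      z1 * (c1 * ∫ v in I, κp (u + v) * g v) + z2 * (c2 * ∫ v in I, κm (u + v) * g v) +
        (z1 * (∫ v in I, κp (u + v) * g v * W1 (u + v)) +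
          z2 * ∫ v in I, κm (u + v) * g v * W2 (u + v)) := by
    have i1 : IntegrableOn (fun v => z1 * (c1 * (κp (u + v) * g v)) +
        z2 * (c2 * (κm (u + v) * g v))) I :=
      ((ip.const_mul c1).const_mul z1).add ((im.const_mul c2).const_mul z2)
    have i2 : IntegrableOn (fun v => z1 * (κp (u + v) * g v * W1 (u + v)) +
        z2 * (κm (u + v) * g v * W2 (u + v))) I :=
      (ipW.const_mul z1).add (imW.const_mul z2)
    rw [← integral_const_mul c1, ← integral_const_mul c2, ← integral_const_mul z1,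
      ← integral_const_mul z2, ← integral_const_mul z1, ← integral_const_mul z2,
      ← integral_add ((ip.const_mul c1).const_mul z1) ((im.const_mul c2).const_mul z2),
      ← integral_add (ipW.const_mul z1) (imW.const_mul z2), ← integral_add i1 i2]
    refine setIntegral_congr_fun measurableSet_Ioc fun v hv => ?_
    have h8 := (hW (u + v) (hin v hv)).2.2
    show f (u + v) * g v = _
    rw [h8]
    ring
  rw [e, add_sub_cancel_left]
  calc ‖z1 * (∫ v in I, κp (u + v) * g v * W1 (u + v)) +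
          z2 * ∫ v in I, κm (u + v) * g v * W2 (u + v)‖ₑ
      ≤ ‖z1 * (∫ v in I, κp (u + v) * g v * W1 (u + v))‖ₑ +
          ‖z2 * ∫ v in I, κm (u + v) * g v * W2 (u + v)‖ₑ := enorm_add_le _ _
    _ = ‖∫ v in I, κp (u + v) * g v * W1 (u + v)‖ₑ +
          ‖∫ v in I, κm (u + v) * g v * W2 (u + v)‖ₑ := by
        rw [enorm_mul, enorm_mul, ← ofReal_norm z1, ← ofReal_norm z2, hz1, hz2,
          ENNReal.ofReal_one, one_mul, one_mul]
    _ ≤ ENNReal.ofReal (3 * η) * TT κp c g u + ENNReal.ofReal (3 * η) * TT κm c g u :=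
        add_le_add (err hκp hg hcx hab hη hW1' hd1 h1 h3)
          (err hκm hg hcx hab hη hW2' hd2 h2 h4)
    _ = _ := by rw [mul_add]

/-- `g` is supported in a short interval -/
theorem trunc {f g : ℝ → ℂ} {x1 v0 δ u V1 V2 : ℝ}
    (hg : ∀ v, v ∉ Ioc v0 (v0 + δ) → g v = 0) :
    ∫ v in Ioc V1 V2, (Ici x1).indicator f (u + v) * g v =
      ∫ v in Ioc (max (max (u + v0) x1 - u) V1) (min (u + v0 + δ - u) V2), f (u + v) * g v := by
  rw [← integral_indicator measurableSet_Ioc, ← integral_indicator measurableSet_Ioc]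
  refine integral_congr_ae ?_
  filter_upwards [Measure.ae_ne volume (max (u + v0) x1 - u)] with v hv
  by_cases h1 : v ∈ Ioc (max (max (u + v0) x1 - u) V1) (min (u + v0 + δ - u) V2)
  · rw [indicator_of_mem h1]
    have h2 := (le_max_left (max (u + v0) x1 - u) V1).trans_lt h1.1
    have h3 := (le_max_right (max (u + v0) x1 - u) V1).trans_lt h1.1
    have h4 := h1.2.trans (min_le_right _ _)
    have h5 : x1 ≤ u + v := by
      have := le_max_right (u + v0) x1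
      linarith
    rw [indicator_of_mem (show v ∈ Ioc V1 V2 from ⟨h3, h4⟩),
      indicator_of_mem (show u + v ∈ Ici x1 from h5)]
  · rw [indicator_of_notMem h1]
    by_cases h2 : v ∈ Ioc V1 V2
    · rw [indicator_of_mem h2]
      by_cases h3 : x1 ≤ u + v
      · by_cases h4 : v ∈ Ioc v0 (v0 + δ)
        · exfalso
          refine h1 ⟨max_lt ?_ h2.1, le_min ?_ h2.2⟩
          · refine lt_of_le_of_ne ?_ (Ne.symm hv)
            have h5 : max (u + v0) x1 ≤ u + v := max_le (by linarith [h4.1]) h3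
            linarith
          · linarith [h4.2]
        · rw [hg v h4, mul_zero]
      · rw [indicator_of_notMem (show u + v ∉ Ici x1 from h3), zero_mul]
    · rw [indicator_of_notMem h2]

/-! ### the window at one point -/

/-- the main terms -/
noncomputable def RR (κ : ℝ → ℂ) (c : ℝ) (K : ℕ) (b : ℝ → ℝ) (cc : ℕ → ℂ) (g : ℕ → ℝ → ℂ)
    (u φ : ℝ) : ℝ≥0∞ :=
  ⨆ (V1 : ℝ) (V2 : ℝ), ‖∑ k ∈ Finset.range K, ci (k * (φ + b u)) * (cc k * T κ c (g k) u V1 V2)‖ₑ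

theorem RR_le (κ : ℝ → ℂ) (c : ℝ) (K : ℕ) (b : ℝ → ℝ) (cc : ℕ → ℂ) (g : ℕ → ℝ → ℂ)
    (u φ V1 V2 : ℝ) :
    ‖∑ k ∈ Finset.range K, ci (k * (φ + b u)) * (cc k * T κ c (g k) u V1 V2)‖ₑ ≤
      RR κ c K b cc g u φ :=
  le_iSup₂ (f := fun V1 V2 =>
    ‖∑ k ∈ Finset.range K, ci (k * (φ + b u)) * (cc k * T κ c (g k) u V1 V2)‖ₑ) V1 V2

theorem RR_meas {κ : ℝ → ℂ} (hκ : Continuous κ) (c : ℝ) (K : ℕ) {b : ℝ → ℝ} (hb : Continuous b)
    (cc : ℕ → ℂ) {g : ℕ → ℝ → ℂ} (hg : ∀ k < K, MemLp (g k) 2 volume) :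
    Measurable fun p : ℝ × ℝ => RR κ c K b cc g p.1 p.2 := by
  refine LowerSemicontinuous.measurable ?_
  refine lowerSemicontinuous_iSup fun V1 => lowerSemicontinuous_iSup fun V2 => ?_
  refine Continuous.lowerSemicontinuous (Continuous.enorm ?_)
  refine continuous_finsetSum _ fun k hk => ?_
  have h1 : Continuous fun p : ℝ × ℝ => T κ c (g k) p.1 V1 V2 :=
    (Pool.Agent.CRR.HANK_.T_cont hκ (hg k (Finset.mem_range.1 hk)) V1 V2).comp continuous_fst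
  have h2 : Continuous fun p : ℝ × ℝ => ci (k * (p.2 + b p.1)) :=
    ci_cont.comp (continuous_const.mul (continuous_snd.add (hb.comp continuous_fst)))
  exact h2.mul (continuous_const.mul h1)

/-- the pointwise bound -/
theorem point {κp κm : ℝ → ℂ} (hκp : Continuous κp) (hκm : Continuous κm) {K : ℕ}
    {f g : ℕ → ℝ → ℂ} (hg : ∀ k < K, MemLp (g k) 2 volume) {c x1 v0 δ a : ℝ} {b : ℝ → ℝ}
    {cp cm : ℕ → ℂ} (hc : c ≤ x1) (ha : 0 < a)
    (hsup : ∀ k < K, ∀ v, v ∉ Ioc v0 (v0 + δ) → g k v = 0)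
    (h : ∀ k < K, ∀ u : ℝ, max (u + v0) x1 ≤ u + v0 + δ → ∃ W1 W2 W1' W2' : ℝ → ℂ,
      ContinuousOn W1' (Icc (max (u + v0) x1) (u + v0 + δ)) ∧
      ContinuousOn W2' (Icc (max (u + v0) x1) (u + v0 + δ)) ∧
      (∀ x ∈ Icc (max (u + v0) x1) (u + v0 + δ), HasDerivAt W1 (W1' x) x ∧
        HasDerivAt W2 (W2' x) x ∧ f k x = κp x * (ci (k * b u) * (cp k + W1 x)) +
          κm x * (ci (-(k * b u)) * (cm k + W2 x))) ∧
      ‖W1 (max (u + v0) x1)‖ ≤ a ∧ ‖W2 (max (u + v0) x1)‖ ≤ a ∧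
      (∫ x in Ioc (max (u + v0) x1) (u + v0 + δ), ‖W1' x‖) ≤ a ∧
      (∫ x in Ioc (max (u + v0) x1) (u + v0 + δ), ‖W2' x‖) ≤ a) (u φ : ℝ) :
    WM K (fun k => (Ici x1).indicator (f k)) g u φ ≤
      RR κp c K b cp g u φ + RR κm c K (fun u => -b u) cm g u φ +
        ∑ k ∈ Finset.range K, ENNReal.ofReal (3 * a) * (TT κp c (g k) u + TT κm c (g k) u) := by
  refine iSup₂_le fun V1 V2 => ?_
  set xa : ℝ := max (u + v0) x1 with hxa
  set xb : ℝ := u + v0 + δ with hxb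
  have e1 : ∀ k ∈ Finset.range K,
      ci (k * φ) * ∫ v in Ioc V1 V2, (Ici x1).indicator (f k) (u + v) * g k v =
      ci (k * φ) * ∫ v in Ioc (max (xa - u) V1) (min (xb - u) V2), f k (u + v) * g k v := by
    intro k hk
    rw [trunc (hsup k (Finset.mem_range.1 hk))]
  show ‖∑ k ∈ Finset.range K,
      ci (k * φ) * ∫ v in Ioc V1 V2, (Ici x1).indicator (f k) (u + v) * g k v‖ₑ ≤ _
  rw [Finset.sum_congr rfl e1]
  rcases lt_or_ge xb xa with hlt | hab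
  · have e2 : ∀ k ∈ Finset.range K,
        ci (k * φ) * ∫ v in Ioc (max (xa - u) V1) (min (xb - u) V2), f k (u + v) * g k v = 0 := by
      intro k hk
      have h1 := le_max_left (xa - u) V1
      have h2 := min_le_left (xb - u) V2
      rw [Ioc_eq_empty (by rw [not_lt]; linarith), setIntegral_empty, mul_zero]
    rw [Finset.sum_congr rfl e2, Finset.sum_const_zero, enorm_zero]
    exact zero_le
  have hcx : c ≤ xa := hc.trans (le_max_right _ _)
  have key : ∀ k ∈ Finset.range K,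
      ‖(∫ v in Ioc (max (xa - u) V1) (min (xb - u) V2), f k (u + v) * g k v) -
      (ci (k * b u) * (cp k * T κp c (g k) u (max (xa - u) V1) (min (xb - u) V2)) +
        ci (-(k * b u)) * (cm k * T κm c (g k) u (max (xa - u) V1) (min (xb - u) V2)))‖ₑ ≤
      ENNReal.ofReal (3 * a) * (TT κp c (g k) u + TT κm c (g k) u) := by
    intro k hk
    have hk' := Finset.mem_range.1 hk
    obtain ⟨W1, W2, W1', W2', q1, q2, q3, q4, q5, q6, q7⟩ := h k hk' u hab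
    exact one hκp hκm (hg k hk') hcx hab ha q1 q2 q3 (norm_ci _) (norm_ci _) q4 q5 q6 q7
  set I : ℕ → ℂ := fun k => ∫ v in Ioc (max (xa - u) V1) (min (xb - u) V2), f k (u + v) * g k v
    with hI
  set A : ℕ → ℂ := fun k => T κp c (g k) u (max (xa - u) V1) (min (xb - u) V2) with hA
  set B : ℕ → ℂ := fun k => T κm c (g k) u (max (xa - u) V1) (min (xb - u) V2) with hB
  have e3 : ∑ k ∈ Finset.range K, ci (k * φ) * I k =
      (∑ k ∈ Finset.range K, ci (k * (φ + b u)) * (cp k * A k)) +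
      (∑ k ∈ Finset.range K, ci (k * (φ + -b u)) * (cm k * B k)) +
      ∑ k ∈ Finset.range K, ci (k * φ) * (I k - (ci (k * b u) * (cp k * A k) +
        ci (-(k * b u)) * (cm k * B k))) := by
    rw [← Finset.sum_add_distrib, ← Finset.sum_add_distrib]
    refine Finset.sum_congr rfl fun k _ => ?_
    rw [mul_add, mul_add, ci_add, ci_add, mul_neg]
    ring
  rw [e3]
  refine (enorm_add_le _ _).trans (add_le_add ((enorm_add_le _ _).trans (add_le_add ?_ ?_)) ?_)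
  · exact RR_le κp c K b cp g u φ _ _
  · exact RR_le κm c K (fun u => -b u) cm g u φ _ _
  · refine (enorm_sum_le _ _).trans (Finset.sum_le_sum fun k hk => ?_)
    rw [enorm_mul, ← ofReal_norm (ci _), norm_ci, ENNReal.ofReal_one, one_mul]
    exact key k hk

/-! ### integration -/

theorem three (a b s : ℝ≥0∞) : (a + b + s) ^ 2 ≤ 4 * a ^ 2 + 4 * b ^ 2 + 2 * s ^ 2 := by
  calc (a + b + s) ^ 2 ≤ 2 * (a + b) ^ 2 + 2 * s ^ 2 := Pool.Agent.CRR.HANK_.two _ _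
    _ ≤ 2 * (2 * a ^ 2 + 2 * b ^ 2) + 2 * s ^ 2 := by
        gcongr
        exact Pool.Agent.CRR.HANK_.two _ _
    _ = _ := by ring

theorem integ {A B : ℝ → ℝ → ℝ≥0∞} {S : ℝ → ℝ≥0∞} {F : ℝ → ℝ → ℝ≥0∞} (L : ℝ)
    (hA : Measurable fun p : ℝ × ℝ => A p.1 p.2) (hB : Measurable fun p : ℝ × ℝ => B p.1 p.2)
    (hS : Measurable S) (h : ∀ u φ, F u φ ≤ A u φ + B u φ + S u) :
    ∫⁻ u, ∫⁻ φ in Ioc (0 : ℝ) L, F u φ ^ 2 ≤
      4 * (∫⁻ u, ∫⁻ φ in Ioc (0 : ℝ) L, A u φ ^ 2) + 4 * (∫⁻ u, ∫⁻ φ in Ioc (0 : ℝ) L, B u φ ^ 2) +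
        2 * ENNReal.ofReal L * ∫⁻ u, S u ^ 2 := by
  have hA2 : Measurable fun p : ℝ × ℝ => A p.1 p.2 ^ 2 := hA.pow_const 2
  have hB2 : Measurable fun p : ℝ × ℝ => B p.1 p.2 ^ 2 := hB.pow_const 2
  have hA3 : ∀ u, Measurable fun φ => A u φ ^ 2 := fun u => hA2.comp measurable_prodMk_left
  have hB3 : ∀ u, Measurable fun φ => B u φ ^ 2 := fun u => hB2.comp measurable_prodMk_left
  have hA4 : Measurable fun u => ∫⁻ φ in Ioc (0 : ℝ) L, A u φ ^ 2 :=
    Measurable.lintegral_prod_right' (f := fun p : ℝ × ℝ => A p.1 p.2 ^ 2) hA2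
  have hB4 : Measurable fun u => ∫⁻ φ in Ioc (0 : ℝ) L, B u φ ^ 2 :=
    Measurable.lintegral_prod_right' (f := fun p : ℝ × ℝ => B p.1 p.2 ^ 2) hB2
  have h1 : ∀ u, ∫⁻ φ in Ioc (0 : ℝ) L, F u φ ^ 2 ≤
      4 * (∫⁻ φ in Ioc (0 : ℝ) L, A u φ ^ 2) + 4 * (∫⁻ φ in Ioc (0 : ℝ) L, B u φ ^ 2) +
        2 * ENNReal.ofReal L * S u ^ 2 := by
    intro u
    have m1 : Measurable fun φ => 4 * A u φ ^ 2 + 4 * B u φ ^ 2 :=
      ((hA3 u).const_mul 4).add ((hB3 u).const_mul 4)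
    calc ∫⁻ φ in Ioc (0 : ℝ) L, F u φ ^ 2
        ≤ ∫⁻ φ in Ioc (0 : ℝ) L, (4 * A u φ ^ 2 + 4 * B u φ ^ 2 + 2 * S u ^ 2) := by
          refine lintegral_mono fun φ => ?_
          refine le_trans ?_ (three (A u φ) (B u φ) (S u))
          gcongr
          exact h u φ
      _ = _ := by
          rw [lintegral_add_left m1, lintegral_add_left ((hA3 u).const_mul 4),
            lintegral_const_mul _ (hA3 u),
            lintegral_const_mul _ (hB3 u), setLIntegral_const, Real.volume_Ioc, sub_zero]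
          ring
  have m2 : Measurable fun u => 4 * (∫⁻ φ in Ioc (0 : ℝ) L, A u φ ^ 2) +
      4 * (∫⁻ φ in Ioc (0 : ℝ) L, B u φ ^ 2) := (hA4.const_mul 4).add (hB4.const_mul 4)
  calc ∫⁻ u, ∫⁻ φ in Ioc (0 : ℝ) L, F u φ ^ 2
      ≤ ∫⁻ u, (4 * (∫⁻ φ in Ioc (0 : ℝ) L, A u φ ^ 2) +
        4 * (∫⁻ φ in Ioc (0 : ℝ) L, B u φ ^ 2) + 2 * ENNReal.ofReal L * S u ^ 2) :=
        lintegral_mono h1
    _ = _ := by
        rw [lintegral_add_left m2, lintegral_add_left (hA4.const_mul 4), lintegral_const_mul _ hA4,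
          lintegral_const_mul _ hB4, lintegral_const_mul _ (hS.pow_const 2)]

theorem S_bound {κp κm : ℝ → ℂ} (hκp : Continuous κp) (hκm : Continuous κm) {K : ℕ}
    {g : ℕ → ℝ → ℂ} (hg : ∀ k < K, MemLp (g k) 2 volume) {c : ℝ} {C a : ℝ≥0∞}
    (hp : ∀ k < K, ∫⁻ u, TT κp c (g k) u ^ 2 ≤ C * ∫⁻ v, ‖g k v‖ₑ ^ 2)
    (hm : ∀ k < K, ∫⁻ u, TT κm c (g k) u ^ 2 ≤ C * ∫⁻ v, ‖g k v‖ₑ ^ 2) :
    ∫⁻ u, (∑ k ∈ Finset.range K, a * (TT κp c (g k) u + TT κm c (g k) u)) ^ 2 ≤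
      a ^ 2 * K * (4 * C) * ∑ k ∈ Finset.range K, ∫⁻ v, ‖g k v‖ₑ ^ 2 := by
  have mp : ∀ k ∈ Finset.range K, Measurable fun u => TT κp c (g k) u := fun k hk =>
    Pool.Agent.CRR.HANK_.TT_meas hκp (hg k (Finset.mem_range.1 hk))
  have mm : ∀ k ∈ Finset.range K, Measurable fun u => TT κm c (g k) u := fun k hk =>
    Pool.Agent.CRR.HANK_.TT_meas hκm (hg k (Finset.mem_range.1 hk))
  have h1 : ∀ u, (∑ k ∈ Finset.range K, a * (TT κp c (g k) u + TT κm c (g k) u)) ^ 2 ≤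
      a ^ 2 * K * ∑ k ∈ Finset.range K, (2 * TT κp c (g k) u ^ 2 + 2 * TT κm c (g k) u ^ 2) := by
    intro u
    rw [← Finset.mul_sum, mul_pow, mul_assoc]
    refine mul_le_mul_right ((sq_sum K _).trans ?_) _
    refine mul_le_mul_right (Finset.sum_le_sum fun k _ => ?_) _
    exact Pool.Agent.CRR.HANK_.two _ _
  calc ∫⁻ u, (∑ k ∈ Finset.range K, a * (TT κp c (g k) u + TT κm c (g k) u)) ^ 2
      ≤ ∫⁻ u, a ^ 2 * K * ∑ k ∈ Finset.range K,
        (2 * TT κp c (g k) u ^ 2 + 2 * TT κm c (g k) u ^ 2) := lintegral_mono h1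
    _ = a ^ 2 * K * ∑ k ∈ Finset.range K,
        (2 * (∫⁻ u, TT κp c (g k) u ^ 2) + 2 * ∫⁻ u, TT κm c (g k) u ^ 2) := by
        rw [lintegral_const_mul, lintegral_finsetSum']
        · congr 1
          refine Finset.sum_congr rfl fun k hk => ?_
          rw [lintegral_add_left (((mp k hk).pow_const 2).const_mul 2),
            lintegral_const_mul _ ((mp k hk).pow_const 2),
            lintegral_const_mul _ ((mm k hk).pow_const 2)]
        · exact fun k hk => ((((mp k hk).pow_const 2).const_mul 2).add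
            (((mm k hk).pow_const 2).const_mul 2)).aemeasurable
        · exact Finset.measurable_sum _ fun k hk => (((mp k hk).pow_const 2).const_mul 2).add
            (((mm k hk).pow_const 2).const_mul 2)
    _ ≤ a ^ 2 * K * ∑ k ∈ Finset.range K,
        (2 * (C * ∫⁻ v, ‖g k v‖ₑ ^ 2) + 2 * (C * ∫⁻ v, ‖g k v‖ₑ ^ 2)) := by
        gcongr with k hk
        · exact hp k (Finset.mem_range.1 hk)
        · exact hm k (Finset.mem_range.1 hk)
    _ = _ := by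
        rw [mul_assoc (a ^ 2 * (K : ℝ≥0∞)), Finset.mul_sum (Finset.range K) _ (4 * C)]
        congr 1
        refine Finset.sum_congr rfl fun k _ => ?_
        ring

end WC1_

open WC1_ in
open Pool.Agent.CRR.HANK_ (TT) in
/-- WC1. -/
theorem p_WC1 (h1 : T_CPL) (h2 : T_ROT) (h3 : T_HGB) (h4 : T_KPM) (_h5 : T_SEQ) (_h6 : T_BET) :
    T_WC1 := by
  intro hcar
  obtain ⟨C1, hC1, hcpl⟩ := h1
  obtain ⟨A, hA1, hkpm⟩ := h4
  obtain ⟨C2', hHB'⟩ := h3 hcar A hA1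
  set C2 : ℝ≥0 := max C2' 1 with hC2
  have hC2a : (C2' : ℝ≥0∞) ≤ C2 := by exact_mod_cast le_max_left _ _
  have hC21 : (1 : ℝ≥0∞) ≤ C2 := by exact_mod_cast le_max_right _ _
  set B : ℝ≥0 := max C1.toNNReal 1 with hB
  have hB1 : (1 : ℝ≥0∞) ≤ B := by exact_mod_cast le_max_right _ _
  have hBC : C1 ≤ (B : ℝ) := by
    have h : C1.toNNReal ≤ B := le_max_left _ _
    calc C1 ≤ (C1.toNNReal : ℝ) := Real.le_coe_toNNReal C1
      _ ≤ B := by exact_mod_cast h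
  have hB0 : (0 : ℝ) < B := lt_of_lt_of_le hC1 hBC
  set P : ℝ≥0 := (2 * Real.pi).toNNReal with hP
  have hPe : ENNReal.ofReal (2 * Real.pi) = P := rfl
  have hP0 : P ≠ 0 := by
    rw [hP, Ne, Real.toNNReal_eq_zero, not_le]
    positivity
  refine ⟨296 * C2 * B ^ 2 * P, max 3000 (C1 ^ 2), ?_⟩
  intro K Z δ v0 m J J' g hZ0 hZK hδ hδZ hm hN hg hsup
  have hZ3 : 3000 ≤ Z := (le_max_left _ _).trans hZ0
  have hZC : C1 ^ 2 ≤ Z := (le_max_right _ _).trans hZ0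
  have hZpos : 0 < Z := by linarith
  by_cases hfin : ∃ k ∈ Finset.range K, ∫⁻ v, ‖g k v‖ₑ ^ 2 = ⊤
  · obtain ⟨k, hk, hx⟩ := hfin
    have e1 : ∑ k ∈ Finset.range K, ∫⁻ v, ‖g k v‖ₑ ^ 2 = ⊤ := by
      rw [ENNReal.sum_eq_top]
      exact ⟨k, hk, hx⟩
    have e2 : ((296 * C2 * B ^ 2 * P : ℝ≥0) : ℝ≥0∞) ≠ 0 := by
      have hC20 : C2 ≠ 0 := fun h => by simp [h] at hC21
      have hB00 : B ≠ 0 := fun h => by simp [h] at hB1
      rw [Ne, ENNReal.coe_eq_zero]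
      positivity
    rw [e1, ENNReal.mul_top e2]
    exact le_top
  push Not at hfin
  have hmem : ∀ k < K, MemLp (g k) 2 volume := by
    intro k hk
    refine ⟨(hg k).aestronglyMeasurable, ?_⟩
    rw [eLpNorm_lt_top_iff_lintegral_rpow_enorm_lt_top (by norm_num) (by norm_num)]
    refine lt_of_le_of_ne le_top ?_
    convert hfin k (Finset.mem_range.2 hk) using 3
    simp
  have hcond : ∀ k, ∃ c1 c2 : ℂ, k < K → ‖c1‖ ≤ C1 ∧ ‖c2‖ ≤ C1 ∧
      ∀ xa xb : ℝ, x1 m Z ≤ xa → xa ≤ xb → ∃ W1 W2 W1' W2' : ℝ → ℂ,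
        ContinuousOn W1' (Icc xa xb) ∧ ContinuousOn W2' (Icc xa xb) ∧
        (∀ x ∈ Icc xa xb, HasDerivAt W1 (W1' x) x ∧ HasDerivAt W2 (W2' x) x ∧
          kap (J k) x = kpm m 1 x * (ci (k * be m xb) * (c1 + W1 x)) +
            kpm m (-1) x * (ci (-(k * be m xb)) * (c2 + W2 x))) ∧
        ‖W1 xa‖ ≤ C1 * ((1 + (k : ℝ)) ^ 3 / Z + k * Real.sqrt (xb - xa)) ∧
        ‖W2 xa‖ ≤ C1 * ((1 + (k : ℝ)) ^ 3 / Z + k * Real.sqrt (xb - xa)) ∧
        (∫ x in Ioc xa xb, ‖W1' x‖) ≤ C1 * ((1 + (k : ℝ)) ^ 3 / Z + k * Real.sqrt (xb - xa)) ∧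
        (∫ x in Ioc xa xb, ‖W2' x‖) ≤ C1 * ((1 + (k : ℝ)) ^ 3 / Z + k * Real.sqrt (xb - xa)) := by
    intro k
    by_cases hk : k < K
    · obtain ⟨c1, c2, q1, q2, q3⟩ := hcpl m Z k (J k) (J' k) hm (cond_le hk hC1 hZK hZC) (hN k hk)
      exact ⟨c1, c2, fun _ => ⟨q1, q2, q3⟩⟩
    · exact ⟨0, 0, fun h => absurd h hk⟩
  choose c1 c2 hcc using hcond
  set κp : ℝ → ℂ := kpm m 1 with hκpd
  set κm : ℝ → ℂ := kpm m (-1) with hκmd
  have hKp := hkpm m 1 hm (Or.inl rfl)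
  have hKm := hkpm m (-1) hm (Or.inr rfl)
  have hκp : Continuous κp := hKp.cont
  have hκm : Continuous κm := hKm.cont
  set b : ℝ → ℝ := fun u => be m (u + v0 + δ) with hb
  have hbc : Continuous b := by
    rw [hb]
    unfold be
    exact Real.continuous_arcsin.comp (by fun_prop)
  rcases Nat.eq_zero_or_pos K with hK0 | hKpos
  · subst hK0
    have e0 : ∀ u φ, WM 0 (fun k => (Ici (x1 m Z)).indicator (kap (J k))) g u φ = 0 := by
      intro u φ
      simp [WM]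
    simp [e0]
  have hKr : (1 : ℝ) ≤ K := by exact_mod_cast hKpos
  have hK0 : (0 : ℝ) < K := by linarith
  set a : ℝ := B * (2 / K) with ha
  have ha0 : 0 < a := by positivity
  set c : ℝ := xc m with hc
  have hc1 : c ≤ x1 m Z := x1_ge hm hZ3
  have hpt : ∀ u φ, WM K (fun k => (Ici (x1 m Z)).indicator (kap (J k))) g u φ ≤
      RR κp c K b c1 g u φ + RR κm c K (fun u => -b u) c2 g u φ +
        ∑ k ∈ Finset.range K, ENNReal.ofReal (3 * a) * (TT κp c (g k) u + TT κm c (g k) u) := by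
    refine point hκp hκm hmem hc1 ha0 (fun k _ => hsup k) ?_
    intro k hk u hab
    obtain ⟨W1, W2, W1', W2', q1, q2, q3, q4, q5, q6, q7⟩ :=
      (hcc k hk).2.2 (max (u + v0) (x1 m Z)) (u + v0 + δ) (le_max_right _ _) hab
    have hη : C1 * ((1 + (k : ℝ)) ^ 3 / Z +
        k * Real.sqrt (u + v0 + δ - max (u + v0) (x1 m Z))) ≤ a := by
      have h7 : Real.sqrt (u + v0 + δ - max (u + v0) (x1 m Z)) ≤ √δ := by
        refine Real.sqrt_le_sqrt ?_
        have := le_max_left (u + v0) (x1 m Z)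
        linarith
      have hk0 : (0 : ℝ) ≤ k := Nat.cast_nonneg k
      calc C1 * ((1 + (k : ℝ)) ^ 3 / Z +
          k * Real.sqrt (u + v0 + δ - max (u + v0) (x1 m Z)))
          ≤ C1 * ((1 + (k : ℝ)) ^ 3 / Z + k * √δ) := by gcongr
        _ ≤ C1 * (2 / K) := by
            gcongr
            exact eta_le hk hZK hδ hδZ
        _ ≤ a := by
            rw [ha]
            gcongr
    exact ⟨W1, W2, W1', W2', q1, q2, q3, q4.trans hη, q5.trans hη, q6.trans hη, q7.trans hη⟩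
  have hHp : HB ((Ici c).indicator κp) C2 := fun f hf =>
    (hHB' m κp hm hKp f hf).trans (mul_le_mul' hC2a le_rfl)
  have hHm : HB ((Ici c).indicator κm) C2 := fun f hf =>
    (hHB' m κm hm hKm f hf).trans (mul_le_mul' hC2a le_rfl)
  have hTp : ∀ k < K, ∫⁻ u, TT κp c (g k) u ^ 2 ≤ C2 * ∫⁻ v, ‖g k v‖ₑ ^ 2 := by
    intro k _
    have h := hHp (g k) (hg k)
    simp only [ind_eq] at h
    exact h
  have hTm : ∀ k < K, ∫⁻ u, TT κm c (g k) u ^ 2 ≤ C2 * ∫⁻ v, ‖g k v‖ₑ ^ 2 := by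
    intro k _
    have h := hHm (g k) (hg k)
    simp only [ind_eq] at h
    exact h
  have hLB : ∀ {κ : ℝ → ℂ}, Continuous κ → LB ((Ici c).indicator κ) := by
    intro κ hκ
    refine ⟨hκ.measurable.indicator measurableSet_Ici, fun r s => ?_⟩
    obtain ⟨M, _, hM⟩ := Pool.Agent.CRR.HANK_.bdd_loc hκ r s
    exact ⟨M, fun x hx => (norm_indicator_le_norm_self _ _).trans (hM x hx)⟩
  have hcB : ∀ z : ℂ, ‖z‖ ≤ C1 → ‖z‖ₑ ≤ B := by
    intro z hz
    have h : ‖z‖₊ ≤ B := by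
      rw [← NNReal.coe_le_coe, coe_nnnorm]
      exact hz.trans hBC
    show (‖z‖₊ : ℝ≥0∞) ≤ B
    exact_mod_cast h
  have hRp : ∫⁻ u, ∫⁻ φ in Ioc (0 : ℝ) (2 * Real.pi), RR κp c K b c1 g u φ ^ 2 ≤
      C2 * B ^ 2 * P * ∑ k ∈ Finset.range K, ∫⁻ v, ‖g k v‖ₑ ^ 2 := by
    have h := h2 C2 B ((Ici c).indicator κp) K b c1 g (by exact_mod_cast hC21)
      (by exact_mod_cast hB1) (hLB hκp) hHp hbc.measurable (fun k hk => hcB _ (hcc k hk).1) hg
    simp only [ind_eq] at h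
    exact h
  have hRm : ∫⁻ u, ∫⁻ φ in Ioc (0 : ℝ) (2 * Real.pi), RR κm c K (fun u => -b u) c2 g u φ ^ 2 ≤
      C2 * B ^ 2 * P * ∑ k ∈ Finset.range K, ∫⁻ v, ‖g k v‖ₑ ^ 2 := by
    have h := h2 C2 B ((Ici c).indicator κm) K (fun u => -b u) c2 g (by exact_mod_cast hC21)
      (by exact_mod_cast hB1) (hLB hκm) hHm hbc.neg.measurable
      (fun k hk => hcB _ (hcc k hk).2.1) hg
    simp only [ind_eq] at h
    exact h
  have hSm : Measurable fun u =>
      ∑ k ∈ Finset.range K, ENNReal.ofReal (3 * a) * (TT κp c (g k) u + TT κm c (g k) u) := by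
    refine Finset.measurable_sum _ fun k hk => ?_
    have hk' := Finset.mem_range.1 hk
    exact ((Pool.Agent.CRR.HANK_.TT_meas hκp (hmem k hk')).add
      (Pool.Agent.CRR.HANK_.TT_meas hκm (hmem k hk'))).const_mul _
  have hS := S_bound (a := ENNReal.ofReal (3 * a)) hκp hκm hmem hTp hTm
  have haK : ENNReal.ofReal (3 * a) ^ 2 * K ≤ 36 * B ^ 2 := by
    have e1 : (36 : ℝ≥0∞) * B ^ 2 = ENNReal.ofReal (36 * (B : ℝ) ^ 2) := by
      rw [ENNReal.ofReal_mul (by norm_num), ENNReal.ofReal_pow hB0.le, ENNReal.ofReal_coe_nnreal]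
      norm_num
    rw [e1, ← ENNReal.ofReal_pow (by positivity), ← ENNReal.ofReal_natCast K,
      ← ENNReal.ofReal_mul (by positivity)]
    refine ENNReal.ofReal_le_ofReal ?_
    have e2 : (3 * a) ^ 2 * K = 36 * (B : ℝ) ^ 2 / K := by
      rw [ha]
      field_simp
      ring
    rw [e2, div_le_iff₀ hK0]
    nlinarith [mul_le_mul_of_nonneg_left hKr (by positivity : (0 : ℝ) ≤ 36 * (B : ℝ) ^ 2)]
  refine (integ (2 * Real.pi) (RR_meas hκp c K hbc c1 hmem)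
    (RR_meas hκm c K (b := fun u => -b u) hbc.neg c2 hmem) hSm hpt).trans ?_
  rw [hPe]
  calc _ ≤ 4 * (C2 * B ^ 2 * P * ∑ k ∈ Finset.range K, ∫⁻ v, ‖g k v‖ₑ ^ 2) +
        4 * (C2 * B ^ 2 * P * ∑ k ∈ Finset.range K, ∫⁻ v, ‖g k v‖ₑ ^ 2) +
        2 * P * (ENNReal.ofReal (3 * a) ^ 2 * K * (4 * C2) *
          ∑ k ∈ Finset.range K, ∫⁻ v, ‖g k v‖ₑ ^ 2) := by
        gcongr
    _ ≤ 4 * (C2 * B ^ 2 * P * ∑ k ∈ Finset.range K, ∫⁻ v, ‖g k v‖ₑ ^ 2) +
        4 * (C2 * B ^ 2 * P * ∑ k ∈ Finset.range K, ∫⁻ v, ‖g k v‖ₑ ^ 2) +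
        2 * P * (36 * B ^ 2 * (4 * C2) *
          ∑ k ∈ Finset.range K, ∫⁻ v, ‖g k v‖ₑ ^ 2) := by
        gcongr
    _ = _ := by
        push_cast
        ring

end Pool.Agent.CRW
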