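import Pool.Agent.CRW.Targets2
import Pool.Agent.CRR.P_HANK

set_option autoImplicit false

/-!
# CRW, block WC2 (MP_ee701d_an, helper75): the window of kernels before `x1`
-/

namespace Pool.Agent.CRW

open MeasureTheory FourierTransform Set Filter Topology
open scoped ENNReal NNReal ComplexConjugate
open Pool.Agent.MBS (E ex S Sstar)
open Pool.Agent.CAR (e1)
open Pool.Agent.CRN (ci SH S1 Nice T_CARLS)
open Pool.Agent.CRR (PP Sol xc E2 NSol kap aa de la si ww band fh StripD FS FA HH T_SEQ T_INF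
  T_QID T_FOR T_ENR T_NRM T_HANK)

namespace WC2_

open Pool.Agent.CRR.HANK_ (two schur bdd_loc kap_cont)

/-! ### the pointwise decomposition -/

/-- the main part of the maximal function -/
noncomputable def MM (K : ℕ) (κ : ℝ → ℂ) (c : ℕ → ℂ) (g : ℕ → ℝ → ℂ) (u φ : ℝ) : ℝ≥0∞ :=
  ⨆ (V1 : ℝ) (V2 : ℝ), ‖∑ k ∈ Finset.range K,
    ci (k * (φ + 0)) * (c k * ∫ v in Ioc V1 V2, κ (u + v) * g k v)‖ₑ

/-- the crude bound of the remainder -/
noncomputable def GG (K : ℕ) (r g : ℕ → ℝ → ℂ) (u : ℝ) : ℝ≥0∞ :=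
  ∑ k ∈ Finset.range K, ∫⁻ v, ‖r k (u + v)‖ₑ * ‖g k v‖ₑ

theorem int_mul {κ g : ℝ → ℂ} (hκ : Continuous κ) (hg : MemLp g 2 volume) (u V1 V2 : ℝ) :
    IntegrableOn (fun v => κ (u + v) * g v) (Ioc V1 V2) := by
  obtain ⟨M, hM0, hM⟩ := bdd_loc hκ (u + V1) (u + V2)
  have hgi : IntegrableOn g (Ioc V1 V2) := (hg.restrict (Ioc V1 V2)).integrable (by norm_num)
  refine hgi.bdd_mul (c := M)
    (hκ.comp (continuous_const.add continuous_id)).aestronglyMeasurable ?_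
  rw [ae_restrict_iff' measurableSet_Ioc]
  refine Eventually.of_forall fun v hv => hM _ ⟨?_, ?_⟩
  · linarith [hv.1]
  · linarith [hv.2]

theorem ind_eq (X : ℝ) (κ : ℝ → ℂ) (g : ℝ → ℂ) (u v : ℝ) :
    (Iio X).indicator κ (u + v) * g v =
      (Iio (X - u)).indicator (fun v => κ (u + v) * g v) v := by
  by_cases h : v < X - u
  · rw [indicator_of_mem (show u + v ∈ Iio X by rw [mem_Iio]; linarith),
      indicator_of_mem (show v ∈ Iio (X - u) from h)]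
  · rw [indicator_of_notMem (show u + v ∉ Iio X by rw [mem_Iio]; push Not at h ⊢; linarith),
      indicator_of_notMem (show v ∉ Iio (X - u) from h), zero_mul]

theorem int_ind {κ g : ℝ → ℂ} (hκ : Continuous κ) (hg : MemLp g 2 volume) (X u V1 V2 : ℝ) :
    IntegrableOn (fun v => (Iio X).indicator κ (u + v) * g v) (Ioc V1 V2) := by
  simp only [ind_eq]
  exact (int_mul hκ hg u V1 V2).indicator measurableSet_Iio

theorem main_eq {κ g : ℝ → ℂ} (X u V1 V2 : ℝ) :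
    ∫ v in Ioc V1 V2, (Iio X).indicator κ (u + v) * g v =
      ∫ v in Ioc V1 (min V2 (X - u)), κ (u + v) * g v := by
  simp only [ind_eq]
  rw [setIntegral_indicator measurableSet_Iio]
  apply setIntegral_congr_set
  have h1 : (Ioc V1 V2 ∩ Iio (X - u) : Set ℝ) =ᵐ[volume] (Ioc V1 V2 ∩ Iic (X - u) : Set ℝ) :=
    (ae_eq_refl _).inter Iio_ae_eq_Iic
  have h2 : (Ioc V1 V2 ∩ Iic (X - u) : Set ℝ) = Ioc V1 (min V2 (X - u)) := by
    ext v
    simp only [mem_inter_iff, mem_Ioc, mem_Iic, le_min_iff]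
    tauto
  rwa [h2] at h1

theorem split {κ κ0 g : ℝ → ℂ} (c : ℂ) (hκ : Continuous κ) (hκ0 : Continuous κ0)
    (hg : MemLp g 2 volume) (X u V1 V2 : ℝ) :
    ∫ v in Ioc V1 V2, (Iio X).indicator κ (u + v) * g v =
      c * (∫ v in Ioc V1 (min V2 (X - u)), κ0 (u + v) * g v) +
        ∫ v in Ioc V1 V2, (Iio X).indicator (fun x => κ x - c * κ0 x) (u + v) * g v := by
  rw [← main_eq, ← integral_const_mul, ← integral_add]
  · refine integral_congr_ae (Eventually.of_forall fun v => ?_)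
    simp only
    by_cases h : u + v ∈ Iio X
    · rw [indicator_of_mem h, indicator_of_mem h, indicator_of_mem h]
      ring
    · rw [indicator_of_notMem h, indicator_of_notMem h, indicator_of_notMem h]
      ring
  · exact (int_ind hκ0 hg X u V1 V2).const_mul c
  · exact int_ind (hκ.sub (hκ0.const_mul c)) hg X u V1 V2

theorem enorm_ci (t : ℝ) : ‖ci t‖ₑ = 1 := by
  rw [← ofReal_norm, ci, Complex.norm_exp_ofReal_mul_I, ENNReal.ofReal_one]

theorem point {K : ℕ} (X : ℝ) {κ : ℕ → ℝ → ℂ} (hκ : ∀ k < K, Continuous (κ k)) {κ0 : ℝ → ℂ}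
    (hκ0 : Continuous κ0) (c : ℕ → ℂ) {g : ℕ → ℝ → ℂ} (hg : ∀ k < K, MemLp (g k) 2 volume)
    (u φ : ℝ) :
    WM K (fun k => (Iio X).indicator (κ k)) g u φ ≤
      MM K κ0 c g u φ +
        GG K (fun k => (Iio X).indicator (fun x => κ k x - c k * κ0 x)) g u := by
  unfold WM
  refine iSup_le fun V1 => iSup_le fun V2 => ?_
  have e : ∑ k ∈ Finset.range K,
      ci (k * φ) * ∫ v in Ioc V1 V2, (Iio X).indicator (κ k) (u + v) * g k v =
      (∑ k ∈ Finset.range K, ci (k * (φ + 0)) *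
        (c k * ∫ v in Ioc V1 (min V2 (X - u)), κ0 (u + v) * g k v)) +
      ∑ k ∈ Finset.range K, ci (k * φ) *
        ∫ v in Ioc V1 V2, (Iio X).indicator (fun x => κ k x - c k * κ0 x) (u + v) * g k v := by
    rw [← Finset.sum_add_distrib]
    refine Finset.sum_congr rfl fun k hk => ?_
    have hk := Finset.mem_range.mp hk
    rw [split (c k) (hκ k hk) hκ0 (hg k hk), add_zero, mul_add]
  rw [e]
  refine (enorm_add_le _ _).trans (add_le_add ?_ ?_)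
  · exact le_iSup_of_le V1 (le_iSup_of_le (min V2 (X - u)) le_rfl)
  · unfold GG
    refine (enorm_sum_le _ _).trans (Finset.sum_le_sum fun k _ => ?_)
    rw [enorm_mul, enorm_ci, one_mul]
    refine (enorm_integral_le_lintegral_enorm _).trans ?_
    refine (setLIntegral_le_lintegral _ _).trans (le_of_eq ?_)
    exact lintegral_congr fun v => enorm_mul _ _

/-! ### the remainder -/

theorem GG_meas {K : ℕ} {r g : ℕ → ℝ → ℂ} (hr : ∀ k < K, Measurable (r k))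
    (hg : ∀ k < K, Measurable (g k)) : Measurable (GG K r g) := by
  unfold GG
  refine Finset.measurable_fun_sum _ fun k hk => ?_
  have hk := Finset.mem_range.mp hk
  refine Measurable.lintegral_prod_right'
    (f := fun p : ℝ × ℝ => ‖r k (p.1 + p.2)‖ₑ * ‖g k p.2‖ₑ) ?_
  exact ((hr k hk).comp (measurable_fst.add measurable_snd)).enorm.mul
    ((hg k hk).comp measurable_snd).enorm

theorem sq_sum (K : ℕ) (a : ℕ → ℝ≥0∞) :
    (∑ k ∈ Finset.range K, a k) ^ 2 ≤ K * ∑ k ∈ Finset.range K, a k ^ 2 := by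
  have h := ENNReal.rpow_sum_le_const_mul_sum_rpow (Finset.range K) a (p := 2) (by norm_num)
  rw [Finset.card_range] at h
  simp only [ENNReal.rpow_two] at h
  norm_num at h
  exact h

theorem GG_le {K : ℕ} {r g : ℕ → ℝ → ℂ} (hr : ∀ k < K, Measurable (r k))
    (hg : ∀ k < K, Measurable (g k)) {η : ℝ≥0∞} (h : ∀ k < K, ∫⁻ x, ‖r k x‖ₑ ≤ η) :
    ∫⁻ u, GG K r g u ^ 2 ≤ K * η ^ 2 * ∑ k ∈ Finset.range K, ∫⁻ v, ‖g k v‖ₑ ^ 2 := by
  have hm : ∀ k < K, Measurable fun u => ∫⁻ v, ‖r k (u + v)‖ₑ * ‖g k v‖ₑ := by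
    intro k hk
    refine Measurable.lintegral_prod_right'
      (f := fun p : ℝ × ℝ => ‖r k (p.1 + p.2)‖ₑ * ‖g k p.2‖ₑ) ?_
    exact ((hr k hk).comp (measurable_fst.add measurable_snd)).enorm.mul
      ((hg k hk).comp measurable_snd).enorm
  calc ∫⁻ u, GG K r g u ^ 2
      ≤ ∫⁻ u, K * ∑ k ∈ Finset.range K, (∫⁻ v, ‖r k (u + v)‖ₑ * ‖g k v‖ₑ) ^ 2 :=
        lintegral_mono fun u => sq_sum K _
    _ = K * ∑ k ∈ Finset.range K, ∫⁻ u, (∫⁻ v, ‖r k (u + v)‖ₑ * ‖g k v‖ₑ) ^ 2 := by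
        rw [lintegral_const_mul' _ _ (ENNReal.natCast_ne_top K), lintegral_finsetSum' _]
        intro k hk
        exact ((hm k (Finset.mem_range.mp hk)).pow_const 2).aemeasurable
    _ ≤ K * ∑ k ∈ Finset.range K, η ^ 2 * ∫⁻ v, ‖g k v‖ₑ ^ 2 := by
        gcongr with k hk
        have hk := Finset.mem_range.mp hk
        refine (schur (K := fun x => ‖r k x‖ₑ) (G := fun v => ‖g k v‖ₑ) (hr k hk).enorm
          (hg k hk).enorm).trans ?_
        gcongr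
        exact h k hk
    _ = _ := by rw [← Finset.mul_sum, mul_assoc]

/-! ### numerics -/

theorem cube_root {m : ℝ} (hm : 0 ≤ m) : (m ^ (1 / 3 : ℝ)) ^ 3 = m := by
  rw [← Real.rpow_natCast, ← Real.rpow_mul hm]
  norm_num

theorem A_le {A m : ℝ} (hm : 0 ≤ m) (h : 2 * A ≤ (m ^ (1 / 3 : ℝ)) ^ 2) :
    A * m ^ (1 / 3 : ℝ) ≤ m / 2 := by
  have h1 := cube_root hm
  have h0 : 0 ≤ m ^ (1 / 3 : ℝ) := by positivity
  set a := m ^ (1 / 3 : ℝ)
  nlinarith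

theorem x0_mono {A m k : ℝ} (hm : 1 ≤ m) (hk : 0 ≤ k) (_hA : 1 ≤ A)
    (h : 2 * A ≤ (m ^ (1 / 3 : ℝ)) ^ 2) : x0 m A ≤ x0 (m + k) A := by
  have h1 := cube_root (show 0 ≤ m by linarith)
  have h2 := cube_root (show 0 ≤ m + k by linarith)
  have h3 := A_le (show 0 ≤ m by linarith) h
  have h0 : 0 < m ^ (1 / 3 : ℝ) := by positivity
  have h4 : m ^ (1 / 3 : ℝ) ≤ (m + k) ^ (1 / 3 : ℝ) :=
    Real.rpow_le_rpow (by linarith) (by linarith) (by norm_num)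
  unfold x0
  apply Real.log_le_log (by linarith)
  set a := m ^ (1 / 3 : ℝ)
  set b := (m + k) ^ (1 / 3 : ℝ)
  have h5 : (b - a) * (b ^ 2 + a * b + a ^ 2) = k := by
    have : (b - a) * (b ^ 2 + a * b + a ^ 2) = b ^ 3 - a ^ 3 := by ring
    rw [this, h1, h2]; ring
  have h6 : (b - a) * (2 * A) ≤ k := by
    rw [← h5]
    apply mul_le_mul_of_nonneg_left _ (by linarith)
    nlinarith [mul_pos h0 (h0.trans_le h4)]
  nlinarith

theorem big {A Z m B : ℝ} (hA : 1 ≤ A) (hB : 1 ≤ B) (h : Real.exp (B * (4000 + A) ^ 2) ≤ Z)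
    (hZ : Z ^ 100 ≤ 2 * m) : 2 ≤ Z ∧ 1 ≤ m ∧ 2 * A ≤ (m ^ (1 / 3 : ℝ)) ^ 2 := by
  have h1 : B * (4000 + A) ^ 2 + 1 ≤ Z := (Real.add_one_le_exp _).trans h
  have h2 : (4000 + A) ^ 2 ≤ B * (4000 + A) ^ 2 := by nlinarith [sq_nonneg (4000 + A)]
  have h3 : A + 2 ≤ Z := by nlinarith
  have h4 : 2 ≤ Z := by linarith
  have h5 : Z ^ 3 ≤ Z ^ 99 := pow_le_pow_right₀ (by linarith) (by norm_num)
  have h6 : 2 * Z ^ 99 ≤ Z ^ 100 := by
    have : Z ^ 100 = Z * Z ^ 99 := by ring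
    rw [this]
    apply mul_le_mul_of_nonneg_right h4 (by positivity)
  have h7 : Z ^ 3 ≤ m := by linarith
  have h8 : (1 : ℝ) ≤ Z ^ 3 := one_le_pow₀ (by linarith)
  refine ⟨h4, by linarith, ?_⟩
  have h9 := cube_root (show 0 ≤ m by linarith)
  have h10 : Z ≤ m ^ (1 / 3 : ℝ) := by
    rw [← h9] at h7
    exact le_of_pow_le_pow_left₀ (by norm_num) (Real.rpow_nonneg (by linarith) _) h7
  nlinarith

theorem eta_le {A B Z C : ℝ} {K : ℕ} (hA : 1 ≤ A) (hB : 2 ≤ B) (hZ : 2 ≤ Z) (hC : 0 < C)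
    (hK : (K : ℝ) ≤ Real.exp (A / B)) (hKZ : (K : ℝ) ^ 20 ≤ Z) :
    (K : ℝ) * (5 * (C * Real.exp (-(A / 4))) + Z ^ (-10 : ℤ)) ^ 2 ≤ 50 * C ^ 2 + 2 := by
  have h1 : (5 * (C * Real.exp (-(A / 4))) + Z ^ (-10 : ℤ)) ^ 2 ≤
      50 * C ^ 2 * Real.exp (-(A / 4)) ^ 2 + 2 * (Z ^ (-10 : ℤ)) ^ 2 := by
    nlinarith [sq_nonneg (5 * (C * Real.exp (-(A / 4))) - Z ^ (-10 : ℤ))]
  have h2 : (K : ℝ) * Real.exp (-(A / 4)) ^ 2 ≤ 1 := by
    calc (K : ℝ) * Real.exp (-(A / 4)) ^ 2 ≤ Real.exp (A / B) * Real.exp (-(A / 4)) ^ 2 := by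
          gcongr
      _ = Real.exp (A / B - A / 2) := by
          rw [← Real.exp_nat_mul, ← Real.exp_add]
          congr 1
          push_cast
          ring
      _ ≤ 1 := by
          rw [Real.exp_le_one_iff, sub_nonpos]
          apply div_le_div_of_nonneg_left (by linarith) (by norm_num) hB
  have h3 : (K : ℝ) * (Z ^ (-10 : ℤ)) ^ 2 ≤ 1 := by
    have e : (Z ^ (-10 : ℤ)) ^ 2 = (Z ^ 20)⁻¹ := by
      rw [← zpow_natCast, ← zpow_mul]
      rw [show ((-10 : ℤ) * ((2 : ℕ) : ℤ)) = -((20 : ℕ) : ℤ) by norm_num, zpow_neg, zpow_natCast]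
    rw [e, ← div_eq_mul_inv, div_le_one (by positivity)]
    rcases Nat.eq_zero_or_pos K with h0 | h0
    · rw [h0]; simp; positivity
    · have hK1 : (1 : ℝ) ≤ K := by exact_mod_cast h0
      calc (K : ℝ) = (K : ℝ) ^ 1 := (pow_one _).symm
        _ ≤ (K : ℝ) ^ 20 := pow_le_pow_right₀ hK1 (by norm_num)
        _ ≤ Z := hKZ
        _ = Z ^ 1 := (pow_one _).symm
        _ ≤ Z ^ 20 := pow_le_pow_right₀ (by linarith) (by norm_num)
  have hK0 : (0 : ℝ) ≤ K := Nat.cast_nonneg K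
  calc (K : ℝ) * (5 * (C * Real.exp (-(A / 4))) + Z ^ (-10 : ℤ)) ^ 2
      ≤ K * (50 * C ^ 2 * Real.exp (-(A / 4)) ^ 2 + 2 * (Z ^ (-10 : ℤ)) ^ 2) := by gcongr
    _ = 50 * C ^ 2 * (K * Real.exp (-(A / 4)) ^ 2) + 2 * (K * (Z ^ (-10 : ℤ)) ^ 2) := by ring
    _ ≤ 50 * C ^ 2 * 1 + 2 * 1 := by gcongr
    _ = _ := by ring

/-! ### the remainder kernels -/

theorem rem_le {C A Z m : ℝ} {k : ℕ} {J0 J0' J J' : ℝ → ℝ} {c : ℝ}
    (hD : ∀ (ν A : ℝ) (J J' : ℝ → ℝ), 1 ≤ ν → 1 ≤ A →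
      A * ν ^ (1 / 3 : ℝ) ≤ ν / 2 → NSol ν J J' →
      ∫⁻ x in Iic (x0 ν A), ‖kap J x‖ₑ ≤ ENNReal.ofReal (C * Real.exp (-(A / 4))))
    (hC : 0 < C) (hA : 1 ≤ A) (hm : 1 ≤ m) (h2A : 2 * A ≤ (m ^ (1 / 3 : ℝ)) ^ 2)
    (hJ0 : NSol m J0 J0') (hJ : NSol (m + k) J J') (hc : |c| ≤ 4)
    (hZ : ∫⁻ x in Icc (x0 m A) (x1 m Z), ‖kap J x - c * kap J0 x‖ₑ ≤
      ENNReal.ofReal (Z ^ (-10 : ℤ))) (hZ0 : 0 < Z) :
    ∫⁻ x, ‖(Iio (x1 m Z)).indicator (fun x => kap J x - (c : ℂ) * kap J0 x) x‖ₑ ≤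
      ENNReal.ofReal (5 * (C * Real.exp (-(A / 4))) + Z ^ (-10 : ℤ)) := by
  have hk : (0 : ℝ) ≤ k := Nat.cast_nonneg k
  have hc1 : Continuous (kap J) := kap_cont hJ.sol
  have hc0 : Continuous (kap J0) := kap_cont hJ0.sol
  have h1 : ∫⁻ x in Iic (x0 m A), ‖kap J0 x‖ₑ ≤ ENNReal.ofReal (C * Real.exp (-(A / 4))) :=
    hD m A J0 J0' hm hA (A_le (by linarith) h2A) hJ0
  have h2 : ∫⁻ x in Iic (x0 m A), ‖kap J x‖ₑ ≤ ENNReal.ofReal (C * Real.exp (-(A / 4))) := by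
    refine (lintegral_mono_set (Iic_subset_Iic.mpr (x0_mono hm hk hA h2A))).trans ?_
    refine hD (m + k) A J J' (by linarith) hA (A_le (by linarith) (h2A.trans ?_)) hJ
    have : m ^ (1 / 3 : ℝ) ≤ (m + k) ^ (1 / 3 : ℝ) :=
      Real.rpow_le_rpow (by linarith) (by linarith) (by norm_num)
    gcongr
  have e : ∀ x, ‖(Iio (x1 m Z)).indicator (fun x => kap J x - (c : ℂ) * kap J0 x) x‖ₑ =
      (Iio (x1 m Z)).indicator (fun x => ‖kap J x - (c : ℂ) * kap J0 x‖ₑ) x := by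
    intro x
    by_cases h : x ∈ Iio (x1 m Z)
    · rw [indicator_of_mem h, indicator_of_mem h]
    · rw [indicator_of_notMem h, indicator_of_notMem h, enorm_zero]
  simp only [e]
  rw [lintegral_indicator measurableSet_Iio]
  have hsub : Iio (x1 m Z) ⊆ Iic (x0 m A) ∪ Icc (x0 m A) (x1 m Z) := by
    intro x hx
    rcases le_total x (x0 m A) with h | h
    · exact Or.inl h
    · exact Or.inr ⟨h, (mem_Iio.mp hx).le⟩
  have hcn : ‖(c : ℂ)‖ₑ ≤ 4 := by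
    rw [← ofReal_norm, Complex.norm_real, Real.norm_eq_abs]
    refine (ENNReal.ofReal_le_ofReal hc).trans ?_
    rw [ENNReal.ofReal_ofNat]
  calc ∫⁻ x in Iio (x1 m Z), ‖kap J x - (c : ℂ) * kap J0 x‖ₑ
      ≤ ∫⁻ x in Iic (x0 m A) ∪ Icc (x0 m A) (x1 m Z), ‖kap J x - (c : ℂ) * kap J0 x‖ₑ :=
        lintegral_mono_set hsub
    _ ≤ (∫⁻ x in Iic (x0 m A), ‖kap J x - (c : ℂ) * kap J0 x‖ₑ) +
        ∫⁻ x in Icc (x0 m A) (x1 m Z), ‖kap J x - (c : ℂ) * kap J0 x‖ₑ :=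
        lintegral_union_le _ _ _
    _ ≤ (∫⁻ x in Iic (x0 m A), (‖kap J x‖ₑ + 4 * ‖kap J0 x‖ₑ)) +
        ENNReal.ofReal (Z ^ (-10 : ℤ)) := by
        gcongr with x
        refine (enorm_sub_le).trans ?_
        rw [enorm_mul]
        gcongr
    _ = (∫⁻ x in Iic (x0 m A), ‖kap J x‖ₑ) + 4 * (∫⁻ x in Iic (x0 m A), ‖kap J0 x‖ₑ) +
        ENNReal.ofReal (Z ^ (-10 : ℤ)) := by
        rw [lintegral_add_left hc1.enorm.measurable, lintegral_const_mul' _ _ (by norm_num)]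
    _ ≤ ENNReal.ofReal (C * Real.exp (-(A / 4))) +
        4 * ENNReal.ofReal (C * Real.exp (-(A / 4))) + ENNReal.ofReal (Z ^ (-10 : ℤ)) := by
        gcongr
    _ = _ := by
        have h4 : (4 : ℝ≥0∞) = ENNReal.ofReal 4 := by rw [ENNReal.ofReal_ofNat]
        rw [h4, ← ENNReal.ofReal_mul (by norm_num), ← ENNReal.ofReal_add (by positivity)
          (by positivity), ← ENNReal.ofReal_add (by positivity) (by positivity)]
        congr 1
        ring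

end WC2_

open WC2_ in
theorem p_WC2 (h1 : T_ZON) (h2 : T_DEE) (h3 : T_ROT) (_h4 : T_CRS) (h5 : T_HKB) : T_WC2 := by
  intro hHANK hCAR
  obtain ⟨B1, hB1, hZON⟩ := h1
  obtain ⟨CD, hCD, hDEE⟩ := h2
  obtain ⟨CH, hCH⟩ := h5 hHANK hCAR
  set B := max B1 2 with hBdef
  set CH' : ℝ≥0 := max CH 1 with hCH'
  set P : ℝ≥0 := (2 * Real.pi).toNNReal with hP
  set Q : ℝ≥0 := (50 * CD ^ 2 + 2).toNNReal with hQ
  refine ⟨2 * (CH' * 4 ^ 2 * P) + 2 * P * Q + 1, B, le_max_of_le_right (by norm_num), ?_⟩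
  intro K A Z m J J' g hA hZ hKZ hK hm hJ hg
  -- the case of a function which is not square integrable
  by_cases hfin : ∑ k ∈ Finset.range K, ∫⁻ v, ‖g k v‖ₑ ^ 2 = ⊤
  · rw [hfin, ENNReal.mul_top]
    · exact le_top
    · rw [Ne, ENNReal.coe_eq_zero]
      exact (by positivity : (0 : ℝ≥0) < 2 * (CH' * 4 ^ 2 * P) + 2 * P * Q + 1).ne'
  have hLp : ∀ k < K, MemLp (g k) 2 volume := by
    intro k hk
    refine ⟨(hg k).aestronglyMeasurable, ?_⟩
    have h6 : ∫⁻ v, ‖g k v‖ₑ ^ 2 ≠ ⊤ := by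
      intro h7
      apply hfin
      rw [ENNReal.sum_eq_top]
      exact ⟨k, Finset.mem_range.mpr hk, h7⟩
    have h8 : ∫⁻ v, ‖g k v‖ₑ ^ 2 = eLpNorm (g k) 2 volume ^ 2 :=
      Pool.Agent.CRR.HANK_.lint_eq (g k)
    rw [h8] at h6
    by_contra h9
    rw [not_lt, top_le_iff] at h9
    rw [h9] at h6
    exact h6 (by simp)
  rcases Nat.eq_zero_or_pos K with hK0 | hK0
  · subst hK0
    simp [WM]
  have hBB : Real.exp (B1 * (4000 + A) ^ 2) ≤ Z := by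
    refine le_trans (Real.exp_le_exp.mpr ?_) hZ
    gcongr
    exact le_max_left _ _
  obtain ⟨hZ2, hm1, h2A⟩ := big hA hB1 hBB hm
  have hJ0 : NSol m (J 0) (J' 0) := by
    have := hJ 0 hK0
    simpa using this
  -- the constants
  have hex : ∀ k : ℕ, ∃ c : ℝ, |c| ≤ 4 ∧ (k < K → ∫⁻ x in Icc (x0 m A) (x1 m Z),
      ‖kap (J k) x - c * kap (J 0) x‖ₑ ≤ ENNReal.ofReal (Z ^ (-10 : ℤ))) := by
    intro k
    by_cases hk : k < K
    · have hkZ : (k : ℝ) ^ 20 ≤ Z := by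
        refine le_trans ?_ hKZ
        gcongr
      obtain ⟨c, hc1, hc2⟩ := hZON m A Z k (J 0) (J' 0) (J k) (J' k) hA hBB hm hkZ hJ0 (hJ k hk)
      exact ⟨c, hc1, fun _ => hc2⟩
    · exact ⟨0, by norm_num, fun h => absurd h hk⟩
  choose c hc1 hc2 using hex
  have hcont : ∀ k < K, Continuous (kap (J k)) := fun k hk =>
    Pool.Agent.CRR.HANK_.kap_cont (hJ k hk).sol
  have hcont0 := hcont 0 hK0
  set r : ℕ → ℝ → ℂ := fun k =>
    (Iio (x1 m Z)).indicator (fun x => kap (J k) x - (c k : ℂ) * kap (J 0) x) with hr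
  have hrm : ∀ k < K, Measurable (r k) := by
    intro k hk
    exact ((hcont k hk).sub (hcont0.const_mul _)).measurable.indicator measurableSet_Iio
  set η := ENNReal.ofReal (5 * (CD * Real.exp (-(A / 4))) + Z ^ (-10 : ℤ)) with hη
  have hrη : ∀ k < K, ∫⁻ x, ‖r k x‖ₑ ≤ η := by
    intro k hk
    exact rem_le hDEE hCD hA hm1 h2A hJ0 (hJ k hk) (hc1 k) (hc2 k hk) (by linarith)
  have hKη : (K : ℝ≥0∞) * η ^ 2 ≤ Q := by
    have h6 := eta_le (K := K) hA (le_max_right B1 2) hZ2 hCD hK hKZ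
    have h7 : (K : ℝ≥0∞) = ENNReal.ofReal K := by rw [ENNReal.ofReal_natCast]
    rw [h7, hη, ← ENNReal.ofReal_pow (by positivity), ← ENNReal.ofReal_mul (by positivity), hQ]
    exact ENNReal.ofReal_le_ofReal h6
  -- the main part
  have hLB : LB (kap (J 0)) := by
    refine ⟨hcont0.measurable, fun a b => ?_⟩
    obtain ⟨M, -, hM⟩ := Pool.Agent.CRR.HANK_.bdd_loc hcont0 a b
    exact ⟨M, hM⟩
  have hHB : HB (kap (J 0)) CH' := by
    intro g hg
    refine (hCH m (J 0) (J' 0) (by linarith) hJ0 g hg).trans ?_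
    gcongr
    exact le_max_left _ _
  have hmain : ∫⁻ u, ∫⁻ φ in Ioc (0 : ℝ) (2 * Real.pi),
      MM K (kap (J 0)) (fun k => (c k : ℂ)) g u φ ^ 2 ≤
      CH' * 4 ^ 2 * ENNReal.ofReal (2 * Real.pi) *
        ∑ k ∈ Finset.range K, ∫⁻ v, ‖g k v‖ₑ ^ 2 := by
    refine h3 CH' 4 (kap (J 0)) K (fun _ => 0) (fun k => (c k : ℂ)) g (le_max_right _ _)
      (by norm_num) hLB hHB measurable_const ?_ hg
    intro k _
    rw [← ofReal_norm, Complex.norm_real, Real.norm_eq_abs]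
    refine (ENNReal.ofReal_le_ofReal (hc1 k)).trans ?_
    rw [ENNReal.ofReal_ofNat]
    exact le_of_eq (by norm_num)
  have hGm : Measurable (GG K r g) := GG_meas hrm fun k _ => hg k
  have hG := GG_le hrm (fun k _ => hg k) hrη
  calc ∫⁻ u, ∫⁻ φ in Ioc (0 : ℝ) (2 * Real.pi),
      WM K (fun k => (Iio (x1 m Z)).indicator (kap (J k))) g u φ ^ 2
      ≤ ∫⁻ u, ∫⁻ φ in Ioc (0 : ℝ) (2 * Real.pi),
        (2 * MM K (kap (J 0)) (fun k => (c k : ℂ)) g u φ ^ 2 + 2 * GG K r g u ^ 2) := by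
        refine lintegral_mono fun u => lintegral_mono fun φ => ?_
        refine le_trans ?_ (Pool.Agent.CRR.HANK_.two _ _)
        gcongr
        exact point (x1 m Z) hcont hcont0 (fun k => (c k : ℂ)) hLp u φ
    _ = ∫⁻ u, ((∫⁻ φ in Ioc (0 : ℝ) (2 * Real.pi),
        2 * MM K (kap (J 0)) (fun k => (c k : ℂ)) g u φ ^ 2) +
          2 * GG K r g u ^ 2 * ENNReal.ofReal (2 * Real.pi)) := by
        refine lintegral_congr fun u => ?_
        rw [lintegral_add_right _ measurable_const, lintegral_const,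
          Measure.restrict_apply MeasurableSet.univ, univ_inter, Real.volume_Ioc, sub_zero]
    _ = 2 * (∫⁻ u, ∫⁻ φ in Ioc (0 : ℝ) (2 * Real.pi),
          MM K (kap (J 0)) (fun k => (c k : ℂ)) g u φ ^ 2) +
        2 * ENNReal.ofReal (2 * Real.pi) * ∫⁻ u, GG K r g u ^ 2 := by
        rw [lintegral_add_right _ (((hGm.pow_const 2).const_mul 2).mul_const _)]
        congr 1
        · rw [← lintegral_const_mul' _ _ (by norm_num)]
          refine lintegral_congr fun u => ?_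
          rw [lintegral_const_mul' _ _ (by norm_num)]
        · rw [← lintegral_const_mul _ (hGm.pow_const 2)]
          refine lintegral_congr fun u => ?_
          ring
    _ ≤ 2 * (CH' * 4 ^ 2 * ENNReal.ofReal (2 * Real.pi) *
          ∑ k ∈ Finset.range K, ∫⁻ v, ‖g k v‖ₑ ^ 2) +
        2 * ENNReal.ofReal (2 * Real.pi) *
          (K * η ^ 2 * ∑ k ∈ Finset.range K, ∫⁻ v, ‖g k v‖ₑ ^ 2) := by
        gcongr
    _ ≤ 2 * (CH' * 4 ^ 2 * P * ∑ k ∈ Finset.range K, ∫⁻ v, ‖g k v‖ₑ ^ 2) +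
        2 * P * (Q * ∑ k ∈ Finset.range K, ∫⁻ v, ‖g k v‖ₑ ^ 2) := by
        rw [hP]
        gcongr
        · exact le_of_eq rfl
        · exact le_of_eq rfl
    _ = ((2 * (CH' * 4 ^ 2 * P) + 2 * P * Q : ℝ≥0) : ℝ≥0∞) *
        ∑ k ∈ Finset.range K, ∫⁻ v, ‖g k v‖ₑ ^ 2 := by
        push_cast
        ring
    _ ≤ _ := by
        refine mul_le_mul_left (ENNReal.coe_le_coe.2 ?_) _
        exact le_self_add

end Pool.Agent.CRW
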