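import Pool.Agent.CRW.Targets2
import Pool.Agent.CRR.P_HANK

set_option autoImplicit false

/-!
# CRW, target WCW: the window theorem
-/

namespace Pool.Agent.CRW

open MeasureTheory FourierTransform Set Filter Topology
open scoped ENNReal NNReal ComplexConjugate
open Pool.Agent.CRN (ci T_CARLS)
open Pool.Agent.CRR (PP Sol NSol kap T_HANK)

namespace WCW_

theorem memLp_two {g : ℝ → ℂ} (hg : Measurable g) (h : ∫⁻ v, ‖g v‖ₑ ^ 2 ≠ ⊤) :
    MemLp g 2 volume := by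
  refine ⟨hg.aestronglyMeasurable, ?_⟩
  rw [Pool.Agent.CRR.HANK_.lint_eq] at h
  exact lt_top_iff_ne_top.2 fun h0 => h (by rw [h0]; simp)

theorem loc_int {κ g : ℝ → ℂ} (hκ : LB κ) (hg : Measurable g) (h2 : ∫⁻ v, ‖g v‖ₑ ^ 2 ≠ ⊤)
    (u a b : ℝ) : IntegrableOn (fun v => κ (u + v) * g v) (Ioc a b) := by
  obtain ⟨M, hM⟩ := hκ.bd (u + a) (u + b)
  have hgi : IntegrableOn g (Ioc a b) :=
    ((memLp_two hg h2).restrict (Ioc a b)).integrable (by norm_num)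
  refine hgi.bdd_mul (c := M)
    (hκ.meas.comp (measurable_const_add u)).aestronglyMeasurable ?_
  rw [ae_restrict_iff' measurableSet_Ioc]
  exact Eventually.of_forall fun v hv => hM _ ⟨by linarith [hv.1], by linarith [hv.2]⟩

/-- the sum inside of the supremum -/
noncomputable def SS (K : ℕ) (κ g : ℕ → ℝ → ℂ) (u φ V1 V2 : ℝ) : ℂ :=
  ∑ k ∈ Finset.range K, ci (k * φ) * ∫ v in Ioc V1 V2, κ k (u + v) * g k v

/-- the same with the oriented integral -/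
noncomputable def SI (K : ℕ) (κ g : ℕ → ℝ → ℂ) (u φ V1 V2 : ℝ) : ℂ :=
  ∑ k ∈ Finset.range K, ci (k * φ) * ∫ v in V1..V2, κ k (u + v) * g k v

theorem WM_eq (K : ℕ) (κ g : ℕ → ℝ → ℂ) (u φ : ℝ) :
    WM K κ g u φ = ⨆ (V1 : ℝ) (V2 : ℝ), ‖SS K κ g u φ V1 V2‖ₑ := rfl

theorem SI_of_le {K : ℕ} {κ g : ℕ → ℝ → ℂ} {u φ V1 V2 : ℝ} (h : V1 ≤ V2) :
    SI K κ g u φ V1 V2 = SS K κ g u φ V1 V2 := by
  unfold SI SS
  refine Finset.sum_congr rfl fun k _ => ?_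
  rw [intervalIntegral.integral_of_le h]

theorem SI_symm {K : ℕ} {κ g : ℕ → ℝ → ℂ} {u φ V1 V2 : ℝ} :
    SI K κ g u φ V1 V2 = -SI K κ g u φ V2 V1 := by
  unfold SI
  rw [← Finset.sum_neg_distrib]
  refine Finset.sum_congr rfl fun k _ => ?_
  rw [intervalIntegral.integral_symm, mul_neg]

theorem SS_of_ge {K : ℕ} {κ g : ℕ → ℝ → ℂ} {u φ V1 V2 : ℝ} (h : V2 ≤ V1) :
    SS K κ g u φ V1 V2 = 0 := by
  unfold SS
  refine Finset.sum_eq_zero fun k _ => ?_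
  rw [Ioc_eq_empty (not_lt.2 h)]
  simp

theorem SI_cont {K : ℕ} {κ g : ℕ → ℝ → ℂ} {u : ℝ} (φ : ℝ)
    (hi : ∀ k < K, ∀ a b : ℝ, IntegrableOn (fun v => κ k (u + v) * g k v) (Ioc a b)) :
    Continuous fun p : ℝ × ℝ => SI K κ g u φ p.1 p.2 := by
  unfold SI
  refine continuous_finsetSum _ fun k hk => continuous_const.mul ?_
  have hII : ∀ a b : ℝ, IntervalIntegrable (fun v => κ k (u + v) * g k v) volume a b :=
    fun a b => ⟨hi k (Finset.mem_range.1 hk) a b, hi k (Finset.mem_range.1 hk) b a⟩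
  have hF := intervalIntegral.continuous_primitive hII 0
  have e : ∀ p : ℝ × ℝ, ∫ v in p.1..p.2, κ k (u + v) * g k v =
      (∫ v in (0 : ℝ)..p.2, κ k (u + v) * g k v) - ∫ v in (0 : ℝ)..p.1, κ k (u + v) * g k v := by
    intro p
    rw [intervalIntegral.integral_interval_sub_left (hII _ _) (hII _ _)]
  simp only [e]
  exact (hF.comp continuous_snd).sub (hF.comp continuous_fst)

theorem WM_rat {K : ℕ} {κ g : ℕ → ℝ → ℂ} {u : ℝ} (φ : ℝ)
    (hi : ∀ k < K, ∀ a b : ℝ, IntegrableOn (fun v => κ k (u + v) * g k v) (Ioc a b)) :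
    WM K κ g u φ = ⨆ q : ℚ × ℚ, ‖SS K κ g u φ (q.1 : ℝ) (q.2 : ℝ)‖ₑ := by
  rw [WM_eq]
  refine le_antisymm ?_ ?_
  · set M : ℝ≥0∞ := ⨆ q : ℚ × ℚ, ‖SS K κ g u φ (q.1 : ℝ) (q.2 : ℝ)‖ₑ with hM
    have hall : ∀ a b : ℝ, ‖SI K κ g u φ a b‖ₑ ≤ M := by
      intro a b
      refine Rat.denseRange_cast.induction_on₂ (p := fun a b : ℝ => ‖SI K κ g u φ a b‖ₑ ≤ M)
        (isClosed_le (SI_cont φ hi).enorm continuous_const) (fun q1 q2 => ?_) a b
      rcases le_total (q1 : ℝ) (q2 : ℝ) with h | h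
      · rw [SI_of_le h]
        exact le_iSup (fun q : ℚ × ℚ => ‖SS K κ g u φ (q.1 : ℝ) (q.2 : ℝ)‖ₑ) (q1, q2)
      · rw [SI_symm, enorm_neg, SI_of_le h]
        exact le_iSup (fun q : ℚ × ℚ => ‖SS K κ g u φ (q.1 : ℝ) (q.2 : ℝ)‖ₑ) (q2, q1)
    refine iSup₂_le fun V1 V2 => ?_
    rcases le_total V1 V2 with h | h
    · rw [← SI_of_le h]
      exact hall V1 V2
    · rw [SS_of_ge h, enorm_zero]
      exact zero_le
  · exact iSup_le fun q => le_iSup₂ (f := fun V1 V2 : ℝ => ‖SS K κ g u φ V1 V2‖ₑ) (q.1 : ℝ) (q.2 : ℝ)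

theorem ci_cont : Continuous ci := by
  unfold ci
  fun_prop

theorem SS_meas {K : ℕ} {κ g : ℕ → ℝ → ℂ} (hκ : ∀ k < K, Measurable (κ k))
    (hg : ∀ k, Measurable (g k)) (V1 V2 : ℝ) :
    Measurable fun p : ℝ × ℝ => SS K κ g p.1 p.2 V1 V2 := by
  unfold SS
  refine Finset.measurable_fun_sum _ fun k hk => ?_
  have h1 : Measurable fun p : ℝ × ℝ => ci (k * p.2) :=
    (ci_cont.comp (continuous_const.mul continuous_snd)).measurable
  have h2 : StronglyMeasurable fun u : ℝ => ∫ v in Ioc V1 V2, κ k (u + v) * g k v := by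
    refine StronglyMeasurable.integral_prod_right (f := fun u v => κ k (u + v) * g k v) ?_
    have h3 : Measurable fun p : ℝ × ℝ => κ k (p.1 + p.2) * g k p.2 :=
      ((hκ k (Finset.mem_range.1 hk)).comp (measurable_fst.add measurable_snd)).mul
        ((hg k).comp measurable_snd)
    exact h3.stronglyMeasurable
  exact h1.mul (h2.measurable.comp measurable_fst)

theorem WM_meas {K : ℕ} {κ g : ℕ → ℝ → ℂ} (hκ : ∀ k < K, LB (κ k))
    (hg : ∀ k, Measurable (g k)) (h2 : ∀ k < K, ∫⁻ v, ‖g k v‖ₑ ^ 2 ≠ ⊤) :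
    Measurable fun p : ℝ × ℝ => WM K κ g p.1 p.2 := by
  have e : (fun p : ℝ × ℝ => WM K κ g p.1 p.2) = fun p : ℝ × ℝ =>
      ⨆ q : ℚ × ℚ, ‖SS K κ g p.1 p.2 (q.1 : ℝ) (q.2 : ℝ)‖ₑ := by
    funext p
    exact WM_rat p.2 fun k hk a b => loc_int (hκ k hk) (hg k) (h2 k hk) _ _ _
  rw [e]
  exact Measurable.iSup fun q => (SS_meas (fun k hk => (hκ k hk).meas) hg _ _).enorm

theorem WM_add {K : ℕ} {κ κ1 κ2 g : ℕ → ℝ → ℂ} (h : ∀ k x, κ k x = κ1 k x + κ2 k x)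
    (hκ1 : ∀ k < K, LB (κ1 k)) (hκ2 : ∀ k < K, LB (κ2 k)) (hg : ∀ k, Measurable (g k))
    (h2 : ∀ k < K, ∫⁻ v, ‖g k v‖ₑ ^ 2 ≠ ⊤) (u φ : ℝ) :
    WM K κ g u φ ≤ WM K κ1 g u φ + WM K κ2 g u φ := by
  rw [WM_eq]
  refine iSup₂_le fun V1 V2 => ?_
  have e : SS K κ g u φ V1 V2 = SS K κ1 g u φ V1 V2 + SS K κ2 g u φ V1 V2 := by
    unfold SS
    rw [← Finset.sum_add_distrib]
    refine Finset.sum_congr rfl fun k hk => ?_
    have hk' := Finset.mem_range.1 hk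
    rw [← mul_add, ← integral_add (loc_int (hκ1 k hk') (hg k) (h2 k hk') _ _ _)
      (loc_int (hκ2 k hk') (hg k) (h2 k hk') _ _ _)]
    congr 1
    refine integral_congr_ae (Eventually.of_forall fun v => ?_)
    simp only [h]
    ring
  rw [e]
  refine (enorm_add_le _ _).trans (add_le_add ?_ ?_)
  · exact le_iSup₂ (f := fun V1 V2 : ℝ => ‖SS K κ1 g u φ V1 V2‖ₑ) V1 V2
  · exact le_iSup₂ (f := fun V1 V2 : ℝ => ‖SS K κ2 g u φ V1 V2‖ₑ) V1 V2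

theorem LB_kap {ν : ℝ} {J J' : ℝ → ℝ} (h : NSol ν J J') (s : Set ℝ) (hs : MeasurableSet s) :
    LB (s.indicator (kap J)) := by
  have hc := Pool.Agent.CRR.HANK_.kap_cont h.sol
  refine ⟨hc.measurable.indicator hs, fun a b => ?_⟩
  obtain ⟨M, -, hM⟩ := Pool.Agent.CRR.HANK_.bdd_loc hc a b
  exact ⟨M, fun x hx => (norm_indicator_le_norm_self _ _).trans (hM x hx)⟩

/-- the double integral -/
noncomputable def II (K : ℕ) (κ g : ℕ → ℝ → ℂ) : ℝ≥0∞ :=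
  ∫⁻ u, ∫⁻ φ in Ioc (0 : ℝ) (2 * Real.pi), WM K κ g u φ ^ 2

theorem int_add (ν : Measure ℝ) [SFinite ν] (F G H : ℝ → ℝ → ℝ≥0∞)
    (hG : Measurable fun p : ℝ × ℝ => G p.1 p.2) (h : ∀ u φ, F u φ ≤ G u φ + H u φ) :
    ∫⁻ u, ∫⁻ φ, F u φ ^ 2 ∂ν ≤
      2 * (∫⁻ u, ∫⁻ φ, G u φ ^ 2 ∂ν) + 2 * ∫⁻ u, ∫⁻ φ, H u φ ^ 2 ∂ν := by
  have hm1 : Measurable fun p : ℝ × ℝ => G p.1 p.2 ^ 2 := hG.pow_const 2
  have hmu : ∀ u, Measurable fun φ => G u φ ^ 2 := fun u =>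
    hm1.comp (measurable_const.prodMk measurable_id : Measurable fun φ : ℝ => (u, φ))
  have hmi : Measurable fun u => ∫⁻ φ, G u φ ^ 2 ∂ν :=
    Measurable.lintegral_prod_right' (f := fun p : ℝ × ℝ => G p.1 p.2 ^ 2) hm1
  calc ∫⁻ u, ∫⁻ φ, F u φ ^ 2 ∂ν
      ≤ ∫⁻ u, ∫⁻ φ, (2 * G u φ ^ 2 + 2 * H u φ ^ 2) ∂ν := by
        refine lintegral_mono fun u => lintegral_mono fun φ => ?_
        exact (pow_le_pow_left' (h u φ) 2).trans (Pool.Agent.CRR.HANK_.two _ _)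
    _ = ∫⁻ u, (2 * (∫⁻ φ, G u φ ^ 2 ∂ν) + 2 * ∫⁻ φ, H u φ ^ 2 ∂ν) := by
        refine lintegral_congr fun u => ?_
        rw [lintegral_add_left ((hmu u).const_mul 2), lintegral_const_mul' _ _ (by norm_num),
          lintegral_const_mul' _ _ (by norm_num)]
    _ = _ := by
        rw [lintegral_add_left (hmi.const_mul 2), lintegral_const_mul' _ _ (by norm_num),
          lintegral_const_mul' _ _ (by norm_num)]

theorem II_add {K : ℕ} {κ κ1 κ2 g : ℕ → ℝ → ℂ} (h : ∀ k x, κ k x = κ1 k x + κ2 k x)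
    (hκ1 : ∀ k < K, LB (κ1 k)) (hκ2 : ∀ k < K, LB (κ2 k)) (hg : ∀ k, Measurable (g k))
    (h2 : ∀ k < K, ∫⁻ v, ‖g k v‖ₑ ^ 2 ≠ ⊤) :
    II K κ g ≤ 2 * II K κ1 g + 2 * II K κ2 g :=
  int_add (volume.restrict (Ioc (0 : ℝ) (2 * Real.pi))) (WM K κ g) (WM K κ1 g) (WM K κ2 g)
    (WM_meas hκ1 hg h2) fun u φ => WM_add h hκ1 hκ2 hg h2 u φ

/-- the turning zone is below `100 log Z` for small orders -/
theorem x1_le {m Z : ℝ} (hm : 0 ≤ m) (hZ : 2 ≤ Z) (h : 2 * m < Z ^ 100) :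
    x1 m Z ≤ 100 * Real.log Z := by
  have hZ0 : 0 < Z := by linarith
  have hZ1 : 1 ≤ Z := by linarith
  have h2 : 2 ≤ Z ^ 100 := by
    calc (2 : ℝ) ≤ Z := hZ
      _ = Z ^ 1 := (pow_one Z).symm
      _ ≤ Z ^ 100 := pow_le_pow_right₀ hZ1 (by norm_num)
  have h3 : (1 + m) ^ (1 / 3 : ℝ) ≤ Z ^ 34 := by
    have h4 : (1 + m) ≤ Z ^ 102 := by
      calc 1 + m ≤ Z ^ 100 := by linarith
        _ ≤ Z ^ 102 := pow_le_pow_right₀ hZ1 (by norm_num)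
    have h5 : (1 + m) ^ (1 / 3 : ℝ) ≤ (Z ^ 102) ^ (1 / 3 : ℝ) :=
      Real.rpow_le_rpow (by linarith) h4 (by norm_num)
    refine h5.trans (le_of_eq ?_)
    rw [← Real.rpow_natCast Z 102, ← Real.rpow_mul hZ0.le, ← Real.rpow_natCast Z 34]
    norm_num
  have h6 : Z * (1 + m) ^ (1 / 3 : ℝ) ≤ Z ^ 100 / 2 := by
    have h7 : Z * (1 + m) ^ (1 / 3 : ℝ) ≤ Z * Z ^ 34 := mul_le_mul_of_nonneg_left h3 hZ0.le
    have h8 : Z * Z ^ 34 * 2 ≤ Z ^ 100 := by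
      calc Z * Z ^ 34 * 2 ≤ Z * Z ^ 34 * Z := mul_le_mul_of_nonneg_left hZ (by positivity)
        _ = Z ^ 36 := by ring
        _ ≤ Z ^ 100 := pow_le_pow_right₀ hZ1 (by norm_num)
    linarith
  have h9 : 0 < m + Z * (1 + m) ^ (1 / 3 : ℝ) := by positivity
  unfold x1
  calc Real.log (m + Z * (1 + m) ^ (1 / 3 : ℝ)) ≤ Real.log (Z ^ 100) :=
        Real.log_le_log h9 (by linarith)
    _ = 100 * Real.log Z := by
        rw [Real.log_pow]
        norm_num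

end WCW_

open WCW_ in
/-- WCW. -/
theorem p_WCW (h1 : T_WC1) (h2 : T_WC2) : T_WCW := by
  intro hH hC
  obtain ⟨C1, Z0, hW1⟩ := h1 hC
  obtain ⟨C2, B2, hB2, hW2⟩ := h2 hH hC
  have hab : 0 ≤ |Z0| := abs_nonneg _
  set B : ℝ := B2 * (4000 + B2) ^ 2 + 20 + |Z0| with hB
  have hBp : 0 ≤ B2 * (4000 + B2) ^ 2 := by positivity
  refine ⟨2 * C1 + 2 * C2 + 1, B, by linarith, ?_⟩
  intro K δ v0 m J J' g hK hδ hδZ hm hN hg hsupp
  have hK1 : (1 : ℝ) ≤ K := by exact_mod_cast hK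
  have hl0 : 0 ≤ Real.log K := Real.log_nonneg hK1
  set Λ : ℝ := 1 + Real.log K with hΛ
  have hΛ1 : 1 ≤ Λ := by linarith
  have hΛ2 : Λ ≤ Λ ^ 2 := by nlinarith
  set Z : ℝ := Real.exp (B * Λ ^ 2) with hZ
  have hlogZ : Real.log Z = B * Λ ^ 2 := Real.log_exp _
  have hBΛ : B ≤ B * Λ ^ 2 := by nlinarith
  have hZB : B + 1 ≤ Z := by
    have := Real.add_one_le_exp (B * Λ ^ 2)
    linarith
  have hZ2 : 2 ≤ Z := by linarith
  have hZZ0 : Z0 ≤ Z := by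
    have := le_abs_self Z0
    linarith
  have hKexp : (K : ℝ) = Real.exp (Real.log K) := (Real.exp_log (by linarith)).symm
  have hK20 : (K : ℝ) ^ 20 ≤ Z := by
    rw [hKexp, ← Real.exp_nat_mul, hZ]
    refine Real.exp_le_exp.2 ?_
    push_cast
    nlinarith
  have hx : Real.exp (B2 * (4000 + B2 * Λ) ^ 2) ≤ Z := by
    rw [hZ]
    refine Real.exp_le_exp.2 ?_
    have e1 : 4000 + B2 * Λ ≤ (4000 + B2) * Λ := by nlinarith
    have e2 : (4000 + B2 * Λ) ^ 2 ≤ ((4000 + B2) * Λ) ^ 2 :=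
      pow_le_pow_left₀ (by positivity) e1 2
    calc B2 * (4000 + B2 * Λ) ^ 2 ≤ B2 * ((4000 + B2) * Λ) ^ 2 :=
          mul_le_mul_of_nonneg_left e2 (by linarith)
      _ = B2 * (4000 + B2) ^ 2 * Λ ^ 2 := by ring
      _ ≤ B * Λ ^ 2 := mul_le_mul_of_nonneg_right (by linarith) (by positivity)
  have hKA : (K : ℝ) ≤ Real.exp (B2 * Λ / B2) := by
    rw [mul_div_cancel_left₀ _ (by linarith : B2 ≠ 0)]
    calc (K : ℝ) = Real.exp (Real.log K) := hKexp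
      _ ≤ Real.exp Λ := Real.exp_le_exp.2 (by linarith)
  by_cases hfin : ∑ k ∈ Finset.range K, ∫⁻ v, ‖g k v‖ₑ ^ 2 = ⊤
  · rw [hfin, ENNReal.mul_top]
    · exact le_top
    · push_cast
      positivity
  have hfk : ∀ k < K, ∫⁻ v, ‖g k v‖ₑ ^ 2 ≠ ⊤ := fun k hk h0 =>
    hfin (ENNReal.sum_eq_top.2 ⟨k, Finset.mem_range.2 hk, h0⟩)
  have hw1 := hW1 K Z δ v0 m J J' g hZZ0 hK20 hδ hδZ hm hN hg hsupp
  by_cases hcase : Z ^ 100 ≤ 2 * m
  · have hw2 := hW2 K (B2 * Λ) Z m J J' g (by nlinarith) hx hK20 hKA hcase hN hg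
    have hadd := II_add (K := K) (κ := fun k => kap (J k))
      (κ1 := fun k => (Ici (x1 m Z)).indicator (kap (J k)))
      (κ2 := fun k => (Iio (x1 m Z)).indicator (kap (J k))) (g := g)
      (fun k x => by
        rcases le_or_gt (x1 m Z) x with h | h
        · rw [indicator_of_mem (show x ∈ Ici (x1 m Z) from h),
            indicator_of_notMem (show x ∉ Iio (x1 m Z) from not_lt.2 h), add_zero]
        · rw [indicator_of_notMem (show x ∉ Ici (x1 m Z) from not_le.2 h),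
            indicator_of_mem (show x ∈ Iio (x1 m Z) from h), zero_add])
      (fun k hk => LB_kap (hN k hk) _ measurableSet_Ici)
      (fun k hk => LB_kap (hN k hk) _ measurableSet_Iio) hg hfk
    calc ∫⁻ u in Ici (100 * (B * Λ ^ 2) - v0), ∫⁻ φ in Ioc (0 : ℝ) (2 * Real.pi),
          WM K (fun k => kap (J k)) g u φ ^ 2 ≤ II K (fun k => kap (J k)) g :=
          setLIntegral_le_lintegral _ _
      _ ≤ _ := hadd
      _ ≤ 2 * (C1 * ∑ k ∈ Finset.range K, ∫⁻ v, ‖g k v‖ₑ ^ 2) +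
          2 * (C2 * ∑ k ∈ Finset.range K, ∫⁻ v, ‖g k v‖ₑ ^ 2) :=
          add_le_add (mul_le_mul_right hw1 _) (mul_le_mul_right hw2 _)
      _ = ((2 * C1 + 2 * C2 : ℝ≥0) : ℝ≥0∞) * ∑ k ∈ Finset.range K, ∫⁻ v, ‖g k v‖ₑ ^ 2 := by
          push_cast
          ring
      _ ≤ _ := mul_le_mul_left (ENNReal.coe_le_coe.2 le_self_add) _
  · have hx1 := x1_le hm hZ2 (not_le.1 hcase)
    rw [hlogZ] at hx1
    have heq : ∀ u ∈ Ici (100 * (B * Λ ^ 2) - v0), ∀ φ,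
        WM K (fun k => kap (J k)) g u φ =
          WM K (fun k => (Ici (x1 m Z)).indicator (kap (J k))) g u φ := by
      intro u hu φ
      have hu' : 100 * (B * Λ ^ 2) - v0 ≤ u := hu
      have e : ∀ k v, kap (J k) (u + v) * g k v =
          (Ici (x1 m Z)).indicator (kap (J k)) (u + v) * g k v := by
        intro k v
        by_cases hv : v ∈ Ioc v0 (v0 + δ)
        · rw [indicator_of_mem (show u + v ∈ Ici (x1 m Z) by
            have := hv.1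
            show x1 m Z ≤ u + v
            linarith)]
        · rw [hsupp k v hv, mul_zero, mul_zero]
      unfold WM
      simp only [e]
    calc ∫⁻ u in Ici (100 * (B * Λ ^ 2) - v0), ∫⁻ φ in Ioc (0 : ℝ) (2 * Real.pi),
          WM K (fun k => kap (J k)) g u φ ^ 2
        = ∫⁻ u in Ici (100 * (B * Λ ^ 2) - v0), ∫⁻ φ in Ioc (0 : ℝ) (2 * Real.pi),
          WM K (fun k => (Ici (x1 m Z)).indicator (kap (J k))) g u φ ^ 2 := by
          refine setLIntegral_congr_fun measurableSet_Ici fun u hu => ?_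
          refine lintegral_congr fun φ => ?_
          rw [heq u hu φ]
      _ ≤ ∫⁻ u, ∫⁻ φ in Ioc (0 : ℝ) (2 * Real.pi),
          WM K (fun k => (Ici (x1 m Z)).indicator (kap (J k))) g u φ ^ 2 :=
          setLIntegral_le_lintegral _ _
      _ ≤ C1 * ∑ k ∈ Finset.range K, ∫⁻ v, ‖g k v‖ₑ ^ 2 := hw1
      _ ≤ _ := by
          refine mul_le_mul_left (ENNReal.coe_le_coe.2 ?_) _
          calc C1 ≤ 2 * C1 := le_mul_of_one_le_left zero_le (by norm_num)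
            _ ≤ 2 * C1 + (2 * C2 + 1) := le_self_add
            _ = 2 * C1 + 2 * C2 + 1 := by ring

end Pool.Agent.CRW
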