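import Pool.Agent.CRW.P_DRI

set_option autoImplicit false

/-!
# CRW: the Wronskian of two orders (target WRO)
-/

namespace Pool.Agent.CRW

open MeasureTheory FourierTransform Set Filter Topology
open scoped ENNReal NNReal ComplexConjugate
open Pool.Agent.CRR (PP Sol xc E2 NSol T_SEQ T_INF T_ENR)

namespace WRO_

lemma pow43 {ν s : ℝ} (hν : 0 < ν) (hs : s = ν ^ (1 / 3 : ℝ)) :
    ν ^ (-(4 / 3) : ℝ) = 1 / s ^ 4 ∧ ν ^ (-(1 / 3) : ℝ) = 1 / s := by
  constructor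
  · rw [Real.rpow_neg hν.le, one_div, hs, ← Real.rpow_natCast, ← Real.rpow_mul hν.le]
    norm_num
  · rw [Real.rpow_neg hν.le, ← hs, one_div]

lemma xc_ge {ν μ : ℝ} (hν : 1 ≤ ν) (hμ : ν ≤ μ) : Real.log ν ≤ xc μ := by
  unfold xc
  apply Real.log_le_log (by linarith)
  have := (DRI_.cube (show (0 : ℝ) ≤ 1 + μ by linarith)).1
  linarith

lemma len {ν μ s : ℝ} (hν : 1 ≤ ν) (hμ : ν ≤ μ) (hs : s = ν ^ (1 / 3 : ℝ)) :
    x1 ν 4000 - xc μ ≤ 5200 / s ^ 2 := by
  obtain ⟨hs0, hs3⟩ := DRI_.cube (show (0 : ℝ) ≤ ν by linarith)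
  rw [← hs] at hs0 hs3
  obtain ⟨hT0, hT3⟩ := DRI_.cube (show (0 : ℝ) ≤ 1 + ν by linarith)
  set T : ℝ := (1 + ν) ^ (1 / 3 : ℝ) with hT
  have hs1 : 1 ≤ s := DRI_.le_of_cube hs0 (by rw [hs3]; simpa using hν)
  have hTs : T ≤ 13 / 10 * s := by
    refine DRI_.le_of_cube (by positivity) ?_
    rw [hT3, mul_pow, hs3]
    linarith
  have hν0 : 0 < ν := by linarith
  have h1 : x1 ν 4000 - Real.log ν ≤ 4000 * T / ν := by
    unfold x1
    rw [← hT, ← Real.log_div (by positivity) hν0.ne']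
    refine (Real.log_le_sub_one_of_pos (by positivity)).trans (le_of_eq ?_)
    field_simp
    ring
  have h2 : 4000 * T / ν ≤ 5200 / s ^ 2 := by
    rw [div_le_div_iff₀ hν0 (by positivity), ← hs3]
    have : 4000 * T * s ^ 2 ≤ 4000 * (13 / 10 * s) * s ^ 2 := by gcongr
    nlinarith
  have h3 := xc_ge hν hμ
  linarith

lemma pt_bd {ν μ s x : ℝ} {J J' : ℝ → ℝ} (h1 : T_SEQ) (h3 : T_ENR) (hν : 1 ≤ ν) (hμ : ν ≤ μ)
    (hs : s = ν ^ (1 / 3 : ℝ)) (hJ : NSol μ J J') (hx : xc μ ≤ x) :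
    J x ^ 2 ≤ 1 / (5 * s ^ 2) := by
  have hν0 : 0 < ν := by linarith
  have hs0 : 0 < s := by
    rw [hs]
    exact Real.rpow_pos_of_pos hν0 _
  have hP := ((h1 μ (by linarith)).1 x hx).1
  have h4 := h3 μ J J' x (xc μ) (by linarith) hJ.sol hx le_rfl
  rw [hJ.nrm] at h4
  unfold E2 at h4
  have e : s ^ 4 ≤ Real.exp (4 * x / 3) := by
    have hl : Real.log ν ≤ x := (xc_ge hν hμ).trans hx
    have : s ^ 4 = Real.exp (4 * Real.log ν / 3) := by
      rw [hs, Real.rpow_def_of_pos hν0, ← Real.exp_nat_mul]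
      congr 1
      push_cast
      ring
    rw [this]
    apply Real.exp_le_exp.2
    linarith
  have h5 : 10 * s ^ 2 ≤ Real.sqrt (PP μ x) := by
    refine Real.le_sqrt_of_sq_le ?_
    calc (10 * s ^ 2) ^ 2 = 100 * s ^ 4 := by ring
      _ ≤ 100 * Real.exp (4 * x / 3) := by gcongr
      _ ≤ PP μ x := hP
  have h6 : 0 ≤ J' x ^ 2 / Real.sqrt (PP μ x) := by positivity
  have h7 : 10 * s ^ 2 * J x ^ 2 ≤ Real.sqrt (PP μ x) * J x ^ 2 := by gcongr
  rw [le_div_iff₀ (by positivity)]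
  linarith

lemma sqint {ν μ C : ℝ} {J J' : ℝ → ℝ} (h1 : T_SEQ) (h3 : T_ENR) (hC : 0 < C)
    (hν : 1 ≤ ν) (hμ : ν ≤ μ) (hJ : NSol μ J J')
    (h4 : ∫⁻ x in Iic (xc μ), ENNReal.ofReal (J x ^ 2) ≤ ENNReal.ofReal (C * μ ^ (-(4 / 3) : ℝ))) :
    ∫⁻ x in Iic (x1 ν 4000), ENNReal.ofReal (J x ^ 2) ≤
      ENNReal.ofReal ((C + 1040) * ν ^ (-(4 / 3) : ℝ)) := by
  obtain ⟨s, hs⟩ : ∃ s : ℝ, s = ν ^ (1 / 3 : ℝ) := ⟨_, rfl⟩
  have hν0 : 0 < ν := by linarith
  have hs0 : 0 < s := by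
    rw [hs]
    exact Real.rpow_pos_of_pos hν0 _
  have e4 := (pow43 hν0 hs).1
  have hmono : μ ^ (-(4 / 3) : ℝ) ≤ ν ^ (-(4 / 3) : ℝ) :=
    Real.rpow_le_rpow_of_nonpos hν0 hμ (by norm_num)
  have hII : ∫⁻ x in Icc (xc μ) (x1 ν 4000), ENNReal.ofReal (J x ^ 2) ≤
      ENNReal.ofReal (1040 * ν ^ (-(4 / 3) : ℝ)) := by
    calc ∫⁻ x in Icc (xc μ) (x1 ν 4000), ENNReal.ofReal (J x ^ 2)
        ≤ ∫⁻ _x in Icc (xc μ) (x1 ν 4000), ENNReal.ofReal (1 / (5 * s ^ 2)) := by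
          refine setLIntegral_mono' measurableSet_Icc fun x hx => ENNReal.ofReal_le_ofReal ?_
          exact pt_bd h1 h3 hν hμ hs hJ hx.1
      _ = ENNReal.ofReal (1 / (5 * s ^ 2) * (x1 ν 4000 - xc μ)) := by
          rw [setLIntegral_const, Real.volume_Icc, ← ENNReal.ofReal_mul (by positivity)]
      _ ≤ ENNReal.ofReal (1040 * ν ^ (-(4 / 3) : ℝ)) := by
          apply ENNReal.ofReal_le_ofReal
          refine (mul_le_mul_of_nonneg_left (len hν hμ hs) (by positivity)).trans (le_of_eq ?_)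
          rw [e4]
          field_simp
          norm_num
  calc ∫⁻ x in Iic (x1 ν 4000), ENNReal.ofReal (J x ^ 2)
      ≤ ∫⁻ x in Iic (xc μ) ∪ Icc (xc μ) (x1 ν 4000), ENNReal.ofReal (J x ^ 2) := by
        apply lintegral_mono_set
        intro x hx
        rcases le_or_gt x (xc μ) with h5 | h5
        · exact Or.inl h5
        · exact Or.inr ⟨h5.le, hx⟩
    _ ≤ (∫⁻ x in Iic (xc μ), ENNReal.ofReal (J x ^ 2)) +
          ∫⁻ x in Icc (xc μ) (x1 ν 4000), ENNReal.ofReal (J x ^ 2) := lintegral_union_le _ _ _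
    _ ≤ ENNReal.ofReal (C * ν ^ (-(4 / 3) : ℝ)) + ENNReal.ofReal (1040 * ν ^ (-(4 / 3) : ℝ)) := by
        refine add_le_add (h4.trans (ENNReal.ofReal_le_ofReal ?_)) hII
        gcongr
    _ = ENNReal.ofReal ((C + 1040) * ν ^ (-(4 / 3) : ℝ)) := by
        rw [← ENNReal.ofReal_add (by positivity) (by positivity)]
        congr 1
        ring

lemma real_int {f : ℝ → ℝ} (hf : Continuous f) {a M y : ℝ} (hM : 0 ≤ M)
    (h : ∫⁻ x in Iic a, ENNReal.ofReal (f x ^ 2) ≤ ENNReal.ofReal M) (hy : y ≤ a) :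
    ∫ t in y..a, f t ^ 2 ≤ M := by
  rw [intervalIntegral.integral_of_le hy,
    integral_eq_lintegral_of_nonneg_ae (ae_of_all _ fun t => sq_nonneg _)
      (hf.pow 2).aestronglyMeasurable]
  exact ENNReal.toReal_le_of_le_ofReal hM ((lintegral_mono_set Ioc_subset_Iic_self).trans h)

end WRO_

open WRO_ in
/-- WRO. -/
theorem p_WRO (h1 : T_SEQ) (h2 : T_INF) (h3 : T_ENR) (h4 : T_JUP) : T_WRO := by
  obtain ⟨C, hC, hJUP⟩ := h4
  refine ⟨3 * (C + 1040), by positivity, ?_⟩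
  intro ν k J0 J0' J J' hν hk hJ0 hJ
  obtain ⟨s, hs⟩ : ∃ s : ℝ, s = ν ^ (1 / 3 : ℝ) := ⟨_, rfl⟩
  have hν0 : 0 < ν := by linarith
  have hk0 : (0 : ℝ) ≤ k := Nat.cast_nonneg k
  have hμ : ν ≤ ν + k := by linarith
  obtain ⟨hs0', hs3⟩ := DRI_.cube hν0.le
  rw [← hs] at hs0' hs3
  have hs1 : 1 ≤ s := DRI_.le_of_cube hs0' (by rw [hs3]; simpa using hν)
  have hs0 : 0 < s := by linarith
  have hks : (k : ℝ) ≤ s := DRI_.le_of_cube hs0' (by rw [hs3]; exact hk)
  obtain ⟨e4, e1⟩ := pow43 hν0 hs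
  obtain ⟨a, ha⟩ : ∃ a : ℝ, a = x1 ν 4000 := ⟨_, rfl⟩
  obtain ⟨M, hM⟩ : ∃ M : ℝ, M = (C + 1040) * ν ^ (-(4 / 3) : ℝ) := ⟨_, rfl⟩
  have hM0 : 0 ≤ M := by rw [hM]; positivity
  have i0 := sqint h1 h3 hC hν le_rfl hJ0 (hJUP ν J0 J0' hν hJ0).2
  have i1 := sqint h1 h3 hC hν hμ hJ (hJUP (ν + k) J J' (by linarith) hJ).2
  rw [← ha, ← hM] at i0 i1
  have c0 : Continuous J0 := continuous_iff_continuousAt.2 fun x => (hJ0.sol.d1 x).continuousAt
  have c1 : Continuous J := continuous_iff_continuousAt.2 fun x => (hJ.sol.d1 x).continuousAt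
  obtain ⟨q, hq⟩ : ∃ q : ℝ, q = 2 * ν * k + k ^ 2 := ⟨_, rfl⟩
  have hq0 : 0 ≤ q := by rw [hq]; positivity
  let W : ℝ → ℝ := fun x => J0 x * J' x - J0' x * J x
  have hW : ∀ x, HasDerivAt W (q * (J0 x * J x)) x := by
    intro x
    have d := ((hJ0.sol.d1 x).mul (hJ.sol.d2 x)).sub ((hJ0.sol.d2 x).mul (hJ.sol.d1 x))
    refine d.congr_deriv ?_
    rw [hq]
    unfold PP
    ring
  have hb : ∀ y ≤ a, |W a| ≤ |W y| + q * M := by
    intro y hy
    have hcont : Continuous fun x => q * (J0 x * J x) := continuous_const.mul (c0.mul c1)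
    have hint := intervalIntegral.integral_eq_sub_of_hasDerivAt (fun x _ => hW x)
      (hcont.intervalIntegrable y a)
    have hle : |∫ t in y..a, q * (J0 t * J t)| ≤ q * M := by
      calc |∫ t in y..a, q * (J0 t * J t)|
          ≤ ∫ t in y..a, |q * (J0 t * J t)| := intervalIntegral.abs_integral_le_integral_abs hy
        _ ≤ ∫ t in y..a, q / 2 * (J0 t ^ 2 + J t ^ 2) := by
            refine intervalIntegral.integral_mono_on hy (hcont.abs.intervalIntegrable y a) ?_ ?_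
            · exact (continuous_const.mul ((c0.pow 2).add (c1.pow 2))).intervalIntegrable y a
            · intro t _
              rw [abs_mul, abs_of_nonneg hq0, div_mul_eq_mul_div, le_div_iff₀ (by norm_num), mul_assoc]
              refine mul_le_mul_of_nonneg_left ?_ hq0
              rw [abs_mul, ← sq_abs (J0 t), ← sq_abs (J t)]
              nlinarith [sq_nonneg (|J0 t| - |J t|)]
        _ = q / 2 * ((∫ t in y..a, J0 t ^ 2) + ∫ t in y..a, J t ^ 2) := by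
            have j0 : IntervalIntegrable (fun t => J0 t ^ 2) volume y a :=
              (c0.pow 2).intervalIntegrable y a
            have j1 : IntervalIntegrable (fun t => J t ^ 2) volume y a :=
              (c1.pow 2).intervalIntegrable y a
            rw [intervalIntegral.integral_const_mul, intervalIntegral.integral_add j0 j1]
        _ ≤ q / 2 * (M + M) := by
            gcongr
            · exact real_int c0 hM0 i0 hy
            · exact real_int c1 hM0 i1 hy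
        _ = q * M := by ring
    have e : W a = W y + ∫ t in y..a, q * (J0 t * J t) := by
      rw [hint]
      ring
    calc |W a| = |W y + ∫ t in y..a, q * (J0 t * J t)| := by rw [e]
      _ ≤ |W y| + |∫ t in y..a, q * (J0 t * J t)| := abs_add_le _ _
      _ ≤ |W y| + q * M := by linarith
  have hlim : Tendsto (fun y => |W y| + q * M) atBot (𝓝 (|0| + q * M)) := by
    obtain ⟨t1, t2⟩ := h2 ν J0 J0' hν0.le hJ0.sol
    obtain ⟨t3, t4⟩ := h2 (ν + k) J J' (by linarith) hJ.sol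
    have t5 : Tendsto J0 atBot (𝓝 0) := by
      have := t2.const_mul ν⁻¹
      simp only [mul_zero] at this
      refine this.congr fun x => ?_
      field_simp
    have t6 : Tendsto J atBot (𝓝 0) := by
      have h0 : ν + (k : ℝ) ≠ 0 := by positivity
      have := t4.const_mul (ν + (k : ℝ))⁻¹
      simp only [mul_zero] at this
      refine this.congr fun x => ?_
      field_simp
    have t7 : Tendsto W atBot (𝓝 0) := by
      have := (t5.mul t3).sub (t1.mul t6)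
      simpa using this
    exact (t7.abs).add_const _
  have hfin : |W a| ≤ |0| + q * M :=
    ge_of_tendsto hlim ((eventually_le_atBot a).mono fun y hy => hb y hy)
  rw [abs_zero, zero_add] at hfin
  have hq3 : q ≤ 3 * k * s ^ 3 := by
    rw [hq, ← hs3]
    have h5 : (k : ℝ) ^ 2 ≤ k * s ^ 3 := by
      rw [sq]
      refine mul_le_mul_of_nonneg_left ?_ hk0
      exact hks.trans (le_self_pow₀ hs1 (by norm_num))
    linarith
  rw [← ha, e1]
  calc |J0 a * J' a - J0' a * J a| ≤ q * M := hfin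
    _ ≤ 3 * k * s ^ 3 * M := by gcongr
    _ = 3 * (C + 1040) * k * (1 / s) := by
        rw [hM, e4]
        field_simp

end Pool.Agent.CRW
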