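import Pool.Agent.CRW.Targets2

set_option autoImplicit false

namespace Pool.Agent.CRW

open MeasureTheory FourierTransform Set Filter Topology
open scoped ENNReal NNReal ComplexConjugate
open Pool.Agent.MBS (E ex S Sstar)
open Pool.Agent.CAR (e1)
open Pool.Agent.CRN (ci SH S1 Nice T_CARLS)
open Pool.Agent.CRR (PP Sol xc E2 NSol kap T_SEQ)

namespace ZON_

theorem lint (f : ℝ → ℝ≥0∞) (a b M L : ℝ) (hM : 0 ≤ M)
    (h : ∀ x ∈ Icc a b, f x ≤ ENNReal.ofReal M) (hL : b - a ≤ L) :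
    ∫⁻ x in Icc a b, f x ≤ ENNReal.ofReal (M * L) := by
  calc ∫⁻ x in Icc a b, f x ≤ ∫⁻ _ in Icc a b, ENNReal.ofReal M :=
        setLIntegral_mono' measurableSet_Icc h
    _ = ENNReal.ofReal M * volume (Icc a b) := setLIntegral_const _ _
    _ = ENNReal.ofReal M * ENNReal.ofReal (b - a) := by rw [Real.volume_Icc]
    _ = ENNReal.ofReal (M * (b - a)) := (ENNReal.ofReal_mul hM).symm
    _ ≤ _ := ENNReal.ofReal_le_ofReal (mul_le_mul_of_nonneg_left hL hM)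

theorem en (J J0 : ℝ → ℝ) (c x : ℝ) :
    ‖kap J x - (c : ℂ) * kap J0 x‖ₑ = ENNReal.ofReal (Real.exp x * |J x - c * J0 x|) := by
  have h : kap J x - (c : ℂ) * kap J0 x = ((Real.exp x * (J x - c * J0 x) : ℝ) : ℂ) := by
    unfold kap
    push_cast
    ring
  rw [h, ← ofReal_norm, Complex.norm_real, Real.norm_eq_abs, abs_mul,
    abs_of_pos (Real.exp_pos x)]

theorem rp (ν : ℝ) (hν : 1 ≤ ν) : 0 < ν ^ (1 / 3 : ℝ) ∧ (ν ^ (1 / 3 : ℝ)) ^ 3 = ν ∧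
    ν ^ (-(1 / 3) : ℝ) = (ν ^ (1 / 3 : ℝ))⁻¹ ∧ ν ^ (-(2 / 3) : ℝ) = ((ν ^ (1 / 3 : ℝ)) ^ 2)⁻¹ ∧
    ν ^ (1 / 3 : ℝ) ≤ (1 + ν) ^ (1 / 3 : ℝ) ∧ (1 + ν) ^ (1 / 3 : ℝ) ≤ 2 * ν ^ (1 / 3 : ℝ) := by
  have h0 : 0 ≤ ν := by linarith
  have h3 : (ν ^ (1 / 3 : ℝ)) ^ 3 = ν := by
    rw [← Real.rpow_natCast, ← Real.rpow_mul h0]
    norm_num
  have hm3 : ((1 + ν) ^ (1 / 3 : ℝ)) ^ 3 = 1 + ν := by
    rw [← Real.rpow_natCast, ← Real.rpow_mul (by linarith)]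
    norm_num
  have hn : 0 < ν ^ (1 / 3 : ℝ) := Real.rpow_pos_of_pos (by linarith) _
  refine ⟨hn, h3, Real.rpow_neg h0 _, ?_, ?_, ?_⟩
  · rw [Real.rpow_neg h0, ← Real.rpow_natCast, ← Real.rpow_mul h0]
    norm_num
  · exact Real.rpow_le_rpow h0 (by linarith) (by norm_num)
  · refine le_of_pow_le_pow_left₀ (n := 3) (by norm_num) (by positivity) ?_
    rw [hm3, mul_pow, h3]
    linarith

theorem ex1 (ν a : ℝ) (hν : 1 ≤ ν) (ha : 0 ≤ a) :
    Real.exp (x1 ν a) = ν + a * (1 + ν) ^ (1 / 3 : ℝ) := by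
  have : 0 < (1 + ν) ^ (1 / 3 : ℝ) := Real.rpow_pos_of_pos (by linarith) _
  unfold x1
  rw [Real.exp_log]
  positivity

/-- a difference of logarithms -/
theorem lg (a b : ℝ) (ha : 0 < a) (hb : 0 < b) : Real.log b - Real.log a ≤ (b - a) / a := by
  rw [← Real.log_div hb.ne' ha.ne']
  have := Real.log_le_sub_one_of_pos (div_pos hb ha)
  rw [sub_div, div_self ha.ne']
  exact this

theorem big (x y z w Z : ℝ) (hx : 0 ≤ x) (hy : 0 ≤ y) (hz : 0 ≤ z) (hw : 0 ≤ w)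
    (h1 : x ≤ Z) (h2 : y ≤ Z) (h3 : z ≤ Z) (h4 : w ≤ Z) : x * y * (z * w) ≤ Z ^ 4 := by
  have hZ : 0 ≤ Z := hx.trans h1
  calc x * y * (z * w) ≤ Z * Z * (Z * Z) :=
        mul_le_mul (mul_le_mul h1 h2 hy hZ) (mul_le_mul h3 h4 hw hZ) (mul_nonneg hz hw)
          (mul_nonneg hZ hZ)
    _ = Z ^ 4 := by ring

end ZON_

open ZON_ in
theorem p_ZON (_h1 : T_SEQ) (h2 : T_DXS) (h3 : T_DRI) (h4 : T_DLE) : T_ZON := by
  obtain ⟨C1, hC1, H1⟩ := h2
  obtain ⟨C2, hC2, H2⟩ := h3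
  obtain ⟨C3, hC3, H3⟩ := h4
  refine ⟨1 + C1 + C2 + C3, by linarith, ?_⟩
  intro ν A Z k J0 J0' J J' hA hZ hZν hk hJ0 hJ
  set B := 1 + C1 + C2 + C3 with hB
  have hB1 : 1 ≤ B := by linarith
  have hq : B * (4000 + A) ^ 2 ≤ Z := by
    have := Real.add_one_le_exp (B * (4000 + A) ^ 2)
    linarith
  have hE : Real.exp (C3 * (4000 + A) ^ 2) ≤ Z :=
    (Real.exp_le_exp.mpr (mul_le_mul_of_nonneg_right (by linarith) (sq_nonneg _))).trans hZ
  have hsq : 4000 * (4000 + A) ≤ (4000 + A) ^ 2 := by nlinarith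
  have hZB : 16000000 * B ≤ Z := by nlinarith
  have hAZ : 8000 + A ≤ Z := by nlinarith
  have hZ1 : 16000000 ≤ Z := by linarith
  have hZ0 : 0 < Z := by linarith
  have hkZ : (k : ℝ) ≤ Z := by
    rcases Nat.eq_zero_or_pos k with h | h
    · rw [h]
      simpa using hZ0.le
    · have : (1 : ℝ) ≤ k := by exact_mod_cast h
      exact (le_self_pow₀ this (by norm_num)).trans hk
  have hZ99 : Z ^ 99 ≤ ν := by
    have e : Z ^ 100 = Z * Z ^ 99 := by ring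
    have : 2 * Z ^ 99 ≤ Z * Z ^ 99 := mul_le_mul_of_nonneg_right (by linarith) (by positivity)
    linarith
  have hZ3 : Z ^ 3 ≤ ν := (pow_le_pow_right₀ (by linarith) (by norm_num)).trans hZ99
  have hν : 1 ≤ ν := (one_le_pow₀ (by linarith)).trans hZ3
  obtain ⟨hn, hn3, hr1, hr2, hm1, hm2⟩ := rp ν hν
  set n := ν ^ (1 / 3 : ℝ) with hndef
  set m := (1 + ν) ^ (1 / 3 : ℝ) with hmdef
  have hnZ : Z ^ 33 ≤ n := by
    refine le_of_pow_le_pow_left₀ (n := 3) (by norm_num) hn.le ?_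
    rw [hn3, ← pow_mul]
    exact hZ99
  have hnZ1 : Z ≤ n := by
    refine le_trans ?_ hnZ
    exact le_self_pow₀ (by linarith) (by norm_num)
  have hn1 : 1 ≤ n := by linarith
  have hnn : Z ≤ n ^ 2 := hnZ1.trans (le_self_pow₀ hn1 (by norm_num))
  have hk0 : (0 : ℝ) ≤ k := Nat.cast_nonneg k
  have hk3 : (k : ℝ) ^ 3 ≤ ν := (pow_le_pow_left₀ hk0 hkZ 3).trans hZ3
  have h43 : (4000 : ℝ) ^ 3 ≤ ν := (pow_le_pow_left₀ (by norm_num) (by linarith) 3).trans hZ3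
  have hAn : A * n ≤ ν / 2 := by
    rw [← hn3]
    have : 2 * A ≤ n ^ 2 := by nlinarith
    nlinarith
  have hν0 : 0 < ν := by linarith
  obtain ⟨c, hc4, hc⟩ := H1 ν k J0 J0' J J' hν hk3 hJ0 hJ
  refine ⟨c, hc4, ?_⟩
  have hR := H2 ν Z c k J0 J0' J J' hν (by linarith) hZ3 hk3 hJ0 hJ
  have hL := H3 ν A c k J0 J0' J J' h43 hA (by rw [← hndef]; exact hAn) hk3 hJ0 hJ
  set e := Real.sqrt (E2 ν (fun x => J x - c * J0 x) (fun x => J' x - c * J0' x) (x1 ν 4000))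
    with he
  have he0 : 0 ≤ e := Real.sqrt_nonneg _
  set W := Real.exp (C3 * (4000 + A) ^ 2) with hW
  have hW0 : 0 < W := Real.exp_pos _
  rw [hr1] at hc hR
  -- the left piece
  have p1 : ∀ x ∈ Icc (x0 ν A) (x1 ν 4000), ‖kap J x - (c : ℂ) * kap J0 x‖ₑ ≤
      ENNReal.ofReal (2 * n ^ 3 * (W * ((C1 + 1) * k * (n ^ 2)⁻¹))) := by
    intro x hx
    rw [en]
    refine ENNReal.ofReal_le_ofReal ?_
    have a1 : Real.exp x ≤ 2 * n ^ 3 := by
      refine (Real.exp_le_exp.mpr hx.2).trans ?_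
      rw [ex1 ν 4000 hν (by norm_num), ← hmdef, hn3]
      have : 4000 * m ≤ ν := by
        have e1 : 8000 ≤ n ^ 2 := by nlinarith
        have e2 : 8000 * n ≤ n ^ 3 := by nlinarith
        linarith
      linarith
    have a2 : |J x - c * J0 x| ≤ W * ((C1 + 1) * k * (n ^ 2)⁻¹) := by
      refine (hL x hx).trans ?_
      refine mul_le_mul_of_nonneg_left ?_ hW0.le
      rw [hr1, hr2]
      have e3 : n⁻¹ * e ≤ n⁻¹ * (C1 * k * n⁻¹) :=
        mul_le_mul_of_nonneg_left hc (inv_nonneg.mpr hn.le)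
      have e4 : n⁻¹ * (C1 * k * n⁻¹) + k * (n ^ 2)⁻¹ = (C1 + 1) * k * (n ^ 2)⁻¹ := by
        rw [← inv_pow]
        ring
      linarith
    exact mul_le_mul a1 a2 (abs_nonneg _) (by positivity)
  have l1 : x1 ν 4000 - x0 ν A ≤ 2 * (8000 + A) * (n ^ 2)⁻¹ := by
    have b0 : 0 < ν - A * n := by linarith
    have b1 := lg (ν - A * n) (ν + 4000 * m) b0 (by positivity)
    have b2 : x1 ν 4000 - x0 ν A = Real.log (ν + 4000 * m) - Real.log (ν - A * n) := rfl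
    rw [b2]
    refine b1.trans ?_
    rw [div_le_iff₀ b0]
    have b3 : 2 * (8000 + A) * (n ^ 2)⁻¹ * (ν / 2) = (8000 + A) * n := by
      rw [← hn3]
      field_simp
    have b4 : 2 * (8000 + A) * (n ^ 2)⁻¹ * (ν / 2) ≤ 2 * (8000 + A) * (n ^ 2)⁻¹ * (ν - A * n) :=
      mul_le_mul_of_nonneg_left (by linarith) (by positivity)
    nlinarith
  -- the right piece
  have p2 : ∀ x ∈ Icc (x1 ν 4000) (x1 ν Z), ‖kap J x - (c : ℂ) * kap J0 x‖ₑ ≤
      ENNReal.ofReal (3 * n ^ 3 * (n⁻¹ * (C2 * Z * ((C1 + Z) * k * n⁻¹)))) := by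
    intro x hx
    rw [en]
    refine ENNReal.ofReal_le_ofReal ?_
    have a1 : Real.exp x ≤ 3 * n ^ 3 := by
      refine (Real.exp_le_exp.mpr hx.2).trans ?_
      rw [ex1 ν Z hν hZ0.le, ← hmdef, hn3]
      have : Z * m ≤ 2 * ν := by
        calc Z * m ≤ n ^ 2 * (2 * n) := mul_le_mul hnn hm2 (by linarith) (by positivity)
          _ = 2 * n ^ 3 := by ring
          _ = 2 * ν := by rw [hn3]
      linarith
    have a3 : n ^ 4 ≤ PP ν x := by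
      have b1 : ν + 4000 * m ≤ Real.exp x := by
        have := Real.exp_le_exp.mpr hx.1
        rwa [ex1 ν 4000 hν (by norm_num), ← hmdef] at this
      have b2 : (ν + 4000 * m) ^ 2 ≤ Real.exp x ^ 2 := pow_le_pow_left₀ (by positivity) b1 2
      have b3 : Real.exp (2 * x) = Real.exp x ^ 2 := by
        rw [← Real.exp_nat_mul]
        norm_num
      unfold PP
      rw [b3]
      have b4 : n ^ 4 = ν * n := by rw [← hn3]; ring
      have b5 : ν * n ≤ ν * m := mul_le_mul_of_nonneg_left hm1 hν0.le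
      have b6 : 0 ≤ ν * m := by positivity
      nlinarith
    have a4 : n ^ 2 ≤ Real.sqrt (PP ν x) := by
      refine Real.le_sqrt_of_sq_le ?_
      rw [← pow_mul]
      exact a3
    have a5 : |J x - c * J0 x| * n ≤
        Real.sqrt (E2 ν (fun x => J x - c * J0 x) (fun x => J' x - c * J0' x) x) := by
      refine Real.le_sqrt_of_sq_le ?_
      unfold E2
      rw [mul_pow, sq_abs]
      have b1 : 0 ≤ (J' x - c * J0' x) ^ 2 / Real.sqrt (PP ν x) := by positivity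
      have b2 : (J x - c * J0 x) ^ 2 * n ^ 2 ≤
          Real.sqrt (PP ν x) * (J x - c * J0 x) ^ 2 := by
        rw [mul_comm]
        exact mul_le_mul_of_nonneg_right a4 (sq_nonneg _)
      linarith
    have a6 : |J x - c * J0 x| ≤ n⁻¹ * (C2 * Z * ((C1 + Z) * k * n⁻¹)) := by
      rw [inv_mul_eq_div, le_div_iff₀ hn]
      refine (a5.trans (hR x hx)).trans ?_
      have b1 : Z ^ (1 / 4 : ℝ) ≤ Z := by
        have := Real.rpow_le_rpow_of_exponent_le (x := Z) (by linarith)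
          (show (1 / 4 : ℝ) ≤ 1 by norm_num)
        rwa [Real.rpow_one] at this
      have b2 : e + k * Z * n⁻¹ ≤ (C1 + Z) * k * n⁻¹ := by
        have : C1 * k * n⁻¹ + k * Z * n⁻¹ = (C1 + Z) * k * n⁻¹ := by ring
        linarith
      have b3 : 0 ≤ e + k * Z * n⁻¹ := by positivity
      exact mul_le_mul (mul_le_mul_of_nonneg_left b1 hC2.le) b2 b3 (by positivity)
    exact mul_le_mul a1 a6 (abs_nonneg _) (by positivity)
  have l2 : x1 ν Z - x1 ν 4000 ≤ 2 * Z * (n ^ 2)⁻¹ := by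
    have b0 : 0 < ν + 4000 * m := by positivity
    have b1 := lg (ν + 4000 * m) (ν + Z * m) b0 (by positivity)
    have b2 : x1 ν Z - x1 ν 4000 = Real.log (ν + Z * m) - Real.log (ν + 4000 * m) := rfl
    rw [b2]
    refine b1.trans ?_
    rw [div_le_iff₀ b0]
    have b3 : 2 * Z * (n ^ 2)⁻¹ * ν = 2 * Z * n := by
      rw [← hn3]
      field_simp
    have b4 : 2 * Z * (n ^ 2)⁻¹ * ν ≤ 2 * Z * (n ^ 2)⁻¹ * (ν + 4000 * m) :=
      mul_le_mul_of_nonneg_left (by linarith) (by positivity)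
    have b5 : Z * m ≤ Z * (2 * n) := mul_le_mul_of_nonneg_left hm2 hZ0.le
    nlinarith
  -- the sum
  have hsub : Icc (x0 ν A) (x1 ν Z) ⊆ Icc (x0 ν A) (x1 ν 4000) ∪ Icc (x1 ν 4000) (x1 ν Z) := by
    intro x hx
    rcases le_total x (x1 ν 4000) with h | h
    · exact Or.inl ⟨hx.1, h⟩
    · exact Or.inr ⟨h, hx.2⟩
  have q1 := lint _ (x0 ν A) (x1 ν 4000) _ _ (by positivity) p1 l1
  have q2 := lint _ (x1 ν 4000) (x1 ν Z) _ _ (by positivity) p2 l2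
  have hn0 : n ≠ 0 := hn.ne'
  have s1 : 2 * n ^ 3 * (W * ((C1 + 1) * k * (n ^ 2)⁻¹)) * (2 * (8000 + A) * (n ^ 2)⁻¹) ≤
      Z ^ 4 * n⁻¹ := by
    have t1 : 2 * n ^ 3 * (W * ((C1 + 1) * k * (n ^ 2)⁻¹)) * (2 * (8000 + A) * (n ^ 2)⁻¹) =
        W * (4 * (C1 + 1)) * (k * (8000 + A)) * n⁻¹ := by
      field_simp
      ring
    rw [t1]
    refine mul_le_mul_of_nonneg_right ?_ (inv_nonneg.mpr hn.le)
    exact big _ _ _ _ _ hW0.le (by positivity) hk0 (by linarith) hE (by linarith) hkZ hAZ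
  have s2 : 3 * n ^ 3 * (n⁻¹ * (C2 * Z * ((C1 + Z) * k * n⁻¹))) * (2 * Z * (n ^ 2)⁻¹) ≤
      2 * Z ^ 5 * n⁻¹ := by
    have t1 : 3 * n ^ 3 * (n⁻¹ * (C2 * Z * ((C1 + Z) * k * n⁻¹))) * (2 * Z * (n ^ 2)⁻¹) =
        (Z * ((C1 + Z) / 2) * (k * (6 * C2))) * (2 * Z) * n⁻¹ := by
      field_simp
      ring
    rw [t1]
    refine mul_le_mul_of_nonneg_right ?_ (inv_nonneg.mpr hn.le)
    have t2 := big Z ((C1 + Z) / 2) k (6 * C2) Z hZ0.le (by positivity) hk0 (by positivity)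
      le_rfl (by linarith) hkZ (by linarith)
    calc (Z * ((C1 + Z) / 2) * (k * (6 * C2))) * (2 * Z) ≤ Z ^ 4 * (2 * Z) :=
          mul_le_mul_of_nonneg_right t2 (by positivity)
      _ = 2 * Z ^ 5 := by ring
  have fin : Z ^ 4 * n⁻¹ + 2 * Z ^ 5 * n⁻¹ ≤ Z ^ (-10 : ℤ) := by
    have e0 : Z ^ (-10 : ℤ) = (Z ^ 10)⁻¹ := by
      rw [zpow_neg]
      rfl
    rw [e0, ← add_mul, ← div_eq_mul_inv, div_le_iff₀ hn, inv_mul_eq_div,
      le_div_iff₀ (by positivity)]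
    have u1 : Z ^ 4 ≤ Z ^ 5 := pow_le_pow_right₀ (by linarith) (by norm_num)
    have u2 : (Z ^ 4 + 2 * Z ^ 5) * Z ^ 10 ≤ (3 * Z ^ 5) * Z ^ 10 :=
      mul_le_mul_of_nonneg_right (by linarith) (by positivity)
    have u3 : (3 * Z ^ 5) * Z ^ 10 = 3 * Z ^ 15 := by ring
    have u4 : 3 * Z ^ 15 ≤ Z * Z ^ 15 := mul_le_mul_of_nonneg_right (by linarith) (by positivity)
    have u5 : Z * Z ^ 15 = Z ^ 16 := by ring
    have u6 : Z ^ 16 ≤ Z ^ 33 := pow_le_pow_right₀ (by linarith) (by norm_num)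
    linarith
  calc ∫⁻ x in Icc (x0 ν A) (x1 ν Z), ‖kap J x - (c : ℂ) * kap J0 x‖ₑ
      ≤ ∫⁻ x in Icc (x0 ν A) (x1 ν 4000) ∪ Icc (x1 ν 4000) (x1 ν Z),
          ‖kap J x - (c : ℂ) * kap J0 x‖ₑ := lintegral_mono_set hsub
    _ ≤ (∫⁻ x in Icc (x0 ν A) (x1 ν 4000), ‖kap J x - (c : ℂ) * kap J0 x‖ₑ) +
          ∫⁻ x in Icc (x1 ν 4000) (x1 ν Z), ‖kap J x - (c : ℂ) * kap J0 x‖ₑ :=
        lintegral_union_le _ _ _
    _ ≤ ENNReal.ofReal (Z ^ 4 * n⁻¹) + ENNReal.ofReal (2 * Z ^ 5 * n⁻¹) :=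
        add_le_add (q1.trans (ENNReal.ofReal_le_ofReal s1))
          (q2.trans (ENNReal.ofReal_le_ofReal s2))
    _ = ENNReal.ofReal (Z ^ 4 * n⁻¹ + 2 * Z ^ 5 * n⁻¹) :=
        (ENNReal.ofReal_add (by positivity) (by positivity)).symm
    _ ≤ _ := ENNReal.ofReal_le_ofReal fin

end Pool.Agent.CRW
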