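import Pool.Agent.CRL.P_MODA
import Pool.Agent.CRL.P_MODB
import Pool.Agent.CRL.P_POLC
import Pool.Agent.CRR.All
import Pool.Agent.CRF.All
import Pool.Agent.GRO.P_GDC
import Pool.Agent.GRO.P_GLC
import Pool.Agent.GRO.P_GSS
import Pool.Agent.SLog.All
import Pool.Agent.CRW.P_ANB
import Pool.Agent.CRW.P_ANC
import Pool.Agent.CRW.P_ARG
import Pool.Agent.CRW.P_ARM
import Pool.Agent.CRW.P_BET
import Pool.Agent.CRW.P_CMP
import Pool.Agent.CRW.P_CPL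
import Pool.Agent.CRW.P_CRS
import Pool.Agent.CRW.P_DCP
import Pool.Agent.CRW.P_DEE
import Pool.Agent.CRW.P_DLE
import Pool.Agent.CRW.P_DRI
import Pool.Agent.CRW.P_DXS
import Pool.Agent.CRW.P_EB2
import Pool.Agent.CRW.P_EXN
import Pool.Agent.CRW.P_FCG
import Pool.Agent.CRW.P_FEJ
import Pool.Agent.CRW.P_FIA
import Pool.Agent.CRW.P_FIN
import Pool.Agent.CRW.P_GLL
import Pool.Agent.CRW.P_GRW
import Pool.Agent.CRW.P_GS1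
import Pool.Agent.CRW.P_HGB
import Pool.Agent.CRW.P_HIG
import Pool.Agent.CRW.P_HKB
import Pool.Agent.CRW.P_JTL
import Pool.Agent.CRW.P_JUP
import Pool.Agent.CRW.P_KPM
import Pool.Agent.CRW.P_LGV
import Pool.Agent.CRW.P_MLG
import Pool.Agent.CRW.P_MWC
import Pool.Agent.CRW.P_MWN
import Pool.Agent.CRW.P_OCR
import Pool.Agent.CRW.P_OSM
import Pool.Agent.CRW.P_PTG
import Pool.Agent.CRW.P_ROT
import Pool.Agent.CRW.P_SCM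
import Pool.Agent.CRW.P_SDG
import Pool.Agent.CRW.P_SGC
import Pool.Agent.CRW.P_TLG
import Pool.Agent.CRW.P_WC1
import Pool.Agent.CRW.P_WC2
import Pool.Agent.CRW.P_WCW
import Pool.Agent.CRW.P_WRO
import Pool.Agent.CRW.P_ZON

set_option autoImplicit false

/-!
# CRW: assembly (MP_ee701d_an)
-/

namespace Pool.Agent.CRW

open MeasureTheory
open scoped ENNReal NNReal

theorem q_SDG : T_SDG := p_SDG CRR.p_SEQ CRR.q_VCR CRR.q_DEC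

theorem q_MLG : T_MLG := p_MLG CRR.p_SEQ q_SDG

theorem q_PTG : T_PTG := p_PTG CRR.p_SEQ q_SDG

theorem q_TLG : T_TLG := p_TLG CRR.p_SEQ q_SDG q_MLG

theorem q_HIG : T_HIG := p_HIG CRR.p_SEQ q_PTG q_TLG

theorem q_HGB : T_HGB := p_HGB q_HIG

theorem q_KPM : T_KPM := p_KPM CRR.p_SEQ

theorem q_CMP : T_CMP := p_CMP CRR.p_SEQ CRR.q_WKB

theorem q_CPL : T_CPL := p_CPL q_CMP p_BET

theorem q_WC1 : T_WC1 := p_WC1 q_CPL p_ROT q_HGB q_KPM CRR.p_SEQ p_BET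

theorem q_JUP : T_JUP := p_JUP CRR.p_SEQ CRR.q_QID CRR.q_FOR

theorem q_JTL : T_JTL := p_JTL CRR.q_FOR q_JUP

theorem q_DEE : T_DEE := p_DEE q_JTL

theorem q_WRO : T_WRO := p_WRO CRR.p_SEQ CRR.p_INF CRR.q_ENR q_JUP

theorem q_DXS : T_DXS := p_DXS CRR.p_SEQ CRR.q_ENR q_WRO

theorem q_DRI : T_DRI := p_DRI CRR.p_SEQ CRR.q_ENR

theorem q_DLE : T_DLE := p_DLE CRR.p_SEQ CRR.q_ENR q_JUP

theorem q_ZON : T_ZON := p_ZON CRR.p_SEQ q_DXS q_DRI q_DLE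

theorem q_WC2 : T_WC2 := p_WC2 q_ZON q_DEE p_ROT p_CRS p_HKB

theorem q_EXN : T_EXN := p_EXN CRR.p_SEQ CRR.p_NRM

theorem q_WCW : T_WCW := p_WCW q_WC1 q_WC2

theorem q_SGC : T_SGC := p_SGC CRN.p_POLN CRL.p_POLC

theorem q_EB2 : T_EB2 := p_EB2 q_SGC CRR.p_SYM

theorem q_FCG : T_FCG := p_FCG q_SGC q_EB2 CRR.q_GM CRR.q_UNI

theorem q_SCM : T_SCM := p_SCM CRL.p_MODA CRN.q_DSN

theorem q_ANB : T_ANB := p_ANB CRN.q_DSN CRR.q_AHT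

theorem q_ANC : T_ANC := p_ANC q_SCM p_LGV q_WCW CRL.p_POLC CRL.p_MODA

theorem q_MWN : T_MWN :=
  p_MWN q_ANB q_ANC q_FCG q_EXN CRL.p_MODA (CRL.p_MODB CRL.p_POLC CRL.p_MODA)

theorem q_DCP : T_DCP := p_DCP p_FEJ

theorem q_ARM : T_ARM := p_ARM q_MWN p_FEJ q_DCP q_SCM CRL.p_POLC CRL.p_MODA

theorem q_GRW : T_GRW := p_GRW CRN.q_OFFN CRN.p_SHL

theorem q_GLL : T_GLL := p_GLL q_GRW

theorem q_ARG : T_ARG := p_ARG q_ARM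

theorem q_FIA : T_FIA := p_FIA p_OCR

theorem q_FIN : T_FIN := p_FIN q_FIA q_ARG q_GLL p_OSM CRR.q_OSC CRL.p_POLC

theorem q_MWC : T_MWC := p_MWC q_MWN

theorem q_DSP : T_DSP := Pool.Agent.SEnd.fDSs

theorem q_GS1 : T_GS1 := by
  refine p_GS1 (GRO.p_GSS CRF.q_FFS CRN.q_CARLS CRF.q_LLL (GRO.p_GLC ?_) GRO.p_GDC)
  obtain ⟨C, hC⟩ := q_DSP
  refine ⟨C * (ENNReal.ofReal (Real.log (3 + Real.log (1 / 2 : ℝ)⁻¹) ^ 12)).toNNReal, ?_⟩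
  intro A f hA hA' h1 h2 h3
  refine (hC (1 / 2) A f (by norm_num) le_rfl hA hA' h1 h2 h3).trans (le_of_eq ?_)
  rw [ENNReal.coe_mul, ENNReal.coe_toNNReal ENNReal.ofReal_ne_top]

end Pool.Agent.CRW
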