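import Pool.Agent.CRR.Targets2

set_option autoImplicit false

/-!
# CRW: disc partial sums in the plane with `R(x)` constant on `N` arcs of every circle (MP_ee701d_an): definitions

THEOREM (all `f ∈ L¹ ∩ L²(ℝ²)`): if `R(x)` is constant on each of `N` equal arcs of every circle `|x| = r`, then
`∫ |S_{R(x)} f(x)|² dx ≤ C (log (3 + log N))^12 ∫ |f|²`. It follows from the maximal theorem for functions whose angular
frequencies lie in a window `[m, m+K)`, with the constant `C (log (3 + log K))^12`, uniformly in `m`.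
Notation of `Pool/Agent/CRR/Defs.lean`: `u = log r`, `v = log (2πρ)`, `x = u + v`, kernels `kap J x = e^x J x`,
`NSol ν J J'`: the normalised solution of Bessel's equation of order `ν` in the variable `x`.
-/

namespace Pool.Agent.CRW

open MeasureTheory FourierTransform Set Filter Topology
open scoped ENNReal NNReal ComplexConjugate
open Pool.Agent.MBS (E ex S Sstar)
open Pool.Agent.CAR (e1)
open Pool.Agent.CRN (ci SH S1 Nice)
open Pool.Agent.CRR (PP Sol xc E2 NSol kap aa de la si ww band fh StripD FS FA HH)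

/-! ### kernels -/

/-- a general kernel with two oscillating terms on every strip -/
structure KK (A ν : ℝ) (κ : ℝ → ℂ) : Prop where
  cont : Continuous κ
  st : ∀ k : ℕ, StripD A (aa ν k) (de ν k) (la ν k) κ

/-- locally bounded -/
structure LB (κ : ℝ → ℂ) : Prop where
  meas : Measurable κ
  bd : ∀ a b : ℝ, ∃ M : ℝ, ∀ x ∈ Icc a b, ‖κ x‖ ≤ M

/-- the maximal truncations of the convolution with `κ` are bounded on `L²` -/
def HB (κ : ℝ → ℂ) (C : ℝ≥0) : Prop := ∀ g : ℝ → ℂ, Measurable g →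
  ∫⁻ u, (⨆ (V1 : ℝ) (V2 : ℝ), ‖∫ v in Ioc V1 V2, κ (u + v) * g v‖ₑ) ^ 2 ≤ C * ∫⁻ v, ‖g v‖ₑ ^ 2

/-- the multiplier of a strip -/
noncomputable def mg (ν : ℝ) (κ : ℝ → ℂ) (k : ℕ) (s : ℝ) : ℂ :=
  ∫ x in Ico (aa ν k) (aa ν k + de ν k), κ x * e1 (x * s)

/-- the maximal function of a window of `K` kernels -/
noncomputable def WM (K : ℕ) (κ g : ℕ → ℝ → ℂ) (u φ : ℝ) : ℝ≥0∞ :=
  ⨆ (V1 : ℝ) (V2 : ℝ), ‖∑ k ∈ Finset.range K, ci (k * φ) * ∫ v in Ioc V1 V2, κ k (u + v) * g k v‖ₑ

/-- the point at relative distance `Z` from the turning point, on the oscillatory side -/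
noncomputable def x1 (m Z : ℝ) : ℝ := Real.log (m + Z * (1 + m) ^ (1 / 3 : ℝ))

/-- the point at relative distance `A` from the turning point, on the forbidden side -/
noncomputable def x0 (m A : ℝ) : ℝ := Real.log (m - A * m ^ (1 / 3 : ℝ))

/-- the WKB phase -/
noncomputable def th (ν x : ℝ) : ℝ := ∫ s in xc ν..x, Real.sqrt (PP ν s) / (2 * Real.pi)

/-- the pure WKB kernels (`s = 1`, `s = -1`), constant for `x ≤ xc` -/
noncomputable def kpm (ν s x : ℝ) : ℂ :=
  ((Real.exp (max x (xc ν)) * PP ν (max x (xc ν)) ^ (-(1 / 4) : ℝ) : ℝ) : ℂ) *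
    e1 (s * th ν (max x (xc ν)))

/-- angle of the ray of angular momentum `m` at `x = log (2πrρ)` -/
noncomputable def be (m x : ℝ) : ℝ := Real.arcsin (m * Real.exp (-x))

/-! ### the plane -/

/-- the point with polar coordinates `r`, `φ` -/
noncomputable def pt (r φ : ℝ) : E 2 := WithLp.toLp 2 ![r * Real.cos φ, r * Real.sin φ]

/-- rotation by `φ` -/
noncomputable def ro (φ : ℝ) (x : E 2) : E 2 :=
  WithLp.toLp 2 ![Real.cos φ * x 0 - Real.sin φ * x 1, Real.sin φ * x 0 + Real.cos φ * x 1]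

/-- angular Fourier coefficient of `F` on the circle of radius `r` -/
noncomputable def fc (F : E 2 → ℂ) (m : ℤ) (r : ℝ) : ℂ :=
  ((2 * Real.pi)⁻¹ : ℝ) * ∫ φ in (0 : ℝ)..(2 * Real.pi), F (pt r φ) * ci (-(m * φ))

/-- projection to the angular frequencies `w, w+1, ..., w+K-1` -/
noncomputable def pw (K : ℕ) (w : ℤ) (f : E 2 → ℂ) (x : E 2) : ℂ :=
  ((2 * Real.pi)⁻¹ : ℝ) * ∫ φ in (0 : ℝ)..(2 * Real.pi),
    (∑ k ∈ Finset.range K, ci (((w : ℝ) + k) * φ)) * f (ro (-φ) x)

/-- `log (3 + log K)` -/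
noncomputable def LL (K : ℕ) : ℝ := Real.log (3 + Real.log K)

/-- Fejér's kernel, `N` times normalised: `|∑_{k<N} e^{ikφ}|² / N` -/
noncomputable def fej (N : ℕ) (φ : ℝ) : ℝ := ‖∑ k ∈ Finset.range N, ci (k * φ)‖ ^ 2 / N

end Pool.Agent.CRW
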