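import Pool.Agent.CRW.Targets

set_option autoImplicit false

/-!
# CRW: on a short interval the window is a rotation (CPL)
-/

namespace Pool.Agent.CRW

open MeasureTheory FourierTransform Set Filter Topology
open scoped ENNReal NNReal ComplexConjugate
open Pool.Agent.CRN (ci)
open Pool.Agent.CRR (PP NSol kap)

namespace CPL_

theorem ci_norm (s : ℝ) : ‖ci s‖ = 1 := by
  unfold ci
  exact Complex.norm_exp_ofReal_mul_I s

theorem ci_add (s t : ℝ) : ci (s + t) = ci s * ci t := by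
  unfold ci
  rw [← Complex.exp_add]
  push_cast
  ring_nf

theorem ci_sub_one (s : ℝ) : ‖ci s - 1‖ ≤ |s| := by
  unfold ci
  rw [mul_comm]
  exact Real.norm_exp_I_mul_ofReal_sub_one_le

theorem ci_cont : Continuous ci := by
  unfold ci
  fun_prop

theorem ci_deriv {D : ℝ → ℝ} {D' x : ℝ} (h : HasDerivAt D D' x) :
    HasDerivAt (fun y => ci (D y)) (ci (D x) * ((D' : ℂ) * Complex.I)) x := by
  unfold ci
  exact ((h.ofReal_comp).mul_const Complex.I).cexp

theorem PP_pos {m x : ℝ} (hm : 0 ≤ m) (h : m < Real.exp x) : 0 < PP m x := by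
  unfold PP
  have h1 : Real.exp (2 * x) = Real.exp x ^ 2 := by
    rw [← Real.exp_nat_mul]
    norm_num
  rw [h1]
  nlinarith

theorem branch (hbet : T_BET) {m xa xb σ κ q C0 : ℝ} {c : ℂ} {t t' : ℝ → ℂ} (hm : 0 ≤ m)
    (hab : xa ≤ xb) (hexp : ∀ x ∈ Icc xa xb, m < Real.exp x) (hc : ‖c‖ ≤ C0)
    (htc : ContinuousOn t' (Icc xa xb))
    (ht : ∀ x ∈ Icc xa xb, HasDerivAt t (t' x) x ∧ ‖t x‖ ≤ C0 * q)
    (hint : ∫ x in Ioc xa xb, ‖t' x‖ ≤ C0 * q) (hσ : |σ| ≤ κ) (hC0 : 0 < C0) (hq0 : 0 ≤ q)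
    (hq : C0 * q ≤ 1) :
    ∃ W W' : ℝ → ℂ, ContinuousOn W' (Icc xa xb) ∧
      (∀ x ∈ Icc xa xb, HasDerivAt W (W' x) x ∧
        ci (σ * be m x) * (c + t x) = ci (σ * be m xb) * (c + W x)) ∧
      ‖W xa‖ ≤ 4 * (C0 + 1) * (q + κ * Real.sqrt (xb - xa)) ∧
      ∫ x in Ioc xa xb, ‖W' x‖ ≤ 4 * (C0 + 1) * (q + κ * Real.sqrt (xb - xa)) := by
  have hκ : 0 ≤ κ := (abs_nonneg σ).trans hσ
  have hxa : xa ∈ Icc xa xb := ⟨le_rfl, hab⟩
  have hsq : 0 ≤ Real.sqrt (xb - xa) := Real.sqrt_nonneg _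
  obtain ⟨hb0, hb1⟩ := (hbet m xa hm).2 xb (hexp xa hxa).le hab
  have hPP : ContinuousOn (fun x => m / Real.sqrt (PP m x)) (Icc xa xb) := by
    refine ContinuousOn.div continuousOn_const ?_ (fun x hx => ?_)
    · unfold PP
      fun_prop
    · exact (Real.sqrt_pos.2 (PP_pos hm (hexp x hx))).ne'
  have hbd : ∀ x ∈ Icc xa xb, HasDerivAt (be m) (-(m / Real.sqrt (PP m x))) x :=
    fun x hx => (hbet m x hm).1 (hexp x hx)
  have hbc : ContinuousOn (be m) (Icc xa xb) :=
    fun x hx => (hbd x hx).continuousAt.continuousWithinAt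
  have htc0 : ContinuousOn t (Icc xa xb) :=
    fun x hx => (ht x hx).1.continuousAt.continuousWithinAt
  have hFTC : ∫ x in Ioc xa xb, m / Real.sqrt (PP m x) = be m xa - be m xb := by
    have h1 : ∫ x in xa..xb, -(m / Real.sqrt (PP m x)) = be m xb - be m xa := by
      refine intervalIntegral.integral_eq_sub_of_hasDerivAt (fun x hx => ?_) ?_
      · rw [uIcc_of_le hab] at hx
        exact hbd x hx
      · refine ContinuousOn.intervalIntegrable ?_
        rw [uIcc_of_le hab]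
        exact hPP.neg
    rw [intervalIntegral.integral_neg, intervalIntegral.integral_of_le hab] at h1
    linarith
  obtain ⟨D, hD⟩ : ∃ D : ℝ → ℝ, D = fun x => σ * (be m x - be m xb) := ⟨_, rfl⟩
  have hDx : ∀ x, D x = σ * (be m x - be m xb) := fun x => by rw [hD]
  have hDd : ∀ x ∈ Icc xa xb, HasDerivAt D (σ * -(m / Real.sqrt (PP m x))) x := by
    intro x hx
    rw [hD]
    exact ((hbd x hx).sub_const _).const_mul σ
  have hDc : ContinuousOn D (Icc xa xb) :=
    fun x hx => (hDd x hx).continuousAt.continuousWithinAt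
  have hciD : ContinuousOn (fun x => ci (D x)) (Icc xa xb) := ci_cont.comp_continuousOn hDc
  refine ⟨fun x => ci (D x) * (c + t x) - c,
    fun x => ci (D x) * (((σ * -(m / Real.sqrt (PP m x)) : ℝ) : ℂ) * Complex.I) * (c + t x) +
      ci (D x) * t' x, ?_, ?_, ?_, ?_⟩
  · refine ContinuousOn.add (ContinuousOn.mul (ContinuousOn.mul hciD ?_) ?_) (hciD.mul htc)
    · refine ContinuousOn.mul ?_ continuousOn_const
      exact Complex.continuous_ofReal.comp_continuousOn (continuousOn_const.mul hPP.neg)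
    · exact continuousOn_const.add htc0
  · intro x hx
    refine ⟨?_, ?_⟩
    · exact ((ci_deriv (hDd x hx)).mul ((ht x hx).1.const_add c)).sub_const c
    · have h1 : σ * be m x = σ * be m xb + D x := by
        rw [hDx]
        ring
      rw [h1, ci_add]
      ring
  · have h1 : ci (D xa) * (c + t xa) - c = (ci (D xa) - 1) * c + ci (D xa) * t xa := by ring
    have h2 : ‖(ci (D xa) - 1) * c‖ ≤ (κ * (4 * Real.sqrt (xb - xa))) * C0 := by
      rw [norm_mul]
      refine mul_le_mul ?_ hc (norm_nonneg _) (by positivity)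
      refine (ci_sub_one _).trans ?_
      rw [hDx, abs_mul, abs_of_nonneg hb0]
      exact mul_le_mul hσ hb1 hb0 hκ
    have h3 : ‖ci (D xa) * t xa‖ ≤ C0 * q := by
      rw [norm_mul, ci_norm, one_mul]
      exact (ht xa hxa).2
    beta_reduce
    rw [h1]
    refine (norm_add_le _ _).trans ?_
    have h4 : 0 ≤ κ * Real.sqrt (xb - xa) := by positivity
    have h5 : 0 ≤ C0 * q := by positivity
    nlinarith
  · have hi1 : IntegrableOn (fun x => m / Real.sqrt (PP m x)) (Ioc xa xb) :=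
      hPP.integrableOn_Icc.mono_set Ioc_subset_Icc_self
    have hi2 : IntegrableOn (fun x => ‖t' x‖) (Ioc xa xb) :=
      htc.norm.integrableOn_Icc.mono_set Ioc_subset_Icc_self
    calc _ ≤ ∫ x in Ioc xa xb, (κ * (C0 + 1) * (m / Real.sqrt (PP m x)) + ‖t' x‖) := by
          refine setIntegral_mono_on ?_ ((hi1.const_mul _).add hi2) measurableSet_Ioc
            (fun x hx => ?_)
          · refine IntegrableOn.mono_set (ContinuousOn.integrableOn_Icc ?_) Ioc_subset_Icc_self
            refine (ContinuousOn.add (ContinuousOn.mul (ContinuousOn.mul hciD ?_) ?_)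
              (hciD.mul htc)).norm
            · refine ContinuousOn.mul ?_ continuousOn_const
              exact Complex.continuous_ofReal.comp_continuousOn (continuousOn_const.mul hPP.neg)
            · exact continuousOn_const.add htc0
          · have hx' := Ioc_subset_Icc_self hx
            have h0 : 0 ≤ m / Real.sqrt (PP m x) := by positivity
            have h1 : ‖c + t x‖ ≤ C0 + 1 :=
              (norm_add_le _ _).trans (add_le_add hc ((ht x hx').2.trans hq))
            refine (norm_add_le _ _).trans (add_le_add ?_ ?_)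
            · rw [norm_mul, norm_mul, ci_norm, one_mul, norm_mul, Complex.norm_I, mul_one,
                Complex.norm_real, Real.norm_eq_abs, abs_mul, abs_neg, abs_of_nonneg h0]
              calc _ ≤ κ * (m / Real.sqrt (PP m x)) * (C0 + 1) := by gcongr
                _ = _ := by ring
            · rw [norm_mul, ci_norm, one_mul]
      _ = κ * (C0 + 1) * (be m xa - be m xb) + ∫ x in Ioc xa xb, ‖t' x‖ := by
          rw [integral_add (hi1.const_mul _) hi2, integral_const_mul, hFTC]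
      _ ≤ κ * (C0 + 1) * (4 * Real.sqrt (xb - xa)) + C0 * q := by gcongr
      _ ≤ _ := by
          have h4 : 0 ≤ κ * Real.sqrt (xb - xa) := by positivity
          have h5 : 0 ≤ C0 * q := by positivity
          nlinarith

end CPL_

open CPL_ in
theorem p_CPL (h1 : T_CMP) (h2 : T_BET) : T_CPL := by
  obtain ⟨C0, hC0, h⟩ := h1
  refine ⟨4 * (C0 + 1), by positivity, ?_⟩
  intro m Z k J J' hm hZ hN
  have hk : (0 : ℝ) < (1 + (k : ℝ)) ^ 3 := by positivity
  have hZ0 : C0 * (1 + (k : ℝ)) ^ 3 ≤ Z := by nlinarith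
  have hZp : 0 < Z := lt_of_lt_of_le (by positivity) hZ0
  obtain ⟨c1, c2, t1, t2, t1', t2', hc1, hc2, hk1, hk2, hd, hi⟩ := h m Z k J J' hm hZ0 hN
  have hq0 : 0 ≤ (1 + (k : ℝ)) ^ 3 / Z := by positivity
  have hq : C0 * ((1 + (k : ℝ)) ^ 3 / Z) ≤ 1 := by
    rw [← mul_div_assoc, div_le_one hZp]
    exact hZ0
  refine ⟨c1, c2, by linarith, by linarith, ?_⟩
  intro xa xb hx1 hab
  have hsub : Icc xa xb ⊆ Ici (x1 m Z) := fun x hx => hx1.trans hx.1
  have hexp : ∀ x ∈ Icc xa xb, m < Real.exp x := by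
    intro x hx
    have h3 : x1 m Z ≤ x := hsub hx
    have h4 : 0 < Z * (1 + m) ^ (1 / 3 : ℝ) := by positivity
    unfold x1 at h3
    have h5 := Real.exp_le_exp.2 h3
    rw [Real.exp_log (by linarith)] at h5
    linarith
  obtain ⟨W1, W1', a1, a2, a3, a4⟩ := branch h2 (σ := k) (κ := k) (C0 := C0)
    (q := (1 + (k : ℝ)) ^ 3 / Z) (c := c1) (t := t1) (t' := t1') hm hab hexp hc1
    (hk1.mono hsub) (fun x hx => ⟨(hd x (hsub hx)).1, (hd x (hsub hx)).2.2.1⟩)
    (hi xa xb hx1 hab).1 (by rw [Nat.abs_cast]) hC0 hq0 hq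
  obtain ⟨W2, W2', b1, b2, b3, b4⟩ := branch h2 (σ := -k) (κ := k) (C0 := C0)
    (q := (1 + (k : ℝ)) ^ 3 / Z) (c := c2) (t := t2) (t' := t2') hm hab hexp hc2
    (hk2.mono hsub) (fun x hx => ⟨(hd x (hsub hx)).2.1, (hd x (hsub hx)).2.2.2.1⟩)
    (hi xa xb hx1 hab).2 (by rw [abs_neg, Nat.abs_cast]) hC0 hq0 hq
  refine ⟨W1, W2, W1', W2', a1, b1, fun x hx => ⟨(a2 x hx).1, (b2 x hx).1, ?_⟩, a3, b3, a4, b4⟩
  rw [(hd x (hsub hx)).2.2.2.2, ← (a2 x hx).2, ← neg_mul, ← neg_mul, ← (b2 x hx).2]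

end Pool.Agent.CRW
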