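import Pool.Agent.CYL.Targets3
import Pool.Agent.CRR.P_RCH

set_option autoImplicit false

/-!
# CRW, all dimensions: radii which depend on two coordinates (MP_ee701d_an)

For `x ∈ ℝ^(m+2)` let `pr x` be its first two coordinates. `T_FNC`: the theorem `T_FIN` for
`R(x) = R₀(pr x)`; `T_GNC`: the growth theorem `T_GRW` for such radii.
-/

namespace Pool.Agent.CRW

open MeasureTheory FourierTransform Set Filter Topology
open scoped ENNReal NNReal ComplexConjugate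
open Pool.Agent.MBS (E ex S)
open Pool.Agent.CRN (Nice T_CARLS)
open Pool.Agent.CRR (T_HANK)
open Pool.Agent.CRL (ev)
open Pool.Agent.CYL (Spl PF GS T_PFT T_MEA T_PLY T_SPL T_GRC GRWc)

/-- the first two coordinates -/
noncomputable def pr {m : ℕ} (x : E (m + 2)) : E 2 := !₂[x 0, x 1]

/-- the first two coordinates, as an embedding -/
noncomputable def ia (m : ℕ) : E 2 →ₗᵢ[ℝ] E (m + 2) where
  toFun t := WithLp.toLp 2 (Fin.cons (t 0) (Fin.cons (t 1) 0))
  map_add' s t := by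
    ext i
    refine Fin.cases (by simp) (fun i => ?_) i
    refine Fin.cases (by simp) (fun i => by simp) i
  map_smul' c t := by
    ext i
    refine Fin.cases (by simp) (fun i => ?_) i
    refine Fin.cases (by simp) (fun i => by simp) i
  norm_map' t := by
    rw [EuclideanSpace.norm_eq, EuclideanSpace.norm_eq, Fin.sum_univ_succ, Fin.sum_univ_succ,
      Fin.sum_univ_two]
    simp

/-- the other coordinates, as an embedding -/
noncomputable def ib (m : ℕ) : E m →ₗᵢ[ℝ] E (m + 2) where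
  toFun y := WithLp.toLp 2 (Fin.cons 0 (Fin.cons 0 y))
  map_add' s t := by
    ext i
    refine Fin.cases (by simp) (fun i => ?_) i
    refine Fin.cases (by simp) (fun i => by simp) i
  map_smul' c t := by
    ext i
    refine Fin.cases (by simp) (fun i => ?_) i
    refine Fin.cases (by simp) (fun i => by simp) i
  norm_map' t := by
    rw [EuclideanSpace.norm_eq, EuclideanSpace.norm_eq, Fin.sum_univ_succ, Fin.sum_univ_succ]
    simp

theorem spl_iab (m : ℕ) : Spl (ia m) (ib m) where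
  orth t y := by
    simp [PiLp.inner_apply, Fin.sum_univ_succ, ia, ib]
  span x := by
    refine ⟨!₂[x 0, x 1], WithLp.toLp 2 fun i => x i.succ.succ, ?_⟩
    ext i
    refine Fin.cases (by simp [ia, ib]) (fun i => ?_) i
    refine Fin.cases (by simp [ia, ib]) (fun i => by simp [ia, ib]) i

theorem pr_iab (m : ℕ) (t : E 2) (y : E m) : pr (ia m t + ib m y) = t := by
  ext i
  fin_cases i <;> simp [pr, ia, ib]

theorem pr_meas (m : ℕ) : Measurable (pr : E (m + 2) → E 2) := by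
  unfold pr
  fun_prop

theorem pr_zero (x : E 2) : pr (m := 0) x = x := by
  ext i
  fin_cases i <;> simp [pr]

/-- the point `(t, y)` -/
noncomputable def jn {m : ℕ} (t : E 2) (y : E m) : E (m + 2) :=
  WithLp.toLp 2 (Fin.cons (t 0) (Fin.cons (t 1) y))

theorem jn_eq (m : ℕ) (t : E 2) (y : E m) : jn t y = ia m t + ib m y := by
  ext i
  refine Fin.cases (by simp [jn, ia, ib]) (fun i => ?_) i
  refine Fin.cases (by simp [jn, ia, ib]) (fun i => by simp [jn, ia, ib]) i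

/-- **FNC**: all dimensions; `A = 0` if the dimension is larger than `2` -/
def T_FNC : Prop := T_DSP → T_HANK → T_CARLS → T_GS1 → ∃ C : ℝ≥0, ∀ (m N : ℕ) (A : ℝ)
  (f : E (m + 2) → ℂ) (R : E 2 → ℝ) (D : Set (E 2)), 1 ≤ N → 0 ≤ A → (m = 0 ∨ A = 0) →
  Nice f → Measurable R → (∀ x, 0 < R x) → MeasurableSet D →
  (∀ r φ : ℝ, 0 < r → r • ev φ ∈ D → R (r • ev φ) * r ≤ N ∨
    ∃ a b : ℝ, a ≤ φ ∧ φ < b ∧ 2 * Real.pi / N ≤ b - a ∧
      ∀ ψ : ℝ, a ≤ ψ → ψ < b → r • ev ψ ∈ D → |R (r • ev ψ) - R (r • ev φ)| ≤ A / r ∨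
        R (r • ev φ) / N ≤ |R (r • ev ψ) - R (r • ev φ)|) →
    ∫⁻ x in {x : E (m + 2) | pr x ∈ D}, ‖S f (R (pr x)) x‖ₑ ^ 2 ≤
      C * ENNReal.ofReal (LL N ^ 12 + Real.log (2 + A) ^ 2) * ∫⁻ x, ‖f x‖ₑ ^ 2

/-- **GNC**: the growth theorem, all dimensions -/
def T_GNC : Prop := GRWc → ∃ C : ℝ≥0, ∀ (m : ℕ) (f : E (m + 2) → ℂ) (R : E 2 → ℝ), Nice f →
  Measurable R → (∀ x, 0 < R x) →
  ∫⁻ x, ‖S f (R (pr x)) x‖ₑ ^ 2 / ENNReal.ofReal (L3 (R (pr x) * ‖pr x‖) ^ 12) ≤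
    C * ∫⁻ x, ‖f x‖ₑ ^ 2

namespace FNC_

/-- transfer from the slices -/
theorem transfer (h3 : T_PFT) (h4 : T_MEA) (h5 : T_PLY) (K : ℝ≥0∞) (hK : K ≠ ⊤)
    {n m d : ℕ} (a : E d →ₗᵢ[ℝ] E n) (b : E m →ₗᵢ[ℝ] E n) (f : E n → ℂ) (R : E d → ℝ)
    (D : Set (E d)) (hs : Spl a b) (hf : Nice f) (hR : Measurable R) (hpos : ∀ t, 0 < R t)
    (H : ∀ c : ℝ, 0 ≤ c → ∀ g : E d → ℂ, Nice g →
      ∫⁻ t in D ∩ {t | c < R t}, ‖S g (Real.sqrt (R t ^ 2 - c ^ 2)) t‖ₑ ^ 2 ≤
        K * ∫⁻ t, ‖g t‖ₑ ^ 2) :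
    ∫⁻ t in D, ∫⁻ y, ‖S f (R t) (a t + b y)‖ₑ ^ 2 ≤ K * ∫⁻ x, ‖f x‖ₑ ^ 2 := by
  obtain ⟨-, hae, hpl⟩ := h3 n d m a b f hs hf
  set ρ : E m × E d → ℝ := fun q => Real.sqrt (R q.2 ^ 2 - ‖q.1‖ ^ 2) with hρ
  have hRm : Measurable fun q : E m × E d => R q.2 := hR.comp measurable_snd
  have hρm : Measurable ρ := ((hRm.pow_const 2).sub (measurable_fst.norm.pow_const 2)).sqrt
  set Φ : E m × E d → ℝ≥0∞ := fun q =>
    if ‖q.1‖ < R q.2 then ‖GS a b f (ρ q) q.1 q.2‖ₑ ^ 2 else 0 with hΦ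
  have hΦm : Measurable Φ := by
    refine Measurable.ite (measurableSet_lt measurable_fst.norm hRm) ?_ measurable_const
    exact (h4 n d m a b f hf ρ hρm).enorm.pow_const 2
  have e1' : ∀ t : E d, ∫⁻ y, ‖S f (R t) (a t + b y)‖ₑ ^ 2 = ∫⁻ η : E m, Φ (η, t) := by
    intro t
    rw [h5 n d m a b f hs hf (R t) t (hpos _), ← lintegral_indicator measurableSet_ball]
    refine lintegral_congr fun η => ?_
    simp only [indicator, Metric.mem_ball, dist_zero_right, hΦ, hρ]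
  simp only [e1']
  rw [lintegral_lintegral_swap (f := fun (t : E d) (η : E m) => Φ (η, t))
    (hΦm.comp measurable_swap).aemeasurable]
  have e2' : ∀ᵐ η : E m, ∫⁻ t : E d in D, Φ (η, t) ≤ K * ∫⁻ t, ‖PF a b f η t‖ₑ ^ 2 := by
    filter_upwards [hae] with η hη
    obtain ⟨hN, hS⟩ := hη
    refine le_trans (le_of_eq ?_) (H ‖η‖ (norm_nonneg _) (PF a b f η) hN)
    have hm : MeasurableSet {t : E d | ‖η‖ < R t} := measurableSet_lt measurable_const hR
    rw [inter_comm, ← Measure.restrict_restrict hm, ← lintegral_indicator hm]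
    refine lintegral_congr fun t => ?_
    simp only [hΦ, hρ, indicator, mem_ofPred_eq]
    split_ifs with h
    · rw [hS]
    · rfl
  calc ∫⁻ η : E m, ∫⁻ t : E d in D, Φ (η, t)
      ≤ ∫⁻ η : E m, K * ∫⁻ t, ‖PF a b f η t‖ₑ ^ 2 := lintegral_mono_ae e2'
    _ = K * ∫⁻ η : E m, ∫⁻ t, ‖PF a b f η t‖ₑ ^ 2 := lintegral_const_mul' _ _ hK
    _ = _ := by rw [hpl]

theorem sqrt_sep {c u v : ℝ} (hc : 0 ≤ c) (hu : c < u) (hv : c < v) :
    |u - v| ≤ |Real.sqrt (u ^ 2 - c ^ 2) - Real.sqrt (v ^ 2 - c ^ 2)| := by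
  have key : ∀ u v : ℝ, c < u → c < v → v ≤ u →
      u - v ≤ Real.sqrt (u ^ 2 - c ^ 2) - Real.sqrt (v ^ 2 - c ^ 2) := by
    intro u v hu hv huv
    have hp0 : 0 < u ^ 2 - c ^ 2 := by nlinarith
    have hq0 : 0 < v ^ 2 - c ^ 2 := by nlinarith
    have hp := Real.sq_sqrt hp0.le
    have hq := Real.sq_sqrt hq0.le
    have hp1 : Real.sqrt (u ^ 2 - c ^ 2) ≤ u := by
      rw [Real.sqrt_le_left (by linarith)]
      nlinarith [sq_nonneg c]
    have hq1 : Real.sqrt (v ^ 2 - c ^ 2) ≤ v := by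
      rw [Real.sqrt_le_left (by linarith)]
      nlinarith [sq_nonneg c]
    have hp2 := Real.sqrt_pos.2 hp0
    have hq2 := Real.sqrt_pos.2 hq0
    set p := Real.sqrt (u ^ 2 - c ^ 2)
    set q := Real.sqrt (v ^ 2 - c ^ 2)
    have h1 : (p - q) * (p + q) = (u - v) * (u + v) := by nlinarith
    have h2 : (u - v) * (p + q) ≤ (u - v) * (u + v) :=
      mul_le_mul_of_nonneg_left (by linarith) (by linarith)
    have h3 : (u - v) * (p + q) ≤ (p - q) * (p + q) := by linarith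
    exact le_of_mul_le_mul_right h3 (by linarith)
  rcases le_total v u with h | h
  · rw [abs_of_nonneg (by linarith : 0 ≤ u - v)]
    exact (key u v hu hv h).trans (le_abs_self _)
  · rw [abs_sub_comm, abs_of_nonneg (by linarith : 0 ≤ v - u), abs_sub_comm]
    exact (key v u hv hu h).trans (le_abs_self _)

/-- the radius on the slice -/
noncomputable def rs (R : E 2 → ℝ) (c : ℝ) (t : E 2) : ℝ :=
  if c < R t then Real.sqrt (R t ^ 2 - c ^ 2) else 1

theorem rs_meas {R : E 2 → ℝ} (hR : Measurable R) (c : ℝ) : Measurable (rs R c) := by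
  unfold rs
  refine Measurable.ite (measurableSet_lt measurable_const hR) ?_ measurable_const
  exact ((hR.pow_const 2).sub_const _).sqrt

theorem rs_pos (R : E 2 → ℝ) {c : ℝ} (hc : 0 ≤ c) (t : E 2) : 0 < rs R c t := by
  unfold rs
  split_ifs with h
  · refine Real.sqrt_pos.2 ?_
    nlinarith
  · exact one_pos

theorem rs_le {R : E 2 → ℝ} {c : ℝ} (hc : 0 ≤ c) {t : E 2} (h : c < R t) :
    rs R c t ≤ R t := by
  unfold rs
  rw [if_pos h, Real.sqrt_le_left (by linarith)]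
  nlinarith [sq_nonneg c]

end FNC_

open FNC_ in
theorem p_FNC (h1 : T_FIN) (h2 : T_SPL) (h3 : T_PFT) (h4 : T_MEA) (h5 : T_PLY) : T_FNC := by
  intro g1 g2 g3 g4
  obtain ⟨C, hC⟩ := h1 g1 g2 g3 g4
  refine ⟨C, fun m N A f R D hN hA hmA hf hR hpos hD hyp => ?_⟩
  rcases hmA with rfl | rfl
  · have hm : {x : E (0 + 2) | pr x ∈ D} = D := by
      ext x
      rw [mem_ofPred_eq, pr_zero]
    have key := hC N A f R D hN hA hf hR hpos hD hyp
    rw [hm]
    refine le_trans (le_of_eq ?_) key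
    refine lintegral_congr fun x => ?_
    rw [pr_zero]
  · have hm : Measurable (fun x : E (m + 2) => {x : E (m + 2) | pr x ∈ D}.indicator
        (fun x => ‖S f (R (pr x)) x‖ₑ ^ 2) x) :=
      ((Pool.Agent.CRR.RCH_.S_meas hf.int (hR.comp (pr_meas m))).enorm.pow_const 2).indicator
        (pr_meas m hD)
    have hmD : MeasurableSet {x : E (m + 2) | pr x ∈ D} := pr_meas m hD
    rw [← lintegral_indicator hmD, (h2 (m + 2) 2 m (ia m) (ib m) (spl_iab m)).2.1 _ hm]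
    refine le_trans (le_of_eq ?_) (transfer h3 h4 h5
      (C * ENNReal.ofReal (LL N ^ 12 + Real.log (2 + 0) ^ 2)) (by finiteness) (ia m) (ib m) f R D
      (spl_iab m) hf hR hpos ?_)
    · rw [← lintegral_indicator hD]
      refine lintegral_congr fun t => ?_
      by_cases ht : t ∈ D
      · rw [indicator_of_mem ht]
        refine lintegral_congr fun y => ?_
        rw [indicator_of_mem (by rw [mem_ofPred_eq, pr_iab]; exact ht), pr_iab]
      · rw [indicator_of_notMem ht, ← lintegral_zero (μ := (volume : Measure (E m)))]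
        refine lintegral_congr fun y => ?_
        rw [indicator_of_notMem (by rw [mem_ofPred_eq, pr_iab]; exact ht)]
    · intro c hc g hg
      have hDc : MeasurableSet (D ∩ {t | c < R t}) :=
        hD.inter (measurableSet_lt measurable_const hR)
      refine le_trans (le_of_eq ?_) (hC N 0 g (rs R c) (D ∩ {t | c < R t}) hN le_rfl hg
        (rs_meas hR c) (rs_pos R hc) hDc ?_)
      · refine setLIntegral_congr_fun hDc fun t ht => ?_
        have h : c < R t := ht.2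
        have e : rs R c t = Real.sqrt (R t ^ 2 - c ^ 2) := if_pos h
        simp only [e]
      · rintro r φ hr ⟨hφ, hcφ⟩
        rcases hyp r φ hr hφ with h | ⟨a, b, ha, hb, hab, h⟩
        · left
          exact (mul_le_mul_of_nonneg_right (rs_le hc hcφ) hr.le).trans h
        · right
          refine ⟨a, b, ha, hb, hab, ?_⟩
          rintro ψ hψ1 hψ2 ⟨hψ, hcψ⟩
          rcases h ψ hψ1 hψ2 hψ with h | h
          · left
            have : R (r • ev ψ) = R (r • ev φ) := by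
              rw [zero_div] at h
              have := abs_nonpos_iff.1 h
              linarith
            simp only [rs, this, sub_self, abs_zero, zero_div, le_refl]
          · right
            refine le_trans ?_ (h.trans ?_)
            · gcongr
              exact rs_le hc hcφ
            · have e1 : rs R c (r • ev φ) = Real.sqrt (R (r • ev φ) ^ 2 - c ^ 2) := if_pos hcφ
              have e2 : rs R c (r • ev ψ) = Real.sqrt (R (r • ev ψ) ^ 2 - c ^ 2) := if_pos hcψ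
              rw [e1, e2]
              exact sqrt_sep hc hcψ hcφ

open FNC_ in
theorem p_GNC (h1 : T_GRC) (h2 : T_SPL) : T_GNC := by
  intro hG
  obtain ⟨C, hC⟩ := h1 hG
  refine ⟨C, fun m f R hf hR hR0 => ?_⟩
  have hL3 : Measurable L3 := by
    unfold L3
    fun_prop
  have hL3p : ∀ s : ℝ, 0 ≤ s → 0 < L3 s := by
    intro s hs
    unfold L3
    refine Real.log_pos ?_
    have : 0 ≤ Real.log (3 + s) := Real.log_nonneg (by linarith)
    linarith
  have hm : Measurable (fun x : E (m + 2) => ‖S f (R (pr x)) x‖ₑ ^ 2 /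
      ENNReal.ofReal (L3 (R (pr x) * ‖pr x‖) ^ 12)) :=
    ((Pool.Agent.CRR.RCH_.S_meas hf.int (hR.comp (pr_meas m))).enorm.pow_const 2).div
      (ENNReal.measurable_ofReal.comp
        ((hL3.comp ((hR.comp (pr_meas m)).mul (pr_meas m).norm)).pow_const 12))
  rw [(h2 (m + 2) 2 m (ia m) (ib m) (spl_iab m)).2.1 _ hm]
  refine le_trans ?_ (hC (m + 2) m (ia m) (ib m) f (spl_iab m) hf)
  refine lintegral_mono fun t => ?_
  have e : ∀ y : E m, ‖S f (R (pr (ia m t + ib m y))) (ia m t + ib m y)‖ₑ ^ 2 /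
      ENNReal.ofReal (L3 (R (pr (ia m t + ib m y)) * ‖pr (ia m t + ib m y)‖) ^ 12) =
      ‖S f (R t) (ia m t + ib m y)‖ₑ ^ 2 * (ENNReal.ofReal (L3 (R t * ‖t‖) ^ 12))⁻¹ := by
    intro y
    rw [pr_iab, div_eq_mul_inv]
  simp only [e]
  have hp : ENNReal.ofReal (L3 (R t * ‖t‖) ^ 12) ≠ 0 := by
    have : 0 < L3 (R t * ‖t‖) ^ 12 :=
      pow_pos (hL3p _ (mul_nonneg (hR0 _).le (norm_nonneg _))) 12
    simpa using this
  rw [lintegral_mul_const' _ _ (ENNReal.inv_ne_top.2 hp), ← div_eq_mul_inv]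
  exact le_iSup₂_of_le (R t) (hR0 _) le_rfl

/-- **FNJ**: FNC with iterated integrals -/
def T_FNJ : Prop := T_DSP → T_HANK → T_CARLS → T_GS1 → ∃ C : ℝ≥0, ∀ (m N : ℕ) (A : ℝ)
  (f : E (m + 2) → ℂ) (R : E 2 → ℝ) (D : Set (E 2)), 1 ≤ N → 0 ≤ A → (m = 0 ∨ A = 0) →
  Nice f → Measurable R → (∀ x, 0 < R x) → MeasurableSet D →
  (∀ r φ : ℝ, 0 < r → r • ev φ ∈ D → R (r • ev φ) * r ≤ N ∨
    ∃ a b : ℝ, a ≤ φ ∧ φ < b ∧ 2 * Real.pi / N ≤ b - a ∧
      ∀ ψ : ℝ, a ≤ ψ → ψ < b → r • ev ψ ∈ D → |R (r • ev ψ) - R (r • ev φ)| ≤ A / r ∨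
        R (r • ev φ) / N ≤ |R (r • ev ψ) - R (r • ev φ)|) →
    ∫⁻ t in D, ∫⁻ y : E m, ‖S f (R t) (jn t y)‖ₑ ^ 2 ≤
      C * ENNReal.ofReal (LL N ^ 12 + Real.log (2 + A) ^ 2) * ∫⁻ x, ‖f x‖ₑ ^ 2

/-- **GNJ**: the growth theorem, all dimensions, supremum inside -/
def T_GNJ : Prop := GRWc → ∃ C : ℝ≥0, ∀ (m : ℕ) (f : E (m + 2) → ℂ), Nice f →
  ∫⁻ t : E 2, (⨆ (R : ℝ) (_ : 0 < R), (∫⁻ y : E m, ‖S f R (jn t y)‖ₑ ^ 2) /
    ENNReal.ofReal (L3 (R * ‖t‖) ^ 12)) ≤ C * ∫⁻ x, ‖f x‖ₑ ^ 2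

theorem p_FNJ (h1 : T_FNC) (h2 : T_SPL) : T_FNJ := by
  intro g1 g2 g3 g4
  obtain ⟨C, hC⟩ := h1 g1 g2 g3 g4
  refine ⟨C, fun m N A f R D hN hA hmA hf hR hpos hD hyp => ?_⟩
  refine le_trans (le_of_eq ?_) (hC m N A f R D hN hA hmA hf hR hpos hD hyp)
  have hm : Measurable (fun x : E (m + 2) => {x : E (m + 2) | pr x ∈ D}.indicator
      (fun x => ‖S f (R (pr x)) x‖ₑ ^ 2) x) :=
    ((Pool.Agent.CRR.RCH_.S_meas hf.int (hR.comp (pr_meas m))).enorm.pow_const 2).indicator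
      (pr_meas m hD)
  have hmD : MeasurableSet {x : E (m + 2) | pr x ∈ D} := pr_meas m hD
  rw [← lintegral_indicator hmD, (h2 (m + 2) 2 m (ia m) (ib m) (spl_iab m)).2.1 _ hm,
    ← lintegral_indicator hD]
  refine lintegral_congr fun t => ?_
  by_cases ht : t ∈ D
  · rw [indicator_of_mem ht]
    refine lintegral_congr fun y => ?_
    rw [indicator_of_mem (by rw [mem_ofPred_eq, pr_iab]; exact ht), pr_iab, jn_eq]
  · rw [indicator_of_notMem ht, ← lintegral_zero (μ := (volume : Measure (E m)))]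
    refine lintegral_congr fun y => ?_
    rw [indicator_of_notMem (by rw [mem_ofPred_eq, pr_iab]; exact ht)]

theorem p_GNJ (h1 : T_GRC) : T_GNJ := by
  intro hG
  obtain ⟨C, hC⟩ := h1 hG
  refine ⟨C, fun m f hf => ?_⟩
  simp only [jn_eq]
  exact hC (m + 2) m (ia m) (ib m) f (spl_iab m) hf

end Pool.Agent.CRW
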