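import Pool.Agent.CRW.Targets4
import Pool.Agent.GRO.Targets

set_option autoImplicit false

/-!
# CRW: GS1, the local theorem in the growth form
-/

namespace Pool.Agent.CRW

open MeasureTheory FourierTransform Set Filter Topology
open scoped ENNReal NNReal ComplexConjugate
open Pool.Agent.MBS (E ex S Sstar)

/-- GS1 -/
theorem p_GS1 (h1 : Pool.Agent.GRO.T_GSS) : T_GS1 := by
  obtain ⟨C, hC⟩ := h1
  refine ⟨C, fun g hg => ?_⟩
  obtain ⟨e, he⟩ : ∃ e : E 2, ‖e‖ = 1 := by
    refine ⟨EuclideanSpace.single 0 1, ?_⟩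
    simp
  have h := hC 12 {e} (Finset.singleton_nonempty e) g 0 (by norm_num) le_rfl
    (fun e' he' => by rw [Finset.mem_singleton.1 he']; exact he) hg
  have hw1 : ∀ t : ℝ, Pool.Agent.GRO.w (12 - 12) t = 1 := by
    intro t
    unfold Pool.Agent.GRO.w
    rw [sub_self, Real.rpow_zero, ENNReal.ofReal_one]
  have hw2 : ∀ t : ℝ, Pool.Agent.GRO.w (12 / 2) t = ENNReal.ofReal (L3 t ^ 6) := by
    intro t
    unfold Pool.Agent.GRO.w Pool.Agent.GRO.LL L3
    rw [show (12 : ℝ) / 2 = ((6 : ℕ) : ℝ) by norm_num, Real.rpow_natCast]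
  simp only [hw1, mul_one, Finset.card_singleton, Nat.cast_one] at h
  refine le_trans (le_of_eq ?_) h
  refine lintegral_congr fun x => ?_
  unfold Pool.Agent.GRO.Ma BI
  simp only [hw2]

end Pool.Agent.CRW
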