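import Pool.Agent.CRW.Targets5
import Pool.Agent.CRN.P_SERN
import Pool.Agent.CRL.P_MODA

set_option autoImplicit false

/-!
# CRW: LAE, convergence for angular frequencies in a `Λ(6)` set
-/

namespace Pool.Agent.CRW

open MeasureTheory FourierTransform Set Filter Topology
open scoped ENNReal NNReal ComplexConjugate Convolution
open Pool.Agent.MBS (E ex S Sstar)
open Pool.Agent.CRN (ci Nice)
open Pool.Agent.CRL (ev rot amode T_MODA)
open Pool.Agent.CRN.SERN_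

namespace LAE_

theorem toL {f : E 2 → ℂ} (h : Nice f) : Pool.Agent.CRL.Nice f := ⟨h.meas, h.int, h.sq⟩

theorem ofL {f : E 2 → ℂ} (h : Pool.Agent.CRL.Nice f) : Nice f := ⟨h.meas, h.int, h.sq⟩

theorem fcon {f : E 2 → ℂ} (hf : Integrable f) : Continuous (𝓕 f) :=
  Pool.Agent.CRN.SERN_.fc hf

/-- the modes of the Fourier transform vanish -/
theorem modes_F {Λ : Set ℤ} (h2 : T_MODA) {f : E 2 → ℂ} (hf : Nice f) (hA : AF Λ f) (m : ℤ)
    (hm : m ∉ Λ) (ξ : E 2) : amode m (𝓕 f) ξ = 0 := by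
  obtain ⟨-, -, h3, -⟩ := h2 m f (toL hf)
  rw [← h3, Real.fourier_eq]
  have h4 : ∀ᵐ v : E 2, Real.fourierChar (-(inner ℝ v ξ : ℝ)) • amode m f v = 0 := by
    filter_upwards [hA m hm] with v hv
    rw [hv, smul_zero]
  rw [integral_congr_ae h4, integral_zero]

/-- a radial factor -/
theorem modes_mul {F ρ : E 2 → ℂ} (hρ : ∀ x y, ‖x‖ = ‖y‖ → ρ x = ρ y) (m : ℤ) (ξ : E 2) :
    amode m (fun η => F η * ρ η) ξ = amode m F ξ * ρ ξ := by
  unfold amode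
  have h1 : ∀ θ : ℝ, F (rot θ ξ) * ρ (rot θ ξ) * Pool.Agent.CRL.ci (-(m * θ)) =
      (F (rot θ ξ) * Pool.Agent.CRL.ci (-(m * θ))) * ρ ξ := by
    intro θ
    rw [hρ _ _ (Pool.Agent.CRL.MODA_.norm_rot θ ξ)]
    ring
  simp only [h1]
  rw [intervalIntegral.integral_mul_const]
  ring

theorem AF_of {Λ : Set ℤ} (h2 : T_MODA) {w : E 2 → ℂ} (hw : Nice w)
    (h : ∀ m : ℤ, m ∉ Λ → ∀ ξ, amode m (𝓕 w) ξ = 0) : AF Λ w := by
  intro m hm
  obtain ⟨h3, -, h4, -⟩ := h2 m w (toL hw)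
  have h5 : ∫⁻ x, ‖amode m w x‖ₑ ^ 2 = 0 := by
    rw [← planch (ofL h3), h4]
    simp only [h m hm]
    simp
  rw [lintegral_eq_zero_iff (h3.meas.enorm.pow_const 2)] at h5
  filter_upwards [h5] with x hx
  simpa using hx

theorem approx {g : E 2 → ℂ} (hg : Nice g) {e : ℝ} (he : 0 < e) :
    ∃ h ρ : E 2 → ℂ, Nice h ∧ (∀ x y, ‖x‖ = ‖y‖ → ρ x = ρ y) ∧ (∀ ξ, 𝓕 h ξ = 𝓕 g ξ * ρ ξ) ∧
      (∀ x, Tendsto (fun R : ℝ => S h R x) atTop (𝓝 (h x))) ∧
      ∫⁻ x, ‖g x - h x‖ₑ ^ 2 ≤ ENNReal.ofReal e := by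
  set H : ℝ → E 2 → ℂ := fun d x => ∫ t, g t * 𝓕 (ga 2 d) (x - t) with hH
  have hφi : ∀ d : ℝ, 0 < d → Integrable (𝓕 (ga 2 d)) := by
    intro d hd
    have h1 : 𝓕 (ga 2 d) = fun w => ((Real.pi : ℂ) / d) ^ (((2 : ℕ) : ℂ) / 2) *
        ga 2 (Real.pi ^ 2 / d) w := funext fun w => ga_fourier hd w
    rw [h1]
    exact (ga_int (by positivity)).const_mul _
  have hφc : ∀ d : ℝ, 0 < d → Continuous (𝓕 (ga 2 d)) := fun d hd => fcon (ga_int hd)
  have hφb : ∀ d : ℝ, ∀ x, ‖𝓕 (ga 2 d) x‖ ≤ ∫ y, ‖ga 2 d y‖ := fun d x => fourier_bdd x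
  have hconv : ∀ d : ℝ, H d = g ⋆[ContinuousLinearMap.mul ℂ ℂ, volume] 𝓕 (ga 2 d) :=
    fun d => rfl
  have hHc : ∀ d : ℝ, 0 < d → Continuous (H d) := by
    intro d hd
    rw [hconv d]
    refine BddAbove.continuous_convolution_right_of_integrable _ ?_ hg.int (hφc d hd)
    exact ⟨∫ y, ‖ga 2 d y‖, by rintro _ ⟨x, rfl⟩; exact hφb d x⟩
  have hHi : ∀ d : ℝ, 0 < d → Integrable (H d) := by
    intro d hd
    rw [hconv d]
    exact hg.int.integrable_convolution _ (hφi d hd)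
  have hHb : ∀ d : ℝ, 0 < d → ∀ x, ‖H d x‖ ≤ (∫ t, ‖g t‖) * ∫ y, ‖ga 2 d y‖ := by
    intro d hd x
    rw [hH]
    refine (norm_integral_le_integral_norm _).trans ?_
    rw [← integral_mul_const]
    refine integral_mono_of_nonneg (ae_of_all _ fun t => norm_nonneg _)
      (hg.int.norm.mul_const _) (ae_of_all _ fun t => ?_)
    show ‖g t * 𝓕 (ga 2 d) (x - t)‖ ≤ ‖g t‖ * ∫ y, ‖ga 2 d y‖
    rw [norm_mul]
    exact mul_le_mul_of_nonneg_left (hφb d _) (norm_nonneg _)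
  have hHn : ∀ d : ℝ, 0 < d → Nice (H d) := by
    intro d hd
    refine ⟨(hHc d hd).measurable, hHi d hd, ?_⟩
    rw [memLp_two_iff_integrable_sq_norm (hHc d hd).aestronglyMeasurable]
    have h1 : (fun x => ‖H d x‖ ^ 2) = fun x => ‖H d x‖ * ‖H d x‖ := funext fun x => sq _
    rw [h1]
    refine (hHi d hd).norm.mul_bdd (c := (∫ t, ‖g t‖) * ∫ y, ‖ga 2 d y‖)
      (hHc d hd).norm.aestronglyMeasurable (ae_of_all _ fun x => ?_)
    rw [norm_norm]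
    exact hHb d hd x
  have hHf : ∀ d : ℝ, 0 < d → ∀ ξ, 𝓕 (H d) ξ = 𝓕 g ξ * ga 2 d ξ := by
    intro d hd ξ
    rw [hconv d, Real.fourier_mul_convolution_eq hg.int (hφi d hd), ga_double hd]
  have hfi : ∀ d : ℝ, 0 < d → Integrable (𝓕 (H d)) := by
    intro d hd
    have h1 : 𝓕 (H d) = fun ξ => ga 2 d ξ * 𝓕 g ξ := funext fun ξ => by
      rw [hHf d hd ξ, mul_comm]
    rw [h1]
    exact (ga_int hd).mul_bdd (c := ∫ x, ‖g x‖) (fcon hg.int).aestronglyMeasurable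
      (ae_of_all _ fun ξ => fourier_bdd ξ)
  have hlim : Tendsto (fun m : ℕ => ∫⁻ x, ‖g x - H (1 / ((m : ℝ) + 1)) x‖ₑ ^ 2) atTop (𝓝 0) := by
    have h1 : ∀ m : ℕ, ∫⁻ x, ‖g x - H (1 / ((m : ℝ) + 1)) x‖ₑ ^ 2 =
        ∫⁻ ξ, ‖𝓕 g ξ * (1 - ga 2 (1 / ((m : ℝ) + 1)) ξ)‖ₑ ^ 2 := by
      intro m
      have hd : (0 : ℝ) < 1 / ((m : ℝ) + 1) := by positivity
      rw [← planch (nice_sub hg (hHn _ hd))]
      refine lintegral_congr fun ξ => ?_
      rw [f_sub hg.int (hHi _ hd), hHf _ hd]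
      congr 2
      ring
    simp only [h1]
    have h2 := tendsto_lintegral_of_dominated_convergence
      (μ := (volume : Measure (E 2)))
      (F := fun (m : ℕ) ξ => ‖𝓕 g ξ * (1 - ga 2 (1 / ((m : ℝ) + 1)) ξ)‖ₑ ^ 2)
      (f := fun _ => (0 : ℝ≥0∞)) (fun ξ => 4 * ‖𝓕 g ξ‖ₑ ^ 2)
      (fun m => (((fcon hg.int).mul (continuous_const.sub (ga_cont _))).measurable.enorm).pow_const 2)
      (fun m => ae_of_all _ fun ξ => ?_) ?_ (ae_of_all _ fun ξ => ?_)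
    · simpa using h2
    · show ‖𝓕 g ξ * (1 - ga 2 (1 / ((m : ℝ) + 1)) ξ)‖ₑ ^ 2 ≤ 4 * ‖𝓕 g ξ‖ₑ ^ 2
      have h3 : ‖1 - ga 2 (1 / ((m : ℝ) + 1)) ξ‖ₑ ≤ 2 := by
        have h4 : ‖1 - ga 2 (1 / ((m : ℝ) + 1)) ξ‖ ≤ 2 := by
          refine (norm_sub_le _ _).trans ?_
          have h5 := ga_le (n := 2) (1 / ((m : ℝ) + 1)) (by positivity) ξ
          rw [norm_one]
          linarith
        rw [← ofReal_norm]
        calc ENNReal.ofReal ‖1 - ga 2 (1 / ((m : ℝ) + 1)) ξ‖ ≤ ENNReal.ofReal 2 :=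
              ENNReal.ofReal_le_ofReal h4
          _ = 2 := by norm_num
      rw [enorm_mul, mul_pow, mul_comm]
      calc ‖1 - ga 2 (1 / ((m : ℝ) + 1)) ξ‖ₑ ^ 2 * ‖𝓕 g ξ‖ₑ ^ 2 ≤ 2 ^ 2 * ‖𝓕 g ξ‖ₑ ^ 2 := by
            gcongr
        _ = 4 * ‖𝓕 g ξ‖ₑ ^ 2 := by norm_num
    · rw [lintegral_const_mul _ ((fcon hg.int).measurable.enorm.pow_const 2), planch hg, lint_eLp]
      exact ENNReal.mul_ne_top (by norm_num) (ENNReal.pow_ne_top hg.sq.2.ne)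
    · have h4 : Tendsto (fun m : ℕ => 𝓕 g ξ * (1 - ga 2 (1 / ((m : ℝ) + 1)) ξ)) atTop
          (𝓝 (𝓕 g ξ * (1 - 1))) := by
        refine Tendsto.const_mul _ (Tendsto.const_sub _ ?_)
        have h5 : Tendsto (fun m : ℕ => ga 2 (1 / ((m : ℝ) + 1)) ξ) atTop (𝓝 (ga 2 0 ξ)) := by
          have h6 : Continuous fun d : ℝ => ga 2 d ξ := by
            unfold ga
            fun_prop
          exact (h6.tendsto 0).comp (tendsto_one_div_add_atTop_nhds_zero_nat (𝕜 := ℝ))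
        have h7 : ga 2 0 ξ = 1 := by
          unfold ga
          simp
        rw [h7] at h5
        exact h5
      rw [sub_self, mul_zero] at h4
      have h5 := h4.enorm
      rw [enorm_zero] at h5
      have h6 := ((ENNReal.continuous_pow 2).tendsto 0).comp h5
      simpa [Function.comp_def] using h6
  have hev := (tendsto_order.1 hlim).2 (ENNReal.ofReal e) (ENNReal.ofReal_pos.2 he)
  obtain ⟨m, hm⟩ := hev.exists
  have hd : (0 : ℝ) < 1 / ((m : ℝ) + 1) := by positivity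
  refine ⟨H (1 / ((m : ℝ) + 1)), ga 2 (1 / ((m : ℝ) + 1)), hHn _ hd, ?_, hHf _ hd,
    fun x => conv_good (hHc _ hd) (hHi _ hd) (hfi _ hd) x, hm.le⟩
  intro x y hxy
  unfold ga
  rw [hxy]

end LAE_

open LAE_ in
/-- LAE -/
theorem p_LAE (h1 : T_LAM) (h2 : T_MODA) : T_LAE := by
  obtain ⟨C, hC⟩ := h1
  intro Λ B f hΛ hf hA
  refine conv_of fun e he => ?_
  set A : ℝ := C * (1 + B) with hAdef
  have hA0 : 0 ≤ A := by positivity
  obtain ⟨h, ρ, hh, hρ, hF, hhc, hhe⟩ := approx hf (show (0 : ℝ) < e / (A + 1) by positivity)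
  have hw : Nice (fun x => f x - h x) := nice_sub hf hh
  have hwA : AF Λ (fun x => f x - h x) := by
    refine AF_of h2 hw fun m hm ξ => ?_
    have e1 : 𝓕 (fun x => f x - h x) = fun ξ => 𝓕 f ξ * (1 - ρ ξ) := by
      funext ξ
      rw [f_sub hf.int hh.int, hF]
      ring
    rw [e1, modes_mul (fun x y hxy => by rw [hρ x y hxy]), modes_F h2 hf hA m hm, zero_mul]
  refine ⟨fun x => f x - h x, h, hw, hh, fun x => by ring, ?_, ?_, ae_of_all _ hhc⟩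
  · refine (hC Λ B _ hΛ hw hwA).trans ?_
    calc (C : ℝ≥0∞) * (1 + B) * ∫⁻ x, ‖f x - h x‖ₑ ^ 2
        ≤ (C : ℝ≥0∞) * (1 + B) * ENNReal.ofReal (e / (A + 1)) := by gcongr
      _ = ENNReal.ofReal (A * (e / (A + 1))) := by
          rw [ENNReal.ofReal_mul hA0, hAdef, ENNReal.ofReal_mul (NNReal.coe_nonneg C),
            ENNReal.ofReal_coe_nnreal, ENNReal.ofReal_add (by norm_num) (NNReal.coe_nonneg B),
            ENNReal.ofReal_coe_nnreal, ENNReal.ofReal_one]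
      _ ≤ ENNReal.ofReal e := by
          refine ENNReal.ofReal_le_ofReal ?_
          rw [mul_div_assoc', div_le_iff₀ (by positivity)]
          nlinarith
  · refine hhe.trans (ENNReal.ofReal_le_ofReal ?_)
    exact div_le_self he.le (by linarith)

end Pool.Agent.CRW
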