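import Pool.Agent.CRW.Targets3
import Pool.Agent.CRL.P_MODA

set_option autoImplicit false

/-!
# CRW, SCM: ball sums and angular coefficients
-/

namespace Pool.Agent.CRW

open MeasureTheory FourierTransform Set Filter Topology
open scoped ENNReal NNReal ComplexConjugate
open Pool.Agent.MBS (E ex S Sstar)
open Pool.Agent.CRN (ci SH S1 Nice T_DSN)
open Pool.Agent.CRL (ev rot amode T_MODA)
open Pool.Agent.CRL.MODA_

namespace SCM_

theorem toL {f : E 2 → ℂ} (h : Nice f) : Pool.Agent.CRL.Nice f := ⟨h.meas, h.int, h.sq⟩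

theorem F_cont {f : E 2 → ℂ} (hf : Nice f) : Continuous (𝓕 f) :=
  VectorFourier.fourierIntegral_continuous Real.continuous_fourierChar
    (by exact continuous_inner) hf.int

theorem F_bd (f : E 2 → ℂ) (ξ : E 2) : ‖𝓕 f ξ‖ ≤ ∫ x, ‖f x‖ := by
  exact VectorFourier.norm_fourierIntegral_le_integral_norm Real.fourierChar volume
    (innerₗ (E 2)) f ξ

theorem S_cont {f : E 2 → ℂ} (hf : Nice f) (R : ℝ) : Continuous (fun x => S f R x) := by
  have h : IntegrableOn (𝓕 f) (Metric.closedBall (0 : E 2) R) :=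
    (F_cont hf).continuousOn.integrableOn_compact (isCompact_closedBall _ _)
  unfold S
  refine continuous_of_dominated (bound := fun ξ => ‖𝓕 f ξ‖)
    (fun x => ?_) (fun x => ae_of_all _ fun ξ => ?_) h.norm (ae_of_all _ fun ξ => ?_)
  · exact (F_cont hf).aestronglyMeasurable.mul
      (Pool.Agent.MBS.ex_continuous.comp (Continuous.prodMk_right x)).aestronglyMeasurable
  · rw [norm_mul, Pool.Agent.MBS.ex_norm, mul_one]
  · exact continuous_const.mul (Pool.Agent.MBS.ex_continuous.comp (Continuous.prodMk_left ξ))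

theorem ex_rot (θ : ℝ) (x ξ : E 2) : ex (rot θ x) (rot θ ξ) = ex x ξ := by
  unfold ex
  have h : (inner ℝ (rot θ x) (rot θ ξ) : ℝ) = inner ℝ x ξ := (rotL θ).inner_map_map x ξ
  rw [h]

theorem pre (θ R : ℝ) : rot θ ⁻¹' Metric.closedBall (0 : E 2) R = Metric.closedBall 0 R := by
  ext x
  simp only [mem_preimage, mem_closedBall_zero_iff, norm_rot]

theorem S_rot (f : E 2 → ℂ) (R θ : ℝ) (x : E 2) :
    S f R (rot θ x) = ∫ ξ in Metric.closedBall (0 : E 2) R, 𝓕 f (rot θ ξ) * ex x ξ := by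
  have h := (mp_rot θ).setIntegral_preimage_emb (rotL θ).toHomeomorph.measurableEmbedding
    (fun η => 𝓕 f η * ex (rot θ x) η) (Metric.closedBall (0 : E 2) R)
  rw [pre] at h
  unfold S
  rw [← h]
  refine setIntegral_congr_fun measurableSet_closedBall fun ξ _ => ?_
  rw [ex_rot]

theorem part1 {f : E 2 → ℂ} (hf : Nice f) (m : ℤ) (R : ℝ) (x : E 2) :
    S (amode m f) R x = amode m (S f R) x := by
  have h0 : 𝓕 (amode m f) = amode m (𝓕 f) := four (toL hf) m
  have hm : Continuous (Function.uncurry fun (ξ : E 2) (θ : ℝ) =>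
      𝓕 f (rot θ ξ) * Pool.Agent.CRL.ci (-(m * θ)) * ex x ξ) := by
    have c1 : Continuous (fun p : E 2 × ℝ => 𝓕 f (rot p.2 p.1)) := (F_cont hf).comp cont_rot
    have c2 : Continuous (fun p : E 2 × ℝ => Pool.Agent.CRL.ci (-(m * p.2))) :=
      cont_ci.comp (by fun_prop)
    have c3 : Continuous (fun p : E 2 × ℝ => ex x p.1) :=
      Pool.Agent.MBS.ex_continuous.comp (continuous_const.prodMk continuous_fst)
    exact (c1.mul c2).mul c3
  have hint : Integrable (Function.uncurry fun (ξ : E 2) (θ : ℝ) =>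
      𝓕 f (rot θ ξ) * Pool.Agent.CRL.ci (-(m * θ)) * ex x ξ)
      ((volume.restrict (Metric.closedBall (0 : E 2) R)).prod
        (volume.restrict (Ioc (-Real.pi) Real.pi))) := by
    have : IsFiniteMeasure (volume.restrict (Metric.closedBall (0 : E 2) R)) :=
      ⟨by rw [Measure.restrict_apply_univ]; exact measure_closedBall_lt_top⟩
    refine Integrable.of_bound hm.aestronglyMeasurable (∫ x, ‖f x‖) (ae_of_all _ fun p => ?_)
    change ‖𝓕 f (rot p.2 p.1) * Pool.Agent.CRL.ci (-(m * p.2)) * ex x p.1‖ ≤ _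
    rw [norm_mul, norm_mul, norm_ci, Pool.Agent.MBS.ex_norm, mul_one, mul_one]
    exact F_bd f _
  have h1 : ∀ ξ : E 2, amode m (𝓕 f) ξ * ex x ξ =
      (((2 * Real.pi)⁻¹ : ℝ) : ℂ) * ∫ θ in Ioc (-Real.pi) Real.pi,
        𝓕 f (rot θ ξ) * Pool.Agent.CRL.ci (-(m * θ)) * ex x ξ := by
    intro ξ
    unfold amode
    rw [intervalIntegral.integral_of_le pile, integral_mul_const]
    ring
  have h2 : S (amode m f) R x =
      ∫ ξ in Metric.closedBall (0 : E 2) R, (((2 * Real.pi)⁻¹ : ℝ) : ℂ) *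
        ∫ θ in Ioc (-Real.pi) Real.pi,
          𝓕 f (rot θ ξ) * Pool.Agent.CRL.ci (-(m * θ)) * ex x ξ := by
    unfold S
    rw [h0]
    exact integral_congr_ae (ae_of_all _ fun ξ => h1 ξ)
  rw [h2, integral_const_mul, integral_integral_swap hint]
  unfold amode
  rw [intervalIntegral.integral_of_le pile]
  congr 1
  refine setIntegral_congr_fun measurableSet_Ioc fun θ _ => ?_
  change ∫ ξ in Metric.closedBall (0 : E 2) R,
      𝓕 f (rot θ ξ) * Pool.Agent.CRL.ci (-(m * θ)) * ex x ξ =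
    S f R (rot θ x) * Pool.Agent.CRL.ci (-(m * θ))
  rw [S_rot, ← integral_mul_const]
  refine integral_congr_ae (ae_of_all _ fun ξ => ?_)
  change 𝓕 f (rot θ ξ) * Pool.Agent.CRL.ci (-(m * θ)) * ex x ξ =
    𝓕 f (rot θ ξ) * ex x ξ * Pool.Agent.CRL.ci (-(m * θ))
  ring

theorem rot_ev (r θ : ℝ) : rot θ (r • ev 0) = r • ev θ := by
  apply ext2
  · rw [rot0]
    simp [ev]
    ring
  · rw [rot1]
    simp [ev]
    ring

theorem part3 (h2 : T_DSN) {f : E 2 → ℂ} (hf : Nice f) (m : ℤ) {a R : ℝ} (ha : 0 ≤ a)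
    (haR : a ≤ R) (r : ℝ) : cm (S f R) m r - cm (S f a) m r =
      ∫ ρ in Ioc a R, cm (SH (𝓕 f) ρ) m r := by
  obtain ⟨hc, hd⟩ := h2 2 f le_rfl hf
  have cS : ∀ R : ℝ, Continuous
      (fun θ : ℝ => S f R (rot θ (r • ev 0)) * Pool.Agent.CRL.ci (-(m * θ))) := fun R =>
    ((S_cont hf R).comp (cont_rot' _)).mul (cont_ci.comp (by fun_prop))
  have e1 : cm (S f R) m r - cm (S f a) m r = (((2 * Real.pi)⁻¹ : ℝ) : ℂ) *
      ∫ θ in (-Real.pi)..Real.pi,
        (S f R (rot θ (r • ev 0)) * Pool.Agent.CRL.ci (-(m * θ)) -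
          S f a (rot θ (r • ev 0)) * Pool.Agent.CRL.ci (-(m * θ))) := by
    rw [intervalIntegral.integral_sub ((cS R).intervalIntegrable _ _)
      ((cS a).intervalIntegrable _ _), mul_sub]
    rfl
  have e2 : ∀ θ : ℝ, S f R (rot θ (r • ev 0)) * Pool.Agent.CRL.ci (-(m * θ)) -
      S f a (rot θ (r • ev 0)) * Pool.Agent.CRL.ci (-(m * θ)) =
      ∫ ρ in Ioc a R, S1 f ρ (rot θ (r • ev 0)) * Pool.Agent.CRL.ci (-(m * θ)) := by
    intro θ
    rw [hd (rot θ (r • ev 0)) a R ha haR, intervalIntegral.integral_of_le haR,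
      integral_mul_const]
    ring
  have hm : Continuous (Function.uncurry fun (θ ρ : ℝ) =>
      S1 f ρ (rot θ (r • ev 0)) * Pool.Agent.CRL.ci (-(m * θ))) := by
    have c1 : Continuous (fun p : ℝ × ℝ => S1 f p.2 (rot p.1 (r • ev 0))) :=
      hc.comp (continuous_snd.prodMk ((cont_rot' (r • ev 0)).comp continuous_fst))
    have c2 : Continuous (fun p : ℝ × ℝ => Pool.Agent.CRL.ci (-(m * p.1))) :=
      cont_ci.comp (by fun_prop)
    exact c1.mul c2
  have hint : Integrable (Function.uncurry fun (θ ρ : ℝ) =>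
      S1 f ρ (rot θ (r • ev 0)) * Pool.Agent.CRL.ci (-(m * θ)))
      ((volume.restrict (Ioc (-Real.pi) Real.pi)).prod (volume.restrict (Ioc a R))) := by
    rw [Measure.prod_restrict]
    have hcomp : IsCompact (Icc (-Real.pi) Real.pi ×ˢ Icc a R) :=
      isCompact_Icc.prod isCompact_Icc
    have h := hm.continuousOn.integrableOn_compact (μ := volume.prod volume) hcomp
    exact h.mono_set (Set.prod_mono Ioc_subset_Icc_self Ioc_subset_Icc_self)
  rw [e1]
  simp only [e2]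
  rw [intervalIntegral.integral_of_le pile, integral_integral_swap hint, ← integral_const_mul]
  refine setIntegral_congr_fun measurableSet_Ioc fun ρ _ => ?_
  change (((2 * Real.pi)⁻¹ : ℝ) : ℂ) * ∫ θ in Ioc (-Real.pi) Real.pi,
    SH (𝓕 f) ρ (rot θ (r • ev 0)) * Pool.Agent.CRL.ci (-(m * θ)) = amode m (SH (𝓕 f) ρ) (r • ev 0)
  unfold amode
  rw [intervalIntegral.integral_of_le pile]

end SCM_

open SCM_ in
/-- **SCM** -/
theorem p_SCM (_h1 : T_MODA) (h2 : T_DSN) : T_SCM := by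
  intro f hf m R _
  refine ⟨fun x => part1 hf m R x, fun r θ => ?_, fun a r ha haR => part3 h2 hf m ha haR r⟩
  rw [part1 hf m R, ← rot_ev r θ]
  exact isMode m (S f R) θ (r • ev 0)

end Pool.Agent.CRW
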