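import Pool.Agent.CRW.Targets5
import Pool.Agent.CRW.P_OSM
import Pool.Agent.CRW.P_SCM

set_option autoImplicit false

/-!
# CRW, LAM: the maximal theorem for angular frequencies in a `Λ(6)` set

Chaining in `L^6` of the circle (LCH) and the `V^4` theorem (RAV).
-/

namespace Pool.Agent.CRW

open MeasureTheory FourierTransform Set Filter Topology
open scoped ENNReal NNReal ComplexConjugate
open Pool.Agent.MBS (E ex S Sstar)
open Pool.Agent.CRN (ci sg SH S1 Nice T_POLN T_DSN)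
open Pool.Agent.CRL (ev rot amode T_MODA T_MODB T_POLC)
open Pool.Agent.VRC (VS T_RAV)

namespace LAM_

theorem S_zero {g : E 2 → ℂ} (hg : ∀ᵐ x : E 2, g x = 0) (R : ℝ) (x : E 2) : S g R x = 0 := by
  have h : ∀ ξ, 𝓕 g ξ = 0 := by
    intro ξ
    rw [Real.fourier_eq]
    rw [← integral_zero (E 2) ℂ (μ := volume)]
    refine integral_congr_ae ?_
    filter_upwards [hg] with y hy
    rw [hy, smul_zero]
  unfold S
  simp only [h, zero_mul, integral_zero]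

/-- the angular coefficients outside `Λ` vanish -/
theorem cm_zero (h3 : T_SCM) {f : E 2 → ℂ} (hf : Nice f) {Λ : Set ℤ} (hA : AF Λ f) {m : ℤ}
    (hm : m ∉ Λ) (R r : ℝ) : cm (S f R) m r = 0 := by
  have h1 : cm (S f R) m r = cm (S f (max R 0)) m r := by
    have : S f R = S f (max R 0) := funext fun x => OSM_.S_max f R x
    rw [this]
  rw [h1]
  have h2 := (h3 f hf m (max R 0) (le_max_right _ _)).2.1 r 0
  rw [S_zero (hA m hm)] at h2
  have h4 : ci (m * 0) = 1 := by simp [ci]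
  rw [h4, one_mul] at h2
  exact h2.symm

theorem coef_zero (h3 : T_SCM) {f : E 2 → ℂ} (hf : Nice f) {Λ : Set ℤ} (hA : AF Λ f) {m : ℤ}
    (hm : m ∉ Λ) (R r : ℝ) :
    ∫ θ in (-Real.pi)..Real.pi, S f R (r • ev θ) * ci (-(m * θ)) = 0 := by
  have h1 := cm_zero h3 hf hA hm R r
  unfold cm amode at h1
  rcases mul_eq_zero.1 h1 with h | h
  · exfalso
    rw [Complex.ofReal_eq_zero] at h
    exact (inv_ne_zero Real.two_pi_pos.ne') h
  · rw [← h]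
    refine intervalIntegral.integral_congr fun θ _ => ?_
    rw [SCM_.rot_ev]
    rfl

theorem ev_cont : Continuous ev := by
  unfold ev
  refine (PiLp.continuous_toLp 2 _).comp ?_
  refine continuous_pi fun i => ?_
  fin_cases i
  · exact Real.continuous_cos
  · exact Real.continuous_sin

theorem ev_per (θ : ℝ) : ev (θ + 2 * Real.pi) = ev θ := by
  unfold ev
  rw [Real.cos_add_two_pi, Real.sin_add_two_pi]

/-- conversion of the surface measure, powers of the absolute value -/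
theorem conv (h4 : T_SGC) (h5 : T_POLN) (F : E 2 → ℂ) (hF : Continuous F) (k : ℕ) :
    ∫⁻ θ, ‖F (θ : E 2)‖ₑ ^ k ∂(sg 2) =
      ∫⁻ φ in Ioc (-Real.pi) Real.pi, ‖F (ev φ)‖ₑ ^ k := by
  have hfin : IsFiniteMeasure (sg 2) := (h5 2 (by norm_num)).2.2
  have h1 := h4 (fun x => ((‖F x‖ ^ k : ℝ) : ℂ)) (by fun_prop)
  simp only [integral_complex_ofReal] at h1
  rw [intervalIntegral.integral_of_le Pool.Agent.CRL.MODA_.pile, integral_complex_ofReal,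
    Complex.ofReal_inj] at h1
  have hc1 : Continuous fun θ : Metric.sphere (0 : E 2) 1 => ‖F (θ : E 2)‖ ^ k := by fun_prop
  have hc2 : Continuous fun φ : ℝ => ‖F (ev φ)‖ ^ k := by
    have := hF.comp ev_cont
    exact this.norm.pow k
  have hi1 : Integrable (fun θ : Metric.sphere (0 : E 2) 1 => ‖F (θ : E 2)‖ ^ k) (sg 2) := by
    exact hc1.integrable_of_hasCompactSupport (HasCompactSupport.of_compactSpace _)
  have hi2 : IntegrableOn (fun φ : ℝ => ‖F (ev φ)‖ ^ k) (Ioc (-Real.pi) Real.pi) :=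
    (hc2.continuousOn.integrableOn_compact (isCompact_Icc)).mono_set Ioc_subset_Icc_self
  have e1 := ofReal_integral_eq_lintegral_ofReal hi1 (ae_of_all _ fun θ => by positivity)
  have e2 := ofReal_integral_eq_lintegral_ofReal hi2 (ae_of_all _ fun θ => by positivity)
  rw [h1] at e1
  rw [e1] at e2
  simp only [ENNReal.ofReal_pow (norm_nonneg _), ofReal_norm] at e2
  exact e2

/-- `Λ(6)` inequality for the differences of the ball sums on a circle -/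
theorem six (h3 : T_SCM) (h4 : T_SGC) (h5 : T_POLN) {f : E 2 → ℂ} (hf : Nice f) {Λ : Set ℤ}
    {B : ℝ≥0} (hL : L6 Λ B) (hA : AF Λ f) (r R R' : ℝ) :
    ∫⁻ θ, ‖S f R (r • (θ : E 2)) - S f R' (r • (θ : E 2))‖ₑ ^ 6 ∂(sg 2) ≤
      B * (∫⁻ θ, ‖S f R (r • (θ : E 2)) - S f R' (r • (θ : E 2))‖ₑ ^ 2 ∂(sg 2)) ^ 3 := by
  have hF : Continuous fun x : E 2 => S f R (r • x) - S f R' (r • x) :=
    ((SCM_.S_cont hf R).comp (continuous_const_smul r)).sub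
      ((SCM_.S_cont hf R').comp (continuous_const_smul r))
  rw [conv h4 h5 (fun x => S f R (r • x) - S f R' (r • x)) hF 6,
    conv h4 h5 (fun x => S f R (r • x) - S f R' (r • x)) hF 2]
  refine hL (fun θ => S f R (r • ev θ) - S f R' (r • ev θ)) (hF.comp ev_cont)
    (fun θ => by simp only [ev_per]) fun m hm => ?_
  have hc : ∀ R : ℝ, Continuous fun θ : ℝ => S f R (r • ev θ) * ci (-(m * θ)) := fun R =>
    ((SCM_.S_cont hf R).comp (ev_cont.const_smul r)).mul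
      (Pool.Agent.CRL.MODA_.cont_ci.comp (by fun_prop))
  have e : ∀ θ : ℝ, (S f R (r • ev θ) - S f R' (r • ev θ)) * ci (-(m * θ)) =
      S f R (r • ev θ) * ci (-(m * θ)) - S f R' (r • ev θ) * ci (-(m * θ)) := fun θ => by ring
  simp only [e]
  rw [intervalIntegral.integral_sub ((hc R).intervalIntegrable _ _)
    ((hc R').intervalIntegrable _ _), coef_zero h3 hf hA hm, coef_zero h3 hf hA hm, sub_zero]

/-- the maximum over a dyadic grid of radii -/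
noncomputable def gd (f : E 2 → ℂ) (n : ℕ) (x : E 2) : ℝ≥0∞ :=
  ⨆ (j : ℕ) (_ : j ≤ 4 ^ n), ‖S f ((j : ℝ) / 2 ^ n) x‖ₑ

theorem gd_meas {f : E 2 → ℂ} (hf : Nice f) (n : ℕ) : Measurable (gd f n) := by
  unfold gd
  refine Measurable.iSup fun j => Measurable.iSup fun _ => ?_
  exact (SCM_.S_cont hf _).measurable.enorm

theorem gd_mono (f : E 2 → ℂ) (x : E 2) : Monotone fun n => gd f n x := by
  refine monotone_nat_of_le_succ fun n => ?_
  unfold gd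
  refine iSup_le fun j => iSup_le fun hj => ?_
  refine le_iSup_of_le (2 * j) (le_iSup_of_le ?_ ?_)
  · have h1 : 0 < 4 ^ n := by positivity
    rw [pow_succ]
    omega
  · have e : (((2 * j : ℕ) : ℝ)) / 2 ^ (n + 1) = (j : ℝ) / 2 ^ n := by
      push_cast
      rw [pow_succ]
      field_simp
    rw [e]

theorem Sstar_eq {f : E 2 → ℂ} (hf : Nice f) (x : E 2) : Sstar f x = ⨆ n, gd f n x := by
  refine le_antisymm ?_ ?_
  · unfold Sstar
    refine iSup_le fun R => iSup_le fun hR => ?_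
    have h2 : Tendsto (fun n : ℕ => (2 : ℝ) ^ n) atTop atTop :=
      tendsto_pow_atTop_atTop_of_one_lt (by norm_num)
    have h1 : Tendsto (fun n : ℕ => ((⌊R * 2 ^ n⌋₊ : ℕ) : ℝ) / 2 ^ n) atTop (𝓝 R) :=
      (tendsto_nat_floor_mul_div_atTop hR.le).comp h2
    have h3 : Tendsto (fun n : ℕ => ‖S f (((⌊R * 2 ^ n⌋₊ : ℕ) : ℝ) / 2 ^ n) x‖ₑ) atTop
        (𝓝 ‖S f R x‖ₑ) := ((OSM_.S_contR hf x).enorm.tendsto R).comp h1
    refine le_of_tendsto h3 ?_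
    filter_upwards [h2.eventually_ge_atTop R] with n hn
    refine le_iSup_of_le n ?_
    unfold gd
    refine le_iSup_of_le ⌊R * 2 ^ n⌋₊ (le_iSup_of_le ?_ le_rfl)
    have h4 : R * 2 ^ n ≤ ((4 ^ n : ℕ) : ℝ) := by
      push_cast
      have : (4 : ℝ) ^ n = 2 ^ n * 2 ^ n := by rw [← mul_pow]; norm_num
      rw [this]
      exact mul_le_mul_of_nonneg_right hn (by positivity)
    have h6 := Nat.floor_le_floor h4
    rwa [Nat.floor_natCast] at h6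
  · refine iSup_le fun n => ?_
    unfold gd
    refine iSup_le fun j => iSup_le fun hj => ?_
    rcases Nat.eq_zero_or_pos j with h | h
    · rw [h, Nat.cast_zero, zero_div, OSM_.S_nonpos f le_rfl, enorm_zero]
      exact zero_le
    · unfold Sstar
      refine le_iSup_of_le ((j : ℝ) / 2 ^ n) (le_iSup_of_le ?_ le_rfl)
      positivity

theorem Sstar_meas {f : E 2 → ℂ} (hf : Nice f) : Measurable (Sstar f) := by
  have : Sstar f = fun x => ⨆ n, gd f n x := funext fun x => Sstar_eq hf x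
  rw [this]
  exact Measurable.iSup fun n => gd_meas hf n

theorem VS_ge (f : E 2 → ℂ) (r : ℝ) (L : ℕ) (N : ℕ → ℝ) (hN : Monotone N) :
    ∑ j ∈ Finset.range L, (∫⁻ θ, ‖S f (N (j + 1)) (r • (θ : E 2)) -
      S f (N j) (r • (θ : E 2))‖ₑ ^ 2 ∂(sg 2)) ^ 2 ≤ VS f r ^ 4 := by
  have h1 : (∑ j ∈ Finset.range L, (∫⁻ θ, ‖S f (N (j + 1)) (r • (θ : E 2)) -
      S f (N j) (r • (θ : E 2))‖ₑ ^ 2 ∂(sg 2)) ^ 2) ^ (1 / 4 : ℝ) ≤ VS f r := by
    unfold VS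
    exact le_iSup_of_le L (le_iSup_of_le N (le_iSup_of_le hN le_rfl))
  have h2 := pow_le_pow_left' h1 4
  refine le_trans (le_of_eq ?_) h2
  rw [← ENNReal.rpow_natCast, ← ENNReal.rpow_mul]
  norm_num

/-- one grid -/
theorem grid (h3 : T_SCM) (h4 : T_SGC) (h5 : T_POLN) {C : ℝ≥0}
    (hC : ∀ (Ω : Type) [MeasurableSpace Ω] (μ : Measure Ω) (M : ℕ)
      (X : ℕ → Ω → ℂ) (B V : ℝ≥0∞), (∀ j, Measurable (X j)) → (∀ ω, X 0 ω = 0) → B ≠ ⊤ → V ≠ ⊤ →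
      (∀ j k, j ≤ M → k ≤ M → ∫⁻ ω, ‖X j ω - X k ω‖ₑ ^ 6 ∂μ ≤
        B * (∫⁻ ω, ‖X j ω - X k ω‖ₑ ^ 2 ∂μ) ^ 3) →
      (∀ (l : ℕ) (t : ℕ → ℕ), Monotone t → (∀ r, t r ≤ M) →
        ∑ r ∈ Finset.range l, (∫⁻ ω, ‖X (t (r + 1)) ω - X (t r) ω‖ₑ ^ 2 ∂μ) ^ 2 ≤ V ^ 4) →
        ∫⁻ ω, (⨆ (j : ℕ) (_ : j ≤ M), ‖X j ω‖ₑ) ^ 6 ∂μ ≤ C * B * V ^ 6)
    {f : E 2 → ℂ} (hf : Nice f) {Λ : Set ℤ}
    {B : ℝ≥0} (hL : L6 Λ B) (hA : AF Λ f) (r : ℝ) (hV : VS f r ≠ ⊤) (n : ℕ) :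
    ∫⁻ θ, gd f n (r • (θ : E 2)) ^ 6 ∂(sg 2) ≤ C * B * VS f r ^ 6 := by
  have h := hC (Metric.sphere (0 : E 2) 1) (sg 2) (4 ^ n)
    (fun j θ => S f ((j : ℝ) / 2 ^ n) (r • (θ : E 2))) B (VS f r)
    (fun j => ((SCM_.S_cont hf _).comp
      (continuous_subtype_val.const_smul r)).measurable)
    (fun θ => OSM_.S_nonpos f (by simp) _) ENNReal.coe_ne_top hV
    (fun j k _ _ => six h3 h4 h5 hf hL hA r _ _)
    (fun l t ht _ => VS_ge f r l (fun i => ((t i : ℕ) : ℝ) / 2 ^ n) fun i j hij => by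
      have := ht hij
      have h2 : ((t i : ℕ) : ℝ) ≤ ((t j : ℕ) : ℝ) := by exact_mod_cast this
      exact div_le_div_of_nonneg_right h2 (by positivity))
  exact h

theorem hold (μ : Measure (Metric.sphere (0 : E 2) 1)) (g : Metric.sphere (0 : E 2) 1 → ℝ≥0∞)
    (hg : Measurable g) :
    ∫⁻ θ, g θ ^ 2 ∂μ ≤ (∫⁻ θ, g θ ^ 6 ∂μ) ^ (1 / 3 : ℝ) * (μ univ) ^ (2 / 3 : ℝ) := by
  have hpq : (3 : ℝ).HolderConjugate (3 / 2) := by
    rw [Real.holderConjugate_iff]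
    norm_num
  have h := ENNReal.lintegral_mul_le_Lp_mul_Lq μ hpq (f := fun θ => g θ ^ 2) (g := fun _ => 1)
    (hg.pow_const 2).aemeasurable aemeasurable_const
  simp only [Pi.mul_apply, mul_one, ENNReal.one_rpow, lintegral_const, one_mul] at h
  have e1 : ∀ θ, (g θ ^ 2) ^ (3 : ℝ) = g θ ^ 6 := by
    intro θ
    have : (3 : ℝ) = ((3 : ℕ) : ℝ) := by norm_num
    rw [this, ENNReal.rpow_natCast, ← pow_mul]
  simp only [e1] at h
  have e2 : (1 / (3 / 2) : ℝ) = 2 / 3 := by norm_num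
  rw [e2] at h
  exact h

theorem rpow_le (x : ℝ≥0∞) {a : ℝ} (ha : 0 ≤ a) (ha1 : a ≤ 1) : x ^ a ≤ 1 + x := by
  rcases le_total x 1 with h | h
  · exact (ENNReal.rpow_le_one h ha).trans le_self_add
  · have h1 := ENNReal.rpow_le_rpow_of_exponent_le h ha1
    rw [ENNReal.rpow_one] at h1
    exact h1.trans le_add_self

/-- the circle of radius `r` -/
theorem circ (h3 : T_SCM) (h4 : T_SGC) (h5 : T_POLN) {C : ℝ≥0}
    (hC : ∀ (Ω : Type) [MeasurableSpace Ω] (μ : Measure Ω) (M : ℕ)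
      (X : ℕ → Ω → ℂ) (B V : ℝ≥0∞), (∀ j, Measurable (X j)) → (∀ ω, X 0 ω = 0) → B ≠ ⊤ → V ≠ ⊤ →
      (∀ j k, j ≤ M → k ≤ M → ∫⁻ ω, ‖X j ω - X k ω‖ₑ ^ 6 ∂μ ≤
        B * (∫⁻ ω, ‖X j ω - X k ω‖ₑ ^ 2 ∂μ) ^ 3) →
      (∀ (l : ℕ) (t : ℕ → ℕ), Monotone t → (∀ r, t r ≤ M) →
        ∑ r ∈ Finset.range l, (∫⁻ ω, ‖X (t (r + 1)) ω - X (t r) ω‖ₑ ^ 2 ∂μ) ^ 2 ≤ V ^ 4) →
        ∫⁻ ω, (⨆ (j : ℕ) (_ : j ≤ M), ‖X j ω‖ₑ) ^ 6 ∂μ ≤ C * B * V ^ 6)
    {f : E 2 → ℂ} (hf : Nice f) {Λ : Set ℤ}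
    {B : ℝ≥0} (hL : L6 Λ B) (hA : AF Λ f) (r : ℝ) :
    ∫⁻ θ, Sstar f (r • (θ : E 2)) ^ 2 ∂(sg 2) ≤
      (1 + sg 2 univ) * ((1 + C) * (1 + B)) * VS f r ^ 2 := by
  by_cases hV : VS f r = ⊤
  · rw [hV]
    refine le_trans le_top (le_of_eq ?_)
    rw [ENNReal.top_pow (by norm_num), ENNReal.mul_top]
    have h1 : (1 : ℝ≥0∞) ≤ (1 + sg 2 univ) * ((1 + C) * (1 + B)) := by
      have a1 : (1 : ℝ≥0∞) ≤ 1 + sg 2 univ := le_self_add
      have a2 : (1 : ℝ≥0∞) ≤ 1 + C := le_self_add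
      have a3 : (1 : ℝ≥0∞) ≤ 1 + B := le_self_add
      exact one_le_mul a1 (one_le_mul a2 a3)
    exact (zero_lt_one.trans_le h1).ne'
  · have hm : Measurable fun θ : Metric.sphere (0 : E 2) 1 => r • (θ : E 2) :=
      (continuous_subtype_val.const_smul r).measurable
    have h6 : ∫⁻ θ, Sstar f (r • (θ : E 2)) ^ 6 ∂(sg 2) ≤ C * B * VS f r ^ 6 := by
      have e : ∀ θ : Metric.sphere (0 : E 2) 1, Sstar f (r • (θ : E 2)) ^ 6 =
          ⨆ n, gd f n (r • (θ : E 2)) ^ 6 := by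
        intro θ
        rw [Sstar_eq hf, ENNReal.iSup_pow]
      simp only [e]
      rw [lintegral_iSup (f := fun n (θ : Metric.sphere (0 : E 2) 1) =>
          gd f n (r • (θ : E 2)) ^ 6) (fun n => ((gd_meas hf n).comp hm).pow_const 6)
        (fun a b hab θ => pow_le_pow_left' (gd_mono f _ hab) 6)]
      exact iSup_le fun n => grid h3 h4 h5 hC hf hL hA r hV n
    refine (hold (sg 2) (fun θ => Sstar f (r • (θ : E 2))) ((Sstar_meas hf).comp hm)).trans ?_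
    have h7 : (∫⁻ θ, Sstar f (r • (θ : E 2)) ^ 6 ∂(sg 2)) ^ (1 / 3 : ℝ) ≤
        ((1 + C) * (1 + B)) * VS f r ^ 2 := by
      refine (ENNReal.rpow_le_rpow h6 (by norm_num)).trans ?_
      rw [ENNReal.mul_rpow_of_nonneg _ _ (by norm_num)]
      refine mul_le_mul' ?_ (le_of_eq ?_)
      · refine (rpow_le _ (by norm_num) (by norm_num)).trans ?_
        have : (1 + (C : ℝ≥0∞)) * (1 + B) = 1 + C * B + (C + B) := by ring
        rw [this]
        exact le_self_add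
      · rw [← ENNReal.rpow_natCast, ← ENNReal.rpow_mul, ← ENNReal.rpow_natCast]
        norm_num
    have h8 : (sg 2 univ) ^ (2 / 3 : ℝ) ≤ 1 + sg 2 univ :=
      rpow_le _ (by norm_num) (by norm_num)
    calc _ ≤ ((1 + C) * (1 + B)) * VS f r ^ 2 * (1 + sg 2 univ) := mul_le_mul' h7 h8
      _ = _ := by ring

end LAM_

open LAM_ in
/-- **LAM** -/
theorem p_LAM (h1 : T_LCH) (h2 : T_RAV) (h3 : T_SCM) (h4 : T_SGC) (h5 : T_POLN) : T_LAM := by
  obtain ⟨C, hC⟩ := h1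
  obtain ⟨D, hD⟩ := h2 2 le_rfl
  obtain ⟨hp, -, hfin⟩ := h5 2 (by norm_num)
  have hs : sg 2 univ ≠ ⊤ := measure_ne_top _ _
  refine ⟨(1 + (sg 2 univ).toNNReal) * (1 + C) * D, fun Λ B f hL hf hA => ?_⟩
  have hK : ((1 + sg 2 univ) * ((1 + (C : ℝ≥0∞)) * (1 + B))) ≠ ⊤ :=
    ENNReal.mul_ne_top (ENNReal.add_ne_top.2 ⟨ENNReal.one_ne_top, hs⟩)
      (ENNReal.mul_ne_top (by simp) (by simp))
  rw [hp (fun x => Sstar f x ^ 2) ((Sstar_meas hf).pow_const 2)]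
  calc ∫⁻ r in Ioi (0 : ℝ), ∫⁻ ω, ENNReal.ofReal (r ^ (2 - 1)) *
        Sstar f (r • (ω : E 2)) ^ 2 ∂(sg 2)
      ≤ ∫⁻ r in Ioi (0 : ℝ), ((1 + sg 2 univ) * ((1 + C) * (1 + B))) *
        (VS f r ^ 2 * ENNReal.ofReal (r ^ (2 - 1))) := by
        refine lintegral_mono fun r => ?_
        change ∫⁻ ω, ENNReal.ofReal (r ^ (2 - 1)) * Sstar f (r • (ω : E 2)) ^ 2 ∂(sg 2) ≤
          ((1 + sg 2 univ) * ((1 + C) * (1 + B))) * (VS f r ^ 2 * ENNReal.ofReal (r ^ (2 - 1)))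
        rw [lintegral_const_mul' _ _ ENNReal.ofReal_ne_top]
        calc _ ≤ ENNReal.ofReal (r ^ (2 - 1)) *
              ((1 + sg 2 univ) * ((1 + C) * (1 + B)) * VS f r ^ 2) :=
              mul_le_mul_right (circ h3 h4 h5 hC hf hL hA r) _
          _ = _ := by ring
    _ = ((1 + sg 2 univ) * ((1 + C) * (1 + B))) *
        ∫⁻ r in Ioi (0 : ℝ), VS f r ^ 2 * ENNReal.ofReal (r ^ (2 - 1)) :=
        lintegral_const_mul' _ _ hK
    _ ≤ ((1 + sg 2 univ) * ((1 + C) * (1 + B))) * (D * ∫⁻ x, ‖f x‖ₑ ^ 2) :=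
        mul_le_mul_right (hD f hf) _
    _ = _ := by
        push_cast
        rw [ENNReal.coe_toNNReal hs]
        ring

end Pool.Agent.CRW
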