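import Pool.Agent.CRW.Targets5

set_option autoImplicit false

/-!
# CRW, block LB3: `B_3` sets are `Λ(6)` sets
-/

namespace Pool.Agent.CRW

open MeasureTheory Set Filter Topology AddCircle
open scoped ENNReal NNReal ComplexConjugate
open Pool.Agent.CRN (ci)

namespace LB3_

/-- the three terms as a list -/
def lst (p : ℤ × ℤ × ℤ) : List ℤ := [p.1, p.2.1, p.2.2]

theorem lst_inj : Function.Injective lst := by
  rintro ⟨a, b, c⟩ ⟨a', b', c'⟩ h
  simp only [lst, List.cons.injEq, and_true] at h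
  obtain ⟨h1, h2, h3⟩ := h
  rw [h1, h2, h3]

/-- the sum of the three terms -/
def sg3 (p : ℤ × ℤ × ℤ) : ℤ := p.1 + p.2.1 + p.2.2

theorem card_le {Λ : Set ℤ} (hΛ : ∀ a ∈ Λ, ∀ b ∈ Λ, ∀ c ∈ Λ, ∀ a' ∈ Λ, ∀ b' ∈ Λ, ∀ c' ∈ Λ,
    a + b + c = a' + b' + c' → ({a, b, c} : Multiset ℤ) = {a', b', c'}) (F : Finset ℤ)
    (hF : ∀ m ∈ F, m ∈ Λ) (p : ℤ × ℤ × ℤ) (hp : p ∈ F ×ˢ (F ×ˢ F)) :
    ((F ×ˢ (F ×ˢ F)).filter (fun q => sg3 q = sg3 p)).card ≤ 6 := by
  classical
  have h1 : (((F ×ˢ (F ×ˢ F)).filter (fun q => sg3 q = sg3 p)).image lst) ⊆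
      (List.permutations (lst p)).toFinset := by
    intro l hl
    obtain ⟨q, hq, rfl⟩ := Finset.mem_image.1 hl
    obtain ⟨hq1, hq2⟩ := Finset.mem_filter.1 hq
    simp only [Finset.mem_product] at hq1 hp
    rw [List.mem_toFinset, List.mem_permutations]
    have h2 := hΛ _ (hF _ hq1.1) _ (hF _ hq1.2.1) _ (hF _ hq1.2.2) _ (hF _ hp.1) _
      (hF _ hp.2.1) _ (hF _ hp.2.2) hq2
    have h3 : ((lst q : List ℤ) : Multiset ℤ) = ((lst p : List ℤ) : Multiset ℤ) := h2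
    exact Multiset.coe_eq_coe.1 h3
  calc ((F ×ˢ (F ×ˢ F)).filter (fun q => sg3 q = sg3 p)).card
      = (((F ×ˢ (F ×ˢ F)).filter (fun q => sg3 q = sg3 p)).image lst).card :=
        (Finset.card_image_of_injective _ lst_inj).symm
    _ ≤ (List.permutations (lst p)).toFinset.card := Finset.card_le_card h1
    _ ≤ (List.permutations (lst p)).length := List.toFinset_card_le _
    _ = 6 := by rw [List.length_permutations]; rfl

section

variable {T : ℝ} [hT : Fact (0 < T)]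

/-- the `L²` norm of a trigonometric sum with few coincidences -/
theorem sq_le {ι : Type} (P : Finset ι) (A : ι → ℂ) (σ : ι → ℤ) (K : ℕ)
    (hK : ∀ p ∈ P, (P.filter (fun q => σ q = σ p)).card ≤ K) :
    ∫ t : AddCircle T, ‖∑ p ∈ P, A p * fourier (σ p) t‖ ^ 2 ∂haarAddCircle ≤
      K * ∑ p ∈ P, ‖A p‖ ^ 2 := by
  classical
  have hcoe : ∀ p q : ι, ∫ t : AddCircle T, (A p * fourier (σ p) t) *
      conj (A q * fourier (σ q) t) ∂haarAddCircle =
      if σ q = σ p then A p * conj (A q) else 0 := by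
    intro p q
    have h1 : ∀ t : AddCircle T, (A p * fourier (σ p) t) * conj (A q * fourier (σ q) t) =
        (A p * conj (A q)) * (fourier (-(σ q)) t • fourier (σ p) t) := by
      intro t
      rw [map_mul, fourier_neg, smul_eq_mul]
      ring
    simp_rw [h1]
    rw [integral_const_mul]
    have h2 : ∫ t : AddCircle T, fourier (-(σ q)) t • fourier (σ p) t ∂haarAddCircle =
        (Pi.single (σ p) 1 : ℤ → ℂ) (σ q) := by
      rw [← fourierCoeff_fourier (T := T) (σ p)]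
      rfl
    rw [h2, Pi.single_apply]
    split_ifs <;> simp
  have hint : ∀ p q : ι, Integrable (fun t : AddCircle T => (A p * fourier (σ p) t) *
      conj (A q * fourier (σ q) t)) haarAddCircle := by
    intro p q
    exact (by fun_prop : Continuous (fun t : AddCircle T => (A p * fourier (σ p) t) *
      conj (A q * fourier (σ q) t))).integrable_of_hasCompactSupport
        (HasCompactSupport.of_compactSpace _)
  have h1 : ((∫ t : AddCircle T, ‖∑ p ∈ P, A p * fourier (σ p) t‖ ^ 2 ∂haarAddCircle : ℝ) : ℂ) =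
      ∑ p ∈ P, ∑ q ∈ P, if σ q = σ p then A p * conj (A q) else 0 := by
    rw [← integral_complex_ofReal]
    have h2 : ∀ t : AddCircle T, ((‖∑ p ∈ P, A p * fourier (σ p) t‖ ^ 2 : ℝ) : ℂ) =
        ∑ p ∈ P, ∑ q ∈ P, (A p * fourier (σ p) t) * conj (A q * fourier (σ q) t) := by
      intro t
      rw [← Finset.sum_mul_sum, ← map_sum, Complex.mul_conj, Complex.normSq_eq_norm_sq]
    simp_rw [h2]
    rw [integral_finsetSum _ fun p _ => integrable_finsetSum _ fun q _ => hint p q]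
    refine Finset.sum_congr rfl fun p _ => ?_
    rw [integral_finsetSum _ fun q _ => hint p q]
    exact Finset.sum_congr rfl fun q _ => hcoe p q
  have h0 : 0 ≤ ∫ t : AddCircle T, ‖∑ p ∈ P, A p * fourier (σ p) t‖ ^ 2 ∂haarAddCircle :=
    integral_nonneg fun t => by positivity
  have h3 : ∫ t : AddCircle T, ‖∑ p ∈ P, A p * fourier (σ p) t‖ ^ 2 ∂haarAddCircle =
      ‖∑ p ∈ P, ∑ q ∈ P, if σ q = σ p then A p * conj (A q) else 0‖ := by
    rw [← h1, Complex.norm_real, Real.norm_of_nonneg h0]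
  rw [h3]
  have h4 : ‖∑ p ∈ P, ∑ q ∈ P, if σ q = σ p then A p * conj (A q) else 0‖ ≤
      ∑ p ∈ P, ∑ q ∈ P, if σ q = σ p then (‖A p‖ ^ 2 + ‖A q‖ ^ 2) / 2 else 0 := by
    refine (norm_sum_le _ _).trans (Finset.sum_le_sum fun p _ => ?_)
    refine (norm_sum_le _ _).trans (Finset.sum_le_sum fun q _ => ?_)
    split_ifs
    · rw [norm_mul, RCLike.norm_conj]
      nlinarith [sq_nonneg (‖A p‖ - ‖A q‖)]
    · simp
  refine h4.trans ?_
  have h5 : ∑ p ∈ P, ∑ q ∈ P, (if σ q = σ p then (‖A p‖ ^ 2 + ‖A q‖ ^ 2) / 2 else 0) =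
      (∑ p ∈ P, ∑ q ∈ P, (if σ q = σ p then ‖A p‖ ^ 2 else 0) +
        ∑ p ∈ P, ∑ q ∈ P, (if σ q = σ p then ‖A q‖ ^ 2 else 0)) / 2 := by
    rw [← Finset.sum_add_distrib, Finset.sum_div]
    refine Finset.sum_congr rfl fun p _ => ?_
    rw [← Finset.sum_add_distrib, Finset.sum_div]
    refine Finset.sum_congr rfl fun q _ => ?_
    split_ifs <;> ring
  have h6 : ∑ p ∈ P, ∑ q ∈ P, (if σ q = σ p then ‖A p‖ ^ 2 else 0) ≤ K * ∑ p ∈ P, ‖A p‖ ^ 2 := by
    rw [Finset.mul_sum]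
    refine Finset.sum_le_sum fun p hp => ?_
    rw [← Finset.sum_filter, Finset.sum_const, nsmul_eq_mul]
    exact mul_le_mul_of_nonneg_right (by exact_mod_cast hK p hp) (by positivity)
  have h7 : ∑ p ∈ P, ∑ q ∈ P, (if σ q = σ p then ‖A q‖ ^ 2 else 0) =
      ∑ p ∈ P, ∑ q ∈ P, (if σ q = σ p then ‖A p‖ ^ 2 else 0) := by
    rw [Finset.sum_comm]
    refine Finset.sum_congr rfl fun p _ => Finset.sum_congr rfl fun q _ => ?_
    by_cases h : σ p = σ q
    · rw [if_pos h, if_pos h.symm]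
    · rw [if_neg h, if_neg (fun h' => h h'.symm)]
  rw [h5, h7]
  linarith

/-- the sixth moment of a trigonometric polynomial with spectrum in a `B_3` set -/
theorem poly {Λ : Set ℤ} (hΛ : ∀ a ∈ Λ, ∀ b ∈ Λ, ∀ c ∈ Λ, ∀ a' ∈ Λ, ∀ b' ∈ Λ, ∀ c' ∈ Λ,
    a + b + c = a' + b' + c' → ({a, b, c} : Multiset ℤ) = {a', b', c'}) (F : Finset ℤ)
    (hF : ∀ m ∈ F, m ∈ Λ) (a : ℤ → ℂ) :
    ∫ t : AddCircle T, ‖∑ m ∈ F, a m * fourier m t‖ ^ 6 ∂haarAddCircle ≤
      6 * (∑ m ∈ F, ‖a m‖ ^ 2) ^ 3 := by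
  have h1 := sq_le (T := T) (F ×ˢ (F ×ˢ F)) (fun p => a p.1 * (a p.2.1 * a p.2.2)) sg3 6
    (fun p hp => card_le hΛ F hF p hp)
  have h2 : ∀ t : AddCircle T, ‖∑ m ∈ F, a m * fourier m t‖ ^ 6 =
      ‖∑ p ∈ F ×ˢ (F ×ˢ F), (a p.1 * (a p.2.1 * a p.2.2)) * fourier (sg3 p) t‖ ^ 2 := by
    intro t
    have h3 : ∑ p ∈ F ×ˢ (F ×ˢ F), (a p.1 * (a p.2.1 * a p.2.2)) * fourier (sg3 p) t =
        (∑ m ∈ F, a m * fourier m t) ^ 3 := by
      have h4 : (∑ m ∈ F, a m * fourier m t) ^ 3 = (∑ m ∈ F, a m * fourier m t) *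
          ((∑ m ∈ F, a m * fourier m t) * (∑ m ∈ F, a m * fourier m t)) := by ring
      rw [h4, Finset.sum_mul_sum, Finset.sum_mul_sum, Finset.sum_product]
      refine Finset.sum_congr rfl fun i _ => ?_
      rw [Finset.sum_product]
      refine Finset.sum_congr rfl fun j _ => ?_
      rw [Finset.mul_sum]
      refine Finset.sum_congr rfl fun k _ => ?_
      unfold sg3
      rw [fourier_add, fourier_add]
      ring
    rw [h3, norm_pow, ← pow_mul]
  simp_rw [h2]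
  refine h1.trans (le_of_eq ?_)
  push_cast
  congr 1
  have h4 : (∑ m ∈ F, ‖a m‖ ^ 2) ^ 3 = (∑ m ∈ F, ‖a m‖ ^ 2) *
      ((∑ m ∈ F, ‖a m‖ ^ 2) * (∑ m ∈ F, ‖a m‖ ^ 2)) := by ring
  rw [h4, Finset.sum_mul_sum, Finset.sum_mul_sum, Finset.sum_product]
  refine Finset.sum_congr rfl fun i _ => ?_
  rw [Finset.sum_product]
  refine Finset.sum_congr rfl fun j _ => ?_
  rw [Finset.mul_sum]
  refine Finset.sum_congr rfl fun k _ => ?_
  rw [norm_mul, norm_mul]
  ring

/-- the inequality on the circle -/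
theorem circle {Λ : Set ℤ} (hΛ : ∀ a ∈ Λ, ∀ b ∈ Λ, ∀ c ∈ Λ, ∀ a' ∈ Λ, ∀ b' ∈ Λ, ∀ c' ∈ Λ,
    a + b + c = a' + b' + c' → ({a, b, c} : Multiset ℤ) = {a', b', c'})
    (U : C(AddCircle T, ℂ)) (hU : ∀ m : ℤ, m ∉ Λ → fourierCoeff U m = 0) :
    ∫⁻ t : AddCircle T, ‖U t‖ₑ ^ 6 ∂haarAddCircle ≤
      6 * (∫⁻ t : AddCircle T, ‖U t‖ₑ ^ 2 ∂haarAddCircle) ^ 3 := by
  classical
  set g := ContinuousMap.toLp (E := ℂ) 2 haarAddCircle ℂ U with hg
  have hc : ∀ m, fourierCoeff g m = fourierCoeff U m := fun m => fourierCoeff_toLp U m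
  set c : ℤ → ℂ := fun m => fourierCoeff U m with hcdef
  set V : Finset ℤ → C(AddCircle T, ℂ) := fun F => ∑ m ∈ F, c m • fourier m with hV
  have hsum := hasSum_fourier_series_L2 g
  simp_rw [hc] at hsum
  have hVL : ∀ F : Finset ℤ, ∑ m ∈ F, fourierCoeff U m • fourierLp 2 m =
      ContinuousMap.toLp (E := ℂ) 2 haarAddCircle ℂ (V F) := by
    intro F
    rw [hV]
    simp only [map_sum, map_smul]
    rfl
  have htend : Tendsto (fun F : Finset ℤ => ContinuousMap.toLp (E := ℂ) 2 haarAddCircle ℂ (V F))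
      atTop (𝓝 g) := by
    have := hsum
    unfold HasSum at this
    simp only [hVL] at this
    exact this
  obtain ⟨ns, _, hns⟩ := (tendstoInMeasure_of_tendsto_Lp htend).exists_seq_tendsto_ae'
  have hae : ∀ᵐ t : AddCircle T ∂haarAddCircle,
      Tendsto (fun i => V (ns i) t) atTop (𝓝 (U t)) := by
    have h1 : ∀ᵐ t : AddCircle T ∂haarAddCircle, ∀ i : ℕ,
        ContinuousMap.toLp (E := ℂ) 2 haarAddCircle ℂ (V (ns i)) t = V (ns i) t :=
      ae_all_iff.2 fun i => ContinuousMap.coeFn_toLp (p := 2) (𝕜 := ℂ) haarAddCircle (V (ns i))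
    have h2 : ∀ᵐ t : AddCircle T ∂haarAddCircle, g t = U t :=
      ContinuousMap.coeFn_toLp (p := 2) (𝕜 := ℂ) haarAddCircle U
    filter_upwards [hns, h1, h2] with t ht1 ht2 ht3
    rw [ht3] at ht1
    refine ht1.congr fun i => ?_
    exact ht2 i
  -- Bessel
  have hI2 : ∫⁻ t : AddCircle T, ‖U t‖ₑ ^ 2 ∂haarAddCircle =
      ENNReal.ofReal (∫ t : AddCircle T, ‖U t‖ ^ 2 ∂haarAddCircle) := by
    rw [ofReal_integral_eq_lintegral_ofReal]
    · refine lintegral_congr fun t => ?_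
      rw [ENNReal.ofReal_pow (norm_nonneg _), ofReal_norm]
    · exact (by fun_prop : Continuous (fun t : AddCircle T =>
        ‖U t‖ ^ 2)).integrable_of_hasCompactSupport (HasCompactSupport.of_compactSpace _)
    · exact ae_of_all _ fun t => by positivity
  have hbes : ∀ F : Finset ℤ, ∑ m ∈ F, ‖c m‖ ^ 2 ≤
      ∫ t : AddCircle T, ‖U t‖ ^ 2 ∂haarAddCircle := by
    intro F
    have h1 := hasSum_sq_fourierCoeff g
    simp_rw [hc] at h1
    have h2 : ∫ t : AddCircle T, ‖g t‖ ^ 2 ∂haarAddCircle =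
        ∫ t : AddCircle T, ‖U t‖ ^ 2 ∂haarAddCircle := by
      refine integral_congr_ae ?_
      filter_upwards [ContinuousMap.coeFn_toLp (p := 2) (𝕜 := ℂ) haarAddCircle U] with t ht
      rw [hg, ht]
    rw [h2] at h1
    exact sum_le_hasSum F (fun m _ => by positivity) h1
  have hpoly : ∀ F : Finset ℤ, ∫⁻ t : AddCircle T, ‖V F t‖ₑ ^ 6 ∂haarAddCircle ≤
      6 * (∫⁻ t : AddCircle T, ‖U t‖ₑ ^ 2 ∂haarAddCircle) ^ 3 := by
    intro F
    have h1 : ∀ t : AddCircle T, V F t =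
        ∑ m ∈ F.filter (fun m => m ∈ Λ), c m * fourier m t := by
      intro t
      rw [hV, Finset.sum_filter]
      simp only [ContinuousMap.coe_sum, Finset.sum_apply, ContinuousMap.smul_apply, smul_eq_mul]
      refine Finset.sum_congr rfl fun m _ => ?_
      split_ifs with h
      · rfl
      · rw [hcdef]
        simp only
        rw [hU m h, zero_mul]
    have h2 := poly (T := T) hΛ (F.filter (fun m => m ∈ Λ))
      (fun m hm => (Finset.mem_filter.1 hm).2) c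
    have h3 : ∫⁻ t : AddCircle T, ‖V F t‖ₑ ^ 6 ∂haarAddCircle =
        ENNReal.ofReal (∫ t : AddCircle T, ‖V F t‖ ^ 6 ∂haarAddCircle) := by
      rw [ofReal_integral_eq_lintegral_ofReal]
      · refine lintegral_congr fun t => ?_
        rw [ENNReal.ofReal_pow (norm_nonneg _), ofReal_norm]
      · exact (by fun_prop : Continuous (fun t : AddCircle T =>
          ‖V F t‖ ^ 6)).integrable_of_hasCompactSupport (HasCompactSupport.of_compactSpace _)
      · exact ae_of_all _ fun t => by positivity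
    rw [h3, hI2]
    have h4 : ∫ t : AddCircle T, ‖V F t‖ ^ 6 ∂haarAddCircle ≤
        6 * (∫ t : AddCircle T, ‖U t‖ ^ 2 ∂haarAddCircle) ^ 3 := by
      simp_rw [h1]
      refine h2.trans ?_
      refine mul_le_mul_of_nonneg_left ?_ (by norm_num)
      exact pow_le_pow_left₀ (Finset.sum_nonneg fun m _ => by positivity) (hbes _) 3
    calc ENNReal.ofReal (∫ t : AddCircle T, ‖V F t‖ ^ 6 ∂haarAddCircle)
        ≤ ENNReal.ofReal (6 * (∫ t : AddCircle T, ‖U t‖ ^ 2 ∂haarAddCircle) ^ 3) :=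
          ENNReal.ofReal_le_ofReal h4
      _ = _ := by
          rw [ENNReal.ofReal_mul (by norm_num), ENNReal.ofReal_pow
            (integral_nonneg fun t => by positivity)]
          norm_num
  -- Fatou
  calc ∫⁻ t : AddCircle T, ‖U t‖ₑ ^ 6 ∂haarAddCircle
      = ∫⁻ t : AddCircle T, liminf (fun i => ‖V (ns i) t‖ₑ ^ 6) atTop ∂haarAddCircle := by
        refine lintegral_congr_ae ?_
        filter_upwards [hae] with t ht
        have h1 : Tendsto (fun i => ‖V (ns i) t‖ₑ ^ 6) atTop (𝓝 (‖U t‖ₑ ^ 6)) :=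
          ENNReal.Tendsto.pow (ht.enorm)
        exact h1.liminf_eq.symm
    _ ≤ liminf (fun i => ∫⁻ t : AddCircle T, ‖V (ns i) t‖ₑ ^ 6 ∂haarAddCircle) atTop :=
        lintegral_liminf_le' fun i => (by
          exact ((V (ns i)).continuous.enorm.measurable.pow_const 6).aemeasurable)
    _ ≤ _ := by
        refine liminf_le_of_le ?_ ?_
        · isBoundedDefault
        · intro b hb
          obtain ⟨i, hi⟩ := hb.exists
          exact hi.trans (hpoly (ns i))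

end

end LB3_

open LB3_ in
/-- **LB3**: `B_3` sets are `Λ(6)` sets -/
theorem p_LB3 : T_LB3 := by
  intro Λ hΛ u hu hper hco
  have hT : Fact (0 < 2 * Real.pi) := ⟨Real.two_pi_pos⟩
  have hper' : Function.Periodic u (2 * Real.pi) := hper
  set U : C(AddCircle (2 * Real.pi), ℂ) := ⟨hper'.lift, continuous_coinduced_dom.mpr hu⟩ with hUdef
  have hUu : ∀ θ : ℝ, U (θ : AddCircle (2 * Real.pi)) = u θ := fun θ => rfl
  have hpi : -Real.pi + 2 * Real.pi = Real.pi := by ring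
  have hU : ∀ m : ℤ, m ∉ Λ → fourierCoeff U m = 0 := by
    intro m hm
    rw [fourierCoeff_eq_intervalIntegral U m (-Real.pi), hpi]
    have h1 : ∀ θ : ℝ, fourier (-m) (θ : AddCircle (2 * Real.pi)) •
        U (θ : AddCircle (2 * Real.pi)) = u θ * ci (-(m * θ)) := by
      intro θ
      rw [hUu, fourier_coe_apply, smul_eq_mul, mul_comm]
      congr 1
      unfold ci
      congr 1
      push_cast
      have : (Real.pi : ℂ) ≠ 0 := by exact_mod_cast Real.pi_ne_zero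
      field_simp
    simp_rw [h1]
    rw [hco m hm, smul_zero]
  have hmain := circle hΛ U hU
  have hconv : ∀ n : ℕ, ∫⁻ θ in Ioc (-Real.pi) Real.pi, ‖u θ‖ₑ ^ n =
      ENNReal.ofReal (2 * Real.pi) * ∫⁻ t : AddCircle (2 * Real.pi), ‖U t‖ₑ ^ n
        ∂haarAddCircle := by
    intro n
    have h1 := AddCircle.lintegral_preimage (2 * Real.pi) (-Real.pi)
      (fun t : AddCircle (2 * Real.pi) => ‖U t‖ₑ ^ n)
    rw [hpi] at h1
    rw [volume_eq_smul_haarAddCircle, lintegral_smul_measure] at h1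
    exact h1
  rw [hconv, hconv, mul_pow]
  set H := ∫⁻ t : AddCircle (2 * Real.pi), ‖U t‖ₑ ^ 2 ∂haarAddCircle with hH
  have h6 : ENNReal.ofReal (2 * Real.pi) * 6 ≤ ENNReal.ofReal (2 * Real.pi) ^ 3 := by
    have h1 : (6 : ℝ≥0∞) ≤ ENNReal.ofReal (2 * Real.pi) ^ 2 := by
      rw [← ENNReal.ofReal_pow Real.two_pi_pos.le]
      rw [show (6 : ℝ≥0∞) = ENNReal.ofReal 6 by norm_num]
      refine ENNReal.ofReal_le_ofReal ?_
      nlinarith [Real.pi_gt_three]
    calc ENNReal.ofReal (2 * Real.pi) * 6 ≤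
        ENNReal.ofReal (2 * Real.pi) * ENNReal.ofReal (2 * Real.pi) ^ 2 := by gcongr
      _ = _ := by ring
  calc ENNReal.ofReal (2 * Real.pi) * ∫⁻ t : AddCircle (2 * Real.pi), ‖U t‖ₑ ^ 6 ∂haarAddCircle
      ≤ ENNReal.ofReal (2 * Real.pi) * (6 * H ^ 3) := by gcongr
    _ = (ENNReal.ofReal (2 * Real.pi) * 6) * H ^ 3 := by ring
    _ ≤ ENNReal.ofReal (2 * Real.pi) ^ 3 * H ^ 3 := by gcongr
    _ = _ := by
        rw [ENNReal.coe_one, one_mul]

end Pool.Agent.CRW
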