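import Pool.Agent.CRW.Targets5
import Pool.Agent.VRC.P_CHN

set_option autoImplicit false

/-!
# CRW, LCH: chaining in `L⁶`
-/

namespace Pool.Agent.CRW

open MeasureTheory FourierTransform Set Filter Topology
open scoped ENNReal NNReal

namespace LCH_

open Pool.Agent.VRC.CHN_ (exists_G lev lev_div lev_lt lev_dist rp rp_spec rp_zero geo_le)

/-- nets for a general squared distance -/
theorem nets {M : ℕ} {D : ℕ → ℕ → ℝ} {W : ℝ} (hD0 : ∀ j k, 0 ≤ D j k)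
    (hDc : ∀ j k, D j k = D k j) (hDz : D 0 0 = 0) (hW : 0 < W)
    (h : ∀ (l : ℕ) (t : ℕ → ℕ), Monotone t → (∀ r, t r ≤ M) →
      ∑ r ∈ Finset.range l, D (t (r + 1)) (t r) ^ 2 ≤ W ^ 2) :
    ∃ (π : ℕ → ℕ → ℕ) (K : ℕ) (α β : ℕ → ℕ → ℕ),
      (∀ j ≤ M, π 0 j = 0 ∧ D j (π K j) = 0 ∧ π K j ≤ M) ∧
      (∀ k, ∀ j ≤ M, ∃ c < 16 ^ (k + 1), π (k + 1) j = α k c ∧ π k j = β k c) ∧
      ∀ k c, D (α k c) (β k c) ≤ 2 * W / 4 ^ k ∧ α k c ≤ M ∧ β k c ≤ M := by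
  classical
  obtain ⟨G, hG, hGd⟩ := exists_G (d := fun j k => D j k ^ 2) (c := W ^ 2)
    (fun j k => sq_nonneg _) h
  have hW2 : (0 : ℝ) < W ^ 2 := by positivity
  have hdist : ∀ k, ∀ i ≤ M, ∀ j ≤ M, lev G (W ^ 2) k i = lev G (W ^ 2) k j →
      D i j ≤ 2 * W / 4 ^ k := by
    have key : ∀ k, ∀ i ≤ M, ∀ j ≤ M, i ≤ j → lev G (W ^ 2) k i = lev G (W ^ 2) k j →
        D j i ≤ 2 * W / 4 ^ k := by
      intro k i hi j hj hij hl
      have h1 := hGd i j hij hj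
      have h2 := lev_dist hW2 (hG i hi).1 (hG j hj).1 hl
      have h3 : G j - G i ≤ 2 * W ^ 2 / 16 ^ k := by
        have := neg_abs_le (G i - G j)
        linarith
      refine le_of_sq_le_sq ?_ (by positivity)
      calc D j i ^ 2 ≤ 2 * W ^ 2 / 16 ^ k := h1.trans h3
        _ ≤ 4 * W ^ 2 / 16 ^ k := by gcongr; norm_num
        _ = (2 * W / 4 ^ k) ^ 2 := by
            rw [div_pow, mul_pow, ← pow_mul, mul_comm k 2, pow_mul]
            norm_num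
    intro k i hi j hj hl
    rcases le_total i j with hij | hij
    · rw [hDc]
      exact key k i hi j hj hij hl
    · exact key k j hj i hi hij hl.symm
  have hzero : lev G (W ^ 2) 0 0 = 0 := by
    have := lev_lt hW2 (hG 0 (Nat.zero_le _)).1 (hG 0 (Nat.zero_le _)).2 0
    simpa using this
  -- large level
  obtain ⟨K, hK⟩ : ∃ K : ℕ, ∀ p ∈ (Finset.range (M + 1)) ×ˢ (Finset.range (M + 1)),
      lev G (W ^ 2) K p.1 = lev G (W ^ 2) K p.2 → D p.1 p.2 = 0 := by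
    have hev : ∀ᶠ K : ℕ in atTop, ∀ p ∈ (Finset.range (M + 1)) ×ˢ (Finset.range (M + 1)),
        lev G (W ^ 2) K p.1 = lev G (W ^ 2) K p.2 → D p.1 p.2 = 0 := by
      rw [Filter.eventually_all_finset]
      rintro ⟨i, j⟩ hp
      rw [Finset.mem_product, Finset.mem_range, Finset.mem_range] at hp
      obtain ⟨hi, hj⟩ := hp
      dsimp only at hi hj
      rcases (hD0 i j).eq_or_lt with h0 | h0
      · exact Eventually.of_forall fun K _ => h0.symm
      · have ht : Tendsto (fun K : ℕ => 2 * W / (4 : ℝ) ^ K) atTop (𝓝 0) := by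
          refine Tendsto.div_atTop tendsto_const_nhds ?_
          exact tendsto_pow_atTop_atTop_of_one_lt (by norm_num)
        filter_upwards [ht.eventually (gt_mem_nhds h0)] with K hK hl
        have := hdist K i (by omega) j (by omega) hl
        exact absurd (this.trans_lt hK) (lt_irrefl _)
    exact hev.exists
  refine ⟨fun k j => rp M (lev G (W ^ 2) k) (lev G (W ^ 2) k j), K,
    fun k c => if ∃ j, j ≤ M ∧ lev G (W ^ 2) (k + 1) j = c then
      rp M (lev G (W ^ 2) (k + 1)) c else 0,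
    fun k c => if ∃ j, j ≤ M ∧ lev G (W ^ 2) (k + 1) j = c then
      rp M (lev G (W ^ 2) k) (c / 16) else 0, ?_, ?_, ?_⟩
  · intro j hj
    refine ⟨?_, ?_, (rp_spec (f := lev G (W ^ 2) K) hj).1⟩
    · refine rp_zero ?_
      have h1 := lev_lt hW2 (hG j hj).1 (hG j hj).2 0
      rw [hzero]
      rw [pow_zero] at h1
      omega
    · have h1 := rp_spec (f := lev G (W ^ 2) K) hj
      exact hK (j, rp M (lev G (W ^ 2) K) (lev G (W ^ 2) K j))
        (Finset.mem_product.2 ⟨Finset.mem_range.2 (Nat.lt_succ_of_le hj),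
          Finset.mem_range.2 (Nat.lt_succ_of_le h1.1)⟩) h1.2.symm
  · intro k j hj
    refine ⟨lev G (W ^ 2) (k + 1) j, lev_lt hW2 (hG j hj).1 (hG j hj).2 (k + 1), ?_, ?_⟩
    · dsimp only
      rw [if_pos ⟨j, hj, rfl⟩]
    · dsimp only
      rw [if_pos ⟨j, hj, rfl⟩, ← lev_div]
  · intro k c
    dsimp only
    by_cases hc : ∃ j, j ≤ M ∧ lev G (W ^ 2) (k + 1) j = c
    · rw [if_pos hc, if_pos hc]
      obtain ⟨j, hj, rfl⟩ := hc
      have h1 := rp_spec (f := lev G (W ^ 2) (k + 1)) hj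
      have h2 := rp_spec (f := lev G (W ^ 2) k) hj
      rw [← lev_div]
      refine ⟨hdist k _ h1.1 _ h2.1 ?_, h1.1, h2.1⟩
      rw [h2.2, lev_div, h1.2, ← lev_div]
    · rw [if_neg hc, if_neg hc, hDz]
      exact ⟨by positivity, Nat.zero_le _, Nat.zero_le _⟩

theorem sum_pow_six (a : ℕ → ℝ) (ha : ∀ k, 0 ≤ a k) (K : ℕ) :
    (∑ k ∈ Finset.range K, a k) ^ 6 ≤
      3125 * ∑ k ∈ Finset.range K, (3125 / 1024 : ℝ) ^ k * a k ^ 6 := by
  rcases Nat.eq_zero_or_pos K with h | h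
  · subst h
    simp
  obtain ⟨Q, hQ⟩ : ∃ Q : ℝ, Q = ∑ k ∈ Finset.range K, (4 / 5 : ℝ) ^ k := ⟨_, rfl⟩
  have hQ1 : 1 ≤ Q := by
    rw [hQ]
    have := Finset.single_le_sum (f := fun k => (4 / 5 : ℝ) ^ k)
      (fun k _ => by positivity) (Finset.mem_range.2 h)
    simpa using this
  have hQ5 : Q ≤ 5 := by
    rw [hQ]
    refine (geo_le (by norm_num) (by norm_num) K).trans ?_
    norm_num
  have hQ0 : 0 < Q := by linarith
  have h1 := Real.pow_arith_mean_le_arith_mean_pow (Finset.range K)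
    (fun k => (4 / 5 : ℝ) ^ k / Q) (fun k => a k * Q / (4 / 5 : ℝ) ^ k)
    (fun k _ => by positivity) (by rw [← Finset.sum_div, ← hQ, div_self hQ0.ne'])
    (fun k _ => by have := ha k; positivity) 6
  have e1 : ∑ k ∈ Finset.range K, (4 / 5 : ℝ) ^ k / Q * (a k * Q / (4 / 5 : ℝ) ^ k) =
      ∑ k ∈ Finset.range K, a k := by
    refine Finset.sum_congr rfl fun k _ => ?_
    have : (4 / 5 : ℝ) ^ k ≠ 0 := by positivity
    field_simp
  rw [e1] at h1
  refine h1.trans ?_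
  rw [Finset.mul_sum]
  refine Finset.sum_le_sum fun k _ => ?_
  have e2 : (3125 / 1024 : ℝ) ^ k * ((4 / 5 : ℝ) ^ k) ^ 5 = 1 := by
    rw [← pow_mul, mul_comm k 5, pow_mul, ← mul_pow]
    norm_num
  have e3 : (4 / 5 : ℝ) ^ k / Q * (a k * Q / (4 / 5 : ℝ) ^ k) ^ 6 =
      Q ^ 5 * ((3125 / 1024 : ℝ) ^ k * a k ^ 6) := by
    have h4 : (4 / 5 : ℝ) ^ k ≠ 0 := by positivity
    have e4 : (3125 / 1024 : ℝ) ^ k = (((4 / 5 : ℝ) ^ k) ^ 5)⁻¹ :=
      eq_inv_of_mul_eq_one_left e2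
    rw [e4]
    generalize (4 / 5 : ℝ) ^ k = y at h4
    field_simp
  rw [e3]
  have h5 : Q ^ 5 ≤ 3125 := by
    calc Q ^ 5 ≤ 5 ^ 5 := by gcongr
      _ = 3125 := by norm_num
  exact mul_le_mul_of_nonneg_right h5 (by have := ha k; positivity)

theorem sup_six_le {M : ℕ} (a : ℕ → ℝ≥0∞) (F : ℝ≥0∞) (h : ∀ j ≤ M, a j ^ 6 ≤ F) :
    (⨆ (j : ℕ) (_ : j ≤ M), a j) ^ 6 ≤ F := by
  have h1 : (⨆ (j : ℕ) (_ : j ≤ M), a j) ≤ F ^ (1 / 6 : ℝ) := by
    refine iSup_le fun j => iSup_le fun hj => ?_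
    calc a j = (a j ^ 6) ^ (1 / 6 : ℝ) := by
          rw [← ENNReal.rpow_natCast, ← ENNReal.rpow_mul]
          norm_num
      _ ≤ F ^ (1 / 6 : ℝ) := ENNReal.rpow_le_rpow (h j hj) (by norm_num)
  calc (⨆ (j : ℕ) (_ : j ≤ M), a j) ^ 6 ≤ (F ^ (1 / 6 : ℝ)) ^ 6 := by gcongr
    _ = F := by
        rw [← ENNReal.rpow_natCast, ← ENNReal.rpow_mul]
        norm_num

/-- the pointwise bound -/
theorem pointwise {M : ℕ} {x : ℕ → ℂ} (hX : x 0 = 0)
    {π : ℕ → ℕ → ℕ} {K : ℕ} {α β : ℕ → ℕ → ℕ}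
    (h0 : ∀ j ≤ M, π 0 j = 0) (h1 : ∀ j ≤ M, x j = x (π K j))
    (h2 : ∀ k, ∀ j ≤ M, ∃ c < 16 ^ (k + 1), π (k + 1) j = α k c ∧ π k j = β k c)
    (j : ℕ) (hj : j ≤ M) :
    ‖x j‖ ^ 6 ≤ ∑ k ∈ Finset.range K, 3125 * (3125 / 1024 : ℝ) ^ k *
      ∑ c ∈ Finset.range (16 ^ (k + 1)), ‖x (α k c) - x (β k c)‖ ^ 6 := by
  have e1 : x (π K j) = ∑ k ∈ Finset.range K, (x (π (k + 1) j) - x (π k j)) := by
    rw [Finset.sum_range_sub (fun k => x (π k j)), h0 j hj, hX, sub_zero]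
  have e2 : ‖x j‖ ≤ ∑ k ∈ Finset.range K, ‖x (π (k + 1) j) - x (π k j)‖ := by
    rw [h1 j hj, e1]
    exact norm_sum_le _ _
  have e3 : ‖x j‖ ^ 6 ≤ (∑ k ∈ Finset.range K, ‖x (π (k + 1) j) - x (π k j)‖) ^ 6 := by
    gcongr
  refine e3.trans ((sum_pow_six _ (fun k => norm_nonneg _) K).trans ?_)
  rw [Finset.mul_sum]
  refine Finset.sum_le_sum fun k _ => ?_
  obtain ⟨c, hc, ha, hb⟩ := h2 k j hj
  rw [ha, hb, ← mul_assoc]
  refine mul_le_mul_of_nonneg_left ?_ (by positivity)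
  exact Finset.single_le_sum (f := fun c => ‖x (α k c) - x (β k c)‖ ^ 6)
    (fun _ _ => by positivity) (Finset.mem_range.2 hc)

/-- the numbers -/
theorem total_le {W : ℝ} (hW : 0 ≤ W) (K : ℕ) :
    ∑ k ∈ Finset.range K, 3125 * (3125 / 1024 : ℝ) ^ k *
      (16 ^ (k + 1) * (2 * W / 4 ^ k) ^ 3) ≤ 1700000 * W ^ 3 := by
  have h1 : ∀ k ∈ Finset.range K, 3125 * (3125 / 1024 : ℝ) ^ k *
      (16 ^ (k + 1) * (2 * W / 4 ^ k) ^ 3) = 400000 * W ^ 3 * (3125 / 4096 : ℝ) ^ k := by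
    intro k _
    have e3 : (3125 / 4096 : ℝ) ^ k = (3125 / 1024) ^ k * 16 ^ k / (4 ^ k) ^ 3 := by
      have e0 : (3125 / 4096 : ℝ) = (3125 / 1024) * 16 / 4 ^ 3 := by norm_num
      rw [e0, div_pow, mul_pow, pow_right_comm (4 : ℝ) 3 k]
    rw [e3, pow_succ (16 : ℝ) k]
    field_simp
    ring
  rw [Finset.sum_congr rfl h1, ← Finset.mul_sum]
  have h2 := geo_le (q := (3125 / 4096 : ℝ)) (by norm_num) (by norm_num) K
  have h3 : ((1 - 3125 / 4096 : ℝ))⁻¹ ≤ 17 / 4 := by norm_num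
  have h4 : 0 ≤ 400000 * W ^ 3 := by positivity
  calc 400000 * W ^ 3 * ∑ i ∈ Finset.range K, (3125 / 4096 : ℝ) ^ i
      ≤ 400000 * W ^ 3 * (17 / 4) := mul_le_mul_of_nonneg_left (h2.trans h3) h4
    _ = 1700000 * W ^ 3 := by ring

end LCH_

open LCH_ in
/-- **LCH** -/
theorem p_LCH : T_LCH := by
  refine ⟨1700000, fun Ω _ μ M X B V hm hX0 hB hV hK hvar => ?_⟩
  obtain ⟨J, hJ⟩ : ∃ J : ℕ → ℕ → ℝ≥0∞, J = fun j k => ∫⁻ ω, ‖X j ω - X k ω‖ₑ ^ 2 ∂μ :=
    ⟨_, rfl⟩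
  have hJm : ∀ j k, Measurable (fun ω => ‖X j ω - X k ω‖ₑ ^ 2) := fun j k =>
    (((hm j).sub (hm k)).enorm).pow_const 2
  have hJc : ∀ j k, J j k = J k j := by
    intro j k
    rw [hJ]
    show ∫⁻ ω, ‖X j ω - X k ω‖ₑ ^ 2 ∂μ = ∫⁻ ω, ‖X k ω - X j ω‖ₑ ^ 2 ∂μ
    refine lintegral_congr fun ω => ?_
    rw [← enorm_neg, neg_sub]
  have hvar' : ∀ (l : ℕ) (t : ℕ → ℕ), Monotone t → (∀ r, t r ≤ M) →
      ∑ r ∈ Finset.range l, J (t (r + 1)) (t r) ^ 2 ≤ V ^ 4 := by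
    rw [hJ]
    exact hvar
  -- finiteness
  have hJ1 : ∀ j ≤ M, ∀ k ≤ M, J j k ^ 2 ≤ V ^ 4 := by
    have key : ∀ j ≤ M, ∀ k ≤ M, j ≤ k → J k j ^ 2 ≤ V ^ 4 := by
      intro j hj k hk hjk
      have h2 := hvar' 1 (fun r => if r = 0 then j else k) (by
        intro a b hab
        show (if a = 0 then j else k) ≤ (if b = 0 then j else k)
        split_ifs <;> omega) (by
        intro r
        show (if r = 0 then j else k) ≤ M
        split_ifs <;> omega)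
      simpa using h2
    intro j hj k hk
    rcases le_total j k with h | h
    · rw [hJc]
      exact key j hj k hk h
    · exact key k hk j hj h
  have hJt : ∀ j ≤ M, ∀ k ≤ M, J j k ≠ ⊤ := by
    intro j hj k hk h
    have h1 := hJ1 j hj k hk
    rw [h] at h1
    have h2 : V ^ 4 = ⊤ := by
      rw [← top_le_iff]
      simpa using h1
    exact ENNReal.pow_ne_top hV h2
  -- zero distance
  have hae : ∀ j k, J j k = 0 → ∀ᵐ ω ∂μ, X j ω = X k ω := by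
    intro j k h
    rw [hJ] at h
    have h1 := (lintegral_eq_zero_iff (hJm j k)).1 h
    filter_upwards [h1] with ω hω
    have h2 : ‖X j ω - X k ω‖ₑ = 0 := by simpa using hω
    exact sub_eq_zero.1 (enorm_eq_zero.1 h2)
  obtain ⟨W, hW⟩ : ∃ W : ℝ, W = V.toReal ^ 2 := ⟨_, rfl⟩
  have hW0 : 0 ≤ W := by rw [hW]; positivity
  have hWe : ENNReal.ofReal (W ^ 3) = V ^ 6 := by
    rw [hW, ← pow_mul, ENNReal.ofReal_pow ENNReal.toReal_nonneg, ENNReal.ofReal_toReal hV]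
  rcases hW0.eq_or_lt with hWz | hWp
  · have hV0 : V = 0 := by
      have h1 : V.toReal = 0 := by
        rw [hW] at hWz
        exact pow_eq_zero_iff (two_ne_zero) |>.1 hWz.symm
      rcases (ENNReal.toReal_eq_zero_iff V).1 h1 with h | h
      · exact h
      · exact absurd h hV
    have h2 : ∀ j ≤ M, ∀ᵐ ω ∂μ, X j ω = 0 := by
      intro j hj
      have h3 : J j 0 = 0 := by
        have h4 := hJ1 j hj 0 (Nat.zero_le _)
        rw [hV0] at h4
        simpa using h4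
      filter_upwards [hae j 0 h3] with ω hω
      rw [hω, hX0]
    have h3 : ∀ᵐ ω ∂μ, ∀ j ∈ Finset.range (M + 1), X j ω = 0 := by
      rw [Filter.eventually_all_finset]
      intro j hj
      exact h2 j (Nat.le_of_lt_succ (Finset.mem_range.1 hj))
    calc ∫⁻ ω, (⨆ (j : ℕ) (_ : j ≤ M), ‖X j ω‖ₑ) ^ 6 ∂μ ≤ ∫⁻ _, 0 ∂μ := by
          refine lintegral_mono_ae ?_
          filter_upwards [h3] with ω hω
          refine sup_six_le _ _ fun j hj => ?_
          rw [hω j (Finset.mem_range.2 (Nat.lt_succ_of_le hj))]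
          simp
      _ = 0 := by simp
      _ ≤ _ := zero_le
  have hvr : ∀ (l : ℕ) (t : ℕ → ℕ), Monotone t → (∀ r, t r ≤ M) →
      ∑ r ∈ Finset.range l, (J (t (r + 1)) (t r)).toReal ^ 2 ≤ W ^ 2 := by
    intro l t ht htM
    have h3 := ENNReal.toReal_mono (ENNReal.pow_ne_top hV) (hvar' l t ht htM)
    rw [ENNReal.toReal_pow, ENNReal.toReal_sum
      (fun r _ => ENNReal.pow_ne_top (hJt _ (htM _) _ (htM _)))] at h3
    simp only [ENNReal.toReal_pow] at h3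
    rw [hW, ← pow_mul]
    exact h3
  obtain ⟨π, K, α, β, g1, g2, g3⟩ := nets (D := fun j k => (J j k).toReal)
    (fun j k => ENNReal.toReal_nonneg) (fun j k => by rw [hJc]) (by
      show (J 0 0).toReal = 0
      rw [hJ]
      simp) hWp hvr
  have hz : ∀ᵐ ω ∂μ, ∀ j ∈ Finset.range (M + 1), X j ω = X (π K j) ω := by
    rw [Filter.eventually_all_finset]
    intro j hj
    have hj' := Nat.le_of_lt_succ (Finset.mem_range.1 hj)
    obtain ⟨-, h4, h5⟩ := g1 j hj'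
    refine hae j _ ?_
    rcases (ENNReal.toReal_eq_zero_iff _).1 h4 with h | h
    · exact h
    · exact absurd h (hJt j hj' _ h5)
  have hpt : ∀ᵐ ω ∂μ, (⨆ (j : ℕ) (_ : j ≤ M), ‖X j ω‖ₑ) ^ 6 ≤
      ∑ k ∈ Finset.range K, ENNReal.ofReal (3125 * (3125 / 1024 : ℝ) ^ k) *
        ∑ c ∈ Finset.range (16 ^ (k + 1)), ‖X (α k c) ω - X (β k c) ω‖ₑ ^ 6 := by
    filter_upwards [hz] with ω hω
    refine sup_six_le _ _ fun j hj => ?_
    have h2 := pointwise (x := fun j => X j ω) (hX0 ω) (fun j hj => (g1 j hj).1)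
      (fun j hj => hω j (Finset.mem_range.2 (Nat.lt_succ_of_le hj))) g2 j hj
    have h3 : ‖X j ω‖ₑ ^ 6 = ENNReal.ofReal (‖X j ω‖ ^ 6) := by
      rw [ENNReal.ofReal_pow (norm_nonneg _), ofReal_norm]
    rw [h3]
    refine (ENNReal.ofReal_le_ofReal h2).trans (le_of_eq ?_)
    rw [ENNReal.ofReal_sum_of_nonneg (fun k _ => by positivity)]
    refine Finset.sum_congr rfl fun k _ => ?_
    rw [ENNReal.ofReal_mul (p := 3125 * (3125 / 1024 : ℝ) ^ k) (by positivity),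
      ENNReal.ofReal_sum_of_nonneg (fun k _ => by positivity)]
    congr 1
    refine Finset.sum_congr rfl fun c _ => ?_
    rw [ENNReal.ofReal_pow (norm_nonneg _), ofReal_norm]
  have hmeas : ∀ k c, Measurable (fun ω => ‖X (α k c) ω - X (β k c) ω‖ₑ ^ 6) := fun k c =>
    (((hm _).sub (hm _)).enorm).pow_const 6
  have hchk : ∀ k c, ∫⁻ ω, ‖X (α k c) ω - X (β k c) ω‖ₑ ^ 6 ∂μ ≤
      B * ENNReal.ofReal ((2 * W / 4 ^ k) ^ 3) := by
    intro k c
    obtain ⟨k1, k2, k3⟩ := g3 k c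
    refine (hK _ _ k2 k3).trans ?_
    rw [ENNReal.ofReal_pow (by positivity)]
    gcongr
    have h5 : J (α k c) (β k c) ≤ ENNReal.ofReal (2 * W / 4 ^ k) := by
      rw [← ENNReal.ofReal_toReal (hJt _ k2 _ k3)]
      exact ENNReal.ofReal_le_ofReal k1
    rw [hJ] at h5
    exact h5
  calc ∫⁻ ω, (⨆ (j : ℕ) (_ : j ≤ M), ‖X j ω‖ₑ) ^ 6 ∂μ
      ≤ ∫⁻ ω, ∑ k ∈ Finset.range K, ENNReal.ofReal (3125 * (3125 / 1024 : ℝ) ^ k) *
        ∑ c ∈ Finset.range (16 ^ (k + 1)), ‖X (α k c) ω - X (β k c) ω‖ₑ ^ 6 ∂μ :=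
        lintegral_mono_ae hpt
    _ = ∑ k ∈ Finset.range K, ENNReal.ofReal (3125 * (3125 / 1024 : ℝ) ^ k) *
        ∑ c ∈ Finset.range (16 ^ (k + 1)), ∫⁻ ω, ‖X (α k c) ω - X (β k c) ω‖ₑ ^ 6 ∂μ := by
        rw [lintegral_finsetSum _ (fun k _ =>
          (Finset.measurable_fun_sum _ fun c _ => hmeas k c).const_mul _)]
        refine Finset.sum_congr rfl fun k _ => ?_
        rw [lintegral_const_mul _ (Finset.measurable_fun_sum _ fun c _ => hmeas k c),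
          lintegral_finsetSum _ (fun c _ => hmeas k c)]
    _ ≤ ∑ k ∈ Finset.range K, ENNReal.ofReal (3125 * (3125 / 1024 : ℝ) ^ k) *
        ∑ _c ∈ Finset.range (16 ^ (k + 1)), B * ENNReal.ofReal ((2 * W / 4 ^ k) ^ 3) := by
        gcongr with k _ c _
        exact hchk k c
    _ = B * ENNReal.ofReal (∑ k ∈ Finset.range K, 3125 * (3125 / 1024 : ℝ) ^ k *
      (16 ^ (k + 1) * (2 * W / 4 ^ k) ^ 3)) := by
        rw [ENNReal.ofReal_sum_of_nonneg (fun k _ => by positivity), Finset.mul_sum]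
        refine Finset.sum_congr rfl fun k _ => ?_
        rw [ENNReal.ofReal_mul (p := 3125 * (3125 / 1024 : ℝ) ^ k) (by positivity),
          Finset.sum_const, Finset.card_range, nsmul_eq_mul,
          ENNReal.ofReal_mul (p := (16 : ℝ) ^ (k + 1)) (by positivity)]
        have h7 : ENNReal.ofReal ((16 : ℝ) ^ (k + 1)) = ((16 ^ (k + 1) : ℕ) : ℝ≥0∞) := by
          rw [ENNReal.ofReal_pow (by norm_num)]
          push_cast
          norm_num
        rw [h7]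
        ring
    _ ≤ B * ENNReal.ofReal (1700000 * W ^ 3) := by
        gcongr
        exact total_le hW0 K
    _ = ((1700000 : ℝ≥0) : ℝ≥0∞) * B * V ^ 6 := by
        rw [ENNReal.ofReal_mul (by norm_num), hWe, ← mul_assoc, mul_comm B]
        congr 2
        norm_num

end Pool.Agent.CRW
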