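import Pool.Agent.CRW.Targets6
import Pool.Agent.CRW.P_LCH

set_option autoImplicit false

/-!
# CRW, LCP: chaining in `L^p`
-/

namespace Pool.Agent.CRW

open MeasureTheory FourierTransform Set Filter Topology
open scoped ENNReal NNReal

namespace LCP_

/-- Minkowski for finite sums -/
theorem mink {Ω : Type} [MeasurableSpace Ω] {μ : Measure Ω} {p : ℝ} (hp : 1 ≤ p)
    (F : ℕ → Ω → ℝ≥0∞) (hF : ∀ k, Measurable (F k)) (K : ℕ) :
    (∫⁻ ω, (∑ k ∈ Finset.range K, F k ω) ^ p ∂μ) ^ (1 / p) ≤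
      ∑ k ∈ Finset.range K, (∫⁻ ω, F k ω ^ p ∂μ) ^ (1 / p) := by
  have hp0 : 0 < p := by linarith
  induction K with
  | zero =>
    simp only [Finset.range_zero, Finset.sum_empty]
    rw [ENNReal.zero_rpow_of_pos hp0, lintegral_zero, ENNReal.zero_rpow_of_pos (by positivity)]
  | succ K ih =>
    have h1 := ENNReal.lintegral_Lp_add_le (μ := μ) (f := fun ω => ∑ k ∈ Finset.range K, F k ω)
      (g := F K) (Finset.measurable_fun_sum _ fun k _ => hF k).aemeasurable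
      (hF K).aemeasurable hp
    simp only [Finset.sum_range_succ]
    exact h1.trans (by gcongr)

/-- the geometric series -/
theorem geo {p q : ℝ} (hq : 2 < q) (hqp : q < p) (hp : p ≤ 4) :
    (16 : ℝ) ^ (1 / p) * 16 ^ (-(1 / q)) < 1 ∧
      (1 - (16 : ℝ) ^ (1 / p) * 16 ^ (-(1 / q)))⁻¹ ≤ 16 / (p - q) := by
  have hp0 : 0 < p := by linarith
  have hq0 : 0 < q := by linarith
  have hd : 0 < p - q := by linarith
  obtain ⟨x, hx⟩ : ∃ x : ℝ, x = (p - q) / 16 * Real.log 16 := ⟨_, rfl⟩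
  have hl : Real.log 16 = 4 * Real.log 2 := by
    rw [show (16 : ℝ) = 2 ^ 4 by norm_num, Real.log_pow]
    norm_num
  have hl1 : 2 ≤ Real.log 16 := by
    rw [hl]
    have := Real.log_two_gt_d9
    linarith
  have hl2 : Real.log 16 ≤ 4 := by
    rw [hl]
    have := Real.log_two_lt_d9
    linarith
  have hx0 : 0 < x := by rw [hx]; positivity
  have hx1 : x ≤ 1 := by
    rw [hx]
    have h1 : (p - q) / 16 ≤ 1 / 4 := by linarith
    have h2 : 0 ≤ (p - q) / 16 := by positivity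
    nlinarith
  have e1 : (16 : ℝ) ^ (1 / p) * 16 ^ (-(1 / q)) = Real.exp (Real.log 16 * (1 / p - 1 / q)) := by
    rw [← Real.rpow_add (by norm_num), Real.rpow_def_of_pos (by norm_num)]
    rfl
  have h3 : Real.log 16 * (1 / p - 1 / q) ≤ -x := by
    have h4 : (p - q) / 16 ≤ 1 / q - 1 / p := by
      rw [div_sub_div _ _ hq0.ne' hp0.ne', div_le_div_iff₀ (by norm_num) (by positivity)]
      have h5 : q * p ≤ 16 := by nlinarith
      nlinarith
    rw [hx]
    nlinarith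
  have h5 : (16 : ℝ) ^ (1 / p) * 16 ^ (-(1 / q)) ≤ Real.exp (-x) := by
    rw [e1]
    exact Real.exp_le_exp.2 h3
  have h6 : Real.exp (-x) ≤ 1 - x / 2 := by
    have h7 : Real.exp (-x) * Real.exp x = 1 := by
      rw [← Real.exp_add]
      simp
    have h8 := Real.add_one_le_exp x
    have h9 : Real.exp (-x) ≤ 1 / (x + 1) := by
      rw [le_div_iff₀ (by linarith)]
      calc Real.exp (-x) * (x + 1) ≤ Real.exp (-x) * Real.exp x := by gcongr
        _ = 1 := h7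
    refine h9.trans ?_
    rw [div_le_iff₀ (by linarith)]
    nlinarith
  have h10 : x / 2 ≤ 1 - (16 : ℝ) ^ (1 / p) * 16 ^ (-(1 / q)) := by linarith
  refine ⟨by linarith, ?_⟩
  rw [inv_le_comm₀ (by linarith) (by positivity), inv_div]
  refine le_trans ?_ h10
  rw [hx]
  have : 0 < (p - q) / 16 := by positivity
  nlinarith

/-- the size of a link -/
theorem link {q J V : ℝ} (hq : 2 < q) (hJ : 0 ≤ J) (hV : 0 ≤ V) (k : ℕ)
    (h : J ^ (q / 4) ≤ 2 * V ^ (q / 2) / 4 ^ k) :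
    J ^ (1 / 2 : ℝ) ≤ 2 * ((16 : ℝ) ^ (-(1 / q))) ^ k * V := by
  have hq0 : 0 < q := by linarith
  have e1 : J ^ (1 / 2 : ℝ) = (J ^ (q / 4)) ^ (2 / q) := by
    rw [← Real.rpow_mul hJ]
    congr 1
    field_simp
    norm_num
  have e2 : (V ^ (q / 2)) ^ (2 / q) = V := by
    rw [← Real.rpow_mul hV]
    have : q / 2 * (2 / q) = 1 := by field_simp
    rw [this, Real.rpow_one]
  have e3 : ((4 : ℝ) ^ k) ^ (2 / q) = (((16 : ℝ) ^ (-(1 / q))) ^ k)⁻¹ := by
    rw [← Real.rpow_natCast, ← Real.rpow_natCast, ← Real.rpow_mul (by norm_num),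
      ← Real.rpow_mul (by norm_num), ← Real.rpow_neg (by norm_num),
      show (16 : ℝ) = 4 ^ (2 : ℝ) by norm_num, ← Real.rpow_mul (by norm_num)]
    congr 1
    ring
  have h1 : (J ^ (q / 4)) ^ (2 / q) ≤ (2 * V ^ (q / 2) / 4 ^ k) ^ (2 / q) :=
    Real.rpow_le_rpow (by positivity) h (by positivity)
  have e4 : (2 * V ^ (q / 2) / 4 ^ k) ^ (2 / q) =
      2 ^ (2 / q) * ((16 : ℝ) ^ (-(1 / q))) ^ k * V := by
    rw [Real.div_rpow (by positivity) (by positivity), Real.mul_rpow (by norm_num) (by positivity),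
      e2, e3]
    field_simp
  have h2 : (2 : ℝ) ^ (2 / q) ≤ 2 := by
    calc (2 : ℝ) ^ (2 / q) ≤ 2 ^ (1 : ℝ) :=
          Real.rpow_le_rpow_of_exponent_le (by norm_num) (by
            rw [div_le_one hq0]
            linarith)
      _ = 2 := Real.rpow_one _
  rw [e1]
  refine h1.trans ?_
  rw [e4]
  gcongr

theorem rr {a : ℝ≥0∞} {p : ℝ} (hp : 0 < p) : (a ^ p) ^ (1 / p) = a := by
  rw [← ENNReal.rpow_mul, mul_one_div_cancel hp.ne', ENNReal.rpow_one]

theorem rr' {a : ℝ≥0∞} {p : ℝ} (hp : 0 < p) : (a ^ (1 / p)) ^ p = a := by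
  rw [← ENNReal.rpow_mul, one_div_mul_cancel hp.ne', ENNReal.rpow_one]

/-- the pointwise bound -/
theorem pointwise {M : ℕ} {x : ℕ → ℂ} {p : ℝ} (hp : 0 < p) (hX : x 0 = 0)
    {π : ℕ → ℕ → ℕ} {K : ℕ} {α β : ℕ → ℕ → ℕ}
    (h0 : ∀ j ≤ M, π 0 j = 0) (h1 : ∀ j ≤ M, x j = x (π K j))
    (h2 : ∀ k, ∀ j ≤ M, ∃ c < 16 ^ (k + 1), π (k + 1) j = α k c ∧ π k j = β k c) :
    (⨆ (j : ℕ) (_ : j ≤ M), ‖x j‖ₑ) ≤ ∑ k ∈ Finset.range K,
      (∑ c ∈ Finset.range (16 ^ (k + 1)), ‖x (α k c) - x (β k c)‖ₑ ^ p) ^ (1 / p) := by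
  refine iSup_le fun j => iSup_le fun hj => ?_
  have e1 : x (π K j) = ∑ k ∈ Finset.range K, (x (π (k + 1) j) - x (π k j)) := by
    rw [Finset.sum_range_sub (fun k => x (π k j)), h0 j hj, hX, sub_zero]
  rw [h1 j hj, e1]
  refine (enorm_sum_le _ _).trans (Finset.sum_le_sum fun k _ => ?_)
  obtain ⟨c, hc, ha, hb⟩ := h2 k j hj
  rw [ha, hb]
  calc ‖x (α k c) - x (β k c)‖ₑ = (‖x (α k c) - x (β k c)‖ₑ ^ p) ^ (1 / p) := (rr hp).symm
    _ ≤ _ := by
        refine ENNReal.rpow_le_rpow ?_ (by positivity)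
        exact Finset.single_le_sum (f := fun c => ‖x (α k c) - x (β k c)‖ₑ ^ p)
          (fun _ _ => zero_le) (Finset.mem_range.2 hc)

end LCP_

open LCP_ in
/-- **LCP** -/
theorem p_LCP : T_LCP := by
  refine ⟨128, fun Ω _ μ M X B V p q hq2 hqp hp4 hm hX0 hB hV hK hvar => ?_⟩
  have hp0 : 0 < p := by linarith
  have hq0 : 0 < q := by linarith
  obtain ⟨J, hJ⟩ : ∃ J : ℕ → ℕ → ℝ≥0∞, J = fun j k => ∫⁻ ω, ‖X j ω - X k ω‖ₑ ^ 2 ∂μ :=
    ⟨_, rfl⟩
  have hJm : ∀ j k, Measurable (fun ω => ‖X j ω - X k ω‖ₑ ^ 2) := fun j k =>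
    (((hm j).sub (hm k)).enorm).pow_const 2
  have hJc : ∀ j k, J j k = J k j := by
    intro j k
    rw [hJ]
    show ∫⁻ ω, ‖X j ω - X k ω‖ₑ ^ 2 ∂μ = ∫⁻ ω, ‖X k ω - X j ω‖ₑ ^ 2 ∂μ
    refine lintegral_congr fun ω => ?_
    rw [← enorm_neg, neg_sub]
  have hvar' : ∀ (l : ℕ) (t : ℕ → ℕ), Monotone t → (∀ r, t r ≤ M) →
      ∑ r ∈ Finset.range l, J (t (r + 1)) (t r) ^ (q / 2) ≤ V ^ q := by
    rw [hJ]
    exact hvar
  have hVq : V ^ q ≠ ⊤ := ENNReal.rpow_ne_top_of_nonneg hq0.le hV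
  -- finiteness
  have hJ1 : ∀ j ≤ M, ∀ k ≤ M, J j k ^ (q / 2) ≤ V ^ q := by
    have key : ∀ j ≤ M, ∀ k ≤ M, j ≤ k → J k j ^ (q / 2) ≤ V ^ q := by
      intro j hj k hk hjk
      have h2 := hvar' 1 (fun r => if r = 0 then j else k) (by
        intro a b hab
        show (if a = 0 then j else k) ≤ (if b = 0 then j else k)
        split_ifs <;> omega) (by
        intro r
        show (if r = 0 then j else k) ≤ M
        split_ifs <;> omega)
      simpa using h2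
    intro j hj k hk
    rcases le_total j k with h | h
    · rw [hJc]
      exact key j hj k hk h
    · exact key k hk j hj h
  have hJt : ∀ j ≤ M, ∀ k ≤ M, J j k ≠ ⊤ := by
    intro j hj k hk h
    have h1 := hJ1 j hj k hk
    rw [h, ENNReal.top_rpow_of_pos (by positivity), top_le_iff] at h1
    exact hVq h1
  -- zero distance
  have hae : ∀ j k, J j k = 0 → ∀ᵐ ω ∂μ, X j ω = X k ω := by
    intro j k h
    rw [hJ] at h
    have h1 := (lintegral_eq_zero_iff (hJm j k)).1 h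
    filter_upwards [h1] with ω hω
    have h2 : ‖X j ω - X k ω‖ₑ = 0 := by simpa using hω
    exact sub_eq_zero.1 (enorm_eq_zero.1 h2)
  obtain ⟨v, hv⟩ : ∃ v : ℝ, v = V.toReal := ⟨_, rfl⟩
  have hv0 : 0 ≤ v := by rw [hv]; positivity
  have hve : ENNReal.ofReal v = V := by rw [hv, ENNReal.ofReal_toReal hV]
  rcases hv0.eq_or_lt with hWz | hWp
  · have hV0 : V = 0 := by
      rcases (ENNReal.toReal_eq_zero_iff V).1 (hv.symm.trans hWz.symm) with h | h
      · exact h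
      · exact absurd h hV
    have h2 : ∀ j ≤ M, ∀ᵐ ω ∂μ, X j ω = 0 := by
      intro j hj
      have h3 : J j 0 = 0 := by
        have h4 := hJ1 j hj 0 (Nat.zero_le _)
        rw [hV0, ENNReal.zero_rpow_of_pos hq0] at h4
        have h5 := le_antisymm h4 zero_le
        rcases (ENNReal.rpow_eq_zero_iff).1 h5 with h | h
        · exact h.1
        · exact absurd h.2 (by linarith)
      filter_upwards [hae j 0 h3] with ω hω
      rw [hω, hX0]
    have h3 : ∀ᵐ ω ∂μ, ∀ j ∈ Finset.range (M + 1), X j ω = 0 := by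
      rw [Filter.eventually_all_finset]
      intro j hj
      exact h2 j (Nat.le_of_lt_succ (Finset.mem_range.1 hj))
    have h4 : ∫⁻ ω, (⨆ (j : ℕ) (_ : j ≤ M), ‖X j ω‖ₑ) ^ p ∂μ ≤ ∫⁻ _, 0 ∂μ := by
      refine lintegral_mono_ae ?_
      filter_upwards [h3] with ω hω
      have h5 : (⨆ (j : ℕ) (_ : j ≤ M), ‖X j ω‖ₑ) ≤ 0 := by
        refine iSup_le fun j => iSup_le fun hj => ?_
        rw [hω j (Finset.mem_range.2 (Nat.lt_succ_of_le hj))]
        simp
      rw [le_antisymm h5 zero_le, ENNReal.zero_rpow_of_pos hp0]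
    rw [lintegral_zero] at h4
    rw [le_antisymm h4 zero_le, ENNReal.zero_rpow_of_pos (by positivity)]
    exact zero_le
  have hD2 : ∀ j k, ((J j k).toReal ^ (q / 4)) ^ 2 = (J j k).toReal ^ (q / 2) := by
    intro j k
    rw [← Real.rpow_natCast, ← Real.rpow_mul ENNReal.toReal_nonneg]
    congr 1
    push_cast
    ring
  have hvr : ∀ (l : ℕ) (t : ℕ → ℕ), Monotone t → (∀ r, t r ≤ M) →
      ∑ r ∈ Finset.range l, ((J (t (r + 1)) (t r)).toReal ^ (q / 4)) ^ 2 ≤ (v ^ (q / 2)) ^ 2 := by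
    intro l t ht htM
    have h3 := ENNReal.toReal_mono hVq (hvar' l t ht htM)
    rw [← ENNReal.toReal_rpow, ENNReal.toReal_sum
      (fun r _ => ENNReal.rpow_ne_top_of_nonneg (by positivity) (hJt _ (htM _) _ (htM _)))] at h3
    have e1 : (v ^ (q / 2)) ^ 2 = V.toReal ^ q := by
      rw [← Real.rpow_natCast, ← Real.rpow_mul hv0, hv]
      congr 1
      push_cast
      ring
    rw [e1]
    refine le_trans (le_of_eq ?_) h3
    refine Finset.sum_congr rfl fun r _ => ?_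
    rw [hD2, ENNReal.toReal_rpow]
  obtain ⟨π, K, α, β, g1, g2, g3⟩ := LCH_.nets (D := fun j k => (J j k).toReal ^ (q / 4))
    (fun j k => by positivity) (fun j k => by rw [hJc]) (by
      show (J 0 0).toReal ^ (q / 4) = 0
      have e0 : J 0 0 = 0 := by
        rw [hJ]
        simp
      rw [e0, ENNReal.toReal_zero, Real.zero_rpow (by positivity)])
    (Real.rpow_pos_of_pos hWp (q / 2)) hvr
  have hz : ∀ᵐ ω ∂μ, ∀ j ∈ Finset.range (M + 1), X j ω = X (π K j) ω := by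
    rw [Filter.eventually_all_finset]
    intro j hj
    have hj' := Nat.le_of_lt_succ (Finset.mem_range.1 hj)
    obtain ⟨-, h4, h5⟩ := g1 j hj'
    refine hae j _ ?_
    have h6 : (J j (π K j)).toReal = 0 := by
      rcases (Real.rpow_eq_zero_iff_of_nonneg ENNReal.toReal_nonneg).1 h4 with ⟨h, -⟩
      exact h
    rcases (ENNReal.toReal_eq_zero_iff _).1 h6 with h | h
    · exact h
    · exact absurd h (hJt j hj' _ h5)
  obtain ⟨F, hF⟩ : ∃ F : ℕ → Ω → ℝ≥0∞, F = fun k ω =>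
      (∑ c ∈ Finset.range (16 ^ (k + 1)), ‖X (α k c) ω - X (β k c) ω‖ₑ ^ p) ^ (1 / p) :=
    ⟨_, rfl⟩
  have hmeas : ∀ k c, Measurable (fun ω => ‖X (α k c) ω - X (β k c) ω‖ₑ ^ p) := fun k c =>
    (((hm _).sub (hm _)).enorm).pow_const p
  have hFm : ∀ k, Measurable (F k) := by
    intro k
    rw [hF]
    exact (Finset.measurable_fun_sum _ fun c _ => hmeas k c).pow_const _
  have hpt : ∀ᵐ ω ∂μ, (⨆ (j : ℕ) (_ : j ≤ M), ‖X j ω‖ₑ) ≤ ∑ k ∈ Finset.range K, F k ω := by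
    filter_upwards [hz] with ω hω
    rw [hF]
    exact pointwise (x := fun j => X j ω) hp0 (hX0 ω) (fun j hj => (g1 j hj).1)
      (fun j hj => hω j (Finset.mem_range.2 (Nat.lt_succ_of_le hj))) g2
  obtain ⟨τ, hτ⟩ : ∃ τ : ℝ, τ = (16 : ℝ) ^ (-(1 / q)) := ⟨_, rfl⟩
  obtain ⟨s, hs⟩ : ∃ s : ℝ, s = (16 : ℝ) ^ (1 / p) := ⟨_, rfl⟩
  have hτ0 : 0 < τ := by rw [hτ]; positivity
  have hs0 : 0 < s := by rw [hs]; positivity
  have hs4 : s ≤ 4 := by
    rw [hs]
    calc (16 : ℝ) ^ (1 / p) ≤ 16 ^ (1 / 2 : ℝ) :=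
          Real.rpow_le_rpow_of_exponent_le (by norm_num)
            (one_div_le_one_div_of_le (by norm_num) (by linarith))
      _ = 4 := by
          rw [show (16 : ℝ) = 4 ^ (2 : ℝ) by norm_num, ← Real.rpow_mul (by norm_num)]
          norm_num
  have hchk : ∀ k c, (∫⁻ ω, ‖X (α k c) ω - X (β k c) ω‖ₑ ^ p ∂μ) ≤
      (B * (ENNReal.ofReal (2 * τ ^ k) * V)) ^ p := by
    intro k c
    obtain ⟨k1, k2, k3⟩ := g3 k c
    have h1 := hK _ _ k2 k3
    have h2 := link hq2 ENNReal.toReal_nonneg hv0 k k1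
    have h5 : J (α k c) (β k c) ^ (1 / 2 : ℝ) ≤ ENNReal.ofReal (2 * τ ^ k) * V := by
      rw [← hve, ← ENNReal.ofReal_mul (by positivity),
        ← ENNReal.ofReal_toReal (hJt _ k2 _ k3),
        ENNReal.ofReal_rpow_of_nonneg ENNReal.toReal_nonneg (by norm_num), hτ]
      exact ENNReal.ofReal_le_ofReal h2
    rw [hJ] at h5
    rw [← ENNReal.rpow_le_rpow_iff (z := 1 / p) (by positivity), rr hp0]
    refine h1.trans ?_
    gcongr
  have hFk : ∀ k, (∫⁻ ω, F k ω ^ p ∂μ) ^ (1 / p) ≤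
      ENNReal.ofReal (2 * s * (s * τ) ^ k) * (B * V) := by
    intro k
    have e1 : ∀ ω, F k ω ^ p =
        ∑ c ∈ Finset.range (16 ^ (k + 1)), ‖X (α k c) ω - X (β k c) ω‖ₑ ^ p := by
      intro ω
      rw [hF]
      exact rr' hp0
    have h1 : ∫⁻ ω, F k ω ^ p ∂μ ≤
        ((16 ^ (k + 1) : ℕ) : ℝ≥0∞) * (B * (ENNReal.ofReal (2 * τ ^ k) * V)) ^ p := by
      simp only [e1]
      rw [lintegral_finsetSum _ (fun c _ => hmeas k c)]
      refine (Finset.sum_le_sum fun c _ => hchk k c).trans (le_of_eq ?_)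
      rw [Finset.sum_const, Finset.card_range, nsmul_eq_mul]
    refine (ENNReal.rpow_le_rpow h1 (by positivity : 0 ≤ 1 / p)).trans (le_of_eq ?_)
    rw [ENNReal.mul_rpow_of_nonneg _ _ (by positivity), rr hp0]
    have e2 : (((16 ^ (k + 1) : ℕ) : ℝ≥0∞)) ^ (1 / p) = ENNReal.ofReal (s ^ (k + 1)) := by
      have e3 : (((16 ^ (k + 1) : ℕ) : ℝ≥0∞)) = ENNReal.ofReal ((16 : ℝ) ^ (k + 1)) := by
        rw [ENNReal.ofReal_pow (by norm_num)]
        push_cast
        norm_num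
      rw [e3, ENNReal.ofReal_rpow_of_nonneg (by positivity) (by positivity), hs]
      congr 1
      rw [← Real.rpow_natCast, ← Real.rpow_natCast, ← Real.rpow_mul (by norm_num),
        ← Real.rpow_mul (by norm_num), mul_comm]
    rw [e2]
    have e4 : ENNReal.ofReal (2 * s * (s * τ) ^ k) =
        ENNReal.ofReal (s ^ (k + 1)) * ENNReal.ofReal (2 * τ ^ k) := by
      rw [← ENNReal.ofReal_mul (by positivity)]
      congr 1
      rw [mul_pow, pow_succ]
      ring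
    rw [e4]
    ring
  obtain ⟨hgeo1, hgeo2⟩ := geo hq2 hqp hp4
  rw [← hs, ← hτ] at hgeo1 hgeo2
  calc (∫⁻ ω, (⨆ (j : ℕ) (_ : j ≤ M), ‖X j ω‖ₑ) ^ p ∂μ) ^ (1 / p)
      ≤ (∫⁻ ω, (∑ k ∈ Finset.range K, F k ω) ^ p ∂μ) ^ (1 / p) := by
        refine ENNReal.rpow_le_rpow (lintegral_mono_ae ?_) (by positivity)
        filter_upwards [hpt] with ω hω
        exact ENNReal.rpow_le_rpow hω hp0.le
    _ ≤ ∑ k ∈ Finset.range K, (∫⁻ ω, F k ω ^ p ∂μ) ^ (1 / p) :=
        mink (by linarith) F hFm K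
    _ ≤ ∑ k ∈ Finset.range K, ENNReal.ofReal (2 * s * (s * τ) ^ k) * (B * V) :=
        Finset.sum_le_sum fun k _ => hFk k
    _ = ENNReal.ofReal (∑ k ∈ Finset.range K, 2 * s * (s * τ) ^ k) * (B * V) := by
        rw [ENNReal.ofReal_sum_of_nonneg (fun k _ => by positivity), Finset.sum_mul]
    _ ≤ ENNReal.ofReal (128 * (1 / (p - q))) * (B * V) := by
        gcongr
        rw [← Finset.mul_sum]
        have h1 := Pool.Agent.VRC.CHN_.geo_le (q := s * τ) (by positivity) hgeo1 K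
        have h2 : 0 ≤ ∑ i ∈ Finset.range K, (s * τ) ^ i :=
          Finset.sum_nonneg fun _ _ => by positivity
        calc 2 * s * ∑ i ∈ Finset.range K, (s * τ) ^ i
            ≤ 2 * 4 * (16 / (p - q)) := by
              gcongr
              exact h1.trans hgeo2
          _ = 128 * (1 / (p - q)) := by ring
    _ = ((128 : ℝ≥0) : ℝ≥0∞) * ENNReal.ofReal (1 / (p - q)) * B * V := by
        rw [ENNReal.ofReal_mul (by norm_num)]
        norm_num
        ring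

end Pool.Agent.CRW
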