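import Pool.Agent.CRW.Targets6

set_option autoImplicit false

/-!
# CRW, block LKM: an arbitrary set of `K` angular frequencies
-/

namespace Pool.Agent.CRW

open MeasureTheory Set Filter Topology AddCircle
open scoped ENNReal NNReal ComplexConjugate
open Pool.Agent.MBS (E ex S Sstar)
open Pool.Agent.CRN (ci Nice)

namespace LKM_

section

variable {T : ℝ} [hT : Fact (0 < T)]

theorem fourier_norm (m : ℤ) (t : AddCircle T) : ‖fourier m t‖ = 1 := by
  rw [fourier_apply]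
  exact Circle.norm_coe _

/-- the sup norm of a function with `K` frequencies -/
theorem sup_le (F : Finset ℤ) (U : C(AddCircle T, ℂ))
    (hU : ∀ m : ℤ, m ∉ F → fourierCoeff U m = 0) (t : AddCircle T) :
    ‖U t‖ ^ 2 ≤ F.card * ∫ t : AddCircle T, ‖U t‖ ^ 2 ∂haarAddCircle := by
  classical
  set g := ContinuousMap.toLp (E := ℂ) 2 haarAddCircle ℂ U with hg
  have hc : ∀ m, fourierCoeff g m = fourierCoeff U m := fun m => fourierCoeff_toLp U m
  have hbes : ∑ m ∈ F, ‖fourierCoeff U m‖ ^ 2 ≤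
      ∫ t : AddCircle T, ‖U t‖ ^ 2 ∂haarAddCircle := by
    have h1 := hasSum_sq_fourierCoeff g
    simp_rw [hc] at h1
    have h2 : ∫ t : AddCircle T, ‖g t‖ ^ 2 ∂haarAddCircle =
        ∫ t : AddCircle T, ‖U t‖ ^ 2 ∂haarAddCircle := by
      refine integral_congr_ae ?_
      filter_upwards [ContinuousMap.coeFn_toLp (p := 2) (𝕜 := ℂ) haarAddCircle U] with t ht
      rw [hg, ht]
    rw [h2] at h1
    exact sum_le_hasSum F (fun m _ => by positivity) h1
  have hsm : Summable (fourierCoeff U) := by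
    refine summable_of_ne_finset_zero (s := F) ?_
    intro m hm
    exact hU m hm
  have hpt := has_pointwise_sum_fourier_series_of_summable hsm t
  have hfin : HasSum (fun i => fourierCoeff U i • fourier i t)
      (∑ m ∈ F, fourierCoeff U m • fourier m t) := by
    refine hasSum_sum_of_ne_finset_zero ?_
    intro m hm
    rw [hU m hm, zero_smul]
  rw [hpt.unique hfin]
  have h3 : ‖∑ m ∈ F, fourierCoeff U m • fourier m t‖ ≤ ∑ m ∈ F, ‖fourierCoeff U m‖ := by
    refine (norm_sum_le _ _).trans (le_of_eq ?_)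
    refine Finset.sum_congr rfl fun m _ => ?_
    rw [norm_smul, fourier_norm, mul_one]
  calc ‖∑ m ∈ F, fourierCoeff U m • fourier m t‖ ^ 2
      ≤ (∑ m ∈ F, ‖fourierCoeff U m‖) ^ 2 := pow_le_pow_left₀ (norm_nonneg _) h3 2
    _ ≤ F.card * ∑ m ∈ F, ‖fourierCoeff U m‖ ^ 2 := sq_sum_le_card_mul_sum_sq
    _ ≤ _ := mul_le_mul_of_nonneg_left hbes (Nat.cast_nonneg _)

end

/-- the sup norm on the line -/
theorem line (F : Finset ℤ) (u : ℝ → ℂ) (hu : Continuous u)
    (hper : ∀ θ, u (θ + 2 * Real.pi) = u θ)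
    (hco : ∀ m : ℤ, m ∉ (F : Set ℤ) →
      ∫ θ in (-Real.pi)..Real.pi, u θ * ci (-(m * θ)) = 0) (θ : ℝ) :
    ‖u θ‖ₑ ^ 2 ≤ F.card * ∫⁻ θ in Ioc (-Real.pi) Real.pi, ‖u θ‖ₑ ^ 2 := by
  have hT : Fact (0 < 2 * Real.pi) := ⟨Real.two_pi_pos⟩
  have hper' : Function.Periodic u (2 * Real.pi) := hper
  set U : C(AddCircle (2 * Real.pi), ℂ) := ⟨hper'.lift, continuous_coinduced_dom.mpr hu⟩ with hUdef
  have hUu : ∀ θ : ℝ, U (θ : AddCircle (2 * Real.pi)) = u θ := fun θ => rfl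
  have hpi : -Real.pi + 2 * Real.pi = Real.pi := by ring
  have hU : ∀ m : ℤ, m ∉ F → fourierCoeff U m = 0 := by
    intro m hm
    rw [fourierCoeff_eq_intervalIntegral U m (-Real.pi), hpi]
    have h1 : ∀ θ : ℝ, fourier (-m) (θ : AddCircle (2 * Real.pi)) •
        U (θ : AddCircle (2 * Real.pi)) = u θ * ci (-(m * θ)) := by
      intro θ
      rw [hUu, fourier_coe_apply, smul_eq_mul, mul_comm]
      congr 1
      unfold ci
      congr 1
      push_cast
      have : (Real.pi : ℂ) ≠ 0 := by exact_mod_cast Real.pi_ne_zero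
      field_simp
    simp_rw [h1]
    rw [hco m (by simpa using hm), smul_zero]
  have hmain := sup_le F U hU (θ : AddCircle (2 * Real.pi))
  rw [hUu] at hmain
  have hI2 : ∫⁻ t : AddCircle (2 * Real.pi), ‖U t‖ₑ ^ 2 ∂haarAddCircle =
      ENNReal.ofReal (∫ t : AddCircle (2 * Real.pi), ‖U t‖ ^ 2 ∂haarAddCircle) := by
    rw [ofReal_integral_eq_lintegral_ofReal]
    · refine lintegral_congr fun t => ?_
      rw [ENNReal.ofReal_pow (norm_nonneg _), ofReal_norm]
    · exact (by fun_prop : Continuous (fun t : AddCircle (2 * Real.pi) =>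
        ‖U t‖ ^ 2)).integrable_of_hasCompactSupport (HasCompactSupport.of_compactSpace _)
    · exact ae_of_all _ fun t => by positivity
  have hconv : ∫⁻ θ in Ioc (-Real.pi) Real.pi, ‖u θ‖ₑ ^ 2 =
      ENNReal.ofReal (2 * Real.pi) * ∫⁻ t : AddCircle (2 * Real.pi), ‖U t‖ₑ ^ 2
        ∂haarAddCircle := by
    have h1 := AddCircle.lintegral_preimage (2 * Real.pi) (-Real.pi)
      (fun t : AddCircle (2 * Real.pi) => ‖U t‖ₑ ^ 2)
    rw [hpi] at h1
    rw [volume_eq_smul_haarAddCircle, lintegral_smul_measure] at h1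
    exact h1
  have h2pi : (1 : ℝ≥0∞) ≤ ENNReal.ofReal (2 * Real.pi) := by
    rw [← ENNReal.ofReal_one]
    refine ENNReal.ofReal_le_ofReal ?_
    linarith [Real.pi_gt_three]
  calc ‖u θ‖ₑ ^ 2 = ENNReal.ofReal (‖u θ‖ ^ 2) := by
        rw [ENNReal.ofReal_pow (norm_nonneg _), ofReal_norm]
    _ ≤ ENNReal.ofReal (F.card * ∫ t : AddCircle (2 * Real.pi), ‖U t‖ ^ 2 ∂haarAddCircle) :=
        ENNReal.ofReal_le_ofReal hmain
    _ = F.card * ∫⁻ t : AddCircle (2 * Real.pi), ‖U t‖ₑ ^ 2 ∂haarAddCircle := by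
        rw [ENNReal.ofReal_mul (Nat.cast_nonneg _), ENNReal.ofReal_natCast, hI2]
    _ ≤ F.card * ∫⁻ θ in Ioc (-Real.pi) Real.pi, ‖u θ‖ₑ ^ 2 := by
        rw [hconv]
        gcongr
        calc ∫⁻ t : AddCircle (2 * Real.pi), ‖U t‖ₑ ^ 2 ∂haarAddCircle
            = 1 * ∫⁻ t : AddCircle (2 * Real.pi), ‖U t‖ₑ ^ 2 ∂haarAddCircle := (one_mul _).symm
          _ ≤ _ := by gcongr

/-- the constant -/
theorem const_le (K : ℕ) (p : ℝ) (hp : p = 2 + 2 / (1 + Real.log (K + 1))) :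
    ((K : ℝ≥0∞) + 1) ^ ((p - 2) / 2 * (1 / p)) ≤ 3 := by
  have hK : (0 : ℝ) ≤ K := Nat.cast_nonneg K
  have hlog : 0 ≤ Real.log (K + 1) := Real.log_nonneg (by linarith)
  have h1 : 0 < 1 + Real.log ((K : ℝ) + 1) := by linarith
  have hp2 : 2 < p := by
    rw [hp]
    have : 0 < 2 / (1 + Real.log ((K : ℝ) + 1)) := by positivity
    linarith
  have h2 : ((K : ℝ≥0∞) + 1) = ENNReal.ofReal ((K : ℝ) + 1) := by
    rw [ENNReal.ofReal_add hK zero_le_one, ENNReal.ofReal_natCast, ENNReal.ofReal_one]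
  rw [h2, ENNReal.ofReal_rpow_of_pos (by linarith)]
  rw [show (3 : ℝ≥0∞) = ENNReal.ofReal 3 by norm_num]
  refine ENNReal.ofReal_le_ofReal ?_
  rw [Real.rpow_def_of_pos (by linarith)]
  have h3 : Real.log ((K : ℝ) + 1) * ((p - 2) / 2 * (1 / p)) ≤ 1 := by
    have e1 : (p - 2) / 2 = 1 / (1 + Real.log ((K : ℝ) + 1)) := by
      rw [hp]
      field_simp
      ring
    have e2 : Real.log ((K : ℝ) + 1) * ((p - 2) / 2 * (1 / p)) =
        (Real.log ((K : ℝ) + 1) / (1 + Real.log ((K : ℝ) + 1))) * (1 / p) := by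
      rw [e1]
      ring
    rw [e2]
    have h4 : Real.log ((K : ℝ) + 1) / (1 + Real.log ((K : ℝ) + 1)) ≤ 1 := by
      rw [div_le_one h1]
      linarith
    have h5 : 1 / p ≤ 1 := by
      rw [div_le_one (by linarith)]
      linarith
    have h6 : 0 ≤ 1 / p := by positivity
    exact mul_le_one₀ h4 h6 h5
  calc Real.exp (Real.log ((K : ℝ) + 1) * ((p - 2) / 2 * (1 / p))) ≤ Real.exp 1 :=
        Real.exp_le_exp.2 h3
    _ ≤ 3 := by
        have := Real.exp_one_lt_d9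
        linarith

/-- `K` frequencies are a `Λ(p)` set with the constant `3` -/
theorem lp (F : Finset ℤ) (p : ℝ) (hp : p = 2 + 2 / (1 + Real.log (F.card + 1))) :
    LP p (F : Set ℤ) 3 := by
  intro u hu hper hco
  have hK : (0 : ℝ) ≤ F.card := Nat.cast_nonneg _
  have hlog : 0 ≤ Real.log ((F.card : ℝ) + 1) := Real.log_nonneg (by linarith)
  have hp2 : 2 < p := by
    rw [hp]
    have : 0 < 2 / (1 + Real.log ((F.card : ℝ) + 1)) := by positivity
    linarith
  set I : ℝ≥0∞ := ∫⁻ θ in Ioc (-Real.pi) Real.pi, ‖u θ‖ₑ ^ 2 with hI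
  have hsup : ∀ θ, ‖u θ‖ₑ ^ 2 ≤ ((F.card : ℝ≥0∞) + 1) * I := by
    intro θ
    refine (line F u hu hper hco θ).trans ?_
    gcongr
    exact le_self_add
  set a : ℝ := (p - 2) / 2 with ha
  have ha0 : 0 ≤ a := by
    rw [ha]
    linarith
  have h1 : ∫⁻ θ in Ioc (-Real.pi) Real.pi, ‖u θ‖ₑ ^ p ≤
      (((F.card : ℝ≥0∞) + 1) * I) ^ a * I := by
    rw [hI, ← lintegral_const_mul _ (hu.enorm.measurable.pow_const 2), ← hI]
    refine lintegral_mono fun θ => ?_
    have h2 : ‖u θ‖ₑ ^ p = (‖u θ‖ₑ ^ 2) ^ a * ‖u θ‖ₑ ^ 2 := by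
      rw [← ENNReal.rpow_natCast, ← ENNReal.rpow_mul, ← ENNReal.rpow_add_of_nonneg _ _
        (by positivity) (by positivity)]
      congr 1
      rw [ha]
      push_cast
      ring
    simp only
    rw [h2]
    gcongr
    exact hsup θ
  have hp0 : 0 ≤ 1 / p := by positivity
  calc (∫⁻ θ in Ioc (-Real.pi) Real.pi, ‖u θ‖ₑ ^ p) ^ (1 / p)
      ≤ ((((F.card : ℝ≥0∞) + 1) * I) ^ a * I) ^ (1 / p) := ENNReal.rpow_le_rpow h1 hp0
    _ = ((F.card : ℝ≥0∞) + 1) ^ (a * (1 / p)) * I ^ (1 / 2 : ℝ) := by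
        rw [ENNReal.mul_rpow_of_nonneg _ _ ha0, mul_assoc]
        have h3 : I ^ a * I = I ^ (a + 1) := by
          rw [ENNReal.rpow_add_of_nonneg _ _ ha0 zero_le_one, ENNReal.rpow_one]
        rw [h3, ENNReal.mul_rpow_of_nonneg _ _ hp0, ← ENNReal.rpow_mul, ← ENNReal.rpow_mul]
        congr 2
        rw [ha]
        have : p ≠ 0 := by linarith
        field_simp
        ring
    _ ≤ 3 * I ^ (1 / 2 : ℝ) := by
        gcongr
        exact const_le F.card p hp
    _ = _ := by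
        norm_num

end LKM_

open LKM_ in
/-- **LKM**: `K` arbitrary frequencies -/
theorem p_LKM (h1 : T_LPM) : T_LKM := by
  obtain ⟨C, hC⟩ := h1
  refine ⟨C * 2 ^ 16 * 10, ?_⟩
  intro F f hf hAF
  set p : ℝ := 2 + 2 / (1 + Real.log (F.card + 1)) with hp
  have hK : (0 : ℝ) ≤ F.card := Nat.cast_nonneg _
  have hlog : 0 ≤ Real.log ((F.card : ℝ) + 1) := Real.log_nonneg (by linarith)
  have h1' : 0 < 1 + Real.log ((F.card : ℝ) + 1) := by linarith
  have hp2 : 2 < p := by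
    rw [hp]
    have : 0 < 2 / (1 + Real.log ((F.card : ℝ) + 1)) := by positivity
    linarith
  have hp4 : p ≤ 4 := by
    rw [hp]
    have : 2 / (1 + Real.log ((F.card : ℝ) + 1)) ≤ 2 := by
      rw [div_le_iff₀ h1']
      linarith
    linarith
  refine (hC p (F : Set ℤ) 3 f hp2 hp4 (lp F p hp) hf hAF).trans ?_
  refine mul_le_mul_left ?_ _
  have h2 : 1 / (p - 2) ≤ 2 * Real.log (2 + F.card) := by
    have e1 : 1 / (p - 2) = (1 + Real.log ((F.card : ℝ) + 1)) / 2 := by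
      rw [hp]
      field_simp
      ring
    rw [e1]
    have h3 : Real.log 2 ≤ Real.log (2 + F.card) :=
      Real.log_le_log (by norm_num) (by linarith)
    have h4 : Real.log ((F.card : ℝ) + 1) ≤ Real.log (2 + F.card) :=
      Real.log_le_log (by linarith) (by linarith)
    have h5 := Real.log_two_gt_d9
    linarith
  have h0 : 0 ≤ 1 / (p - 2) := by
    have : 0 < p - 2 := by linarith
    positivity
  have h3 : ENNReal.ofReal ((1 / (p - 2)) ^ 16) ≤
      2 ^ 16 * ENNReal.ofReal (Real.log (2 + F.card) ^ 16) := by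
    have e2 : (2 : ℝ≥0∞) ^ 16 = ENNReal.ofReal (2 ^ 16) := by
      rw [ENNReal.ofReal_pow (by norm_num), ENNReal.ofReal_ofNat]
    rw [e2, ← ENNReal.ofReal_mul (by positivity), ← mul_pow]
    exact ENNReal.ofReal_le_ofReal (pow_le_pow_left₀ h0 h2 16)
  calc C * ENNReal.ofReal ((1 / (p - 2)) ^ 16) * (1 + ((3 : ℝ≥0) : ℝ≥0∞) ^ 2)
      ≤ C * (2 ^ 16 * ENNReal.ofReal (Real.log (2 + F.card) ^ 16)) *
          (1 + ((3 : ℝ≥0) : ℝ≥0∞) ^ 2) := by gcongr
    _ = _ := by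
        have e3 : (1 + ((3 : ℝ≥0) : ℝ≥0∞) ^ 2) = 10 := by
          rw [ENNReal.coe_ofNat]
          norm_num
        rw [e3]
        push_cast
        ring

end Pool.Agent.CRW
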