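import Pool.Agent.CRW.Targets6
import Pool.Agent.CRW.P_LAE

set_option autoImplicit false

/-!
# CRW: LPE, convergence for angular frequencies in a `Λ(p)` set
-/

namespace Pool.Agent.CRW

open MeasureTheory FourierTransform Set Filter Topology
open scoped ENNReal NNReal ComplexConjugate
open Pool.Agent.MBS (E ex S Sstar)
open Pool.Agent.CRN (ci Nice)
open Pool.Agent.CRL (ev rot amode T_MODA)
open Pool.Agent.CRN.SERN_

open LAE_ in
/-- LPE -/
theorem p_LPE (h1 : T_LPM) (h2 : T_MODA) : T_LPE := by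
  obtain ⟨C, hC⟩ := h1
  intro p Λ B f hp2 hp4 hΛ hf hA
  refine conv_of fun e he => ?_
  set P : ℝ := (1 / (p - 2)) ^ 16 with hPdef
  have hP0 : 0 ≤ P := by positivity
  set A : ℝ := C * P * (1 + B ^ 2) with hAdef
  have hA0 : 0 ≤ A := by positivity
  obtain ⟨h, ρ, hh, hρ, hF, hhc, hhe⟩ := approx hf (show (0 : ℝ) < e / (A + 1) by positivity)
  have hw : Nice (fun x => f x - h x) := nice_sub hf hh
  have hwA : AF Λ (fun x => f x - h x) := by
    refine AF_of h2 hw fun m hm ξ => ?_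
    have e1 : 𝓕 (fun x => f x - h x) = fun ξ => 𝓕 f ξ * (1 - ρ ξ) := by
      funext ξ
      rw [f_sub hf.int hh.int, hF]
      ring
    rw [e1, modes_mul (fun x y hxy => by rw [hρ x y hxy]), modes_F h2 hf hA m hm, zero_mul]
  refine ⟨fun x => f x - h x, h, hw, hh, fun x => by ring, ?_, ?_, ae_of_all _ hhc⟩
  · refine (hC p Λ B _ hp2 hp4 hΛ hw hwA).trans ?_
    calc (C : ℝ≥0∞) * ENNReal.ofReal ((1 / (p - 2)) ^ 16) * (1 + (B : ℝ≥0∞) ^ 2) *
          ∫⁻ x, ‖f x - h x‖ₑ ^ 2
        ≤ (C : ℝ≥0∞) * ENNReal.ofReal P * (1 + (B : ℝ≥0∞) ^ 2) *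
            ENNReal.ofReal (e / (A + 1)) := by gcongr
      _ = ENNReal.ofReal (A * (e / (A + 1))) := by
          rw [ENNReal.ofReal_mul hA0, hAdef, ENNReal.ofReal_mul (by positivity),
            ENNReal.ofReal_mul (NNReal.coe_nonneg C), ENNReal.ofReal_coe_nnreal,
            ENNReal.ofReal_add (by norm_num) (by positivity),
            ENNReal.ofReal_pow (NNReal.coe_nonneg B), ENNReal.ofReal_coe_nnreal,
            ENNReal.ofReal_one]
      _ ≤ ENNReal.ofReal e := by
          refine ENNReal.ofReal_le_ofReal ?_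
          rw [mul_div_assoc', div_le_iff₀ (by positivity)]
          nlinarith
  · refine hhe.trans (ENNReal.ofReal_le_ofReal ?_)
    exact div_le_self he.le (by linarith)

end Pool.Agent.CRW
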