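import Pool.Agent.CRW.Targets6
import Pool.Agent.CRW.P_LAM

set_option autoImplicit false

/-!
# CRW, LPM: the maximal theorem for angular frequencies in a `Λ(p)` set, `p > 2`

Chaining in `L^p` of the circle (LCP) and the `V^q` theorem (RAV), `q = (p + 2) / 2`.
-/

namespace Pool.Agent.CRW

open MeasureTheory FourierTransform Set Filter Topology
open scoped ENNReal NNReal ComplexConjugate
open Pool.Agent.MBS (E ex S Sstar)
open Pool.Agent.CRN (ci sg SH S1 Nice T_POLN T_DSN)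
open Pool.Agent.CRL (ev rot amode T_MODA T_MODB T_POLC)
open Pool.Agent.VRR (VS kr)
open LAM_ (ev_cont ev_per coef_zero gd gd_meas gd_mono Sstar_eq Sstar_meas rpow_le)

namespace LPM_

/-- conversion of the surface measure, real powers of the absolute value -/
theorem conv (h4 : T_SGC) (h5 : T_POLN) (F : E 2 → ℂ) (hF : Continuous F) {p : ℝ} (hp : 0 ≤ p) :
    ∫⁻ θ, ‖F (θ : E 2)‖ₑ ^ p ∂(sg 2) =
      ∫⁻ φ in Ioc (-Real.pi) Real.pi, ‖F (ev φ)‖ₑ ^ p := by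
  have hfin : IsFiniteMeasure (sg 2) := (h5 2 (by norm_num)).2.2
  have hFp : Continuous fun x => ‖F x‖ ^ p := hF.norm.rpow_const fun _ => Or.inr hp
  have h1 := h4 (fun x => ((‖F x‖ ^ p : ℝ) : ℂ)) (Complex.continuous_ofReal.comp hFp)
  simp only [integral_complex_ofReal] at h1
  rw [intervalIntegral.integral_of_le Pool.Agent.CRL.MODA_.pile, integral_complex_ofReal,
    Complex.ofReal_inj] at h1
  have hc1 : Continuous fun θ : Metric.sphere (0 : E 2) 1 => ‖F (θ : E 2)‖ ^ p :=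
    hFp.comp continuous_subtype_val
  have hc2 : Continuous fun φ : ℝ => ‖F (ev φ)‖ ^ p := hFp.comp ev_cont
  have hi1 : Integrable (fun θ : Metric.sphere (0 : E 2) 1 => ‖F (θ : E 2)‖ ^ p) (sg 2) := by
    exact hc1.integrable_of_hasCompactSupport (HasCompactSupport.of_compactSpace _)
  have hi2 : IntegrableOn (fun φ : ℝ => ‖F (ev φ)‖ ^ p) (Ioc (-Real.pi) Real.pi) :=
    (hc2.continuousOn.integrableOn_compact (isCompact_Icc)).mono_set Ioc_subset_Icc_self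
  have e1 := ofReal_integral_eq_lintegral_ofReal hi1 (ae_of_all _ fun θ => by positivity)
  have e2 := ofReal_integral_eq_lintegral_ofReal hi2 (ae_of_all _ fun θ => by positivity)
  rw [h1] at e1
  rw [e1] at e2
  simp only [← ENNReal.ofReal_rpow_of_nonneg (norm_nonneg _) hp, ofReal_norm] at e2
  exact e2

/-- `Λ(p)` inequality for the differences of the ball sums on a circle -/
theorem six (h3 : T_SCM) (h4 : T_SGC) (h5 : T_POLN) {f : E 2 → ℂ} (hf : Nice f) {Λ : Set ℤ}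
    {p : ℝ} (hp : 0 ≤ p) {B : ℝ≥0} (hL : LP p Λ B) (hA : AF Λ f) (r R R' : ℝ) :
    (∫⁻ θ, ‖S f R (r • (θ : E 2)) - S f R' (r • (θ : E 2))‖ₑ ^ p ∂(sg 2)) ^ (1 / p) ≤
      B * (∫⁻ θ, ‖S f R (r • (θ : E 2)) - S f R' (r • (θ : E 2))‖ₑ ^ 2 ∂(sg 2)) ^
        (1 / 2 : ℝ) := by
  have hF : Continuous fun x : E 2 => S f R (r • x) - S f R' (r • x) :=
    ((SCM_.S_cont hf R).comp (continuous_const_smul r)).sub
      ((SCM_.S_cont hf R').comp (continuous_const_smul r))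
  rw [conv h4 h5 (fun x => S f R (r • x) - S f R' (r • x)) hF hp,
    LAM_.conv h4 h5 (fun x => S f R (r • x) - S f R' (r • x)) hF 2]
  refine hL (fun θ => S f R (r • ev θ) - S f R' (r • ev θ)) (hF.comp ev_cont)
    (fun θ => by simp only [ev_per]) fun m hm => ?_
  have hc : ∀ R : ℝ, Continuous fun θ : ℝ => S f R (r • ev θ) * ci (-(m * θ)) := fun R =>
    ((SCM_.S_cont hf R).comp (ev_cont.const_smul r)).mul
      (Pool.Agent.CRL.MODA_.cont_ci.comp (by fun_prop))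
  have e : ∀ θ : ℝ, (S f R (r • ev θ) - S f R' (r • ev θ)) * ci (-(m * θ)) =
      S f R (r • ev θ) * ci (-(m * θ)) - S f R' (r • ev θ) * ci (-(m * θ)) := fun θ => by ring
  simp only [e]
  rw [intervalIntegral.integral_sub ((hc R).intervalIntegrable _ _)
    ((hc R').intervalIntegrable _ _), coef_zero h3 hf hA hm, coef_zero h3 hf hA hm, sub_zero]

theorem VS_ge {q : ℝ} (hq : 2 < q) (f : E 2 → ℂ) (r : ℝ) (L : ℕ) (N : ℕ → ℝ)
    (hN : Monotone N) :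
    ∑ j ∈ Finset.range L, (∫⁻ θ, ‖S f (N (j + 1)) (r • (θ : E 2)) -
      S f (N j) (r • (θ : E 2))‖ₑ ^ 2 ∂(sg 2)) ^ (q / 2) ≤ VS q f r ^ q := by
  have h1 : (∑ j ∈ Finset.range L, (∫⁻ θ, ‖S f (N (j + 1)) (r • (θ : E 2)) -
      S f (N j) (r • (θ : E 2))‖ₑ ^ 2 ∂(sg 2)) ^ (q / 2)) ^ (1 / q) ≤ VS q f r := by
    unfold VS
    exact le_iSup_of_le L (le_iSup_of_le N (le_iSup_of_le hN le_rfl))
  have h2 := ENNReal.rpow_le_rpow h1 (by linarith : 0 ≤ q)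
  rwa [← ENNReal.rpow_mul, one_div_mul_cancel (by linarith : q ≠ 0), ENNReal.rpow_one] at h2

/-- the body of `T_LCP` -/
def LCB (C : ℝ≥0) : Prop := ∀ (Ω : Type) [MeasurableSpace Ω] (μ : Measure Ω) (M : ℕ)
  (X : ℕ → Ω → ℂ) (B V : ℝ≥0∞) (p q : ℝ), 2 < q → q < p → p ≤ 4 → (∀ j, Measurable (X j)) →
  (∀ ω, X 0 ω = 0) → B ≠ ⊤ → V ≠ ⊤ →
  (∀ j k, j ≤ M → k ≤ M → (∫⁻ ω, ‖X j ω - X k ω‖ₑ ^ p ∂μ) ^ (1 / p) ≤
    B * (∫⁻ ω, ‖X j ω - X k ω‖ₑ ^ 2 ∂μ) ^ (1 / 2 : ℝ)) →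
  (∀ (l : ℕ) (t : ℕ → ℕ), Monotone t → (∀ r, t r ≤ M) →
    ∑ r ∈ Finset.range l, (∫⁻ ω, ‖X (t (r + 1)) ω - X (t r) ω‖ₑ ^ 2 ∂μ) ^ (q / 2) ≤ V ^ q) →
    (∫⁻ ω, (⨆ (j : ℕ) (_ : j ≤ M), ‖X j ω‖ₑ) ^ p ∂μ) ^ (1 / p) ≤
      C * ENNReal.ofReal (1 / (p - q)) * B * V

/-- one grid -/
theorem grid (h3 : T_SCM) (h4 : T_SGC) (h5 : T_POLN) {C : ℝ≥0} (hC : LCB C)
    {f : E 2 → ℂ} (hf : Nice f) {Λ : Set ℤ} {p q : ℝ} (hq : 2 < q) (hqp : q < p) (hp : p ≤ 4)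
    {B : ℝ≥0} (hL : LP p Λ B) (hA : AF Λ f) (r : ℝ) (hV : VS q f r ≠ ⊤) (n : ℕ) :
    ∫⁻ θ, gd f n (r • (θ : E 2)) ^ p ∂(sg 2) ≤
      (C * ENNReal.ofReal (1 / (p - q)) * B * VS q f r) ^ p := by
  have hp0 : 0 < p := by linarith
  have h := hC (Metric.sphere (0 : E 2) 1) (sg 2) (4 ^ n)
    (fun j θ => S f ((j : ℝ) / 2 ^ n) (r • (θ : E 2))) B (VS q f r) p q hq hqp hp
    (fun j => ((SCM_.S_cont hf _).comp
      (continuous_subtype_val.const_smul r)).measurable)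
    (fun θ => OSM_.S_nonpos f (by simp) _) ENNReal.coe_ne_top hV
    (fun j k _ _ => six h3 h4 h5 hf hp0.le hL hA r _ _)
    (fun l t ht _ => VS_ge hq f r l (fun i => ((t i : ℕ) : ℝ) / 2 ^ n) fun i j hij => by
      have := ht hij
      have h2 : ((t i : ℕ) : ℝ) ≤ ((t j : ℕ) : ℝ) := by exact_mod_cast this
      exact div_le_div_of_nonneg_right h2 (by positivity))
  have h2 := ENNReal.rpow_le_rpow h hp0.le
  rw [← ENNReal.rpow_mul, one_div_mul_cancel hp0.ne', ENNReal.rpow_one] at h2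
  exact h2

theorem hold (μ : Measure (Metric.sphere (0 : E 2) 1)) (g : Metric.sphere (0 : E 2) 1 → ℝ≥0∞)
    (hg : Measurable g) {p : ℝ} (hp : 2 < p) :
    ∫⁻ θ, g θ ^ 2 ∂μ ≤ (∫⁻ θ, g θ ^ p ∂μ) ^ (2 / p) * (μ univ) ^ (1 - 2 / p) := by
  have hp0 : 0 < p := by linarith
  have hpq : (p / 2).HolderConjugate (p / 2).conjExponent :=
    Real.HolderConjugate.conjExponent (by linarith)
  have h := ENNReal.lintegral_mul_le_Lp_mul_Lq μ hpq (f := fun θ => g θ ^ 2) (g := fun _ => 1)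
    (hg.pow_const 2).aemeasurable aemeasurable_const
  simp only [Pi.mul_apply, mul_one, ENNReal.one_rpow, lintegral_const, one_mul] at h
  have e1 : ∀ θ, (g θ ^ 2) ^ (p / 2) = g θ ^ p := by
    intro θ
    rw [← ENNReal.rpow_natCast, ← ENNReal.rpow_mul]
    congr 1
    push_cast
    ring
  simp only [e1] at h
  have e2 : 1 / (p / 2) = 2 / p := one_div_div _ _
  have e3 : 1 / (p / 2).conjExponent = 1 - 2 / p := by
    have := hpq.inv_add_inv_eq_one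
    rw [one_div, ← this, inv_div]
    ring
  rw [e2, e3] at h
  exact h

/-- the circle of radius `r` -/
theorem circ (h3 : T_SCM) (h4 : T_SGC) (h5 : T_POLN) {C : ℝ≥0} (hC : LCB C)
    {f : E 2 → ℂ} (hf : Nice f) {Λ : Set ℤ} {p q : ℝ} (hq : 2 < q) (hqp : q < p) (hp : p ≤ 4)
    {B : ℝ≥0} (hL : LP p Λ B) (hA : AF Λ f) (hpq : p - q ≤ 1) (r : ℝ) :
    ∫⁻ θ, Sstar f (r • (θ : E 2)) ^ 2 ∂(sg 2) ≤
      (1 + sg 2 univ) * (ENNReal.ofReal ((1 / (p - q)) ^ 2) * ((1 + C ^ 2) * (1 + B ^ 2))) *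
        VS q f r ^ 2 := by
  have hp0 : 0 < p := by linarith
  have hp2 : 2 < p := by linarith
  have hpq0 : 0 < p - q := by linarith
  have hK1 : (1 : ℝ≥0∞) ≤ ENNReal.ofReal ((1 / (p - q)) ^ 2) := by
    rw [ENNReal.one_le_ofReal]
    have : 1 ≤ 1 / (p - q) := by
      rw [le_div_iff₀ hpq0]
      linarith
    exact one_le_pow₀ this
  by_cases hV : VS q f r = ⊤
  · rw [hV]
    refine le_trans le_top (le_of_eq ?_)
    rw [ENNReal.top_pow (by norm_num), ENNReal.mul_top]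
    have h1 : (1 : ℝ≥0∞) ≤ (1 + sg 2 univ) * (ENNReal.ofReal ((1 / (p - q)) ^ 2) *
        ((1 + C ^ 2) * (1 + B ^ 2))) := by
      have a1 : (1 : ℝ≥0∞) ≤ 1 + sg 2 univ := le_self_add
      have a2 : (1 : ℝ≥0∞) ≤ 1 + C ^ 2 := le_self_add
      have a3 : (1 : ℝ≥0∞) ≤ 1 + B ^ 2 := le_self_add
      exact one_le_mul a1 (one_le_mul hK1 (one_le_mul a2 a3))
    exact (zero_lt_one.trans_le h1).ne'
  · have hm : Measurable fun θ : Metric.sphere (0 : E 2) 1 => r • (θ : E 2) :=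
      (continuous_subtype_val.const_smul r).measurable
    have h6 : ∫⁻ θ, Sstar f (r • (θ : E 2)) ^ p ∂(sg 2) ≤
        (C * ENNReal.ofReal (1 / (p - q)) * B * VS q f r) ^ p := by
      have e : ∀ θ : Metric.sphere (0 : E 2) 1, Sstar f (r • (θ : E 2)) ^ p =
          ⨆ n, gd f n (r • (θ : E 2)) ^ p := by
        intro θ
        rw [Sstar_eq hf]
        exact (ENNReal.orderIsoRpow p hp0).map_iSup fun n => gd f n (r • (θ : E 2))
      simp only [e]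
      rw [lintegral_iSup (f := fun n (θ : Metric.sphere (0 : E 2) 1) =>
          gd f n (r • (θ : E 2)) ^ p) (fun n => ((gd_meas hf n).comp hm).pow_const p)
        (fun a b hab θ => ENNReal.rpow_le_rpow (gd_mono f _ hab) hp0.le)]
      exact iSup_le fun n => grid h3 h4 h5 hC hf hq hqp hp hL hA r hV n
    refine (hold (sg 2) (fun θ => Sstar f (r • (θ : E 2))) ((Sstar_meas hf).comp hm)
      hp2).trans ?_
    have h7 : (∫⁻ θ, Sstar f (r • (θ : E 2)) ^ p ∂(sg 2)) ^ (2 / p) ≤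
        (ENNReal.ofReal ((1 / (p - q)) ^ 2) * ((1 + C ^ 2) * (1 + B ^ 2))) *
          VS q f r ^ 2 := by
      refine (ENNReal.rpow_le_rpow h6 (by positivity)).trans ?_
      rw [← ENNReal.rpow_mul, mul_div_cancel₀ _ hp0.ne']
      have e4 : ∀ x : ℝ≥0∞, x ^ (2 : ℝ) = x ^ 2 := fun x => by
        rw [← ENNReal.rpow_natCast]
        norm_num
      rw [e4, ENNReal.ofReal_pow (by positivity)]
      have a2 : (C : ℝ≥0∞) ^ 2 ≤ 1 + C ^ 2 := le_add_self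
      have a3 : (B : ℝ≥0∞) ^ 2 ≤ 1 + B ^ 2 := le_add_self
      calc (C * ENNReal.ofReal (1 / (p - q)) * B * VS q f r) ^ 2
          = ENNReal.ofReal (1 / (p - q)) ^ 2 * ((C : ℝ≥0∞) ^ 2 * (B : ℝ≥0∞) ^ 2) *
            VS q f r ^ 2 := by ring
        _ ≤ _ := by gcongr
    have h8 : (sg 2 univ) ^ (1 - 2 / p) ≤ 1 + sg 2 univ := by
      have h9 : 2 / p ≤ 1 := by
        rw [div_le_one hp0]
        linarith
      have h10 : 0 < 2 / p := by positivity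
      exact rpow_le _ (by linarith) (by linarith)
    calc _ ≤ (ENNReal.ofReal ((1 / (p - q)) ^ 2) * ((1 + C ^ 2) * (1 + B ^ 2))) *
          VS q f r ^ 2 * (1 + sg 2 univ) := mul_le_mul' h7 h8
      _ = _ := by ring

/-- the powers of `p - 2` -/
theorem cst {p : ℝ} (hp : 2 < p) (hp4 : p ≤ 4) :
    ENNReal.ofReal ((1 / (p - (p + 2) / 2)) ^ 2) * ENNReal.ofReal (kr ((p + 2) / 2) ^ 14) ≤
      ((4 * 6 ^ 14 : ℝ≥0) : ℝ≥0∞) * ENNReal.ofReal ((1 / (p - 2)) ^ 16) := by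
  have h0 : 0 < p - 2 := by linarith
  have e1 : 1 / (p - (p + 2) / 2) = 2 * (1 / (p - 2)) := by
    have e0 : p - (p + 2) / 2 = (p - 2) / 2 := by ring
    rw [e0, one_div_div]
    ring
  have e2 : kr ((p + 2) / 2) ≤ 6 * (1 / (p - 2)) := by
    unfold kr
    rw [mul_one_div, div_le_div_iff₀ (by linarith) h0]
    nlinarith
  have e3 : 0 ≤ kr ((p + 2) / 2) := by
    unfold kr
    exact div_nonneg (by linarith) (by linarith)
  have e4 : ((4 * 6 ^ 14 : ℝ≥0) : ℝ≥0∞) = ENNReal.ofReal (4 * 6 ^ 14) := by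
    rw [ENNReal.ofReal]
    congr 1
    ext
    push_cast
    rw [Real.coe_toNNReal _ (by positivity)]
  rw [e1, e4, ← ENNReal.ofReal_mul (by positivity), ← ENNReal.ofReal_mul (by positivity)]
  refine ENNReal.ofReal_le_ofReal ?_
  calc (2 * (1 / (p - 2))) ^ 2 * kr ((p + 2) / 2) ^ 14
      ≤ (2 * (1 / (p - 2))) ^ 2 * (6 * (1 / (p - 2))) ^ 14 :=
        mul_le_mul_of_nonneg_left (pow_le_pow_left₀ e3 e2 14) (by positivity)
    _ = _ := by ring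

end LPM_

open LPM_ in
/-- **LPM** -/
theorem p_LPM (h1 : T_LCP) (h2 : Pool.Agent.VRR.T_RAV) (h3 : T_SCM) (h4 : T_SGC)
    (h5 : T_POLN) : T_LPM := by
  obtain ⟨C, hC⟩ := h1
  obtain ⟨D, hD⟩ := h2 2 le_rfl
  obtain ⟨hpol, -, hfin⟩ := h5 2 (by norm_num)
  have hs : sg 2 univ ≠ ⊤ := measure_ne_top _ _
  refine ⟨(1 + (sg 2 univ).toNNReal) * (1 + C ^ 2) * D * (4 * 6 ^ 14),
    fun p Λ B f hp2 hp4 hL hf hA => ?_⟩
  set q : ℝ := (p + 2) / 2 with hq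
  have hq2 : 2 < q := by rw [hq]; linarith
  have hqp : q < p := by rw [hq]; linarith
  have hpq : p - q ≤ 1 := by rw [hq]; linarith
  set K : ℝ≥0∞ := (1 + sg 2 univ) * (ENNReal.ofReal ((1 / (p - q)) ^ 2) *
    ((1 + (C : ℝ≥0∞) ^ 2) * (1 + (B : ℝ≥0∞) ^ 2))) with hKd
  have hK : K ≠ ⊤ :=
    ENNReal.mul_ne_top (ENNReal.add_ne_top.2 ⟨ENNReal.one_ne_top, hs⟩)
      (ENNReal.mul_ne_top ENNReal.ofReal_ne_top (ENNReal.mul_ne_top (by simp) (by simp)))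
  rw [hpol (fun x => Sstar f x ^ 2) ((Sstar_meas hf).pow_const 2)]
  calc ∫⁻ r in Ioi (0 : ℝ), ∫⁻ ω, ENNReal.ofReal (r ^ (2 - 1)) *
        Sstar f (r • (ω : E 2)) ^ 2 ∂(sg 2)
      ≤ ∫⁻ r in Ioi (0 : ℝ), K * (VS q f r ^ 2 * ENNReal.ofReal (r ^ (2 - 1))) := by
        refine lintegral_mono fun r => ?_
        change ∫⁻ ω, ENNReal.ofReal (r ^ (2 - 1)) * Sstar f (r • (ω : E 2)) ^ 2 ∂(sg 2) ≤
          K * (VS q f r ^ 2 * ENNReal.ofReal (r ^ (2 - 1)))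
        rw [lintegral_const_mul' _ _ ENNReal.ofReal_ne_top]
        calc _ ≤ ENNReal.ofReal (r ^ (2 - 1)) * (K * VS q f r ^ 2) :=
              mul_le_mul_right (circ h3 h4 h5 hC hf hq2 hqp hp4 hL hA hpq r) _
          _ = _ := by ring
    _ = K * ∫⁻ r in Ioi (0 : ℝ), VS q f r ^ 2 * ENNReal.ofReal (r ^ (2 - 1)) :=
        lintegral_const_mul' _ _ hK
    _ ≤ K * (D * ENNReal.ofReal (kr q ^ 14) * ∫⁻ x, ‖f x‖ₑ ^ 2) :=
        mul_le_mul_right (hD q hq2 (by linarith) f hf) _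
    _ = (1 + sg 2 univ) * ((1 + (C : ℝ≥0∞) ^ 2) * (1 + (B : ℝ≥0∞) ^ 2)) * D *
        (ENNReal.ofReal ((1 / (p - q)) ^ 2) * ENNReal.ofReal (kr q ^ 14)) *
          ∫⁻ x, ‖f x‖ₑ ^ 2 := by
        rw [hKd]
        ring
    _ ≤ (1 + sg 2 univ) * ((1 + (C : ℝ≥0∞) ^ 2) * (1 + (B : ℝ≥0∞) ^ 2)) * D *
        (((4 * 6 ^ 14 : ℝ≥0) : ℝ≥0∞) * ENNReal.ofReal ((1 / (p - 2)) ^ 16)) *
          ∫⁻ x, ‖f x‖ₑ ^ 2 := by
        exact mul_le_mul_left (mul_le_mul_right (cst hp2 hp4) _) _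
    _ = _ := by
        push_cast
        rw [ENNReal.coe_toNNReal hs]
        ring

end Pool.Agent.CRW
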