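import Pool.Agent.CRW.Targets7
import Pool.Agent.CRN.P_SERN

set_option autoImplicit false

/-!
# CRW-MWS: series of functions with angular frequencies in windows

The proof of `CRN/P_SERW.lean`, with windows in place of bounded angular degree.
-/

namespace Pool.Agent.CRW

open MeasureTheory FourierTransform Set Filter Topology
open scoped ENNReal NNReal ComplexConjugate
open Pool.Agent.MBS (E ex S Sstar)
open Pool.Agent.CRN (ci Nice T_CARLS T_SERN AD rt)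
open Pool.Agent.CRL (ev)
open Pool.Agent.CRR (T_HANK)

namespace MWS_

open Pool.Agent.CRN.SERN_ (N2 N2_sq N2_mono N2_tsum Sstar_le_tsum Sstar_meas conv_of nice_sub
  nice_sum conv_sum rt_apply)

/-! ### from windows to bounded angular degree -/

/-- the angle -/
noncomputable def ang (x : E 2) : ℝ := Complex.arg ((x 0 : ℂ) + (x 1 : ℂ) * Complex.I)

theorem eq_ev (x : E 2) : x = ‖x‖ • ev (ang x) := by
  obtain ⟨z, hz⟩ : ∃ z : ℂ, z = (x 0 : ℂ) + (x 1 : ℂ) * Complex.I := ⟨_, rfl⟩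
  have hn : ‖z‖ = ‖x‖ := by
    rw [hz, Complex.norm_add_mul_I, EuclideanSpace.norm_eq, Fin.sum_univ_two]
    simp
  have ha : ang x = z.arg := by
    rw [hz]
    rfl
  have h0 := Complex.norm_mul_cos_arg z
  have h1 := Complex.norm_mul_sin_arg z
  rw [← hn, ha]
  ext i
  fin_cases i
  · simp only [ev, PiLp.smul_apply, smul_eq_mul]
    simp
    rw [hz]
    simp
  · simp only [ev, PiLp.smul_apply, smul_eq_mul]
    simp
    rw [hz]
    simp

theorem ci_add (a b : ℝ) : ci (a + b) = ci a * ci b := by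
  unfold ci
  rw [← Complex.exp_add]
  congr 1
  push_cast
  ring

theorem rt01 (r φ α : ℝ) : rt (0 : Fin 2) 1 φ (r • ev α) = r • ev (α + φ) := by
  unfold ev
  ext i
  rw [rt_apply]
  fin_cases i <;> simp [Real.cos_add, Real.sin_add] <;> ring

theorem rt10 (r φ α : ℝ) : rt (1 : Fin 2) 0 φ (r • ev α) = r • ev (α - φ) := by
  unfold ev
  ext i
  rw [rt_apply]
  fin_cases i <;> simp [Real.cos_sub, Real.sin_sub] <;> ring

theorem rt_zero (i j : Fin 2) (φ : ℝ) : rt i j φ (0 : E 2) = 0 := by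
  ext k
  rw [rt_apply]
  simp

/-- a sum of exponentials with frequencies in `[-M, M]` -/
theorem resum (K M : ℕ) (a : ℕ → ℂ) (u : ℕ → ℤ) (hu : ∀ k < K, |u k| ≤ M) :
    ∃ c : ℤ → ℂ, ∀ φ : ℝ, ∑ k ∈ Finset.range K, a k * ci ((u k : ℝ) * φ) =
      ∑ m ∈ Finset.Icc (-(M : ℤ)) M, c m * ci (m * φ) := by
  refine ⟨fun m => ∑ k ∈ Finset.range K, if u k = m then a k else 0, fun φ => ?_⟩
  simp_rw [Finset.sum_mul]
  rw [Finset.sum_comm]
  refine Finset.sum_congr rfl fun k hk => ?_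
  have hk' := abs_le.1 (hu k (Finset.mem_range.1 hk))
  rw [Finset.sum_eq_single (u k)]
  · rw [if_pos rfl]
  · intro m _ hm
    rw [if_neg (fun h => hm h.symm), zero_mul]
  · intro h
    exact absurd (Finset.mem_Icc.2 hk') h

theorem win_AD {K : ℕ} {w : ℤ} {g : E 2 → ℂ} (h : Win K w g) : AD (w.natAbs + K) g := by
  obtain ⟨c, hc⟩ := h
  intro i j hij y
  by_cases hy : y = 0
  · subst hy
    refine ⟨fun k => if k = 0 then g 0 else 0, fun φ => ?_⟩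
    rw [rt_zero, Finset.sum_eq_single (0 : ℤ)]
    · simp [ci]
    · intro m _ hm
      simp [hm]
    · intro h0
      exact absurd (Finset.mem_Icc.2 ⟨by omega, by omega⟩) h0
  have hr : 0 < ‖y‖ := norm_pos_iff.2 hy
  have hb : ∀ k < K, |w + (k : ℤ)| ≤ ((w.natAbs + K : ℕ) : ℤ) := by
    intro k hk
    rw [abs_le]
    constructor <;> omega
  have h01 : (i = 0 ∧ j = 1) ∨ (i = 1 ∧ j = 0) := by
    fin_cases i <;> fin_cases j <;> simp_all
  rcases h01 with ⟨rfl, rfl⟩ | ⟨rfl, rfl⟩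
  · obtain ⟨d, hd⟩ := resum K (w.natAbs + K)
      (fun k => c k ‖y‖ * ci (((w : ℝ) + k) * ang y)) (fun k => w + k) hb
    refine ⟨d, fun φ => ?_⟩
    rw [← hd φ, eq_ev y, rt01, ← eq_ev y, hc _ _ hr]
    refine Finset.sum_congr rfl fun k _ => ?_
    rw [mul_add, ci_add]
    push_cast
    ring
  · obtain ⟨d, hd⟩ := resum K (w.natAbs + K)
      (fun k => c k ‖y‖ * ci (((w : ℝ) + k) * ang y)) (fun k => -(w + k))
      (fun k hk => by rw [abs_neg]; exact hb k hk)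
    refine ⟨d, fun φ => ?_⟩
    rw [← hd φ, eq_ev y, rt10, ← eq_ev y, hc _ _ hr]
    refine Finset.sum_congr rfl fun k _ => ?_
    rw [show ((w : ℝ) + k) * (ang y - φ) = ((w : ℝ) + k) * ang y +
      (((-(w + (k : ℤ)) : ℤ) : ℝ)) * φ by push_cast; ring, ci_add]
    ring

/-- a.e. convergence for one function with angular frequencies in a window -/
theorem conv_win (h2 : T_SERN) (hC : T_CARLS) {K : ℕ} {w : ℤ} {g : E 2 → ℂ} (hK : 1 ≤ K)
    (hg : Nice g) (hw : Win K w g) :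
    ∀ᵐ x, Tendsto (fun R : ℝ => S g R x) atTop (𝓝 (g x)) := by
  obtain ⟨C, hS⟩ := h2 hC 2 le_rfl
  have hz : Nice (fun _ : E 2 => (0 : ℂ)) :=
    ⟨measurable_const, integrable_zero _ _ _, MemLp.zero⟩
  have h := hS g (fun j => if j = 0 then g else fun _ => 0) (fun _ => w.natAbs + K) hg
    (fun j => by
      by_cases hj : j = 0
      · simpa [hj] using hg
      · simpa [hj] using hz) (fun _ => by omega)
    (fun j => by
      by_cases hj : j = 0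
      · simpa [hj] using win_AD hw
      · simp only [hj, if_false]
        exact fun i k _ y => ⟨fun _ => 0, fun φ => by simp⟩) ?_
  · refine h.2 ?_
    rw [tsum_eq_single 0]
    · simp only [if_true]
      refine ENNReal.mul_ne_top ENNReal.ofReal_ne_top ?_
      refine ENNReal.rpow_ne_top_of_nonneg (by norm_num) ?_
      have h3 := hg.sq
      rw [Pool.Agent.CRN.SERN_.lint_eLp]
      exact ENNReal.pow_ne_top h3.2.ne
    · intro j hj
      simp [hj]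
  · refine tendsto_const_nhds.congr' ?_
    filter_upwards [eventually_ge_atTop 1] with J hJ
    symm
    have h4 : ∀ x : E 2, g x - ∑ j ∈ Finset.range J,
        (if j = 0 then g else fun _ : E 2 => (0 : ℂ)) x = 0 := by
      intro x
      rw [Finset.sum_eq_single 0]
      · simp
      · intro j _ hj
        simp [hj]
      · intro h0
        exact absurd (Finset.mem_range.2 hJ) h0
    simp [h4]

/-! ### the inequality -/

theorem LL_one (K : ℕ) : 1 ≤ LL K := by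
  unfold LL
  have h1 : 0 ≤ Real.log (K : ℝ) := Real.log_natCast_nonneg K
  rw [Real.le_log_iff_exp_le (by linarith)]
  linarith [Real.exp_one_lt_d9]

/-- the global inequality, as a statement about norms -/
theorem GL2 {C : ℝ≥0} {w : ℝ} (hl : 0 ≤ w) {f : E 2 → ℂ}
    (h : ∫⁻ x, Sstar f x ^ 2 ≤ C * ENNReal.ofReal (w ^ 2) * ∫⁻ x, ‖f x‖ₑ ^ 2) :
    N2 (Sstar f) ≤ (NNReal.sqrt C : ℝ≥0∞) * (ENNReal.ofReal w *
      (∫⁻ x, ‖f x‖ₑ ^ 2) ^ (1 / 2 : ℝ)) := by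
  have h1 : (NNReal.sqrt C : ℝ≥0∞) ^ 2 = C := by
    rw [← ENNReal.coe_pow, NNReal.sq_sqrt]
  have h2 : ((∫⁻ x, ‖f x‖ₑ ^ 2) ^ (1 / 2 : ℝ)) ^ 2 = ∫⁻ x, ‖f x‖ₑ ^ 2 :=
    N2_sq (fun x => ‖f x‖ₑ)
  have h3 : N2 (Sstar f) ^ 2 ≤ ((NNReal.sqrt C : ℝ≥0∞) * (ENNReal.ofReal w *
      (∫⁻ x, ‖f x‖ₑ ^ 2) ^ (1 / 2 : ℝ))) ^ 2 := by
    rw [N2_sq, mul_pow, mul_pow, h1, h2, ← ENNReal.ofReal_pow hl, ← mul_assoc]
    exact h
  exact (ENNReal.pow_right_strictMono two_ne_zero).le_iff_le.1 h3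

/-- the inequality of MWC, for `Win` -/
def GW (C : ℝ≥0) : Prop := ∀ (K : ℕ) (w : ℤ) (f : E 2 → ℂ), 1 ≤ K → Nice f → Win K w f →
  ∫⁻ x, Sstar f x ^ 2 ≤ C * ENNReal.ofReal ((LL K ^ 6) ^ 2) * ∫⁻ x, ‖f x‖ₑ ^ 2

theorem tail_ineq {C : ℝ≥0} (hG : GW C) {f : E 2 → ℂ} {g : ℕ → E 2 → ℂ} {K : ℕ → ℕ}
    {w : ℕ → ℤ} (hf : Nice f) (hg : ∀ j, Nice (g j)) (hK : ∀ j, 1 ≤ K j)
    (hA : ∀ j, Win (K j) (w j) (g j))
    (hc : Tendsto (fun J => ∫⁻ x, ‖f x - ∑ j ∈ Finset.range J, g j x‖ₑ ^ 2) atTop (𝓝 0)) :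
    N2 (Sstar f) ≤ (NNReal.sqrt C : ℝ≥0∞) * ∑' j : ℕ, ENNReal.ofReal (LL (K j) ^ 6) *
      (∫⁻ x, ‖g j x‖ₑ ^ 2) ^ (1 / 2 : ℝ) := by
  calc N2 (Sstar f) ≤ N2 (fun x => ∑' j, Sstar (g j) x) := N2_mono (Sstar_le_tsum hf hg hc)
    _ ≤ ∑' j, N2 (Sstar (g j)) := N2_tsum fun j => Sstar_meas (hg j).int
    _ ≤ ∑' j, (NNReal.sqrt C : ℝ≥0∞) * (ENNReal.ofReal (LL (K j) ^ 6) *
        (∫⁻ x, ‖g j x‖ₑ ^ 2) ^ (1 / 2 : ℝ)) :=
        ENNReal.tsum_le_tsum fun j => GL2 (pow_nonneg (zero_le_one.trans (LL_one _)) _)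
          (hG (K j) (w j) (g j) (hK j) (hg j) (hA j))
    _ = _ := ENNReal.tsum_mul_left

theorem ae_conv {C : ℝ≥0} (hG : GW C)
    (h1 : ∀ (K : ℕ) (w : ℤ) (g : E 2 → ℂ), 1 ≤ K → Nice g → Win K w g →
      ∀ᵐ x, Tendsto (fun R : ℝ => S g R x) atTop (𝓝 (g x)))
    {f : E 2 → ℂ} {g : ℕ → E 2 → ℂ} {K : ℕ → ℕ}
    {w : ℕ → ℤ} (hf : Nice f) (hg : ∀ j, Nice (g j)) (hK : ∀ j, 1 ≤ K j)
    (hA : ∀ j, Win (K j) (w j) (g j))
    (hc : Tendsto (fun J => ∫⁻ x, ‖f x - ∑ j ∈ Finset.range J, g j x‖ₑ ^ 2) atTop (𝓝 0))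
    (hfin : (∑' j : ℕ, ENNReal.ofReal (LL (K j) ^ 6) *
      (∫⁻ x, ‖g j x‖ₑ ^ 2) ^ (1 / 2 : ℝ)) ≠ ⊤) :
    ∀ᵐ x, Tendsto (fun R : ℝ => S f R x) atTop (𝓝 (f x)) := by
  refine conv_of fun e he => ?_
  set a : ℕ → ℝ≥0∞ := fun j => ENNReal.ofReal (LL (K j) ^ 6) *
    (∫⁻ x, ‖g j x‖ₑ ^ 2) ^ (1 / 2 : ℝ) with ha
  have hshift : ∀ J : ℕ, Tendsto (fun I => ∫⁻ x, ‖(f x - ∑ j ∈ Finset.range J, g j x) -
      ∑ j ∈ Finset.range I, g (j + J) x‖ₑ ^ 2) atTop (𝓝 0) := by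
    intro J
    have h2 := (tendsto_add_atTop_iff_nat J).2 hc
    refine h2.congr fun I => ?_
    refine lintegral_congr fun x => ?_
    congr 2
    rw [add_comm I J, Finset.sum_range_add, sub_sub]
    congr 2
    exact Finset.sum_congr rfl fun j _ => by rw [add_comm]
  have htail : ∀ J : ℕ, ∫⁻ x, Sstar (fun y => f y - ∑ j ∈ Finset.range J, g j y) x ^ 2 ≤
      ((NNReal.sqrt C : ℝ≥0∞) * ∑' j : ℕ, a (j + J)) ^ 2 := by
    intro J
    rw [← N2_sq]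
    exact pow_le_pow_left' (tail_ineq hG (nice_sub hf (nice_sum hg J))
      (fun j => hg (j + J)) (fun j => hK (j + J)) (fun j => hA (j + J)) (hshift J)) 2
  have hlim : Tendsto (fun J => ((NNReal.sqrt C : ℝ≥0∞) * ∑' j : ℕ, a (j + J)) ^ 2) atTop
      (𝓝 0) := by
    have h3 := ENNReal.tendsto_sum_nat_add a hfin
    have h4 := ENNReal.Tendsto.const_mul (a := (NNReal.sqrt C : ℝ≥0∞)) h3
      (Or.inr ENNReal.coe_ne_top)
    rw [mul_zero] at h4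
    have h5 := ((ENNReal.continuous_pow 2).tendsto 0).comp h4
    simpa [Function.comp_def] using h5
  have he' : 0 < ENNReal.ofReal e := ENNReal.ofReal_pos.2 he
  obtain ⟨J, hJ1, hJ2⟩ := (((tendsto_order.1 hlim).2 _ he').and
    ((tendsto_order.1 hc).2 _ he')).exists
  exact ⟨fun y => f y - ∑ j ∈ Finset.range J, g j y, fun y => ∑ j ∈ Finset.range J, g j y,
    nice_sub hf (nice_sum hg J), nice_sum hg J, fun x => by ring, (htail J).trans hJ1.le,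
    hJ2.le, conv_sum hg (fun j => h1 (K j) (w j) (g j) (hK j) (hg j) (hA j)) J⟩

end MWS_

theorem p_MWS (h1 : T_MWC) (h2 : Pool.Agent.CRN.T_SERN) : T_MWS := by
  intro hD hH hC
  obtain ⟨C, hW⟩ := h1 hD hH hC
  have hG : MWS_.GW C := by
    intro K w f hK hf hw
    obtain ⟨c, hc⟩ := hw
    rw [← pow_mul]
    exact hW K w f c hK hf hc
  refine ⟨NNReal.sqrt C, ?_⟩
  intro f g K w hf hg hK hA hc
  exact ⟨MWS_.tail_ineq hG hf hg hK hA hc, fun hfin => MWS_.ae_conv hG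
    (fun _ _ _ hK' hg' hw' => MWS_.conv_win h2 hC hK' hg' hw') hf hg hK hA hc hfin⟩

end Pool.Agent.CRW
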