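import Pool.Agent.CRW.Defs

set_option autoImplicit false

/-!
# CRW: disc partial sums in the plane, `R(x)` constant on `N` arcs of every circle: targets, part 1

Every target `T_X` is to be proved as `theorem p_X : T_X` (targets named in brackets, and the landed theorems of
`Pool/Agent/CRR`, `CRN`, `CRL`, may be used; other CRW targets are taken as hypotheses of `p_X`) in a NEW file
`Pool/Agent/CRW/P_X.lean` importing this one, namespace `Pool.Agent.CRW`, helper lemmas in the sub-namespace `X_`.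
Landed: `p_SEQ`, `p_WKB` (uses its hypotheses, see `CRR/All.lean` for the hypothesis free forms `q_...`), `CRL.p_ABL`.
-/

namespace Pool.Agent.CRW

open MeasureTheory FourierTransform Set Filter Topology
open scoped ENNReal NNReal ComplexConjugate
open Pool.Agent.MBS (E ex S Sstar)
open Pool.Agent.CAR (e1)
open Pool.Agent.CRN (ci SH S1 Nice T_CARLS)
open Pool.Agent.CRR (PP Sol xc E2 NSol kap aa de la si ww band fh StripD FS FA HH T_SEQ T_VCR T_DEC T_HANK)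

/-! ### A. The maximal theorem for a general kernel (copies of CRR files with `kap J` replaced by `κ`) -/

/-- **SDG** (20 min; uses SEQ, VCR, DEC): copy of `CRR/P_SD.lean` (there PHS gives `StripD`; now it is `KK.st`). -/
def T_SDG : Prop := T_CARLS → ∀ A : ℝ, 1 ≤ A → ∃ C : ℝ≥0, ∀ (ν : ℝ) (κ : ℝ → ℂ) (k j : ℕ)
  (H : ℝ → ℂ), 0 ≤ ν → KK A ν κ → HH H → (∀ s, H s ≠ 0 → s ∈ band ν j) →
    ∫⁻ u, (⨆ (V1 : ℝ) (V2 : ℝ), ‖FS κ (aa ν k) (de ν k) (fh H) u V1 V2‖ₑ) ^ 2 ≤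
      C * ENNReal.ofReal ((9 / 10) ^ (k - j + (j - k))) * ∫⁻ s, ‖H s‖ₑ ^ 2

/-- **MLG** (20 min; uses SEQ, SDG): copy of `CRR/P_MUL.lean` (`mk` becomes `mg`; `kap J` is only used through its
continuity). -/
def T_MLG : Prop := T_CARLS → ∀ A : ℝ, 1 ≤ A → ∃ C : ℝ, 0 < C ∧ ∀ (ν : ℝ) (κ : ℝ → ℂ) (k : ℕ),
  0 ≤ ν → KK A ν κ → Continuous (mg ν κ k) ∧
  (∀ (H : ℝ → ℂ) (u : ℝ), HH H →
    FA κ (aa ν k) (de ν k) (fh H) u = ∫ s, H s * mg ν κ k s * e1 (-(u * s))) ∧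
  ∀ (j : ℕ) (s : ℝ), s ∈ band ν j → ‖mg ν κ k s‖ ^ 2 ≤ C * (9 / 10) ^ (k - j + (j - k))

/-- **PTG** (20 min; uses SEQ, SDG): copy of `CRR/P_PART.lean`. -/
def T_PTG : Prop := T_CARLS → ∀ A : ℝ, 1 ≤ A → ∃ C : ℝ≥0, ∀ (ν : ℝ) (κ H : ℝ → ℂ), 0 ≤ ν →
  KK A ν κ → HH H →
    ∫⁻ u, ∑' k : ℕ, (⨆ (V1 : ℝ) (V2 : ℝ), ‖FS κ (aa ν k) (de ν k) (fh H) u V1 V2‖ₑ) ^ 2 ≤
      C * ∫⁻ s, ‖H s‖ₑ ^ 2

/-- **TLG** (20 min; uses SEQ, SDG, MLG): copy of `CRR/P_TAIL.lean`. -/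
def T_TLG : Prop := T_CARLS → ∀ A : ℝ, 1 ≤ A → ∃ C : ℝ≥0, ∀ (ν : ℝ) (κ H : ℝ → ℂ), 0 ≤ ν →
  KK A ν κ → HH H →
    ∫⁻ u, (⨆ n : ℕ, ‖∑ k ∈ Finset.range n, FA κ (aa ν k) (de ν k) (fh H) u‖ₑ) ^ 2 ≤
      C * ∫⁻ s, ‖H s‖ₑ ^ 2

/-- **HIG** (20 min; uses SEQ, PTG, TLG): copy of `CRR/P_HI.lean`. -/
def T_HIG : Prop := T_CARLS → ∀ A : ℝ, 1 ≤ A → ∃ C : ℝ≥0, ∀ (ν : ℝ) (κ H : ℝ → ℂ), 0 ≤ ν →
  KK A ν κ → HH H →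
    ∫⁻ u, (⨆ (V1 : ℝ) (V2 : ℝ),
      ‖∫ v in Ioc V1 V2 ∩ {v | xc ν ≤ u + v}, κ (u + v) * fh H v‖ₑ) ^ 2 ≤
      C * ∫⁻ s, ‖H s‖ₑ ^ 2

/-- **HGB** (30 min; uses HIG): density and Fatou exactly as in `CRR/P_HANK.lean` (the lemmas `HANK_.limit`, `HANK_.approx`, `T`, `TT`
there are for a general continuous kernel; `∫ v in Ioc V1 V2, (indicator κ) (u+v) g v` is `T κ (xc ν) g u V1 V2`). -/
def T_HGB : Prop := T_CARLS → ∀ A : ℝ, 1 ≤ A → ∃ C : ℝ≥0, ∀ (ν : ℝ) (κ : ℝ → ℂ), 0 ≤ ν →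
  KK A ν κ → HB ((Ici (xc ν)).indicator κ) C

/-- **HKB** (30 min; uses HANK): for bounded `κ` near `-∞` (`kap J x` is `O(e^x)`) and `g ∈ L²` the integrals over `Iic V` converge and the
one over `Ioc V1 V2` is a difference of two (`0` if `V2 ≤ V1`); if `g ∉ L²` the right side is `∞` (unless `C = 0`: take `C ≥ 1`). -/
def T_HKB : Prop := T_HANK → T_CARLS → ∃ C : ℝ≥0, ∀ (ν : ℝ) (J J' : ℝ → ℝ), 0 ≤ ν →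
  NSol ν J J' → HB (kap J) C

/-- **KPM** (60 min; uses SEQ): the pure WKB kernels are of the form `KK`: as `CRR/P_PHS.lean` with `B1 = 1`, `B2 = 0` (for `s = -1`:
`B1 = 0`, `B2 = 1`): `b x = λ^(-1/2) e^x P^(-1/4)`, `b' = b (1 - e^(2x)/(2P))`, `c = 0`; phase `th ν` (derivative `√P/(2π)` everywhere, as
`x ↦ √(PP ν x)` is continuous), extended outside of the strip by `PHS_.ext_phase`. Continuity of `kpm`: composition with `max x xc`,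
`P > 0` on `[xc, ∞)`. -/
def T_KPM : Prop := ∃ A : ℝ, 1 ≤ A ∧ ∀ ν s : ℝ, 0 ≤ ν → (s = 1 ∨ s = -1) → KK A ν (kpm ν s)

/-! ### B. A window of kernels on the oscillatory side -/

/-- **BET** (30 min). `be m x = arcsin a`, `a = m e^(-x)`. Derivative: chain rule,
`-m e^(-x)/√(1-m²e^(-2x)) = -m/√(e^(2x)-m²)`. Hölder: for `1 ≥ a ≥ b ≥ 0`, `φ = arcsin a - arcsin b ∈ [0, π/2]`,
`cos φ = √(1-a²)√(1-b²) + ab ≥ 1 - a² + ab ≥ 1 - (a-b)`, `a - b ≤ y - x`, and `1 - cos φ = 2 sin²(φ/2) ≥ 2φ²/π²`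
(`Real.mul_le_sin`). -/
def T_BET : Prop := ∀ m x : ℝ, 0 ≤ m →
  (m < Real.exp x → HasDerivAt (be m) (-(m / Real.sqrt (PP m x))) x) ∧
  ∀ y : ℝ, m ≤ Real.exp x → x ≤ y → 0 ≤ be m x - be m y ∧ be m x - be m y ≤ 4 * Real.sqrt (y - x)

/-- **CMP** (120 min; uses WKB, SEQ): comparison of the orders `m` and `m + k` for `x ≥ x1 = x1 m Z`. Write `P₀ = PP m x`,
`P = PP (m+k) x = P₀ - q`, `q = 2mk + k² ≤ 3k²(1+m)`, `t = e^x`. (0) For `x ≥ x1`: `t ≥ m + Z(1+m)^{1/3}`, so `t ≥ Z`, `t ≥ 1+m` and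
`P₀ ≥ ½ Z^{2/3} t^{4/3}`: if `t ≤ 2(1+m)`, `t - m ≥ Z (t/2)^{1/3}`; if `t > 2(1+m)`, `P₀ ≥ t²/2` and `t^{2/3} ≥ Z^{2/3}`. Hence
`q/P₀ ≤ 6k²/Z ≤ 1/2`, and `x1 > xc (m+k)` for `Z ≥ C(1+k)³`. (1) WKB for the order `m+k`: `kap J x = e^x P^{-1/4} (e1 Θ B₁ + e1(-Θ) B₂)`; so
with `U = ρ e^{iψ} B₁`, `ρ = (P₀/P)^{1/4}`, `ψ = 2πΘ - 2π th m - k be m`, and the same with `B₂`, `-ψ`, the formula holds with `c1 + t1 = U`.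
(2) `ψ' = √P - √P₀ + km/√P₀`, `|ψ'| ≤ kmq P₀^{-3/2} + k² P₀^{-1/2}`
(`km(√P₀+√P) - q√P₀ = km(√P-√P₀) - k²√P₀`), so by (0) `∫_{x1}^∞ |ψ'| ≤ C k³/Z` (`∫ P₀^{-1/2} ≤ 3/Z`, `(1+m)² ∫ P₀^{-3/2} ≤ 2/Z`).
(3) `ρ = (1-q/P₀)^{-1/4}` is decreasing, `1 ≤ ρ ≤ 1 + 6k²/Z`. (4) `‖B₁'‖ ≤ C e^{4x} P^{-5/2} ≤ 6 C e^{4x} P₀^{-5/2}`, whose integral over `[x1,∞)` is
`P₀(x1)^{-1/2} + m² P₀(x1)^{-3/2}/3 ≤ C/Z` (an antiderivative is `-(P₀^{-1/2} + m²P₀^{-3/2}/3)`). (5) So `∫_{x1}^∞ |U'| ≤ C(1+k)³/Z`; let `c1` be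
the limit of `U` at `∞`, `t1 = U - c1`. -/
def T_CMP : Prop := ∃ C : ℝ, 0 < C ∧ ∀ (m Z : ℝ) (k : ℕ) (J J' : ℝ → ℝ), 0 ≤ m →
  C * (1 + (k : ℝ)) ^ 3 ≤ Z → NSol (m + k) J J' →
  ∃ (c1 c2 : ℂ) (t1 t2 t1' t2' : ℝ → ℂ), ‖c1‖ ≤ C ∧ ‖c2‖ ≤ C ∧
    ContinuousOn t1' (Ici (x1 m Z)) ∧ ContinuousOn t2' (Ici (x1 m Z)) ∧
    (∀ x, x1 m Z ≤ x → HasDerivAt t1 (t1' x) x ∧ HasDerivAt t2 (t2' x) x ∧
      ‖t1 x‖ ≤ C * ((1 + (k : ℝ)) ^ 3 / Z) ∧ ‖t2 x‖ ≤ C * ((1 + (k : ℝ)) ^ 3 / Z) ∧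
      kap J x = kpm m 1 x * (ci (k * be m x) * (c1 + t1 x)) +
        kpm m (-1) x * (ci (-(k * be m x)) * (c2 + t2 x))) ∧
    (∀ a b, x1 m Z ≤ a → a ≤ b → ∫ x in Ioc a b, ‖t1' x‖ ≤ C * ((1 + (k : ℝ)) ^ 3 / Z) ∧
      ∫ x in Ioc a b, ‖t2' x‖ ≤ C * ((1 + (k : ℝ)) ^ 3 / Z))

/-- **CPL** (45 min; uses CMP, BET): on a short interval the window is a rotation.
`W1 x = ci (k (be m x - be m xb)) (c1 + t1 x) - c1`; `|ci s - 1| ≤ |s|`; the integral of `|be'|` over `[xa, xb]` is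
`be m xa - be m xb ≤ 4 √(xb - xa)` (`e^xa > m` as `Z > 0`). `W2` with `-k`. -/
def T_CPL : Prop := ∃ C : ℝ, 0 < C ∧ ∀ (m Z : ℝ) (k : ℕ) (J J' : ℝ → ℝ), 0 ≤ m →
  C * (1 + (k : ℝ)) ^ 3 ≤ Z → NSol (m + k) J J' → ∃ c1 c2 : ℂ, ‖c1‖ ≤ C ∧ ‖c2‖ ≤ C ∧
  ∀ xa xb : ℝ, x1 m Z ≤ xa → xa ≤ xb → ∃ W1 W2 W1' W2' : ℝ → ℂ,
    ContinuousOn W1' (Icc xa xb) ∧ ContinuousOn W2' (Icc xa xb) ∧
    (∀ x ∈ Icc xa xb, HasDerivAt W1 (W1' x) x ∧ HasDerivAt W2 (W2' x) x ∧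
      kap J x = kpm m 1 x * (ci (k * be m xb) * (c1 + W1 x)) +
        kpm m (-1) x * (ci (-(k * be m xb)) * (c2 + W2 x))) ∧
    ‖W1 xa‖ ≤ C * ((1 + (k : ℝ)) ^ 3 / Z + k * Real.sqrt (xb - xa)) ∧
    ‖W2 xa‖ ≤ C * ((1 + (k : ℝ)) ^ 3 / Z + k * Real.sqrt (xb - xa)) ∧
    ∫ x in Ioc xa xb, ‖W1' x‖ ≤ C * ((1 + (k : ℝ)) ^ 3 / Z + k * Real.sqrt (xb - xa)) ∧
    ∫ x in Ioc xa xb, ‖W2' x‖ ≤ C * ((1 + (k : ℝ)) ^ 3 / Z + k * Real.sqrt (xb - xa))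

/-- **ROT** (75 min): rotations. We may assume `Σ_k ∫ ‖g k‖² < ∞` (otherwise the right side is `∞` or some factor vanishes: if
`C = 0` or `B = 0` everything is `0` a.e., or treat `C + 1`...; see the hypotheses `1 ≤ C`, `1 ≤ B`, `1 ≤ K`). For fixed `u` the map
`φ ↦ φ + b u` preserves the integral over a period of a `2π`-periodic function. Then `b = 0`; put
`G_φ v = Σ_k ci (kφ) c_k g_k v`: the sum is `∫ v in Ioc V1 V2, κ (u+v) G_φ v` (`κ` bounded on bounded intervals, `g_k ∈ L²`), Tonelli (the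
supremum may be taken over rational `V1`, `V2`, by continuity of the integral; for fixed `V1`, `V2` the function is measurable in `u` and a
trigonometric polynomial in `φ`), `HB`, and `∫_0^{2π} ‖G_φ v‖² dφ = 2π Σ_k ‖c_k g_k v‖²`. -/
def T_ROT : Prop := ∀ (C B : ℝ≥0) (κ : ℝ → ℂ) (K : ℕ) (b : ℝ → ℝ) (c : ℕ → ℂ) (g : ℕ → ℝ → ℂ),
  1 ≤ C → 1 ≤ B → LB κ → HB κ C → Measurable b → (∀ k < K, ‖c k‖ₑ ≤ B) →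
  (∀ k, Measurable (g k)) →
    ∫⁻ u, ∫⁻ φ in Ioc (0 : ℝ) (2 * Real.pi), (⨆ (V1 : ℝ) (V2 : ℝ),
      ‖∑ k ∈ Finset.range K, ci (k * (φ + b u)) * (c k * ∫ v in Ioc V1 V2, κ (u + v) * g k v)‖ₑ) ^ 2 ≤
    C * B ^ 2 * ENNReal.ofReal (2 * Real.pi) * ∑ k ∈ Finset.range K, ∫⁻ v, ‖g k v‖ₑ ^ 2

/-- **CRS** (30 min; uses `HANK_.schur`): crude sum over the window. `WM ≤ Σ_k ∫ ‖κ_k (u+v)‖ ‖g_k v‖ dv`, square `≤ K Σ_k (..)²`, Schur's test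
for each `k`. -/
def T_CRS : Prop := ∀ (K : ℕ) (η : ℝ≥0∞) (κ g : ℕ → ℝ → ℂ), (∀ k, Measurable (κ k)) →
  (∀ k, Measurable (g k)) → (∀ k < K, ∫⁻ x, ‖κ k x‖ₑ ≤ η) →
    ∫⁻ u, ∫⁻ φ in Ioc (0 : ℝ) (2 * Real.pi), WM K κ g u φ ^ 2 ≤
      K * η ^ 2 * ENNReal.ofReal (2 * Real.pi) * ∑ k ∈ Finset.range K, ∫⁻ v, ‖g k v‖ₑ ^ 2

/-- **WC1** (120 min; uses CPL, ROT, HGB, KPM, `CRL.T_ABL`, SEQ): the window for `x ≥ x1`. Let `J_k` of order `m+k`; for given `u` let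
`xb = u + v0 + δ`, `xa = max (u + v0) x1`; if `xa > xb` everything vanishes. Insert CPL. Main part: `Σ_k ci (kφ) ci (±k be m xb) c_k
∫_{Ioc V1 V2 ∩ {x1 ≤ u+v}} kpm m (±1) (u+v) g_k v`, at most the quantity of ROT with `κ = (Ici (xc m)).indicator (kpm m (±1))` (`x1 ≥ xc m`; enlarge `V1`),
`b u = be m (u + v0 + δ)` (ROT for `-φ`, `-b` in the case of `-`). Errors: by `T_ABL` on `[max V1 (xa-u), V2]`, `V2 ≤ v0+δ`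
(`g_k` vanishes outside of `(v0, v0+δ]`), with `D v = kpm m (±1) (u+v) g_k v`, `U v = W (u+v)`: at most `6 η_k M_k(u)`,
`M_k(u) = sup_{V1 V2} ‖∫_{Ioc V1 V2} κ (u+v) g_k v‖`, `η_k = C((1+k)³/Z + k√δ) ≤ C K^{-1/2}` since `K^20 ≤ Z`, `δ Z ≤ 1`; the sum over `k` by
Cauchy-Schwarz: `K Σ_k η_k² M_k²`, and HB. -/
def T_WC1 : Prop := T_CARLS → ∃ (C : ℝ≥0) (Z0 : ℝ), ∀ (K : ℕ) (Z δ v0 m : ℝ) (J J' : ℕ → ℝ → ℝ)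
  (g : ℕ → ℝ → ℂ), Z0 ≤ Z → (K : ℝ) ^ 20 ≤ Z → 0 < δ → δ * Z ≤ 1 → 0 ≤ m →
  (∀ k < K, NSol (m + k) (J k) (J' k)) → (∀ k, Measurable (g k)) →
  (∀ k v, v ∉ Ioc v0 (v0 + δ) → g k v = 0) →
    ∫⁻ u, ∫⁻ φ in Ioc (0 : ℝ) (2 * Real.pi),
      WM K (fun k => (Ici (x1 m Z)).indicator (kap (J k))) g u φ ^ 2 ≤
    C * ∑ k ∈ Finset.range K, ∫⁻ v, ‖g k v‖ₑ ^ 2

end Pool.Agent.CRW
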