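import Pool.Agent.CRW.Targets

set_option autoImplicit false

/-!
# CRW: targets, part 2: the turning zone, existence, the window theorem

Every target `T_X` is to be proved as `theorem p_X : T_X` (targets named in brackets are hypotheses) in a NEW file
`Pool/Agent/CRW/P_X.lean` importing this one, namespace `Pool.Agent.CRW`, helper lemmas in the sub-namespace `X_`.
Notation: `P = PP ν x = e^(2x) - ν²`, `xc = xc ν = log (ν + 3000 (1+ν)^{1/3})`, `xs = x1 ν 4000 = log (ν + 4000 (1+ν)^{1/3})`,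
`E2 ν J J' x = J'²/√P + √P J²`, `E2 = 1` at `xc` for normalised solutions.
-/

namespace Pool.Agent.CRW

open MeasureTheory FourierTransform Set Filter Topology
open scoped ENNReal NNReal ComplexConjugate
open Pool.Agent.MBS (E ex S Sstar)
open Pool.Agent.CAR (e1)
open Pool.Agent.CRN (ci SH S1 Nice T_CARLS)
open Pool.Agent.CRR (PP Sol xc E2 NSol kap aa de la si ww band fh StripD FS FA HH T_SEQ T_INF T_QID T_FOR T_ENR T_NRM T_HANK)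

/-! ### C. The turning zone -/

/-- **JUP** (75 min; uses SEQ, QID, FOR; many steps are lemmas of `CRR/P_LOW.lean`). `Q = J'² + P J² = 2 ∫_{Iic x} e^(2y) J²`
is nondecreasing, `Q(xc) = √P(xc) ≤ C ν^{2/3}`, `J(xc)² ≤ P(xc)^{-1/2} ≤ C ν^{-2/3}`. On `[log ν, xc]` (length `≤ C ν^{-2/3}`) `P ≥ 0`,
`J'² ≤ Q(xc)`, so `|J| ≤ C ν^{-1/3}`. For `x ≤ log ν`: `|J x| ≤ |J (log ν)|` (FOR). Second part: on `[log ν - 1, xc]` `e^(-2y) ≤ e² ν^{-2}`, so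
`∫ J² ≤ e² ν^{-2} Q(xc)/2 ≤ C ν^{-4/3}`; `|J|` is nondecreasing on `(-∞, log ν]`, so `J(log ν - 1)² ≤ ∫_{log ν - 1}^{log ν} J²`, and for
`y ≤ log ν - 1` FOR with `√(-P) ≥ ν/2` on `[y, log ν - 1]` gives `J(y)² ≤ J(log ν - 1)² e^{-ν (log ν - 1 - y)}`. -/
def T_JUP : Prop := ∃ C : ℝ, 0 < C ∧ ∀ (ν : ℝ) (J J' : ℝ → ℝ), 1 ≤ ν → NSol ν J J' →
  (∀ x, x ≤ xc ν → |J x| ≤ C * ν ^ (-(1 / 3) : ℝ)) ∧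
  ∫⁻ x in Iic (xc ν), ENNReal.ofReal (J x ^ 2) ≤ ENNReal.ofReal (C * ν ^ (-(4 / 3) : ℝ))

/-- **JTL** (45 min; uses FOR, JUP): decay in the forbidden region. FOR with `y = log ν`:
`-P(log ν - σ) = ν²(1 - e^(-2σ)) ≥ (4/5) ν² min(σ,1)`, so for `τ ≤ 1` the integral of `√(-P)` over `[log ν - τ, log ν]` is
`≥ (4/5)(2/3) ν τ^{3/2}`, for `τ ≥ 1` it is `≥ (8/15) ν + (4/5) ν (τ-1)`; both are `≥ ν min(τ^{3/2}, τ)/4`. -/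
def T_JTL : Prop := ∃ C : ℝ, 0 < C ∧ ∀ (ν τ : ℝ) (J J' : ℝ → ℝ), 1 ≤ ν → 0 ≤ τ → NSol ν J J' →
  |J (Real.log ν - τ)| ≤
    C * ν ^ (-(1 / 3) : ℝ) * Real.exp (-(ν * min (τ ^ (3 / 2 : ℝ)) τ / 4))

/-- **DEE** (60 min; uses JTL). `x = log ν - τ`, `x ≤ x0 ν A` means `τ ≥ -log (1 - A ν^{-2/3}) ≥ A ν^{-2/3}`;
`‖kap J x‖ ≤ C ν^{2/3} exp (-ν min(τ^{3/2},τ)/4)`. For `τ ≤ 1`: `ν τ^{3/2} ≥ ν^{2/3} τ` (as `ν^{2/3} τ ≥ A ≥ 1`), integral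
`≤ C ∫ ν^{2/3} exp (-ν^{2/3} τ/4) dτ ≤ 4 C e^{-A/4}`. For `τ ≥ 1`: `C ν^{2/3} (4/ν) e^{-ν/4} ≤ 4 C e^{-A/4}` (`A ≤ ν`). -/
def T_DEE : Prop := ∃ C : ℝ, 0 < C ∧ ∀ (ν A : ℝ) (J J' : ℝ → ℝ), 1 ≤ ν → 1 ≤ A →
  A * ν ^ (1 / 3 : ℝ) ≤ ν / 2 → NSol ν J J' →
    ∫⁻ x in Iic (x0 ν A), ‖kap J x‖ₑ ≤ ENNReal.ofReal (C * Real.exp (-(A / 4)))

/-- **WRO** (75 min; uses SEQ, INF, ENR, JUP): the Wronskian `W = J0 J' - J0' J` (orders `ν`, `ν+k`) has `W' = q J0 J`,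
`q = 2νk + k² ≤ 3kν`, and tends to `0` at `-∞` (INF), so at `xs`: `|W| ≤ q (∫ J0²)^{1/2} (∫ J²)^{1/2}` over `Iic xs`. `xs ≥ xc (ν+k)` since
`k + 3000 (1+ν+k)^{1/3} ≤ 4000 (1+ν)^{1/3}`. The integrals of the squares: JUP up to `xc`; on `[xc, xs]` (length `≤ 8000 ν^{-2/3}`)
`J² ≤ 2/√P ≤ ν^{-2/3}` (ENR, SEQ (1): `P ≥ 100 e^{4x/3}`). So both are `≤ C ν^{-4/3}`. -/
def T_WRO : Prop := ∃ C : ℝ, 0 < C ∧ ∀ (ν : ℝ) (k : ℕ) (J0 J0' J J' : ℝ → ℝ), 1 ≤ ν →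
  (k : ℝ) ^ 3 ≤ ν → NSol ν J0 J0' → NSol (ν + k) J J' →
    |J0 (x1 ν 4000) * J' (x1 ν 4000) - J0' (x1 ν 4000) * J (x1 ν 4000)| ≤
      C * k * ν ^ (-(1 / 3) : ℝ)

/-- **DXS** (45 min; uses SEQ, ENR, WRO). At `xs` let `a = (P^{1/4} J0, P^{-1/4} J0')`, `b = (P^{1/4} J, P^{-1/4} J')`, `P = PP ν xs`:
`|a|² = E2 ν J0 J0' xs ≥ 1/2` (ENR), `|b|² ≤ √2 E2 (ν+k) J J' xs ≤ 3` (`PP (ν+k) ≤ P ≤ 2 PP (ν+k)` as `q ≤ 3ν^{4/3} ≤ 100 e^{4 xs/3}`, ENR),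
`c = a·b/|a|²`, `|c| ≤ |b|/|a|`, and `|b - c a|² = (a × b)²/|a|² ≤ 2 W²`. -/
def T_DXS : Prop := ∃ C : ℝ, 0 < C ∧ ∀ (ν : ℝ) (k : ℕ) (J0 J0' J J' : ℝ → ℝ), 1 ≤ ν →
  (k : ℝ) ^ 3 ≤ ν → NSol ν J0 J0' → NSol (ν + k) J J' → ∃ c : ℝ, |c| ≤ 4 ∧
    Real.sqrt (E2 ν (fun x => J x - c * J0 x) (fun x => J' x - c * J0' x) (x1 ν 4000)) ≤
      C * k * ν ^ (-(1 / 3) : ℝ)

/-- **DRI** (75 min; uses SEQ, ENR): to the right. `D = J - c J0`, `D'' = -P D + q J`, `e = E2 ν D D'`: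
`e' = 2 D' q J/√P + (P'/(2P)) (√P D² - D'²/√P) ≤ 4 q e^{1/2} P^{-1/2} + (P'/(2P)) e`, since `|D'| ≤ e^{1/2} P^{1/4}`, `|J| ≤ 2 P^{-1/4}` (ENR for
`ν+k`, `P ≤ 2 PP (ν+k)`). So `y = e^{1/2} P^{-1/4}` grows at most with the rate `2 q P^{-3/4}` (use `√(e+ε)`, `ε → 0`). For `xs ≤ x ≤ x1`:
`P(x) ≤ 8 Z ν^{4/3}`, `P(xs) ≥ 8000 ν^{4/3}`, `x1 - xs ≤ 2 Z ν^{-2/3}`, `q ≤ 3kν`. -/
def T_DRI : Prop := ∃ C : ℝ, 0 < C ∧ ∀ (ν Z c : ℝ) (k : ℕ) (J0 J0' J J' : ℝ → ℝ), 1 ≤ ν →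
  4000 ≤ Z → Z ^ 3 ≤ ν → (k : ℝ) ^ 3 ≤ ν → NSol ν J0 J0' → NSol (ν + k) J J' →
  ∀ x ∈ Icc (x1 ν 4000) (x1 ν Z),
    Real.sqrt (E2 ν (fun x => J x - c * J0 x) (fun x => J' x - c * J0' x) x) ≤
      C * Z ^ (1 / 4 : ℝ) *
        (Real.sqrt (E2 ν (fun x => J x - c * J0 x) (fun x => J' x - c * J0' x) (x1 ν 4000)) +
          k * Z * ν ^ (-(1 / 3) : ℝ))

/-- **DLE** (90 min; uses SEQ, ENR, JUP): to the left, Gronwall. `N² = ν^{4/3} D² + D'²`, `D'' = -P D + q J`: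
`|(N²)'| ≤ (ν^{4/3} + |P|) ν^{-2/3} N² + 2 q |J| N`. On `[x0 ν A, xs]`: `|P| ≤ 3 (A + 5040) ν^{4/3}`, length `≤ 2 (A + 5040) ν^{-2/3}`,
`|J| ≤ C ν^{-1/3}` (JUP for the order `ν+k`; between `xc (ν+k)` and `xs` `J² ≤ 2/√P`), so
`N(x) ≤ exp (4 (A+5041)²) (N(xs) + C k (A+5040))`, and `N(xs)² ≤ 200 ν^{2/3} e(xs)`. Finally `|D| ≤ ν^{-2/3} N`. -/
def T_DLE : Prop := ∃ C : ℝ, 0 < C ∧ ∀ (ν A c : ℝ) (k : ℕ) (J0 J0' J J' : ℝ → ℝ),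
  4000 ^ 3 ≤ ν → 1 ≤ A → A * ν ^ (1 / 3 : ℝ) ≤ ν / 2 → (k : ℝ) ^ 3 ≤ ν → NSol ν J0 J0' →
  NSol (ν + k) J J' → ∀ x ∈ Icc (x0 ν A) (x1 ν 4000),
    |J x - c * J0 x| ≤ Real.exp (C * (4000 + A) ^ 2) *
      (ν ^ (-(1 / 3) : ℝ) *
        Real.sqrt (E2 ν (fun x => J x - c * J0 x) (fun x => J' x - c * J0' x) (x1 ν 4000)) +
        k * ν ^ (-(2 / 3) : ℝ))

/-- **ZON** (75 min; uses DXS, DRI, DLE): the zone. With `c` from DXS, `D = J - c J0`: on `[x0, xs]` (length `≤ C (4000+A) ν^{-2/3}`,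
`e^x ≤ 2ν`) `|D| ≤ e^{C(4000+A)²} k ν^{-2/3}` (DLE, DXS); on `[xs, x1]` (length `≤ 2 Z ν^{-2/3}`, `e^x ≤ 3ν`)
`|D| ≤ e^{1/2} P^{-1/4} ≤ C Z^{5/4} k ν^{-1/3} · ν^{-1/3}` (`P ≥ 100 ν^{4/3}`). Total `≤ Z^4 ν^{-1/3} ≤ Z^4 (2/Z^100)^{1/3}`
(if `B` is large, `Z` is larger than all constants, `k ≤ Z`). -/
def T_ZON : Prop := ∃ B : ℝ, 1 ≤ B ∧ ∀ (ν A Z : ℝ) (k : ℕ) (J0 J0' J J' : ℝ → ℝ), 1 ≤ A →
  Real.exp (B * (4000 + A) ^ 2) ≤ Z → Z ^ 100 ≤ 2 * ν → (k : ℝ) ^ 20 ≤ Z → NSol ν J0 J0' →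
  NSol (ν + k) J J' → ∃ c : ℝ, |c| ≤ 4 ∧
    ∫⁻ x in Icc (x0 ν A) (x1 ν Z), ‖kap J x - c * kap J0 x‖ₑ ≤ ENNReal.ofReal (Z ^ (-10 : ℤ))

/-- **WC2** (90 min; uses ZON, DEE, ROT, CRS, HKB): the window for `x < x1`. `J0 = J 0`, `c_k` from ZON. For `x < x1`:
`kap J_k = c_k kap J_0 + r_k`, `r_k = kap J_k - c_k kap J_0`; the `L¹` norm of `r_k 1_{x<x1}` is at most `Z^{-10}` on `[x0, x1]` and at most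
`5 C e^{-A/4}` on `(-∞, x0]` (DEE for the orders `m`, `m+k`: `x0 m A ≤ x0 (m+k) A`, `C` of DEE); CRS: `K η² ≤ C` since `K^20 ≤ Z` and
`K ≤ e^{A/B}`, `B ≥ 2`. Main part: `Σ_k ci (kφ) c_k ∫_{Ioc V1 (min V2 (x1-u))} kap J_0 (u+v) g_k v` (up to a null set), ROT with `b = 0`, `B = 4`,
`κ = kap (J 0)` (HKB; `LB` by continuity). `WM` of a sum of kernels is at most the sum (integrability on `Ioc V1 V2`: `g_k ∈ L²`, otherwise the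
right side is `∞`). -/
def T_WC2 : Prop := T_HANK → T_CARLS → ∃ (C : ℝ≥0) (B : ℝ), 1 ≤ B ∧ ∀ (K : ℕ) (A Z m : ℝ)
  (J J' : ℕ → ℝ → ℝ) (g : ℕ → ℝ → ℂ), 1 ≤ A → Real.exp (B * (4000 + A) ^ 2) ≤ Z →
  (K : ℝ) ^ 20 ≤ Z → (K : ℝ) ≤ Real.exp (A / B) → Z ^ 100 ≤ 2 * m →
  (∀ k < K, NSol (m + k) (J k) (J' k)) → (∀ k, Measurable (g k)) →
    ∫⁻ u, ∫⁻ φ in Ioc (0 : ℝ) (2 * Real.pi),
      WM K (fun k => (Iio (x1 m Z)).indicator (kap (J k))) g u φ ^ 2 ≤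
    C * ∑ k ∈ Finset.range K, ∫⁻ v, ‖g k v‖ₑ ^ 2

/-! ### D. Existence, the window theorem -/

/-- **EXN** (75 min; uses NRM, SEQ): Bessel functions. `F(t) = Σ a_j t^j`, `a_j = (-1)^j / (4^j j! (ν+1)...(ν+j))`, entire (`|a_j| ≤ 1/j!`);
`J(x) = e^{νx} F(e^{2x}) = Σ a_j e^{(2j+ν)x}`, differentiate term by term twice: `J'' = (ν² - e^{2x}) J` because
`4 j (j+ν) a_j = -a_{j-1}`. `|J| ≤ e` for `x ≤ 0`, and `J` is not identically `0` (`F(0) = 1`, continuity). -/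
def T_EXN : Prop := ∀ ν : ℝ, 0 ≤ ν → ∃ J J' : ℝ → ℝ, NSol ν J J'

/-- **WCW** (75 min; uses WC1, WC2): the window theorem. `Λ = 1 + log K`; `C2, B2` from WC2, `Z0` from WC1; `A = B' Λ`,
`B' = max B2 1`; `B ≥ B2 (4000 + B')² + 20 + |log Z0|`: then `exp (B2 (4000+A)²) ≤ Z`, `K^20 ≤ Z`, `Z0 ≤ Z`, `K ≤ exp (A/B2)`. If `Z^100 ≤ 2m`: the kernel
is the sum of its parts on `Ici x1` and `Iio x1`, `WM` is at most the sum of the two `WM` (`(a+b)² ≤ 2a²+2b²`; measurability of one of them: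
supremum over rational `V1, V2`). If `2m < Z^100`: `m + Z (1+m)^{1/3} ≤ Z^100/2 + Z (Z^100)^{1/3} ≤ Z^100`, so `x1 ≤ 100 log Z ≤ u + v` on the support of
`g_k`, and only WC1 is needed. -/
def T_WCW : Prop := T_HANK → T_CARLS → ∃ (C : ℝ≥0) (B : ℝ), 1 ≤ B ∧ ∀ (K : ℕ) (δ v0 m : ℝ)
  (J J' : ℕ → ℝ → ℝ) (g : ℕ → ℝ → ℂ), 1 ≤ K → 0 < δ →
  δ * Real.exp (B * (1 + Real.log K) ^ 2) ≤ 1 → 0 ≤ m → (∀ k < K, NSol (m + k) (J k) (J' k)) →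
  (∀ k, Measurable (g k)) → (∀ k v, v ∉ Ioc v0 (v0 + δ) → g k v = 0) →
    ∫⁻ u in Ici (100 * (B * (1 + Real.log K) ^ 2) - v0), ∫⁻ φ in Ioc (0 : ℝ) (2 * Real.pi),
      WM K (fun k => kap (J k)) g u φ ^ 2 ≤
    C * ∑ k ∈ Finset.range K, ∫⁻ v, ‖g k v‖ₑ ^ 2

end Pool.Agent.CRW
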