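import Pool.Agent.CRW.Targets2
import Pool.Agent.CRL.Targets2

set_option autoImplicit false

/-!
# CRW: targets, part 3: the plane, windows of angular frequencies, arcs

Every target `T_X` is to be proved as `theorem p_X : T_X` (targets named in brackets are hypotheses) in a NEW file
`Pool/Agent/CRW/P_X.lean` importing this one, namespace `Pool.Agent.CRW`, helper lemmas in the sub-namespace `X_`.
From `Pool/Agent/CRL` (plane): `ev θ = (cos θ, sin θ)`, `rot θ`, the angular mode `amode m f`,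
`T_MODA` (`p_MODA`), `T_MODB` (Parseval), `T_POLC` (polar coordinates). `CRL.ci` and `CRN.ci` are the same function
(`rfl`), `CRL.Nice f` and `CRN.Nice f` (`n = 2`) have the same three fields.
-/

namespace Pool.Agent.CRW

open MeasureTheory FourierTransform Set Filter Topology
open scoped ENNReal NNReal ComplexConjugate
open Pool.Agent.MBS (E ex S Sstar)
open Pool.Agent.CAR (e1)
open Pool.Agent.CRN (ci sg SH S1 Nice T_CARLS T_POLN T_DSN)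
open Pool.Agent.CRL (ev rot amode T_MODA T_MODB T_POLC)
open Pool.Agent.CRR (PP Sol xc E2 NSol kap EB co T_SEQ T_HANK T_GM T_UNI T_SYM T_AHT T_OSC)

/-- angular Fourier coefficient of `F` on the circle of radius `r`: `(2π)⁻¹ ∫ F (r e_θ) e^{-imθ} dθ` -/
noncomputable def cm (F : E 2 → ℂ) (m : ℤ) (r : ℝ) : ℂ := amode m F (r • ev 0)

/-- projection to the angular frequencies `w, w+1, ..., w+K-1` -/
noncomputable def pv (K : ℕ) (w : ℤ) (f : E 2 → ℂ) (x : E 2) : ℂ :=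
  ∑ k ∈ Finset.range K, amode (w + k) f x

/-- the harmonic `(2π)^{-1/2} e^{imφ}` as a continuous function on the plane -/
noncomputable def yy (m : ℤ) (x : E 2) : ℂ :=
  ((Real.sqrt (2 * Real.pi))⁻¹ : ℝ) * (if 0 ≤ m then ((x 0 : ℂ) + x 1 * Complex.I) ^ m.toNat
    else ((x 0 : ℂ) - x 1 * Complex.I) ^ (-m).toNat)

/-- LogLogSeparated (landed: `Pool.Agent.SEnd.fDSs`) -/
def T_DSP : Prop := ∃ C : ℝ≥0, ∀ (δ : ℝ) (A : Set ℝ) (f : E 2 → ℂ), 0 < δ → δ ≤ 1 / 2 →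
  (∀ R ∈ A, 0 < R) → (∀ R ∈ A, ∀ R' ∈ A, R < R' → R + δ * R' ≤ R') →
  Measurable f → Integrable f → MemLp f 2 →
  ∫⁻ x, (⨆ R ∈ A, ‖S f R x‖ₑ) ^ 2 ≤
    C * ENNReal.ofReal (Real.log (3 + Real.log δ⁻¹) ^ 12) * ∫⁻ x, ‖f x‖ₑ ^ 2

/-! ### E. Angular coefficients -/

/-- **SGC** (45 min; uses POLN, POLC): the surface measure of the circle. Apply both formulas for polar coordinates to
`x ↦ 1_{1 ≤ |x| ≤ 2} F (x/|x|)` (bounded, measurable, compact support): `(3/2) ∫ F dσ = (3/2) ∫ F (ev φ) dφ`. -/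
def T_SGC : Prop := ∀ F : E 2 → ℂ, Continuous F →
  ∫ θ, F (θ : E 2) ∂(sg 2) = ∫ φ in (-Real.pi)..Real.pi, F (ev φ)

/-- **EB2** (90 min; uses SGC, SYM): the harmonics. `yy m (ev φ) = (2π)^{-1/2} e^{imφ}` (also `yy m (rt 0 1 φ x) = ci (mφ) yy m x` for all `x`),
orthonormality by SGC. `eig`: SYM for `F` and `yy m` (smooth: polynomials in `x 0`, `x 1`), `Lam (yy m) x = L2 0 1 (yy m) x = -m² yy m x`. -/
def T_EB2 : Prop := ∀ M : ℕ, EB 2 (fun i : Fin (2 * M + 1) => yy ((i : ℤ) - M))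
  (fun i : Fin (2 * M + 1) => (((i : ℤ) - M : ℤ) : ℝ) ^ 2)

/-- **FCG** (90 min; uses SGC, EB2, GM, UNI). GM for `n = 2` and the harmonics of EB2: `nu 2 (m²) = |m|`,
`co (yy m) h ρ r = √(2π) cm (SH h ρ) m r` (SGC, `rot φ (r ev 0) = r ev φ`), `r^{(2-2)/2} = 1`. GM gives for every `M` solutions `J~ m` and `G~ m`; by UNI
`J~ m = c J m`, `c² = 1` (both are normalised), so `G m ρ := cm (SH h ρ) m (r₀) / J m (log (2π r₀ ρ))`, i.e. `G m = c G~ m/√(2π)`, does not depend on `M`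
(choose `M = |m|` for the definition; equality of two candidates `G`, `G'` from `G ρ J = G' ρ J` for all arguments and `J ≠ 0` somewhere).
The sum over `|m| ≤ M` is bounded for every `M`. If GM gives `G~ m = 0`, `G m = 0`. -/
def T_FCG : Prop := ∃ C : ℝ≥0, ∀ (J J' : ℤ → ℝ → ℝ), (∀ m : ℤ, NSol |(m : ℝ)| (J m) (J' m)) →
  ∀ h : E 2 → ℂ, Continuous h → ∃ G : ℤ → ℝ → ℂ, (∀ m, Measurable (G m)) ∧
    (∀ (m : ℤ) (ρ r : ℝ), 0 < ρ → 0 < r →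
      cm (SH h ρ) m r = G m ρ * J m (Real.log (2 * Real.pi * r * ρ))) ∧
    ∑' m : ℤ, ∫⁻ ρ in Ioi (0 : ℝ), ‖G m ρ‖ₑ ^ 2 * ENNReal.ofReal ρ⁻¹ ≤ C * ∫⁻ ξ, ‖h ξ‖ₑ ^ 2

/-- **SCM** (75 min; uses MODA, DSN). (1) `𝓕 (amode m f) = amode m (𝓕 f)` (MODA), Fubini on the disc, `η = rot θ ξ`,
`ex x (rot (-θ) η) = ex (rot θ x) η`. (2) for a continuous `F`: `rot θ' (r ev θ) = r ev (θ+θ')`, shift in a period. (3) DSN (`S1 f = SH (𝓕 f)`, jointly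
continuous) and Fubini. -/
def T_SCM : Prop := ∀ f : E 2 → ℂ, Nice f → ∀ (m : ℤ) (R : ℝ), 0 ≤ R →
  (∀ x, S (amode m f) R x = amode m (S f R) x) ∧
  (∀ r θ : ℝ, S (amode m f) R (r • ev θ) = ci (m * θ) * cm (S f R) m r) ∧
  (∀ a r : ℝ, 0 ≤ a → a ≤ R → cm (S f R) m r - cm (S f a) m r =
    ∫ ρ in Ioc a R, cm (SH (𝓕 f) ρ) m r)

/-! ### F. One thin annulus -/

/-- **ANB** (45 min; uses DSN, AHT): near the origin. `|S f R x - S f R0 x| ≤ ∫_{R0}^{R0 e^δ} |SH (𝓕 f) ρ x| dρ`, whose square is at most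
`(e^δ - 1) R0 ∫_{R0}^{R0 e^δ} |SH h ρ x|² dρ`, `h = 1_{R0 ≤ |ξ| ≤ R0 e^δ} 𝓕 f`; `e^δ - 1 ≤ 2δ`; AHT with `T = 1/(δ R0)`. -/
def T_ANB : Prop := ∃ C : ℝ≥0, ∀ (f : E 2 → ℂ) (R0 δ : ℝ), Nice f → 0 < R0 → 0 < δ → δ ≤ 1 →
  ∫⁻ x in Metric.closedBall (0 : E 2) (1 / (δ * R0)),
    (⨆ (R : ℝ) (_ : R0 ≤ R ∧ R ≤ R0 * Real.exp δ), ‖S f R x - S f R0 x‖ₑ) ^ 2 ≤
  C * ∫⁻ ξ in {ξ : E 2 | R0 ≤ ‖ξ‖ ∧ ‖ξ‖ ≤ R0 * Real.exp δ}, ‖𝓕 f ξ‖ₑ ^ 2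

/-- **LGV** (45 min): logarithmic variables `ρ = e^v/(2π)`, `r = e^u`, `kap J x = e^x J x`. -/
def T_LGV : Prop := (∀ (G : ℝ → ℂ) (J : ℝ → ℝ) (r a b : ℝ), Measurable G → Continuous J →
    0 < r → 0 < a → a ≤ b →
    ∫ ρ in Ioc a b, G ρ * J (Real.log (2 * Real.pi * r * ρ)) =
      (((2 * Real.pi * r)⁻¹ : ℝ) : ℂ) *
        ∫ v in Ioc (Real.log (2 * Real.pi * a)) (Real.log (2 * Real.pi * b)),
          kap J (Real.log r + v) * G (Real.exp v / (2 * Real.pi)) ∧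
    ∫⁻ v in Ioc (Real.log (2 * Real.pi * a)) (Real.log (2 * Real.pi * b)),
      ‖G (Real.exp v / (2 * Real.pi))‖ₑ ^ 2 = ∫⁻ ρ in Ioc a b, ‖G ρ‖ₑ ^ 2 * ENNReal.ofReal ρ⁻¹) ∧
  ∀ F : ℝ → ℝ≥0∞, Measurable F →
    ∫⁻ r in Ioi (0 : ℝ), ENNReal.ofReal r⁻¹ * F (Real.log r) = ∫⁻ u, F u

/-- **ANC** (120 min; uses SCM, LGV, WCW, POLC): away from the origin, for a window. `C`, `B` from WCW. Let `h = 𝓕 f`, `v0 = log (2π R0)`,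
`g_k v = 1_{(v0, v0+δ]} G (w+k) (e^v/(2π))`, `x = r ev θ`, `r = e^u`. By SCM and LGV, for `R0 ≤ R ≤ R0 e^δ`, `V = log (2πR) ≤ v0 + δ`:
`S (pv K w f) R x - S (pv K w f) R0 x = ci (wθ) (2πr)⁻¹ Σ_k ci (kθ) ∫_{Ioc v0 V} kap (J (w+k)) (u+v) g_k v dv`. If `0 ≤ w` the orders are
`|w+k| = w + k`: at most `(2πr)⁻¹ WM K (fun k => kap (J (w+k))) g u θ`. If `w + K ≤ 1` put `k = K-1-k'`: the orders are `|w+k| = (1-w-K) + k'`, and the sum is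
`ci ((K-1)θ) Σ_{k'} ci (-k'θ) ..`: `WM` at `-θ` for the reversed kernels. Polar coordinates: `r dr (2πr)⁻² = (2π)⁻² dr/r`, LGV (`dr/r = du`); the set becomes
`u ≥ 100 B (1+log K)² - log R0 ≥ 100 B (1+log K)² - v0`; `WM` is `2π`-periodic in `θ` (`(-π,π]` and `(0,2π]`, `IsAddFundamentalDomain.lintegral_eq`). WCW. (Measurability: the
supremum on the left is lower semicontinuous in `x`; use POLC and LGV for the left side, in the variables `u`, `θ`, and bound by `WM` after that.) -/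
def T_ANC : Prop := T_HANK → T_CARLS → ∃ (C : ℝ≥0) (B : ℝ), 1 ≤ B ∧
  ∀ (J J' : ℤ → ℝ → ℝ), (∀ m : ℤ, NSol |(m : ℝ)| (J m) (J' m)) →
  ∀ (K : ℕ) (w : ℤ) (δ R0 : ℝ) (f : E 2 → ℂ) (G : ℤ → ℝ → ℂ), 1 ≤ K → (0 ≤ w ∨ w + K ≤ 1) →
  0 < R0 → 0 < δ → δ * Real.exp (B * (1 + Real.log K) ^ 2) ≤ 1 → Nice f →
  (∀ m, Measurable (G m)) →
  (∀ (m : ℤ) (ρ r : ℝ), 0 < ρ → 0 < r →
      cm (SH (𝓕 f) ρ) m r = G m ρ * J m (Real.log (2 * Real.pi * r * ρ))) →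
    ∫⁻ x in {x : E 2 | Real.exp (100 * (B * (1 + Real.log K) ^ 2)) ≤ ‖x‖ * R0},
      (⨆ (R : ℝ) (_ : R0 ≤ R ∧ R ≤ R0 * Real.exp δ),
        ‖S (pv K w f) R x - S (pv K w f) R0 x‖ₑ) ^ 2 ≤
    C * ∑ k ∈ Finset.range K, ∫⁻ ρ in Ioc R0 (R0 * Real.exp δ),
      ‖G (w + k) ρ‖ₑ ^ 2 * ENNReal.ofReal ρ⁻¹

/-! ### G. The window theorem in the plane -/

/-- **MWN** (120 min; uses ANB, ANC, FCG, EXN, MODA, MODB): the maximal theorem for all windows `[Kw, Kw+K)`, `w ∈ ℤ` (for `w < 0`: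
`Kw + K ≤ 0`). `B` from ANC, `δ = exp (-100 B (1+log K)²)`, `R_j = e^{δj}`, `F = pv K (Kw) f` (Nice by MODA). For `R ∈ [R_j, R_{j+1}]`:
`|S F R| ≤ |S F R_j| + D_j`, `D_j = sup_{R_j ≤ R ≤ R_{j+1}} |S F R - S F R_j|`, so `sup_R |S F R|² ≤ 2 sup_j |S F R_j|² + 2 Σ_j D_j²`. First part: T_DSP with
gap `δ/2` (`1 - e^{-δ} ≥ δ/2`), `log (3 + log (2/δ)) ≤ C_B LL K`. Second part: `∫ D_j²` over `|x| ≤ 1/(δ R_j)` by ANB (sum over `j`: the annuli overlap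
in null sets, Plancherel: `≤ C ∫ |F|²`), over `|x| R_j ≥ 1/δ` by ANC with `G` from FCG for `h = 𝓕 f` (sum over `j`: the intervals `(R_j, R_{j+1}]` are
disjoint). Sum over `w`: `Σ_w ∫ |pv K (Kw) f|² = Σ_m ∫ |amode m f|² = ∫ |f|²` (MODB), `Σ_w Σ_{k<K} ∫ |G (Kw+k)|² dρ/ρ = Σ_m ≤ C ∫ |𝓕 f|² = C ∫ |f|²`.
(Measurability: `(R, x) ↦ S F R x` is jointly continuous for `R > 0`, see `CRR/P_RAD.lean`.) -/
def T_MWN : Prop := T_DSP → T_HANK → T_CARLS → ∃ C : ℝ≥0, ∀ (K : ℕ) (f : E 2 → ℂ), 1 ≤ K →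
  Nice f → ∑' w : ℤ, ∫⁻ x, (⨆ (R : ℝ) (_ : 0 < R), ‖S (pv K (K * w) f) R x‖ₑ) ^ 2 ≤
    C * ENNReal.ofReal (LL K ^ 12) * ∫⁻ x, ‖f x‖ₑ ^ 2

/-! ### H. Arcs -/

/-- **FEJ** (60 min): Fejér's kernel `fej N θ = |Σ_{k<N} e^{ikθ}|²/N = Σ_{|m|<N} (1 - |m|/N) e^{imθ}`. Lower bound:
`|Σ_{k<N} e^{ikθ}| = |sin(Nθ/2)/sin(θ/2)| ≥ (2/π) N` for `0 < |θ| ≤ π/N`. Sum over `j`: for `|m| < N`, `Σ_{j<N} e^{-2πijm/N} = 0` unless `m = 0`. Last: orthogonality. -/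
def T_FEJ : Prop := ∀ N : ℕ, 1 ≤ N → Continuous (fej N) ∧
  (∀ θ, 0 ≤ fej N θ ∧ fej N (θ + 2 * Real.pi) = fej N θ) ∧
  (∀ θ, |θ| ≤ Real.pi / N → 4 / Real.pi ^ 2 * N ≤ fej N θ) ∧
  (∀ θ, ∑ j ∈ Finset.range N, fej N (θ - 2 * Real.pi * j / N) = N) ∧
  ∀ (m : ℤ) (ψ : ℝ), (N : ℤ) ≤ |m| →
    ∫ θ in (-Real.pi)..Real.pi, (fej N (θ - ψ) : ℂ) * ci (m * θ) = 0

/-- **DCP** (90 min; uses FEJ): decoupling. `u_w = Σ_{k<N} a (Nw+k) ci ((Nw+k)θ)`, `U_M = Σ_{|w| ≤ M} u_w`. In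
`∫ F |U_M|² = Σ_{w,w'} ∫ F u_w conj u_{w'}`, `F = fej N (· - ψ)`, the terms with `|w - w'| ≥ 2` vanish (differences of frequencies `≥ N+1`), and for
`|w-w'| = 1` `|u_w u_{w'}| ≤ (|u_w|² + |u_{w'}|²)/2`: total `≤ 3 Σ_w ∫ F |u_w|²`. `M → ∞`: `U_M → u` in `L²(-π,π)` (Fourier series of the continuous periodic `u`,
Mathlib: `hasSum_fourier_series_L2`, `AddCircle`; or Bessel/Parseval), `F` is bounded. -/
def T_DCP : Prop := ∀ (N : ℕ) (ψ : ℝ) (u : ℝ → ℂ) (a : ℤ → ℂ), 1 ≤ N → Continuous u →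
  (∀ θ, u (θ + 2 * Real.pi) = u θ) →
  (∀ m : ℤ, a m = ((2 * Real.pi)⁻¹ : ℝ) * ∫ θ in (-Real.pi)..Real.pi, u θ * ci (-(m * θ))) →
    ∫⁻ θ in Ioc (-Real.pi) Real.pi, ENNReal.ofReal (fej N (θ - ψ)) * ‖u θ‖ₑ ^ 2 ≤
      3 * ∑' w : ℤ, ∫⁻ θ in Ioc (-Real.pi) Real.pi, ENNReal.ofReal (fej N (θ - ψ)) *
        ‖∑ k ∈ Finset.range N, a (N * w + k) * ci (((N : ℝ) * w + k) * θ)‖ₑ ^ 2

/-- **ARM** (90 min; uses MWN, FEJ, DCP, SCM, POLC, MODA): the maximal form. Fix `r`, `R > 0`, `u θ = S f R (r ev θ)` (continuous), its coefficients are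
`cm (S f R) m r`, and `Σ_{k<N} cm (S f R) (Nw+k) r ci (..θ) = S (pv N (Nw) f) R (r ev θ)` (SCM; `S` is linear). On the arc `j`, with centre
`φ_j = -π + 2π(j+1/2)/N`, `1 ≤ (π²/(4N)) fej N (θ - φ_j)` (FEJ), so by DCP
`∫_{arc j} |u|² ≤ (3π²/(4N)) Σ_w ∫ fej N (θ - φ_j) |S (pv N (Nw) f) R (r ev θ)|² dθ`; take the supremum over `R` inside, sum over `j` (`Σ_j fej N (θ-φ_j) = N`), integrate
`r dr` (POLC): `≤ (3π²/4) Σ_w ∫ sup_R |S (pv N (Nw) f) R x|² dx`, MWN. -/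
def T_ARM : Prop := T_DSP → T_HANK → T_CARLS → ∃ C : ℝ≥0, ∀ (N : ℕ) (f : E 2 → ℂ), 1 ≤ N →
  Nice f → ∫⁻ r in Ioi (0 : ℝ), (∑ j ∈ Finset.range N, ⨆ (R : ℝ) (_ : 0 < R),
      ∫⁻ θ in Ioc (-Real.pi + 2 * Real.pi * j / N) (-Real.pi + 2 * Real.pi * (j + 1) / N),
        ‖S f R (r • ev θ)‖ₑ ^ 2) * ENNReal.ofReal r ≤
    C * ENNReal.ofReal (LL N ^ 12) * ∫⁻ x, ‖f x‖ₑ ^ 2

/-- **ARL** (75 min; uses ARM, OSC, POLC): the final theorem. Use ARM for `2N` arcs `I_j = (e_l, e_r]` of length `π/N` (`LL (2N) ≤ 2 LL N`). Let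
`x = r ev φ`, `φ ∈ I_j`, `a ≤ φ < b`, `2π/N ≤ b - a` as in the hypothesis. If `a ≤ e_l` then `e_l ∈ [a,b)`; otherwise `b ≥ a + 2π/N > e_r`, so `e_r ∈ [a,b)`. So
`|S f (R x) x| ≤ |S f (R (r ev e_l)) x| + |S f (R (r ev e_r)) x| + sup {|S f R x - S f R' x| : |R-R'| ≤ A/|x|}`; square, integrate (POLC), ARM for the first two terms
(`∫_{I_j} |S f ρ|² ≤ sup_R`), OSC for `n = 2` for the last one. -/
def T_ARL : Prop := T_DSP → T_HANK → T_CARLS → ∃ C : ℝ≥0, ∀ (N : ℕ) (A : ℝ) (f : E 2 → ℂ)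
  (R : E 2 → ℝ), 1 ≤ N → 0 ≤ A → Nice f → Measurable R → (∀ x, 0 < R x) →
  (∀ r φ : ℝ, 0 < r → ∃ a b : ℝ, a ≤ φ ∧ φ < b ∧ 2 * Real.pi / N ≤ b - a ∧
    ∀ ψ : ℝ, a ≤ ψ → ψ < b → |R (r • ev ψ) - R (r • ev φ)| ≤ A / r) →
    ∫⁻ x, ‖S f (R x) x‖ₑ ^ 2 ≤
      C * ENNReal.ofReal (LL N ^ 12 + Real.log (2 + A) ^ 2) * ∫⁻ x, ‖f x‖ₑ ^ 2

end Pool.Agent.CRW
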