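import Pool.Agent.CRW.Targets3
import Pool.Agent.VRC.Targets7

set_option autoImplicit false

/-!
# CRW: targets, part 5: angular frequencies in a `Λ(6)` set (no loss)

THEOREM: let `Λ ⊆ ℤ` be a `Λ(6)` set: `‖u‖_6 ≤ B ‖u‖_2` for all functions on the circle with spectrum in `Λ`. Then
`‖S_* f‖₂ ≤ C_B ‖f‖₂` and `S_R f → f` a.e. for all `f ∈ L² (ℝ²)` with angular frequencies in `Λ`. It follows from the `V^4` theorem
`VRC.T_RAV` (for all `f`) by chaining in `L^6` of the circle. Every target `T_X` is to be proved as `theorem p_X : T_X` (targets named in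
brackets are hypotheses) in a NEW file `Pool/Agent/CRW/P_X.lean` importing this one, helper lemmas in the sub-namespace `X_`.
-/

namespace Pool.Agent.CRW

open MeasureTheory FourierTransform Set Filter Topology
open scoped ENNReal NNReal ComplexConjugate
open Pool.Agent.MBS (E ex S Sstar)
open Pool.Agent.CRN (ci sg SH S1 Nice T_POLN T_DSN)
open Pool.Agent.CRL (ev rot amode T_MODA T_MODB T_POLC)
open Pool.Agent.VRC (VS T_RAV)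

/-- `Λ` is a `Λ(6)` set -/
def L6 (Λ : Set ℤ) (B : ℝ≥0) : Prop := ∀ u : ℝ → ℂ, Continuous u →
  (∀ θ, u (θ + 2 * Real.pi) = u θ) →
  (∀ m : ℤ, m ∉ Λ → ∫ θ in (-Real.pi)..Real.pi, u θ * ci (-(m * θ)) = 0) →
    ∫⁻ θ in Ioc (-Real.pi) Real.pi, ‖u θ‖ₑ ^ 6 ≤
      B * (∫⁻ θ in Ioc (-Real.pi) Real.pi, ‖u θ‖ₑ ^ 2) ^ 3

/-- the angular frequencies of `f` are in `Λ` -/
def AF (Λ : Set ℤ) (f : E 2 → ℂ) : Prop := ∀ m : ℤ, m ∉ Λ → ∀ᵐ x : E 2, amode m f x = 0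

/-- **LCH** (75 min): chaining; see `VRC/P_CHN.lean`, the same proof with `L²(μ)`, `L^6(μ)` in place of the random signs. `0 < V` (if `V = 0`, all
`X j = 0` a.e.). `d(j,k)² = ∫ |X j - X k|²`. Net `T_k`: `t_0 = 0`, `t_{r+1}` = the first `j > t_r`, `j ≤ M`, with `d(t_r, j) > 2^{-k} V`: `|T_k| ≤ 16^k + 1`, every
`j ≤ M` has `π_k j ∈ T_k`, `π_k j ≤ j`, `d(j, π_k j) ≤ 2^{-k} V`; for large `k1` `d(j, π_{k1} j) = 0`, `X j = X (π_{k1} j)` a.e. So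
`sup_j |X j| ≤ Σ_{k<k1} max_{t ∈ T_{k+1}} |X t - X (π_k t)|` a.e., and the `L^6` norm of the maximum is at most
`((16^{k+1} + 1) B (2^{-k} V)^6)^{1/6} ≤ C B^{1/6} V 2^{-k/3}`. -/
def T_LCH : Prop := ∃ C : ℝ≥0, ∀ (Ω : Type) [MeasurableSpace Ω] (μ : Measure Ω) (M : ℕ)
  (X : ℕ → Ω → ℂ) (B V : ℝ≥0∞), (∀ j, Measurable (X j)) → (∀ ω, X 0 ω = 0) → B ≠ ⊤ → V ≠ ⊤ →
  (∀ j k, j ≤ M → k ≤ M → ∫⁻ ω, ‖X j ω - X k ω‖ₑ ^ 6 ∂μ ≤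
    B * (∫⁻ ω, ‖X j ω - X k ω‖ₑ ^ 2 ∂μ) ^ 3) →
  (∀ (l : ℕ) (t : ℕ → ℕ), Monotone t → (∀ r, t r ≤ M) →
    ∑ r ∈ Finset.range l, (∫⁻ ω, ‖X (t (r + 1)) ω - X (t r) ω‖ₑ ^ 2 ∂μ) ^ 2 ≤ V ^ 4) →
    ∫⁻ ω, (⨆ (j : ℕ) (_ : j ≤ M), ‖X j ω‖ₑ) ^ 6 ∂μ ≤ C * B * V ^ 6

/-- **LAM** (90 min; uses LCH, RAV, SCM, SGC, POLN). Fix `r > 0`, `0 = R_0 < R_1 < ... < R_M`, `X j θ = S f (R_j) (rθ)` on the circle with `μ = sg 2`;
`X 0 = 0`. By MODA/SCM `S (amode m f) R = amode m (S f R)`, so the differences `u θ = S f R (r ev θ) - S f R' (r ev θ)` are continuous with spectrum in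
`Λ`: L6 (SGC converts `dθ` into `sg 2`). The sum over a monotone `t` is at most `VS f r ^ 4`. LCH gives `∫ sup_j |X j|^6 ≤ C B VS^6`, and Hölder
(`sg 2` has mass `2π`) `∫ sup_j |X j|² ≤ C B^{1/3} VS²`. All finite sets of rational radii (monotone convergence; `S f R x` is continuous in `R`), POLN, RAV.
(`VS f r < ∞` for a.e. `r`; replace `B` by `1 + B`.) -/
def T_LAM : Prop := ∃ C : ℝ≥0, ∀ (Λ : Set ℤ) (B : ℝ≥0) (f : E 2 → ℂ), L6 Λ B → Nice f → AF Λ f →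
  ∫⁻ x, Sstar f x ^ 2 ≤ C * (1 + B) * ∫⁻ x, ‖f x‖ₑ ^ 2

/-- **LAE** (75 min; uses LAM, MODA). Convergence, template `CRN/P_SERN.lean`: `f_ε = f ∗ φ_ε`, `φ_ε(x) = ε^{-2} e^{-π|x|²/ε²}`, `𝓕 f_ε = 𝓕f e^{-πε²|ξ|²} ∈ L¹`, so
`S f_ε R → f_ε` uniformly; `AF Λ f_ε` (`amode m` commutes with the radial multiplier: `𝓕 (amode m f_ε) = amode m (𝓕 f_ε) = 0`); `‖f - f_ε‖₂ → 0`; LAM for
`f - f_ε`. -/
def T_LAE : Prop := ∀ (Λ : Set ℤ) (B : ℝ≥0) (f : E 2 → ℂ), L6 Λ B → Nice f → AF Λ f →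
  ∀ᵐ x, Tendsto (fun R : ℝ => S f R x) atTop (𝓝 (f x))

/-- **LB3** (90 min): `B_3` sets (all sums of three elements are different up to the order) are `Λ(6)` sets. For a trigonometric polynomial
`u = Σ_{m ∈ F} a_m ci(mθ)`, `F ⊆ Λ` finite: `u³ = Σ_s (Σ_{(i,j,k) : i+j+k = s} a_i a_j a_k) ci(sθ)`, each inner sum has at most `6` terms, so
`∫ |u|^6 = 2π Σ_s |..|² ≤ 6 · 2π (Σ |a|²)³ = 6 (2π)^{-2} (∫ |u|²)³`. For continuous `u`: Fejér means (`Σ (1 - |m|/N) û(m) ci(mθ) → u` uniformly, or: the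
partial sums converge in `L²`, a subsequence a.e., Fatou: `hasSum_fourier_series_L2`). -/
def T_LB3 : Prop := ∀ Λ : Set ℤ, (∀ a ∈ Λ, ∀ b ∈ Λ, ∀ c ∈ Λ, ∀ a' ∈ Λ, ∀ b' ∈ Λ, ∀ c' ∈ Λ,
  a + b + c = a' + b' + c' → ({a, b, c} : Multiset ℤ) = {a', b', c'}) → L6 Λ 1

end Pool.Agent.CRW
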