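import Pool.Agent.CRW.Targets5
import Pool.Agent.VRR.Targets2

set_option autoImplicit false

/-!
# CRW: targets, part 6: angular frequencies in a `Λ(p)` set, `p > 2`

THEOREM (plane): let `2 < p ≤ 4` and `Λ ⊆ ℤ` with `‖u‖_p ≤ B ‖u‖_2` for all functions on the circle with spectrum in `Λ`. Then
`‖S_* f‖₂ ≤ C (p-2)^{-8} B ‖f‖₂` and `S_R f → f` a.e. for all `f ∈ L² (ℝ²)` with angular frequencies in `Λ` (`p = 2`, all `Λ`, is the open problem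
itself). For an arbitrary set of `K` frequencies the constant is `C (log (2+K))^8`. From `VRR.T_RAV` (`V^q`, `q > 2`) by chaining in `L^p`.
Every target `T_X` is to be proved as `theorem p_X : T_X` in a NEW file `Pool/Agent/CRW/P_X.lean` importing this one.
-/

namespace Pool.Agent.CRW

open MeasureTheory FourierTransform Set Filter Topology
open scoped ENNReal NNReal ComplexConjugate
open Pool.Agent.MBS (E ex S Sstar)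
open Pool.Agent.CRN (ci sg SH S1 Nice T_POLN T_DSN)
open Pool.Agent.CRL (ev rot amode T_MODA T_MODB T_POLC)

/-- `Λ` is a `Λ(p)` set with the constant `B` -/
def LP (p : ℝ) (Λ : Set ℤ) (B : ℝ≥0) : Prop := ∀ u : ℝ → ℂ, Continuous u →
  (∀ θ, u (θ + 2 * Real.pi) = u θ) →
  (∀ m : ℤ, m ∉ Λ → ∫ θ in (-Real.pi)..Real.pi, u θ * ci (-(m * θ)) = 0) →
    (∫⁻ θ in Ioc (-Real.pi) Real.pi, ‖u θ‖ₑ ^ p) ^ (1 / p) ≤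
      B * (∫⁻ θ in Ioc (-Real.pi) Real.pi, ‖u θ‖ₑ ^ 2) ^ (1 / 2 : ℝ)

/-- **LCP** (60 min): chaining in `L^p`, an edit of `P_LCH.lean` (there `q = 4`, `p = 6`, base `16`): `d(j,k) = (∫ |X j - X k|²)^{1/2}`; `G` with
`d(i,j)^q ≤ G j - G i`, `G ≤ V^q` (`exists_G`); level `m`: the `2^m` pieces of `[0, V^q]` (base `2`), `d ≤ (2 · 2^{-m})^{1/q} V` in a piece;
`sup_j |X j| ≤ Σ_m max over 2^{m+1} pairs`, the `L^p` norm of the `m`-th maximum is at most `(2^{m+1})^{1/p} B (2 · 2^{-m})^{1/q} V`, and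
`Σ_m 2^{-m(1/q-1/p)} ≤ C/(p-q)`. -/
def T_LCP : Prop := ∃ C : ℝ≥0, ∀ (Ω : Type) [MeasurableSpace Ω] (μ : Measure Ω) (M : ℕ)
  (X : ℕ → Ω → ℂ) (B V : ℝ≥0∞) (p q : ℝ), 2 < q → q < p → p ≤ 4 → (∀ j, Measurable (X j)) →
  (∀ ω, X 0 ω = 0) → B ≠ ⊤ → V ≠ ⊤ →
  (∀ j k, j ≤ M → k ≤ M → (∫⁻ ω, ‖X j ω - X k ω‖ₑ ^ p ∂μ) ^ (1 / p) ≤
    B * (∫⁻ ω, ‖X j ω - X k ω‖ₑ ^ 2 ∂μ) ^ (1 / 2 : ℝ)) →
  (∀ (l : ℕ) (t : ℕ → ℕ), Monotone t → (∀ r, t r ≤ M) →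
    ∑ r ∈ Finset.range l, (∫⁻ ω, ‖X (t (r + 1)) ω - X (t r) ω‖ₑ ^ 2 ∂μ) ^ (q / 2) ≤ V ^ q) →
    (∫⁻ ω, (⨆ (j : ℕ) (_ : j ≤ M), ‖X j ω‖ₑ) ^ p ∂μ) ^ (1 / p) ≤
      C * ENNReal.ofReal (1 / (p - q)) * B * V

/-- **LPM** (60 min; uses LCP, VRR.RAV, SCM, SGC, POLN): an edit of `P_LAM.lean` with `q = (p+2)/2`: `p - q = (p-2)/2`, `kr q ≤ 6/(p-2)`, `2 + 14 = 16`;
Hölder: `‖·‖_{L²(sg 2)} ≤ (2π)^{1/2-1/p} ‖·‖_{L^p}`. -/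
def T_LPM : Prop := ∃ C : ℝ≥0, ∀ (p : ℝ) (Λ : Set ℤ) (B : ℝ≥0) (f : E 2 → ℂ), 2 < p → p ≤ 4 →
  LP p Λ B → Nice f → AF Λ f →
    ∫⁻ x, Sstar f x ^ 2 ≤ C * ENNReal.ofReal ((1 / (p - 2)) ^ 16) * (1 + B ^ 2) * ∫⁻ x, ‖f x‖ₑ ^ 2

/-- **LPE** (30 min; uses LPM, MODA): convergence, an edit of `P_LAE.lean`. -/
def T_LPE : Prop := ∀ (p : ℝ) (Λ : Set ℤ) (B : ℝ≥0) (f : E 2 → ℂ), 2 < p → p ≤ 4 → LP p Λ B →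
  Nice f → AF Λ f → ∀ᵐ x, Tendsto (fun R : ℝ => S f R x) atTop (𝓝 (f x))

/-- **LKM** (60 min; uses LPM): `K` arbitrary frequencies. `u` continuous with spectrum in `F` is `Σ_{m ∈ F} a_m ci(mθ)` (uniqueness of Fourier
coefficients), `|u| ≤ √K (Σ |a|²)^{1/2} = (K/2π)^{1/2} ‖u‖_2`, so `∫ |u|^p ≤ (K/2π)^{(p-2)/2} ‖u‖_2^p`; `p - 2 = 2/(1 + log K)` (`≤ 2`):
`‖u‖_p ≤ K^{(p-2)/(2p)} ‖u‖_2 ≤ e ‖u‖_2`, LPM with `B = 3`, `1/(p-2) = (1 + log K)/2 ≤ 2 log (2+K)`. -/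
def T_LKM : Prop := ∃ C : ℝ≥0, ∀ (F : Finset ℤ) (f : E 2 → ℂ), Nice f → AF (F : Set ℤ) f →
  ∫⁻ x, Sstar f x ^ 2 ≤ C * ENNReal.ofReal (Real.log (2 + F.card) ^ 16) * ∫⁻ x, ‖f x‖ₑ ^ 2

/-- **LB2** (60 min): Sidon (`B_2`) sets are `Λ(4)` sets. For a trigonometric polynomial `u = Σ_{m ∈ F} a_m ci(mθ)`, `F ⊆ Λ` finite:
`u² = Σ_s (Σ_{(i,j) : i+j = s} a_i a_j) ci(sθ)`, at most `2` terms in each inner sum, so `∫ |u|⁴ = 2π Σ_s |..|² ≤ 2 · 2π (Σ |a|²)² = (1/π) (∫ |u|²)²`.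
For continuous `u`: the partial Fourier sums converge in `L²`, a subsequence a.e., Fatou. -/
def T_LB2 : Prop := ∀ Λ : Set ℤ, (∀ a ∈ Λ, ∀ b ∈ Λ, ∀ a' ∈ Λ, ∀ b' ∈ Λ, a + b = a' + b' →
  (a = a' ∧ b = b') ∨ (a = b' ∧ b = a')) → LP 4 Λ 1

end Pool.Agent.CRW
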