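import Pool.Agent.CRW.Targets4

set_option autoImplicit false

/-!
# CRW: targets, part 7: series of functions with angular frequencies in windows
-/

namespace Pool.Agent.CRW

open MeasureTheory FourierTransform Set Filter Topology
open scoped ENNReal NNReal ComplexConjugate
open Pool.Agent.MBS (E ex S Sstar)
open Pool.Agent.CRN (ci Nice T_CARLS T_SERN)
open Pool.Agent.CRL (ev)
open Pool.Agent.CRR (T_HANK)

/-- the angular frequencies of `g` are in the window `w, w+1, ..., w+K-1` -/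
def Win (K : ℕ) (w : ℤ) (g : E 2 → ℂ) : Prop := ∃ c : ℕ → ℝ → ℂ, ∀ r θ : ℝ, 0 < r →
  g (r • ev θ) = ∑ k ∈ Finset.range K, c k r * ci (((w : ℝ) + k) * θ)

/-- **MWS** (75 min; uses MWC, `CRN.T_SERN`), template `CRN/P_SERW.lean` (with `Win (K j) (w j) (g j)` for `AD (K j) (g j)`, weight `LL (K j) ^ 6`). The
inequality: `Sstar f ≤ Σ_j Sstar (g j)`, Minkowski, MWC. A.e. convergence: tails as in `P_SERW.lean`; for one function `g` with `Win K w g`: `AD M g` with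
`M = |w| + K` (`g (rt i j φ y)`, `y = r ev α`; at `y = 0` constant), and SERN with one term (`g 0 = g`, `g j = 0`, `K j = M`) gives `S g R x → g x` a.e. -/
def T_MWS : Prop := T_DSP → T_HANK → T_CARLS → ∃ C : ℝ≥0, ∀ (f : E 2 → ℂ) (g : ℕ → E 2 → ℂ)
  (K : ℕ → ℕ) (w : ℕ → ℤ), Nice f → (∀ j, Nice (g j)) → (∀ j, 1 ≤ K j) →
  (∀ j, Win (K j) (w j) (g j)) →
  Tendsto (fun J => ∫⁻ x, ‖f x - ∑ j ∈ Finset.range J, g j x‖ₑ ^ 2) atTop (𝓝 0) →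
    (∫⁻ x, Sstar f x ^ 2) ^ (1 / 2 : ℝ) ≤
      C * ∑' j : ℕ, ENNReal.ofReal (LL (K j) ^ 6) * (∫⁻ x, ‖g j x‖ₑ ^ 2) ^ (1 / 2 : ℝ) ∧
    ((∑' j : ℕ, ENNReal.ofReal (LL (K j) ^ 6) * (∫⁻ x, ‖g j x‖ₑ ^ 2) ^ (1 / 2 : ℝ)) ≠ ⊤ →
      ∀ᵐ x, Tendsto (fun R : ℝ => S f R x) atTop (𝓝 (f x)))

end Pool.Agent.CRW
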